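import Pool.Agent.Lib.MP_d439b2_co.W.SpecE

/-!
# MP_d439b2_co, W, E7: Ramsey's theorem for ordered pairs with finitely many colours
-/

set_option autoImplicit false

namespace Pool.Agent.MPd439b2.W

open Pool.Agent.MPd439b2

namespace RamCAux

theorem claim (κ : Type) [Finite κ] [Nonempty κ] : ∀ t : ℕ, ∃ N : ℕ, ∀ (χ : ℕ → ℕ → κ)
    (A : Finset ℕ), N ≤ A.card → ∃ (x : ℕ → ℕ) (γ : ℕ → κ), (∀ i < t, x i ∈ A) ∧
      ∀ i j, i < j → j < t → x i < x j ∧ χ (x i) (x j) = γ i := by
  classical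
  haveI : Fintype κ := Fintype.ofFinite κ
  intro t
  induction t with
  | zero =>
    refine ⟨0, fun χ A _ => ⟨fun _ => 0, fun _ => Classical.arbitrary κ, ?_, ?_⟩⟩
    · intro i hi
      exact absurd hi (Nat.not_lt_zero _)
    · intro i j _ hj
      exact absurd hj (Nat.not_lt_zero _)
  | succ t ih =>
    obtain ⟨N, hN⟩ := ih
    refine ⟨Fintype.card κ * N + 1, fun χ A hA => ?_⟩
    have hne : A.Nonempty := Finset.card_pos.1 (by omega)
    obtain ⟨a, ha⟩ : ∃ a, a = A.min' hne := ⟨_, rfl⟩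
    have haA : a ∈ A := by
      rw [ha]
      exact A.min'_mem hne
    have hcard : (A.erase a).card + 1 = A.card := Finset.card_erase_add_one haA
    obtain ⟨c, -, hc⟩ := Finset.exists_le_card_fiber_of_mul_le_card_of_maps_to
      (s := A.erase a) (t := (Finset.univ : Finset κ)) (f := fun y => χ a y) (n := N)
      (fun _ _ => Finset.mem_univ _) Finset.univ_nonempty (by rw [Finset.card_univ]; omega)
    obtain ⟨x, γ, hx, hxγ⟩ := hN χ _ hc
    have hx1 : ∀ i < t, x i ∈ A ∧ a < x i ∧ χ a (x i) = c := by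
      intro i hi
      have h1 := Finset.mem_filter.1 (hx i hi)
      have h2 := Finset.mem_erase.1 h1.1
      refine ⟨h2.2, lt_of_le_of_ne ?_ (Ne.symm h2.1), h1.2⟩
      rw [ha]
      exact A.min'_le _ h2.2
    refine ⟨fun i => Nat.casesOn i a x, fun i => Nat.casesOn i c γ, ?_, ?_⟩
    · intro i hi
      cases i with
      | zero => exact haA
      | succ i => exact (hx1 i (by omega)).1
    · intro i j hij hj
      cases j with
      | zero => exact absurd hij (Nat.not_lt_zero _)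
      | succ j =>
        cases i with
        | zero => exact (hx1 j (by omega)).2
        | succ i => exact hxγ i j (by omega) (by omega)

end RamCAux

theorem ramC : S_RamC := by
  classical
  intro κ _ m
  rcases isEmpty_or_nonempty κ with hκ | hκ
  · exact ⟨0, fun χ => (hκ.false (χ 0 0)).elim⟩
  haveI : Fintype κ := Fintype.ofFinite κ
  obtain ⟨N, hN⟩ := RamCAux.claim κ (Fintype.card κ * m)
  refine ⟨N, fun χ => ?_⟩
  obtain ⟨x, γ, hx, hxγ⟩ := hN χ (Finset.range N) (by rw [Finset.card_range])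
  obtain ⟨c, -, hc⟩ := Finset.exists_le_card_fiber_of_mul_le_card_of_maps_to
    (s := Finset.range (Fintype.card κ * m)) (t := (Finset.univ : Finset κ)) (f := γ) (n := m)
    (fun _ _ => Finset.mem_univ _) Finset.univ_nonempty
    (by rw [Finset.card_univ, Finset.card_range])
  obtain ⟨T, hT⟩ : ∃ T, T = (Finset.range (Fintype.card κ * m)).filter (fun i => γ i = c) :=
    ⟨_, rfl⟩
  rw [← hT] at hc
  have hmT : ∀ z ∈ T, z < Fintype.card κ * m ∧ γ z = c := by
    intro z hz
    rw [hT, Finset.mem_filter, Finset.mem_range] at hz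
    exact hz
  have hmem : ∀ k : Fin m, T.orderEmbOfCardLe hc k < Fintype.card κ * m ∧
      γ (T.orderEmbOfCardLe hc k) = c :=
    fun k => hmT _ (Finset.orderEmbOfCardLe_mem T hc k)
  refine ⟨fun k => if h : k < m then x (T.orderEmbOfCardLe hc ⟨k, h⟩) else 0, c, ?_, ?_, ?_⟩
  · intro k l hkl hl
    have hk : k < m := lt_trans hkl hl
    simp only [dif_pos hk, dif_pos hl]
    refine (hxγ _ _ ?_ (hmem ⟨l, hl⟩).1).1
    exact (T.orderEmbOfCardLe hc).lt_iff_lt.2 (Fin.mk_lt_mk.2 hkl)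
  · intro k hk
    simp only [dif_pos hk]
    exact Finset.mem_range.1 (hx _ (hmem ⟨k, hk⟩).1)
  · intro k l hkl hl
    have hk : k < m := lt_trans hkl hl
    simp only [dif_pos hk, dif_pos hl]
    rw [(hxγ _ _ ((T.orderEmbOfCardLe hc).lt_iff_lt.2 (Fin.mk_lt_mk.2 hkl)) (hmem ⟨l, hl⟩).1).2]
    exact (hmem ⟨k, hk⟩).2

end Pool.Agent.MPd439b2.W
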