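import Pool.Agent.Lib.MP_d439b2_co.W.Defs

/-!
# MP_d439b2_co, W, Spec E: from closed bundles to homogeneous group cycles (helper28)

Every `S_...` is a statement to be proved in its own file; the docstring contains the complete proof.
-/

set_option autoImplicit false

namespace Pool.Agent.MPd439b2.W

open Pool.Agent.MPd439b2

/-- a co-matching: `a i` and `b j` are adjacent iff `i ≠ j` -/
def CoM {V : Type} (D : SimpleGraph V) (m : ℕ) : Prop :=
  ∃ a b : ℕ → V, ∀ i < m, ∀ j < m, (D.Adj (a i) (b j) ↔ i ≠ j)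

/-- **Group cycles** (not yet homogeneous): nonempty groups `z i k`, groups with different indices are
disjoint; ladders between consecutive rails; the rails `0` and `r` are complete to each other -/
structure GC {V : Type} (D : SimpleGraph V) (M r : ℕ) (z : ℕ → ℕ → Finset V) : Prop where
  odd : r % 2 = 1
  ne : ∀ i ≤ r, ∀ k < M, (z i k).Nonempty
  dis : ∀ i ≤ r, ∀ j ≤ r, ∀ k < M, ∀ l < M, k ≠ l → Disjoint (z i k) (z j l)
  ev : ∀ i < r, i % 2 = 0 → ∀ k < M, ∀ l < M,
    (k < l → Cmp D (z i k) (z (i + 1) l)) ∧ (l < k → ¬ Cmp D (z i k) (z (i + 1) l))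
  od : ∀ i < r, i % 2 = 1 → ∀ k < M, ∀ l < M,
    (k < l → Cmp D (z (i + 1) k) (z i l)) ∧ (l < k → ¬ Cmp D (z (i + 1) k) (z i l))
  clo : ∀ k < M, ∀ l < M, Cmp D (z 0 k) (z r l)

/-- **E1.** Lemma A: two steps complete to each other crosswise are short.

Proof. Suppose `2 w + 2 ≤ m`.  For `a ≤ w` let `J a` be the join of `P (2 a)` and `Q (2 (w - a))`; it exists
(`JoinP`) because `P (2 a) ≤ P' (2 a + 1)` (`Step`) and `Q (2 (w - a)) ≤ P' (2 a + 1)` (last hypothesis).  So
`J a ≤ P' (2 a + 1)`; in the same way `J a ≤ Q' (2 (w - a) + 1)`, because `P (2 a) ≤ Q' _` and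
`Q (2 (w - a)) ≤ Q' (2 (w - a) + 1)`.  Let `a < b ≤ w`.  If `J b ≤ J a` then
`P (2 b) ≤ J b ≤ J a ≤ P' (2 a + 1)` with `2 a + 1 < 2 b`: contradiction to `Step m P P'`.  If `J a ≤ J b` then
`Q (2 (w - a)) ≤ J a ≤ J b ≤ Q' (2 (w - b) + 1)` with `2 (w - b) + 1 < 2 (w - a)`: contradiction to
`Step m Q Q'`.  So `J 0, .., J w` are different and form an antichain with `w + 1` elements, contradicting
`WidP α w`. -/
def S_LemA : Prop := ∀ (α : Type) [PartialOrder α] (w m : ℕ) (P P' Q Q' : ℕ → α), JoinP α →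
  WidP α w → Step m P P' → Step m Q Q' → (∀ k < m, ∀ l < m, P k ≤ Q' l) →
  (∀ k < m, ∀ l < m, Q k ≤ P' l) → m ≤ 2 * w + 1

/-- **E2.** Two consecutive steps in the same direction can be merged (uses E1).

Proof. Let `K = 4 w + 4`.  `k < l < m`: `a (K k) ≤ b (K k + 1) ≤ d (K l)` (as `K k < K k + 1 < K l`).
`l < k < m`: suppose `a (K k) ≤ d (K l)`.  Let `μ = 2 w + 2` and for `t < μ`
`P t = a (K k + 1 - μ + t)`, `P' t = b (K k + 1 - μ + t)`, `Q t = b (K l + t)`, `Q' t = d (K l + t)` (the first index is at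
least `K l + μ + 1` and at most `K k`).  `Step μ P P'`, `Step μ Q Q'` are clear.
`P t ≤ a (K k) ≤ d (K l) ≤ Q' t'` (monotonicity, `≤` for equal indices); `Q t = b (K l + t) ≤ P' t'` as
`K l + t ≤ K l + μ ≤ K k + 1 - μ + t'`.  E1 with `m := μ` gives `2 w + 2 ≤ 2 w + 1`: contradiction. -/
def S_Merge : Prop := ∀ (α : Type) [PartialOrder α] (w m : ℕ) (a b d : ℕ → α), JoinP α →
  WidP α w → (∀ k l, k < l → l < (4 * w + 4) * m → a k < a l ∧ b k < b l ∧ d k < d l) →
  Step ((4 * w + 4) * m) a b → Step ((4 * w + 4) * m) b d →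
  Step m (fun k => a ((4 * w + 4) * k)) (fun k => d ((4 * w + 4) * k))

/-- **E3.** Closed bundles contain alternating closed bundles (uses E2).

Proof. Let `K = 4 w + 4`, `M 0 = m + 2`, `M (r + 1) = K * M r + 1`.  We show by induction on `r` that `M r` works
for `r`.  `r = 0`: `v 0 1 ≤ v 0 0 < v 0 1`: contradiction.  Let `1 ≤ r`, `M' = M (r - 1)`, and choose for every
`i < r` the type `up` (`Step M (v i) (v (i + 1))`) or `down` (`Step M (v (i + 1)) (v i)`) (one of them holds).
(1) Two consecutive types `i - 1, i` (`1 ≤ i < r`) are equal.  Then let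
`v' j k = v j (K k)` for `j < i`, `v' j k = v (j + 1) (K k)` for `i ≤ j`; `Bun M' (r - 1) v'`: the step
`i - 1` by E2 (for `up` with `a, b, d = v (i - 1), v i, v (i + 1)`, for `down` with
`a, b, d = v (i + 1), v i, v (i - 1)`), all other steps by restriction (`K k < K l` iff `k < l`).
`v' 0 k ≤ v' (r - 1) l` is clear, as `i - 1 ≥ 0` and `i + 1 ≤ r`: the rails `0` and `r` are kept.  Induction
gives `r' ≤ r - 1` and `v'`.
(2) The type of the step `0` is `down`: `v' j k = v (j + 1) k`, `k < M (r) - 1`, is a bundle with `r - 1` steps,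
and `v 1 k ≤ v 0 (k + 1) ≤ v r l`.  Restrict to `M'` and use induction.
(3) The type of the step `r - 1` is `down` (`Step M (v r) (v (r - 1))`): `v' j k = v j (k + 1)`, `j ≤ r - 1`:
`v 0 (k + 1) ≤ v r 0 ≤ v (r - 1) (l + 1)`.  Induction.
(4) Otherwise the types alternate, the types of the steps `0` and `r - 1` are `up`.  So the even steps are `up`,
the odd steps `down`, `r - 1` is even: `Alt (M r) r v`, which restricts to `Alt m r v`. -/
def S_Alt : Prop := ∀ w r m : ℕ, ∃ M : ℕ, ∀ (α : Type) [PartialOrder α] (v : ℕ → ℕ → α),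
  JoinP α → WidP α w → Bun M r v → (∀ k < M, ∀ l < M, v 0 k ≤ v r l) →
  ∃ (r' : ℕ) (v' : ℕ → ℕ → α), r' ≤ r ∧ Alt m r' v'

/-- **E4.** `Cl D` has joins.

Proof. Let `x ≤ u`, `y ≤ u` (inclusion of closed sets).  `X = x ∪ y ⊆ u`, `j = cn (cn X)`.
`cn u ⊆ cn X`, so `cn X` is not empty, `cn j = cn X` (`cn3`) is not empty, `j ⊇ X ⊇ x` is not empty, and
`cn (cn j) = cn (cn X) = j`.  So `j` is closed; `x, y ⊆ X ⊆ j`.  If `x, y ≤ t` then `X ⊆ t`, so
`j = cn (cn X) ⊆ cn (cn t) = t`. -/
def S_Join : Prop := ∀ (V : Type) (D : SimpleGraph V), JoinP (Cl D)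

/-- **E5.** Small generators.

Proof. First part: among the subsets `X` of `x.1` with `cn D X = cn D x.1` (for example `x.1` itself, finite)
choose one with the minimal number of elements.  For `v ∈ X`: `cn D (X \ {v}) ≠ cn D x.1` (minimality), and
`cn D X ⊆ cn D (X \ {v})`, so there is `β v ∈ cn D (X \ {v})` which is not in `cn D X`: `β v` is adjacent to all
`u ∈ X`, `u ≠ v`, and not adjacent to `v`.  If `m ≤ X.card` let `a 0, .., a (m - 1)` be different elements of
`X` and `b i = β (a i)`: `CoM D m`, contradiction.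
Second part: apply the first part to `sg D x`: `cn D Y = cn D (sg D x).1 = cn D (cn D x.1) = x.1`. -/
def S_Gen : Prop := ∀ (V : Type) [Finite V] (D : SimpleGraph V) (m : ℕ), ¬ CoM D m →
  ∀ x : Cl D, (∃ X : Finset V, X.card < m ∧ cn D X = cn D x.1) ∧
    ∃ Y : Finset V, Y.card < m ∧ cn D Y = x.1

/-- **E6.** The sunflower lemma for groups with `e` roles.

Proof. We show by induction on `S`: for all `m` there is `N` such that the conclusion holds for all families with
`∑ i ∈ range e, (T i k).card ≤ S` for `k < N`; then take `S = e * t`.  `S = 0`: `N = m`, `s = id`, `K = ∅`.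
Step `S → S + 1`: let `N'` be the number for `S` and `m`, `N = m + e * (m * (S + 1)) * N' + 1`.  Write
`U k = ⋃ i < e, T i k` (at most `S + 1` elements).  Let `J` be a maximal set of indices `< N` for which the sets
`U k` (`k ∈ J`) are pairwise disjoint.  If `m ≤ |J|`: enumerate `m` elements of `J` increasingly, `K = ∅`.
Otherwise `W = ⋃ k ∈ J, U k` has at most `m * (S + 1)` elements, and by maximality `U k` meets `W` for all
`k ∉ J`, `k < N`.  For these at least `e * (m (S + 1)) * N' + 1` indices choose `(i, x)` with `i < e`, `x ∈ W`,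
`x ∈ T i k`.  By pigeonhole there are `(i₀, x)` and at least `N'` indices `k` with this pair; enumerate them
increasingly, `σ 0 < .. < σ (N' - 1)`, and put `T' i k = T i (σ k)` for `i ≠ i₀`,
`T' i₀ k = T i₀ (σ k) \ {x}`.  The sum of the sizes is at most `S`.  Induction gives `s'`, `K'`.  `s = σ ∘ s'`,
`K i = K' i` for `i ≠ i₀`, `K i₀ = K' i₀ ∪ {x}`: `T i₀ (s k) \ K i₀ = T' i₀ (s' k) \ K' i₀`, and all
properties follow. -/
def S_Sun : Prop := ∀ e t m : ℕ, ∃ N : ℕ, ∀ (V : Type) [DecidableEq V] (T : ℕ → ℕ → Finset V),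
  (∀ i < e, ∀ k < N, (T i k).card ≤ t) →
  ∃ (s : ℕ → ℕ) (K : ℕ → Finset V), (∀ k l, k < l → l < m → s k < s l) ∧ (∀ k < m, s k < N) ∧
    (∀ i < e, ∀ k < m, K i ⊆ T i (s k)) ∧
    ∀ i < e, ∀ j < e, ∀ k < m, ∀ l < m, k ≠ l → Disjoint (T i (s k) \ K i) (T j (s l) \ K j)

/-- **E7.** Ramsey's theorem for ordered pairs with finitely many colours.

Proof. (If `κ` is empty, a function `χ` is impossible.)  Let `q = Nat.card κ ≥ 1`.  CLAIM: for every `t` there is
`N t` such that for every `χ` and every finite set `A` of natural numbers with at least `N t` elements there are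
`x 0 < x 1 < .. < x (t - 1)` in `A` and colours `γ i` with `χ (x i) (x j) = γ i` for `i < j < t`.
`N 0 = 0`, `N (t + 1) = q * N t + 1`: `x 0` the smallest element of `A`; by pigeonhole at least `N t` of the other
elements `y` have the same colour `χ (x 0) y`; induction.  Take `t = q * m`: among the colours
`γ 0, .., γ (t - 1)` one occurs at least `m` times; the corresponding `x i` are the values of `s`.  Take
`N = N t`, `A = range N`.  (`m = 0`: any colour, e.g. `χ 0 0`.) -/
def S_RamC : Prop := ∀ (κ : Type) [Finite κ] (m : ℕ), ∃ N : ℕ, ∀ χ : ℕ → ℕ → κ,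
  ∃ (s : ℕ → ℕ) (c : κ), (∀ k l, k < l → l < m → s k < s l) ∧ (∀ k < m, s k < N) ∧
    ∀ k l, k < l → l < m → χ (s k) (s l) = c

/-- **E8.** From an alternating closed bundle of closed sets to a group cycle (uses E5, E6).

Proof. Let `M'` be the number of E6 for `e = r + 1`, `t = m₀`, `m = M + 4`.  For `i` even, `i ≤ r`, let `T i k` be
the set `X` of E5 for `v i k` (`cn X = cn (v i k)`); for `i` odd let `T i k` be the set `Y` of E5 for `v i k`
(`cn Y = v i k`).
(1) For `i` even, `j` odd (`≤ r`), `k, l < M'`: `Cmp D (T i k) (T j l) ↔ v i k ≤ v j l`.  `Cmp` says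
`T i k ⊆ cn (T j l) = v j l`.  If this is true then
`v i k = cn (cn (v i k)) = cn (cn (T i k)) ⊆ cn (cn (v j l)) = v j l`; conversely
`T i k ⊆ cn (cn (T i k)) = v i k`.
(2) E6 gives `s` and `K`.  `z i k = T i (s (k + 2)) \ K i`, `k < M`.  `dis` is the last property of E6.
(3) Let `i < r` be even, `i' = i + 1`; or `i' < r` odd and `i = i' + 1` (source `i` even, target `i'` odd).  In
both cases `Step M' (v i) (v i')`.  `k < l`: `Cmp (T i _) (T i' _)` by (1), so `Cmp` for the subsets.
`l < k`: `T i (s (k + 2))` is not complete to `T i' (s (l + 2))` by (1).  But `K i ⊆ T i (s 0)` is complete to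
`T i' (s (l + 2))`, and `T i (s (k + 2))` is complete to `T i' (s (M + 3)) ⊇ K i'`.  So `z i k` is not complete to
`z i' l`.
(4) `clo`: `v 0 k ≤ v r l` for all `k, l`, (1), subsets.
(5) `ne`: `i` even (so `i < r`, as `r` is odd): suppose `z i k = ∅`, `T i (s (k + 2)) = K i ⊆ T i (s 0)`, which is
complete to `T (i + 1) (s 1)` (`0 < 1`).  So `v i (s (k + 2)) ≤ v (i + 1) (s 1)` by (1), contradicting
`Step` as `s 1 < s (k + 2)`.  `i` odd: the rail `i - 1` is even, `i - 1 < r`,
`Step M' (v (i - 1)) (v i)`.  Suppose `z i k = ∅`, `T i (s (k + 2)) = K i ⊆ T i (s (M + 3))`; so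
`T (i - 1) (s (M + 2))` is complete to it, so `v (i - 1) (s (M + 2)) ≤ v i (s (k + 2))`, contradicting `Step` as
`s (k + 2) < s (M + 2)`. -/
def S_GrpA : Prop := ∀ m₀ r M : ℕ, ∃ M' : ℕ, ∀ (V : Type) [Finite V] (D : SimpleGraph V)
  (v : ℕ → ℕ → Cl D), ¬ CoM D m₀ → Alt M' r v → ∃ z, GC D M r z

/-- **E9.** From a group cycle to a homogeneous group cycle (uses E7).

Proof. Let `M'` be the number of E7 for `κ = Fin (r + 1) → Fin (r + 1) → Prop` (or `Bool`) and `m = M + 2`;
`χ k l = fun i j => Cmp D (z i k) (z j l)`.  E7 gives `s` and `c`; `z' i k = z i (s k)` for `k < M + 2`,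
`E i j` is `c i j` for `i, j ≤ r` (and `False` otherwise).  `ne`, `dis`, `odd` are clear, `rel` by E7.  `i < r`
even: with `k = 0 < 1 = l`: `Cmp D (z' i 0) (z' (i + 1) 1)`, so `E i (i + 1)`; and
`¬ Cmp D (z' i 1) (z' (i + 1) 0)`, which is `¬ Cmp D (z' (i + 1) 0) (z' i 1)` by symmetry, so
`¬ E (i + 1) i`.  `i` odd: the same.  `clo`: `Cmp D (z' 0 0) (z' r 1)`, `Cmp D (z' 0 1) (z' r 0)`. -/
def S_GrpB : Prop := ∀ r M : ℕ, ∃ M' : ℕ, ∀ (V : Type) (D : SimpleGraph V)
  (z : ℕ → ℕ → Finset V), GC D M' r z → ∃ z' E, HGC D M r z' E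

/-- **E10.** A large co-matching contains everything bipartite.

Proof. `m = N * N + s + 3`.  Let `a, b` be the co-matching.  For different indices `t, u < m` there is a third
index `x`; `a t` and `a u` are different (`a t` is adjacent to `b u`, `a u` is not) and not adjacent (`b x` is
adjacent to both, no triangles); the same for `b`.  `a t ≠ b t`: otherwise with `x` third, `a t = b t` is
adjacent to `b u` and to `a x`, and `a x` is adjacent to `b u`: triangle.
Let `code i j = i * N + j < N * N` (`i, j < N`; injective).  For `i : Fin N` let `I i` be the set of the indices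
`code i i`, and `code i j`, `code j i` for all `j` with `col j ≠ col i`, `¬ F.Adj i j`.  Let `i ≠ j`.  If
`col i = col j` or `F.Adj i j` then `I i` and `I j` are disjoint: a common element is `code x y` with `{x, y}`
containing `i` and `j`, so `{x, y} = {i, j}`, and `col i ≠ col j`, `¬ F.Adj i j`.  If `col i ≠ col j` and
`¬ F.Adj i j` then `code i j` is in both.
The model of `KCo s F` in `Dᶜ`: `inr i ↦ {a t | t ∈ I i}` if `col i = true`, `{b t | t ∈ I i}` if
`col i = false`; `inl q ↦ {a t, b t}` with `t = N * N + q`.  These sets are pairwise disjoint (also for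
different colours: `a t ≠ b u` for all `t, u`).  They are connected in `Dᶜ`: the `a t` are pairwise not adjacent in
`D`, and `a t, b t` are not adjacent in `D`.  `inl q` is joined by an edge of `Dᶜ` to every other set: for
`inr i` of colour `true`, `a t` and `a u` are different and not adjacent in `D`; the same for `b`; and for
`inl q'`.  `inr i`, `inr j` of the same colour are joined (not adjacent in `F`, as adjacent vertices have
different colours).  `inr i`, `inr j` with `col i = true`, `col j = false`: there is an edge of `Dᶜ` iff there are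
`t ∈ I i`, `u ∈ I j` with `¬ D.Adj (a t) (b u)`, that is `t = u`, iff `I i ∩ I j` is not empty iff `¬ F.Adj i j`.
(For `IsIndMinor` note that a set which is pairwise adjacent in `Dᶜ` and not empty induces a connected graph.) -/
def S_CoM : Prop := ∀ N s : ℕ, ∃ m : ℕ, ∀ (V : Type) (D : SimpleGraph V)
  (F : SimpleGraph (Fin N)) (col : Fin N → Bool), (∀ i j, F.Adj i j → col i ≠ col j) →
  TriFree D → CoM D m → IsIndMinor (KCo s F) Dᶜ

/-- **E11.** The width of `Cl D` (uses E5, E6, E7, E10).

Proof. Let `m₀` be the number of E10 for `N = 2 k` and `s` (`nP2 k` is a graph with `2 k` vertices with a proper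
2-colouring; transport along a bijection `Fin k × Bool ≃ Fin (2 k)`; an isomorphism of `F` gives one of
`KCo s F`).  So `¬ CoM D m₀`.  Let `m₁ = k + 2 s + 3`, `m₂` the number of E7 for `κ = Prop × Prop` and `m₁`, `m₃` the
number of E6 for `e = 2`, `t = m₀`, `m = m₂ + 2`, `w = m₃`.  Suppose that there is an antichain with more than
`w` elements, `x 0, .., x (w - 1)` different elements of it.  By E5 there are `T 0 i`, `T 1 i` with at most `m₀`
elements, `cn (T 0 i) = cn (x i)`, `cn (T 1 i) = x i`.  As in E8 (1): `Cmp D (T 0 i) (T 1 j) ↔ x i ≤ x j`, so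
(antichain) iff `i = j`.  E6 gives `s'`, `K 0`, `K 1`.  Let `X i = T 0 (s' i) \ K 0`, `Y i = T 1 (s' i) \ K 1`,
`i < m₂ + 2`.  `K 0 ⊆ T 0 (s' j)` is complete to `T 1 (s' j)` for every `j`, and `K 1` to `T 0 (s' j)`.  So
`X i` is complete to `Y j` iff `i = j`.  So `X i`, `Y i` are nonempty (an empty set is complete to everything,
take `j ≠ i`).  `X i`, `X j`, `Y i`, `Y j` are disjoint for `i ≠ j` (E6), and `X i`, `Y i` are disjoint as they are
complete to each other.  E7 for `χ i j = (Cmp D (X i) (X j), Cmp D (Y i) (Y j))` gives `m₁ ≥ 3` indices (rename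
them `0, .., m₁ - 1`) with a constant value for `i < j`; it is `(False, False)`: otherwise three pairwise
complete nonempty groups give a triangle.
`X i` has common neighbours (`Y i`), so no edges of `D`; the same for `Y i`.  Model of `KCo s (nP2 k)` in `Dᶜ`:
`inr (i, true) ↦ X i`, `inr (i, false) ↦ Y i` (`i < k`), `inl q ↦ X i ∪ Y i ∪ X j ∪ Y j` with
`i = k + 2 q`, `j = k + 2 q + 1`.  Connected: each of the four parts is a clique of `Dᶜ`, and there are edges of
`Dᶜ` between `X i` and `X j`, `Y i` and `Y j`, `X i` and `Y j` (not complete in `D`, disjoint).  The set of `inl q`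
contains two vertices adjacent in `D` (from `X i` and `Y i`), so it is joined by an edge of `Dᶜ` to every
disjoint nonempty set (no triangles in `D`).  `X i`, `Y i` are complete in `D`: no edge of `Dᶜ`; all other
pairs are not complete in `D` and disjoint: an edge of `Dᶜ`. -/
def S_Wid : Prop := ∀ k s : ℕ, ∃ w : ℕ, ∀ (V : Type) [Finite V] (D : SimpleGraph V),
  TriFree D → ¬ IsIndMinor (KCo s (nP2 k)) Dᶜ → WidP (Cl D) w

end Pool.Agent.MPd439b2.W
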