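import Pool.Agent.Lib.MP_d439b2_co.W.SpecM

/-!
# MP_d439b2_co, row `3P_1`: the case without large vertices
-/

set_option autoImplicit false

namespace Pool.Agent.MPd439b2.W

open Pool.Agent.MPd439b2

theorem allU (h1 : S_ForkU) (h2 : S_LayFree) : S_AllU := by
  intro s m₀ n V _ D a b A B hH hC hn hAB
  have hnf := h1 s m₀ V D n a b A B hH hC hn
  rw [hAB, Set.compl_empty] at hnf
  have h3 : Lay D (2 * 1 + 4) Set.univ := by
    refine h2 V D Set.univ Set.univ 1 hH.tri hnf subset_rfl (fun _ _ _ _ _ => Set.mem_univ _) ?_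
    refine (Set.encard_le_encard (t := {∅}) ?_).trans (by rw [Set.encard_singleton, Nat.cast_one])
    rintro T ⟨v, -, rfl⟩
    rw [Set.mem_singleton_iff, Set.sdiff_univ]
  exact Lay.mono (by norm_num) h3

end Pool.Agent.MPd439b2.W
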