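import Pool.Agent.Lib.MP_d439b2_co.W.SpecM

/-!
# MP_d439b2_co, W, M20: the union of all clean components is a cell
-/

set_option autoImplicit false

namespace Pool.Agent.MPd439b2.W

open Pool.Agent.MPd439b2

namespace AlphaCelX

/-- enumeration of a finite set of numbers -/
theorem enumI (I : Finset ℕ) (κ : ℕ) (h : I.card = κ) : ∃ e : ℕ → ℕ, (∀ l < κ, e l ∈ I) ∧
    ∀ l < κ, ∀ k < κ, e l = e k → l = k := by
  refine ⟨fun l => if hl : l < κ then I.orderEmbOfFin h ⟨l, hl⟩ else 0, ?_, ?_⟩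
  · intro l hl
    simp only [hl, dif_pos]
    exact Finset.orderEmbOfFin_mem I h ⟨l, hl⟩
  · intro l hl k hk hlk
    simp only [hl, hk, dif_pos] at hlk
    have := (I.orderEmbOfFin h).injective hlk
    exact congrArg Fin.val this

/-- an element of a connected set with an edge has a neighbour in the set -/
theorem nbrK {V : Type} {D : SimpleGraph V} {K : Set V} (hK : Conn D K)
    (hE : ∃ v ∈ K, ∃ w ∈ K, D.Adj v w) {v : V} (hv : v ∈ K) : ∃ w ∈ K, D.Adj v w := by
  have hne : ({v} : Set V) ≠ K := by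
    intro h
    obtain ⟨p, hp, q, hq, hpq⟩ := hE
    rw [← h] at hp hq
    rw [Set.mem_singleton_iff] at hp hq
    rw [hp, hq] at hpq
    exact hpq.ne rfl
  obtain ⟨p, hp, q, hq, hpq⟩ := hK.2 {v} (Set.singleton_subset_iff.2 hv) ⟨v, rfl⟩ hne
  rw [Set.mem_singleton_iff] at hp
  rw [hp] at hpq
  exact ⟨q, hq.1, hpq⟩

/-- different edges of an induced matching, with arbitrary orientation -/
theorem imSwap {V : Type} {D : SimpleGraph V} {n κ : ℕ} {a b x y : ℕ → V} (hM : IM D n a b)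
    (e : ℕ → ℕ) (he : ∀ l < κ, e l < n) (inj : ∀ l < κ, ∀ k < κ, e l = e k → l = k)
    (hxy : ∀ l < κ, (x l = a (e l) ∧ y l = b (e l)) ∨ (x l = b (e l) ∧ y l = a (e l))) :
    IM D κ x y := by
  intro i hi j hj
  have hedge := (hM _ (he i hi) _ (he i hi)).1.2 rfl
  by_cases hij : i = j
  · subst hij
    refine ⟨⟨fun _ => rfl, fun _ => ?_⟩, fun h => h.ne rfl, fun h => h.ne rfl⟩
    rcases hxy i hi with ⟨h1, h2⟩ | ⟨h1, h2⟩
    · rw [h1, h2]
      exact hedge
    · rw [h1, h2]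
      exact hedge.symm
  · have hne : e i ≠ e j := fun h => hij (inj i hi j hj h)
    obtain ⟨m1, m2, m3⟩ := hM _ (he i hi) _ (he j hj)
    obtain ⟨m4, _, _⟩ := hM _ (he j hj) _ (he i hi)
    have n1 : ¬ D.Adj (a (e i)) (b (e j)) := fun h => hne (m1.1 h)
    have n2 : ¬ D.Adj (b (e i)) (a (e j)) := fun h => hne (m4.1 h.symm).symm
    rcases hxy i hi with ⟨h1, h2⟩ | ⟨h1, h2⟩ <;> rcases hxy j hj with ⟨h3, h4⟩ | ⟨h3, h4⟩
    · rw [h1, h2, h3, h4]
      exact ⟨⟨fun h => absurd h n1, fun h => absurd h hij⟩, m2, m3⟩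
    · rw [h1, h2, h3, h4]
      exact ⟨⟨fun h => absurd h m2, fun h => absurd h hij⟩, n1, n2⟩
    · rw [h1, h2, h3, h4]
      exact ⟨⟨fun h => absurd h m3, fun h => absurd h hij⟩, n2, n1⟩
    · rw [h1, h2, h3, h4]
      exact ⟨⟨fun h => absurd h n2, fun h => absurd h hij⟩, m3, m2⟩

end AlphaCelX

open AlphaCelX

theorem alphaCel (h7 : S_ForkU) (h12 : S_LayFree) : S_AlphaCel := by
  classical
  intro s m₀ c n V _ D a b A B X I hH hM hn hAB hX hI hIc hc
  have htri := hH.tri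
  have hdis := hM.disj htri (by omega)
  have hXU : ∀ v ∈ X, v ∉ A ∧ v ∉ B := by
    intro v hv
    obtain ⟨K, hK, hvK⟩ := (hX v).1 hv
    have := hK.1.2.1 hvK
    exact ⟨fun h => this (Or.inl h), fun h => this (Or.inr h)⟩
  have hcl : ∀ v ∈ X, ∀ w, w ∉ A → w ∉ B → D.Adj v w → w ∈ X := by
    intro v hv w hwA hwB hvw
    obtain ⟨K, hK, hvK⟩ := (hX v).1 hv
    exact (hX w).2 ⟨K, hK, hK.1.2.2 v hvK w (fun h => h.elim hwA hwB) hvw⟩
  have hCE : ∀ v ∈ X, ∀ w ∈ X, D.Adj v w → CE D A B v w := by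
    intro v hv w hw hvw
    obtain ⟨K, hK, hvK⟩ := (hX v).1 hv
    have hwK := hK.1.2.2 v hvK w (fun h => h.elim (hXU w hw).1 (hXU w hw).2) hvw
    exact hK.2.2 v hvK w hwK hvw
  have hnbr : ∀ v ∈ X, ∃ w ∈ X, D.Adj v w := by
    intro v hv
    obtain ⟨K, hK, hvK⟩ := (hX v).1 hv
    obtain ⟨w, hw, hvw⟩ := nbrK hK.1.1 hK.2.1 hvK
    exact ⟨w, (hX w).2 ⟨K, hK, hw⟩, hvw⟩
  have hexcl : ∀ v, TyA D A B v → ¬ TyA D B A v := by
    intro v h1 h2
    obtain ⟨z, hz | hz⟩ := hAB
    · exact h2.2 z hz (h1.1 z hz)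
    · exact h1.2 z hz (h2.1 z hz)
  let L : Set V := {v | TyA D A B v}
  have hLn : ∀ v ∈ X, v ∉ L → TyA D B A v := by
    intro v hv hl
    obtain ⟨w, hw, hvw⟩ := hnbr v hv
    rcases (hCE v hv w hw hvw).2 with h | h
    · exact absurd h.1 hl
    · exact h.1
  have hina : ∀ v ∈ X, ∀ w ∈ X, D.Adj v w → (v ∈ L ↔ w ∉ L) := by
    intro v hv w hw hvw
    rcases (hCE v hv w hw hvw).2 with h | h
    · exact ⟨fun _ hw' => hexcl w hw' h.2, fun _ => h.1⟩
    · exact ⟨fun hv' => absurd h.1 (hexcl v hv'), fun hw' => absurd h.2 hw'⟩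
  have hA : ∀ v ∈ X, v ∈ L → D.neighborSet v \ (X : Set V) = A := by
    intro v hv hl
    ext z
    constructor
    · rintro ⟨h1, h2⟩
      by_contra hzA
      have hzB : z ∉ B := fun h => hl.2 z h h1
      exact h2 (hcl v hv z hzA hzB h1)
    · intro hz
      exact ⟨hl.1 z hz, fun h => (hXU z h).1 hz⟩
  have hB : ∀ v ∈ X, v ∉ L → D.neighborSet v \ (X : Set V) = B := by
    intro v hv hl
    have hl' := hLn v hv hl
    ext z
    constructor
    · rintro ⟨h1, h2⟩
      by_contra hzB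
      have hzA : z ∉ A := fun h => hl'.2 z h h1
      exact h2 (hcl v hv z hzA hzB h1)
    · intro hz
      exact ⟨hl'.1 z hz, fun h => (hXU z h).2 hz⟩
  obtain ⟨e, he, hinj⟩ := enumI I (8 + 2 * s) hIc
  have hen : ∀ l < 8 + 2 * s, e l < n := fun l hl => (hI _ (he l hl)).1
  have haX : ∀ l < 8 + 2 * s, a (e l) ∈ X := fun l hl => (hI _ (he l hl)).2
  have hedge : ∀ l < 8 + 2 * s, D.Adj (a (e l)) (b (e l)) := fun l hl => hM.im.edge (hen l hl)
  have hbX : ∀ l < 8 + 2 * s, b (e l) ∈ X := by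
    intro l hl
    obtain ⟨_, _, h3, h4⟩ := hM.out (by omega) (hen l hl)
    exact hcl _ (haX l hl) _ h3 h4 (hedge l hl)
  let x : ℕ → V := fun l => if a (e l) ∈ L then a (e l) else b (e l)
  let y : ℕ → V := fun l => if a (e l) ∈ L then b (e l) else a (e l)
  have hxy : ∀ l < 8 + 2 * s, (x l = a (e l) ∧ y l = b (e l)) ∨ (x l = b (e l) ∧ y l = a (e l)) := by
    intro l hl
    by_cases h : a (e l) ∈ L
    · exact Or.inl ⟨if_pos h, if_pos h⟩
    · exact Or.inr ⟨if_neg h, if_neg h⟩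
  have hxL : ∀ l < 8 + 2 * s, x l ∈ X ∧ x l ∈ L := by
    intro l hl
    by_cases h : a (e l) ∈ L
    · have h1 : x l = a (e l) := if_pos h
      rw [h1]
      exact ⟨haX l hl, h⟩
    · have h1 : x l = b (e l) := if_neg h
      rw [h1]
      refine ⟨hbX l hl, ?_⟩
      by_contra h2
      exact h ((hina _ (haX l hl) _ (hbX l hl) (hedge l hl)).2 h2)
  have hyL : ∀ l < 8 + 2 * s, y l ∈ X ∧ y l ∉ L := by
    intro l hl
    by_cases h : a (e l) ∈ L
    · have h1 : y l = b (e l) := if_pos h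
      rw [h1]
      exact ⟨hbX l hl, (hina _ (haX l hl) _ (hbX l hl) (hedge l hl)).1 h⟩
    · have h1 : y l = a (e l) := if_neg h
      rw [h1]
      exact ⟨haX l hl, h⟩
  let R : Finset V := (Finset.range (8 + 2 * s)).image x ∪ (Finset.range (8 + 2 * s)).image y
  have hRc : R.card ≤ 16 + 4 * s := by
    have h1 := Finset.card_union_le ((Finset.range (8 + 2 * s)).image x)
      ((Finset.range (8 + 2 * s)).image y)
    have h2 := Finset.card_image_le (s := Finset.range (8 + 2 * s)) (f := x)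
    have h3 := Finset.card_image_le (s := Finset.range (8 + 2 * s)) (f := y)
    rw [Finset.card_range] at h2 h3
    show (_ ∪ _ : Finset V).card ≤ _
    omega
  have hxR : ∀ l < 8 + 2 * s, x l ∈ R := fun l hl =>
    Finset.mem_union_left _ (Finset.mem_image.2 ⟨l, Finset.mem_range.2 hl, rfl⟩)
  have hyR : ∀ l < 8 + 2 * s, y l ∈ R := fun l hl =>
    Finset.mem_union_right _ (Finset.mem_image.2 ⟨l, Finset.mem_range.2 hl, rfl⟩)
  have hRX : R ⊆ X := by
    intro v hv
    rcases Finset.mem_union.1 hv with h | h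
    · obtain ⟨l, hl, rfl⟩ := Finset.mem_image.1 h
      exact (hxL l (Finset.mem_range.1 hl)).1
    · obtain ⟨l, hl, rfl⟩ := Finset.mem_image.1 h
      exact (hyL l (Finset.mem_range.1 hl)).1
  have hlay : Lay D c (X : Set V) := by
    have h1 : Lay D (2 * 2 + 4) (X : Set V) := by
      refine h12 V D (A ∪ B)ᶜ (X : Set V) 2 htri
        (h7 s m₀ V D n a b A B hH hM (by omega)) ?_ ?_ ?_
      · intro v hv h
        exact h.elim (hXU v hv).1 (hXU v hv).2
      · intro v hv w hw hvw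
        exact hcl v hv w (fun h => hw (Or.inl h)) (fun h => hw (Or.inr h)) hvw
      · have h2 : {T | ∃ v ∈ (X : Set V), T = D.neighborSet v \ (A ∪ B)ᶜ} ⊆ {A, B} := by
          rintro T ⟨v, hv, rfl⟩
          have h3 : D.neighborSet v \ (A ∪ B)ᶜ = D.neighborSet v \ (X : Set V) := by
            ext z
            constructor
            · rintro ⟨h4, h5⟩
              refine ⟨h4, fun h6 => h5 ?_⟩
              exact fun h7 => h7.elim (hXU z h6).1 (hXU z h6).2
            · rintro ⟨h4, h5⟩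
              refine ⟨h4, fun h6 => h5 ?_⟩
              exact hcl v hv z (fun h => h6 (Or.inl h)) (fun h => h6 (Or.inr h)) h4
          rw [h3]
          by_cases hl : v ∈ L
          · exact Or.inl (hA v hv hl)
          · exact Or.inr (hB v hv hl)
        refine (Set.encard_le_encard h2).trans ?_
        refine (Set.encard_insert_le _ _).trans ?_
        rw [Set.encard_singleton]
        exact le_of_eq (by norm_num)
    exact h1.mono (by omega)
  refine ⟨R, hRc, L, A, B, x, y, ?_, hA, hB⟩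
  exact
    { RX := hRX
      cR := hRc.trans hc
      lay := hlay
      exA := fun v hv hl => Or.inl (hA v hv hl)
      exB := fun v hv hl => Or.inl (hB v hv hl)
      ina := hina
      nbr := hnbr
      im := imSwap hM.im e hen hinj hxy
      ix := fun l hl => ⟨hxR l hl, (hxL l hl).2, hA _ (hxL l hl).1 (hxL l hl).2⟩
      iy := fun l hl => ⟨hyR l hl, (hyL l hl).2, hB _ (hyL l hl).1 (hyL l hl).2⟩
      twin := by
        intro v hv
        by_cases hl : v ∈ L
        · refine ⟨x 0, hxR 0 (by omega), ?_⟩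
          rw [hA v hv hl, hA _ (hxL 0 (by omega)).1 (hxL 0 (by omega)).2]
        · refine ⟨y 0, hyR 0 (by omega), ?_⟩
          rw [hB v hv hl, hB _ (hyL 0 (by omega)).1 (hyL 0 (by omega)).2] }

end Pool.Agent.MPd439b2.W
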