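import Pool.Agent.Lib.MP_d439b2_co.W.SpecM

/-!
# MP_d439b2_co, W, M21: cells which meet a clean component
-/

set_option autoImplicit false

namespace Pool.Agent.MPd439b2.W

open Pool.Agent.MPd439b2

namespace AlphaInX

/-- an element of a connected set with an edge has a neighbour in the set -/
theorem nbrK {V : Type} {D : SimpleGraph V} {K : Set V} (hK : Conn D K)
    (hE : ∃ v ∈ K, ∃ w ∈ K, D.Adj v w) {v : V} (hv : v ∈ K) : ∃ w ∈ K, D.Adj v w := by
  have hne : ({v} : Set V) ≠ K := by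
    intro h
    obtain ⟨p, hp, q, hq, hpq⟩ := hE
    rw [← h] at hp hq
    rw [Set.mem_singleton_iff] at hp hq
    rw [hp, hq] at hpq
    exact hpq.ne rfl
  obtain ⟨p, hp, q, hq, hpq⟩ := hK.2 {v} (Set.singleton_subset_iff.2 hv) ⟨v, rfl⟩ hne
  rw [Set.mem_singleton_iff] at hp
  rw [hp] at hpq
  exact ⟨q, hq.1, hpq⟩

end AlphaInX

open AlphaInX

theorem alphaIn (h17 : S_LemI) (h19 : S_CIn) : S_AlphaIn := by
  intro s m₀ c h n V _ D a b A B X R hH hM hn hCS hR hmeet w hw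
  obtain ⟨K, hK, v, hvK, hvX⟩ := hmeet
  obtain ⟨q, hq, hvq⟩ := nbrK hK.1.1 hK.2.1 hvK
  have hce := hK.2.2 v hvK q hq hvq
  have hKU : ∀ z ∈ K, z ∉ A ∧ z ∉ B := fun z hz =>
    ⟨fun h => hK.1.2.1 hz (Or.inl h), fun h => hK.1.2.1 hz (Or.inr h)⟩
  rcases hCS with hC | hS
  · obtain ⟨g1, g2, g3⟩ := h19 s m₀ c n V D a b A B X R hH hM hn hC hR v q hvX (hKU v hvK).1
      (hKU v hvK).2 (hKU q hq).1 (hKU q hq).2 hce
    obtain ⟨K', hK', hwK'⟩ := exists_isComp D (U := (A ∪ B)ᶜ) (v := w)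
      (fun h => h.elim (g1 w hw).1 (g1 w hw).2)
    have hsub : K' ∩ (X : Set V) = K' := by
      refine hK'.1.eq_of_nb Set.inter_subset_left ⟨w, hwK', hw⟩ ?_
      rintro z hz ⟨hzn, u, hu, huz⟩
      refine hzn ⟨hz, ?_⟩
      exact g2 u hu.2 z (fun h => hK'.2.1 hz (Or.inl h)) (fun h => hK'.2.1 hz (Or.inr h)) huz
    have hKX : ∀ z ∈ K', z ∈ X := by
      intro z hz
      rw [← hsub] at hz
      exact hz.2
    obtain ⟨L, AX, BX, x, y, hCel, _, _⟩ := hC
    obtain ⟨w', hw', hww'⟩ := hCel.nbr w hw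
    refine ⟨K', ⟨hK', ⟨w, hwK', w', ?_, hww'⟩, ?_⟩, hwK'⟩
    · exact hK'.2.2 w hwK' w' (fun h => h.elim (g1 w' hw').1 (g1 w' hw').2) hww'
    · intro p hp r hr hpr
      exact g3 p (hKX p hp) r (hKX r hr) hpr
  · obtain ⟨L, AX, BX, x, y, m, u, hCel, hm, hXu, hinj, hadj, _⟩ := hS
    obtain ⟨g1, _, _⟩ := h17 s m₀ c n V D a b x y A B L AX BX X R hH hM hn hCel hR v q hvX
      (hKU v hvK).1 (hKU v hvK).2 (hKU q hq).1 (hKU q hq).2 hce
    obtain ⟨i₀, hi₀, rfl⟩ := (hXu v).1 hvX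
    have hU : ∀ i < m, u i ∈ (A ∪ B)ᶜ := by
      intro i hi h
      have := g1 (u i) ((hXu _).2 ⟨i, hi, rfl⟩)
      exact h.elim this.1 this.2
    have up : ∀ j, i₀ + j < m → u (i₀ + j) ∈ K := by
      intro j
      induction j with
      | zero => intro _; exact hvK
      | succ j ih =>
        intro hj
        refine hK.1.2.2 _ (ih (by omega)) _ (hU _ hj) ?_
        exact (hadj _ (by omega) _ hj).2 (Or.inl rfl)
    have dn : ∀ j, j ≤ i₀ → u (i₀ - j) ∈ K := by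
      intro j
      induction j with
      | zero => intro _; exact hvK
      | succ j ih =>
        intro hj
        refine hK.1.2.2 _ (ih (by omega)) _ (hU _ (by omega)) ?_
        exact (hadj _ (by omega) _ (by omega)).2 (Or.inr (by omega))
    refine ⟨K, hK, ?_⟩
    obtain ⟨i, hi, rfl⟩ := (hXu w).1 hw
    rcases le_total i₀ i with h1 | h1
    · have h2 := up (i - i₀) (by omega)
      rwa [show i₀ + (i - i₀) = i by omega] at h2
    · have h2 := dn (i₀ - i) (by omega)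
      rwa [show i₀ - (i₀ - i) = i by omega] at h2

end Pool.Agent.MPd439b2.W
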