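import Pool.Agent.Lib.MP_d439b2_co.W.SpecM

/-!
# MP_d439b2_co, W, M27: the inner part of a long maximal clean run is a cell
-/

set_option autoImplicit false

namespace Pool.Agent.MPd439b2.W

open Pool.Agent.MPd439b2

namespace BetaM

/-- the situation -/
structure Ctx {V : Type} (D : SimpleGraph V) (A B K : Set V) (u : ℕ → V) (l α β m : ℕ)
    (X : Finset V) : Prop where
  comp : IsComp D (A ∪ B)ᶜ K
  enu : Enu D K (CE D A B) l u
  run : MRun (CE D A B) l u α β
  ne : (A ∪ B).Nonempty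
  hX : ∀ v, v ∈ X ↔ ∃ j, α + 2 ≤ j ∧ j + 2 ≤ β ∧ u j = v
  hm : m + α + 3 = β
  m4 : 4 ≤ m

open Classical in
/-- the neighbours in `A ∪ B` -/
noncomputable def Tt {V : Type} (D : SimpleGraph V) (A B : Set V) (v : V) : Set V :=
  if TyA D A B v then A else B

section

variable {V : Type} {D : SimpleGraph V} {A B K : Set V} {u : ℕ → V} {l α β m : ℕ} {X : Finset V}

theorem Ctx.notboth (t : Ctx D A B K u l α β m X) {v : V} (h1 : TyA D A B v)
    (h2 : TyA D B A v) : False := by
  obtain ⟨x, hx | hx⟩ := t.ne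
  · exact h2.2 x hx (h1.1 x hx)
  · exact h1.2 x hx (h2.1 x hx)

theorem Ctx.ty (t : Ctx D A B K u l α β m X) {j : ℕ} (h1 : α ≤ j) (h2 : j ≤ β) :
    TyA D A B (u j) ∨ TyA D B A (u j) := by
  have hm := t.hm
  by_cases h : j < β
  · rcases (t.run.all j h1 h).2 with h3 | h3
    · exact Or.inl h3.1
    · exact Or.inr h3.1
  · have h4 := (t.run.all (j - 1) (by omega) (by omega)).2
    have h5 : j - 1 + 1 = j := by omega
    rw [h5] at h4
    rcases h4 with h3 | h3
    · exact Or.inr h3.2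
    · exact Or.inl h3.2

theorem Ctx.alt (t : Ctx D A B K u l α β m X) {j : ℕ} (h1 : α ≤ j) (h2 : j < β) :
    TyA D A B (u j) ↔ ¬ TyA D A B (u (j + 1)) := by
  rcases (t.run.all j h1 h2).2 with h3 | h3
  · exact ⟨fun _ h4 => t.notboth h4 h3.2, fun _ => h3.1⟩
  · exact ⟨fun h4 => (t.notboth h4 h3.1).elim, fun h4 => absurd h3.2 h4⟩

theorem Ctx.inK (t : Ctx D A B K u l α β m X) {j : ℕ} (h2 : j ≤ β) : u j ∈ K :=
  (t.enu.mem (u j)).2 ⟨j, by have := t.run.lt; omega, rfl⟩

theorem Ctx.notAB (t : Ctx D A B K u l α β m X) {j : ℕ} (h2 : j ≤ β) : u j ∉ A ∪ B :=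
  t.comp.2.1 (t.inK h2)

theorem Ctx.Tsub (v : V) : Tt D A B v ⊆ A ∪ B := by
  unfold Tt
  split_ifs
  · exact Set.subset_union_left
  · exact Set.subset_union_right

theorem Ctx.adjT (t : Ctx D A B K u l α β m X) {j : ℕ} (h1 : α ≤ j) (h2 : j ≤ β) {z : V}
    (hz : z ∈ A ∪ B) : D.Adj (u j) z ↔ z ∈ Tt D A B (u j) := by
  unfold Tt
  by_cases h : TyA D A B (u j)
  · rw [if_pos h]
    constructor
    · intro h3
      rcases hz with h4 | h4
      · exact h4
      · exact absurd h3 (h.2 z h4)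
    · exact fun h3 => h.1 z h3
  · rw [if_neg h]
    have h' := (t.ty h1 h2).resolve_left h
    constructor
    · intro h3
      rcases hz with h4 | h4
      · exact absurd h3 (h'.2 z h4)
      · exact h4
    · exact fun h3 => h'.1 z h3

theorem Ctx.adjK (t : Ctx D A B K u l α β m X) {j : ℕ} (h1 : α + 2 ≤ j) (h2 : j + 2 ≤ β)
    {z : V} (hz : z ∉ A ∪ B) (h : D.Adj (u j) z) : z = u (j + 1) ∨ z = u (j - 1) := by
  have hl := t.run.lt
  have hzK : z ∈ K := t.comp.2.2 _ (t.inK (by omega)) z hz h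
  obtain ⟨k, hk, rfl⟩ := (t.enu.mem z).1 hzK
  rcases t.enu.only j (by omega) k hk h with h3 | h3 | ⟨-, h3 | h3⟩
  · left
    rw [h3]
  · right
    have : k = j - 1 := by omega
    rw [this]
  · omega
  · omega

theorem Ctx.adjN (t : Ctx D A B K u l α β m X) {j k : ℕ} (h1 : α + 2 ≤ j) (h2 : j + 2 ≤ β)
    (h3 : k ≤ β) : D.Adj (u j) (u k) ↔ k = j + 1 ∨ j = k + 1 := by
  have hl := t.run.lt
  constructor
  · intro h
    rcases t.enu.only j (by omega) k (by omega) h with h4 | h4 | ⟨-, h4 | h4⟩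
    · exact Or.inl h4
    · exact Or.inr h4
    · omega
    · omega
  · rintro (rfl | rfl)
    · exact t.enu.adj j (by omega)
    · exact (t.enu.adj k (by omega)).symm

theorem Ctx.uinj (t : Ctx D A B K u l α β m X) {j k : ℕ} (h1 : j ≤ β) (h2 : k ≤ β)
    (h : u j = u k) : j = k := by
  have hl := t.run.lt
  exact t.enu.inj j (by omega) k (by omega) h

theorem Ctx.memX (t : Ctx D A B K u l α β m X) {j : ℕ} (h1 : j ≤ β) :
    u j ∈ X ↔ α + 2 ≤ j ∧ j + 2 ≤ β := by
  rw [t.hX]
  constructor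
  · rintro ⟨k, h2, h3, h4⟩
    have := t.uinj (by omega) h1 h4
    omega
  · rintro ⟨h2, h3⟩
    exact ⟨j, h2, h3, rfl⟩

theorem Ctx.XnotAB (t : Ctx D A B K u l α β m X) {v : V} (h : v ∈ X) : v ∉ A ∪ B := by
  obtain ⟨j, h1, h2, rfl⟩ := (t.hX v).1 h
  exact t.notAB (by omega)

theorem Ctx.out_iff (t : Ctx D A B K u l α β m X) {i : ℕ} (hi : i < m) (z : V) :
    (D.Adj (u (α + 2 + i)) z ∧ z ∉ X) ↔ (z ∈ Tt D A B (u (α + 2 + i)) ∨ (i = 0 ∧ z = u (α + 1)) ∨
      (i + 1 = m ∧ z = u (β - 1))) := by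
  have hm := t.hm
  have hl := t.run.lt
  constructor
  · rintro ⟨h1, h2⟩
    by_cases hz : z ∈ A ∪ B
    · exact Or.inl ((t.adjT (by omega) (by omega) hz).1 h1)
    · right
      rcases t.adjK (by omega) (by omega) hz h1 with rfl | rfl
      · right
        rw [t.memX (by omega)] at h2
        have h3 : α + 2 + i + 1 = β - 1 := by omega
        exact ⟨by omega, by rw [h3]⟩
      · left
        rw [t.memX (by omega)] at h2
        have h3 : α + 2 + i - 1 = α + 1 := by omega
        exact ⟨by omega, by rw [h3]⟩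
  · rintro (h1 | ⟨rfl, rfl⟩ | ⟨h1, rfl⟩)
    · have h2 := Ctx.Tsub _ h1
      exact ⟨(t.adjT (by omega) (by omega) h2).2 h1, fun h3 => t.XnotAB h3 h2⟩
    · refine ⟨(t.adjN (by omega) (by omega) (by omega)).2 (by omega), fun h3 => ?_⟩
      rw [t.memX (by omega)] at h3
      omega
    · refine ⟨(t.adjN (by omega) (by omega) (by omega)).2 (by omega), fun h3 => ?_⟩
      rw [t.memX (by omega)] at h3
      omega

theorem Ctx.out_inner (t : Ctx D A B K u l α β m X) {i : ℕ} (h0 : 0 < i) (hi : i + 1 < m) :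
    D.neighborSet (u (α + 2 + i)) \ (X : Set V) = Tt D A B (u (α + 2 + i)) := by
  ext z
  have h := t.out_iff (by omega : i < m) z
  constructor
  · rintro ⟨h1, h2⟩
    rcases h.1 ⟨h1, h2⟩ with h3 | h3 | h3
    · exact h3
    · omega
    · omega
  · intro h1
    exact h.2 (Or.inl h1)

theorem Ctx.out_first (t : Ctx D A B K u l α β m X) :
    D.neighborSet (u (α + 2 + 0)) \ (X : Set V) =
      insert (u (α + 1)) (Tt D A B (u (α + 2 + 0))) := by
  have m4 := t.m4
  ext z
  have h := t.out_iff (by omega : 0 < m) z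
  constructor
  · rintro ⟨h1, h2⟩
    rcases h.1 ⟨h1, h2⟩ with h3 | h3 | h3
    · exact Or.inr h3
    · exact Or.inl h3.2
    · omega
  · rintro (h1 | h1)
    · exact h.2 (Or.inr (Or.inl ⟨rfl, h1⟩))
    · exact h.2 (Or.inl h1)

theorem Ctx.out_last (t : Ctx D A B K u l α β m X) {i : ℕ} (hi : i + 1 = m) :
    D.neighborSet (u (α + 2 + i)) \ (X : Set V) =
      insert (u (β - 1)) (Tt D A B (u (α + 2 + i))) := by
  have m4 := t.m4
  ext z
  have h := t.out_iff (by omega : i < m) z
  constructor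
  · rintro ⟨h1, h2⟩
    rcases h.1 ⟨h1, h2⟩ with h3 | h3 | h3
    · exact Or.inr h3
    · omega
    · exact Or.inl h3.2
  · rintro (h1 | h1)
    · exact h.2 (Or.inr (Or.inr ⟨hi, h1⟩))
    · exact h.2 (Or.inl h1)

/-- the outside neighbourhoods -/
theorem Ctx.out_or (t : Ctx D A B K u l α β m X) {i : ℕ} (hi : i < m) :
    D.neighborSet (u (α + 2 + i)) \ (X : Set V) = Tt D A B (u (α + 2 + i)) ∨
      ∃ e, D.neighborSet (u (α + 2 + i)) \ (X : Set V) = insert e (Tt D A B (u (α + 2 + i))) := by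
  by_cases h0 : i = 0
  · subst h0
    exact Or.inr ⟨_, t.out_first⟩
  · by_cases h1 : i + 1 = m
    · exact Or.inr ⟨_, t.out_last h1⟩
    · exact Or.inl (t.out_inner (by omega) (by omega))

theorem pair_le {W : Type} (a b : W) : ({a, b} : Set W).encard ≤ 2 := by
  refine (Set.encard_insert_le _ _).trans ?_
  rw [Set.encard_singleton]
  exact le_of_eq one_add_one_eq_two

theorem Ctx.deg (t : Ctx D A B K u l α β m X) {i : ℕ} (hi : i < m) :
    (D.neighborSet (u (α + 2 + i)) ∩ (X : Set V)).encard ≤ 2 := by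
  have hm := t.hm
  have h1 : D.neighborSet (u (α + 2 + i)) ∩ (X : Set V) ⊆
      {u (α + 2 + i + 1), u (α + 2 + i - 1)} := by
    rintro z ⟨hz1, hz2⟩
    exact t.adjK (by omega) (by omega) (t.XnotAB hz2) hz1
  exact (Set.encard_le_encard h1).trans (pair_le _ _)

theorem Ctx.hXw (t : Ctx D A B K u l α β m X) (v : V) : v ∈ X ↔ ∃ i < m, u (α + 2 + i) = v := by
  have hm := t.hm
  rw [t.hX]
  constructor
  · rintro ⟨j, h1, h2, rfl⟩
    refine ⟨j - (α + 2), by omega, ?_⟩
    have : α + 2 + (j - (α + 2)) = j := by omega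
    rw [this]
  · rintro ⟨i, h1, rfl⟩
    exact ⟨_, by omega, by omega, rfl⟩

theorem Ctx.conn (t : Ctx D A B K u l α β m X) : Conn D (X : Set V) := by
  have hm := t.hm
  have m4 := t.m4
  refine ⟨⟨u (α + 2 + 0), (t.hXw _).2 ⟨0, by omega, rfl⟩⟩, fun E hE hne hne' => ?_⟩
  by_contra hcon
  push Not at hcon
  have hw : ∀ i < m, u (α + 2 + i) ∈ X := fun i hi => (t.hXw _).2 ⟨i, hi, rfl⟩
  have hstep : ∀ i, i + 1 < m → (u (α + 2 + i) ∈ E ↔ u (α + 2 + (i + 1)) ∈ E) := by
    intro i hi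
    have hadj : D.Adj (u (α + 2 + i)) (u (α + 2 + (i + 1))) :=
      (t.adjN (by omega) (by omega) (by omega)).2 (by omega)
    constructor
    · intro h1
      by_contra h2
      exact hcon _ h1 _ ⟨hw _ hi, h2⟩ hadj
    · intro h1
      by_contra h2
      exact hcon _ h1 _ ⟨hw _ (by omega), h2⟩ hadj.symm
  have key : ∀ i, i < m → (u (α + 2 + i) ∈ E ↔ u (α + 2 + 0) ∈ E) := by
    intro i
    induction i with
    | zero => exact fun _ => Iff.rfl
    | succ i ih =>
      intro hi
      rw [← hstep i hi]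
      exact ih (by omega)
  obtain ⟨v, hv⟩ := hne
  obtain ⟨i, hi, rfl⟩ := (t.hXw v).1 (hE hv)
  have h0 := (key i hi).1 hv
  refine hne' (Set.Subset.antisymm hE fun v hv => ?_)
  obtain ⟨k, hk, rfl⟩ := (t.hXw v).1 hv
  exact (key k hk).2 h0

theorem Ctx.Tor (v : V) : Tt D A B v = A ∨ Tt D A B v = B := by
  unfold Tt
  split_ifs
  · exact Or.inl rfl
  · exact Or.inr rfl

theorem Ctx.lay [Finite V] (h1 : S_LayD2) (t : Ctx D A B K u l α β m X) :
    Lay D 8 (X : Set V) := by
  have hm := t.hm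
  have m4 := t.m4
  refine h1 V D (X : Set V) 4 t.conn ?_ ?_
  · intro v hv
    obtain ⟨i, hi, rfl⟩ := (t.hXw v).1 hv
    exact t.deg hi
  · have h2 : {T | ∃ v ∈ (X : Set V), T = D.neighborSet v \ (X : Set V)} ⊆
        {A, B, D.neighborSet (u (α + 2 + 0)) \ (X : Set V),
          D.neighborSet (u (α + 2 + (m - 1))) \ (X : Set V)} := by
      rintro T ⟨v, hv, rfl⟩
      obtain ⟨i, hi, rfl⟩ := (t.hXw v).1 hv
      by_cases h0 : i = 0
      · subst h0
        exact Or.inr (Or.inr (Or.inl rfl))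
      · by_cases h1 : i + 1 = m
        · have h3 : i = m - 1 := by omega
          subst h3
          exact Or.inr (Or.inr (Or.inr rfl))
        · have h5 := t.out_inner (i := i) (by omega) (by omega)
          rcases Ctx.Tor (D := D) (A := A) (B := B) (u (α + 2 + i)) with h4 | h4
          · exact Or.inl (h5.trans h4)
          · exact Or.inr (Or.inl (h5.trans h4))
    refine (Set.encard_le_encard h2).trans ?_
    refine (Set.encard_insert_le _ _).trans ?_
    have h3 := Set.encard_insert_le {D.neighborSet (u (α + 2 + 0)) \ (X : Set V),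
      D.neighborSet (u (α + 2 + (m - 1))) \ (X : Set V)} B
    have h4 := pair_le (D.neighborSet (u (α + 2 + 0)) \ (X : Set V))
      (D.neighborSet (u (α + 2 + (m - 1))) \ (X : Set V))
    calc _ ≤ (2 + 1 + 1 : ℕ∞) := by
          gcongr
          exact h3.trans (by gcongr)
      _ = ((4 : ℕ) : ℕ∞) := by norm_num

end

end BetaM

open BetaM in
theorem betaCel (h1 : S_LayD2) : S_BetaCel := by
  classical
  intro s m₀ c h n l α β V _ D a b u A B K X hH hCM hn hne hK hE hR hX h2 h3 h4 h5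
  obtain ⟨m, hm⟩ : ∃ m, m + α + 3 = β := ⟨β - α - 3, by omega⟩
  have t : Ctx D A B K u l α β m X := ⟨hK, hE, hR, hne, hX, hm, by omega⟩
  set w : ℕ → V := fun i => u (α + 2 + i) with hw
  set L : Set V := {v | TyA D A B v} with hL
  set R : Finset V := ((Finset.range m).filter fun i => i < h ∨ m ≤ i + h).image w with hRdef
  have hRm : ∀ v, v ∈ R ↔ ∃ i < m, (i < h ∨ m ≤ i + h) ∧ w i = v := by
    intro v
    rw [hRdef, Finset.mem_image]
    constructor
    · rintro ⟨i, hi, hiv⟩
      rw [Finset.mem_filter, Finset.mem_range] at hi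
      exact ⟨i, hi.1, hi.2, hiv⟩
    · rintro ⟨i, hi, hi2, hiv⟩
      exact ⟨i, Finset.mem_filter.2 ⟨Finset.mem_range.2 hi, hi2⟩, hiv⟩
  have hRc : R.card ≤ 2 * h := by
    refine Finset.card_image_le.trans ?_
    have h6 : ((Finset.range m).filter fun i => i < h ∨ m ≤ i + h) ⊆
        Finset.range h ∪ Finset.Ico (m - h) m := by
      intro i hi
      rw [Finset.mem_filter, Finset.mem_range] at hi
      rw [Finset.mem_union, Finset.mem_range, Finset.mem_Ico]
      omega
    refine (Finset.card_le_card h6).trans ((Finset.card_union_le _ _).trans ?_)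
    rw [Finset.card_range, Nat.card_Ico]
    omega
  -- membership
  have hwX : ∀ i < m, w i ∈ X := fun i hi => (t.hXw _).2 ⟨i, hi, rfl⟩
  have hwadj : ∀ i < m, ∀ j < m, (D.Adj (w i) (w j) ↔ j = i + 1 ∨ i = j + 1) := by
    intro i hi j hj
    show D.Adj (u (α + 2 + i)) (u (α + 2 + j)) ↔ _
    rw [t.adjN (by omega) (by omega) (by omega)]
    omega
  have hwinj : ∀ i < m, ∀ j < m, w i = w j → i = j := by
    intro i hi j hj hij
    have := t.uinj (by omega) (by omega) hij
    omega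
  have hwalt : ∀ i, i + 1 < m → (w i ∈ L ↔ w (i + 1) ∉ L) := by
    intro i hi
    exact t.alt (by omega) (by omega)
  have hTA : ∀ v ∈ L, Tt D A B v = A := by
    intro v hv
    unfold Tt
    exact if_pos hv
  have hTB : ∀ v, v ∉ L → Tt D A B v = B := by
    intro v hv
    unfold Tt
    exact if_neg hv
  have hinA : ∀ i, 0 < i → i + 1 < m → w i ∈ L → D.neighborSet (w i) \ (X : Set V) = A := by
    intro i h0 hi hL'
    rw [← hTA _ hL']
    exact t.out_inner h0 hi
  have hinB : ∀ i, 0 < i → i + 1 < m → w i ∉ L → D.neighborSet (w i) \ (X : Set V) = B := by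
    intro i h0 hi hL'
    rw [← hTB _ hL']
    exact t.out_inner h0 hi
  -- the matching
  set x : ℕ → V := fun k => if w (3 * k + 1) ∈ L then w (3 * k + 1) else w (3 * k + 2) with hx
  set y : ℕ → V := fun k => if w (3 * k + 1) ∈ L then w (3 * k + 2) else w (3 * k + 1) with hy
  have hxy : ∀ k < 8 + 2 * s, ∃ i j, x k = w i ∧ y k = w j ∧ w i ∈ L ∧ w j ∉ L ∧
      ((i = 3 * k + 1 ∧ j = 3 * k + 2) ∨ (i = 3 * k + 2 ∧ j = 3 * k + 1)) := by
    intro k hk
    have h6 := hwalt (3 * k + 1) (by omega)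
    by_cases h7 : w (3 * k + 1) ∈ L
    · refine ⟨3 * k + 1, 3 * k + 2, ?_, ?_, h7, h6.1 h7, Or.inl ⟨rfl, rfl⟩⟩
      · rw [hx]
        exact if_pos h7
      · rw [hy]
        exact if_pos h7
    · refine ⟨3 * k + 2, 3 * k + 1, ?_, ?_, ?_, h7, Or.inr ⟨rfl, rfl⟩⟩
      · rw [hx]
        exact if_neg h7
      · rw [hy]
        exact if_neg h7
      · by_contra h8
        exact h7 (h6.2 h8)
  have hcel : Cel D (8 + 2 * s) c X R L A B x y :=
    { RX := by
        intro v hv
        obtain ⟨i, hi, -, rfl⟩ := (hRm v).1 hv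
        exact hwX i hi
      cR := hRc.trans h4
      lay := (t.lay h1).mono h5
      exA := by
        intro v hv hvL
        obtain ⟨i, hi, rfl⟩ := (t.hXw v).1 hv
        rcases t.out_or hi with h6 | ⟨e, h6⟩
        · left
          rw [h6, hTA _ hvL]
        · right
          rw [hTA _ hvL] at h6
          exact ⟨⟨e, h6⟩, t.deg hi⟩
      exB := by
        intro v hv hvL
        obtain ⟨i, hi, rfl⟩ := (t.hXw v).1 hv
        rcases t.out_or hi with h6 | ⟨e, h6⟩
        · left
          rw [h6, hTB _ hvL]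
        · right
          rw [hTB _ hvL] at h6
          exact ⟨⟨e, h6⟩, t.deg hi⟩
      ina := by
        intro v hv z hz hvz
        obtain ⟨i, hi, rfl⟩ := (t.hXw v).1 hv
        obtain ⟨j, hj, rfl⟩ := (t.hXw z).1 hz
        rcases (hwadj i hi j hj).1 hvz with rfl | rfl
        · exact hwalt i hj
        · have h6 := hwalt j hi
          show w (j + 1) ∈ L ↔ w j ∉ L
          tauto
      nbr := by
        intro v hv
        obtain ⟨i, hi, rfl⟩ := (t.hXw v).1 hv
        by_cases h6 : i + 1 < m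
        · exact ⟨w (i + 1), hwX _ h6, (hwadj i hi _ h6).2 (Or.inl rfl)⟩
        · exact ⟨w (i - 1), hwX _ (by omega), (hwadj i hi _ (by omega)).2 (by omega)⟩
      im := by
        intro k hk k' hk'
        obtain ⟨i, j, hi, hj, -, -, hij⟩ := hxy k hk
        by_cases hkk : k = k'
        · subst hkk
          rw [hi, hj]
          refine ⟨?_, fun h6 => h6.ne rfl, fun h6 => h6.ne rfl⟩
          rw [hwadj i (by omega) j (by omega)]
          omega
        · obtain ⟨i', j', hi', hj', -, -, hij'⟩ := hxy k' hk'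
          rw [hi, hj, hi', hj']
          refine ⟨?_, fun h6 => ?_, fun h6 => ?_⟩
          · rw [hwadj i (by omega) j' (by omega)]
            omega
          · rw [hwadj i (by omega) i' (by omega)] at h6
            omega
          · rw [hwadj j (by omega) j' (by omega)] at h6
            omega
      ix := by
        intro k hk
        obtain ⟨i, j, hi, -, hiL, -, hij⟩ := hxy k hk
        rw [hi]
        exact ⟨(hRm _).2 ⟨i, by omega, Or.inl (by omega), rfl⟩, hiL,
          hinA i (by omega) (by omega) hiL⟩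
      iy := by
        intro k hk
        obtain ⟨i, j, -, hj, -, hjL, hij⟩ := hxy k hk
        rw [hj]
        exact ⟨(hRm _).2 ⟨j, by omega, Or.inl (by omega), rfl⟩, hjL,
          hinB j (by omega) (by omega) hjL⟩
      twin := by
        intro v hv
        obtain ⟨i, hi, hiv⟩ := (t.hXw v).1 hv
        have hiv' : w i = v := hiv
        by_cases h6 : 0 < i ∧ i + 1 < m
        · obtain ⟨i', j', hi', hj', hiL, hjL, hij⟩ := hxy 0 (by omega)
          by_cases h7 : w i ∈ L
          · refine ⟨w i', (hRm _).2 ⟨i', by omega, Or.inl (by omega), rfl⟩, ?_⟩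
            rw [← hiv', hinA i h6.1 h6.2 h7, hinA i' (by omega) (by omega) hiL]
          · refine ⟨w j', (hRm _).2 ⟨j', by omega, Or.inl (by omega), rfl⟩, ?_⟩
            rw [← hiv', hinB i h6.1 h6.2 h7, hinB j' (by omega) (by omega) hjL]
        · exact ⟨v, (hRm _).2 ⟨i, hi, by omega, hiv'⟩, rfl⟩ }
  exact ⟨R, hRc, L, A, B, x, y, m, w, hcel, by omega, t.hXw, hwinj, hwadj, hRm, hinA, hinB⟩

end Pool.Agent.MPd439b2.W
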