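import Pool.Agent.Lib.MP_d439b2_co.W.DefsM

/-!
# MP_d439b2_co, W: `S_{1,1,2} + 4 P_2` without width assumption, small lemmas (helper28)
-/

set_option autoImplicit false

namespace Pool.Agent.MPd439b2.W

open Pool.Agent.MPd439b2

variable {V : Type} {D : SimpleGraph V} {n : ℕ} {a b : ℕ → V}

theorem IM.mono {n' : ℕ} (h : IM D n a b) (hn : n' ≤ n) : IM D n' a b :=
  fun i hi j hj => h i (by omega) j (by omega)

theorem IM.swap (h : IM D n a b) : IM D n b a := fun i hi j hj => by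
  refine ⟨?_, (h i hi j hj).2.2, (h i hi j hj).2.1⟩
  rw [D.adj_comm, (h j hj i hi).1]
  exact eq_comm

/-- sub-matchings -/
theorem IM.comp {n' : ℕ} (h : IM D n a b) (σ : ℕ → ℕ) (hσ : ∀ i < n', σ i < n)
    (inj : ∀ i < n', ∀ j < n', σ i = σ j → i = j) : IM D n' (fun i => a (σ i)) (fun i => b (σ i)) :=
  fun i hi j hj => by
    refine ⟨?_, (h _ (hσ i hi) _ (hσ j hj)).2.1, (h _ (hσ i hi) _ (hσ j hj)).2.2⟩
    rw [(h _ (hσ i hi) _ (hσ j hj)).1]
    exact ⟨inj i hi j hj, fun h => by rw [h]⟩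

theorem IM.edge (h : IM D n a b) {i : ℕ} (hi : i < n) : D.Adj (a i) (b i) :=
  (h i hi i hi).1.2 rfl

theorem IM.ne_ab (h : IM D n a b) {i j : ℕ} (hi : i < n) (hj : j < n) : a i ≠ b j := by
  intro he
  by_cases hij : i = j
  · subst hij
    exact (h.edge hi).ne he
  · have h1 := h.edge hi
    rw [he] at h1
    exact (h j hj i hi).2.2 h1

theorem IM.inj_a (h : IM D n a b) {i j : ℕ} (hi : i < n) (hj : j < n) (he : a i = a j) : i = j := by
  have h1 := h.edge hi
  rw [he] at h1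
  exact ((h j hj i hi).1.1 h1).symm

theorem IM.inj_b (h : IM D n a b) {i j : ℕ} (hi : i < n) (hj : j < n) (he : b i = b j) : i = j :=
  h.swap.inj_a hi hj he

theorem CE.symm {A B : Set V} {u v : V} (h : CE D A B u v) : CE D A B v u := by
  refine ⟨h.1.symm, ?_⟩
  rcases h.2 with h | h
  · exact Or.inr ⟨h.2, h.1⟩
  · exact Or.inl ⟨h.2, h.1⟩

theorem CE.swap {A B : Set V} {u v : V} (h : CE D A B u v) : CE D B A u v := by
  refine ⟨h.1, ?_⟩
  rcases h.2 with h | h
  · exact Or.inr h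
  · exact Or.inl h

theorem mem_Jt {v : V} {i : ℕ} : i ∈ Jt D n a b v ↔ i < n ∧ (D.Adj v (a i) ∨ D.Adj v (b i)) := by
  classical
  unfold Jt
  rw [Finset.mem_filter, Finset.mem_range]

theorem Jt_swap (D : SimpleGraph V) (n : ℕ) (a b : ℕ → V) (v : V) : Jt D n a b v = Jt D n b a v := by
  ext i
  rw [mem_Jt, mem_Jt, or_comm]

theorem CM.swap {A B : Set V} (h : CM D n a b A B) : CM D n b a B A where
  im := h.im.swap
  cA := h.cB
  cB := h.cA
  few v h1 h2 := by
    rw [Jt_swap]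
    exact h.few v h2 h1

theorem CM.mono {A B : Set V} {n' : ℕ} (h : CM D n a b A B) (hn : n' ≤ n) : CM D n' a b A B where
  im := h.im.mono hn
  cA x hx i hi := h.cA x hx i (by omega)
  cB x hx i hi := h.cB x hx i (by omega)
  few v h1 h2 := by
    refine le_trans (Finset.card_le_card ?_) (h.few v h1 h2)
    intro i hi
    rw [mem_Jt] at hi ⊢
    exact ⟨by omega, hi.2⟩

/-- vertices of `A` are not adjacent to the `b i` -/
theorem CM.nA {A B : Set V} (h : CM D n a b A B) (ht : TriFree D) {x : V} (hx : x ∈ A) {i : ℕ}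
    (hi : i < n) : ¬ D.Adj x (b i) :=
  fun h1 => ht x (a i) (b i) (h.cA x hx i hi) h1 (h.im.edge hi)

/-- vertices of `B` are not adjacent to the `a i` -/
theorem CM.nB {A B : Set V} (h : CM D n a b A B) (ht : TriFree D) {x : V} (hx : x ∈ B) {i : ℕ}
    (hi : i < n) : ¬ D.Adj x (a i) :=
  h.swap.nA ht hx hi

theorem CM.disj {A B : Set V} (h : CM D n a b A B) (ht : TriFree D) (hn : 0 < n) :
    ∀ x, x ∈ A → x ∉ B :=
  fun x h1 h2 => h.nA ht h1 hn (h.cB x h2 0 hn)

/-- the vertices of the matching are not in `A ∪ B` -/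
theorem CM.out {A B : Set V} (h : CM D n a b A B) (hn : 2 ≤ n) {i : ℕ} (hi : i < n) :
    a i ∉ A ∧ a i ∉ B ∧ b i ∉ A ∧ b i ∉ B := by
  have key : ∀ {A B : Set V} {a b : ℕ → V}, CM D n a b A B → a i ∉ A ∧ a i ∉ B := by
    intro A B a b h
    refine ⟨fun h1 => (h.cA _ h1 i hi).ne rfl, fun h1 => ?_⟩
    obtain ⟨j, hj, hij⟩ : ∃ j < n, i ≠ j := by
      by_cases h0 : i = 0
      · exact ⟨1, by omega, by omega⟩
      · exact ⟨0, by omega, h0⟩
    exact hij ((h.im i hi j hj).1.1 (h.cB _ h1 j hj))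
  exact ⟨(key h).1, (key h).2, (key h.swap).2, (key h.swap).1⟩

section cell

variable {κ c : ℕ} {X R : Finset V} {L A B : Set V} {x y : ℕ → V}

/-- exchange the labels -/
theorem Cel.swap (h : Cel D κ c X R L A B x y) : Cel D κ c X R Lᶜ B A y x where
  RX := h.RX
  cR := h.cR
  lay := h.lay
  exA v hv hl := h.exB v hv hl
  exB v hv hl := h.exA v hv (by
    by_contra h1
    exact hl h1)
  ina v hv w hw hvw := by
    have h1 := h.ina v hv w hw hvw
    simp only [Set.mem_compl_iff, not_not]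
    tauto
  nbr := h.nbr
  im := h.im.swap
  ix := h.iy
  iy l hl := ⟨(h.ix l hl).1, fun h1 => h1 (h.ix l hl).2.1, (h.ix l hl).2.2⟩
  twin := h.twin

/-- the outside neighbourhoods contain `A` -/
theorem Cel.subA (h : Cel D κ c X R L A B x y) {v : V} (hv : v ∈ X) (hl : v ∈ L) :
    A ⊆ D.neighborSet v \ (X : Set V) := by
  rcases h.exA v hv hl with h1 | ⟨⟨e, h1⟩, _⟩
  · rw [h1]
  · rw [h1]
    exact Set.subset_insert e A

theorem Cel.subB (h : Cel D κ c X R L A B x y) {v : V} (hv : v ∈ X) (hl : v ∉ L) :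
    B ⊆ D.neighborSet v \ (X : Set V) :=
  h.swap.subA hv hl

/-- `x l` is adjacent to the vertices of `A` -/
theorem Cel.mem_A (h : Cel D κ c X R L A B x y) {l : ℕ} (hl : l < κ) {z : V} :
    z ∈ A ↔ D.Adj (x l) z ∧ z ∉ X := by
  rw [← (h.ix l hl).2.2]
  exact Iff.rfl

theorem Cel.mem_B (h : Cel D κ c X R L A B x y) {l : ℕ} (hl : l < κ) {z : V} :
    z ∈ B ↔ D.Adj (y l) z ∧ z ∉ X :=
  h.swap.mem_A hl

end cell

section fam

variable {κ c h : ℕ} {F : Finset (Finset V × Finset V)}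

/-- every cell contains the data of `Cel` -/
theorem Fam.cel (hF : Fam D κ c h F) {p : Finset V × Finset V} (hp : p ∈ F) :
    ∃ (L A B : Set V) (x y : ℕ → V), Cel D κ c p.1 p.2 L A B x y := by
  rcases hF.cell p hp with ⟨L, A, B, x, y, h1, _⟩ | ⟨L, A, B, x, y, m, w, h1, _⟩
  · exact ⟨L, A, B, x, y, h1⟩
  · exact ⟨L, A, B, x, y, h1⟩

theorem Fam.mem_Vst (hF : Fam D κ c h F) {p : Finset V × Finset V} (hp : p ∈ F) {r : V}
    (hr : r ∈ p.2) : r ∈ Vst F := by
  intro q hq hrq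
  by_cases hpq : p = q
  · exact hpq ▸ hr
  · obtain ⟨L, A, B, x, y, h1⟩ := hF.cel hp
    exact absurd hrq (Finset.disjoint_left.mp (hF.dis p hp q hq hpq) (h1.RX hr))

end fam

/-- components which meet are equal -/
theorem IsComp.eq {U K K' : Set V} (h : IsComp D U K) (h' : IsComp D U K') {v : V} (hv : v ∈ K)
    (hv' : v ∈ K') : K = K' := by
  have key : ∀ {K K' : Set V}, IsComp D U K → IsComp D U K' → v ∈ K → v ∈ K' → K ⊆ K' := by
    intro K K' h h' hv hv'
    have h1 := h.1.eq_of_nb (C := K ∩ K') Set.inter_subset_left ⟨v, hv, hv'⟩ (by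
      intro w hw hwn
      obtain ⟨hw1, c, hc, hcw⟩ := hwn
      exact hw1 ⟨hw, h'.2.2 c hc.2 w (h.2.1 hw) hcw⟩)
    rw [← h1]
    exact Set.inter_subset_right
  exact Set.Subset.antisymm (key h h' hv hv') (key h' h hv' hv)

/-- every vertex of `U` is in a component -/
theorem exists_isComp {U : Set V} (D : SimpleGraph V) {v : V} (hv : v ∈ U) :
    ∃ K, IsComp D U K ∧ v ∈ K := by
  obtain ⟨K, h1, h2, h3, h4⟩ := exists_comp D hv
  refine ⟨K, ⟨h3, h1, fun u hu w hw huw => ?_⟩, h2⟩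
  by_contra hwK
  exact h4 w hw ⟨hwK, u, hu, huw⟩

end Pool.Agent.MPd439b2.W
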