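import Pool.Agent.Lib.MP_d439b2_co.W.SpecM
import Pool.Agent.Lib.MP_d439b2_co.W.BaseM

/-!
# MP_d439b2_co, W: cells which meet the inner part of a maximal clean run
-/

set_option autoImplicit false

namespace Pool.Agent.MPd439b2.W

open Pool.Agent.MPd439b2

namespace betaInAux

theorem prop_path {P : ℕ → Prop} {lo hi i₀ : ℕ} (h0 : P i₀) (hlo : lo ≤ i₀) (hhi : i₀ < hi)
    (hs : ∀ i, lo ≤ i → i + 1 < hi → (P i → P (i + 1)) ∧ (P (i + 1) → P i)) :
    ∀ i, lo ≤ i → i < hi → P i := by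
  have up : ∀ t, i₀ + t < hi → P (i₀ + t) := by
    intro t
    induction t with
    | zero => intro _; exact h0
    | succ t ih =>
      intro h
      exact (hs (i₀ + t) (by omega) (by omega)).1 (ih (by omega))
  have dn : ∀ t, t ≤ i₀ - lo → P (i₀ - t) := by
    intro t
    induction t with
    | zero => intro _; exact h0
    | succ t ih =>
      intro h
      have h1 := (hs (i₀ - (t + 1)) (by omega) (by omega)).2
      have e : i₀ - (t + 1) + 1 = i₀ - t := by omega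
      rw [e] at h1
      exact h1 (ih (by omega))
  intro i h1 h2
  by_cases h : i₀ ≤ i
  · have := up (i - i₀) (by omega)
    rwa [show i₀ + (i - i₀) = i by omega] at this
  · have := dn (i₀ - i) (by omega)
    rwa [show i₀ - (i₀ - i) = i by omega] at this

/-- `A` is contained in `S` and `B` is disjoint from `S` -/
def T1 {V : Type} (A B S : Set V) : Prop := (∀ x ∈ A, x ∈ S) ∧ ∀ x ∈ B, x ∉ S

theorem tyA_iff {V : Type} {D : SimpleGraph V} {A B S X : Set V} {v : V}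
    (h : D.neighborSet v \ X = S) (hA : ∀ x ∈ A, x ∉ X) (hB : ∀ x ∈ B, x ∉ X) :
    TyA D A B v ↔ T1 A B S := by
  subst h
  constructor
  · rintro ⟨h1, h2⟩
    exact ⟨fun x hx => ⟨h1 x hx, hA x hx⟩, fun x hx h => h2 x hx h.1⟩
  · rintro ⟨h1, h2⟩
    exact ⟨fun x hx => (h1 x hx).1, fun x hx h => h2 x hx ⟨h, hB x hx⟩⟩

/-- the case of a path -/
theorem pathCase {V : Type} {D : SimpleGraph V} {u w : ℕ → V} {A B K X L AX BX : Set V}
    {l α β m j₀ : ℕ} (hK : IsComp D (A ∪ B)ᶜ K) (hE : Enu D K (CE D A B) l u)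
    (hR : MRun (CE D A B) l u α β) (hm : 4 ≤ m) (hX : ∀ v, v ∈ X ↔ ∃ i < m, w i = v)
    (hinj : ∀ i < m, ∀ j < m, w i = w j → i = j)
    (hadj : ∀ i < m, ∀ j < m, (D.Adj (w i) (w j) ↔ j = i + 1 ∨ i = j + 1))
    (hina : ∀ v ∈ X, ∀ w ∈ X, D.Adj v w → (v ∈ L ↔ w ∉ L))
    (hL : ∀ i, 0 < i → i + 1 < m → w i ∈ L → D.neighborSet (w i) \ X = AX)
    (hL' : ∀ i, 0 < i → i + 1 < m → w i ∉ L → D.neighborSet (w i) \ X = BX)
    (hXU : ∀ v ∈ X, v ∉ A ∧ v ∉ B) (hj1 : α + 2 ≤ j₀) (hj2 : j₀ + 2 ≤ β) (hj : u j₀ ∈ X) :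
    ∀ i, 3 ≤ i → i + 4 ≤ m → ∃ j, α + 2 ≤ j ∧ j + 2 ≤ β ∧ u j = w i := by
  have hlt := hR.lt
  have hwX : ∀ i < m, w i ∈ X := fun i hi => (hX _).2 ⟨i, hi, rfl⟩
  obtain ⟨i₀, hi₀, hwi₀⟩ := (hX _).1 hj
  have hstep : ∀ i, i + 1 < m → D.Adj (w i) (w (i + 1)) := fun i hi =>
    (hadj i (by omega) (i + 1) hi).2 (Or.inl rfl)
  -- the path is contained in `K`
  have hwK : ∀ i, 0 ≤ i → i < m → w i ∈ K := by
    refine prop_path (P := fun i => w i ∈ K) (i₀ := i₀) ?_ (Nat.zero_le _) hi₀ ?_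
    · show w i₀ ∈ K
      rw [hwi₀]
      exact (hE.mem _).2 ⟨j₀, by omega, rfl⟩
    · intro i _ hi
      constructor
      · intro h
        refine hK.2.2 _ h _ ?_ (hstep i hi)
        intro h'
        rcases h' with h' | h'
        · exact (hXU _ (hwX _ hi)).1 h'
        · exact (hXU _ (hwX _ hi)).2 h'
      · intro h
        refine hK.2.2 _ h _ ?_ (hstep i hi).symm
        intro h'
        rcases h' with h' | h'
        · exact (hXU _ (hwX _ (by omega))).1 h'
        · exact (hXU _ (hwX _ (by omega))).2 h'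
  have hσ : ∀ i, ∃ j, i < m → j < l ∧ u j = w i := by
    intro i
    by_cases hi : i < m
    · obtain ⟨j, h1, h2⟩ := (hE.mem _).1 (hwK i (Nat.zero_le _) hi)
      exact ⟨j, fun _ => ⟨h1, h2⟩⟩
    · exact ⟨0, fun h => absurd h hi⟩
  choose σ hσ using hσ
  have hσl : ∀ i < m, σ i < l := fun i hi => (hσ i hi).1
  have hσu : ∀ i < m, u (σ i) = w i := fun i hi => (hσ i hi).2
  have hσinj : ∀ i < m, ∀ j < m, σ i = σ j → i = j := by
    intro i hi j hj h
    apply hinj i hi j hj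
    rw [← hσu i hi, ← hσu j hj, h]
  have hσ0 : σ i₀ = j₀ := by
    apply hE.inj _ (hσl i₀ hi₀) _ (by omega)
    rw [hσu i₀ hi₀, hwi₀]
  -- neighbours of a vertex which is not an end of the enumeration
  have hnb : ∀ i < m, ∀ i' < m, D.Adj (w i) (w i') → 0 < σ i → σ i + 1 < l →
      σ i' = σ i + 1 ∨ σ i = σ i' + 1 := by
    intro i hi i' hi' h h1 h2
    rw [← hσu i hi, ← hσu i' hi'] at h
    rcases hE.only _ (hσl i hi) _ (hσl i' hi') h with h3 | h3 | ⟨_, h3 | h3⟩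
    · exact Or.inl h3
    · exact Or.inr h3
    · omega
    · omega
  have hcl : ∀ i < m, ∀ i' < m, CE D A B (w i) (w i') →
      σ i' = σ i + 1 ∨ σ i = σ i' + 1 := by
    intro i hi i' hi' h
    rw [← hσu i hi, ← hσu i' hi'] at h
    rcases hE.only _ (hσl i hi) _ (hσl i' hi') h.1 with h3 | h3 | ⟨h4, _⟩
    · exact Or.inl h3
    · exact Or.inr h3
    · exact absurd h h4
  -- an inner vertex in the run
  have hex : ∃ i₁, 0 < i₁ ∧ i₁ + 1 < m ∧ α + 1 ≤ σ i₁ ∧ σ i₁ + 1 ≤ β := by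
    by_cases h0 : i₀ = 0
    · refine ⟨1, by omega, by omega, ?_⟩
      have h1 := hnb i₀ hi₀ 1 (by omega) (by rw [h0]; exact hstep 0 (by omega)) (by omega)
        (by omega)
      rw [hσ0] at h1
      omega
    · by_cases h1 : i₀ + 1 = m
      · refine ⟨i₀ - 1, by omega, by omega, ?_⟩
        have h2 := hnb i₀ hi₀ (i₀ - 1) (by omega) (by
          have h3 := hstep (i₀ - 1) (by omega)
          rw [show i₀ - 1 + 1 = i₀ by omega] at h3
          exact h3.symm) (by omega) (by omega)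
        rw [hσ0] at h2
        omega
      · exact ⟨i₀, by omega, by omega, by omega, by omega⟩
  obtain ⟨i₁, hi1, hi1', hα, hβ⟩ := hex
  -- types of the inner vertices
  have hAX : ∀ x ∈ A, x ∉ X := fun x hx h => (hXU x h).1 hx
  have hBX : ∀ x ∈ B, x ∉ X := fun x hx h => (hXU x h).2 hx
  have hce : ∀ i i', 0 < i → i + 1 < m → 0 < i' → i' + 1 < m → D.Adj (w i) (w i') →
      (CE D A B (w i) (w i') ↔ (T1 A B AX ∧ T1 B A BX) ∨ (T1 B A AX ∧ T1 A B BX)) := by
    intro i i' h1 h2 h3 h4 h5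
    have h6 := hina _ (hwX i (by omega)) _ (hwX i' (by omega)) h5
    unfold CE
    by_cases hi : w i ∈ L
    · have e1 := hL i h1 h2 hi
      have e2 := hL' i' h3 h4 (h6.1 hi)
      rw [tyA_iff e1 hAX hBX, tyA_iff e1 hBX hAX, tyA_iff e2 hAX hBX, tyA_iff e2 hBX hAX]
      exact and_iff_right h5
    · have hi' : w i' ∈ L := by
        by_contra h
        exact hi (h6.2 h)
      have e1 := hL' i h1 h2 hi
      have e2 := hL i' h3 h4 hi'
      rw [tyA_iff e1 hAX hBX, tyA_iff e1 hBX hAX, tyA_iff e2 hAX hBX, tyA_iff e2 hBX hAX]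
      rw [and_iff_right h5]
      tauto
  -- there is a clean inner edge
  have hone : ∃ i₂, 0 < i₂ ∧ i₂ + 1 < m ∧ D.Adj (w i₁) (w i₂) := by
    by_cases h : i₁ + 2 < m
    · exact ⟨i₁ + 1, by omega, by omega, hstep i₁ (by omega)⟩
    · refine ⟨i₁ - 1, by omega, by omega, ?_⟩
      have h3 := hstep (i₁ - 1) (by omega)
      rw [show i₁ - 1 + 1 = i₁ by omega] at h3
      exact h3.symm
  obtain ⟨i₂, hi2, hi2', h12⟩ := hone
  have hZ : (T1 A B AX ∧ T1 B A BX) ∨ (T1 B A AX ∧ T1 A B BX) := by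
    rw [← hce i₁ i₂ hi1 hi1' hi2 hi2' h12, ← hσu i₁ (by omega), ← hσu i₂ (by omega)]
    rcases hnb i₁ (by omega) i₂ (by omega) h12 (by omega) (by omega) with h | h
    · rw [h]
      exact hR.all _ (by omega) (by omega)
    · rw [h]
      exact (hR.all _ (by omega) (by omega)).symm
  have hclean : ∀ i i', 0 < i → i + 1 < m → 0 < i' → i' + 1 < m → D.Adj (w i) (w i') →
      CE D A B (w i) (w i') := fun i i' h1 h2 h3 h4 h5 => (hce i i' h1 h2 h3 h4 h5).2 hZ
  -- all inner vertices are in the run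
  have hin0 : ∀ i i', 0 < i → i + 1 < m → 0 < i' → i' + 1 < m → D.Adj (w i) (w i') →
      (α ≤ σ i ∧ σ i ≤ β) → (α ≤ σ i' ∧ σ i' ≤ β) := by
    intro i i' h1 h2 h3 h4 h5 h6
    have h7 := hclean i i' h1 h2 h3 h4 h5
    have h8 := hcl i (by omega) i' (by omega) h7
    rw [← hσu i (by omega), ← hσu i' (by omega)] at h7
    rcases h8 with h8 | h8
    · refine ⟨by omega, ?_⟩
      by_contra hc
      have e : σ i = β := by omega
      rw [h8, e] at h7
      exact hR.lst (by have := hσl i' (by omega); omega) h7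
    · refine ⟨?_, by omega⟩
      by_contra hc
      have e : σ i = α := by omega
      have e' : σ i' = α - 1 := by omega
      rw [e, e'] at h7
      exact hR.fst (by omega) h7.symm
  have hin : ∀ i, 1 ≤ i → i < m - 1 → (α ≤ σ i ∧ σ i ≤ β) := by
    refine prop_path (P := fun i => α ≤ σ i ∧ σ i ≤ β) (i₀ := i₁) (by omega) (by omega)
      (by omega) ?_
    intro i h1 h2
    exact ⟨hin0 i (i + 1) (by omega) (by omega) (by omega) (by omega) (hstep i (by omega)),
      hin0 (i + 1) i (by omega) (by omega) (by omega) (by omega) (hstep i (by omega)).symm⟩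
  -- the two neighbours of an inner vertex
  have htwo : ∀ i, 2 ≤ i → i + 3 ≤ m → (σ (i - 1) + 1 = σ i ∧ σ (i + 1) = σ i + 1) ∨
      (σ (i + 1) + 1 = σ i ∧ σ (i - 1) = σ i + 1) := by
    intro i h1 h2
    have h3 := hstep (i - 1) (by omega)
    rw [show i - 1 + 1 = i by omega] at h3
    have h4 := hcl i (by omega) (i - 1) (by omega)
      (hclean i (i - 1) (by omega) (by omega) (by omega) (by omega) h3.symm)
    have h5 := hcl i (by omega) (i + 1) (by omega)
      (hclean i (i + 1) (by omega) (by omega) (by omega) (by omega) (hstep i (by omega)))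
    have h6 : σ (i - 1) ≠ σ (i + 1) := by
      intro h
      have := hσinj (i - 1) (by omega) (i + 1) (by omega) h
      omega
    omega
  have h2 : ∀ i, 2 ≤ i → i + 3 ≤ m → α + 1 ≤ σ i ∧ σ i + 1 ≤ β := by
    intro i h1 h2
    have h3 := htwo i h1 h2
    have h4 := hin (i - 1) (by omega) (by omega)
    have h5 := hin (i + 1) (by omega) (by omega)
    omega
  intro i h3 h4
  refine ⟨σ i, ?_, ?_, hσu i (by omega)⟩
  · have h5 := htwo i (by omega) (by omega)
    have h6 := h2 (i - 1) (by omega) (by omega)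
    have h7 := h2 (i + 1) (by omega) (by omega)
    omega
  · have h5 := htwo i (by omega) (by omega)
    have h6 := h2 (i - 1) (by omega) (by omega)
    have h7 := h2 (i + 1) (by omega) (by omega)
    omega

end betaInAux

open betaInAux in
theorem betaIn (hI : S_LemI) (hC : S_CIn) : S_BetaIn := by
  intro s m₀ c h n l α β V _ D a b u A B K X' R' hyp hcm hn hK hnc hE hR hh hcel hab hmeet v hv hvR
  obtain ⟨v₀, hv₀, j₀, hj1, hj2, hj⟩ := hmeet
  have hlt := hR.lt
  have hv₀K : v₀ ∈ K := (hE.mem _).2 ⟨j₀, by omega, hj⟩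
  have hqK : u (j₀ + 1) ∈ K := (hE.mem _).2 ⟨j₀ + 1, by omega, rfl⟩
  have hKU : ∀ z ∈ K, z ∉ A ∧ z ∉ B := fun z hz =>
    ⟨fun h' => hK.2.1 hz (Or.inl h'), fun h' => hK.2.1 hz (Or.inr h')⟩
  have hce : CE D A B v₀ (u (j₀ + 1)) := by
    rw [← hj]
    exact hR.all j₀ (by omega) (by omega)
  rcases hcel with hcel | hcel
  · exfalso
    obtain ⟨_, hclo, hcl⟩ := hC s m₀ c n V D a b A B X' R' hyp hcm hn hcel hab v₀ (u (j₀ + 1)) hv₀
      (hKU _ hv₀K).1 (hKU _ hv₀K).2 (hKU _ hqK).1 (hKU _ hqK).2 hce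
    have hKX : K ∩ (X' : Set V) = K := by
      refine hK.1.eq_of_nb Set.inter_subset_left ⟨v₀, hv₀K, hv₀⟩ ?_
      rintro z hz ⟨hz1, z', hz', hzz⟩
      exact hz1 ⟨hz, hclo z' hz'.2 z (hKU z hz).1 (hKU z hz).2 hzz⟩
    obtain ⟨p, hp, q, hq, hpq, hpq'⟩ := hnc
    rw [← hKX] at hp hq
    exact hpq' (hcl p hp.2 q hq.2 hpq)
  · obtain ⟨L, AX, BX, x, y, m, w, hc, hm, hX, hinj, hadj, hRR, hL, hL'⟩ := hcel
    obtain ⟨hXU, _, _⟩ := hI s m₀ c n V D a b x y A B L AX BX X' R' hyp hcm hn hc hab v₀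
      (u (j₀ + 1)) hv₀ (hKU _ hv₀K).1 (hKU _ hv₀K).2 (hKU _ hqK).1 (hKU _ hqK).2 hce
    obtain ⟨i, hi, hwi⟩ := (hX v).1 hv
    have hi' : ¬ (i < h ∨ m ≤ i + h) := fun h' => hvR ((hRR v).2 ⟨i, hi, h', hwi⟩)
    have key := pathCase (X := (X' : Set V)) (L := L) (AX := AX) (BX := BX) (j₀ := j₀) hK hE hR hm
      (fun v => hX v) hinj hadj (fun v hv w hw => hc.ina v hv w hw) hL hL'
      (fun v hv => hXU v hv) hj1 hj2 (by rw [hj]; exact hv₀) i (by omega) (by omega)
    rw [hwi] at key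
    exact key

end Pool.Agent.MPd439b2.W
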