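import Pool.Agent.Lib.MP_d439b2_co.W.SpecM

/-!
# MP_d439b2_co, W: cells without exceptional neighbours which meet a clean edge
-/

set_option autoImplicit false

namespace Pool.Agent.MPd439b2.W

open Pool.Agent.MPd439b2

namespace CInAux

variable {V : Type} {D : SimpleGraph V}

theorem tyA_congr {A B : Set V} {w w' : V} (h : ∀ z, z ∈ A ∪ B → (D.Adj w z ↔ D.Adj w' z))
    (h1 : TyA D A B w) : TyA D A B w' :=
  ⟨fun x hx => (h x (Or.inl hx)).1 (h1.1 x hx),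
    fun x hx hx' => h1.2 x hx ((h x (Or.inr hx)).2 hx')⟩

theorem ce_congr {A B : Set V} {v q w u : V} (h : CE D A B v q) (hadj : D.Adj w u)
    (h1 : ∀ z, z ∈ A ∪ B → (D.Adj v z ↔ D.Adj w z))
    (h2 : ∀ z, z ∈ A ∪ B → (D.Adj q z ↔ D.Adj u z)) : CE D A B w u := by
  have h1' : ∀ z, z ∈ B ∪ A → (D.Adj v z ↔ D.Adj w z) := fun z hz => h1 z (Or.symm hz)
  have h2' : ∀ z, z ∈ B ∪ A → (D.Adj q z ↔ D.Adj u z) := fun z hz => h2 z (Or.symm hz)
  refine ⟨hadj, ?_⟩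
  rcases h.2 with ⟨h3, h4⟩ | ⟨h3, h4⟩
  · exact Or.inl ⟨tyA_congr h1 h3, tyA_congr h2' h4⟩
  · exact Or.inr ⟨tyA_congr h1' h3, tyA_congr h2 h4⟩

end CInAux

open CInAux in
theorem cIn (h1 : S_LemI) : S_CIn := by
  intro s m₀ c n V D a b A B X R hH hCM hn hCel hR v q hv hvA hvB hqA hqB hCE
  obtain ⟨L, AX, BX, x, y, hC, hA, hB⟩ := hCel
  obtain ⟨hU, hAX, hBX⟩ := h1 s m₀ c n V D a b x y A B L AX BX X R hH hCM hn hC hR v q hv hvA
    hvB hqA hqB hCE
  have hclo : ∀ w ∈ X, ∀ u, u ∉ A → u ∉ B → D.Adj w u → u ∈ X := by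
    intro w hw u huA huB hadj
    by_contra huX
    have h2 : u ∈ D.neighborSet w \ (X : Set V) := ⟨hadj, huX⟩
    by_cases hwL : w ∈ L
    · rw [hA w hw hwL] at h2
      rcases hAX h2 with h3 | h3
      · exact huA h3
      · exact huB h3
    · rw [hB w hw hwL] at h2
      rcases hBX h2 with h3 | h3
      · exact huA h3
      · exact huB h3
  have hAB : ∀ z, z ∈ A ∪ B → z ∉ X := by
    rintro z (hz | hz) hzX
    · exact (hU z hzX).1 hz
    · exact (hU z hzX).2 hz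
  have hlab : ∀ w ∈ X, ∀ w' ∈ X, (w ∈ L ↔ w' ∈ L) → ∀ z, z ∈ A ∪ B →
      (D.Adj w z ↔ D.Adj w' z) := by
    intro w hw w' hw' hL z hz
    have h2 : D.neighborSet w \ (X : Set V) = D.neighborSet w' \ (X : Set V) := by
      by_cases hwL : w ∈ L
      · rw [hA w hw hwL, hA w' hw' (hL.1 hwL)]
      · rw [hB w hw hwL, hB w' hw' (fun h => hwL (hL.2 h))]
    have h3 : z ∈ D.neighborSet w \ (X : Set V) ↔ z ∈ D.neighborSet w' \ (X : Set V) := by
      rw [h2]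
    constructor
    · intro h
      exact (h3.1 ⟨h, hAB z hz⟩).1
    · intro h
      exact (h3.2 ⟨h, hAB z hz⟩).1
  refine ⟨hU, hclo, ?_⟩
  intro w hw u hu hadj
  have hq : q ∈ X := hclo v hv q hqA hqB hCE.1
  have h2 := hC.ina v hv q hq hCE.1
  have h3 := hC.ina w hw u hu hadj
  by_cases hvw : v ∈ L ↔ w ∈ L
  · exact ce_congr hCE hadj (hlab v hv w hw hvw) (hlab q hq u hu (by tauto))
  · exact (ce_congr hCE hadj.symm (hlab v hv u hu (by tauto)) (hlab q hq w hw (by tauto))).symm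

end Pool.Agent.MPd439b2.W
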