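import Pool.Agent.Lib.MP_d439b2_co.W.SpecM

/-!
# MP_d439b2_co, W, M5: cleaning an induced matching
-/

set_option autoImplicit false

namespace Pool.Agent.MPd439b2.W

open Pool.Agent.MPd439b2

namespace CleanAux

variable {V : Type} {D : SimpleGraph V} {n : ℕ} {a b : ℕ → V}

open Classical in
private theorem im_flip (h : IM D n a b) (P : ℕ → Prop) :
    IM D n (fun i => if P i then a i else b i) (fun i => if P i then b i else a i) := by
  intro i hi j hj
  have h1 := h i hi j hj
  have h2 := h.swap i hi j hj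
  by_cases hPi : P i <;> by_cases hPj : P j
  · simp only [hPi, hPj, if_true]
    exact h1
  · have hij : i ≠ j := fun he => hPj (he ▸ hPi)
    simp only [hPi, hPj, if_true, if_false]
    exact ⟨⟨fun h3 => absurd h3 h1.2.1, fun h3 => absurd h3 hij⟩,
      fun h3 => hij (h1.1.1 h3), fun h3 => hij (h2.1.1 h3)⟩
  · have hij : i ≠ j := fun he => hPi (he ▸ hPj)
    simp only [hPi, hPj, if_true, if_false]
    exact ⟨⟨fun h3 => absurd h3 h1.2.2, fun h3 => absurd h3 hij⟩,
      fun h3 => hij (h2.1.1 h3), fun h3 => hij (h1.1.1 h3)⟩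
  · simp only [hPi, hPj, if_false]
    exact h2

private theorem enum_sub {n' : ℕ} {I : Finset ℕ} (h : n' ≤ I.card) :
    ∃ σ : ℕ → ℕ, (∀ i < n', σ i ∈ I) ∧ ∀ i < n', ∀ j < n', σ i = σ j → i = j := by
  refine ⟨fun i => if hi : i < I.card then I.orderEmbOfFin rfl ⟨i, hi⟩ else 0, ?_, ?_⟩
  · intro i hi
    have hi' : i < I.card := by omega
    simp only [hi', dif_pos]
    exact Finset.orderEmbOfFin_mem I rfl _
  · intro i hi j hj hij
    have hi' : i < I.card := by omega
    have hj' : j < I.card := by omega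
    simp only [hi', hj', dif_pos] at hij
    have h1 := (I.orderEmbOfFin rfl).injective hij
    exact congrArg Fin.val h1

private theorem big (h1 : S_Fab) {s m₀ : ℕ} (hH : Hyp s m₀ D) (him : IM D n a b) {v : V}
    (hv : 3 ≤ (Jt D n a b v).card) : (Finset.range n \ Jt D n a b v).card ≤ 3 + 2 * s := by
  classical
  refine h1 s V D n a b {v} (Jt D n a b v) (Finset.range n \ Jt D n a b v) hH.tri hH.noF him
    ⟨v, Finset.mem_singleton_self v⟩ ?_ hv ?_
  · intro i hi
    rw [mem_Jt] at hi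
    refine ⟨hi.1, ?_⟩
    rcases hi.2 with h | h
    · left
      intro x hx y hy
      rw [Finset.mem_singleton] at hx hy
      rw [hx, hy]
      exact h
    · right
      intro x hx y hy
      rw [Finset.mem_singleton] at hx hy
      rw [hx, hy]
      exact h
  · intro i hi
    rw [Finset.mem_sdiff, Finset.mem_range, mem_Jt] at hi
    refine ⟨hi.1, fun h => hi.2 ⟨hi.1, Or.inl (h v (by simp) (a i) (by simp))⟩,
      fun h => hi.2 ⟨hi.1, Or.inr (h v (by simp) (b i) (by simp))⟩⟩

end CleanAux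

open CleanAux

theorem clean (h1 : S_Fab) (h2 : S_Ind) : S_Clean := by
  classical
  intro s m₀ n'
  refine ⟨n' + (3 + 2 * s) + 2 * ((2 * (3 + 2 * s + 2) + 1) * m₀), ?_⟩
  intro V D a b hH him
  obtain ⟨n, hn⟩ : ∃ n, n = n' + (3 + 2 * s) + 2 * ((2 * (3 + 2 * s + 2) + 1) * m₀) := ⟨_, rfl⟩
  rw [← hn] at him ⊢
  by_cases hbig : ∀ v, (Jt D n a b v).card ≤ 2
  · refine ⟨a, b, ∅, ∅, ⟨him.mono (by omega), fun x hx => absurd hx (Set.notMem_empty x),
      fun x hx => absurd hx (Set.notMem_empty x), fun v _ _ => ?_⟩, fun i hi =>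
      ⟨i, by omega, Or.inl ⟨rfl, rfl⟩⟩⟩
    refine le_trans (Finset.card_le_card ?_) (hbig v)
    intro i hi
    rw [mem_Jt] at hi ⊢
    exact ⟨by omega, hi.2⟩
  · push Not at hbig
    obtain ⟨x₀, hx₀⟩ := hbig
    have hI1 := big h1 hH him (v := x₀) (by omega)
    obtain ⟨p, hp⟩ : ∃ p : ℕ → V, p = fun i => if D.Adj x₀ (a i) then a i else b i := ⟨_, rfl⟩
    obtain ⟨q, hq⟩ : ∃ q : ℕ → V, q = fun i => if D.Adj x₀ (a i) then b i else a i := ⟨_, rfl⟩
    have hpq : IM D n p q := by
      rw [hp, hq]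
      exact im_flip him (fun i => D.Adj x₀ (a i))
    have hcase : ∀ i, (p i = a i ∧ q i = b i ∧ D.Adj x₀ (a i)) ∨
        (p i = b i ∧ q i = a i ∧ ¬ D.Adj x₀ (a i)) := by
      intro i
      by_cases h : D.Adj x₀ (a i)
      · left
        refine ⟨?_, ?_, h⟩
        · rw [hp]; exact if_pos h
        · rw [hq]; exact if_pos h
      · right
        refine ⟨?_, ?_, h⟩
        · rw [hp]; exact if_neg h
        · rw [hq]; exact if_neg h
    obtain ⟨Ag, hAg⟩ : ∃ Ag : V → Finset ℕ, Ag = fun v => (Finset.range n).filter fun i =>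
      (D.Adj v (a i) ∧ D.Adj x₀ (a i)) ∨ (D.Adj v (b i) ∧ D.Adj x₀ (b i)) := ⟨_, rfl⟩
    have mAg : ∀ v i, i ∈ Ag v ↔ i < n ∧
        ((D.Adj v (a i) ∧ D.Adj x₀ (a i)) ∨ (D.Adj v (b i) ∧ D.Adj x₀ (b i))) := by
      intro v i
      rw [hAg]
      simp only [Finset.mem_filter, Finset.mem_range]
    have hJt : ∀ v i, i < n → (i ∈ Jt D n a b v ↔ D.Adj v (p i) ∨ D.Adj v (q i)) := by
      intro v i hi
      rw [mem_Jt]
      rcases hcase i with ⟨e1, e2, _⟩ | ⟨e1, e2, _⟩
      · rw [e1, e2]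
        exact ⟨fun h => h.2, fun h => ⟨hi, h⟩⟩
      · rw [e1, e2]
        exact ⟨fun h => h.2.symm, fun h => ⟨hi, h.symm⟩⟩
    have hagr : ∀ v i, i ∈ Jt D n a b x₀ → D.Adj v (p i) → i ∈ Ag v := by
      intro v i hi hv
      rw [mem_Jt] at hi
      rw [mAg]
      refine ⟨hi.1, ?_⟩
      rcases hcase i with ⟨e1, _, e3⟩ | ⟨e1, _, e3⟩
      · rw [e1] at hv
        exact Or.inl ⟨hv, e3⟩
      · rw [e1] at hv
        rcases hi.2 with h | h
        · exact absurd h e3
        · exact Or.inr ⟨hv, h⟩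
    have hagr' : ∀ v i, i ∈ Ag v → D.Adj v (p i) := by
      intro v i hi
      rw [mAg] at hi
      rcases hcase i with ⟨e1, _, e3⟩ | ⟨e1, _, e3⟩
      · rw [e1]
        rcases hi.2 with h | h
        · exact h.1
        · exact absurd (him.edge hi.1) (hH.tri x₀ _ _ e3 h.2)
      · rw [e1]
        rcases hi.2 with h | h
        · exact absurd h.2 e3
        · exact h.1
    -- (1)
    have hA1 : ∀ v, 3 ≤ (Ag v).card → (Finset.range n \ Ag v).card ≤ 3 + 2 * s := by
      intro v hv
      refine h1 s V D n a b {v, x₀} (Ag v) (Finset.range n \ Ag v) hH.tri hH.noF him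
        ⟨v, by simp⟩ ?_ hv ?_
      · intro i hi
        rw [mAg] at hi
        refine ⟨hi.1, ?_⟩
        rcases hi.2 with h | h
        · left
          intro x hx y hy
          rw [Finset.mem_singleton] at hy
          rw [Finset.mem_insert, Finset.mem_singleton] at hx
          rcases hx with hx | hx
          · rw [hx, hy]; exact h.1
          · rw [hx, hy]; exact h.2
        · right
          intro x hx y hy
          rw [Finset.mem_singleton] at hy
          rw [Finset.mem_insert, Finset.mem_singleton] at hx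
          rcases hx with hx | hx
          · rw [hx, hy]; exact h.1
          · rw [hx, hy]; exact h.2
      · intro i hi
        rw [Finset.mem_sdiff, Finset.mem_range, mAg] at hi
        exact ⟨hi.1, fun h => hi.2 ⟨hi.1, Or.inl ⟨h v (by simp) (a i) (by simp),
          h x₀ (by simp) (a i) (by simp)⟩⟩, fun h => hi.2 ⟨hi.1, Or.inr
          ⟨h v (by simp) (b i) (by simp), h x₀ (by simp) (b i) (by simp)⟩⟩⟩
    obtain ⟨A, hA⟩ : ∃ A : Set V, A = {v | 3 ≤ (Jt D n a b v).card ∧ 3 ≤ (Ag v).card} := ⟨_, rfl⟩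
    obtain ⟨B, hB⟩ : ∃ B : Set V, B = {v | 3 ≤ (Jt D n a b v).card ∧ ¬ 3 ≤ (Ag v).card} :=
      ⟨_, rfl⟩
    obtain ⟨IA, hIA⟩ : ∃ IA : Finset ℕ, IA = (Jt D n a b x₀).filter fun i =>
      ∃ x ∈ A, ¬ D.Adj x (p i) := ⟨_, rfl⟩
    obtain ⟨IB, hIB⟩ : ∃ IB : Finset ℕ, IB = (Jt D n a b x₀).filter fun i =>
      ∃ x ∈ B, ¬ D.Adj x (q i) := ⟨_, rfl⟩
    have cIA : IA.card ≤ (2 * (3 + 2 * s + 2) + 1) * m₀ := by
      have hex : ∀ i, ∃ x, i ∈ IA → x ∈ A ∧ ¬ D.Adj x (p i) := by
        intro i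
        by_cases hi : i ∈ IA
        · rw [hIA, Finset.mem_filter] at hi
          obtain ⟨_, x, hx, hx'⟩ := hi
          exact ⟨x, fun _ => ⟨hx, hx'⟩⟩
        · exact ⟨x₀, fun h => absurd h hi⟩
      choose x hx using hex
      refine h2 V D m₀ (3 + 2 * s + 2) IA x p hH.noC (fun i hi => (hx i hi).2) ?_
      intro i hi J hJ hJ'
      have h3 := (hx i hi).1
      rw [hA] at h3
      refine le_trans (Finset.card_le_card (t := Finset.range n \ Ag (x i)) ?_)
        (le_trans (hA1 (x i) h3.2) (by omega))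
      intro j hj
      have h4 := hJ hj
      rw [hIA, Finset.mem_filter, mem_Jt] at h4
      rw [Finset.mem_sdiff, Finset.mem_range]
      exact ⟨h4.1.1, fun h => hJ' j hj (hagr' _ _ h)⟩
    have cIB : IB.card ≤ (2 * (3 + 2 * s + 2) + 1) * m₀ := by
      have hex : ∀ i, ∃ x, i ∈ IB → x ∈ B ∧ ¬ D.Adj x (q i) := by
        intro i
        by_cases hi : i ∈ IB
        · rw [hIB, Finset.mem_filter] at hi
          obtain ⟨_, x, hx, hx'⟩ := hi
          exact ⟨x, fun _ => ⟨hx, hx'⟩⟩
        · exact ⟨x₀, fun h => absurd h hi⟩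
      choose x hx using hex
      refine h2 V D m₀ (3 + 2 * s + 2) IB x q hH.noC (fun i hi => (hx i hi).2) ?_
      intro i hi J hJ hJ'
      have h3 := (hx i hi).1
      rw [hB] at h3
      have h5 := big h1 hH him h3.1
      have h6 : J ⊆ (Finset.range n \ Jt D n a b (x i)) ∪ Ag (x i) := by
        intro j hj
        have h4 := hJ hj
        rw [hIB, Finset.mem_filter] at h4
        have h7 := h4.1
        rw [mem_Jt] at h7
        rw [Finset.mem_union, Finset.mem_sdiff, Finset.mem_range]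
        by_cases h8 : j ∈ Jt D n a b (x i)
        · right
          rw [hJt _ _ h7.1] at h8
          rcases h8 with h8 | h8
          · exact hagr _ _ h4.1 h8
          · exact absurd h8 (hJ' j hj)
        · exact Or.inl ⟨h7.1, h8⟩
      have h7 := Finset.card_le_card h6
      have h8 := Finset.card_union_le (Finset.range n \ Jt D n a b (x i)) (Ag (x i))
      have h9 := h3.2
      omega
    have hcard : n' ≤ (Jt D n a b x₀ \ (IA ∪ IB)).card := by
      have e1 : (Finset.range n).card ≤ (Finset.range n \ Jt D n a b x₀).card +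
          (Jt D n a b x₀).card := by
        have := Finset.le_card_sdiff (Jt D n a b x₀) (Finset.range n)
        omega
      have e2 := Finset.le_card_sdiff (IA ∪ IB) (Jt D n a b x₀)
      have e3 := Finset.card_union_le IA IB
      rw [Finset.card_range] at e1
      omega
    obtain ⟨σ, hσ1, hσ2⟩ := enum_sub hcard
    have hσJ : ∀ i < n', σ i ∈ Jt D n a b x₀ := fun i hi => (Finset.mem_sdiff.1 (hσ1 i hi)).1
    have hσn : ∀ i < n', σ i < n := fun i hi => (mem_Jt.1 (hσJ i hi)).1
    refine ⟨fun i => p (σ i), fun i => q (σ i), A, B, ⟨hpq.comp σ hσn hσ2, ?_, ?_, ?_⟩, ?_⟩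
    · intro x hx i hi
      by_contra h
      refine (Finset.mem_sdiff.1 (hσ1 i hi)).2 (Finset.mem_union_left _ ?_)
      rw [hIA, Finset.mem_filter]
      exact ⟨hσJ i hi, x, hx, h⟩
    · intro x hx i hi
      by_contra h
      refine (Finset.mem_sdiff.1 (hσ1 i hi)).2 (Finset.mem_union_right _ ?_)
      rw [hIB, Finset.mem_filter]
      exact ⟨hσJ i hi, x, hx, h⟩
    · intro v hvA hvB
      have h3 : (Jt D n a b v).card ≤ 2 := by
        by_contra h4
        by_cases h5 : 3 ≤ (Ag v).card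
        · apply hvA
          rw [hA]
          exact ⟨by omega, h5⟩
        · apply hvB
          rw [hB]
          exact ⟨by omega, h5⟩
      refine le_trans (Finset.card_le_card_of_injOn σ ?_ ?_) h3
      · intro i hi
        have hi' := mem_Jt.1 (Finset.mem_coe.1 hi)
        exact Finset.mem_coe.2 ((hJt v _ (hσn i hi'.1)).2 hi'.2)
      · intro i hi j hj hij
        exact hσ2 i (mem_Jt.1 (Finset.mem_coe.1 hi)).1 j (mem_Jt.1 (Finset.mem_coe.1 hj)).1 hij
    · intro i hi
      refine ⟨σ i, hσn i hi, ?_⟩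
      rcases hcase (σ i) with ⟨e1, e2, _⟩ | ⟨e1, e2, _⟩
      · exact Or.inl ⟨e1, e2⟩
      · exact Or.inr ⟨e1, e2⟩

end Pool.Agent.MPd439b2.W
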