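import Pool.Agent.Lib.MP_d439b2_co.W.SpecM

/-!
# MP_d439b2_co, W/CompT: connected fork-free triangle-free graphs
-/

set_option autoImplicit false

namespace Pool.Agent.MPd439b2.W

open Pool.Agent.MPd439b2

namespace CompT

variable {V : Type} (D : SimpleGraph V) (K : Set V) (v : V)

/-- the neighbours of `v` -/
private def N : Set V := {u | u ∈ K ∧ D.Adj v u}

/-- the second neighbourhood -/
private def W : Set V := {w | w ∈ K ∧ w ≠ v ∧ ¬ D.Adj v w ∧ ∃ u ∈ N D K v, D.Adj u w}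

/-- the third neighbourhood -/
private def Z : Set V :=
  {z | z ∈ K ∧ z ≠ v ∧ ¬ D.Adj v z ∧ (∀ u ∈ N D K v, ¬ D.Adj u z) ∧ ∃ w ∈ W D K v, D.Adj w z}

variable {D K v}

/-- (1) -/
private theorem h1 (hf : NoFork D K) (hv : v ∈ K) {w u' u'' : V} (hw : w ∈ W D K v)
    (hu' : u' ∈ N D K v) (hu'' : u'' ∈ N D K v) (h' : ¬ D.Adj w u') (h'' : ¬ D.Adj w u'') :
    u' = u'' := by
  obtain ⟨u, hu, huw⟩ := hw.2.2.2
  by_contra hne
  exact hf v hv u' hu'.1 u'' hu''.1 u hu.1 w hw.1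
    ⟨hu'.2, hu''.2, hu.2, huw, hne, h', h''⟩

/-- a common neighbour -/
private theorem cm (hf : NoFork D K) (hv : v ∈ K) {a b c : V} (ha : a ∈ N D K v) (hb : b ∈ N D K v)
    (hc : c ∈ N D K v) (hab : a ≠ b) (hac : a ≠ c) (hbc : b ≠ c) {w w' : V} (hw : w ∈ W D K v)
    (hw' : w' ∈ W D K v) : ∃ u ∈ N D K v, D.Adj u w ∧ D.Adj u w' := by
  by_contra! hn
  have key : ∀ u ∈ N D K v, ¬ D.Adj w u ∨ ¬ D.Adj w' u := by
    intro u hu
    by_cases h : D.Adj w u
    · exact Or.inr fun h' => hn u hu h.symm h'.symm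
    · exact Or.inl h
  rcases key a ha with h2 | h2 <;> rcases key b hb with h3 | h3 <;> rcases key c hc with h4 | h4
  · exact hab (h1 hf hv hw ha hb h2 h3)
  · exact hab (h1 hf hv hw ha hb h2 h3)
  · exact hac (h1 hf hv hw ha hc h2 h4)
  · exact hbc (h1 hf hv hw' hb hc h3 h4)
  · exact hbc (h1 hf hv hw hb hc h3 h4)
  · exact hac (h1 hf hv hw' ha hc h2 h4)
  · exact hab (h1 hf hv hw' ha hb h2 h3)
  · exact hab (h1 hf hv hw' ha hb h2 h3)

private theorem main (ht : TriFree D) (hc : Conn D K) (hf : NoFork D K) (hv : v ∈ K) {a b c : V}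
    (ha : a ∈ N D K v) (hb : b ∈ N D K v) (hcN : c ∈ N D K v) (hab : a ≠ b) (hac : a ≠ c)
    (hbc : b ≠ c) :
    ∃ P Q : Set V, K = P ∪ Q ∧ Disjoint P Q ∧ (∀ u ∈ P, ∀ v ∈ P, ¬ D.Adj u v) ∧
      (∀ u ∈ Q, ∀ v ∈ Q, ¬ D.Adj u v) ∧ AlmC D P Q ∧ AlmC D Q P := by
  have hcm : ∀ w ∈ W D K v, ∀ w' ∈ W D K v, ∃ u ∈ N D K v, D.Adj u w ∧ D.Adj u w' :=
    fun w hw w' hw' => cm hf hv ha hb hcN hab hac hbc hw hw'
  -- (2)
  have h2 : ∀ w ∈ W D K v, ∀ w' ∈ W D K v, ¬ D.Adj w w' := by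
    intro w hw w' hw'
    obtain ⟨u, hu, h3, h4⟩ := hcm w hw w' hw'
    exact ht u w w' h3 h4
  -- (3)
  have h3 : ∀ u ∈ N D K v, ∀ w ∈ W D K v, ∀ w' ∈ W D K v, ¬ D.Adj u w → ¬ D.Adj u w' → w = w' := by
    intro u hu w hw w' hw' h4 h5
    by_contra hne
    obtain ⟨u'', hu'', hne''⟩ : ∃ u'' ∈ N D K v, u ≠ u'' := by
      by_cases h : u = a
      · exact ⟨b, hb, by rw [h]; exact hab⟩
      · exact ⟨a, ha, h⟩
    have h6 : ∀ w ∈ W D K v, ¬ D.Adj u w → D.Adj u'' w := by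
      intro w hw h
      by_contra h7
      exact hne'' (h1 hf hv hw hu hu'' (fun h8 => h h8.symm) fun h8 => h7 h8.symm)
    exact hf u'' hu''.1 w hw.1 w' hw'.1 v hv u hu.1
      ⟨h6 w hw h4, h6 w' hw' h5, hu''.2.symm, hu.2, hne, h4, h5⟩
  -- (4)
  have h4 : ∀ z ∈ Z D K v, ∀ w' ∈ W D K v, D.Adj z w' := by
    intro z hz w' hw'
    obtain ⟨w, hw, hwz⟩ := hz.2.2.2.2
    by_contra hn
    obtain ⟨u, hu, h5, h6⟩ := hcm w hw w' hw'
    exact hf u hu.1 v hv w' hw'.1 w hw.1 z hz.1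
      ⟨hu.2.symm, h6, h5, hwz, fun h => hw'.2.1 h.symm, fun h => hz.2.2.1 h.symm, hn⟩
  -- (5)
  have h5 : ∀ z ∈ Z D K v, ∀ z' ∈ Z D K v, z = z' := by
    intro z hz z' hz'
    by_contra hne
    obtain ⟨w, hw, hwz⟩ := hz.2.2.2.2
    obtain ⟨u, hu, huw⟩ := hw.2.2.2
    exact hf w hw.1 z hz.1 z' hz'.1 u hu.1 v hv
      ⟨hwz, (h4 z' hz' w hw).symm, huw.symm, hu.2.symm, hne, hz.2.2.1, hz'.2.2.1⟩
  -- (6)
  have h6 : K = ({v} ∪ W D K v) ∪ (N D K v ∪ Z D K v) := by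
    symm
    by_contra hne
    have hsub : ({v} ∪ W D K v) ∪ (N D K v ∪ Z D K v) ⊆ K := by
      rintro x ((rfl | hx) | (hx | hx))
      · exact hv
      · exact hx.1
      · exact hx.1
      · exact hx.1
    obtain ⟨y, hy, x, hx, hyx⟩ := hc.2 _ hsub ⟨v, Or.inl (Or.inl rfl)⟩ hne
    have hxv : x ≠ v := fun h => hx.2 (Or.inl (Or.inl h))
    have hxN : ¬ D.Adj v x := fun h => hx.2 (Or.inr (Or.inl ⟨hx.1, h⟩))
    have hxW : ∀ u ∈ N D K v, ¬ D.Adj u x := fun u hu h =>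
      hx.2 (Or.inl (Or.inr ⟨hx.1, hxv, hxN, u, hu, h⟩))
    rcases hy with (hy | hy) | (hy | hy)
    · rw [Set.mem_singleton_iff] at hy
      rw [hy] at hyx
      exact hxN hyx
    · exact hx.2 (Or.inr (Or.inr ⟨hx.1, hxv, hxN, hxW, y, hy, hyx⟩))
    · exact hxW y hy hyx
    · obtain ⟨w, hw, hwy⟩ := hy.2.2.2.2
      obtain ⟨u, hu, u', hu', hne', h7, h8⟩ : ∃ u ∈ N D K v, ∃ u' ∈ N D K v, u ≠ u' ∧
          D.Adj w u ∧ D.Adj w u' := by
        by_cases e1 : D.Adj w a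
        · by_cases e2 : D.Adj w b
          · exact ⟨a, ha, b, hb, hab, e1, e2⟩
          · by_cases e3 : D.Adj w c
            · exact ⟨a, ha, c, hcN, hac, e1, e3⟩
            · exact absurd (h1 hf hv hw hb hcN e2 e3) hbc
        · by_cases e2 : D.Adj w b
          · by_cases e3 : D.Adj w c
            · exact ⟨b, hb, c, hcN, hbc, e2, e3⟩
            · exact absurd (h1 hf hv hw ha hcN e1 e3) hac
          · exact absurd (h1 hf hv hw ha hb e1 e2) hab
      exact hf w hw.1 u hu.1 u' hu'.1 y hy.1 x hx.1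
        ⟨h7, h8, hwy, hyx, hne', fun h => hxW u hu h.symm, fun h => hxW u' hu' h.symm⟩
  refine ⟨{v} ∪ W D K v, N D K v ∪ Z D K v, h6, ?_, ?_, ?_, ?_, ?_⟩
  · rw [Set.disjoint_left]
    rintro x (hx | hx) (hx' | hx')
    · rw [Set.mem_singleton_iff] at hx
      rw [hx] at hx'
      exact hx'.2.ne rfl
    · exact hx'.2.1 hx
    · exact hx.2.2.1 hx'.2
    · obtain ⟨u, hu, hux⟩ := hx.2.2.2
      exact hx'.2.2.2.1 u hu hux
  · rintro x (hx | hx) y (hy | hy)
    · rw [Set.mem_singleton_iff] at hx hy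
      rw [hx, hy]
      exact D.irrefl
    · rw [Set.mem_singleton_iff] at hx
      rw [hx]
      exact hy.2.2.1
    · rw [Set.mem_singleton_iff] at hy
      rw [hy]
      exact fun h => hx.2.2.1 h.symm
    · exact h2 x hx y hy
  · rintro x (hx | hx) y (hy | hy)
    · exact ht v x y hx.2 hy.2
    · exact hy.2.2.2.1 x hx
    · exact fun h => hx.2.2.2.1 y hy h.symm
    · rw [h5 x hx y hy]
      exact D.irrefl
  · rintro p (hp | hp) q (hq | hq) q' (hq' | hq') e e'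
    · rw [Set.mem_singleton_iff] at hp
      rw [hp] at e
      exact absurd hq.2 e
    · rw [Set.mem_singleton_iff] at hp
      rw [hp] at e
      exact absurd hq.2 e
    · rw [Set.mem_singleton_iff] at hp
      rw [hp] at e'
      exact absurd hq'.2 e'
    · exact h5 q hq q' hq'
    · exact h1 hf hv hp hq hq' e e'
    · exact absurd (h4 q' hq' p hp).symm e'
    · exact absurd (h4 q hq p hp).symm e
    · exact absurd (h4 q hq p hp).symm e
  · rintro p (hp | hp) q (hq | hq) q' (hq' | hq') e e'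
    · rw [Set.mem_singleton_iff] at hq hq'
      rw [hq, hq']
    · rw [Set.mem_singleton_iff] at hq
      rw [hq] at e
      exact absurd hp.2.symm e
    · rw [Set.mem_singleton_iff] at hq'
      rw [hq'] at e'
      exact absurd hp.2.symm e'
    · exact h3 p hp q hq q' hq' e e'
    · rw [Set.mem_singleton_iff] at hq hq'
      rw [hq, hq']
    · exact absurd (h4 p hp q' hq') e'
    · exact absurd (h4 p hp q hq) e
    · exact absurd (h4 p hp q hq) e

end CompT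

theorem compT : S_CompT := by
  intro V D K ht hc hf
  by_cases h : ∀ v ∈ K, (D.neighborSet v ∩ K).encard ≤ 2
  · exact Or.inl h
  · right
    push Not at h
    obtain ⟨v, hv, h⟩ := h
    have h3 : (3 : ℕ∞) ≤ (D.neighborSet v ∩ K).encard := by
      have := Order.add_one_le_of_lt h
      have e : (2 : ℕ∞) + 1 = 3 := by norm_num
      rwa [e] at this
    obtain ⟨t, hts, h4⟩ := Set.exists_subset_encard_eq h3
    obtain ⟨a, b, c, hab, hac, hbc, rfl⟩ := Set.encard_eq_three.mp h4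
    have key : ∀ x ∈ ({a, b, c} : Set V), x ∈ CompT.N D K v := fun x hx =>
      ⟨(hts hx).2, (hts hx).1⟩
    exact CompT.main ht hc hf hv (key a (by simp)) (key b (by simp)) (key c (by simp)) hab hac hbc

end Pool.Agent.MPd439b2.W
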