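import Pool.Agent.Lib.MP_d439b2_co.W.SpecM

/-!
# MP_d439b2_co, W/Crs: crossing matchings contain F1
-/

set_option autoImplicit false

namespace Pool.Agent.MPd439b2.W

open Pool.Agent.MPd439b2

namespace Crs

/-- adjacency of the codes: `(0, i)` is `x i`, `(1, i)` is `y i`, `(2, i)` is `a i`, `(3, i)` is `b i` -/
private def cadj : Fin 4 × Fin 7 → Fin 4 × Fin 7 → Bool
  | (0, i), (1, j) => decide (i = j)
  | (1, i), (0, j) => decide (i = j)
  | (2, i), (3, j) => decide (i = j)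
  | (3, i), (2, j) => decide (i = j)
  | (0, _), (2, _) => true
  | (2, _), (0, _) => true
  | (1, _), (3, _) => true
  | (3, _), (1, _) => true
  | _, _ => false

/-- the groups -/
private def G : Fin 13 → Finset (Fin 4 × Fin 7) :=
  ![{(0, 0)}, {(2, 0)}, {(2, 1)}, {(1, 0)}, {(3, 2)}, {(0, 3), (3, 3)}, {(1, 3), (2, 3)},
    {(0, 4), (3, 4)}, {(1, 4), (2, 4)}, {(0, 5), (3, 5)}, {(1, 5), (2, 5)}, {(0, 6), (3, 6)},
    {(1, 6), (2, 6)}]

private theorem G_ne : ∀ i, (G i).Nonempty := by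
  decide

private theorem G_dis : ∀ i j, i ≠ j → Disjoint (G i) (G j) := by
  decide

private theorem G_adj : ∀ i j, i ≠ j → ((∀ c ∈ G i, ∀ c' ∈ G j, cadj c c' = true) ↔ F1.Adj i j) := by
  unfold F1
  decide

variable {V : Type} {D : SimpleGraph V} {a b x y : ℕ → V} {n : ℕ}

/-- the vertex with the code `c` -/
private def vx (a b x y : ℕ → V) (c : Fin 4 × Fin 7) : V :=
  match c with
  | (0, i) => x i
  | (1, i) => y i
  | (2, i) => a i
  | (3, i) => b i

private theorem xb (ht : TriFree D) (h1 : IM D n a b)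
    (hx : ∀ i < 7, ∀ j < n, D.Adj (x i) (a j) ∧ D.Adj (y i) (b j)) {i j : ℕ} (hi : i < 7)
    (hj : j < n) : ¬ D.Adj (x i) (b j) := fun h =>
  ht (x i) (a j) (b j) (hx i hi j hj).1 h (h1.edge hj)

private theorem ya (ht : TriFree D) (h1 : IM D n a b)
    (hx : ∀ i < 7, ∀ j < n, D.Adj (x i) (a j) ∧ D.Adj (y i) (b j)) {i j : ℕ} (hi : i < 7)
    (hj : j < n) : ¬ D.Adj (y i) (a j) := fun h =>
  ht (y i) (b j) (a j) (hx i hi j hj).2 h (h1.edge hj).symm

private theorem fin_lt (i : Fin 7) : (i : ℕ) < 7 := i.2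

private theorem adj (ht : TriFree D) (h1 : IM D n a b) (h2 : IM D 7 x y) (hn : 7 ≤ n)
    (hx : ∀ i < 7, ∀ j < n, D.Adj (x i) (a j) ∧ D.Adj (y i) (b j)) (c c' : Fin 4 × Fin 7) :
    D.Adj (vx a b x y c) (vx a b x y c') ↔ cadj c c' = true := by
  obtain ⟨k, i⟩ := c
  obtain ⟨k', j⟩ := c'
  have hi : (i : ℕ) < n := lt_of_lt_of_le i.2 hn
  have hj : (j : ℕ) < n := lt_of_lt_of_le j.2 hn
  have e : ((i : ℕ) = (j : ℕ)) ↔ i = j := Fin.ext_iff.symm
  have e' : ((j : ℕ) = (i : ℕ)) ↔ i = j := by rw [eq_comm, e]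
  fin_cases k <;> fin_cases k'
  · change D.Adj (x i) (x j) ↔ false = true
    simpa using (h2 i i.2 j j.2).2.1
  · change D.Adj (x i) (y j) ↔ decide (i = j) = true
    rw [(h2 i i.2 j j.2).1, e, decide_eq_true_iff]
  · change D.Adj (x i) (a j) ↔ true = true
    simpa using (hx i i.2 j hj).1
  · change D.Adj (x i) (b j) ↔ false = true
    simpa using xb ht h1 hx i.2 hj
  · change D.Adj (y i) (x j) ↔ decide (i = j) = true
    rw [D.adj_comm, (h2 j j.2 i i.2).1, e', decide_eq_true_iff]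
  · change D.Adj (y i) (y j) ↔ false = true
    simpa using (h2 i i.2 j j.2).2.2
  · change D.Adj (y i) (a j) ↔ false = true
    simpa using ya ht h1 hx i.2 hj
  · change D.Adj (y i) (b j) ↔ true = true
    simpa using (hx i i.2 j hj).2
  · change D.Adj (a i) (x j) ↔ true = true
    simpa using (hx j j.2 i hi).1.symm
  · change D.Adj (a i) (y j) ↔ false = true
    simpa using fun h => ya ht h1 hx j.2 hi (D.adj_comm _ _ |>.mp h)
  · change D.Adj (a i) (a j) ↔ false = true
    simpa using (h1 i hi j hj).2.1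
  · change D.Adj (a i) (b j) ↔ decide (i = j) = true
    rw [(h1 i hi j hj).1, e, decide_eq_true_iff]
  · change D.Adj (b i) (x j) ↔ false = true
    simpa using fun h => xb ht h1 hx j.2 hi (D.adj_comm _ _ |>.mp h)
  · change D.Adj (b i) (y j) ↔ true = true
    simpa using (hx j j.2 i hi).2.symm
  · change D.Adj (b i) (a j) ↔ decide (i = j) = true
    rw [D.adj_comm, (h1 j hj i hi).1, e', decide_eq_true_iff]
  · change D.Adj (b i) (b j) ↔ false = true
    simpa using (h1 i hi j hj).2.2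

/-- the codes are determined by their neighbours -/
private theorem cinj : ∀ c c' : Fin 4 × Fin 7, (∀ d, cadj c d = cadj c' d) → c = c' := by
  rintro ⟨k, i⟩ ⟨k', j⟩ h
  have h1 : ∀ k k' : Fin 4, k ≠ k' → ∀ i j : Fin 7, ∃ d, cadj (k, i) d ≠ cadj (k', j) d := by
    decide
  have h2 : ∀ k : Fin 4, ∀ i j : Fin 7, i ≠ j → ∃ d, cadj (k, i) d ≠ cadj (k, j) d := by
    decide
  have hk : k = k' := by
    by_contra hne
    obtain ⟨d, hd⟩ := h1 k k' hne i j
    exact hd (h d)
  subst hk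
  have hi : i = j := by
    by_contra hne
    obtain ⟨d, hd⟩ := h2 k i j hne
    exact hd (h d)
  rw [hi]

private theorem inj (ht : TriFree D) (h1 : IM D n a b) (h2 : IM D 7 x y) (hn : 7 ≤ n)
    (hx : ∀ i < 7, ∀ j < n, D.Adj (x i) (a j) ∧ D.Adj (y i) (b j)) :
    Function.Injective (vx a b x y) := by
  intro c c' h
  refine cinj c c' fun d => ?_
  rw [Bool.eq_iff_iff, ← adj ht h1 h2 hn hx, ← adj ht h1 h2 hn hx, h]

/-- the spare edges are new -/
private theorem spare (ht : TriFree D) (h1 : IM D n a b) (h2 : IM D 7 x y)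
    (hx : ∀ i < 7, ∀ j < n, D.Adj (x i) (a j) ∧ D.Adj (y i) (b j)) {q : ℕ} (hq : 7 ≤ q)
    (hqn : q < n) (c : Fin 4 × Fin 7) : a q ≠ vx a b x y c ∧ b q ≠ vx a b x y c := by
  obtain ⟨k, i⟩ := c
  have hi : (i : ℕ) < n := lt_trans (lt_of_lt_of_le i.2 hq) hqn
  have hiq : q ≠ (i : ℕ) := by
    have := i.2
    omega
  obtain ⟨i', hi', hne⟩ : ∃ i' < 7, i' ≠ (i : ℕ) := by
    by_cases h : (i : ℕ) = 0
    · exact ⟨1, by omega, by omega⟩
    · exact ⟨0, by omega, fun h' => h h'.symm⟩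
  fin_cases k
  · change a q ≠ x i ∧ b q ≠ x i
    refine ⟨fun h => ?_, fun h => ?_⟩
    · have := (hx i i.2 q hqn).1
      rw [h] at this
      exact this.ne rfl
    · have := (hx i' hi' q hqn).2
      rw [h, D.adj_comm, (h2 i i.2 i' hi').1] at this
      exact hne this.symm
  · change a q ≠ y i ∧ b q ≠ y i
    refine ⟨fun h => ?_, fun h => ?_⟩
    · have := (hx i' hi' q hqn).1
      rw [h, (h2 i' hi' i i.2).1] at this
      exact hne this
    · have := (hx i i.2 q hqn).2
      rw [h] at this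
      exact this.ne rfl
  · change a q ≠ a i ∧ b q ≠ a i
    exact ⟨fun h => hiq (h1.inj_a hqn hi h), fun h => h1.ne_ab hi hqn h.symm⟩
  · change a q ≠ b i ∧ b q ≠ b i
    exact ⟨fun h => h1.ne_ab hqn hi h, fun h => hiq (h1.inj_b hqn hi h)⟩

end Crs

open Classical in
open Crs in
theorem crs (hM : S_Mod) : S_Crs := by
  intro s V D a b x y ht hF h1 h2 hx
  have hn : 7 ≤ 8 + 2 * s := by omega
  have hadj := adj ht h1 h2 hn hx
  have hinj := inj ht h1 h2 hn hx
  apply hF
  refine hM s V D (fun i => (G i).image (vx a b x y)) (fun q => a (7 + q)) (fun q => b (7 + q)) ht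
    ?_ ?_ ?_ ?_ ?_
  · intro i
    exact (G_ne i).image _
  · intro i j hij
    rw [Finset.disjoint_image hinj]
    exact G_dis i j hij
  · intro i j hij
    rw [← G_adj i j hij]
    constructor
    · intro h c hc c' hc'
      rw [← hadj]
      exact h _ (Finset.mem_image_of_mem _ hc) _ (Finset.mem_image_of_mem _ hc')
    · intro h u hu v hv
      obtain ⟨c, hc, rfl⟩ := Finset.mem_image.mp hu
      obtain ⟨c', hc', rfl⟩ := Finset.mem_image.mp hv
      rw [hadj]
      exact h c hc c' hc'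
  · exact h1.comp (fun q => 7 + q) (fun q hq => by omega) (fun q _ q' _ h => by omega)
  · intro q hq i
    constructor
    · intro h
      obtain ⟨c, -, hc⟩ := Finset.mem_image.mp h
      exact (spare ht h1 h2 hx (q := 7 + q) (by omega) (by omega) c).1 hc.symm
    · intro h
      obtain ⟨c, -, hc⟩ := Finset.mem_image.mp h
      exact (spare ht h1 h2 hx (q := 7 + q) (by omega) (by omega) c).2 hc.symm

end Pool.Agent.MPd439b2.W
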