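import Pool.Agent.Lib.MP_d439b2_co.W.SpecM

/-!
# MP_d439b2_co, W, M29: exchange
-/

set_option autoImplicit false

namespace Pool.Agent.MPd439b2.W

open Pool.Agent.MPd439b2

theorem exch : S_Exch := by
  classical
  intro κ c h V _ D F X R Z hF hcell hmeet hZX hZ hcard
  refine ⟨insert (X, R) (F.filter fun p => Disjoint p.1 X), ⟨?_, ?_⟩, ?_⟩
  · intro p hp
    rcases Finset.mem_insert.mp hp with rfl | hp
    · exact hcell
    · exact hF.cell p (Finset.mem_filter.mp hp).1
  · intro p hp q hq hpq
    rcases Finset.mem_insert.mp hp with rfl | hp <;> rcases Finset.mem_insert.mp hq with rfl | hq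
    · exact absurd rfl hpq
    · exact (Finset.mem_filter.mp hq).2.symm
    · exact (Finset.mem_filter.mp hp).2
    · exact hF.dis p (Finset.mem_filter.mp hp).1 q (Finset.mem_filter.mp hq).1 hpq
  · set F' := insert (X, R) (F.filter fun p => Disjoint p.1 X) with hF'
    have hsub : Vst F' ⊆ (Vst F \ ((Z \ R : Finset V) : Set V)) ∪ (R : Set V) := by
      intro v hv
      by_cases hvR : v ∈ R
      · exact Or.inr hvR
      · left
        have hvX : v ∉ X := fun h => hvR (hv (X, R) (Finset.mem_insert_self _ _) h)
        refine ⟨?_, fun h => hvX (hZX (Finset.mem_sdiff.mp h).1)⟩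
        intro p hp hvp
        by_contra hvp2
        by_cases hd : Disjoint p.1 X
        · exact hvp2 (hv p (Finset.mem_insert_of_mem (Finset.mem_filter.mpr ⟨hp, hd⟩)) hvp)
        · rw [Finset.not_disjoint_iff] at hd
          obtain ⟨u, hu, huX⟩ := hd
          exact hvX (hmeet p hp ⟨u, hu, huX⟩ v hvp hvp2)
    have h1 := Set.ncard_le_ncard hsub (Set.toFinite _)
    have h2 := Set.ncard_union_le (Vst F \ ((Z \ R : Finset V) : Set V)) (R : Set V)
    have h3 : ((Z \ R : Finset V) : Set V) ⊆ Vst F := fun v hv => hZ v (Finset.mem_sdiff.mp hv).1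
    have h4 := Set.ncard_sdiff_add_ncard_of_subset h3 (Set.toFinite _)
    rw [Set.ncard_coe_finset] at h2 h4
    have h5 : Z.card ≤ (Z \ R).card + R.card := by
      have := Finset.card_le_card (Finset.subset_union_left (s₁ := Z) (s₂ := R))
      rw [← Finset.sdiff_union_self_eq_union] at this
      exact this.trans (Finset.card_union_le _ _)
    omega

end Pool.Agent.MPd439b2.W
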