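import Pool.Agent.Lib.MP_d439b2_co.W.SpecM
import Pool.Agent.Lib.MP_d439b2_co.Basic

/-!
# MP_d439b2_co, W: M37, the pair `(3 P_1, K_s v co(S_{1,1,2} + 4 P_2))` has bounded clique-width
-/

set_option autoImplicit false

namespace Pool.Agent.MPd439b2.W

open Pool.Agent.MPd439b2

namespace F1RowAux

instance : DecidableRel F1.Adj := fun u v => by
  unfold F1
  infer_instance

/-- a proper colouring of `F1` -/
def col : Fin 13 → Bool :=
  ![false, true, true, true, false, true, false, true, false, true, false, true, false]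

lemma col_proper : ∀ i j, F1.Adj i j → col i ≠ col j := by
  decide

/-- the complement of a graph without three independent vertices has no triangle -/
lemma triFree {V : Type} (G : SimpleGraph V)
    (h : ¬ IsIndMinor (⊥ : SimpleGraph (Fin 3)) G) : TriFree Gᶜ := by
  intro x y z hxy hxz hyz
  rw [SimpleGraph.compl_adj] at hxy hxz hyz
  apply h
  rw [← ims_univ_iff]
  refine ⟨fun i => {![x, y, z] i}, fun _ => Set.subset_univ _, fun i => Conn.singleton G _, ?_, ?_⟩
  · intro i j hij
    rw [Set.disjoint_singleton]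
    fin_cases i <;> fin_cases j
    · exact absurd rfl hij
    · exact hxy.1
    · exact hxz.1
    · exact hxy.1.symm
    · exact absurd rfl hij
    · exact hyz.1
    · exact hxz.1.symm
    · exact hyz.1.symm
    · exact absurd rfl hij
  · intro i j hij
    constructor
    · intro hb
      exact hb.elim
    · rintro ⟨a, ha, b, hb, hab⟩
      rw [Set.mem_singleton_iff] at ha hb
      subst ha
      subst hb
      exfalso
      fin_cases i <;> fin_cases j
      · exact absurd rfl hij
      · exact hxy.2 hab
      · exact hxz.2 hab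
      · exact hxy.2 hab.symm
      · exact absurd rfl hij
      · exact hyz.2 hab
      · exact hxz.2 hab.symm
      · exact hyz.2 hab.symm
      · exact absurd rfl hij

end F1RowAux

open F1RowAux in
/-- **M37.** -/
theorem f1Row (h1 : S_FinF1) (h2 : S_LayC) (h3 : S_CoM) (h4 : S_LayCW) : S_F1Row := by
  intro s
  obtain ⟨m₀, hm₀⟩ := h3 13 s
  obtain ⟨N, hN⟩ := h1 s m₀
  refine ⟨3 * (N + 1 + 1), ?_⟩
  intro V _ _ G hG hK
  have htri := triFree G hG
  have hcc : (Gᶜ)ᶜ = G := compl_compl G
  have hno : ¬ IsIndMinor (KCo s F1) (Gᶜ)ᶜ := by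
    rw [hcc]
    exact hK
  have hH : Hyp s m₀ Gᶜ :=
    ⟨htri, hno, fun h => hno (hm₀ V Gᶜ F1 col col_proper htri h)⟩
  have hL := h2 V Gᶜ N Set.univ (hN V Gᶜ hH)
  rw [hcc] at hL
  exact h4 V G (N + 1) hL

end Pool.Agent.MPd439b2.W
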