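import Pool.Agent.Lib.MP_d439b2_co.W.SpecM

/-!
# MP_d439b2_co, W, M2: a set which touches three edges touches almost all
-/

set_option autoImplicit false

namespace Pool.Agent.MPd439b2.W

open Pool.Agent.MPd439b2

namespace fabAux

/-- the edge of the vertex number `i` -/
def fe (i : ℕ) : ℕ := if i ≤ 3 then i - 1 else (i + 1) / 2

/-- the side of the vertex number `i` -/
def fs (i : ℕ) : Bool := decide (i ≤ 3) || decide (i % 2 = 1)

theorem tab1 : ∀ i j : Fin 13, i ≠ 0 → j ≠ 0 → i ≠ j →
    (F1.Adj i j ↔ fe i = fe j ∧ fs i ≠ fs j) := by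
  unfold F1
  decide

theorem tab2 : ∀ j : Fin 13, j ≠ 0 → (F1.Adj 0 j ↔ fe j < 3 ∧ fs j = true) := by
  unfold F1
  decide

theorem tab3 : ∀ i j : Fin 13, i ≠ 0 → j ≠ 0 → fe i = fe j → fs i = fs j → i = j := by
  decide

theorem tab4 : ∀ i : Fin 13, i ≠ 0 → fe i < 7 := by
  decide

variable {V : Type} {D : SimpleGraph V}

theorem cmp_single (u v : V) : Cmp D {u} {v} ↔ D.Adj u v := by
  unfold Cmp
  constructor
  · exact fun h => h u (Finset.mem_singleton_self u) v (Finset.mem_singleton_self v)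
  · intro h a ha b hb
    rw [Finset.mem_singleton] at ha hb
    rw [ha, hb]
    exact h

theorem cmp_comm {A B : Finset V} : Cmp D A B ↔ Cmp D B A :=
  ⟨fun h b hb a ha => (h a ha b hb).symm, fun h a ha b hb => (h b hb a ha).symm⟩

/-- the vertex number `i` -/
def vt (p r : ℕ → V) (i : ℕ) : V := if fs i = true then p (fe i) else r (fe i)

theorem vt_adj {n : ℕ} {p r : ℕ → V} (hM : IM D n p r) {i j : ℕ} (hi : fe i < n)
    (hj : fe j < n) : D.Adj (vt p r i) (vt p r j) ↔ fe i = fe j ∧ fs i ≠ fs j := by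
  unfold vt
  have h1 := hM _ hi _ hj
  have h2 := hM _ hj _ hi
  by_cases hsi : fs i = true <;> by_cases hsj : fs j = true
  · rw [if_pos hsi, if_pos hsj, hsi, hsj]
    exact ⟨fun h => absurd h h1.2.1, fun h => absurd rfl h.2⟩
  · rw [if_pos hsi, if_neg hsj, h1.1]
    exact ⟨fun h => ⟨h, fun h' => hsj (h' ▸ hsi)⟩, fun h => h.1⟩
  · rw [if_neg hsi, if_pos hsj, D.adj_comm, h2.1]
    exact ⟨fun h => ⟨h.symm, fun h' => hsi (h'.symm ▸ hsj)⟩, fun h => h.1.symm⟩
  · rw [if_neg hsi, if_neg hsj]
    rw [Bool.not_eq_true] at hsi hsj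
    rw [hsi, hsj]
    exact ⟨fun h => absurd h h1.2.2, fun h => absurd rfl h.2⟩

theorem vt_inj {n : ℕ} {p r : ℕ → V} (hM : IM D n p r) {i j : ℕ} (hi : fe i < n)
    (hj : fe j < n) (h : vt p r i = vt p r j) : fe i = fe j ∧ fs i = fs j := by
  unfold vt at h
  by_cases hsi : fs i = true <;> by_cases hsj : fs j = true
  · rw [if_pos hsi, if_pos hsj] at h
    exact ⟨hM.inj_a hi hj h, hsi.trans hsj.symm⟩
  · rw [if_pos hsi, if_neg hsj] at h
    exact absurd h (hM.ne_ab hi hj)
  · rw [if_neg hsi, if_pos hsj] at h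
    exact absurd h.symm (hM.ne_ab hj hi)
  · rw [if_neg hsi, if_neg hsj] at h
    rw [Bool.not_eq_true] at hsi hsj
    exact ⟨hM.inj_b hi hj h, hsi.trans hsj.symm⟩

/-- the normalized form -/
theorem core (h1 : S_Mod) {s : ℕ} {p r : ℕ → V} {C : Finset V} (ht : TriFree D)
    (hM : IM D (7 + 2 * s) p r) (hC : C.Nonempty) (hin : ∀ k < 3, Cmp D C {p k})
    (hout : ∀ k, 3 ≤ k → k < 7 + 2 * s → ¬ Cmp D C {p k} ∧ ¬ Cmp D C {r k}) :
    IsIndMinor (KCo s F1) Dᶜ := by
  have hadj : ∀ x ∈ C, ∀ k < 3, D.Adj x (p k) := fun x hx k hk =>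
    hin k hk x hx _ (Finset.mem_singleton_self _)
  have hCv : ∀ k < 7 + 2 * s, p k ∉ C ∧ r k ∉ C := by
    intro k hk
    constructor
    · intro h
      exact (hM k hk 0 (by omega)).2.1 (hadj _ h 0 (by omega))
    · intro h
      have h2 := (hM 0 (by omega) k hk).1.mp (hadj _ h 0 (by omega)).symm
      have h3 := (hM 1 (by omega) k hk).1.mp (hadj _ h 1 (by omega)).symm
      omega
  let g : Fin 13 → Finset V := fun i => if i = 0 then C else {vt p r i}
  have hg0 : g 0 = C := if_pos rfl
  have hg1 : ∀ i, i ≠ 0 → g i = {vt p r i} := fun i hi => if_neg hi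
  have hvtC : ∀ i : Fin 13, i ≠ 0 → vt p r i ∉ C := by
    intro i hi
    have h2 := hCv (fe i) (by have := tab4 i hi; omega)
    unfold vt
    split_ifs
    · exact h2.1
    · exact h2.2
  have hCvt : ∀ i : Fin 13, i ≠ 0 → (Cmp D C {vt p r i} ↔ fe i < 3 ∧ fs i = true) := by
    intro i hi
    have h4 := tab4 i hi
    unfold vt
    by_cases h3 : fe i < 3
    · by_cases hs : fs i = true
      · rw [if_pos hs]
        exact iff_of_true (hin _ h3) ⟨h3, hs⟩
      · rw [if_neg hs]
        refine iff_of_false (fun h => ?_) (fun h => hs h.2)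
        obtain ⟨x, hx⟩ := hC
        exact ht x _ _ (hadj x hx _ h3) (h x hx _ (Finset.mem_singleton_self _))
          (hM.edge (by omega))
    · have h5 := hout (fe i) (by omega) (by omega)
      refine iff_of_false (fun h => ?_) (fun h => h3 h.1)
      split_ifs at h
      · exact h5.1 h
      · exact h5.2 h
  refine h1 s V D g (fun q => p (7 + q)) (fun q => r (7 + q)) ht ?_ ?_ ?_ ?_ ?_
  · intro i
    by_cases hi : i = 0
    · rw [hi, hg0]; exact hC
    · rw [hg1 i hi]; exact Finset.singleton_nonempty _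
  · intro i j hij
    by_cases hi : i = 0
    · have hj : j ≠ 0 := fun h => hij (hi.trans h.symm)
      rw [hi, hg0, hg1 j hj, Finset.disjoint_singleton_right]
      exact hvtC j hj
    · by_cases hj : j = 0
      · rw [hj, hg0, hg1 i hi, Finset.disjoint_singleton_left]
        exact hvtC i hi
      · rw [hg1 i hi, hg1 j hj, Finset.disjoint_singleton]
        intro h
        have h2 := vt_inj hM (by have := tab4 i hi; omega) (by have := tab4 j hj; omega) h
        exact hij (tab3 i j hi hj h2.1 h2.2)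
  · intro i j hij
    by_cases hi : i = 0
    · have hj : j ≠ 0 := fun h => hij (hi.trans h.symm)
      rw [hi, hg0, hg1 j hj, hCvt j hj, tab2 j hj]
    · by_cases hj : j = 0
      · rw [hj, hg0, hg1 i hi, cmp_comm, hCvt i hi, F1.adj_comm, tab2 i hi]
      · rw [hg1 i hi, hg1 j hj, cmp_single, tab1 i j hi hj hij]
        exact vt_adj hM (by have := tab4 i hi; omega) (by have := tab4 j hj; omega)
  · exact hM.comp (fun q => 7 + q) (fun q hq => by omega) (fun i _ j _ h => by omega)
  · intro q hq i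
    by_cases hi : i = 0
    · rw [hi, hg0]
      exact hCv (7 + q) (by omega)
    · rw [hg1 i hi, Finset.mem_singleton, Finset.mem_singleton]
      have h4 := tab4 i hi
      unfold vt
      split_ifs
      · exact ⟨fun h => by have := hM.inj_a (by omega) (by omega) h; omega,
          fun h => hM.ne_ab (by omega) (by omega) h.symm⟩
      · exact ⟨fun h => hM.ne_ab (by omega) (by omega) h,
          fun h => by have := hM.inj_b (by omega) (by omega) h; omega⟩

/-- an enumeration -/
theorem enum (P : Finset ℕ) (k : ℕ) (hk : k ≤ P.card) : ∃ g : ℕ → ℕ, (∀ i < k, g i ∈ P) ∧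
    ∀ i < k, ∀ j < k, g i = g j → i = j := by
  classical
  refine ⟨fun i => if h : i < P.card then (P.equivFin.symm ⟨i, h⟩).val else 0, ?_, ?_⟩
  · intro i hi
    beta_reduce
    rw [dif_pos (by omega)]
    exact (P.equivFin.symm ⟨i, by omega⟩).2
  · intro i hi j hj hij
    beta_reduce at hij
    rw [dif_pos (show i < P.card by omega), dif_pos (show j < P.card by omega)] at hij
    have := P.equivFin.symm.injective (Subtype.ext hij)
    simpa using this

end fabAux

open fabAux in
theorem fab (h1 : S_Mod) : S_Fab := by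
  intro s V D n a b C I O ht hno hM hC hI hIc hO
  classical
  by_contra hcon
  rw [not_le] at hcon
  apply hno
  obtain ⟨ι, hι1, hι2⟩ := enum I 3 hIc
  obtain ⟨o, ho1, ho2⟩ := enum O (4 + 2 * s) (by omega)
  -- choose the sides
  let p : ℕ → V := fun k => if Cmp D C {a k} then a k else b k
  let r : ℕ → V := fun k => if Cmp D C {a k} then b k else a k
  have hpr : ∀ k, (p k = a k ∧ r k = b k) ∨ (p k = b k ∧ r k = a k) := by
    intro k
    by_cases h : Cmp D C {a k}
    · exact Or.inl ⟨if_pos h, if_pos h⟩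
    · exact Or.inr ⟨if_neg h, if_neg h⟩
  have hIM : IM D n p r := by
    intro i hi j hj
    have h2 := hM i hi j hj
    have h3 := hM j hj i hi
    by_cases hij : i = j
    · subst hij
      refine ⟨iff_of_true ?_ rfl, ?_, ?_⟩
      · rcases hpr i with h | h
        · rw [h.1, h.2]; exact hM.edge hi
        · rw [h.1, h.2]; exact (hM.edge hi).symm
      · exact fun h => h.ne rfl
      · exact fun h => h.ne rfl
    · have e1 : ¬ D.Adj (a i) (b j) := fun h => hij (h2.1.mp h)
      have e2 : ¬ D.Adj (b i) (a j) := fun h => hij (h3.1.mp h.symm).symm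
      rcases hpr i with h | h <;> rcases hpr j with h' | h' <;> rw [h.1, h.2, h'.1, h'.2]
      · exact ⟨iff_of_false e1 hij, h2.2.1, h2.2.2⟩
      · exact ⟨iff_of_false h2.2.1 hij, e1, e2⟩
      · exact ⟨iff_of_false h2.2.2 hij, e2, e1⟩
      · exact ⟨iff_of_false e2 hij, h2.2.2, h2.2.1⟩
  let E : ℕ → ℕ := fun k => if k < 3 then ι k else o (k - 3)
  have hE1 : ∀ k < 3, E k = ι k := fun k hk => if_pos hk
  have hE2 : ∀ k, 3 ≤ k → E k = o (k - 3) := fun k hk => if_neg (by omega)
  have hIO : ∀ k ∈ I, k ∉ O := by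
    intro k hk hk'
    rcases (hI k hk).2 with h | h
    · exact (hO k hk').2.1 h
    · exact (hO k hk').2.2 h
  have hEn : ∀ k < 7 + 2 * s, E k < n := by
    intro k hk
    rcases Nat.lt_or_ge k 3 with h | h
    · rw [hE1 k h]; exact (hI _ (hι1 k h)).1
    · rw [hE2 k h]; exact (hO _ (ho1 _ (by omega))).1
  have hEi : ∀ i < 7 + 2 * s, ∀ j < 7 + 2 * s, E i = E j → i = j := by
    intro i hi j hj hij
    rcases Nat.lt_or_ge i 3 with h | h <;> rcases Nat.lt_or_ge j 3 with h' | h'
    · rw [hE1 i h, hE1 j h'] at hij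
      exact hι2 i h j h' hij
    · rw [hE1 i h, hE2 j h'] at hij
      exact absurd (hij ▸ ho1 (j - 3) (by omega)) (hIO _ (hι1 i h))
    · rw [hE2 i h, hE1 j h'] at hij
      exact absurd (hij.symm ▸ ho1 (i - 3) (by omega)) (hIO _ (hι1 j h'))
    · rw [hE2 i h, hE2 j h'] at hij
      have := ho2 (i - 3) (by omega) (j - 3) (by omega) hij
      omega
  refine core h1 (p := fun k => p (E k)) (r := fun k => r (E k)) ht (hIM.comp E hEn hEi) hC ?_ ?_
  · intro k hk
    beta_reduce
    rw [hE1 k hk]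
    have h2 := (hI _ (hι1 k hk)).2
    by_cases h : Cmp D C {a (ι k)}
    · simp only [p, if_pos h]; exact h
    · simp only [p, if_neg h]
      exact h2.resolve_left h
  · intro k hk hk'
    beta_reduce
    rw [hE2 k hk]
    have h2 := hO _ (ho1 (k - 3) (by omega))
    rcases hpr (o (k - 3)) with h | h
    · rw [h.1, h.2]; exact h2.2
    · rw [h.1, h.2]; exact ⟨h2.2.2, h2.2.1⟩

end Pool.Agent.MPd439b2.W
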