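import Pool.Agent.Lib.MP_d439b2_co.W.SpecM

/-!
# MP_d439b2_co, W: bounded layouts for triangle-free graphs without merged `F1`
-/

set_option autoImplicit false

namespace Pool.Agent.MPd439b2.W

open Pool.Agent.MPd439b2

theorem finF1 (h1 : S_NoIM) (h2 : S_StepX) (h3 : S_Split) (h4 : S_Lift) : S_FinF1 := by
  intro s m₀
  obtain ⟨c, h, n, hstep⟩ := h2 s m₀
  obtain ⟨N₁, hN₁⟩ := h1 s m₀ n
  obtain ⟨f, hf⟩ := h3 s m₀ n N₁
  refine ⟨c + (c + (N₁ + 1 + f * c) * 2 ^ (f * c)), ?_⟩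
  intro V _ D hH
  have key : ∀ k : ℕ, ∀ F : Finset (Finset V × Finset V), Fam D (8 + 2 * s) c h F →
      (Vst F).ncard = k → Lay D (c + (c + (N₁ + 1 + f * c) * 2 ^ (f * c))) Set.univ := by
    intro k
    induction k using Nat.strong_induction_on with
    | _ k ih =>
      intro F hF hk
      by_cases hM : ∃ a b, IM D n a b ∧ ∀ i < n, a i ∈ Vst F ∧ b i ∈ Vst F
      · rcases hstep V D F hH hF hM with h5 | ⟨F', hF', hlt⟩
        · exact Lay.mono (Nat.le_add_right _ _) h5
        · exact ih _ (by rw [← hk]; exact hlt) F' hF' rfl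
      · have hM' : ∀ a b, IM D n a b → ¬ ∀ i < n, a i ∈ Vst F ∧ b i ∈ Vst F :=
          fun a b hab hall => hM ⟨a, b, hab, hall⟩
        have h5 := hN₁ V D (Vst F) hH hM'
        have h6 := h4 (8 + 2 * s) c h N₁ f V D F (by omega) hF
          (fun S _ hS => hf c h V D F hH hF hM' S hS) h5
        exact Lay.mono (Nat.le_add_left _ _) h6
  refine key _ ∅ ⟨?_, ?_⟩ rfl
  · intro p hp
    exact absurd hp (Finset.notMem_empty p)
  · intro p hp
    exact absurd hp (Finset.notMem_empty p)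

end Pool.Agent.MPd439b2.W
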