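import Pool.Agent.Lib.MP_d439b2_co.W.SpecM

/-!
# MP_d439b2_co, W, M7: no forks outside `A ∪ B` (`S_ForkU`)
-/

set_option autoImplicit false

namespace Pool.Agent.MPd439b2.W

open Pool.Agent.MPd439b2

namespace forkUAux

variable {V : Type} {D : SimpleGraph V}

instance : DecidableRel F1.Adj := by
  unfold F1
  infer_instance

theorem f1_low_high : ∀ i j : Fin 13, i.val < 5 → 5 ≤ j.val → ¬ F1.Adj i j := by
  decide

theorem f1_high : ∀ i j : Fin 13, 5 ≤ i.val → 5 ≤ j.val → i ≠ j →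
    (F1.Adj i j ↔ (i.val - 5) / 2 = (j.val - 5) / 2) := by
  decide

/-- the vertices of the model -/
def w (f : Fin 5 → V) (a b : ℕ → V) (i : Fin 13) : V :=
  if h : i.val < 5 then f ⟨i.val, h⟩
  else if i.val % 2 = 1 then a ((i.val - 5) / 2) else b ((i.val - 5) / 2)

/-- the adjacencies of the five vertices of a fork -/
theorem fork_facts (ht : TriFree D) {c l₁ l₂ m e : V} (h : Fork D c l₁ l₂ m e) :
    ∀ i j : Fin 5, i ≠ j → (![c, l₁, l₂, m, e] : Fin 5 → V) i ≠ (![c, l₁, l₂, m, e] : Fin 5 → V) j ∧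
      (D.Adj ((![c, l₁, l₂, m, e] : Fin 5 → V) i) ((![c, l₁, l₂, m, e] : Fin 5 → V) j) ↔
        F1.Adj (Fin.castLE (by omega) i) (Fin.castLE (by omega) j)) := by
  obtain ⟨h01, h02, h03, h34, n12, h41, h42⟩ := h
  have a12 : ¬ D.Adj l₁ l₂ := ht c l₁ l₂ h01 h02
  have a13 : ¬ D.Adj l₁ m := ht c l₁ m h01 h03
  have a23 : ¬ D.Adj l₂ m := ht c l₂ m h02 h03
  have a04 : ¬ D.Adj c e := fun h => ht m c e h03.symm h34 h
  have n04 : c ≠ e := by
    rintro rfl
    exact h41 h01
  have n13 : l₁ ≠ m := by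
    rintro rfl
    exact h41 h34.symm
  have n23 : l₂ ≠ m := by
    rintro rfl
    exact h42 h34.symm
  have n14 : l₁ ≠ e := by
    rintro rfl
    exact a13 h34.symm
  have n24 : l₂ ≠ e := by
    rintro rfl
    exact a23 h34.symm
  have a14 : ¬ D.Adj l₁ e := fun h => h41 h.symm
  have a24 : ¬ D.Adj l₂ e := fun h => h42 h.symm
  intro i j hij
  match i, j, hij with
  | 0, 0, h => exact absurd rfl h
  | 0, 1, _ => exact ⟨h01.ne, iff_of_true h01 (by decide)⟩
  | 0, 2, _ => exact ⟨h02.ne, iff_of_true h02 (by decide)⟩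
  | 0, 3, _ => exact ⟨h03.ne, iff_of_true h03 (by decide)⟩
  | 0, 4, _ => exact ⟨n04, iff_of_false a04 (by decide)⟩
  | 1, 0, _ => exact ⟨h01.ne.symm, iff_of_true h01.symm (by decide)⟩
  | 1, 1, h => exact absurd rfl h
  | 1, 2, _ => exact ⟨n12, iff_of_false a12 (by decide)⟩
  | 1, 3, _ => exact ⟨n13, iff_of_false a13 (by decide)⟩
  | 1, 4, _ => exact ⟨n14, iff_of_false a14 (by decide)⟩
  | 2, 0, _ => exact ⟨h02.ne.symm, iff_of_true h02.symm (by decide)⟩
  | 2, 1, _ => exact ⟨n12.symm, iff_of_false (fun h => a12 h.symm) (by decide)⟩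
  | 2, 2, h => exact absurd rfl h
  | 2, 3, _ => exact ⟨n23, iff_of_false a23 (by decide)⟩
  | 2, 4, _ => exact ⟨n24, iff_of_false a24 (by decide)⟩
  | 3, 0, _ => exact ⟨h03.ne.symm, iff_of_true h03.symm (by decide)⟩
  | 3, 1, _ => exact ⟨n13.symm, iff_of_false (fun h => a13 h.symm) (by decide)⟩
  | 3, 2, _ => exact ⟨n23.symm, iff_of_false (fun h => a23 h.symm) (by decide)⟩
  | 3, 3, h => exact absurd rfl h
  | 3, 4, _ => exact ⟨h34.ne, iff_of_true h34 (by decide)⟩
  | 4, 0, _ => exact ⟨n04.symm, iff_of_false (fun h => a04 h.symm) (by decide)⟩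
  | 4, 1, _ => exact ⟨n14.symm, iff_of_false h41 (by decide)⟩
  | 4, 2, _ => exact ⟨n24.symm, iff_of_false h42 (by decide)⟩
  | 4, 3, _ => exact ⟨h34.ne.symm, iff_of_true h34.symm (by decide)⟩
  | 4, 4, h => exact absurd rfl h

/-- the adjacencies of the thirteen vertices -/
theorem w_facts {f : Fin 5 → V} {a b : ℕ → V} {k : ℕ} (hk : 4 ≤ k)
    (hf : ∀ i j : Fin 5, i ≠ j → f i ≠ f j ∧ (D.Adj (f i) (f j) ↔
      F1.Adj (Fin.castLE (by omega) i) (Fin.castLE (by omega) j)))
    (him : IM D k a b) (hfar : ∀ i : Fin 5, ∀ q < k, ¬ D.Adj (f i) (a q) ∧ ¬ D.Adj (f i) (b q)) :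
    ∀ i j : Fin 13, i ≠ j → w f a b i ≠ w f a b j ∧
      (D.Adj (w f a b i) (w f a b j) ↔ F1.Adj i j) := by
  have hne : ∀ i : Fin 5, ∀ q < k, f i ≠ a q ∧ f i ≠ b q := by
    intro i q hq
    constructor
    · intro h
      apply (hfar i q hq).2
      rw [h]
      exact him.edge hq
    · intro h
      apply (hfar i q hq).1
      rw [h]
      exact (him.edge hq).symm
  have hlow : ∀ (i : Fin 13) (h : i.val < 5), w f a b i = f ⟨i.val, h⟩ := fun i h => dif_pos h
  have hodd : ∀ (i : Fin 13), ¬ i.val < 5 → i.val % 2 = 1 → w f a b i = a ((i.val - 5) / 2) := by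
    intro i h h'
    unfold w
    rw [dif_neg h, if_pos h']
  have heven : ∀ (i : Fin 13), ¬ i.val < 5 → ¬ i.val % 2 = 1 →
      w f a b i = b ((i.val - 5) / 2) := by
    intro i h h'
    unfold w
    rw [dif_neg h, if_neg h']
  have hlh : ∀ (i j : Fin 13), i.val < 5 → ¬ j.val < 5 → w f a b i ≠ w f a b j ∧
      ¬ D.Adj (w f a b i) (w f a b j) := by
    intro i j hi hj
    have hq : (j.val - 5) / 2 < k := by
      have := j.isLt
      omega
    rw [hlow i hi]
    by_cases h2 : j.val % 2 = 1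
    · rw [hodd j hj h2]
      exact ⟨(hne _ _ hq).1, (hfar _ _ hq).1⟩
    · rw [heven j hj h2]
      exact ⟨(hne _ _ hq).2, (hfar _ _ hq).2⟩
  intro i j hij
  have hijv : i.val ≠ j.val := fun h => hij (Fin.ext h)
  by_cases hi : i.val < 5
  · by_cases hj : j.val < 5
    · rw [hlow i hi, hlow j hj]
      have hne' : (⟨i.val, hi⟩ : Fin 5) ≠ ⟨j.val, hj⟩ := by
        intro h
        have h9 := congrArg Fin.val h
        exact hijv h9
      exact hf ⟨i.val, hi⟩ ⟨j.val, hj⟩ hne'
    · obtain ⟨h1, h2⟩ := hlh i j hi hj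
      exact ⟨h1, iff_of_false h2 (f1_low_high i j hi (by omega))⟩
  · by_cases hj : j.val < 5
    · obtain ⟨h1, h2⟩ := hlh j i hj hi
      exact ⟨h1.symm, iff_of_false (fun h => h2 h.symm)
        (fun h => f1_low_high j i hj (by omega) h.symm)⟩
    · have hqi : (i.val - 5) / 2 < k := by
        have := i.isLt
        omega
      have hqj : (j.val - 5) / 2 < k := by
        have := j.isLt
        omega
      rw [f1_high i j (by omega) (by omega) hij]
      by_cases h1 : i.val % 2 = 1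
      · by_cases h2 : j.val % 2 = 1
        · rw [hodd i hi h1, hodd j hj h2]
          have h3 : (i.val - 5) / 2 ≠ (j.val - 5) / 2 := by omega
          exact ⟨fun h => h3 (him.inj_a hqi hqj h), iff_of_false (him _ hqi _ hqj).2.1 h3⟩
        · rw [hodd i hi h1, heven j hj h2]
          exact ⟨him.ne_ab hqi hqj, (him _ hqi _ hqj).1⟩
      · by_cases h2 : j.val % 2 = 1
        · rw [heven i hi h1, hodd j hj h2]
          refine ⟨(him.ne_ab hqj hqi).symm, ?_⟩
          rw [D.adj_comm, (him _ hqj _ hqi).1]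
          exact eq_comm
        · rw [heven i hi h1, heven j hj h2]
          have h3 : (i.val - 5) / 2 ≠ (j.val - 5) / 2 := by omega
          exact ⟨fun h => h3 (him.inj_b hqi hqj h), iff_of_false (him _ hqi _ hqj).2.2 h3⟩

/-- the vertices of a later edge are not among the thirteen vertices -/
theorem w_out {f : Fin 5 → V} {a b : ℕ → V} {k : ℕ} (him : IM D k a b)
    (hfar : ∀ i : Fin 5, ∀ q < k, ¬ D.Adj (f i) (a q) ∧ ¬ D.Adj (f i) (b q)) {q : ℕ} (hq : q < k)
    (hq4 : 4 ≤ q) (i : Fin 13) : a q ≠ w f a b i ∧ b q ≠ w f a b i := by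
  unfold w
  split_ifs with h1 h2
  · constructor
    · intro h
      apply (hfar ⟨i.val, h1⟩ q hq).2
      rw [← h]
      exact him.edge hq
    · intro h
      apply (hfar ⟨i.val, h1⟩ q hq).1
      rw [← h]
      exact (him.edge hq).symm
  · have hqi : (i.val - 5) / 2 < 4 := by
      have := i.isLt
      omega
    have hqk : (i.val - 5) / 2 < k := by omega
    refine ⟨fun h => ?_, (him.ne_ab hqk hq).symm⟩
    have := him.inj_a hq hqk h
    omega
  · have hqi : (i.val - 5) / 2 < 4 := by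
      have := i.isLt
      omega
    have hqk : (i.val - 5) / 2 < k := by omega
    refine ⟨him.ne_ab hq hqk, fun h => ?_⟩
    have := him.inj_b hq hqk h
    omega

/-- choice of indices which are not touched by five vertices -/
theorem choose_far {n k : ℕ} {a b : ℕ → V} {f : Fin 5 → V} (hn : k + 10 ≤ n) (him : IM D n a b)
    (hf : ∀ i, (Jt D n a b (f i)).card ≤ 2) : ∃ o : ℕ → ℕ,
      IM D k (fun i => a (o i)) (fun i => b (o i)) ∧
      ∀ i : Fin 5, ∀ q < k, ¬ D.Adj (f i) (a (o q)) ∧ ¬ D.Adj (f i) (b (o q)) := by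
  classical
  set T := (Finset.range n) \ (Finset.univ.biUnion fun i => Jt D n a b (f i)) with hT
  have hcard : k ≤ T.card := by
    have h1 : (Finset.univ.biUnion fun i => Jt D n a b (f i)).card ≤ 10 := by
      refine Finset.card_biUnion_le.trans ?_
      calc ∑ i : Fin 5, (Jt D n a b (f i)).card ≤ ∑ _i : Fin 5, 2 :=
            Finset.sum_le_sum fun i _ => hf i
        _ = 10 := by simp
    have h2 : n - 10 ≤ T.card := by
      rw [hT]
      have h3 := Finset.le_card_sdiff (Finset.univ.biUnion fun i => Jt D n a b (f i))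
        (Finset.range n)
      rw [Finset.card_range] at h3
      omega
    omega
  let o : ℕ → ℕ := fun i => if h : i < T.card then T.orderEmbOfFin rfl ⟨i, h⟩ else 0
  have ho : ∀ i < k, o i ∈ T := by
    intro i hi
    have h1 : i < T.card := by omega
    have h2 : o i = T.orderEmbOfFin rfl ⟨i, h1⟩ := dif_pos h1
    rw [h2]
    exact Finset.orderEmbOfFin_mem T rfl _
  have hinj : ∀ i < k, ∀ j < k, o i = o j → i = j := by
    intro i hi j hj hij
    have h1 : i < T.card := by omega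
    have h2 : j < T.card := by omega
    have h3 : o i = T.orderEmbOfFin rfl ⟨i, h1⟩ := dif_pos h1
    have h4 : o j = T.orderEmbOfFin rfl ⟨j, h2⟩ := dif_pos h2
    rw [h3, h4] at hij
    have h5 := (T.orderEmbOfFin rfl).injective hij
    exact congrArg Fin.val h5
  have hlt : ∀ i < k, o i < n := fun i hi =>
    Finset.mem_range.mp (Finset.mem_sdiff.mp (ho i hi)).1
  refine ⟨o, him.comp o hlt hinj, fun i q hq => ?_⟩
  have h1 := (Finset.mem_sdiff.mp (ho q hq)).2
  have h2 : o q ∉ Jt D n a b (f i) := fun h => h1 (Finset.mem_biUnion.mpr ⟨i, Finset.mem_univ i, h⟩)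
  rw [mem_Jt] at h2
  exact ⟨fun h => h2 ⟨hlt q hq, Or.inl h⟩, fun h => h2 ⟨hlt q hq, Or.inr h⟩⟩

end forkUAux

open forkUAux in
/-- **M7.** No forks outside `A ∪ B`. -/
theorem forkU (h1 : S_Mod) : S_ForkU := by
  classical
  intro s m₀ V D n a b A B hyp hCM hn c hc l₁ hl₁ l₂ hl₂ m hm e he hfork
  have hU : ∀ v ∈ (A ∪ B)ᶜ, (Jt D n a b v).card ≤ 2 := by
    intro v hv
    exact hCM.few v (fun h => hv (Or.inl h)) (fun h => hv (Or.inr h))
  have hf : ∀ i : Fin 5, (Jt D n a b ((![c, l₁, l₂, m, e] : Fin 5 → V) i)).card ≤ 2 := by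
    intro i
    match i with
    | 0 => exact hU c hc
    | 1 => exact hU l₁ hl₁
    | 2 => exact hU l₂ hl₂
    | 3 => exact hU m hm
    | 4 => exact hU e he
  obtain ⟨o, him, hfar⟩ := choose_far (k := 4 + 2 * s) (by omega) hCM.im hf
  have hw := w_facts (D := D) (by omega) (fork_facts hyp.tri hfork) him hfar
  refine hyp.noF (h1 s V D
    (fun i => {w (![c, l₁, l₂, m, e] : Fin 5 → V) (fun i => a (o i)) (fun i => b (o i)) i})
    (fun q => a (o (4 + q))) (fun q => b (o (4 + q))) hyp.tri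
    (fun i => Finset.singleton_nonempty _) ?_ ?_ ?_ ?_)
  · intro i j hij
    rw [Finset.disjoint_singleton]
    exact (hw i j hij).1
  · intro i j hij
    rw [← (hw i j hij).2]
    unfold Cmp
    simp only [Finset.mem_singleton, forall_eq]
  · exact him.comp (fun q => 4 + q) (fun i hi => by omega) (fun i _ j _ h => by omega)
  · intro q hq i
    have h2 := w_out (D := D) him hfar (q := 4 + q) (by omega) (by omega) i
    rw [Finset.mem_singleton, Finset.mem_singleton]
    exact h2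

end Pool.Agent.MPd439b2.W
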