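import Pool.Agent.Lib.MP_d439b2_co.W.SpecM

/-!
# MP_d439b2_co, W, M14: the hypotheses for induced subgraphs
-/

set_option autoImplicit false

namespace Pool.Agent.MPd439b2.W

open Pool.Agent.MPd439b2

private theorem adj_co {V : Type} {D : SimpleGraph V} {Y : Set V} (u v : Y) :
    (D.induce Y)ᶜ.Adj u v ↔ Dᶜ.Adj u.1 v.1 := by
  rw [SimpleGraph.compl_adj, SimpleGraph.compl_adj]
  have h1 : u ≠ v ↔ u.1 ≠ v.1 := by rw [Ne, Ne, Subtype.ext_iff]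
  rw [h1]
  exact Iff.rfl

private theorem conn_img {V : Type} {D : SimpleGraph V} {Y : Set V} {A : Set Y}
    (h : Conn (D.induce Y)ᶜ A) : Conn Dᶜ (Subtype.val '' A) := by
  refine ⟨h.1.image _, ?_⟩
  intro B hB1 hB2 hB3
  have hsub : {u : Y | u.1 ∈ B} ⊆ A := by
    intro u hu
    obtain ⟨u', h1, h2⟩ := hB1 hu
    rwa [← Subtype.ext h2]
  obtain ⟨b, hb, a, ha, hab⟩ := h.2 {u : Y | u.1 ∈ B} hsub (by
    obtain ⟨x, hx⟩ := hB2
    obtain ⟨u, _, h2⟩ := hB1 hx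
    refine ⟨u, ?_⟩
    rw [Set.mem_ofPred_eq, h2]
    exact hx) (by
    intro he
    apply hB3
    refine Set.Subset.antisymm hB1 ?_
    rintro _ ⟨u, hu, rfl⟩
    rw [← he] at hu
    exact hu)
  refine ⟨b.1, hb, a.1, ⟨⟨a, ha.1, rfl⟩, ha.2⟩, (adj_co b a).1 hab⟩

theorem hypI : S_HypI := by
  intro s m₀ V D Y hH
  refine ⟨?_, ?_, ?_⟩
  · intro x y z h1 h2
    exact hH.tri x.1 y.1 z.1 h1 h2
  · intro h
    apply hH.noF
    rw [← ims_univ_iff] at h ⊢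
    obtain ⟨B, _, h2, h3, h4⟩ := h
    refine ⟨fun w => Subtype.val '' B w, fun w => Set.subset_univ _, fun w => conn_img (h2 w),
      ?_, ?_⟩
    · intro w w' hw
      rw [Set.disjoint_left]
      rintro _ ⟨u, hu, rfl⟩ ⟨u', hu', he⟩
      rw [Subtype.ext he] at hu'
      exact Set.disjoint_left.1 (h3 w w' hw) hu hu'
    · intro w w' hw
      rw [h4 w w' hw]
      constructor
      · rintro ⟨a, ha, b, hb, hab⟩
        exact ⟨a.1, ⟨a, ha, rfl⟩, b.1, ⟨b, hb, rfl⟩, (adj_co a b).1 hab⟩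
      · rintro ⟨_, ⟨a, ha, rfl⟩, _, ⟨b, hb, rfl⟩, hab⟩
        exact ⟨a, ha, b, hb, (adj_co a b).2 hab⟩
  · rintro ⟨a, b, hab⟩
    exact hH.noC ⟨fun i => (a i).1, fun i => (b i).1, hab⟩

end Pool.Agent.MPd439b2.W
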