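import Pool.Agent.Lib.MP_d439b2_co.W.SpecM

/-!
# MP_d439b2_co, W, M4: the co-matching bound
-/

set_option autoImplicit false

namespace Pool.Agent.MPd439b2.W

open Pool.Agent.MPd439b2

theorem indM (h1 : S_Dig) : S_Ind := by
  classical
  intro V D m₀ τ I x a hC hx hJ
  by_contra hcon
  rw [not_le] at hcon
  obtain ⟨J, hJI, hJc, hJa⟩ := h1 τ m₀ I (fun i j => ¬ D.Adj (x i) (a j))
    (fun i hi J hJI hJ' => hJ i hi J hJI fun j hj => (hJ' j hj).2) hcon.le
  apply hC
  let e : ℕ → ℕ := fun i => if h : i < J.card then (J.equivFin.symm ⟨i, h⟩).val else 0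
  have he1 : ∀ i < m₀, e i ∈ J := by
    intro i hi
    simp only [e]
    rw [dif_pos (by omega)]
    exact (J.equivFin.symm ⟨i, by omega⟩).2
  have he2 : ∀ i < m₀, ∀ j < m₀, e i = e j → i = j := by
    intro i hi j hj hij
    simp only [e] at hij
    rw [dif_pos (show i < J.card by omega), dif_pos (show j < J.card by omega)] at hij
    have := J.equivFin.symm.injective (Subtype.ext hij)
    simpa using this
  refine ⟨fun i => x (e i), fun i => a (e i), fun i hi j hj => ⟨?_, ?_⟩⟩
  · rintro hadj rfl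
    exact hx _ (hJI (he1 i hi)) hadj
  · intro hne
    have h2 := hJa _ (he1 i hi) _ (he1 j hj) (fun h => hne (he2 i hi j hj h))
    exact not_not.mp h2

end Pool.Agent.MPd439b2.W
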