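import Pool.Agent.Lib.MP_d439b2_co.W.SpecM

/-!
# MP_d439b2_co, W: layouts of paths and cycles (`S_LayD2`), helper42
-/

set_option autoImplicit false

namespace Pool.Agent.MPd439b2.W

open Pool.Agent.MPd439b2

open Classical in
/-- the degree of `v` inside the finite set `S` -/
private noncomputable def dg {V : Type} (D : SimpleGraph V) (S : Finset V) (v : V) : ℕ :=
  (S.filter fun w => D.Adj v w).card

open Classical in
private theorem dg_insert {V : Type} (D : SimpleGraph V) (S : Finset V) (w v : V)
    (hw : w ∉ S) : dg D (insert w S) v = dg D S v + (if D.Adj v w then 1 else 0) := by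
  unfold dg
  rw [Finset.filter_insert]
  by_cases h : D.Adj v w
  · rw [if_pos h, if_pos h, Finset.card_insert_of_notMem]
    intro h1
    exact hw (Finset.mem_filter.mp h1).1
  · rw [if_neg h, if_neg h, add_zero]

open Classical in
private theorem sum_insert {V : Type} (D : SimpleGraph V) (S : Finset V) (w : V)
    (hw : w ∉ S) :
    ∑ v ∈ insert w S, dg D (insert w S) v = ∑ v ∈ S, dg D S v + 2 * dg D S w := by
  rw [Finset.sum_insert hw, dg_insert D S w w hw, if_neg (D.loopless.irrefl w), add_zero]
  have h : ∑ v ∈ S, dg D (insert w S) v = ∑ v ∈ S, dg D S v + dg D S w := by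
    rw [Finset.sum_congr rfl fun v _ => dg_insert D S w v hw, Finset.sum_add_distrib]
    congr 1
    rw [← Finset.card_filter]
    unfold dg
    congr 1
    ext v
    simp only [Finset.mem_filter]
    rw [D.adj_comm]
  rw [h]
  ring

theorem layD2 : S_LayD2 := by
  intro V _ D K t hK hdeg hty
  classical
  have := Fintype.ofFinite V
  set Kf : Finset V := K.toFinset with hKf
  have hmK : ∀ v, v ∈ Kf ↔ v ∈ K := fun v => Set.mem_toFinset
  have hdK : ∀ v ∈ K, dg D Kf v ≤ 2 := by
    intro v hv
    have h := hdeg v hv
    have h1 : (D.neighborSet v ∩ K) = ((Kf.filter fun w => D.Adj v w : Finset V) : Set V) := by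
      ext w
      simp only [Set.mem_inter_iff, SimpleGraph.mem_neighborSet, Finset.coe_filter,
        Set.mem_ofPred_eq, hmK]
      exact and_comm
    rw [h1, Set.encard_coe_eq_coe_finsetCard] at h
    exact_mod_cast h
  have claim : ∀ j : ℕ, 1 ≤ j → j ≤ Kf.card → ∃ S : Finset V, S ⊆ Kf ∧ S.card = j ∧
      Lay D (t + 4) (S : Set V) ∧ 2 * S.card ≤ ∑ v ∈ S, dg D S v + 2 := by
    intro j hj
    induction j, hj using Nat.le_induction with
    | base =>
      intro _
      obtain ⟨v, hv⟩ := hK.1
      refine ⟨{v}, ?_, Finset.card_singleton v, ?_, ?_⟩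
      · rw [Finset.singleton_subset_iff, hmK]
        exact hv
      · rw [Finset.coe_singleton]
        exact Lay.single' (by omega) v
      · rw [Finset.card_singleton]
        omega
    | succ j hj ih =>
      intro hjK
      obtain ⟨S, hSK, hSc, hSL, hSs⟩ := ih (by omega)
      have hSne : (S : Set V) ≠ K := by
        intro h
        have : S = Kf := by
          ext v
          rw [hmK, ← h, Finset.mem_coe]
        rw [this] at hSc
        omega
      have hSK' : (S : Set V) ⊆ K := fun v hv => (hmK v).mp (hSK hv)
      have hSnonempty : (S : Set V).Nonempty := by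
        rw [Finset.coe_nonempty, ← Finset.card_pos]
        omega
      obtain ⟨b, hb, w, hw, hbw⟩ := hK.2 (S : Set V) hSK' hSnonempty hSne
      have hwS : w ∉ S := fun h => hw.2 h
      have hd1 : 1 ≤ dg D S w := by
        unfold dg
        rw [Nat.one_le_iff_ne_zero, Ne, Finset.card_eq_zero, ← Ne, ← Finset.nonempty_iff_ne_empty]
        exact ⟨b, Finset.mem_filter.mpr ⟨hb, hbw.symm⟩⟩
      have hS'K : insert w S ⊆ Kf := Finset.insert_subset ((hmK w).mpr hw.1) hSK
      have hcard : (insert w S).card = j + 1 := by
        rw [Finset.card_insert_of_notMem hwS, hSc]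
      have hsum : 2 * (insert w S).card ≤ ∑ v ∈ insert w S, dg D (insert w S) v + 2 := by
        rw [sum_insert D S w hwS, Finset.card_insert_of_notMem hwS]
        omega
      refine ⟨insert w S, hS'K, hcard, ?_, hsum⟩
      -- the vertices with further neighbours
      set S' := insert w S with hS'
      set Bad := S'.filter (fun v => ∃ x ∈ K, x ∉ S' ∧ D.Adj v x) with hBad
      have hmono : ∀ v, dg D S' v ≤ dg D Kf v := by
        intro v
        unfold dg
        exact Finset.card_le_card (Finset.filter_subset_filter _ hS'K)
      have hbad : ∀ v ∈ S', dg D S' v + (if v ∈ Bad then 1 else 0) ≤ 2 := by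
        intro v hv
        have hvK : v ∈ K := (hmK v).mp (hS'K hv)
        by_cases h : v ∈ Bad
        · rw [if_pos h]
          obtain ⟨x, hxK, hxS, hvx⟩ := (Finset.mem_filter.mp h).2
          have hlt : dg D S' v < dg D Kf v := by
            unfold dg
            refine Finset.card_lt_card ⟨Finset.filter_subset_filter _ hS'K, fun hle => ?_⟩
            have : x ∈ S'.filter fun w => D.Adj v w :=
              hle (Finset.mem_filter.mpr ⟨(hmK x).mpr hxK, hvx⟩)
            exact hxS (Finset.mem_filter.mp this).1
          have := hdK v hvK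
          omega
        · rw [if_neg h, add_zero]
          exact (hmono v).trans (hdK v hvK)
      have hBc : Bad.card ≤ 2 := by
        have h1 := Finset.sum_le_sum hbad
        rw [Finset.sum_add_distrib, ← Finset.card_filter, Finset.sum_const, smul_eq_mul] at h1
        have h2 : (S'.filter fun v => v ∈ Bad) = Bad := by
          ext v
          rw [Finset.mem_filter]
          exact ⟨fun h => h.2, fun h => ⟨(Finset.mem_filter.mp h).1, h⟩⟩
        rw [h2] at h1
        omega
      have hsub : Types D (S' : Set V) ⊆ {T | ∃ v ∈ K, T = D.neighborSet v \ K} ∪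
          ((Bad.image fun v => D.neighborSet v \ (S' : Set V) : Finset (Set V)) : Set (Set V)) := by
        rintro T ⟨_, v, hv, rfl⟩
        by_cases h : v ∈ Bad
        · right
          rw [Finset.coe_image]
          exact ⟨v, h, rfl⟩
        · left
          refine ⟨v, (hmK v).mp (hS'K hv), ?_⟩
          ext x
          constructor
          · rintro ⟨hx, hxS⟩
            refine ⟨hx, fun hxK => h ?_⟩
            exact Finset.mem_filter.mpr ⟨hv, x, hxK, hxS, hx⟩
          · rintro ⟨hx, hxK⟩
            exact ⟨hx, fun hxS => hxK ((hmK x).mp (hS'K hxS))⟩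
      have henc : (Types D (S' : Set V)).encard ≤ ((t + 4 : ℕ) : ℕ∞) := by
        refine (Set.encard_le_encard hsub).trans ((Set.encard_union_le _ _).trans ?_)
        have h1 : (((Bad.image fun v => D.neighborSet v \ (S' : Set V) : Finset (Set V)) :
            Set (Set V))).encard ≤ ((4 : ℕ) : ℕ∞) := by
          rw [Set.encard_coe_eq_coe_finsetCard]
          exact_mod_cast (Finset.card_image_le.trans hBc).trans (by omega)
        refine (add_le_add hty h1).trans ?_
        exact_mod_cast le_refl _
      rw [hS', Finset.coe_insert] at henc ⊢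
      exact Lay.insert (by omega) hSL (fun h => hwS h) henc
  have hpos : 1 ≤ Kf.card := by
    obtain ⟨v, hv⟩ := hK.1
    exact Finset.card_pos.mpr ⟨v, (hmK v).mpr hv⟩
  obtain ⟨S, h1, h2, h3, _⟩ := claim Kf.card hpos le_rfl
  have h4 : S = Kf := Finset.eq_of_subset_of_card_le h1 (by omega)
  rw [h4] at h3
  have h5 : (Kf : Set V) = K := by
    ext v
    rw [Finset.mem_coe, hmK]
  rw [h5] at h3
  exact h3

end Pool.Agent.MPd439b2.W
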