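import Pool.Agent.Lib.MP_d439b2_co.W.SpecM

/-!
# MP_d439b2_co, W, M12: layouts of fork-free parts
-/

set_option autoImplicit false

namespace Pool.Agent.MPd439b2.W

open Pool.Agent.MPd439b2

theorem layFree (h1 : S_CompT) (h2 : S_LayD2) (h3 : S_LayPQ) (h4 : S_LayUn) : S_LayFree := by
  intro V _ D U X t ht hF hXU hX hty
  refine h4 V D U X (2 * t + 4) hXU hX ?_ (hty.trans (by exact_mod_cast (by omega)))
  intro K hK hKX
  have hF' : NoFork D K := fun c hc a ha b hb m hm e he =>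
    hF c (hK.2.1 hc) a (hK.2.1 ha) b (hK.2.1 hb) m (hK.2.1 hm) e (hK.2.1 he)
  have hty' : {T | ∃ v ∈ K, T = D.neighborSet v \ K}.encard ≤ t := by
    refine (Set.encard_le_encard ?_).trans hty
    rintro T ⟨u, hu, rfl⟩
    refine ⟨u, hKX hu, ?_⟩
    ext w
    constructor
    · rintro ⟨h5, h6⟩
      exact ⟨h5, fun h7 => h6 (hK.2.2 u hu w h7 h5)⟩
    · rintro ⟨h5, h6⟩
      exact ⟨h5, fun h7 => h6 (hK.2.1 h7)⟩
  rcases h1 V D K ht hK.1 hF' with h5 | ⟨P, Q, hPQ, hd, hP, hQ, haP, haQ⟩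
  · exact (h2 V D K t hK.1 h5 hty').mono (by omega)
  · rw [hPQ] at hty' ⊢
    exact h3 V D P Q t hd hP hQ haP haQ hty'

end Pool.Agent.MPd439b2.W
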