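import Pool.Agent.Lib.MP_d439b2_co.W.SpecM

/-!
# MP_d439b2_co, W, M10: layouts of complete bipartite graphs minus a matching
-/

set_option autoImplicit false

namespace Pool.Agent.MPd439b2.W

open Pool.Agent.MPd439b2

namespace layPQAux

variable {V : Type}

/-- the closed sets -/
def Clo (D : SimpleGraph V) (P Q S : Set V) : Prop :=
  S ⊆ P ∪ Q ∧ (∀ u ∈ S, u ∈ P → ∀ w ∈ Q, w ∉ S → D.Adj u w) ∧
    ∀ u ∈ S, u ∈ Q → ∀ w ∈ P, w ∉ S → D.Adj u w

theorem Clo.swap {D : SimpleGraph V} {P Q S : Set V} (h : Clo D P Q S) : Clo D Q P S :=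
  ⟨by rw [Set.union_comm]; exact h.1, h.2.2, h.2.1⟩

/-- the assumptions -/
structure Asm (D : SimpleGraph V) (P Q : Set V) (t : ℕ) : Prop where
  dis : ∀ x ∈ P, x ∉ Q
  iP : ∀ u ∈ P, ∀ v ∈ P, ¬ D.Adj u v
  iQ : ∀ u ∈ Q, ∀ v ∈ Q, ¬ D.Adj u v
  aP : AlmC D P Q
  aQ : AlmC D Q P
  ty : {T | ∃ v ∈ P ∪ Q, T = D.neighborSet v \ (P ∪ Q)}.encard ≤ t

theorem Asm.swap {D : SimpleGraph V} {P Q : Set V} {t : ℕ} (h : Asm D P Q t) : Asm D Q P t :=
  ⟨fun x hx hx' => h.dis x hx' hx, h.iQ, h.iP, h.aQ, h.aP, by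
    rw [Set.union_comm]; exact h.ty⟩

theorem types_le {D : SimpleGraph V} {P Q : Set V} {t : ℕ} (h : Asm D P Q t) {S E : Set V}
    (hS : S ⊆ P ∪ Q) (h1 : ∀ u ∈ S, u ∉ E → u ∈ P → ∀ w ∈ Q, w ∉ S → D.Adj u w)
    (h2 : ∀ u ∈ S, u ∉ E → u ∈ Q → ∀ w ∈ P, w ∉ S → D.Adj u w) :
    (Types D S).encard ≤ t + t + E.encard := by
  set Out := {T | ∃ v ∈ P ∪ Q, T = D.neighborSet v \ (P ∪ Q)} with hOut
  have hsub : Types D S ⊆ ((fun T => T ∪ (Q \ S)) '' Out ∪ (fun T => T ∪ (P \ S)) '' Out) ∪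
      (fun u => D.neighborSet u \ S) '' E := by
    rintro T ⟨_, u, hu, rfl⟩
    by_cases huE : u ∈ E
    · exact Or.inr ⟨u, huE, rfl⟩
    · left
      rcases hS hu with huP | huQ
      · left
        refine ⟨D.neighborSet u \ (P ∪ Q), ⟨u, Or.inl huP, rfl⟩, ?_⟩
        ext w
        constructor
        · rintro (⟨h3, h4⟩ | ⟨h3, h4⟩)
          · exact ⟨h3, fun h5 => h4 (hS h5)⟩
          · exact ⟨h1 u hu huE huP w h3 h4, h4⟩
        · rintro ⟨h3, h4⟩
          by_cases h5 : w ∈ P ∪ Q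
          · right
            refine ⟨h5.resolve_left fun h6 => h.iP u huP w h6 h3, h4⟩
          · exact Or.inl ⟨h3, h5⟩
      · right
        refine ⟨D.neighborSet u \ (P ∪ Q), ⟨u, Or.inr huQ, rfl⟩, ?_⟩
        ext w
        constructor
        · rintro (⟨h3, h4⟩ | ⟨h3, h4⟩)
          · exact ⟨h3, fun h5 => h4 (hS h5)⟩
          · exact ⟨h2 u hu huE huQ w h3 h4, h4⟩
        · rintro ⟨h3, h4⟩
          by_cases h5 : w ∈ P ∪ Q
          · right
            refine ⟨h5.resolve_right fun h6 => h.iQ u huQ w h6 h3, h4⟩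
          · exact Or.inl ⟨h3, h5⟩
  refine (Set.encard_le_encard hsub).trans ?_
  refine (Set.encard_union_le _ _).trans ?_
  refine add_le_add ((Set.encard_union_le _ _).trans (add_le_add ?_ ?_)) (Set.encard_image_le _ _)
  · exact (Set.encard_image_le _ _).trans h.ty
  · exact (Set.encard_image_le _ _).trans h.ty

theorem step {D : SimpleGraph V} {P Q : Set V} {t : ℕ} (h : Asm D P Q t) {S : Set V}
    (hS : Clo D P Q S) (hL : Lay D (2 * t + 4) S) {v : V} (hv : v ∈ P) (hvS : v ∉ S) :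
    ∃ S', Clo D P Q S' ∧ Lay D (2 * t + 4) S' ∧ S ⊆ S' ∧ v ∈ S' := by
  have hvQ : v ∉ Q := h.dis v hv
  have hins : insert v S ⊆ P ∪ Q := Set.insert_subset (Or.inl hv) hS.1
  by_cases hall : ∀ w ∈ Q, w ∉ S → D.Adj v w
  · refine ⟨insert v S, ⟨hins, ?_, ?_⟩, ?_, Set.subset_insert _ _, Set.mem_insert _ _⟩
    · rintro u (rfl | hu) huP w hw hwS
      · exact hall w hw fun h' => hwS (Or.inr h')
      · exact hS.2.1 u hu huP w hw fun h' => hwS (Or.inr h')
    · rintro u (rfl | hu) huQ w hw hwS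
      · exact absurd huQ hvQ
      · exact hS.2.2 u hu huQ w hw fun h' => hwS (Or.inr h')
    · apply hL.insert (by omega) hvS
      have h3 := types_le h (S := insert v S) (E := {v}) hins (by
        rintro u (rfl | hu) huE huP w hw hwS
        · exact absurd rfl huE
        · exact hS.2.1 u hu huP w hw fun h' => hwS (Or.inr h')) (by
        rintro u (rfl | hu) huE huQ w hw hwS
        · exact absurd rfl huE
        · exact hS.2.2 u hu huQ w hw fun h' => hwS (Or.inr h'))
      refine h3.trans ?_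
      rw [Set.encard_singleton]
      exact_mod_cast (by omega : t + t + 1 ≤ 2 * t + 4)
  · push Not at hall
    obtain ⟨w₀, hw₀, hw₀S, hw₀v⟩ := hall
    have hL1 : Lay D (2 * t + 4) (insert v S) := by
      apply hL.insert (by omega) hvS
      have h3 := types_le h (S := insert v S) (E := {v}) hins (by
        rintro u (rfl | hu) huE huP w hw hwS
        · exact absurd rfl huE
        · exact hS.2.1 u hu huP w hw fun h' => hwS (Or.inr h')) (by
        rintro u (rfl | hu) huE huQ w hw hwS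
        · exact absurd rfl huE
        · exact hS.2.2 u hu huQ w hw fun h' => hwS (Or.inr h'))
      refine h3.trans ?_
      rw [Set.encard_singleton]
      exact_mod_cast (by omega : t + t + 1 ≤ 2 * t + 4)
    have hclo : Clo D P Q (insert w₀ (insert v S)) := by
      refine ⟨Set.insert_subset (Or.inr hw₀) hins, ?_, ?_⟩
      · rintro u (rfl | rfl | hu) huP w hw hwS
        · exact absurd hw₀ (h.dis _ huP)
        · by_contra hn
          have := h.aP u hv w hw w₀ hw₀ hn hw₀v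
          exact hwS (Or.inl this)
        · exact hS.2.1 u hu huP w hw fun h' => hwS (Or.inr (Or.inr h'))
      · rintro u (rfl | rfl | hu) huQ w hw hwS
        · by_contra hn
          have := h.aQ u hw₀ w hw v hv hn fun h' => hw₀v h'.symm
          exact hwS (Or.inr (Or.inl this))
        · exact absurd huQ hvQ
        · exact hS.2.2 u hu huQ w hw fun h' => hwS (Or.inr (Or.inr h'))
    refine ⟨insert w₀ (insert v S), hclo, ?_, fun x hx => Or.inr (Or.inr hx),
      Or.inr (Or.inl rfl)⟩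
    apply hL1.insert (by omega)
    · rintro (h' | h')
      · exact hvQ (h' ▸ hw₀)
      · exact hw₀S h'
    · have h3 := types_le h (S := insert w₀ (insert v S)) (E := ∅) hclo.1
        (fun u hu _ => hclo.2.1 u hu) (fun u hu _ => hclo.2.2 u hu)
      refine h3.trans ?_
      rw [Set.encard_empty, add_zero]
      exact_mod_cast (by omega : t + t ≤ 2 * t + 4)

end layPQAux

open layPQAux in
theorem layPQ : S_LayPQ := by
  intro V _ D P Q t hd hP hQ haP haQ hty
  have hA : Asm D P Q t := ⟨fun x hx hx' => Set.disjoint_left.mp hd hx hx', hP, hQ, haP, haQ, hty⟩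
  obtain ⟨S, ⟨hS, hL⟩, hmax⟩ := Set.exists_max_image
    {S : Set V | Clo D P Q S ∧ Lay D (2 * t + 4) S} Set.ncard (Set.toFinite _)
    ⟨∅, ⟨Set.empty_subset _, fun u hu => absurd hu (Set.notMem_empty u),
      fun u hu => absurd hu (Set.notMem_empty u)⟩, Lay.empty⟩
  have hfin : ∀ v ∈ P ∪ Q, v ∈ S := by
    intro v hv
    by_contra hvS
    obtain ⟨S', hS', hL', hsub, hvS'⟩ : ∃ S', Clo D P Q S' ∧ Lay D (2 * t + 4) S' ∧ S ⊆ S' ∧
        v ∈ S' := by
      rcases hv with hv | hv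
      · exact step hA hS hL hv hvS
      · obtain ⟨S', h1, h2, h3, h4⟩ := step hA.swap hS.swap hL hv hvS
        exact ⟨S', h1.swap, h2, h3, h4⟩
    have h1 := hmax S' ⟨hS', hL'⟩
    have h2 : S.ncard < S'.ncard := Set.ncard_lt_ncard
      (Set.ssubset_iff_subset_ne.mpr ⟨hsub, fun h => hvS (h ▸ hvS')⟩) (Set.toFinite _)
    omega
  rw [← Set.Subset.antisymm hS.1 hfin]
  exact hL

end Pool.Agent.MPd439b2.W
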