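import Pool.Agent.Lib.MP_d439b2_co.W.SpecM

/-!
# MP_d439b2_co, W, M17: Lemma I
-/

set_option autoImplicit false

namespace Pool.Agent.MPd439b2.W

open Pool.Agent.MPd439b2

namespace lemIAux

variable {V : Type} {D : SimpleGraph V} {n : ℕ} {a b : ℕ → V}

open Classical in
/-- the indices with `a i` in a small set are few -/
theorem card_in (him : IM D n a b) {c : ℕ} {X R : Finset V} (hR : R.card ≤ c)
    (h : ∀ i < n, a i ∈ X → a i ∈ R) :
    ((Finset.range n).filter fun i => a i ∈ X).card ≤ c := by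
  refine le_trans ?_ hR
  refine Finset.card_le_card_of_injOn a ?_ ?_
  · intro i hi
    obtain ⟨h1, h2⟩ := Finset.mem_filter.mp (Finset.mem_coe.mp hi)
    exact Finset.mem_coe.mpr (h i (Finset.mem_range.mp h1) h2)
  · intro i hi j hj hij
    have h1 := Finset.mem_range.mp (Finset.mem_filter.mp (Finset.mem_coe.mp hi)).1
    have h2 := Finset.mem_range.mp (Finset.mem_filter.mp (Finset.mem_coe.mp hj)).1
    exact him.inj_a h1 h2 hij

theorem key1 {c κ : ℕ} {x y : ℕ → V} {A B L AX BX : Set V} {X R : Finset V} (ht : TriFree D)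
    (hC : CM D n a b A B) (hn : c + 5 ≤ n) (hX : Cel D κ c X R L AX BX x y)
    (hR : ∀ i < n, a i ∈ X → a i ∈ R) {v w : V} (hv : v ∈ X) (hvL : v ∈ L) (hw : w ∈ X)
    (hwL : w ∈ L) (hvA : v ∈ A) : w ∈ A := by
  classical
  have h1 := card_in hC.im hX.cR hR
  set S := (Finset.range n).filter fun i => a i ∈ AX with hS
  have h2 : ∃ e : V, ∀ i < n, a i ∉ X → a i ∈ AX ∨ a i = e := by
    rcases hX.exA v hv hvL with h | ⟨⟨e, h⟩, -⟩
    · refine ⟨v, fun i hi hiX => Or.inl ?_⟩
      rw [← h]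
      exact ⟨hC.cA v hvA i hi, fun hh => hiX (Finset.mem_coe.mp hh)⟩
    · refine ⟨e, fun i hi hiX => ?_⟩
      have h3 : a i ∈ D.neighborSet v \ (X : Set V) :=
        ⟨hC.cA v hvA i hi, fun hh => hiX (Finset.mem_coe.mp hh)⟩
      rw [h] at h3
      rcases h3 with h3 | h3
      · exact Or.inr h3
      · exact Or.inl h3
  obtain ⟨e, he⟩ := h2
  have h3 : ((Finset.range n).filter fun i => a i = e).card ≤ 1 := by
    rw [Finset.card_le_one]
    intro i hi j hj
    obtain ⟨h4, h5⟩ := Finset.mem_filter.mp hi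
    obtain ⟨h6, h7⟩ := Finset.mem_filter.mp hj
    exact hC.im.inj_a (Finset.mem_range.mp h4) (Finset.mem_range.mp h6) (h5.trans h7.symm)
  have h4 : Finset.range n ⊆ S ∪ ((Finset.range n).filter fun i => a i ∈ X) ∪
      ((Finset.range n).filter fun i => a i = e) := by
    intro i hi
    by_cases h5 : a i ∈ X
    · exact Finset.mem_union_left _ (Finset.mem_union_right _ (Finset.mem_filter.mpr ⟨hi, h5⟩))
    · rcases he i (Finset.mem_range.mp hi) h5 with h6 | h6
      · exact Finset.mem_union_left _ (Finset.mem_union_left _ (Finset.mem_filter.mpr ⟨hi, h6⟩))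
      · exact Finset.mem_union_right _ (Finset.mem_filter.mpr ⟨hi, h6⟩)
  have h5 : 3 ≤ S.card := by
    have h6 := Finset.card_le_card h4
    have h7 := Finset.card_union_le (S ∪ ((Finset.range n).filter fun i => a i ∈ X))
      ((Finset.range n).filter fun i => a i = e)
    have h8 := Finset.card_union_le S ((Finset.range n).filter fun i => a i ∈ X)
    rw [Finset.card_range] at h6
    omega
  have hadj : ∀ i ∈ S, D.Adj w (a i) := by
    intro i hi
    exact (hX.subA hw hwL (Finset.mem_filter.mp hi).2).1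
  have h6 : 3 ≤ (Jt D n a b w).card := by
    refine h5.trans (Finset.card_le_card fun i hi => ?_)
    exact mem_Jt.mpr ⟨Finset.mem_range.mp (Finset.mem_filter.mp hi).1, Or.inl (hadj i hi)⟩
  by_contra hwA
  by_cases hwB : w ∈ B
  · obtain ⟨i, hi⟩ : S.Nonempty := by
      rw [← Finset.card_pos]
      omega
    exact hC.nB ht hwB (Finset.mem_range.mp (Finset.mem_filter.mp hi).1) (hadj i hi)
  · have := hC.few w hwA hwB
    omega

/-! ### the model in case (2b) -/

/-- adjacency of the atoms -/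
def adjB (s t : Fin 4 × Fin 7) : Bool :=
  (s.1 == 0 && t.1 == 1) || (s.1 == 1 && t.1 == 0) ||
    (s.1 == 1 && t.1 == 2 && s.2 == t.2) || (s.1 == 2 && t.1 == 1 && s.2 == t.2) ||
    (s.1 == 2 && t.1 == 3) || (s.1 == 3 && t.1 == 2)

/-- the first atom of the groups -/
def c1 : Fin 13 → Fin 4 × Fin 7 :=
  ![(0, 0), (1, 0), (1, 1), (1, 2), (2, 2), (2, 3), (1, 3), (2, 4), (1, 4), (2, 5), (1, 5), (2, 6),
    (1, 6)]

/-- the second atom of the groups -/
def c2 : Fin 13 → Fin 4 × Fin 7 :=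
  ![(0, 0), (1, 0), (1, 1), (1, 2), (2, 2), (2, 3), (3, 3), (2, 4), (3, 4), (2, 5), (3, 5), (2, 6),
    (3, 6)]

theorem dec_adj : ∀ i j : Fin 13, i ≠ j →
    ((adjB (c1 i) (c1 j) = true ∧ adjB (c1 i) (c2 j) = true ∧ adjB (c2 i) (c1 j) = true ∧
      adjB (c2 i) (c2 j) = true) ↔ F1.Adj i j) := by
  unfold F1
  decide

theorem dec_ne : ∀ i j : Fin 13, i ≠ j →
    c1 i ≠ c1 j ∧ c1 i ≠ c2 j ∧ c2 i ≠ c1 j ∧ c2 i ≠ c2 j := by
  decide

/-- `q` occurs only with the index `0` -/
def okA (t : Fin 4 × Fin 7) : Bool := t.1 != 0 || t.2 == 0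

theorem dec_ok : ∀ i : Fin 13, okA (c1 i) = true ∧ okA (c2 i) = true := by
  decide

/-- the value of an atom -/
def val (q : V) (x y z : ℕ → V) (t : Fin 4 × Fin 7) : V :=
  if t.1 = 0 then q else if t.1 = 1 then x t.2 else if t.1 = 2 then y t.2 else z t.2

theorem val0 (q : V) (x y z : ℕ → V) (l : Fin 7) : val q x y z (0, l) = q := rfl
theorem val1 (q : V) (x y z : ℕ → V) (l : Fin 7) : val q x y z (1, l) = x l := rfl
theorem val2 (q : V) (x y z : ℕ → V) (l : Fin 7) : val q x y z (2, l) = y l := rfl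
theorem val3 (q : V) (x y z : ℕ → V) (l : Fin 7) : val q x y z (3, l) = z l := rfl

theorem adjB_eq (k k' : Fin 4) (l l' : Fin 7) : adjB (k, l) (k', l') =
    ((k == 0 && k' == 1) || (k == 1 && k' == 0) ||
    (k == 1 && k' == 2 && l == l') || (k == 2 && k' == 1 && l == l') ||
    (k == 2 && k' == 3) || (k == 3 && k' == 2)) := rfl

theorem model2b (hM : S_Mod) {s : ℕ} (ht : TriFree D) (hno : ¬ IsIndMinor (KCo s F1) Dᶜ)
    {x y z : ℕ → V} (hxy : IM D (8 + 2 * s) x y) {q : V} (hq : ∀ l < 8 + 2 * s, D.Adj q (x l))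
    (hqz : ∀ l < 7, ¬ D.Adj q (z l)) (hqz' : ∀ l < 7, q ≠ z l)
    (hyz : ∀ l < 8 + 2 * s, ∀ l' < 7, D.Adj (y l) (z l'))
    (hzz : ∀ l < 7, ∀ l' < 7, ¬ D.Adj (z l) (z l')) (hzi : ∀ l < 7, ∀ l' < 7, z l = z l' → l = l')
    (hzx : ∀ l < 7, ∀ l' < 8 + 2 * s, z l ≠ x l' ∧ z l ≠ y l')
    (hqx : ∀ l < 8 + 2 * s, q ≠ x l ∧ q ≠ y l) : False := by
  classical
  have hxz : ∀ l < 8 + 2 * s, ∀ l' < 7, ¬ D.Adj (x l) (z l') := fun l hl l' hl' =>
    ht (y l) (x l) (z l') (hxy.edge hl).symm (hyz l hl l' hl')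
  have hqy : ∀ l < 8 + 2 * s, ¬ D.Adj q (y l) := fun l hl =>
    ht (x l) q (y l) (hq l hl).symm (hxy.edge hl)
  have h7 : ∀ l : Fin 7, (l : ℕ) < 7 := fun l => l.2
  have h8 : ∀ l : Fin 7, (l : ℕ) < 8 + 2 * s := fun l => by have := l.2; omega
  have hadj : ∀ t u : Fin 4 × Fin 7, D.Adj (val q x y z t) (val q x y z u) ↔ adjB t u = true := by
    rintro ⟨k, l⟩ ⟨k', l'⟩
    rw [adjB_eq]
    have e1 := fun l l' : Fin 7 => (hxy l (h8 l) l' (h8 l')).1
    have e2 : ∀ l l' : Fin 7, ((l : ℕ) = (l' : ℕ) ↔ l = l') := fun l l' => Fin.val_inj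
    fin_cases k <;> fin_cases k'
    · exact ⟨fun h => absurd rfl h.ne, fun h => by simp at h⟩
    · exact ⟨fun _ => by simp, fun _ => hq _ (h8 _)⟩
    · exact ⟨fun h => absurd h (hqy _ (h8 _)), fun h => by simp at h⟩
    · exact ⟨fun h => absurd h (hqz _ (h7 _)), fun h => by simp at h⟩
    · exact ⟨fun _ => by simp, fun _ => (hq _ (h8 _)).symm⟩
    · exact ⟨fun h => absurd h (hxy _ (h8 _) _ (h8 _)).2.1, fun h => by simp at h⟩
    · refine ⟨fun h => ?_, fun h => ?_⟩
      · have := (e2 _ _).mp ((e1 _ _).mp h)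
        subst this
        simp
      · have : l = l' := by simpa using h
        subst this
        exact hxy.edge (h8 _)
    · exact ⟨fun h => absurd h (hxz _ (h8 _) _ (h7 _)), fun h => by simp at h⟩
    · exact ⟨fun h => absurd h.symm (hqy _ (h8 _)), fun h => by simp at h⟩
    · refine ⟨fun h => ?_, fun h => ?_⟩
      · have := (e2 _ _).mp ((e1 _ _).mp h.symm)
        subst this
        simp
      · have : l = l' := by simpa using h
        subst this
        exact (hxy.edge (h8 _)).symm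
    · exact ⟨fun h => absurd h (hxy _ (h8 _) _ (h8 _)).2.2, fun h => by simp at h⟩
    · exact ⟨fun _ => by simp, fun _ => hyz _ (h8 _) _ (h7 _)⟩
    · exact ⟨fun h => absurd h.symm (hqz _ (h7 _)), fun h => by simp at h⟩
    · exact ⟨fun h => absurd h.symm (hxz _ (h8 _) _ (h7 _)), fun h => by simp at h⟩
    · exact ⟨fun _ => by simp, fun _ => (hyz _ (h8 _) _ (h7 _)).symm⟩
    · exact ⟨fun h => absurd h (hzz _ (h7 _) _ (h7 _)), fun h => by simp at h⟩
  have hinj : ∀ t u : Fin 4 × Fin 7, okA t = true → okA u = true →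
      val q x y z t = val q x y z u → t = u := by
    rintro ⟨k, l⟩ ⟨k', l'⟩ h1 h2 h
    fin_cases k <;> fin_cases k'
    · have e1 : l = 0 := by simpa [okA] using h1
      have e2 : l' = 0 := by simpa [okA] using h2
      rw [e1, e2]
    · exact absurd h (hqx _ (h8 _)).1
    · exact absurd h (hqx _ (h8 _)).2
    · exact absurd h (hqz' _ (h7 _))
    · exact absurd h.symm (hqx _ (h8 _)).1
    · have : l = l' := Fin.val_inj.mp (hxy.inj_a (h8 _) (h8 _) h)
      exact congrArg (Prod.mk _) this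
    · exact absurd h (hxy.ne_ab (h8 _) (h8 _))
    · exact absurd h.symm (hzx _ (h7 _) _ (h8 _)).1
    · exact absurd h.symm (hqx _ (h8 _)).2
    · exact absurd h.symm (hxy.ne_ab (h8 _) (h8 _))
    · have : l = l' := Fin.val_inj.mp (hxy.inj_b (h8 _) (h8 _) h)
      exact congrArg (Prod.mk _) this
    · exact absurd h.symm (hzx _ (h7 _) _ (h8 _)).2
    · exact absurd h.symm (hqz' _ (h7 _))
    · exact absurd h (hzx _ (h7 _) _ (h8 _)).1
    · exact absurd h (hzx _ (h7 _) _ (h8 _)).2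
    · have : l = l' := Fin.val_inj.mp (hzi _ (h7 _) _ (h7 _) h)
      exact congrArg (Prod.mk _) this
  have hspare : ∀ p, p < 2 * s → ∀ t : Fin 4 × Fin 7, x (7 + p) ≠ val q x y z t ∧
      y (7 + p) ≠ val q x y z t := by
    rintro p hp ⟨k, l⟩
    have hl := l.2
    fin_cases k
    · exact ⟨(hqx _ (by omega)).1.symm, (hqx _ (by omega)).2.symm⟩
    · refine ⟨fun h => ?_, fun h => ?_⟩
      · have := hxy.inj_a (by omega) (h8 _) h
        omega
      · exact hxy.ne_ab (h8 _) (by omega) h.symm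
    · refine ⟨fun h => ?_, fun h => ?_⟩
      · exact hxy.ne_ab (by omega) (h8 _) h
      · have := hxy.inj_b (by omega) (h8 _) h
        omega
    · exact ⟨(hzx _ (h7 _) _ (by omega)).1.symm, (hzx _ (h7 _) _ (by omega)).2.symm⟩
  apply hno
  refine hM s V D (fun i => {val q x y z (c1 i), val q x y z (c2 i)}) (fun p => x (7 + p))
    (fun p => y (7 + p)) ht (fun i => ⟨_, Finset.mem_insert_self _ _⟩) ?_ ?_ ?_ ?_
  · intro i j hij
    obtain ⟨h1, h2, h3, h4⟩ := dec_ne i j hij
    obtain ⟨o1, o2⟩ := dec_ok i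
    obtain ⟨o3, o4⟩ := dec_ok j
    rw [Finset.disjoint_left]
    intro v hv hv'
    rw [Finset.mem_insert, Finset.mem_singleton] at hv hv'
    rcases hv with hv | hv <;> rcases hv' with hv' | hv'
    · exact h1 (hinj _ _ o1 o3 (hv.symm.trans hv'))
    · exact h2 (hinj _ _ o1 o4 (hv.symm.trans hv'))
    · exact h3 (hinj _ _ o2 o3 (hv.symm.trans hv'))
    · exact h4 (hinj _ _ o2 o4 (hv.symm.trans hv'))
  · intro i j hij
    rw [← dec_adj i j hij, ← hadj, ← hadj, ← hadj, ← hadj]
    constructor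
    · intro h
      exact ⟨h _ (Finset.mem_insert_self _ _) _ (Finset.mem_insert_self _ _),
        h _ (Finset.mem_insert_self _ _) _ (Finset.mem_insert_of_mem (Finset.mem_singleton_self _)),
        h _ (Finset.mem_insert_of_mem (Finset.mem_singleton_self _)) _ (Finset.mem_insert_self _ _),
        h _ (Finset.mem_insert_of_mem (Finset.mem_singleton_self _)) _
          (Finset.mem_insert_of_mem (Finset.mem_singleton_self _))⟩
    · rintro ⟨h1, h2, h3, h4⟩ u hu v hv
      rw [Finset.mem_insert, Finset.mem_singleton] at hu hv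
      rcases hu with rfl | rfl <;> rcases hv with rfl | rfl
      · exact h1
      · exact h2
      · exact h3
      · exact h4
  · exact hxy.comp (fun p => 7 + p) (fun p hp => by omega) (fun p _ p' _ h => by omega)
  · intro p hp i
    simp only [Finset.mem_insert, Finset.mem_singleton, not_or]
    exact ⟨⟨(hspare p hp _).1, (hspare p hp _).1⟩, ⟨(hspare p hp _).2, (hspare p hp _).2⟩⟩

open Classical in
theorem noY (hM : S_Mod) {s m₀ c : ℕ} {x y : ℕ → V} {A B L AX BX : Set V} {X R : Finset V}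
    (hH : Hyp s m₀ D) (hC : CM D n a b A B) (hn : c + 20 + 2 * s ≤ n)
    (hX : Cel D (8 + 2 * s) c X R L AX BX x y) (hR : ∀ i < n, a i ∈ X → a i ∈ R) {v q : V}
    (hv : v ∈ X) (hvL : v ∈ L) (hqA : q ∉ A) (hqB : q ∉ B) (hce : CE D A B v q)
    (hY : ∀ w ∈ X, w ∉ L → w ∈ A) : False := by
  have ht := hH.tri
  have hqX : q ∉ X := by
    intro h
    exact hqA (hY q h ((hX.ina v hv q h hce.1).mp hvL))
  by_cases hqAX : q ∈ AX
  · -- the model
    have hyA : ∀ l < 8 + 2 * s, y l ∈ A := fun l hl =>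
      hY _ (hX.RX (hX.iy l hl).1) (hX.iy l hl).2.1
    have h1 := card_in hC.im hX.cR hR
    have h2 := hC.few q hqA hqB
    set S := (Finset.range n).filter fun i => a i ∉ X ∧ i ∉ Jt D n a b q with hS
    have h3 : Finset.range n ⊆ S ∪ ((Finset.range n).filter fun i => a i ∈ X) ∪
        Jt D n a b q := by
      intro i hi
      by_cases h4 : a i ∈ X
      · exact Finset.mem_union_left _ (Finset.mem_union_right _ (Finset.mem_filter.mpr ⟨hi, h4⟩))
      · by_cases h5 : i ∈ Jt D n a b q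
        · exact Finset.mem_union_right _ h5
        · exact Finset.mem_union_left _ (Finset.mem_union_left _
            (Finset.mem_filter.mpr ⟨hi, h4, h5⟩))
    have h4 : 7 ≤ S.card := by
      have h6 := Finset.card_le_card h3
      have h7 := Finset.card_union_le (S ∪ ((Finset.range n).filter fun i => a i ∈ X))
        (Jt D n a b q)
      have h8 := Finset.card_union_le S ((Finset.range n).filter fun i => a i ∈ X)
      rw [Finset.card_range] at h6
      omega
    obtain ⟨e, he1, he2⟩ : ∃ e : ℕ → ℕ, (∀ l < 7, e l ∈ S) ∧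
        ∀ l < 7, ∀ l' < 7, e l = e l' → l = l' := by
      refine ⟨fun i => if h : i < S.card then S.orderEmbOfFin rfl ⟨i, h⟩ else 0, ?_, ?_⟩
      · intro i hi
        have hi' : i < S.card := by omega
        simp only [hi', dif_pos]
        exact Finset.orderEmbOfFin_mem S rfl _
      · intro i hi j hj hij
        have hi' : i < S.card := by omega
        have hj' : j < S.card := by omega
        simp only [hi', hj', dif_pos] at hij
        have := (S.orderEmbOfFin rfl).injective hij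
        exact Fin.mk.inj_iff.mp this
    have he : ∀ l < 7, e l < n ∧ a (e l) ∉ X ∧ e l ∉ Jt D n a b q := fun l hl => by
      obtain ⟨h5, h6⟩ := Finset.mem_filter.mp (he1 l hl)
      exact ⟨Finset.mem_range.mp h5, h6⟩
    refine model2b hM ht hH.noF hX.im (q := q) (z := fun l => a (e l)) ?_ ?_ ?_ ?_ ?_ ?_ ?_ ?_
    · intro l hl
      exact ((hX.mem_A hl).mp hqAX).1.symm
    · intro l hl h
      exact (he l hl).2.2 (mem_Jt.mpr ⟨(he l hl).1, Or.inl h⟩)
    · intro l hl h
      apply (he l hl).2.2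
      rw [mem_Jt]
      refine ⟨(he l hl).1, Or.inr ?_⟩
      rw [h]
      exact hC.im.edge (he l hl).1
    · intro l hl l' hl'
      exact hC.cA _ (hyA l hl) _ (he l' hl').1
    · intro l hl l' hl'
      exact (hC.im _ (he l hl).1 _ (he l' hl').1).2.1
    · intro l hl l' hl' h
      exact he2 l hl l' hl' (hC.im.inj_a (he l hl).1 (he l' hl').1 h)
    · intro l hl l' hl'
      refine ⟨fun h => ?_, fun h => ?_⟩
      · apply (he l hl).2.1
        rw [show a (e l) = x l' from h]
        exact hX.RX (hX.ix l' hl').1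
      · apply (he l hl).2.1
        rw [show a (e l) = y l' from h]
        exact hX.RX (hX.iy l' hl').1
    · intro l hl
      refine ⟨fun h => ?_, fun h => ?_⟩
      · exact hqX (h ▸ hX.RX (hX.ix l hl).1)
      · exact hqX (h ▸ hX.RX (hX.iy l hl).1)
  · -- the exceptional neighbour
    have hmem : q ∈ D.neighborSet v \ (X : Set V) := ⟨hce.1, fun h => hqX (Finset.mem_coe.mp h)⟩
    rcases hX.exA v hv hvL with h | ⟨-, hle⟩
    · exact hqAX (h ▸ hmem)
    obtain ⟨w, hw, hvw⟩ := hX.nbr v hv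
    have hwA : w ∈ A := hY w hw ((hX.ina v hv w hw hvw).mp hvL)
    have hty : ∀ z ∈ A, D.Adj v z := by
      rcases hce.2 with h | h
      · exact h.1.1
      · exact absurd hvw (h.1.2 w hwA)
    have hy : ∀ l < 3, y l ∈ D.neighborSet v ∩ (X : Set V) := by
      intro l hl
      have hl' : l < 8 + 2 * s := by omega
      have h1 := hX.RX (hX.iy l hl').1
      exact ⟨hty _ (hY _ h1 (hX.iy l hl').2.1), Finset.mem_coe.mpr h1⟩
    have hsub : ((Finset.range 3).image y : Set V) ⊆ D.neighborSet v ∩ (X : Set V) := by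
      intro z hz
      obtain ⟨l, hl, rfl⟩ := Finset.mem_image.mp (Finset.mem_coe.mp hz)
      exact hy l (Finset.mem_range.mp hl)
    have h1 := (Set.encard_le_encard hsub).trans hle
    rw [Set.encard_coe_eq_coe_finsetCard, Finset.card_image_of_injOn, Finset.card_range] at h1
    · exact absurd h1 (by norm_num)
    · intro i hi j hj hij
      have hi' := Finset.mem_range.mp (Finset.mem_coe.mp hi)
      have hj' := Finset.mem_range.mp (Finset.mem_coe.mp hj)
      exact hX.im.inj_b (by omega) (by omega) hij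

theorem inU (hM : S_Mod) {s m₀ c : ℕ} {x y : ℕ → V} {A B L AX BX : Set V} {X R : Finset V}
    (hH : Hyp s m₀ D) (hC : CM D n a b A B) (hn : c + 20 + 2 * s ≤ n)
    (hX : Cel D (8 + 2 * s) c X R L AX BX x y)
    (hR : ∀ i < n, (a i ∈ X → a i ∈ R) ∧ (b i ∈ X → b i ∈ R)) {v q : V}
    (hv : v ∈ X) (hvL : v ∈ L) (hvA : v ∉ A) (hvB : v ∉ B) (hqA : q ∉ A) (hqB : q ∉ B)
    (hce : CE D A B v q) : ∀ w ∈ X, w ∉ A ∧ w ∉ B := by
  have ht := hH.tri
  intro w hw
  by_cases hwL : w ∈ L
  · refine ⟨fun h => ?_, fun h => ?_⟩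
    · exact hvA (key1 ht hC (by omega) hX (fun i hi => (hR i hi).1) hw hwL hv hvL h)
    · exact hvB (key1 ht hC.swap (by omega) hX (fun i hi => (hR i hi).2) hw hwL hv hvL h)
  · refine ⟨fun h => ?_, fun h => ?_⟩
    · refine noY hM hH hC hn hX (fun i hi => (hR i hi).1) hv hvL hqA hqB hce fun u hu huL => ?_
      exact key1 ht hC (by omega) hX.swap (fun i hi => (hR i hi).1) hw hwL hu huL h
    · refine noY hM hH hC.swap hn hX (fun i hi => (hR i hi).2) hv hvL hqB hqA hce.swap
        fun u hu huL => ?_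
      exact key1 ht hC.swap (by omega) hX.swap (fun i hi => (hR i hi).2) hw hwL hu huL h

theorem subAX (hF : S_ForkU) {s m₀ c : ℕ} {x y : ℕ → V} {A B L AX BX : Set V} {X R : Finset V}
    (hH : Hyp s m₀ D) (hC : CM D n a b A B) (hn : c + 20 + 2 * s ≤ n)
    (hX : Cel D (8 + 2 * s) c X R L AX BX x y) (hU : ∀ w ∈ X, w ∉ A ∧ w ∉ B) :
    AX ⊆ A ∪ B := by
  intro z hz
  by_contra hzU
  have hU' : ∀ w ∈ X, w ∈ (A ∪ B)ᶜ := fun w hw h => h.elim (hU w hw).1 (hU w hw).2
  have hx : ∀ l < 8 + 2 * s, x l ∈ X := fun l hl => hX.RX (hX.ix l hl).1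
  have hy : ∀ l < 8 + 2 * s, y l ∈ X := fun l hl => hX.RX (hX.iy l hl).1
  have hzx : ∀ l < 8 + 2 * s, D.Adj z (x l) := fun l hl => ((hX.mem_A hl).mp hz).1.symm
  refine hF s m₀ V D n a b A B hH hC (by omega) z hzU (x 0) (hU' _ (hx 0 (by omega))) (x 1)
    (hU' _ (hx 1 (by omega))) (x 2) (hU' _ (hx 2 (by omega))) (y 2) (hU' _ (hy 2 (by omega)))
    ⟨hzx 0 (by omega), hzx 1 (by omega), hzx 2 (by omega), hX.im.edge (by omega), ?_, ?_, ?_⟩
  · intro h
    have := hX.im.inj_a (by omega) (by omega) h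
    omega
  · intro h
    have := (hX.im 0 (by omega) 2 (by omega)).1.mp h.symm
    omega
  · intro h
    have := (hX.im 1 (by omega) 2 (by omega)).1.mp h.symm
    omega

end lemIAux

open lemIAux in
theorem lemI (h1 : S_Mod) (h2 : S_ForkU) : S_LemI := by
  intro s m₀ c n V D a b x y A B L AX BX X R hH hC hn hX hR v q hv hvA hvB hqA hqB hce
  have hU : ∀ w ∈ X, w ∉ A ∧ w ∉ B := by
    by_cases hvL : v ∈ L
    · exact inU h1 hH hC hn hX hR hv hvL hvA hvB hqA hqB hce
    · exact inU h1 hH hC hn hX.swap hR hv hvL hvA hvB hqA hqB hce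
  exact ⟨hU, subAX h2 hH hC hn hX hU, subAX h2 hH hC hn hX.swap hU⟩

end Pool.Agent.MPd439b2.W
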