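import Pool.Agent.Lib.MP_d439b2_co.W.SpecM

/-!
# MP_d439b2_co, W, M35: lifting a layout
-/

set_option autoImplicit false

namespace Pool.Agent.MPd439b2.W

open Pool.Agent.MPd439b2

namespace liftMAux

variable {V : Type} {D : SimpleGraph V} {F : Finset (Finset V × Finset V)}
  {r : Finset V × Finset V → V}

theorem hatS_union (S T : Set V) : hatS F r (S ∪ T) = hatS F r S ∪ hatS F r T := by
  ext v
  constructor
  · rintro (⟨h1 | h1, h2⟩ | ⟨p, hp, hv, h1 | h1⟩)
    · exact Or.inl (Or.inl ⟨h1, h2⟩)
    · exact Or.inr (Or.inl ⟨h1, h2⟩)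
    · exact Or.inl (Or.inr ⟨p, hp, hv, h1⟩)
    · exact Or.inr (Or.inr ⟨p, hp, hv, h1⟩)
  · rintro ((⟨h1, h2⟩ | ⟨p, hp, hv, h1⟩) | (⟨h1, h2⟩ | ⟨p, hp, hv, h1⟩))
    · exact Or.inl ⟨Or.inl h1, h2⟩
    · exact Or.inr ⟨p, hp, hv, Or.inl h1⟩
    · exact Or.inl ⟨Or.inr h1, h2⟩
    · exact Or.inr ⟨p, hp, hv, Or.inr h1⟩

theorem hatS_disj {κ c h : ℕ} (hF : Fam D κ c h F) {S T : Set V} (hST : Disjoint S T) :
    Disjoint (hatS F r S) (hatS F r T) := by
  rw [Set.disjoint_left] at hST ⊢
  rintro v (⟨h1, h2⟩ | ⟨p, hp, hv, h1⟩) (⟨h3, h4⟩ | ⟨q, hq, hv', h3⟩)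
  · exact hST h1 h3
  · exact h2 q hq hv'
  · exact h4 p hp hv
  · by_cases hpq : p = q
    · subst hpq
      exact hST h1 h3
    · exact Finset.disjoint_left.mp (hF.dis p hp q hq hpq) hv hv'

theorem tyIn_le {Y : Set V} {N : ℕ} {W : Set Y} (h : (Types (D.induce Y) W).encard ≤ N) :
    (TyIn D Y (Subtype.val '' W)).encard ≤ N := by
  have hsub : TyIn D Y (Subtype.val '' W) ⊆
      (fun T : Set Y => (Subtype.val '' T : Set V)) '' Types (D.induce Y) W := by
    rintro T ⟨hne, u, ⟨a, ha, rfl⟩, rfl⟩
    have heq : Subtype.val '' ((D.induce Y).neighborSet a \ W) =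
        (D.neighborSet a.1 ∩ Y) \ (Subtype.val '' W) := by
      ext z
      constructor
      · rintro ⟨b, ⟨hb1, hb2⟩, rfl⟩
        refine ⟨⟨hb1, b.2⟩, ?_⟩
        rintro ⟨b', hb', hbb⟩
        exact hb2 (Subtype.ext hbb ▸ hb')
      · rintro ⟨⟨h1, h2⟩, h3⟩
        exact ⟨⟨z, h2⟩, ⟨h1, fun h4 => h3 ⟨⟨z, h2⟩, h4, rfl⟩⟩, rfl⟩
    refine ⟨(D.induce Y).neighborSet a \ W, ⟨?_, a, ha, rfl⟩, heq⟩
    rw [← heq] at hne
    exact Set.image_nonempty.mp hne
  exact (Set.encard_le_encard hsub).trans ((Set.encard_image_le _ _).trans h)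

end liftMAux

open liftMAux in
theorem liftM (h1 : S_LiftT) : S_Lift := by
  classical
  intro κ c h N f V _ D F hκ hF hS hL
  rcases isEmpty_or_nonempty V with hV | ⟨⟨v0⟩⟩
  · have h0 : (Set.univ : Set V) = ∅ := by
      ext v
      exact hV.elim v
    rw [h0]
    exact Lay.empty
  have hr : ∀ p : Finset V × Finset V, ∃ v, p ∈ F → v ∈ p.2 := by
    intro p
    by_cases hp : p ∈ F
    · obtain ⟨L, A, B, x, y, hc⟩ := hF.cel hp
      exact ⟨x 0, fun _ => (hc.ix 0 hκ).1⟩
    · exact ⟨v0, fun h => absurd h hp⟩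
  choose r hr using hr
  have hrp : ∀ p ∈ F, r p ∈ p.1 := by
    intro p hp
    obtain ⟨L, A, B, x, y, hc⟩ := hF.cel hp
    exact hc.RX (hr p hp)
  have huniq : ∀ p ∈ F, ∀ q ∈ F, ∀ v, v ∈ p.1 → v ∈ q.1 → p = q := by
    intro p hp q hq v hv hv'
    by_contra hpq
    exact Finset.disjoint_left.mp (hF.dis p hp q hq hpq) hv hv'
  set N' := c + (N + 1 + f * c) * 2 ^ (f * c) with hN'
  have hpos : 1 ≤ (N + 1 + f * c) * 2 ^ (f * c) := by
    have h2 : 0 < 2 ^ (f * c) := by positivity
    have h3 : 0 < N + 1 + f * c := by omega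
    exact Nat.mul_pos h3 h2
  have claim : ∀ T : Set (Vst F), Lay (D.induce (Vst F)) N T →
      Lay D N' (hatS F r (Subtype.val '' T)) := by
    intro T hT
    induction hT with
    | empty =>
      have h0 : hatS F r (Subtype.val '' (∅ : Set (Vst F))) = ∅ := by
        rw [Set.image_empty]
        ext v
        constructor
        · rintro (⟨h1, _⟩ | ⟨p, _, _, h1⟩)
          · exact h1
          · exact absurd h1 (Set.notMem_empty _)
        · intro h; exact absurd h (Set.notMem_empty _)
      rw [h0]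
      exact Lay.empty
    | single v _ =>
      rw [Set.image_singleton]
      by_cases hv : ∃ p ∈ F, v.1 ∈ p.1
      · obtain ⟨p, hp, hvp⟩ := hv
        by_cases hrv : r p = v.1
        · have h0 : hatS F r {v.1} = (p.1 : Set V) := by
            ext w
            constructor
            · rintro (⟨h2, h3⟩ | ⟨q, hq, hwq, h2⟩)
              · rw [Set.mem_singleton_iff] at h2
                subst h2
                exact hvp
              · rw [Set.mem_singleton_iff] at h2
                have : q = p := huniq q hq p hp (r q) (hrp q hq) (h2 ▸ hvp)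
                subst this
                exact hwq
            · intro hw
              exact Or.inr ⟨p, hp, hw, hrv⟩
          rw [h0]
          obtain ⟨L, A, B, x, y, hc⟩ := hF.cel hp
          exact hc.lay.mono (by omega)
        · have h0 : hatS F r {v.1} = ∅ := by
            ext w
            constructor
            · rintro (⟨h2, h3⟩ | ⟨q, hq, hwq, h2⟩)
              · rw [Set.mem_singleton_iff] at h2
                subst h2
                exact absurd hvp (h3 p hp)
              · rw [Set.mem_singleton_iff] at h2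
                have : q = p := huniq q hq p hp (r q) (hrp q hq) (h2 ▸ hvp)
                subst this
                exact absurd h2 hrv
            · intro h; exact absurd h (Set.notMem_empty _)
          rw [h0]
          exact Lay.empty
      · push Not at hv
        have h0 : hatS F r {v.1} = {v.1} := by
          ext w
          constructor
          · rintro (⟨h2, h3⟩ | ⟨q, hq, hwq, h2⟩)
            · exact h2
            · rw [Set.mem_singleton_iff] at h2
              exact absurd (h2 ▸ hrp q hq) (hv q hq)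
          · intro hw
            rw [Set.mem_singleton_iff] at hw
            subst hw
            exact Or.inl ⟨rfl, hv⟩
        rw [h0]
        exact Lay.single' (by omega) _
    | union hT hT' hd hty ihT ihT' =>
      rename_i T T'
      have hty' : (Types D (hatS F r (Subtype.val '' (T ∪ T')))).encard ≤ N' := by
        have hsub : (Subtype.val '' (T ∪ T') : Set V) ⊆ Vst F := by
          rintro _ ⟨a, _, rfl⟩
          exact a.2
        have h2 := tyIn_le hty
        have h3 := hS _ hsub h2
        refine (h1 κ c h N f V D F r hF hr _ hsub h2 h3).trans ?_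
        exact_mod_cast (by omega)
      rw [Set.image_union, hatS_union] at hty' ⊢
      refine Lay.union ihT ihT' (hatS_disj hF ?_) hty'
      rw [Set.disjoint_left] at hd ⊢
      rintro _ ⟨a, ha, rfl⟩ ⟨b, hb, hab⟩
      exact hd ha (Subtype.ext hab ▸ hb)
  have hfin := claim Set.univ hL
  have h0 : hatS F r (Subtype.val '' (Set.univ : Set (Vst F))) = Set.univ := by
    rw [Set.image_univ, Subtype.range_coe]
    ext v
    refine iff_of_true ?_ trivial
    by_cases hv : ∃ p ∈ F, v ∈ p.1
    · obtain ⟨p, hp, hvp⟩ := hv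
      exact Or.inr ⟨p, hp, hvp, hF.mem_Vst hp (hr p hp)⟩
    · push Not at hv
      exact Or.inl ⟨fun p hp hvp => absurd hvp (hv p hp), hv⟩
  rw [h0] at hfin
  exact hfin

end Pool.Agent.MPd439b2.W
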