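import Pool.Agent.Lib.MP_d439b2_co.W.SpecM
import Pool.Agent.Lib.MP_d439b2_co.W.BaseM

/-!
# MP_d439b2_co, W: the types of `hatS F r S`
-/

set_option autoImplicit false

namespace Pool.Agent.MPd439b2.W

open Pool.Agent.MPd439b2

namespace liftTAux

variable {V : Type} {D : SimpleGraph V} {κ c h : ℕ} {F : Finset (Finset V × Finset V)}
  {r : Finset V × Finset V → V} {S : Set V}

/-- the vertices of the split sets -/
def WW (F : Finset (Finset V × Finset V)) (S : Set V) : Set V := {z | ∃ p ∈ Spl F S, z ∈ p.2}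

theorem mem_Spl {p : Finset V × Finset V} :
    p ∈ Spl F S ↔ p ∈ F ∧ (∃ r ∈ p.2, r ∈ S) ∧ ∃ r ∈ p.2, r ∉ S := by
  classical
  unfold Spl
  rw [Finset.mem_filter]

theorem cell_sub {p : Finset V × Finset V} (hp : p ∈ F) (hr : r p ∈ S) {v : V} (hv : v ∈ p.1) :
    v ∈ hatS F r S := Or.inr ⟨p, hp, hv, hr⟩

theorem cell_dis (hF : Fam D κ c h F) {p : Finset V × Finset V} (hp : p ∈ F) (hr : r p ∉ S)
    {v : V} (hv : v ∈ p.1) : v ∉ hatS F r S := by
  rintro (⟨_, h1⟩ | ⟨q, hq, hvq, hrq⟩)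
  · exact h1 p hp hv
  · by_cases hpq : p = q
    · subst hpq
      exact hr hrq
    · exact Finset.disjoint_left.1 (hF.dis p hp q hq hpq) hv hvq

theorem step1 (hF : Fam D κ c h F) (hr : ∀ p ∈ F, r p ∈ p.2) {u : V} (hu : u ∈ hatS F r S) :
    ∃ u' ∈ hatS F r S, u' ∈ S ∪ WW F S ∧
      D.neighborSet u \ hatS F r S = D.neighborSet u' \ hatS F r S := by
  rcases hu with ⟨hu1, hu2⟩ | ⟨p, hp, hup, hrp⟩
  · exact ⟨u, Or.inl ⟨hu1, hu2⟩, Or.inl hu1, rfl⟩
  · obtain ⟨L, A, B, x, y, hc⟩ := hF.cel hp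
    obtain ⟨u', hu', he⟩ := hc.twin u hup
    have hu'1 : u' ∈ p.1 := hc.RX hu'
    refine ⟨u', cell_sub hp hrp hu'1, ?_, ?_⟩
    · by_cases hS : u' ∈ S
      · exact Or.inl hS
      · exact Or.inr ⟨p, mem_Spl.2 ⟨hp, ⟨r p, hr p hp, hrp⟩, u', hu', hS⟩, hu'⟩
    · ext z
      constructor
      · rintro ⟨hz, hzS⟩
        have hzp : z ∉ (p.1 : Set V) := fun h' => hzS (cell_sub hp hrp h')
        have h1 : z ∈ D.neighborSet u \ (p.1 : Set V) := ⟨hz, hzp⟩
        rw [he] at h1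
        exact ⟨h1.1, hzS⟩
      · rintro ⟨hz, hzS⟩
        have hzp : z ∉ (p.1 : Set V) := fun h' => hzS (cell_sub hp hrp h')
        have h1 : z ∈ D.neighborSet u' \ (p.1 : Set V) := ⟨hz, hzp⟩
        rw [← he] at h1
        exact ⟨h1.1, hzS⟩

theorem step2 (hF : Fam D κ c h F) (hr : ∀ p ∈ F, r p ∈ p.2) {z : V} (hz : z ∉ hatS F r S) :
    ∃ z', ((z' ∈ Vst F ∧ z' ∉ S) ∨ z' ∈ WW F S) ∧
      ∀ u ∈ hatS F r S, (D.Adj u z ↔ D.Adj u z') := by
  by_cases hcell : ∃ p ∈ F, z ∈ p.1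
  · obtain ⟨p, hp, hzp⟩ := hcell
    have hrp : r p ∉ S := fun h' => hz (cell_sub hp h' hzp)
    obtain ⟨L, A, B, x, y, hc⟩ := hF.cel hp
    obtain ⟨z', hz', he⟩ := hc.twin z hzp
    refine ⟨z', ?_, ?_⟩
    · by_cases hS : z' ∈ S
      · exact Or.inr ⟨p, mem_Spl.2 ⟨hp, ⟨z', hz', hS⟩, r p, hr p hp, hrp⟩, hz'⟩
      · exact Or.inl ⟨hF.mem_Vst hp hz', hS⟩
    · intro u hu
      have hup : u ∉ (p.1 : Set V) := fun h' => cell_dis hF hp hrp h' hu
      constructor
      · intro h1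
        have h2 : u ∈ D.neighborSet z \ (p.1 : Set V) := ⟨h1.symm, hup⟩
        rw [he] at h2
        exact h2.1.symm
      · intro h1
        have h2 : u ∈ D.neighborSet z' \ (p.1 : Set V) := ⟨h1.symm, hup⟩
        rw [← he] at h2
        exact h2.1.symm
  · push Not at hcell
    refine ⟨z, Or.inl ⟨?_, ?_⟩, fun u _ => Iff.rfl⟩
    · intro p hp hzp
      exact absurd hzp (hcell p hp)
    · intro hzS
      exact hz (Or.inl ⟨hzS, hcell⟩)

theorem step3 (hF : Fam D κ c h F) (hr : ∀ p ∈ F, r p ∈ p.2) {u v : V} (hu : u ∈ hatS F r S)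
    (hv : v ∈ hatS F r S) (h1 : (D.neighborSet u ∩ Vst F) \ S = (D.neighborSet v ∩ Vst F) \ S)
    (h2 : D.neighborSet u ∩ WW F S = D.neighborSet v ∩ WW F S) :
    D.neighborSet u \ hatS F r S = D.neighborSet v \ hatS F r S := by
  have key : ∀ z, z ∉ hatS F r S → (D.Adj u z ↔ D.Adj v z) := by
    intro z hz
    obtain ⟨z', hz', he⟩ := step2 hF hr hz
    rw [he u hu, he v hv]
    rcases hz' with ⟨hz1, hz2⟩ | hz1
    · constructor
      · intro h3
        have h4 : z' ∈ (D.neighborSet u ∩ Vst F) \ S := ⟨⟨h3, hz1⟩, hz2⟩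
        rw [h1] at h4
        exact h4.1.1
      · intro h3
        have h4 : z' ∈ (D.neighborSet v ∩ Vst F) \ S := ⟨⟨h3, hz1⟩, hz2⟩
        rw [← h1] at h4
        exact h4.1.1
    · constructor
      · intro h3
        have h4 : z' ∈ D.neighborSet u ∩ WW F S := ⟨h3, hz1⟩
        rw [h2] at h4
        exact h4.1
      · intro h3
        have h4 : z' ∈ D.neighborSet v ∩ WW F S := ⟨h3, hz1⟩
        rw [← h2] at h4
        exact h4.1
  ext z
  constructor
  · rintro ⟨h3, h4⟩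
    exact ⟨(key z h4).1 h3, h4⟩
  · rintro ⟨h3, h4⟩
    exact ⟨(key z h4).2 h3, h4⟩

theorem card_WW (hF : Fam D κ c h F) {f : ℕ} (hf : (Spl F S).card ≤ f) :
    (WW F S).ncard ≤ f * c := by
  classical
  have e : WW F S = (((Spl F S).biUnion fun p => p.2 : Finset V) : Set V) := by
    ext z
    simp only [WW, Set.mem_ofPred_eq, Finset.coe_biUnion, Set.mem_iUnion, Finset.mem_coe,
      exists_prop]
  rw [e, Set.ncard_coe_finset]
  refine (Finset.card_biUnion_le_card_mul _ _ c ?_).trans (Nat.mul_le_mul_right c hf)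
  intro p hp
  obtain ⟨L, A, B, x, y, hc⟩ := hF.cel (mem_Spl.1 hp).1
  exact hc.cR

end liftTAux

open liftTAux in
theorem liftT : S_LiftT := by
  intro κ c h N f V _ D F r hF hr S _ hN hf
  classical
  have hW := card_WW hF hf
  -- the possible first components
  let P : Set (Set V) := {T | ∃ u ∈ S ∪ WW F S, T = (D.neighborSet u ∩ Vst F) \ S}
  have hP : P.ncard ≤ N + 1 + f * c := by
    have hsub : P ⊆ (TyIn D (Vst F) S ∪ {∅}) ∪
        (fun u => (D.neighborSet u ∩ Vst F) \ S) '' WW F S := by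
      rintro T ⟨u, hu, rfl⟩
      rcases hu with hu | hu
      · left
        by_cases hne : ((D.neighborSet u ∩ Vst F) \ S).Nonempty
        · exact Or.inl ⟨hne, u, hu, rfl⟩
        · exact Or.inr (Set.not_nonempty_iff_eq_empty.1 hne)
      · exact Or.inr ⟨u, hu, rfl⟩
    have h1 : (TyIn D (Vst F) S).ncard ≤ N := by
      have h2 : ((TyIn D (Vst F) S).ncard : ℕ∞) = (TyIn D (Vst F) S).encard :=
        Set.Finite.cast_ncard_eq (Set.toFinite _)
      rw [← h2] at hN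
      exact_mod_cast hN
    calc P.ncard ≤ ((TyIn D (Vst F) S ∪ {∅}) ∪
          (fun u => (D.neighborSet u ∩ Vst F) \ S) '' WW F S).ncard :=
          Set.ncard_le_ncard hsub (Set.toFinite _)
      _ ≤ (TyIn D (Vst F) S ∪ {∅}).ncard +
          ((fun u => (D.neighborSet u ∩ Vst F) \ S) '' WW F S).ncard := Set.ncard_union_le _ _
      _ ≤ ((TyIn D (Vst F) S).ncard + ({∅} : Set (Set V)).ncard) + (WW F S).ncard :=
          Nat.add_le_add (Set.ncard_union_le _ _) (Set.ncard_image_le (Set.toFinite _))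
      _ ≤ N + 1 + f * c := by
          rw [Set.ncard_singleton]
          omega
  -- the types are determined by the two components
  let g : Set V × Set V → Set V := fun q =>
    if h : ∃ u ∈ hatS F r S, (D.neighborSet u ∩ Vst F) \ S = q.1 ∧ D.neighborSet u ∩ WW F S = q.2
    then D.neighborSet h.choose \ hatS F r S else ∅
  have hsub : Types D (hatS F r S) ⊆ g '' (P ×ˢ 𝒫 (WW F S)) := by
    rintro T ⟨_, u, hu, rfl⟩
    obtain ⟨u', h1, h2, h3⟩ := step1 hF hr hu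
    rw [h3]
    refine ⟨((D.neighborSet u' ∩ Vst F) \ S, D.neighborSet u' ∩ WW F S),
      ⟨⟨u', h2, rfl⟩, Set.inter_subset_right⟩, ?_⟩
    have h : ∃ v ∈ hatS F r S, (D.neighborSet v ∩ Vst F) \ S = (D.neighborSet u' ∩ Vst F) \ S ∧
        D.neighborSet v ∩ WW F S = D.neighborSet u' ∩ WW F S := ⟨u', h1, rfl, rfl⟩
    have e : g ((D.neighborSet u' ∩ Vst F) \ S, D.neighborSet u' ∩ WW F S) =
        D.neighborSet h.choose \ hatS F r S := dif_pos h
    rw [e]
    exact step3 hF hr h.choose_spec.1 h1 h.choose_spec.2.1 h.choose_spec.2.2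
  have hcard : (Types D (hatS F r S)).ncard ≤ (N + 1 + f * c) * 2 ^ (f * c) := by
    calc (Types D (hatS F r S)).ncard ≤ (g '' (P ×ˢ 𝒫 (WW F S))).ncard :=
          Set.ncard_le_ncard hsub (Set.toFinite _)
      _ ≤ (P ×ˢ 𝒫 (WW F S)).ncard := Set.ncard_image_le (Set.toFinite _)
      _ = P.ncard * 2 ^ (WW F S).ncard := by
          rw [Set.ncard_prod, Set.ncard_powerset]
      _ ≤ (N + 1 + f * c) * 2 ^ (f * c) :=
          Nat.mul_le_mul hP (Nat.pow_le_pow_right (by norm_num) hW)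
  have h2 : ((Types D (hatS F r S)).ncard : ℕ∞) = (Types D (hatS F r S)).encard :=
    Set.Finite.cast_ncard_eq (Set.toFinite _)
  rw [← h2]
  exact_mod_cast hcard

end Pool.Agent.MPd439b2.W
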