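import Pool.Agent.Lib.MP_d439b2_co.W.SpecM

/-!
# MP_d439b2_co, W, M1: models of `KCo s F1`
-/

set_option autoImplicit false

namespace Pool.Agent.MPd439b2.W

open Pool.Agent.MPd439b2

namespace modAux

theorem nbF1 : ∀ i : Fin 13, ∃ j, F1.Adj i j := by
  unfold F1
  decide

variable {V : Type} {D : SimpleGraph V}

theorem conn_clique {G : SimpleGraph V} {A : Set V} (hne : A.Nonempty)
    (h : ∀ u ∈ A, ∀ v ∈ A, u ≠ v → G.Adj u v) : Conn G A := by
  refine ⟨hne, fun B hB hBne hBne' => ?_⟩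
  obtain ⟨b, hb⟩ := hBne
  obtain ⟨a, ha, haB⟩ : ∃ a ∈ A, a ∉ B := by
    by_contra hcon
    push Not at hcon
    exact hBne' (Set.Subset.antisymm hB hcon)
  exact ⟨b, hb, a, ⟨ha, haB⟩, h b (hB hb) a ha fun h' => haB (h' ▸ hb)⟩

/-- the 4-cycles -/
def C4 (a b : ℕ → V) (q : ℕ) : Set V :=
  {b (2 * q + 1), b (2 * q), a (2 * q), a (2 * q + 1)}

theorem mem_C4 {a b : ℕ → V} {q : ℕ} {v : V} (h : v ∈ C4 a b q) :
    ∃ i, (i = 2 * q ∨ i = 2 * q + 1) ∧ (v = a i ∨ v = b i) := by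
  rcases h with h | h | h | h
  · exact ⟨_, Or.inr rfl, Or.inr h⟩
  · exact ⟨_, Or.inl rfl, Or.inr h⟩
  · exact ⟨_, Or.inl rfl, Or.inl h⟩
  · exact ⟨_, Or.inr rfl, Or.inl h⟩

theorem conn_C4 {n : ℕ} {a b : ℕ → V} (hM : IM D n a b) {q : ℕ} (hq : 2 * q + 1 < n) :
    Conn Dᶜ (C4 a b q) := by
  have h0 := hM (2 * q) (by omega) (2 * q + 1) (by omega)
  have h1 := hM (2 * q + 1) (by omega) (2 * q) (by omega)
  have hne : 2 * q ≠ 2 * q + 1 := by omega
  unfold C4
  have e1 : Dᶜ.Adj (a (2 * q)) (a (2 * q + 1)) := by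
    rw [SimpleGraph.compl_adj]
    exact ⟨fun h => hne (hM.inj_a (by omega) (by omega) h), h0.2.1⟩
  have e2 : Dᶜ.Adj (a (2 * q + 1)) (b (2 * q)) := by
    rw [SimpleGraph.compl_adj]
    exact ⟨hM.ne_ab (by omega) (by omega), fun h => hne (h1.1.mp h).symm⟩
  have e3 : Dᶜ.Adj (a (2 * q)) (b (2 * q + 1)) := by
    rw [SimpleGraph.compl_adj]
    exact ⟨hM.ne_ab (by omega) (by omega), fun h => hne (h0.1.mp h)⟩
  have c1 : Conn Dᶜ {a (2 * q), a (2 * q + 1)} := Conn.pair e1
  have c2 : Conn Dᶜ {b (2 * q), a (2 * q), a (2 * q + 1)} :=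
    c1.insert ⟨_, Or.inr rfl, e2⟩
  exact c2.insert ⟨_, Or.inr (Or.inl rfl), e3⟩

theorem tch_C4 (ht : TriFree D) {n : ℕ} {a b : ℕ → V} (hM : IM D n a b) {q : ℕ}
    (hq : 2 * q + 1 < n) {S : Set V} (hS : S.Nonempty) (hd : Disjoint (C4 a b q) S) :
    Tch Dᶜ (C4 a b q) S := by
  obtain ⟨v, hv⟩ := hS
  rw [Set.disjoint_left] at hd
  have ha : a (2 * q) ∈ C4 a b q := Or.inr (Or.inr (Or.inl rfl))
  have hb : b (2 * q) ∈ C4 a b q := Or.inr (Or.inl rfl)
  by_cases h : D.Adj v (a (2 * q))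
  · have h2 : ¬ D.Adj v (b (2 * q)) := fun h2 => ht v _ _ h h2 (hM.edge (by omega))
    refine ⟨_, hb, v, hv, ?_⟩
    rw [SimpleGraph.compl_adj]
    exact ⟨fun h' => hd hb (h' ▸ hv), fun h' => h2 h'.symm⟩
  · refine ⟨_, ha, v, hv, ?_⟩
    rw [SimpleGraph.compl_adj]
    exact ⟨fun h' => hd ha (h' ▸ hv), fun h' => h h'.symm⟩

end modAux

open modAux in
theorem mod : S_Mod := by
  intro s V D g a b ht hne hdis hcmp hM hout
  rw [← ims_univ_iff]
  -- the groups are cliques of the complement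
  have hconn : ∀ i, Conn Dᶜ (g i : Set V) := by
    intro i
    apply conn_clique
    · obtain ⟨x, hx⟩ := hne i
      exact ⟨x, hx⟩
    · intro u hu v hv huv
      rw [SimpleGraph.compl_adj]
      refine ⟨huv, ?_⟩
      obtain ⟨j, hj⟩ := nbF1 i
      have h1 := (hcmp i j hj.ne).mpr hj
      obtain ⟨z, hz⟩ := hne j
      exact ht z u v (h1 u hu z hz).symm (h1 v hv z hz).symm
  have hgg : ∀ i j, i ≠ j → Disjoint (g i : Set V) (g j : Set V) := by
    intro i j hij
    rw [Finset.disjoint_coe]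
    exact hdis i j hij
  have hCg : ∀ (q : Fin s) i, Disjoint (C4 a b q) (g i : Set V) := by
    intro q i
    rw [Set.disjoint_left]
    intro v hv hv'
    obtain ⟨k, hk, hvk⟩ := mem_C4 hv
    have h1 := hout k (by have := q.2; omega) i
    rcases hvk with rfl | rfl
    · exact h1.1 hv'
    · exact h1.2 hv'
  have hCC : ∀ q q' : Fin s, q ≠ q' → Disjoint (C4 a b q) (C4 a b q') := by
    intro q q' hqq
    have hq := q.2
    have hq' := q'.2
    have hqq' : q.val ≠ q'.val := fun h => hqq (Fin.ext h)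
    rw [Set.disjoint_left]
    intro v hv hv'
    obtain ⟨k, hk, hvk⟩ := mem_C4 hv
    obtain ⟨k', hk', hvk'⟩ := mem_C4 hv'
    have hkk : k ≠ k' := by omega
    rcases hvk with h1 | h1 <;> rcases hvk' with h2 | h2
    · exact hkk (hM.inj_a (by omega) (by omega) (h1.symm.trans h2))
    · exact hM.ne_ab (by omega) (by omega) (h1.symm.trans h2)
    · exact hM.ne_ab (by omega) (by omega) (h2.symm.trans h1)
    · exact hkk (hM.inj_b (by omega) (by omega) (h1.symm.trans h2))
  refine ⟨fun w => match w with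
    | Sum.inl q => C4 a b q
    | Sum.inr i => (g i : Set V), fun w => Set.subset_univ _, ?_, ?_, ?_⟩
  · rintro (q | i)
    · exact conn_C4 hM (by have := q.2; omega)
    · exact hconn i
  · rintro (q | i) (q' | i') hw
    · exact hCC q q' fun h => hw (by rw [h])
    · exact hCg q i'
    · exact (hCg q' i).symm
    · exact hgg i i' fun h => hw (by rw [h])
  · have hgne : ∀ i, (g i : Set V).Nonempty := fun i => by
      obtain ⟨x, hx⟩ := hne i
      exact ⟨x, hx⟩
    rintro (q | i) (q' | i') hw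
    · have hqq : q ≠ q' := fun h => hw (by rw [h])
      refine iff_of_true hqq ?_
      exact tch_C4 ht hM (by have := q.2; omega) (conn_C4 hM (by have := q'.2; omega)).1
        (hCC q q' hqq)
    · refine iff_of_true trivial ?_
      exact tch_C4 ht hM (by have := q.2; omega) (hgne i') (hCg q i')
    · refine iff_of_true trivial ?_
      exact (tch_C4 ht hM (by have := q'.2; omega) (hgne i) (hCg q' i)).symm
    · have hii : i ≠ i' := fun h => hw (by rw [h])
      have h1 := hcmp i i' hii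
      show (i ≠ i' ∧ ¬ F1.Adj i i') ↔ Tch Dᶜ (g i : Set V) (g i' : Set V)
      rw [← h1]
      constructor
      · rintro ⟨_, h2⟩
        unfold Cmp at h2
        push Not at h2
        obtain ⟨x, hx, y, hy, hxy⟩ := h2
        refine ⟨x, hx, y, hy, ?_⟩
        rw [SimpleGraph.compl_adj]
        refine ⟨?_, hxy⟩
        rintro rfl
        exact Finset.disjoint_left.mp (hdis i i' hii) hx hy
      · rintro ⟨x, hx, y, hy, hxy⟩
        rw [SimpleGraph.compl_adj] at hxy
        exact ⟨hii, fun h => hxy.2 (h x hx y hy)⟩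

end Pool.Agent.MPd439b2.W
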