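import Pool.Agent.Lib.MP_d439b2_co.W.SpecM

/-!
# MP_d439b2_co, W: no large induced matching in `Y`: bounded layout of `D[Y]`
-/

set_option autoImplicit false

namespace Pool.Agent.MPd439b2.W

open Pool.Agent.MPd439b2

theorem noIM (h1 : S_WidM) (h2 : S_HypI) (h3 : S_BW) : S_NoIM := by
  intro s m₀ n
  obtain ⟨w, hw⟩ := h1 s m₀ n
  obtain ⟨N, hN⟩ := h3 w s
  refine ⟨N, ?_⟩
  intro V _ D Y hH hY
  have hH' := h2 s m₀ V D Y hH
  refine hN Y (D.induce Y) hH'.tri (hw Y (D.induce Y) hH' ?_) (Or.inl hH'.noF)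
  intro a b hab
  refine hY (fun i => (a i).1) (fun i => (b i).1) ?_ fun i _ => ⟨(a i).2, (b i).2⟩
  intro i hi j hj
  exact hab i hi j hj

end Pool.Agent.MPd439b2.W
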