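import Pool.Agent.Lib.MP_d439b2_co.W.SpecM

/-!
# MP_d439b2_co, W, M24: one edge in each component
-/

set_option autoImplicit false

namespace Pool.Agent.MPd439b2.W

open Pool.Agent.MPd439b2

theorem numC : S_NumC := by
  intro V D U C m K hm hK hinj hE
  have hE' : ∀ i, ∃ v w, i < m → v ∈ K i ∧ w ∈ K i ∧ D.Adj v w ∧ ¬ C v w := by
    intro i
    by_cases hi : i < m
    · obtain ⟨v, hv, w, hw, h1, h2⟩ := hE i hi
      exact ⟨v, w, fun _ => ⟨hv, hw, h1, h2⟩⟩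
    · obtain ⟨v, hv, _⟩ := hE 0 hm
      exact ⟨v, v, fun h => absurd h hi⟩
  choose p q hpq using hE'
  have nonadj : ∀ i < m, ∀ j < m, i ≠ j → ∀ v ∈ K i, ∀ w ∈ K j, ¬ D.Adj v w := by
    intro i hi j hj hij v hv w hw h
    have h1 : w ∈ K i := (hK i hi).2.2 v hv w ((hK j hj).2.1 hw) h
    exact hij (hinj i hi j hj ((hK i hi).eq (hK j hj) h1 hw))
  refine ⟨p, q, ?_, ?_⟩
  · intro i hi j hj
    obtain ⟨h1, h2, h3, _⟩ := hpq i hi
    obtain ⟨h1', h2', _, _⟩ := hpq j hj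
    by_cases hij : i = j
    · subst hij
      exact ⟨⟨fun _ => rfl, fun _ => h3⟩, fun h => h.ne rfl, fun h => h.ne rfl⟩
    · exact ⟨⟨fun h => absurd h (nonadj i hi j hj hij _ h1 _ h2'), fun h => absurd h hij⟩,
        nonadj i hi j hj hij _ h1 _ h1', nonadj i hi j hj hij _ h2 _ h2'⟩
  · intro i hi
    obtain ⟨h1, h2, _, h4⟩ := hpq i hi
    exact ⟨(hK i hi).2.1 h1, (hK i hi).2.1 h2, h4⟩

end Pool.Agent.MPd439b2.W
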