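import Pool.Agent.Lib.MP_d439b2_co.W.SpecM

/-!
# MP_d439b2_co, W, M23: no large induced matchings in complete bipartite graphs minus a matching
-/

set_option autoImplicit false

namespace Pool.Agent.MPd439b2.W

open Pool.Agent.MPd439b2

namespace PQ3X

theorem ends {V : Type} {D : SimpleGraph V} {n : ℕ} {a b : ℕ → V} {P Q : Set V}
    (hP : ∀ u ∈ P, ∀ v ∈ P, ¬ D.Adj u v) (hQ : ∀ u ∈ Q, ∀ v ∈ Q, ¬ D.Adj u v)
    (hM : IM D n a b) {i : ℕ} (hi : i < n) (ha : a i ∈ P ∪ Q) (hb : b i ∈ P ∪ Q) :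
    (a i ∈ P ∧ b i ∈ Q) ∨ (b i ∈ P ∧ a i ∈ Q) := by
  have h := hM.edge hi
  rcases ha with ha | ha <;> rcases hb with hb | hb
  · exact absurd h (hP _ ha _ hb)
  · exact Or.inl ⟨ha, hb⟩
  · exact Or.inr ⟨hb, ha⟩
  · exact absurd h (hQ _ ha _ hb)

end PQ3X

theorem pQ3 : S_PQ3 := by
  intro V D n a b P Q hP hQ hal hM I hI
  by_contra hcon
  obtain ⟨i, hi, j, hj, k, hk, hij, hik, hjk⟩ := Finset.two_lt_card.1 (not_le.1 hcon)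
  obtain ⟨hin, hia, hib⟩ := hI i hi
  obtain ⟨hjn, hja, hjb⟩ := hI j hj
  obtain ⟨hkn, hka, hkb⟩ := hI k hk
  have nab : ∀ {i j : ℕ}, i < n → j < n → i ≠ j → ¬ D.Adj (a i) (b j) :=
    fun hi hj hij h => hij ((hM _ hi _ hj).1.1 h)
  have nba : ∀ {i j : ℕ}, i < n → j < n → i ≠ j → ¬ D.Adj (b i) (a j) :=
    fun hi hj hij h => hij ((hM _ hj _ hi).1.1 h.symm).symm
  have naa : ∀ {i j : ℕ}, i < n → j < n → ¬ D.Adj (a i) (a j) :=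
    fun hi hj => (hM _ hi _ hj).2.1
  have nbb : ∀ {i j : ℕ}, i < n → j < n → ¬ D.Adj (b i) (b j) :=
    fun hi hj => (hM _ hi _ hj).2.2
  have key : ∀ p ∈ P, ∀ q ∈ Q, ∀ q' ∈ Q, ¬ D.Adj p q → ¬ D.Adj p q' → q = q' := hal
  rcases PQ3X.ends hP hQ hM hin hia hib with ⟨h1, _⟩ | ⟨h1, _⟩ <;>
    rcases PQ3X.ends hP hQ hM hjn hja hjb with ⟨_, h2⟩ | ⟨_, h2⟩ <;>
    rcases PQ3X.ends hP hQ hM hkn hka hkb with ⟨_, h3⟩ | ⟨_, h3⟩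
  · exact hjk (hM.inj_b hjn hkn (key _ h1 _ h2 _ h3 (nab hin hjn hij) (nab hin hkn hik)))
  · exact hM.ne_ab hkn hjn (key _ h1 _ h2 _ h3 (nab hin hjn hij) (naa hin hkn)).symm
  · exact hM.ne_ab hjn hkn (key _ h1 _ h2 _ h3 (naa hin hjn) (nab hin hkn hik))
  · exact hjk (hM.inj_a hjn hkn (key _ h1 _ h2 _ h3 (naa hin hjn) (naa hin hkn)))
  · exact hjk (hM.inj_b hjn hkn (key _ h1 _ h2 _ h3 (nbb hin hjn) (nbb hin hkn)))
  · exact hM.ne_ab hkn hjn (key _ h1 _ h2 _ h3 (nbb hin hjn) (nba hin hkn hik)).symm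
  · exact hM.ne_ab hjn hkn (key _ h1 _ h2 _ h3 (nba hin hjn hij) (nbb hin hkn))
  · exact hjk (hM.inj_a hjn hkn (key _ h1 _ h2 _ h3 (nba hin hjn hij) (nba hin hkn hik)))

end Pool.Agent.MPd439b2.W
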