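import Pool.Agent.Lib.MP_d439b2_co.W.SpecM

/-!
# MP_d439b2_co, W, M22: enumeration of paths and cycles
-/

set_option autoImplicit false

namespace Pool.Agent.MPd439b2.W

open Pool.Agent.MPd439b2

namespace PathEX

theorem exMax (P : ℕ → Prop) (B : ℕ) (hB : ∀ l, P l → l ≤ B) (h : ∃ l, P l) :
    ∃ l, P l ∧ ∀ l', P l' → l' ≤ l := by
  classical
  obtain ⟨l₀, h0⟩ := h
  exact ⟨Nat.findGreatest P B, Nat.findGreatest_spec (hB _ h0) h0,
    fun l' h' => Nat.le_findGreatest (hB _ h') h'⟩

theorem two {V : Type} {S : Set V} (h : S.encard ≤ 2) {x y z : V} (hx : x ∈ S) (hy : y ∈ S)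
    (hz : z ∈ S) (hxy : x ≠ y) : z = x ∨ z = y := by
  by_contra hcon
  push Not at hcon
  have h1 : ({x, y, z} : Set V).encard = 3 :=
    Set.encard_eq_three.2 ⟨x, y, z, hxy, hcon.1.symm, hcon.2.symm, rfl⟩
  have h2 : ({x, y, z} : Set V) ⊆ S := by
    intro v hv
    rcases hv with rfl | rfl | rfl
    · exact hx
    · exact hy
    · exact hz
  have h3 := (Set.encard_le_encard h2).trans h
  rw [h1] at h3
  exact absurd h3 (by decide)

/-- sequences of different consecutively adjacent elements of `K` -/
structure Sq {V : Type} (D : SimpleGraph V) (K : Set V) (l : ℕ) (u : ℕ → V) : Prop where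
  two : 2 ≤ l
  mem : ∀ i < l, u i ∈ K
  inj : ∀ i < l, ∀ j < l, u i = u j → i = j
  adj : ∀ i, i + 1 < l → D.Adj (u i) (u (i + 1))

theorem Sq.bound {V : Type} [Finite V] {D : SimpleGraph V} {K : Set V} {l : ℕ} {u : ℕ → V}
    (h : Sq D K l u) : l ≤ Nat.card V := by
  classical
  have := Fintype.ofFinite V
  have h1 : Function.Injective (fun i : Fin l => u i.val) := by
    intro i j hij
    exact Fin.ext (h.inj i.val i.2 j.val j.2 hij)
  have h2 := Fintype.card_le_of_injective _ h1
  rw [Fintype.card_fin] at h2
  rw [Nat.card_eq_fintype_card]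
  exact h2

/-- a new first element -/
theorem Sq.cons {V : Type} {D : SimpleGraph V} {K : Set V} {l : ℕ} {u : ℕ → V}
    (h : Sq D K l u) {z : V} (hz : z ∈ K) (hzu : ∀ j < l, u j ≠ z) (ha : D.Adj z (u 0)) :
    Sq D K (l + 1) (fun i => if i = 0 then z else u (i - 1)) where
  two := by have := h.two; omega
  mem i hi := by
    by_cases h0 : i = 0
    · simp only [h0, if_true]
      exact hz
    · simp only [h0, if_false]
      exact h.mem _ (by omega)
  inj i hi j hj hij := by
    by_cases h0 : i = 0 <;> by_cases h1 : j = 0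
    · omega
    · simp only [h0, h1, if_true, if_false] at hij
      exact absurd hij.symm (hzu _ (by omega))
    · simp only [h0, h1, if_true, if_false] at hij
      exact absurd hij (hzu _ (by omega))
    · simp only [h0, h1, if_false] at hij
      have := h.inj _ (by omega) _ (by omega) hij
      omega
  adj i hi := by
    by_cases h0 : i = 0
    · subst h0
      simp only [if_true, Nat.zero_add, Nat.one_ne_zero, if_false, Nat.sub_self]
      exact ha
    · have h1 : i + 1 ≠ 0 := by omega
      simp only [h0, h1, if_false]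
      have h2 := h.adj (i - 1) (by omega)
      have h3 : i - 1 + 1 = i + 1 - 1 := by omega
      rw [h3] at h2
      exact h2

/-- a new last element -/
theorem Sq.snoc {V : Type} {D : SimpleGraph V} {K : Set V} {l : ℕ} {u : ℕ → V}
    (h : Sq D K l u) {z : V} (hz : z ∈ K) (hzu : ∀ j < l, u j ≠ z) (ha : D.Adj (u (l - 1)) z) :
    Sq D K (l + 1) (fun i => if i = l then z else u i) where
  two := by have := h.two; omega
  mem i hi := by
    by_cases h0 : i = l
    · simp only [h0, if_true]
      exact hz
    · simp only [h0, if_false]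
      exact h.mem _ (by omega)
  inj i hi j hj hij := by
    by_cases h0 : i = l <;> by_cases h1 : j = l
    · omega
    · simp only [h0, h1, if_true, if_false] at hij
      exact absurd hij.symm (hzu _ (by omega))
    · simp only [h0, h1, if_true, if_false] at hij
      exact absurd hij (hzu _ (by omega))
    · simp only [h0, h1, if_false] at hij
      exact h.inj _ (by omega) _ (by omega) hij
  adj i hi := by
    have h0 : i ≠ l := by omega
    by_cases h1 : i + 1 = l
    · simp only [h0, h1, if_true, if_false]
      have h2 : i = l - 1 := by omega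
      rw [h2]
      exact ha
    · simp only [h0, h1, if_false]
      exact h.adj i (by omega)

end PathEX

open PathEX

theorem pathE : S_PathE := by
  intro V _ D K C hC hK hdeg hE
  obtain ⟨v₀, hv₀, w₀, hw₀, hvw, hnC⟩ := hE
  obtain ⟨l, ⟨u, hu⟩, hmax⟩ := exMax (fun l => ∃ u, Sq D K l u) (Nat.card V)
    (fun l h => by obtain ⟨u, hu⟩ := h; exact hu.bound) ⟨2, fun i => if i = 0 then v₀ else w₀, by
      refine ⟨le_rfl, ?_, ?_, ?_⟩
      · intro i hi
        by_cases h0 : i = 0
        · simp only [h0, if_true]; exact hv₀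
        · simp only [h0, if_false]; exact hw₀
      · intro i hi j hj hij
        by_cases h0 : i = 0 <;> by_cases h1 : j = 0
        · omega
        · simp only [h0, h1, if_true, if_false] at hij
          exact absurd hij hvw.ne
        · simp only [h0, h1, if_true, if_false] at hij
          exact absurd hij.symm hvw.ne
        · omega
      · intro i hi
        have h0 : i = 0 := by omega
        subst h0
        simp only [if_true, Nat.zero_add, Nat.one_ne_zero, if_false]
        exact hvw⟩
  have h2l := hu.two
  -- neighbours of inner vertices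
  have h1 : ∀ i, 0 < i → i + 1 < l → ∀ z ∈ K, D.Adj (u i) z → z = u (i - 1) ∨ z = u (i + 1) := by
    intro i hi hi' z hz hiz
    refine two (hdeg (u i) (hu.mem i (by omega))) ?_ ?_ ⟨hiz, hz⟩ ?_
    · refine ⟨?_, hu.mem _ (by omega)⟩
      have h := hu.adj (i - 1) (by omega)
      have h3 : i - 1 + 1 = i := by omega
      rw [h3] at h
      exact h.symm
    · exact ⟨hu.adj i hi', hu.mem _ hi'⟩
    · intro h
      have := hu.inj _ (by omega) _ hi' h
      omega
  have h0 : ∀ z ∈ K, D.Adj (u 0) z → ∃ j < l, u j = z := by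
    intro z hz hiz
    by_contra hcon
    push Not at hcon
    have := hmax (l + 1) ⟨_, hu.cons hz hcon hiz.symm⟩
    omega
  have hl : ∀ z ∈ K, D.Adj (u (l - 1)) z → ∃ j < l, u j = z := by
    intro z hz hiz
    by_contra hcon
    push Not at hcon
    have := hmax (l + 1) ⟨_, hu.snoc hz hcon hiz⟩
    omega
  have hclos : ∀ i < l, ∀ z ∈ K, D.Adj (u i) z → ∃ j < l, u j = z := by
    intro i hi z hz hiz
    by_cases hi0 : i = 0
    · subst hi0
      exact h0 z hz hiz
    · by_cases hil : i + 1 = l
      · have h : i = l - 1 := by omega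
        rw [h] at hiz
        exact hl z hz hiz
      · rcases h1 i (by omega) (by omega) z hz hiz with h | h
        · exact ⟨i - 1, by omega, h.symm⟩
        · exact ⟨i + 1, by omega, h.symm⟩
  have hKS : ∀ v, v ∈ K ↔ ∃ i < l, u i = v := by
    have h : {v | ∃ i < l, u i = v} = K := by
      refine hK.eq_of_nb ?_ ⟨u 0, 0, by omega, rfl⟩ ?_
      · rintro v ⟨i, hi, rfl⟩
        exact hu.mem i hi
      · rintro v hv ⟨hvn, w, ⟨i, hi, rfl⟩, hw⟩
        exact hvn (hclos i hi v hv hw)
    intro v
    rw [← h]
    exact Iff.rfl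
  have hinn : ∀ i, 0 < i → i + 1 < l → ∀ j < l, D.Adj (u i) (u j) → j = i + 1 ∨ i = j + 1 := by
    intro i hi hi' j hj hij
    rcases h1 i hi hi' (u j) (hu.mem j hj) hij with h | h
    · have := hu.inj _ hj _ (by omega) h
      omega
    · have := hu.inj _ hj _ (by omega) h
      omega
  have honly : ∀ i < l, ∀ j < l, D.Adj (u i) (u j) → j = i + 1 ∨ i = j + 1 ∨
      (i = 0 ∧ j + 1 = l) ∨ (j = 0 ∧ i + 1 = l) := by
    intro i hi j hj hij
    have hne : i ≠ j := by
      rintro rfl
      exact hij.ne rfl
    by_cases hi' : 0 < i ∧ i + 1 < l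
    · have := hinn i hi'.1 hi'.2 j hj hij
      omega
    · by_cases hj' : 0 < j ∧ j + 1 < l
      · have := hinn j hj'.1 hj'.2 i hi hij.symm
        omega
      · omega
  by_cases hcase : 3 ≤ l ∧ D.Adj (u 0) (u (l - 1)) ∧ C (u 0) (u (l - 1))
  · -- rotation
    obtain ⟨hl3, hadj, hCC⟩ := hcase
    obtain ⟨e, he1, hel, hnCe⟩ : ∃ e, 0 < e ∧ e < l ∧ ¬ C (u (e - 1)) (u e) := by
      obtain ⟨i, hi, hiv⟩ := (hKS v₀).1 hv₀
      obtain ⟨j, hj, hjw⟩ := (hKS w₀).1 hw₀
      rw [← hiv, ← hjw] at hvw hnC
      rcases honly i hi j hj hvw with h | h | ⟨h, h'⟩ | ⟨h, h'⟩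
      · refine ⟨j, by omega, hj, ?_⟩
        have h3 : j - 1 = i := by omega
        rw [h3]
        exact hnC
      · refine ⟨i, by omega, hi, ?_⟩
        have h3 : i - 1 = j := by omega
        rw [h3]
        exact fun h4 => hnC (hC _ _ h4)
      · have h3 : j = l - 1 := by omega
        rw [h, h3] at hnC
        exact absurd hCC hnC
      · have h3 : i = l - 1 := by omega
        rw [h, h3] at hnC
        exact absurd (hC _ _ hCC) hnC
    let φ : ℕ → ℕ := fun j => if e + j < l then e + j else e + j - l
    have hφ : ∀ j, (e + j < l ∧ φ j = e + j) ∨ (l ≤ e + j ∧ φ j = e + j - l) := by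
      intro j
      by_cases h : e + j < l
      · exact Or.inl ⟨h, if_pos h⟩
      · exact Or.inr ⟨by omega, if_neg h⟩
    refine ⟨l, fun j => u (φ j), ?_, ?_, ?_, ?_⟩
    · intro v
      constructor
      · intro hv
        obtain ⟨k, hk, hkv⟩ := (hKS v).1 hv
        by_cases hke : e ≤ k
        · refine ⟨k - e, by omega, ?_⟩
          have h3 : φ (k - e) = k := by
            have := hφ (k - e)
            omega
          simp only [h3]
          exact hkv
        · refine ⟨k + l - e, by omega, ?_⟩
          have h3 : φ (k + l - e) = k := by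
            have := hφ (k + l - e)
            omega
          simp only [h3]
          exact hkv
      · rintro ⟨i, hi, rfl⟩
        refine hu.mem _ ?_
        have := hφ i
        omega
    · intro i hi j hj hij
      have hi' := hφ i
      have hj' := hφ j
      have := hu.inj _ (by omega) _ (by omega) hij
      omega
    · intro i hi
      have hi' := hφ i
      have hj' := hφ (i + 1)
      show D.Adj (u (φ i)) (u (φ (i + 1)))
      by_cases h4 : e + i + 1 = l
      · have h5 : φ i = l - 1 := by omega
        have h6 : φ (i + 1) = 0 := by omega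
        rw [h5, h6]
        exact hadj.symm
      · have h5 : φ (i + 1) = φ i + 1 := by omega
        rw [h5]
        exact hu.adj _ (by omega)
    · intro i hi j hj hij
      have hi' := hφ i
      have hj' := hφ j
      by_cases h7 : j = i + 1 ∨ i = j + 1
      · omega
      · refine Or.inr (Or.inr ?_)
        rcases honly (φ i) (by omega) (φ j) (by omega) hij with h | h | h | h
        · refine ⟨?_, Or.inr (by omega)⟩
          have h5 : φ i = e - 1 := by omega
          have h6 : φ j = e := by omega
          simp only [h5, h6]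
          exact hnCe
        · refine ⟨?_, Or.inl (by omega)⟩
          have h5 : φ i = e := by omega
          have h6 : φ j = e - 1 := by omega
          simp only [h5, h6]
          exact fun h8 => hnCe (hC _ _ h8)
        · omega
        · omega
  · refine ⟨l, u, hKS, hu.inj, hu.adj, ?_⟩
    intro i hi j hj hij
    rcases honly i hi j hj hij with h | h | ⟨h, h'⟩ | ⟨h, h'⟩
    · exact Or.inl h
    · exact Or.inr (Or.inl h)
    · by_cases hl2 : l = 2
      · omega
      · refine Or.inr (Or.inr ⟨fun hcc => hcase ⟨by omega, ?_⟩, Or.inl ⟨h, h'⟩⟩)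
        have h3 : j = l - 1 := by omega
        rw [h, h3] at hij hcc
        exact ⟨hij, hcc⟩
    · by_cases hl2 : l = 2
      · omega
      · refine Or.inr (Or.inr ⟨fun hcc => hcase ⟨by omega, ?_⟩, Or.inr ⟨h, h'⟩⟩)
        have h3 : i = l - 1 := by omega
        rw [h, h3] at hij hcc
        exact ⟨hij.symm, hC _ _ hcc⟩

end Pool.Agent.MPd439b2.W
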