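import Pool.Agent.Lib.MP_d439b2_co.W.SpecM

/-!
# MP_d439b2_co, W, M25: pigeonhole for components (`S_Pig`)
-/

set_option autoImplicit false

namespace Pool.Agent.MPd439b2.W

open Pool.Agent.MPd439b2

namespace pigAux

/-- enumeration of a finite set -/
theorem enum {α : Type} (T : Finset α) {k : ℕ} (hk : k ≤ T.card) (x₀ : α) :
    ∃ f : ℕ → α, (∀ i < k, f i ∈ T) ∧ ∀ i < k, ∀ j < k, f i = f j → i = j := by
  classical
  refine ⟨fun i => if h : i < T.card then ((T.equivFin.symm ⟨i, h⟩ : T) : α) else x₀, ?_, ?_⟩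
  · intro i hi
    have h1 : i < T.card := by omega
    simp only [dif_pos h1]
    exact (T.equivFin.symm ⟨i, h1⟩).2
  · intro i hi j hj hij
    have h1 : i < T.card := by omega
    have h2 : j < T.card := by omega
    simp only [dif_pos h1, dif_pos h2] at hij
    have h3 := T.equivFin.symm.injective (Subtype.ext hij)
    exact congrArg Fin.val h3

end pigAux

open pigAux in
/-- **M25.** Many M-edges in clean components or in one unclean path or cycle. -/
theorem pig (hComp : S_CompT) (hPQ : S_PQ3) (hNum : S_NumC) : S_Pig := by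
  classical
  intro c₀ κ' N₁ n V _ D a b A B htri hCM hn hNF hc hcard
  have hout : ∀ i < n, a i ∈ (A ∪ B)ᶜ ∧ b i ∈ (A ∪ B)ᶜ := by
    intro i hi
    obtain ⟨h1, h2, h3, h4⟩ := hCM.out hn hi
    exact ⟨fun h => h.elim h1 h2, fun h => h.elim h3 h4⟩
  have hex : ∀ i, ∃ K : Set V, i < n → IsComp D (A ∪ B)ᶜ K ∧ a i ∈ K := by
    intro i
    by_cases hi : i < n
    · obtain ⟨K, h1, h2⟩ := exists_isComp D (hout i hi).1
      exact ⟨K, fun _ => ⟨h1, h2⟩⟩
    · exact ⟨∅, fun h => absurd h hi⟩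
  choose K hK using hex
  have hb : ∀ i < n, b i ∈ K i := fun i hi =>
    (hK i hi).1.2.2 (a i) (hK i hi).2 (b i) (hout i hi).2 (hCM.im.edge hi)
  set I₁ := (Finset.range n).filter (fun i => CComp D A B (K i)) with hI₁
  set I₂ := (Finset.range n).filter (fun i => ¬ CComp D A B (K i)) with hI₂
  by_cases hκ : κ' ≤ I₁.card
  · left
    refine ⟨I₁, hκ, fun i hi => ?_⟩
    rw [hI₁, Finset.mem_filter, Finset.mem_range] at hi
    exact ⟨hi.1, K i, hi.2, (hK i hi.1).2, hb i hi.1⟩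
  right
  have hsum : I₁.card + I₂.card = n := by
    rw [hI₁, hI₂, Finset.card_filter_add_card_filter_not, Finset.card_range]
  have hun : ∀ i ∈ I₂, i < n ∧ ∃ v ∈ K i, ∃ w ∈ K i, D.Adj v w ∧ ¬ CE D A B v w := by
    intro i hi
    rw [hI₂, Finset.mem_filter, Finset.mem_range] at hi
    refine ⟨hi.1, ?_⟩
    by_contra hcon
    push Not at hcon
    exact hi.2 ⟨(hK i hi.1).1, ⟨a i, (hK i hi.1).2, b i, hb i hi.1, hCM.im.edge hi.1⟩, hcon⟩
  have hc0 : 0 < c₀ := by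
    by_contra h0
    have h1 : c₀ = 0 := by omega
    subst h1
    obtain ⟨i, hi, _⟩ := hc a a (fun i hi => absurd hi (Nat.not_lt_zero i))
      (fun i hi => absurd hi (Nat.not_lt_zero i))
    exact Nat.not_lt_zero i hi
  have hfew : (I₂.image K).card < c₀ := by
    by_contra hcon
    push Not at hcon
    obtain ⟨K', hK'1, hK'2⟩ := enum (I₂.image K) hcon ∅
    have hrep : ∀ i < c₀, IsComp D (A ∪ B)ᶜ (K' i) ∧
        ∃ v ∈ K' i, ∃ w ∈ K' i, D.Adj v w ∧ ¬ CE D A B v w := by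
      intro i hi
      obtain ⟨j, hj, hji⟩ := Finset.mem_image.mp (hK'1 i hi)
      obtain ⟨hjn, hju⟩ := hun j hj
      rw [← hji]
      exact ⟨(hK j hjn).1, hju⟩
    obtain ⟨p, q, hpq, hpq'⟩ := hNum V D (A ∪ B)ᶜ (CE D A B) c₀ K' hc0
      (fun i hi => (hrep i hi).1) hK'2 (fun i hi => (hrep i hi).2)
    obtain ⟨i, hi, hce⟩ := hc p q hpq (fun i hi => by
      obtain ⟨h1, h2, _⟩ := hpq' i hi
      exact ⟨fun h => h1 (Or.inl h), fun h => h1 (Or.inr h), fun h => h2 (Or.inl h),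
        fun h => h2 (Or.inr h)⟩)
    exact (hpq' i hi).2.2 hce
  have hlt : (I₂.image K).card * (N₁ + 3) < I₂.card := by
    have h1 : (I₂.image K).card * (N₁ + 3) ≤ c₀ * (N₁ + 3) :=
      Nat.mul_le_mul_right _ hfew.le
    omega
  obtain ⟨Y, hY, hYc⟩ := Finset.exists_lt_card_fiber_of_mul_lt_card_of_maps_to
    (fun i hi => Finset.mem_image_of_mem K hi) hlt
  obtain ⟨j, hj, hjY⟩ := Finset.mem_image.mp hY
  obtain ⟨hjn, hju⟩ := hun j hj
  have hYcomp : IsComp D (A ∪ B)ᶜ Y := by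
    rw [← hjY]
    exact (hK j hjn).1
  have hYI : ∀ i ∈ I₂.filter (fun i => K i = Y), i < n ∧ a i ∈ Y ∧ b i ∈ Y := by
    intro i hi
    obtain ⟨h1, h2⟩ := Finset.mem_filter.mp hi
    obtain ⟨hin, _⟩ := hun i h1
    rw [← h2]
    exact ⟨hin, (hK i hin).2, hb i hin⟩
  have hNFY : NoFork D Y := fun c hc l₁ hl₁ l₂ hl₂ m hm e he =>
    hNF c (hYcomp.2.1 hc) l₁ (hYcomp.2.1 hl₁) l₂ (hYcomp.2.1 hl₂) m (hYcomp.2.1 hm) e
      (hYcomp.2.1 he)
  rcases hComp V D Y htri hYcomp.1 hNFY with h | ⟨P, Q, hPQY, _, hP, hQ, hAlm, _⟩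
  · refine ⟨Y, hYcomp, h, ?_, I₂.filter (fun i => K i = Y), by omega, hYI⟩
    rw [← hjY]
    exact hju
  · exfalso
    have h1 := hPQ V D n a b P Q hP hQ hAlm hCM.im (I₂.filter (fun i => K i = Y)) (fun i hi => by
      rw [← hPQY]
      exact hYI i hi)
    omega

end Pool.Agent.MPd439b2.W
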