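import Pool.Agent.Lib.MP_d439b2_co.W.SpecM

/-!
# MP_d439b2_co, W, M31: relations between cells
-/

set_option autoImplicit false

namespace Pool.Agent.MPd439b2.W

open Pool.Agent.MPd439b2

theorem rel : S_Rel := by
  intro κ c V D X R X' R' L A B L' A' B' x y x' y' hκ hC hC' hd z hz hzL hzA
  rw [Finset.disjoint_left] at hd
  have hxX : ∀ l < κ, x l ∈ X := fun l hl => hC.RX (hC.ix l hl).1
  have hxX' : ∀ l < κ, x l ∉ X' := fun l hl h => hd (hxX l hl) h
  have hzx : ∀ l < κ, D.Adj (x l) z := fun l hl => ((hC.mem_A hl).mp hzA).1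
  obtain ⟨l, hl, hlA⟩ : ∃ l < κ, x l ∈ A' := by
    have h0 : x 0 ∈ D.neighborSet z \ (X' : Set V) :=
      ⟨(hzx 0 (by omega)).symm, hxX' 0 (by omega)⟩
    have h1 : x 1 ∈ D.neighborSet z \ (X' : Set V) :=
      ⟨(hzx 1 (by omega)).symm, hxX' 1 (by omega)⟩
    rcases hC'.exA z hz hzL with h2 | ⟨⟨e, h2⟩, _⟩
    · exact ⟨0, by omega, h2 ▸ h0⟩
    · rw [h2] at h0 h1
      rcases h0 with h0 | h0
      · rcases h1 with h1 | h1
        · have := hC.im.inj_a (i := 0) (j := 1) (by omega) (by omega) (h0.trans h1.symm)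
          omega
        · exact ⟨1, by omega, h1⟩
      · exact ⟨0, by omega, h0⟩
  have ha : ∀ w ∈ X', w ∈ L' → w ∈ A := by
    intro w hw hwL
    have h1 := hC'.subA hw hwL hlA
    rw [hC.mem_A hl]
    exact ⟨D.symm.symm _ _ h1.1, fun h => hd h hw⟩
  refine ⟨ha, fun w hw hwL => ?_⟩
  have h0 := hC'.ix 0 (by omega)
  have h1 := hC.subA hw hwL (ha (x' 0) (hC'.RX h0.1) h0.2.1)
  rw [hC'.mem_A (l := 0) (by omega)]
  exact ⟨D.symm.symm _ _ h1.1, fun h => hd hw h⟩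

end Pool.Agent.MPd439b2.W
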