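import Pool.Agent.Lib.MP_d439b2_co.W.SpecM

/-!
# MP_d439b2_co, W, M32: cells do not cross
-/

set_option autoImplicit false

namespace Pool.Agent.MPd439b2.W

open Pool.Agent.MPd439b2

namespace relXAux

/-- the first part -/
theorem one (h1 : S_Crs) (h2 : S_Rel) {s c : ℕ} {V : Type} {D : SimpleGraph V}
    {X R X' R' : Finset V} {L A B L' A' B' : Set V} {x y x' y' : ℕ → V} (ht : TriFree D)
    (hno : ¬ IsIndMinor (KCo s F1) Dᶜ) (hC : Cel D (8 + 2 * s) c X R L A B x y)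
    (hC' : Cel D (8 + 2 * s) c X' R' L' A' B' x' y') (hd : Disjoint X X') :
    ¬ (D.Adj (x 0) (x' 0) ∧ D.Adj (y 0) (y' 0)) := by
  rintro ⟨hx, hy⟩
  have hd' := Finset.disjoint_left.mp hd
  have hX' : ∀ l < 8 + 2 * s, x' l ∈ X' ∧ x' l ∈ L' := fun l hl =>
    ⟨hC'.RX (hC'.ix l hl).1, (hC'.ix l hl).2.1⟩
  have hY' : ∀ l < 8 + 2 * s, y' l ∈ X' ∧ y' l ∈ L'ᶜ := fun l hl =>
    ⟨hC'.RX (hC'.iy l hl).1, (hC'.iy l hl).2.1⟩
  have e1 : x' 0 ∈ A := (hC.mem_A (l := 0) (by omega)).mpr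
    ⟨hx, fun h => hd' h (hX' 0 (by omega)).1⟩
  have e2 : y' 0 ∈ B := (hC.mem_B (l := 0) (by omega)).mpr
    ⟨hy, fun h => hd' h (hY' 0 (by omega)).1⟩
  have e3 := (h2 (8 + 2 * s) c V D X R X' R' L A B L' A' B' x y x' y' (by omega) hC hC' hd
    (x' 0) (hX' 0 (by omega)).1 (hX' 0 (by omega)).2 e1).1
  have e4 := (h2 (8 + 2 * s) c V D X R X' R' Lᶜ B A L'ᶜ B' A' y x y' x' (by omega) hC.swap
    hC'.swap hd (y' 0) (hY' 0 (by omega)).1 (hY' 0 (by omega)).2 e2).1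
  apply h1 s V D x' y' x y ht hno hC'.im (hC.im.mono (by omega))
  intro i hi j hj
  exact ⟨((hC.mem_A (l := i) (by omega)).mp (e3 _ (hX' j hj).1 (hX' j hj).2)).1,
    ((hC.mem_B (l := i) (by omega)).mp (e4 _ (hY' j hj).1 (hY' j hj).2)).1⟩

end relXAux

open relXAux in
theorem relX (h1 : S_Crs) (h2 : S_Rel) : S_RelX := by
  intro s c V D X R X' R' L A B L' A' B' x y x' y' ht hno hC hC' hd
  exact ⟨one h1 h2 ht hno hC hC' hd, one h1 h2 ht hno hC hC'.swap hd⟩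

end Pool.Agent.MPd439b2.W
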