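import Pool.Agent.Lib.MP_d439b2_co.W.SpecM

/-!
# MP_d439b2_co, W, M33: a cut with few types splits boundedly many cells
-/

set_option autoImplicit false

namespace Pool.Agent.MPd439b2.W

open Pool.Agent.MPd439b2

namespace SplitM

/-- a cell with two representatives on different sides of `S` -/
structure Dat {V : Type} (D : SimpleGraph V) (κ c : ℕ) (S : Set V) (P : Finset V × Finset V)
    (L A B : Set V) (x y : ℕ → V) (p q : V) : Prop where
  cel : Cel D κ c P.1 P.2 L A B x y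
  p1 : p ∈ P.2
  p2 : p ∈ L
  p3 : p ∈ S
  q1 : q ∈ P.2
  q2 : q ∉ L
  q3 : q ∉ S

theorem mem_Spl {V : Type} {F : Finset (Finset V × Finset V)} {S : Set V}
    {P : Finset V × Finset V} :
    P ∈ Spl F S ↔ P ∈ F ∧ (∃ r ∈ P.2, r ∈ S) ∧ ∃ r ∈ P.2, r ∉ S := by
  classical
  unfold Spl
  rw [Finset.mem_filter]

theorem dat_ex {V : Type} {D : SimpleGraph V} {κ c h : ℕ} (hκ : 0 < κ)
    {F : Finset (Finset V × Finset V)} {S : Set V} (hF : Fam D κ c h F)
    {P : Finset V × Finset V} (hP : P ∈ Spl F S) :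
    ∃ (L A B : Set V) (x y : ℕ → V) (p q : V), Dat D κ c S P L A B x y p q := by
  obtain ⟨hPF, ⟨r, hr, hrS⟩, ⟨r', hr', hrS'⟩⟩ := mem_Spl.1 hP
  obtain ⟨L, A, B, x, y, hc⟩ := hF.cel hPF
  by_cases ha : (∃ u ∈ P.2, u ∈ L ∧ u ∈ S) ∧ ∃ w ∈ P.2, w ∉ L ∧ w ∉ S
  · obtain ⟨⟨u, hu1, hu2, hu3⟩, ⟨w, hw1, hw2, hw3⟩⟩ := ha
    exact ⟨L, A, B, x, y, u, w, hc, hu1, hu2, hu3, hw1, hw2, hw3⟩
  · by_cases hb : (∃ u ∈ P.2, u ∉ L ∧ u ∈ S) ∧ ∃ w ∈ P.2, w ∈ L ∧ w ∉ S
    · obtain ⟨⟨u, hu1, hu2, hu3⟩, ⟨w, hw1, hw2, hw3⟩⟩ := hb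
      exact ⟨Lᶜ, B, A, y, x, u, w, hc.swap, hu1, hu2, hu3, hw1, fun h => h hw2, hw3⟩
    · exfalso
      obtain ⟨hx1, hx2, -⟩ := hc.ix 0 hκ
      obtain ⟨hy1, hy2, -⟩ := hc.iy 0 hκ
      by_cases hx : x 0 ∈ S
      · have h1 : ∀ w ∈ P.2, w ∉ L → w ∈ S := by
          intro w hw hwL
          by_contra hwS
          exact ha ⟨⟨x 0, hx1, hx2, hx⟩, w, hw, hwL, hwS⟩
        have h2 : ∀ w ∈ P.2, w ∈ L → w ∈ S := by
          intro w hw hwL
          by_contra hwS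
          exact hb ⟨⟨y 0, hy1, hy2, h1 _ hy1 hy2⟩, w, hw, hwL, hwS⟩
        by_cases hr'L : r' ∈ L
        · exact hrS' (h2 r' hr' hr'L)
        · exact hrS' (h1 r' hr' hr'L)
      · have h1 : ∀ w ∈ P.2, w ∉ L → w ∉ S := by
          intro w hw hwL hwS
          exact hb ⟨⟨w, hw, hwL, hwS⟩, x 0, hx1, hx2, hx⟩
        have h2 : ∀ w ∈ P.2, w ∈ L → w ∉ S := by
          intro w hw hwL hwS
          exact ha ⟨⟨w, hw, hwL, hwS⟩, y 0, hy1, hy2, h1 _ hy1 hy2⟩
        by_cases hrL : r ∈ L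
        · exact h2 r hr hrL hrS
        · exact h1 r hr hrL hrS

section

variable {V : Type} {D : SimpleGraph V} {κ c : ℕ} {S : Set V} {P P' : Finset V × Finset V}
  {L A B L' A' B' : Set V} {x y x' y' : ℕ → V} {p q p' q' : V}

/-- if `x 0 ~ y' 0` then `p ~ q'` -/
theorem Dat.adj (h3 : S_Rel) (hκ : 2 ≤ κ) (d : Dat D κ c S P L A B x y p q)
    (d' : Dat D κ c S P' L' A' B' x' y' p' q') (hd : Disjoint P.1 P'.1)
    (h : D.Adj (x 0) (y' 0)) : D.Adj p q' := by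
  have hy'X : y' 0 ∈ P'.1 := d'.cel.RX (d'.cel.iy 0 (by omega)).1
  have hA : y' 0 ∈ A :=
    (d.cel.mem_A (by omega : 0 < κ)).2 ⟨h, fun h1 => Finset.disjoint_left.1 hd h1 hy'X⟩
  have h5 := (h3 κ c V D P.1 P.2 P'.1 P'.2 L A B L'ᶜ B' A' x y y' x' hκ d.cel d'.cel.swap hd
    (y' 0) hy'X (d'.cel.iy 0 (by omega)).2.1 hA).1 q' (d'.cel.RX d'.q1) d'.q2
  exact (d.cel.subA (d.cel.RX d.p1) d.p2 h5).1

/-- if `x 0` is not adjacent to `y' 0` then `q'` is not in `A` -/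
theorem Dat.notA (h3 : S_Rel) (hκ : 2 ≤ κ) (d : Dat D κ c S P L A B x y p q)
    (d' : Dat D κ c S P' L' A' B' x' y' p' q') (hd : Disjoint P.1 P'.1)
    (h : ¬ D.Adj (x 0) (y' 0)) : q' ∉ A := by
  intro hA
  have hy'X : y' 0 ∈ P'.1 := d'.cel.RX (d'.cel.iy 0 (by omega)).1
  have h5 := (h3 κ c V D P.1 P.2 P'.1 P'.2 L A B L'ᶜ B' A' x y y' x' hκ d.cel d'.cel.swap hd
    q' (d'.cel.RX d'.q1) d'.q2 hA).1 (y' 0) hy'X (d'.cel.iy 0 (by omega)).2.1
  exact h ((d.cel.mem_A (by omega : 0 < κ)).1 h5).1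

/-- the exceptional neighbour -/
theorem Dat.exc (d : Dat D κ c S P L A B x y p q) : ∃ e : V, ∀ z, D.Adj p z → z ∉ P.1 → z ∉ A →
    z = e := by
  rcases d.cel.exA p (d.cel.RX d.p1) d.p2 with h1 | ⟨⟨e, h1⟩, -⟩
  · refine ⟨p, fun z hz hzP hzA => ?_⟩
    have h2 : z ∈ D.neighborSet p \ (P.1 : Set V) := ⟨hz, hzP⟩
    rw [h1] at h2
    exact absurd h2 hzA
  · refine ⟨e, fun z hz hzP hzA => ?_⟩
    have h2 : z ∈ D.neighborSet p \ (P.1 : Set V) := ⟨hz, hzP⟩
    rw [h1] at h2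
    rcases h2 with h2 | h2
    · exact h2
    · exact absurd h2 hzA

end

/-- a monotone enumeration -/
theorem enum_up (J : Finset ℕ) (M : ℕ) (hJ : J.card = M) : ∃ g : ℕ → ℕ, (∀ a < M, g a ∈ J) ∧
    ∀ a b, a < b → b < M → g a < g b := by
  refine ⟨fun a => if h : a < M then J.orderEmbOfFin hJ ⟨a, h⟩ else 0, ?_, ?_⟩
  · intro a ha
    simp only [ha, dif_pos]
    exact J.orderEmbOfFin_mem hJ _
  · intro a b hab hb
    have ha : a < M := by omega
    simp only [ha, hb, dif_pos]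
    exact (J.orderEmbOfFin hJ).strictMono hab

theorem enum_down (J : Finset ℕ) (M : ℕ) (hJ : J.card = M) : ∃ g : ℕ → ℕ, (∀ a < M, g a ∈ J) ∧
    ∀ a b, a < b → b < M → g b < g a := by
  obtain ⟨g, h1, h2⟩ := enum_up J M hJ
  refine ⟨fun a => g (M - 1 - a), fun a ha => h1 _ (by omega), fun a b hab hb => ?_⟩
  exact h2 _ _ (by omega) (by omega)

/-- the end of the proof -/
theorem fin5 {V : Type} {D : SimpleGraph V} {Y S : Set V} {N : ℕ}
    (hS : (TyIn D Y S).encard ≤ N) (p q : ℕ → V) (hp : ∀ a < 2 * N + 2, p a ∈ S)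
    (hq : ∀ a < 2 * N + 2, q a ∉ S ∧ q a ∈ Y)
    (h : ∀ a < 2 * N + 2, ∀ b < 2 * N + 2, a ≠ b → (D.Adj (p a) (q b) ↔ a < b)) : False := by
  set T : ℕ → Set V := fun a => (D.neighborSet (p (2 * a)) ∩ Y) \ S with hT
  have h1 : ∀ a < N + 1, q (2 * a + 1) ∈ T a := by
    intro a ha
    refine ⟨⟨?_, (hq _ (by omega)).2⟩, (hq _ (by omega)).1⟩
    exact (h (2 * a) (by omega) (2 * a + 1) (by omega) (by omega)).2 (by omega)
  have h2 : ∀ a b, a < b → b < N + 1 → q (2 * a + 1) ∉ T b := by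
    intro a b hab hb h3
    have h4 : D.Adj (p (2 * b)) (q (2 * a + 1)) := h3.1.1
    have h5 := (h (2 * b) (by omega) (2 * a + 1) (by omega) (by omega)).1 h4
    omega
  have hinj : Set.InjOn T (Finset.range (N + 1) : Set ℕ) := by
    intro a ha b hb hab
    rw [Finset.mem_coe, Finset.mem_range] at ha hb
    rcases Nat.lt_trichotomy a b with h3 | h3 | h3
    · exfalso
      apply h2 a b h3 hb
      rw [← hab]
      exact h1 a ha
    · exact h3
    · exfalso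
      apply h2 b a h3 ha
      rw [hab]
      exact h1 b hb
  have hsub : T '' (Finset.range (N + 1) : Set ℕ) ⊆ TyIn D Y S := by
    rintro _ ⟨a, ha, rfl⟩
    rw [Finset.mem_coe, Finset.mem_range] at ha
    exact ⟨⟨_, h1 a ha⟩, p (2 * a), hp _ (by omega), rfl⟩
  have h3 := Set.encard_le_encard hsub
  rw [hinj.encard_image, Set.encard_coe_eq_coe_finsetCard, Finset.card_range] at h3
  have h4 := h3.trans hS
  have h5 : N + 1 ≤ N := by exact_mod_cast h4
  omega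

end SplitM

open SplitM in
theorem split (h1 : S_RamC) (h2 : S_Dig) (h3 : S_Rel) (h4 : S_RelX) : S_Split := by
  classical
  intro s m₀ n N
  obtain ⟨f, hf⟩ := h1 (Prop × Prop × Prop × Prop) (3 + n + 3 * (2 * N + 2))
  refine ⟨f, ?_⟩
  intro c h V _ D F hH hF hno S hS
  by_contra hcon
  push Not at hcon
  -- enumeration of the split cells
  obtain ⟨P, hP, hPinj⟩ : ∃ P : ℕ → Finset V × Finset V, (∀ j < f, P j ∈ Spl F S) ∧
      ∀ i < f, ∀ j < f, P i = P j → i = j := by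
    let e := (Spl F S).equivFin.symm
    refine ⟨fun j => if hj : j < (Spl F S).card then (e ⟨j, hj⟩ : Finset V × Finset V)
      else (∅, ∅), ?_, ?_⟩
    · intro j hj
      have hj' : j < (Spl F S).card := by omega
      simp only [hj', dif_pos]
      exact (e ⟨j, hj'⟩).2
    · intro i hi j hj hij
      have hi' : i < (Spl F S).card := by omega
      have hj' : j < (Spl F S).card := by omega
      simp only [hi', hj', dif_pos] at hij
      have h5 := e.injective (Subtype.ext hij)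
      exact congrArg Fin.val h5
  obtain ⟨v₀⟩ : Nonempty V := by
    have h5 : (Spl F S).Nonempty := Finset.card_pos.1 (by omega)
    obtain ⟨p, hp⟩ := h5
    obtain ⟨-, ⟨r, -, -⟩, -⟩ := mem_Spl.1 hp
    exact ⟨r⟩
  have hex : ∀ j, ∃ (L A B : Set V) (x y : ℕ → V) (p q : V), j < f →
      Dat D (8 + 2 * s) c S (P j) L A B x y p q := by
    intro j
    by_cases hj : j < f
    · obtain ⟨L, A, B, x, y, p, q, hd⟩ := dat_ex (by omega) hF (hP j hj)
      exact ⟨L, A, B, x, y, p, q, fun _ => hd⟩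
    · exact ⟨∅, ∅, ∅, fun _ => v₀, fun _ => v₀, v₀, v₀, fun h => absurd h hj⟩
  choose L A B x y p q hd using hex
  have hdis : ∀ i < f, ∀ j < f, i ≠ j → Disjoint (P i).1 (P j).1 := by
    intro i hi j hj hij
    exact hF.dis _ (mem_Spl.1 (hP i hi)).1 _ (mem_Spl.1 (hP j hj)).1
      (fun h => hij (hPinj i hi j hj h))
  obtain ⟨σ, col, hσ1, hσ2, hσ3⟩ := hf fun j k => (D.Adj (x j 0) (x k 0), D.Adj (y j 0) (y k 0),
    D.Adj (x j 0) (y k 0), D.Adj (y j 0) (x k 0))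
  have hσinj : ∀ i < 3 + n + 3 * (2 * N + 2), ∀ j < 3 + n + 3 * (2 * N + 2), i ≠ j →
      σ i ≠ σ j := by
    intro i hi j hj hij
    rcases Nat.lt_or_gt_of_ne hij with h5 | h5
    · exact (hσ1 i j h5 hj).ne
    · exact (hσ1 j i h5 hi).ne'
  obtain ⟨c1, c2, c3, c4⟩ := col
  have hcol : ∀ k l, k < l → l < 3 + n + 3 * (2 * N + 2) →
      (D.Adj (x (σ k) 0) (x (σ l) 0) ↔ c1) ∧ (D.Adj (y (σ k) 0) (y (σ l) 0) ↔ c2) ∧
      (D.Adj (x (σ k) 0) (y (σ l) 0) ↔ c3) ∧ (D.Adj (y (σ k) 0) (x (σ l) 0) ↔ c4) := by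
    intro k l hkl hl
    have h5 := hσ3 k l hkl hl
    simp only [Prod.mk.injEq] at h5
    obtain ⟨h6, h7, h8, h9⟩ := h5
    exact ⟨iff_of_eq h6, iff_of_eq h7, iff_of_eq h8, iff_of_eq h9⟩
  have hc1 : ¬ c1 := by
    intro h5
    have h6 := (hcol 0 1 (by omega) (by omega)).1.2 h5
    have h7 := (hcol 0 2 (by omega) (by omega)).1.2 h5
    have h8 := (hcol 1 2 (by omega) (by omega)).1.2 h5
    exact hH.tri _ _ _ h6 h7 h8
  have hc2 : ¬ c2 := by
    intro h5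
    have h6 := (hcol 0 1 (by omega) (by omega)).2.1.2 h5
    have h7 := (hcol 0 2 (by omega) (by omega)).2.1.2 h5
    have h8 := (hcol 1 2 (by omega) (by omega)).2.1.2 h5
    exact hH.tri _ _ _ h6 h7 h8
  have hxy : ∀ i < 3 + n + 3 * (2 * N + 2), D.Adj (x (σ i) 0) (y (σ i) 0) := by
    intro i hi
    exact (hd _ (hσ2 i hi)).cel.im.edge (by omega)
  have hc34 : c3 ∨ c4 := by
    by_contra h5
    push Not at h5
    obtain ⟨hc3, hc4⟩ := h5
    apply hno (fun k => x (σ k) 0) (fun k => y (σ k) 0)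
    · intro i hi j hj
      refine ⟨⟨fun h6 => ?_, ?_⟩, ?_, ?_⟩
      · by_contra hij
        rcases Nat.lt_or_gt_of_ne hij with h7 | h7
        · exact hc3 ((hcol i j h7 (by omega)).2.2.1.1 h6)
        · exact hc4 ((hcol j i h7 (by omega)).2.2.2.1 h6.symm)
      · rintro rfl
        exact hxy i (by omega)
      · intro h6
        rcases Nat.lt_trichotomy i j with h7 | h7 | h7
        · exact hc1 ((hcol i j h7 (by omega)).1.1 h6)
        · rw [h7] at h6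
          exact h6.ne rfl
        · exact hc1 ((hcol j i h7 (by omega)).1.1 h6.symm)
      · intro h6
        rcases Nat.lt_trichotomy i j with h7 | h7 | h7
        · exact hc2 ((hcol i j h7 (by omega)).2.1.1 h6)
        · rw [h7] at h6
          exact h6.ne rfl
        · exact hc2 ((hcol j i h7 (by omega)).2.1.1 h6.symm)
    · intro i hi
      have h6 := hd _ (hσ2 i (by omega))
      have h7 := (mem_Spl.1 (hP _ (hσ2 i (by omega)))).1
      exact ⟨hF.mem_Vst h7 (h6.cel.ix 0 (by omega)).1, hF.mem_Vst h7 (h6.cel.iy 0 (by omega)).1⟩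
  have hnot : ¬ (c3 ∧ c4) := by
    rintro ⟨h5, h6⟩
    have h7 := hd _ (hσ2 0 (by omega))
    have h8 := hd _ (hσ2 1 (by omega))
    refine (h4 s c V D _ _ _ _ _ _ _ _ _ _ _ _ _ _ hH.tri hH.noF h7.cel h8.cel
      (hdis _ (hσ2 0 (by omega)) _ (hσ2 1 (by omega))
        (hσinj 0 (by omega) 1 (by omega) (by omega)))).2 ⟨?_, ?_⟩
    · exact (hcol 0 1 (by omega) (by omega)).2.2.1.2 h5
    · exact (hcol 0 1 (by omega) (by omega)).2.2.2.2 h6
  -- (3)
  have hadj : ∀ i < 3 + n + 3 * (2 * N + 2), ∀ j < 3 + n + 3 * (2 * N + 2), i ≠ j →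
      D.Adj (x (σ i) 0) (y (σ j) 0) → D.Adj (p (σ i)) (q (σ j)) := by
    intro i hi j hj hij h5
    exact (hd _ (hσ2 i hi)).adj h3 (by omega) (hd _ (hσ2 j hj))
      (hdis _ (hσ2 i hi) _ (hσ2 j hj) (hσinj i hi j hj hij)) h5
  obtain ⟨J, hJI, hJc, hJ⟩ := h2 1 (2 * N + 2) (Finset.range (3 + n + 3 * (2 * N + 2)))
    (fun i j => D.Adj (p (σ i)) (q (σ j)) ∧ ¬ D.Adj (x (σ i) 0) (y (σ j) 0)) (by
      intro i hi J hJI hJ
      rw [Finset.mem_range] at hi
      obtain ⟨e, he⟩ := (hd _ (hσ2 i hi)).exc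
      rw [Finset.card_le_one]
      have key : ∀ j ∈ J, q (σ j) = e := by
        intro j hj
        have hj' := Finset.mem_range.1 (hJI hj)
        obtain ⟨hne, h5, h6⟩ := hJ j hj
        have hdd := hdis _ (hσ2 i hi) _ (hσ2 j hj') (hσinj i hi j hj' (fun h => hne h.symm))
        refine he _ h5 (fun h7 => ?_) ?_
        · exact Finset.disjoint_left.1 hdd h7
            ((hd _ (hσ2 j hj')).cel.RX (hd _ (hσ2 j hj')).q1)
        · exact (hd _ (hσ2 i hi)).notA h3 (by omega) (hd _ (hσ2 j hj')) hdd h6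
      intro j hj k hk
      have hj' := Finset.mem_range.1 (hJI hj)
      have hk' := Finset.mem_range.1 (hJI hk)
      by_contra hjk
      have hdd := hdis _ (hσ2 j hj') _ (hσ2 k hk') (hσinj j hj' k hk' hjk)
      refine Finset.disjoint_left.1 hdd ((hd _ (hσ2 j hj')).cel.RX (hd _ (hσ2 j hj')).q1) ?_
      rw [key j hj, ← key k hk]
      exact (hd _ (hσ2 k hk')).cel.RX (hd _ (hσ2 k hk')).q1) (by
      rw [Finset.card_range]
      omega)
  have hJ' : ∀ i ∈ J, ∀ j ∈ J, i ≠ j → (D.Adj (p (σ i)) (q (σ j)) ↔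
      D.Adj (x (σ i) 0) (y (σ j) 0)) := by
    intro i hi j hj hij
    have hi' := Finset.mem_range.1 (hJI hi)
    have hj' := Finset.mem_range.1 (hJI hj)
    constructor
    · intro h5
      by_contra h6
      exact hJ i hi j hj hij ⟨h5, h6⟩
    · exact hadj i hi' j hj' hij
  -- the order
  obtain ⟨g, hg1, hg2⟩ : ∃ g : ℕ → ℕ, (∀ a < 2 * N + 2, g a ∈ J) ∧
      ∀ a < 2 * N + 2, ∀ b < 2 * N + 2, a ≠ b →
        (D.Adj (x (σ (g a)) 0) (y (σ (g b)) 0) ↔ a < b) := by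
    by_cases h5 : c3
    · have h6 : ¬ c4 := fun h => hnot ⟨h5, h⟩
      obtain ⟨g, hg1, hg2⟩ := enum_up J _ hJc
      refine ⟨g, hg1, fun a ha b hb hab => ?_⟩
      have ha' := Finset.mem_range.1 (hJI (hg1 a ha))
      have hb' := Finset.mem_range.1 (hJI (hg1 b hb))
      rcases Nat.lt_or_gt_of_ne hab with h7 | h7
      · exact ⟨fun _ => h7, fun _ => (hcol _ _ (hg2 a b h7 hb) hb').2.2.1.2 h5⟩
      · constructor
        · intro h8
          exact absurd ((hcol _ _ (hg2 b a h7 ha) ha').2.2.2.1 h8.symm) h6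
        · intro h8
          omega
    · have h6 : c4 := hc34.resolve_left h5
      obtain ⟨g, hg1, hg2⟩ := enum_down J _ hJc
      refine ⟨g, hg1, fun a ha b hb hab => ?_⟩
      have ha' := Finset.mem_range.1 (hJI (hg1 a ha))
      have hb' := Finset.mem_range.1 (hJI (hg1 b hb))
      rcases Nat.lt_or_gt_of_ne hab with h7 | h7
      · exact ⟨fun _ => h7, fun _ => ((hcol _ _ (hg2 a b h7 hb) ha').2.2.2.2 h6).symm⟩
      · constructor
        · intro h8
          exact absurd ((hcol _ _ (hg2 b a h7 ha) hb').2.2.1.1 h8) h5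
        · intro h8
          omega
  have hginj : ∀ a < 2 * N + 2, ∀ b < 2 * N + 2, a ≠ b → g a ≠ g b := by
    intro a ha b hb hab h5
    have h6 := hg2 a ha b hb hab
    have h7 := hg2 b hb a ha (fun h => hab h.symm)
    rw [h5] at h6 h7
    have h8 := hxy (g b) (Finset.mem_range.1 (hJI (hg1 b hb)))
    have h9 := h6.1 h8
    have h10 := h7.1 h8
    omega
  refine fin5 hS (fun a => p (σ (g a))) (fun a => q (σ (g a))) ?_ ?_ ?_
  · intro a ha
    exact (hd _ (hσ2 _ (Finset.mem_range.1 (hJI (hg1 a ha))))).p3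
  · intro a ha
    have h5 := hσ2 _ (Finset.mem_range.1 (hJI (hg1 a ha)))
    exact ⟨(hd _ h5).q3, hF.mem_Vst (mem_Spl.1 (hP _ h5)).1 (hd _ h5).q1⟩
  · intro a ha b hb hab
    rw [hJ' _ (hg1 a ha) _ (hg1 b hb) (hginj a ha b hb hab)]
    exact hg2 a ha b hb hab

end Pool.Agent.MPd439b2.W
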