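import Pool.Agent.Lib.MP_d439b2_co.W.SpecM

/-!
# MP_d439b2_co, W, M30: a large induced matching among the vertices which are not deleted
-/

set_option autoImplicit false

namespace Pool.Agent.MPd439b2.W

open Pool.Agent.MPd439b2

namespace stepXAux

variable {V : Type} {D : SimpleGraph V}

open Classical in
theorem card_Z {n : ℕ} {a b : ℕ → V} (him : IM D n a b) {I : Finset ℕ} (hI : ∀ i ∈ I, i < n) :
    (I.image a ∪ I.image b).card = 2 * I.card := by
  rw [Finset.card_union_of_disjoint]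
  · rw [Finset.card_image_of_injOn, Finset.card_image_of_injOn]
    · ring
    · intro i hi j hj hij
      exact him.inj_b (hI i (Finset.mem_coe.mp hi)) (hI j (Finset.mem_coe.mp hj)) hij
    · intro i hi j hj hij
      exact him.inj_a (hI i (Finset.mem_coe.mp hi)) (hI j (Finset.mem_coe.mp hj)) hij
  · rw [Finset.disjoint_left]
    intro v hv hv'
    obtain ⟨i, hi, rfl⟩ := Finset.mem_image.mp hv
    obtain ⟨j, hj, hj'⟩ := Finset.mem_image.mp hv'
    exact him.ne_ab (hI i hi) (hI j hj) hj'.symm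

open Classical in
theorem mem_Z {a b : ℕ → V} {I : Finset ℕ} {v : V} :
    v ∈ I.image a ∪ I.image b ↔ ∃ i ∈ I, v = a i ∨ v = b i := by
  rw [Finset.mem_union, Finset.mem_image, Finset.mem_image]
  constructor
  · rintro (⟨i, hi, h⟩ | ⟨i, hi, h⟩)
    · exact ⟨i, hi, Or.inl h.symm⟩
    · exact ⟨i, hi, Or.inr h.symm⟩
  · rintro ⟨i, hi, h | h⟩
    · exact Or.inl ⟨i, hi, h.symm⟩
    · exact Or.inr ⟨i, hi, h.symm⟩

end stepXAux

open stepXAux in
theorem stepX (hClean : S_Clean) (hUnc : S_Unc) (hForkU : S_ForkU) (hAllU : S_AllU)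
    (hAlphaCel : S_AlphaCel) (hAlphaIn : S_AlphaIn) (hPathE : S_PathE) (hPig : S_Pig)
    (hRunL : S_RunL) (hBetaCel : S_BetaCel) (hBetaIn : S_BetaIn) (hExch : S_Exch) :
    S_StepX := by
  classical
  intro s m₀
  obtain ⟨c₀, n₀, hU⟩ := hUnc s m₀
  obtain ⟨n, hn⟩ := hClean s m₀ (n₀ + (72 + 16 * s) + 20 + 2 * s + (2 * (8 + 2 * s) + 1) +
    c₀ * ((3 * c₀ + 1) * (2 * (36 + 8 * s) + 10 + 3) + 3))
  refine ⟨72 + 16 * s, 36 + 8 * s, n, ?_⟩
  rintro V _ D F hH hF ⟨a₀, b₀, him₀, hV₀⟩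
  obtain ⟨a, b, A, B, hCM, hab⟩ := hn V D a₀ b₀ hH him₀
  generalize hN₁ : (3 * c₀ + 1) * (2 * (36 + 8 * s) + 10 + 3) = N₁ at hCM hab
  generalize hM : c₀ * (N₁ + 3) = M at hCM hab
  generalize hn' : n₀ + (72 + 16 * s) + 20 + 2 * s + (2 * (8 + 2 * s) + 1) + M = n' at hCM hab
  -- the vertices of the matching are not deleted
  have hV : ∀ i < n', a i ∈ Vst F ∧ b i ∈ Vst F := by
    intro i hi
    obtain ⟨j, hj, h | h⟩ := hab i hi
    · rw [h.1, h.2]
      exact hV₀ j hj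
    · rw [h.1, h.2]
      exact (hV₀ j hj).symm
  have hR : ∀ p ∈ F, ∀ i < n', (a i ∈ p.1 → a i ∈ p.2) ∧ (b i ∈ p.1 → b i ∈ p.2) :=
    fun p hp i hi => ⟨(hV i hi).1 p hp, (hV i hi).2 p hp⟩
  rcases (A ∪ B).eq_empty_or_nonempty with hAB | hAB
  · exact Or.inl ((hAllU s m₀ n' V D a b A B hH hCM (by omega) hAB).mono (by omega))
  refine Or.inr ?_
  have hNF : NoFork D (A ∪ B)ᶜ := hForkU s m₀ V D n' a b A B hH hCM (by omega)
  have hUn : ∀ p q, IM D c₀ p q → (∀ i < c₀, p i ∉ A ∧ p i ∉ B ∧ q i ∉ A ∧ q i ∉ B) →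
      ∃ i < c₀, CE D A B (p i) (q i) :=
    fun p q him h => hU V D n' a b p q A B hH hCM (by omega) him h
  rcases hPig c₀ (2 * (8 + 2 * s) + 1) N₁ n' V D a b A B hH.tri hCM (by omega) hNF hUn
    (by omega) with ⟨I, hIc, hI⟩ | ⟨K, hK, hKd, hKu, I, hIc, hI⟩
  · -- clean components
    obtain ⟨X, hX⟩ : ∃ X : Finset V, ∀ v, v ∈ X ↔ ∃ K, CComp D A B K ∧ v ∈ K :=
      ⟨(Set.toFinite {v | ∃ K, CComp D A B K ∧ v ∈ K}).toFinset, fun v => by
        rw [Set.Finite.mem_toFinset]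
        exact Iff.rfl⟩
    obtain ⟨I', hI'I, hI'c⟩ := Finset.exists_subset_card_eq
      (s := I) (n := 8 + 2 * s) (by omega)
    obtain ⟨R, hRc, hRX⟩ := hAlphaCel s m₀ (72 + 16 * s) n' V D a b A B X I' hH hCM (by omega)
      hAB hX (fun i hi => by
        obtain ⟨h1, K, h2, h3, -⟩ := hI i (hI'I hi)
        exact ⟨h1, (hX _).mpr ⟨K, h2, h3⟩⟩) hI'c (by omega)
    refine hExch (8 + 2 * s) (72 + 16 * s) (36 + 8 * s) V D F X R (I.image a ∪ I.image b) hF
      (Or.inl hRX) ?_ ?_ ?_ ?_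
    · rintro p hp ⟨v, hv, hvX⟩ w hw -
      obtain ⟨K, hK, hvK⟩ := (hX v).mp hvX
      exact (hX w).mpr (hAlphaIn s m₀ (72 + 16 * s) (36 + 8 * s) n' V D a b A B p.1 p.2 hH hCM
        (by omega) (hF.cell p hp) (hR p hp) ⟨K, hK, v, hvK, hv⟩ w hw)
    · intro v hv
      obtain ⟨i, hi, h⟩ := mem_Z.mp hv
      obtain ⟨-, K, h2, h3, h4⟩ := hI i hi
      refine (hX v).mpr ⟨K, h2, ?_⟩
      rcases h with rfl | rfl
      · exact h3
      · exact h4
    · intro v hv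
      obtain ⟨i, hi, h⟩ := mem_Z.mp hv
      rcases h with rfl | rfl
      · exact (hV i (hI i hi).1).1
      · exact (hV i (hI i hi).1).2
    · rw [card_Z hCM.im (fun i hi => (hI i hi).1)]
      omega
  · -- one unclean path or cycle
    obtain ⟨l, u, hE⟩ := hPathE V D K (CE D A B) (fun _ _ h => h.symm) hK.1 hKd hKu
    obtain ⟨α, β, hRun, J, hJI, hJc, hJ⟩ := hRunL c₀ (2 * (36 + 8 * s) + 10) l n' V D K (CE D A B)
      u a b I hE hCM.im hI (by rw [hN₁]; exact hIc) (fun p q him h => hUn p q him (fun i hi => by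
        obtain ⟨h1, h2⟩ := h i hi
        have h3 := hK.2.1 h1
        have h4 := hK.2.1 h2
        exact ⟨fun h => h3 (Or.inl h), fun h => h3 (Or.inr h), fun h => h4 (Or.inl h),
          fun h => h4 (Or.inr h)⟩))
    obtain ⟨X, hX⟩ : ∃ X : Finset V, ∀ v, v ∈ X ↔ ∃ j, α + 2 ≤ j ∧ j + 2 ≤ β ∧ u j = v :=
      ⟨(Set.toFinite {v | ∃ j, α + 2 ≤ j ∧ j + 2 ≤ β ∧ u j = v}).toFinset, fun v => by
        rw [Set.Finite.mem_toFinset]
        exact Iff.rfl⟩
    have hZX : J.image a ∪ J.image b ⊆ X := by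
      intro v hv
      obtain ⟨i, hi, h⟩ := mem_Z.mp hv
      obtain ⟨j, k, h1, h2, h3, h4, h5, h6⟩ := hJ i hi
      rcases h with rfl | rfl
      · exact (hX _).mpr ⟨j, h1, h2, h5.symm⟩
      · exact (hX _).mpr ⟨k, h3, h4, h6.symm⟩
    have hZc : (J.image a ∪ J.image b).card = 2 * J.card :=
      card_Z hCM.im (fun i hi => (hI i (hJI hi)).1)
    have hXc : X.card ≤ β - α - 3 := by
      have h1 : X ⊆ (Finset.Icc (α + 2) (β - 2)).image u := by
        intro v hv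
        obtain ⟨j, h1, h2, h3⟩ := (hX v).mp hv
        exact Finset.mem_image.mpr ⟨j, Finset.mem_Icc.mpr ⟨h1, by omega⟩, h3⟩
      have h2 := (Finset.card_le_card h1).trans Finset.card_image_le
      rw [Nat.card_Icc] at h2
      omega
    have hαβ : α + 2 * (36 + 8 * s) + 10 ≤ β := by
      have h1 := Finset.card_le_card hZX
      omega
    obtain ⟨R, hRc, hRX⟩ := hBetaCel s m₀ (72 + 16 * s) (36 + 8 * s) n' l α β V D a b u A B K X
      hH hCM (by omega) hAB hK hE hRun hX hαβ (by omega) (by omega) (by omega)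
    refine hExch (8 + 2 * s) (72 + 16 * s) (36 + 8 * s) V D F X R (J.image a ∪ J.image b) hF
      (Or.inr hRX) ?_ hZX ?_ ?_
    · rintro p hp ⟨v, hv, hvX⟩ w hw hwR
      exact (hX w).mpr (hBetaIn s m₀ (72 + 16 * s) (36 + 8 * s) n' l α β V D a b u A B K p.1 p.2
        hH hCM (by omega) hK hKu hE hRun (by omega) (hF.cell p hp) (hR p hp)
        ⟨v, hv, (hX v).mp hvX⟩ w hw hwR)
    · intro v hv
      obtain ⟨i, hi, h⟩ := mem_Z.mp hv
      rcases h with rfl | rfl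
      · exact (hV i (hI i (hJI hi)).1).1
      · exact (hV i (hI i (hJI hi)).1).2
    · rw [hZc]
      omega

end Pool.Agent.MPd439b2.W
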