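import Pool.Agent.Lib.MP_d439b2_co.W.SpecM

/-!
# MP_d439b2_co, W: almost all edges of an induced matching outside `A ∪ B` are clean
-/

set_option autoImplicit false

namespace Pool.Agent.MPd439b2.W

open Pool.Agent.MPd439b2

namespace UncAux

variable {V : Type} {D : SimpleGraph V}

/-- The union of two induced matchings. -/
theorem join_IM {n c₀ k : ℕ} {a b p q : ℕ → V} {e : ℕ → ℕ} (hab : IM D n a b) (hpq : IM D c₀ p q)
    (he : ∀ j < k, e j < n) (hinj : ∀ i < k, ∀ j < k, e i = e j → i = j)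
    (hnt : ∀ i < c₀, ∀ j < k, ¬ D.Adj (p i) (a (e j)) ∧ ¬ D.Adj (p i) (b (e j)) ∧
      ¬ D.Adj (q i) (a (e j)) ∧ ¬ D.Adj (q i) (b (e j))) :
    IM D (c₀ + k) (fun i => if i < c₀ then p i else a (e (i - c₀)))
      (fun i => if i < c₀ then q i else b (e (i - c₀))) := by
  intro i hi j hj
  dsimp only
  by_cases h1 : i < c₀ <;> by_cases h2 : j < c₀
  · rw [if_pos h1, if_pos h2, if_pos h2, if_pos h1]
    exact hpq i h1 j h2
  · rw [if_pos h1, if_neg h2, if_neg h2, if_pos h1]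
    have h3 := hnt i h1 (j - c₀) (by omega)
    exact ⟨⟨fun h => absurd h h3.2.1, fun h => by omega⟩, h3.1, h3.2.2.2⟩
  · rw [if_neg h1, if_pos h2, if_pos h2, if_neg h1]
    have h3 := hnt j h2 (i - c₀) (by omega)
    exact ⟨⟨fun h => absurd h.symm h3.2.2.1, fun h => by omega⟩, fun h => h3.1 h.symm,
      fun h => h3.2.2.2 h.symm⟩
  · rw [if_neg h1, if_neg h2, if_neg h2, if_neg h1]
    have h3 := hab (e (i - c₀)) (he _ (by omega)) (e (j - c₀)) (he _ (by omega))
    refine ⟨?_, h3.2.1, h3.2.2⟩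
    rw [h3.1]
    constructor
    · intro h
      have h4 := hinj (i - c₀) (by omega) (j - c₀) (by omega) h
      omega
    · intro h
      rw [h]

/-- The core: `A` is not empty. -/
theorem core (h1 : S_Fab) (h2 : S_Ind) {s m₀ n c₀ : ℕ} {a b p q : ℕ → V} {A B : Set V}
    (hH : Hyp s m₀ D) (hCM : CM D n a b A B)
    (hc₀ : c₀ = (3 + 2 * s) + 2 * ((2 * (3 + 2 * s) + 5) * m₀) + 1)
    (hn : 4 * c₀ + (3 + 2 * s) + 4 ≤ n) (hpq : IM D c₀ p q)
    (hout : ∀ i < c₀, p i ∉ A ∧ p i ∉ B ∧ q i ∉ A ∧ q i ∉ B) (hA : A.Nonempty) :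
    ∃ i < c₀, CE D A B (p i) (q i) := by
  classical
  obtain ⟨x₀, hx₀⟩ := hA
  set t : ℕ := 3 + 2 * s with ht
  have htri := hH.tri
  -- the untouched indices
  set U : Finset ℕ := (Finset.range c₀).biUnion
    (fun i => Jt D n a b (p i) ∪ Jt D n a b (q i)) with hU
  have hUc : U.card ≤ c₀ * 4 := by
    have h3 := Finset.card_biUnion_le_card_mul (Finset.range c₀)
      (fun i => Jt D n a b (p i) ∪ Jt D n a b (q i)) 4 (by
        intro i hi
        have hi' := Finset.mem_range.1 hi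
        have h4 := hCM.few (p i) (hout i hi').1 (hout i hi').2.1
        have h5 := hCM.few (q i) (hout i hi').2.2.1 (hout i hi').2.2.2
        exact (Finset.card_union_le _ _).trans (by omega))
    rw [Finset.card_range] at h3
    exact h3
  set T : Finset ℕ := Finset.range n \ U with hT
  have hTc : t + 4 ≤ T.card := by
    have h3 : (Finset.range n).card - U.card ≤ T.card := Finset.le_card_sdiff U (Finset.range n)
    rw [Finset.card_range] at h3
    omega
  obtain ⟨T', hT'T, hT'c⟩ := Finset.exists_subset_card_eq hTc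
  -- enumeration
  set o := T'.orderEmbOfFin hT'c with ho
  set e : ℕ → ℕ := fun j => if h : j < t + 4 then o ⟨j, h⟩ else 0 with he
  have heT : ∀ j < t + 4, e j ∈ T := by
    intro j hj
    change (if h : j < t + 4 then o ⟨j, h⟩ else 0) ∈ T
    rw [dif_pos hj]
    exact hT'T (Finset.orderEmbOfFin_mem T' hT'c _)
  have hen : ∀ j < t + 4, e j < n := fun j hj =>
    Finset.mem_range.1 (Finset.mem_sdiff.1 (heT j hj)).1
  have heinj : ∀ i < t + 4, ∀ j < t + 4, e i = e j → i = j := by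
    intro i hi j hj hij
    change (if h : i < t + 4 then o ⟨i, h⟩ else 0) = (if h : j < t + 4 then o ⟨j, h⟩ else 0) at hij
    rw [dif_pos hi, dif_pos hj] at hij
    have h3 := o.injective hij
    exact congrArg Fin.val h3
  have hnt : ∀ i < c₀, ∀ j < t + 4, ¬ D.Adj (p i) (a (e j)) ∧ ¬ D.Adj (p i) (b (e j)) ∧
      ¬ D.Adj (q i) (a (e j)) ∧ ¬ D.Adj (q i) (b (e j)) := by
    intro i hi j hj
    have h3 := (Finset.mem_sdiff.1 (heT j hj)).2
    rw [hU, Finset.mem_biUnion] at h3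
    push Not at h3
    have h4 := h3 i (Finset.mem_range.2 hi)
    rw [Finset.mem_union, mem_Jt, mem_Jt] at h4
    push Not at h4
    have h5 := h4.1 (hen j hj)
    have h6 := h4.2 (hen j hj)
    exact ⟨h5.1, h5.2, h6.1, h6.2⟩
  have hIM := join_IM hCM.im hpq hen heinj hnt
  set P2 : ℕ → V := fun i => if i < c₀ then p i else a (e (i - c₀)) with hP2
  set Q2 : ℕ → V := fun i => if i < c₀ then q i else b (e (i - c₀)) with hQ2
  have hP2l : ∀ i < c₀, P2 i = p i := fun i hi => if_pos hi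
  have hQ2l : ∀ i < c₀, Q2 i = q i := fun i hi => if_pos hi
  have hP2r : ∀ j, P2 (c₀ + j) = a (e j) := by
    intro j
    change (if c₀ + j < c₀ then p (c₀ + j) else a (e (c₀ + j - c₀))) = _
    rw [if_neg (by omega), Nat.add_sub_cancel_left]
  have hQ2r : ∀ j, Q2 (c₀ + j) = b (e j) := by
    intro j
    change (if c₀ + j < c₀ then q (c₀ + j) else b (e (c₀ + j - c₀))) = _
    rw [if_neg (by omega), Nat.add_sub_cancel_left]
  set W : Finset ℕ := (Finset.range (t + 4)).map (addLeftEmbedding c₀) with hW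
  have hWc : W.card = t + 4 := by rw [hW, Finset.card_map, Finset.card_range]
  have hWm : ∀ i ∈ W, ∃ j < t + 4, i = c₀ + j := by
    intro i hi
    rw [hW, Finset.mem_map] at hi
    obtain ⟨j, hj, rfl⟩ := hi
    exact ⟨j, Finset.mem_range.1 hj, rfl⟩
  -- (*)
  have star : ∀ (C : Finset V) (O : Finset ℕ), C.Nonempty →
      (∀ j < t + 4, (∀ x ∈ C, D.Adj x (a (e j))) ∨ (∀ x ∈ C, D.Adj x (b (e j)))) →
      (∀ i ∈ O, i < c₀ ∧ (∃ x ∈ C, ¬ D.Adj x (p i)) ∧ (∃ x ∈ C, ¬ D.Adj x (q i))) →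
      O.card ≤ t := by
    intro C O hC hCa hO
    refine h1 s V D (c₀ + (t + 4)) P2 Q2 C W O htri hH.noF hIM hC ?_ (by omega) ?_
    · intro i hi
      obtain ⟨j, hj, rfl⟩ := hWm i hi
      refine ⟨by omega, ?_⟩
      rw [hP2r, hQ2r]
      rcases hCa j hj with h3 | h3
      · exact Or.inl fun x hx y hy => by
          rw [Finset.mem_singleton.1 hy]
          exact h3 x hx
      · exact Or.inr fun x hx y hy => by
          rw [Finset.mem_singleton.1 hy]
          exact h3 x hx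
    · intro i hi
      obtain ⟨h3, ⟨x, hx, hxp⟩, ⟨y, hy, hyq⟩⟩ := hO i hi
      refine ⟨by omega, ?_, ?_⟩
      · rw [hP2l i h3]
        exact fun h => hxp (h x hx (p i) (Finset.mem_singleton_self _))
      · rw [hQ2l i h3]
        exact fun h => hyq (h y hy (q i) (Finset.mem_singleton_self _))
  -- (**)
  have star2 : ∀ (y : V) (I : Finset ℕ), y ∈ B →
      (∀ i ∈ I, i < c₀ ∧ ((D.Adj x₀ (p i) ∧ D.Adj y (p i)) ∨ (D.Adj x₀ (q i) ∧ D.Adj y (q i)))) →
      I.card ≤ 2 := by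
    intro y I hy hI
    by_contra h3
    have h4 := h1 s V D (c₀ + (t + 4)) P2 Q2 {x₀, y} I W htri hH.noF hIM ⟨x₀, by simp⟩ (by
      intro i hi
      obtain ⟨h5, h6⟩ := hI i hi
      refine ⟨by omega, ?_⟩
      rw [hP2l i h5, hQ2l i h5]
      rcases h6 with h6 | h6
      · left
        intro x hx z hz
        rw [Finset.mem_singleton.1 hz]
        rcases Finset.mem_insert.1 hx with h7 | h7
        · rw [h7]
          exact h6.1
        · rw [Finset.mem_singleton.1 h7]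
          exact h6.2
      · right
        intro x hx z hz
        rw [Finset.mem_singleton.1 hz]
        rcases Finset.mem_insert.1 hx with h7 | h7
        · rw [h7]
          exact h6.1
        · rw [Finset.mem_singleton.1 h7]
          exact h6.2) (by omega) (by
      intro i hi
      obtain ⟨j, hj, rfl⟩ := hWm i hi
      refine ⟨by omega, ?_, ?_⟩
      · rw [hP2r]
        intro h
        exact hCM.nB htri hy (hen j hj) (h y (by simp) _ (Finset.mem_singleton_self _))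
      · rw [hQ2r]
        intro h
        exact hCM.nA htri hx₀ (hen j hj) (h x₀ (by simp) _ (Finset.mem_singleton_self _)))
    omega
  -- the indices touched by x₀
  set I₁ : Finset ℕ := (Finset.range c₀).filter
    (fun i => D.Adj x₀ (p i) ∨ D.Adj x₀ (q i)) with hI₁
  have hI₁c : c₀ ≤ I₁.card + t := by
    have h3 := star {x₀} ((Finset.range c₀).filter
      (fun i => ¬ (D.Adj x₀ (p i) ∨ D.Adj x₀ (q i)))) ⟨x₀, by simp⟩
      (fun j hj => Or.inl fun x hx => by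
        rw [Finset.mem_singleton.1 hx]
        exact hCM.cA x₀ hx₀ _ (hen j hj)) (by
      intro i hi
      obtain ⟨h4, h5⟩ := Finset.mem_filter.1 hi
      push Not at h5
      exact ⟨Finset.mem_range.1 h4, ⟨x₀, by simp, h5.1⟩, ⟨x₀, by simp, h5.2⟩⟩)
    have h4 : I₁.card + ((Finset.range c₀).filter
        (fun i => ¬ (D.Adj x₀ (p i) ∨ D.Adj x₀ (q i)))).card = (Finset.range c₀).card :=
      Finset.card_filter_add_card_filter_not (s := Finset.range c₀)
        (fun i => D.Adj x₀ (p i) ∨ D.Adj x₀ (q i))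
    rw [Finset.card_range] at h4
    omega
  set Pf : ℕ → V := fun i => if D.Adj x₀ (p i) then p i else q i with hPf
  set Qf : ℕ → V := fun i => if D.Adj x₀ (p i) then q i else p i with hQf
  have hPQ : ∀ i, (D.Adj x₀ (p i) ∧ Pf i = p i ∧ Qf i = q i) ∨
      (¬ D.Adj x₀ (p i) ∧ Pf i = q i ∧ Qf i = p i) := by
    intro i
    by_cases h : D.Adj x₀ (p i)
    · exact Or.inl ⟨h, if_pos h, if_pos h⟩
    · exact Or.inr ⟨h, if_neg h, if_neg h⟩
  have hI₁m : ∀ i ∈ I₁, i < c₀ ∧ D.Adj x₀ (Pf i) := by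
    intro i hi
    obtain ⟨h3, h4⟩ := Finset.mem_filter.1 hi
    refine ⟨Finset.mem_range.1 h3, ?_⟩
    rcases hPQ i with ⟨h5, h6, -⟩ | ⟨h5, h6, -⟩
    · rw [h6]
      exact h5
    · rw [h6]
      exact h4.resolve_left h5
  have hadj : ∀ i < c₀, D.Adj (Pf i) (Qf i) := by
    intro i hi
    rcases hPQ i with ⟨-, h6, h7⟩ | ⟨-, h6, h7⟩
    · rw [h6, h7]
      exact hpq.edge hi
    · rw [h6, h7]
      exact (hpq.edge hi).symm
  -- (3)
  have c3 : ∀ x ∈ A, ∀ J ⊆ I₁, (∀ j ∈ J, ¬ D.Adj x (Pf j)) → J.card ≤ t := by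
    intro x hx J hJ hJx
    refine star {x₀, x} J ⟨x₀, by simp⟩ ?_ ?_
    · intro j hj
      left
      intro z hz
      rcases Finset.mem_insert.1 hz with h7 | h7
      · rw [h7]
        exact hCM.cA x₀ hx₀ _ (hen j hj)
      · rw [Finset.mem_singleton.1 h7]
        exact hCM.cA x hx _ (hen j hj)
    · intro i hi
      obtain ⟨h3, h4⟩ := hI₁m i (hJ hi)
      have h5 := hJx i hi
      refine ⟨h3, ?_, ?_⟩
      · rcases hPQ i with ⟨-, h6, -⟩ | ⟨h6, -, -⟩
        · exact ⟨x, by simp, by rw [← h6]; exact h5⟩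
        · exact ⟨x₀, by simp, h6⟩
      · rcases hPQ i with ⟨h6, -, -⟩ | ⟨-, h6, -⟩
        · exact ⟨x₀, by simp, fun h => htri x₀ (p i) (q i) h6 h (hpq.edge h3)⟩
        · exact ⟨x, by simp, by rw [← h6]; exact h5⟩
  -- (4)
  have c4 : ∀ y ∈ B, ∀ J ⊆ I₁, (∀ j ∈ J, ¬ D.Adj y (Qf j)) → J.card ≤ t + 2 := by
    intro y hy J hJ hJy
    have h3 := star {y} (J.filter fun i => ¬ D.Adj y (Pf i)) ⟨y, by simp⟩
      (fun j hj => Or.inr fun x hx => by
        rw [Finset.mem_singleton.1 hx]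
        exact hCM.cB y hy _ (hen j hj)) (by
      intro i hi
      obtain ⟨h4, h5⟩ := Finset.mem_filter.1 hi
      have h6 := hJy i h4
      refine ⟨(hI₁m i (hJ h4)).1, ?_, ?_⟩
      · rcases hPQ i with ⟨-, h7, -⟩ | ⟨-, -, h7⟩
        · exact ⟨y, by simp, by rw [← h7]; exact h5⟩
        · exact ⟨y, by simp, by rw [← h7]; exact h6⟩
      · rcases hPQ i with ⟨-, -, h7⟩ | ⟨-, h7, -⟩
        · exact ⟨y, by simp, by rw [← h7]; exact h6⟩
        · exact ⟨y, by simp, by rw [← h7]; exact h5⟩)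
    have h4 := star2 y (J.filter fun i => D.Adj y (Pf i)) hy (by
      intro i hi
      obtain ⟨h5, h6⟩ := Finset.mem_filter.1 hi
      obtain ⟨h7, h8⟩ := hI₁m i (hJ h5)
      refine ⟨h7, ?_⟩
      rcases hPQ i with ⟨-, h9, -⟩ | ⟨-, h9, -⟩
      · rw [h9] at h8 h6
        exact Or.inl ⟨h8, h6⟩
      · rw [h9] at h8 h6
        exact Or.inr ⟨h8, h6⟩)
    have h5 := Finset.card_filter_add_card_filter_not (s := J) (fun i => D.Adj y (Pf i))
    omega
  -- (5)
  have c5 : ∀ (S : Set V) (F : ℕ → V), (∀ x ∈ S, ∀ J ⊆ I₁, (∀ j ∈ J, ¬ D.Adj x (F j)) →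
      J.card ≤ t + 2) →
      (I₁.filter fun i => ∃ x ∈ S, ¬ D.Adj x (F i)).card ≤ (2 * (t + 2) + 1) * m₀ := by
    intro S F hSF
    have hch : ∀ i, ∃ x : V, i ∈ I₁.filter (fun i => ∃ x ∈ S, ¬ D.Adj x (F i)) →
        x ∈ S ∧ ¬ D.Adj x (F i) := by
      intro i
      by_cases h : i ∈ I₁.filter (fun i => ∃ x ∈ S, ¬ D.Adj x (F i))
      · obtain ⟨-, x, hx, hxF⟩ := Finset.mem_filter.1 h
        exact ⟨x, fun _ => ⟨hx, hxF⟩⟩
      · exact ⟨x₀, fun h' => absurd h' h⟩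
    choose x hx using hch
    refine h2 V D m₀ (t + 2) _ x F hH.noC (fun i hi => (hx i hi).2) ?_
    intro i hi J hJ hJx
    exact hSF (x i) (hx i hi).1 J (hJ.trans (Finset.filter_subset _ _)) hJx
  have hbA := c5 A Pf (fun x hx J hJ hJx => (c3 x hx J hJ hJx).trans (by omega))
  have hbB := c5 B Qf c4
  obtain ⟨i, hiI, hiA, hiB⟩ : ∃ i ∈ I₁, (i ∉ I₁.filter fun i => ∃ x ∈ A, ¬ D.Adj x (Pf i)) ∧
      (i ∉ I₁.filter fun i => ∃ x ∈ B, ¬ D.Adj x (Qf i)) := by
    by_contra hc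
    push Not at hc
    have h3 : I₁ ⊆ (I₁.filter fun i => ∃ x ∈ A, ¬ D.Adj x (Pf i)) ∪
        (I₁.filter fun i => ∃ x ∈ B, ¬ D.Adj x (Qf i)) := by
      intro i hi
      rw [Finset.mem_union]
      by_cases h4 : i ∈ I₁.filter fun i => ∃ x ∈ A, ¬ D.Adj x (Pf i)
      · exact Or.inl h4
      · exact Or.inr (hc i hi h4)
    have h4 := (Finset.card_le_card h3).trans (Finset.card_union_le _ _)
    have h5 : (2 * (t + 2) + 1) * m₀ = (2 * t + 5) * m₀ := by ring
    rw [h5] at hbA hbB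
    omega
  have hi₀ := (hI₁m i hiI).1
  have hcA : ∀ x ∈ A, D.Adj x (Pf i) := by
    intro x hx
    by_contra h
    exact hiA (Finset.mem_filter.2 ⟨hiI, x, hx, h⟩)
  have hcB : ∀ x ∈ B, D.Adj x (Qf i) := by
    intro x hx
    by_contra h
    exact hiB (Finset.mem_filter.2 ⟨hiI, x, hx, h⟩)
  have hTP : TyA D A B (Pf i) := ⟨fun x hx => (hcA x hx).symm, fun x hx h =>
    htri (Qf i) (Pf i) x (hadj i hi₀).symm (hcB x hx).symm h⟩
  have hTQ : TyA D B A (Qf i) := ⟨fun x hx => (hcB x hx).symm, fun x hx h =>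
    htri (Pf i) (Qf i) x (hadj i hi₀) (hcA x hx).symm h⟩
  refine ⟨i, hi₀, hpq.edge hi₀, ?_⟩
  rcases hPQ i with ⟨-, h6, h7⟩ | ⟨-, h6, h7⟩
  · rw [h6] at hTP
    rw [h7] at hTQ
    exact Or.inl ⟨hTP, hTQ⟩
  · rw [h6] at hTP
    rw [h7] at hTQ
    exact Or.inr ⟨hTQ, hTP⟩

end UncAux

open UncAux in
theorem unc (h1 : S_Fab) (h2 : S_Ind) : S_Unc := by
  intro s m₀
  refine ⟨(3 + 2 * s) + 2 * ((2 * (3 + 2 * s) + 5) * m₀) + 1,
    4 * ((3 + 2 * s) + 2 * ((2 * (3 + 2 * s) + 5) * m₀) + 1) + (3 + 2 * s) + 4, ?_⟩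
  intro V D n a b p q A B hH hCM hn hpq hout
  rcases A.eq_empty_or_nonempty with hA | hA
  · rcases B.eq_empty_or_nonempty with hB | hB
    · subst hA
      subst hB
      refine ⟨0, by omega, hpq.edge (by omega), Or.inl ⟨⟨?_, ?_⟩, ⟨?_, ?_⟩⟩⟩ <;>
        intro x hx <;> exact absurd hx (Set.notMem_empty x)
    · obtain ⟨i, hi, h⟩ := core h1 h2 hH hCM.swap rfl hn hpq
        (fun i hi => ⟨(hout i hi).2.1, (hout i hi).1, (hout i hi).2.2.2, (hout i hi).2.2.1⟩) hB
      exact ⟨i, hi, h.swap⟩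
  · exact core h1 h2 hH hCM rfl hn hpq hout hA

end Pool.Agent.MPd439b2.W
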