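import Pool.Agent.Lib.MP_d439b2_co.W.FinalW
import Pool.Agent.Lib.MP_d439b2_co.W.AllU
import Pool.Agent.Lib.MP_d439b2_co.W.AlphaCel
import Pool.Agent.Lib.MP_d439b2_co.W.AlphaIn
import Pool.Agent.Lib.MP_d439b2_co.W.BetaCel
import Pool.Agent.Lib.MP_d439b2_co.W.BetaIn
import Pool.Agent.Lib.MP_d439b2_co.W.CIn
import Pool.Agent.Lib.MP_d439b2_co.W.Clean
import Pool.Agent.Lib.MP_d439b2_co.W.CompT
import Pool.Agent.Lib.MP_d439b2_co.W.Crs
import Pool.Agent.Lib.MP_d439b2_co.W.Dig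
import Pool.Agent.Lib.MP_d439b2_co.W.Exch
import Pool.Agent.Lib.MP_d439b2_co.W.F1Row
import Pool.Agent.Lib.MP_d439b2_co.W.Fab
import Pool.Agent.Lib.MP_d439b2_co.W.FinF1
import Pool.Agent.Lib.MP_d439b2_co.W.ForkU
import Pool.Agent.Lib.MP_d439b2_co.W.HypI
import Pool.Agent.Lib.MP_d439b2_co.W.Ind
import Pool.Agent.Lib.MP_d439b2_co.W.LayD2
import Pool.Agent.Lib.MP_d439b2_co.W.LayFree
import Pool.Agent.Lib.MP_d439b2_co.W.LayPQ
import Pool.Agent.Lib.MP_d439b2_co.W.LayUn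
import Pool.Agent.Lib.MP_d439b2_co.W.LemI
import Pool.Agent.Lib.MP_d439b2_co.W.Lift
import Pool.Agent.Lib.MP_d439b2_co.W.LiftT
import Pool.Agent.Lib.MP_d439b2_co.W.Mod
import Pool.Agent.Lib.MP_d439b2_co.W.NoIM
import Pool.Agent.Lib.MP_d439b2_co.W.NumC
import Pool.Agent.Lib.MP_d439b2_co.W.PQ3
import Pool.Agent.Lib.MP_d439b2_co.W.PathE
import Pool.Agent.Lib.MP_d439b2_co.W.Pig
import Pool.Agent.Lib.MP_d439b2_co.W.Rel
import Pool.Agent.Lib.MP_d439b2_co.W.RelX
import Pool.Agent.Lib.MP_d439b2_co.W.RunL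
import Pool.Agent.Lib.MP_d439b2_co.W.Split
import Pool.Agent.Lib.MP_d439b2_co.W.StepX
import Pool.Agent.Lib.MP_d439b2_co.W.Unc
import Pool.Agent.Lib.MP_d439b2_co.W.WidM

/-!
# MP_d439b2_co, W: `S_{1,1,2} + 4 P_2` without width assumption, final form (helper28)
-/

set_option autoImplicit false

namespace Pool.Agent.MPd439b2.W

open Pool.Agent.MPd439b2

theorem fabF : S_Fab := fab mod

theorem indMF : S_Ind := indM dig

theorem forkUF : S_ForkU := forkU mod

theorem layFreeF : S_LayFree := layFree compT layD2 layPQ layUn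

theorem lemIF : S_LemI := lemI mod forkUF

theorem cInF : S_CIn := cIn lemIF

theorem stepXF : S_StepX :=
  stepX (clean fabF indMF) (unc fabF indMF) forkUF (allU forkUF layFreeF)
    (alphaCel forkUF layFreeF) (alphaIn lemIF cInF) pathE (pig compT pQ3 numC) runL
    (betaCel layD2) (betaIn lemIF cInF) exch

theorem noIMF : S_NoIM := noIM (widM gen sun ramC (x1 tri atoms fSub) (x2 tri atoms fSub)) hypI bwF

theorem splitF : S_Split := split ramC dig rel (relX (crs mod) rel)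

/-- Bounded layouts of the graphs without `S_{1,1,2} + 4 P_2`. -/
theorem finF1F : S_FinF1 := finF1 noIMF stepXF splitF (liftM liftT)

/-- `(3 P_1, K_s ∨ co(S_{1,1,2} + 4 P_2))` is bounded. -/
theorem f1RowF : S_F1Row := f1Row finF1F layC coM layCW

end Pool.Agent.MPd439b2.W
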