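import Pool.Agent.Lib.MP_d439b2_co.W.SpecD

/-!
# MP_d439b2_co, W, LayC: layouts of the complement
-/

set_option autoImplicit false

namespace Pool.Agent.MPd439b2.W

open Pool.Agent.MPd439b2

private theorem layC_types {V : Type} (D : SimpleGraph V) (k : ℕ) (A : Set V)
    (h : (Types D A).encard ≤ k) : (Types Dᶜ A).encard ≤ (k + 1 : ℕ) := by
  have hsub : Types Dᶜ A ⊆ (fun T => Aᶜ \ T) '' (Types D A ∪ {∅}) := by
    rintro T ⟨-, a, ha, rfl⟩
    refine ⟨D.neighborSet a \ A, ?_, ?_⟩
    · rcases Set.eq_empty_or_nonempty (D.neighborSet a \ A) with h0 | h0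
      · exact Or.inr h0
      · exact Or.inl ⟨h0, a, ha, rfl⟩
    ext v
    simp only [Set.mem_sdiff, Set.mem_compl_iff, SimpleGraph.mem_neighborSet,
      SimpleGraph.compl_adj, not_and, not_not]
    constructor
    · rintro ⟨h1, h2⟩
      refine ⟨⟨?_, fun h3 => h1 (h2 h3)⟩, h1⟩
      rintro rfl
      exact h1 ha
    · rintro ⟨⟨_, h2⟩, h3⟩
      exact ⟨h3, fun h4 => absurd h4 h2⟩
  calc (Types Dᶜ A).encard ≤ ((fun T => Aᶜ \ T) '' (Types D A ∪ {∅})).encard :=
        Set.encard_le_encard hsub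
    _ ≤ (Types D A ∪ {∅}).encard := Set.encard_image_le _ _
    _ ≤ (Types D A).encard + ({∅} : Set (Set V)).encard := Set.encard_union_le _ _
    _ ≤ k + 1 := by
        rw [Set.encard_singleton]
        gcongr
    _ = (k + 1 : ℕ) := by push_cast; rfl

theorem layC : S_LayC := by
  intro V D k A h
  induction h with
  | empty => exact Lay.empty
  | single v hv => exact Lay.single v (layC_types D k _ hv)
  | union _ _ hd hk ihA ihB => exact Lay.union ihA ihB hd (layC_types D k _ hk)

end Pool.Agent.MPd439b2.W
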