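import Pool.Agent.Lib.MP_d439b2_co.W.SpecE

/-!
# MP_d439b2_co, W: a large co-matching contains everything bipartite (E10)
-/

set_option autoImplicit false

namespace Pool.Agent.MPd439b2.W

open Pool.Agent.MPd439b2

namespace CoMAux

theorem conn_of {V : Type} (G : SimpleGraph V) (X : Set V) (hne : X.Nonempty)
    (h : ∀ x ∈ X, ∀ y ∈ X, x ≠ y → G.Adj x y) : (G.induce X).Connected := by
  have : Nonempty X := hne.to_subtype
  refine ⟨fun u v => ?_⟩
  by_cases huv : u = v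
  · subst huv; exact SimpleGraph.Reachable.refl _
  · refine SimpleGraph.Adj.reachable ?_
    have : (u : V) ≠ v := fun h => huv (Subtype.ext h)
    exact h u u.2 v v.2 this

/-- the index set of the vertex `i` -/
def I {N : ℕ} (F : SimpleGraph (Fin N)) (col : Fin N → Bool) (i : Fin N) : Set ℕ :=
  {t | ∃ x y : Fin N, t = x.val * N + y.val ∧
    ((x = i ∧ y = i) ∨ (col x ≠ col y ∧ ¬ F.Adj x y ∧ (x = i ∨ y = i)))}

theorem code_inj {N : ℕ} {x y x' y' : Fin N} (h : x.val * N + y.val = x'.val * N + y'.val) :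
    x = x' ∧ y = y' := by
  have hN : 0 < N := lt_of_le_of_lt (Nat.zero_le _) x.2
  have h1 : (x.val * N + y.val) % N = y.val := by
    rw [Nat.mul_comm, Nat.mul_add_mod, Nat.mod_eq_of_lt y.2]
  have h2 : (x'.val * N + y'.val) % N = y'.val := by
    rw [Nat.mul_comm, Nat.mul_add_mod, Nat.mod_eq_of_lt y'.2]
  have hy : y.val = y'.val := by rw [← h1, ← h2, h]
  have hx : x.val * N = x'.val * N := by omega
  exact ⟨Fin.ext (Nat.eq_of_mul_eq_mul_right hN hx), Fin.ext hy⟩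

theorem code_lt {N : ℕ} (x y : Fin N) : x.val * N + y.val < N * N := by
  have h1 : (x.val + 1) * N ≤ N * N := Nat.mul_le_mul_right N x.2
  have h2 := y.2
  rw [Nat.add_mul] at h1
  omega

theorem I_lt {N : ℕ} {F : SimpleGraph (Fin N)} {col : Fin N → Bool} {i : Fin N} {t : ℕ}
    (h : t ∈ I F col i) : t < N * N := by
  obtain ⟨x, y, rfl, _⟩ := h
  exact code_lt x y

theorem I_inter {N : ℕ} {F : SimpleGraph (Fin N)} {col : Fin N → Bool} {i j : Fin N} (hij : i ≠ j)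
    {t : ℕ} (h : t ∈ I F col i) (h' : t ∈ I F col j) : col i ≠ col j ∧ ¬ F.Adj i j := by
  obtain ⟨x, y, rfl, hxy⟩ := h
  obtain ⟨x', y', he, hxy'⟩ := h'
  obtain ⟨rfl, rfl⟩ := code_inj he
  rcases hxy with ⟨rfl, rfl⟩ | ⟨hc, hF, hi⟩
  · rcases hxy' with ⟨h1, _⟩ | ⟨hc', _, _⟩
    · exact absurd h1 hij
    · exact absurd rfl hc'
  · rcases hxy' with ⟨h1, h2⟩ | ⟨_, _, hj⟩
    · rw [h1, h2] at hc; exact absurd rfl hc
    · rcases hi with rfl | rfl
      · rcases hj with h1 | rfl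
        · exact absurd h1 hij
        · exact ⟨hc, hF⟩
      · rcases hj with rfl | h1
        · exact ⟨fun h => hc h.symm, fun h => hF h.symm⟩
        · exact absurd h1 hij

/-- the pieces of the model, as sets of tagged indices -/
def P {N s : ℕ} (F : SimpleGraph (Fin N)) (col : Fin N → Bool) : Fin s ⊕ Fin N → Set (Bool × ℕ)
  | Sum.inl q => {u | u.2 = N * N + q.val}
  | Sum.inr i => {u | u.1 = col i ∧ u.2 ∈ I F col i}

/-- the vertex with the given tag and index -/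
def vl {V : Type} (a b : ℕ → V) (u : Bool × ℕ) : V := if u.1 = true then a u.2 else b u.2

theorem third (m : ℕ) (hm : 3 ≤ m) (t u : ℕ) : ∃ x < m, x ≠ t ∧ x ≠ u := by
  by_cases h0 : 0 ≠ t ∧ 0 ≠ u
  · exact ⟨0, by omega, h0⟩
  by_cases h1 : 1 ≠ t ∧ 1 ≠ u
  · exact ⟨1, by omega, h1⟩
  exact ⟨2, by omega, by omega, by omega⟩

section

variable {V : Type} {D : SimpleGraph V} {m : ℕ} {a b : ℕ → V}

theorem aa (hm : 3 ≤ m) (htri : TriFree D) (hab : ∀ i < m, ∀ j < m, (D.Adj (a i) (b j) ↔ i ≠ j))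
    {t u : ℕ} (ht : t < m) (hu : u < m) (htu : t ≠ u) : a t ≠ a u ∧ ¬ D.Adj (a t) (a u) := by
  constructor
  · intro h
    have h1 := (hab t ht u hu).2 htu
    rw [h] at h1
    exact (hab u hu u hu).1 h1 rfl
  · obtain ⟨x, hx, hxt, hxu⟩ := third m hm t u
    exact htri (b x) (a t) (a u) ((hab t ht x hx).2 hxt.symm).symm ((hab u hu x hx).2 hxu.symm).symm

theorem bb (hm : 3 ≤ m) (htri : TriFree D) (hab : ∀ i < m, ∀ j < m, (D.Adj (a i) (b j) ↔ i ≠ j))
    {t u : ℕ} (ht : t < m) (hu : u < m) (htu : t ≠ u) : b t ≠ b u ∧ ¬ D.Adj (b t) (b u) := by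
  constructor
  · intro h
    have h1 := (hab u hu t ht).2 htu.symm
    rw [h] at h1
    exact (hab u hu u hu).1 h1 rfl
  · obtain ⟨x, hx, hxt, hxu⟩ := third m hm t u
    exact htri (a x) (b t) (b u) ((hab x hx t ht).2 hxt) ((hab x hx u hu).2 hxu)

theorem ab_ne (hm : 3 ≤ m) (htri : TriFree D)
    (hab : ∀ i < m, ∀ j < m, (D.Adj (a i) (b j) ↔ i ≠ j))
    {t u : ℕ} (ht : t < m) (hu : u < m) : a t ≠ b u := by
  intro h
  by_cases htu : t = u
  · subst htu
    obtain ⟨x, hx, hxt, _⟩ := third m hm t t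
    obtain ⟨y, hy, hyt, hyx⟩ := third m hm t x
    have h1 : D.Adj (a t) (a x) := by
      rw [h]; exact ((hab x hx t ht).2 hxt).symm
    have h2 : D.Adj (a t) (b y) := (hab t ht y hy).2 hyt.symm
    exact htri (a t) (a x) (b y) h1 h2 ((hab x hx y hy).2 hyx.symm)
  · have h1 := (hab t ht u hu).2 htu
    rw [h] at h1
    exact D.loopless.irrefl _ h1

theorem vl_ne (hm : 3 ≤ m) (htri : TriFree D)
    (hab : ∀ i < m, ∀ j < m, (D.Adj (a i) (b j) ↔ i ≠ j))
    {u v : Bool × ℕ} (hu : u.2 < m) (hv : v.2 < m) (huv : u ≠ v) : vl a b u ≠ vl a b v := by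
  obtain ⟨c, t⟩ := u
  obtain ⟨c', t'⟩ := v
  simp only at hu hv
  cases c <;> cases c' <;> simp only [vl, if_true, Bool.false_eq_true, if_false]
  · exact (bb hm htri hab hu hv (fun h => huv (by rw [h]))).1
  · exact (ab_ne hm htri hab hv hu).symm
  · exact ab_ne hm htri hab hu hv
  · exact (aa hm htri hab hu hv (fun h => huv (by rw [h]))).1

theorem vl_adj (hm : 3 ≤ m) (htri : TriFree D)
    (hab : ∀ i < m, ∀ j < m, (D.Adj (a i) (b j) ↔ i ≠ j))
    {u v : Bool × ℕ} (hu : u.2 < m) (hv : v.2 < m) :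
    Dᶜ.Adj (vl a b u) (vl a b v) ↔ (u.1 = v.1 ∧ u.2 ≠ v.2) ∨ (u.1 ≠ v.1 ∧ u.2 = v.2) := by
  obtain ⟨c, t⟩ := u
  obtain ⟨c', t'⟩ := v
  simp only at hu hv
  rw [SimpleGraph.compl_adj]
  cases c <;> cases c'
  · change b t ≠ b t' ∧ ¬ D.Adj (b t) (b t') ↔
      (false = false ∧ t ≠ t') ∨ (false ≠ false ∧ t = t')
    constructor
    · rintro ⟨h1, _⟩
      exact Or.inl ⟨rfl, fun h => h1 (by rw [h])⟩
    · rintro (⟨_, h⟩ | ⟨h, _⟩)
      · exact bb hm htri hab hu hv h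
      · exact absurd rfl h
  · change b t ≠ a t' ∧ ¬ D.Adj (b t) (a t') ↔
      (false = true ∧ t ≠ t') ∨ (false ≠ true ∧ t = t')
    constructor
    · rintro ⟨_, h1⟩
      refine Or.inr ⟨Bool.false_ne_true, ?_⟩
      by_contra h
      exact h1 ((hab t' hv t hu).2 (fun h' => h h'.symm)).symm
    · rintro (⟨h, _⟩ | ⟨_, h⟩)
      · exact absurd h Bool.false_ne_true
      · subst h
        refine ⟨(ab_ne hm htri hab hu hu).symm, fun h => ?_⟩
        exact (hab t hu t hu).1 h.symm rfl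
  · change a t ≠ b t' ∧ ¬ D.Adj (a t) (b t') ↔
      (true = false ∧ t ≠ t') ∨ (true ≠ false ∧ t = t')
    constructor
    · rintro ⟨_, h1⟩
      refine Or.inr ⟨fun h => Bool.false_ne_true h.symm, ?_⟩
      by_contra h
      exact h1 ((hab t hu t' hv).2 h)
    · rintro (⟨h, _⟩ | ⟨_, h⟩)
      · exact absurd h.symm Bool.false_ne_true
      · subst h
        refine ⟨ab_ne hm htri hab hu hu, fun h => ?_⟩
        exact (hab t hu t hu).1 h rfl
  · change a t ≠ a t' ∧ ¬ D.Adj (a t) (a t') ↔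
      (true = true ∧ t ≠ t') ∨ (true ≠ true ∧ t = t')
    constructor
    · rintro ⟨h1, _⟩
      exact Or.inl ⟨rfl, fun h => h1 (by rw [h])⟩
    · rintro (⟨_, h⟩ | ⟨h, _⟩)
      · exact aa hm htri hab hu hv h
      · exact absurd rfl h

end

theorem P_lt {N s : ℕ} {F : SimpleGraph (Fin N)} {col : Fin N → Bool} {w : Fin s ⊕ Fin N}
    {u : Bool × ℕ} (h : u ∈ P F col w) : u.2 < N * N + s + 3 := by
  rcases w with q | i
  · have h1 : u.2 = N * N + q.val := h
    have := q.2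
    omega
  · have h1 : u.2 < N * N := I_lt h.2
    omega

theorem P_dis {N s : ℕ} {F : SimpleGraph (Fin N)} {col : Fin N → Bool} {w w' : Fin s ⊕ Fin N}
    (hw : w ≠ w') {u : Bool × ℕ} (h : u ∈ P F col w) (h' : u ∈ P F col w') : False := by
  rcases w with q | i <;> rcases w' with q' | i'
  · have h1 : u.2 = N * N + q.val := h
    have h2 : u.2 = N * N + q'.val := h'
    exact hw (by rw [Fin.ext (show q.val = q'.val by omega)])
  · have h1 : u.2 = N * N + q.val := h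
    have h2 : u.2 < N * N := I_lt h'.2
    omega
  · have h1 : u.2 = N * N + q'.val := h'
    have h2 : u.2 < N * N := I_lt h.2
    omega
  · have hne : i ≠ i' := fun h => hw (by rw [h])
    exact (I_inter hne h.2 h'.2).1 (h.1.symm.trans h'.1)

theorem diag_mem {N : ℕ} (F : SimpleGraph (Fin N)) (col : Fin N → Bool) (i : Fin N) :
    i.val * N + i.val ∈ I F col i := ⟨i, i, rfl, Or.inl ⟨rfl, rfl⟩⟩

theorem P_adj {N s : ℕ} {F : SimpleGraph (Fin N)} {col : Fin N → Bool}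
    (hcol : ∀ i j, F.Adj i j → col i ≠ col j) {w w' : Fin s ⊕ Fin N} (hw : w ≠ w') :
    (KCo s F).Adj w w' ↔ ∃ u ∈ P F col w, ∃ v ∈ P F col w',
      (u.1 = v.1 ∧ u.2 ≠ v.2) ∨ (u.1 ≠ v.1 ∧ u.2 = v.2) := by
  rcases w with q | i <;> rcases w' with q' | i'
  · have hne : q ≠ q' := fun h => hw (by rw [h])
    have hne' : q.val ≠ q'.val := fun h => hne (Fin.ext h)
    refine iff_of_true hne ⟨(true, N * N + q.val), rfl, (true, N * N + q'.val), rfl,
      Or.inl ⟨rfl, ?_⟩⟩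
    change N * N + q.val ≠ N * N + q'.val
    omega
  · refine iff_of_true trivial ⟨(col i', N * N + q.val), rfl, (col i', i'.val * N + i'.val),
      ⟨rfl, diag_mem F col i'⟩, Or.inl ⟨rfl, ?_⟩⟩
    have := code_lt i' i'
    change N * N + q.val ≠ i'.val * N + i'.val
    omega
  · refine iff_of_true trivial ⟨(col i, i.val * N + i.val), ⟨rfl, diag_mem F col i⟩,
      (col i, N * N + q'.val), rfl, Or.inl ⟨rfl, ?_⟩⟩
    have := code_lt i i
    change i.val * N + i.val ≠ N * N + q'.val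
    omega
  · have hne : i ≠ i' := fun h => hw (by rw [h])
    constructor
    · rintro ⟨_, hF⟩
      by_cases hc : col i = col i'
      · refine ⟨(col i, i.val * N + i.val), ⟨rfl, diag_mem F col i⟩,
          (col i', i'.val * N + i'.val), ⟨rfl, diag_mem F col i'⟩, Or.inl ⟨hc, ?_⟩⟩
        intro h
        exact hne (code_inj h).1
      · refine ⟨(col i, i.val * N + i'.val), ⟨rfl, i, i', rfl, Or.inr ⟨hc, hF, Or.inl rfl⟩⟩,
          (col i', i.val * N + i'.val), ⟨rfl, i, i', rfl, Or.inr ⟨hc, hF, Or.inr rfl⟩⟩,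
          Or.inr ⟨hc, rfl⟩⟩
    · rintro ⟨u, hu, v, hv, h⟩
      refine ⟨hne, fun hF => ?_⟩
      have hc := hcol i i' hF
      rcases h with ⟨h1, _⟩ | ⟨_, h2⟩
      · exact hc (hu.1.symm.trans (h1.trans hv.1))
      · have hv2 := hv.2
        rw [← h2] at hv2
        exact (I_inter hne hu.2 hv2).2 hF

theorem P_conn {N s : ℕ} {F : SimpleGraph (Fin N)} {col : Fin N → Bool} {w : Fin s ⊕ Fin N}
    {u v : Bool × ℕ} (hu : u ∈ P F col w) (hv : v ∈ P F col w) (huv : u ≠ v) :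
    (u.1 = v.1 ∧ u.2 ≠ v.2) ∨ (u.1 ≠ v.1 ∧ u.2 = v.2) := by
  rcases w with q | i
  · have h1 : u.2 = v.2 := Eq.trans hu (Eq.symm hv)
    exact Or.inr ⟨fun h => huv (Prod.ext h h1), h1⟩
  · have h1 : u.1 = v.1 := hu.1.trans hv.1.symm
    exact Or.inl ⟨h1, fun h => huv (Prod.ext h1 h)⟩

theorem P_ne {N s : ℕ} (F : SimpleGraph (Fin N)) (col : Fin N → Bool) (w : Fin s ⊕ Fin N) :
    (P F col w).Nonempty := by
  rcases w with q | i
  · exact ⟨(true, N * N + q.val), rfl⟩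
  · exact ⟨(col i, i.val * N + i.val), rfl, diag_mem F col i⟩

end CoMAux

open CoMAux in
/-- **E10.** A large co-matching contains everything bipartite. -/
theorem coM : S_CoM := by
  intro N s
  refine ⟨N * N + s + 3, ?_⟩
  intro V D F col hcol htri ⟨a, b, hab⟩
  have hm : 3 ≤ N * N + s + 3 := by omega
  refine ⟨fun w => vl a b '' P F col w, ?_, ?_, ?_⟩
  · intro w
    refine conn_of _ _ ((P_ne F col w).image _) ?_
    rintro _ ⟨u, hu, rfl⟩ _ ⟨v, hv, rfl⟩ hne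
    have huv : u ≠ v := fun h => hne (by rw [h])
    exact (vl_adj hm htri hab (P_lt hu) (P_lt hv)).2 (P_conn hu hv huv)
  · intro w w' hw
    rw [Set.disjoint_left]
    rintro _ ⟨u, hu, rfl⟩ ⟨v, hv, hvu⟩
    by_cases huv : v = u
    · subst huv
      exact P_dis hw hu hv
    · exact vl_ne hm htri hab (P_lt hv) (P_lt hu) huv hvu
  · intro w w' hw
    rw [P_adj hcol hw]
    constructor
    · rintro ⟨u, hu, v, hv, h⟩
      exact ⟨_, ⟨u, hu, rfl⟩, _, ⟨v, hv, rfl⟩, (vl_adj hm htri hab (P_lt hu) (P_lt hv)).2 h⟩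
    · rintro ⟨_, ⟨u, hu, rfl⟩, _, ⟨v, hv, rfl⟩, h⟩
      exact ⟨u, hu, v, hv, (vl_adj hm htri hab (P_lt hu) (P_lt hv)).1 h⟩

end Pool.Agent.MPd439b2.W
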