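import Pool.Agent.Lib.MP_d439b2_co.W.SpecD

/-!
# MP_d439b2_co, W: `S_{1,1,2} + 4 P_2` without width assumption, definitions (helper28)
-/

set_option autoImplicit false

namespace Pool.Agent.MPd439b2.W

open Pool.Agent.MPd439b2

variable {V : Type}

/-- `a i, b i` (`i < n`) is an induced matching -/
def IM (D : SimpleGraph V) (n : ℕ) (a b : ℕ → V) : Prop :=
  ∀ i < n, ∀ j < n, (D.Adj (a i) (b j) ↔ i = j) ∧ ¬ D.Adj (a i) (a j) ∧ ¬ D.Adj (b i) (b j)

open Classical in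
/-- the indices of the edges of the matching which are touched by `v` -/
noncomputable def Jt (D : SimpleGraph V) (n : ℕ) (a b : ℕ → V) (v : V) : Finset ℕ :=
  (Finset.range n).filter fun i => D.Adj v (a i) ∨ D.Adj v (b i)

/-- **Clean matchings**: `A` is complete to all `a i`, `B` is complete to all `b i`, all other vertices touch at
most two of the edges -/
structure CM (D : SimpleGraph V) (n : ℕ) (a b : ℕ → V) (A B : Set V) : Prop where
  im : IM D n a b
  cA : ∀ x ∈ A, ∀ i < n, D.Adj x (a i)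
  cB : ∀ y ∈ B, ∀ i < n, D.Adj y (b i)
  few : ∀ v, v ∉ A → v ∉ B → (Jt D n a b v).card ≤ 2

/-- `N(u) ∩ (A ∪ B) = A` -/
def TyA (D : SimpleGraph V) (A B : Set V) (u : V) : Prop :=
  (∀ x ∈ A, D.Adj u x) ∧ ∀ x ∈ B, ¬ D.Adj u x

/-- the clean edges -/
def CE (D : SimpleGraph V) (A B : Set V) (u v : V) : Prop :=
  D.Adj u v ∧ ((TyA D A B u ∧ TyA D B A v) ∨ (TyA D B A u ∧ TyA D A B v))

/-- the fork with centre `c`, leaves `l₁, l₂` and the leg `m, e` -/
def Fork (D : SimpleGraph V) (c l₁ l₂ m e : V) : Prop :=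
  D.Adj c l₁ ∧ D.Adj c l₂ ∧ D.Adj c m ∧ D.Adj m e ∧ l₁ ≠ l₂ ∧ ¬ D.Adj e l₁ ∧ ¬ D.Adj e l₂

/-- there is no fork inside `U` -/
def NoFork (D : SimpleGraph V) (U : Set V) : Prop :=
  ∀ c ∈ U, ∀ l₁ ∈ U, ∀ l₂ ∈ U, ∀ m ∈ U, ∀ e ∈ U, ¬ Fork D c l₁ l₂ m e

/-- `K` is a connected component of `D[U]` -/
def IsComp (D : SimpleGraph V) (U K : Set V) : Prop :=
  Conn D K ∧ K ⊆ U ∧ ∀ v ∈ K, ∀ w ∈ U, D.Adj v w → w ∈ K

/-- `K` is a component of `D[U]` with at least one edge, all of whose edges are clean -/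
def CComp (D : SimpleGraph V) (A B K : Set V) : Prop :=
  IsComp D (A ∪ B)ᶜ K ∧ (∃ v ∈ K, ∃ w ∈ K, D.Adj v w) ∧
    ∀ v ∈ K, ∀ w ∈ K, D.Adj v w → CE D A B v w

/-- every vertex of the set `P` has all but at most one vertex of `Q` as a neighbour -/
def AlmC (D : SimpleGraph V) (P Q : Set V) : Prop :=
  ∀ p ∈ P, ∀ q ∈ Q, ∀ q' ∈ Q, ¬ D.Adj p q → ¬ D.Adj p q' → q = q'

/-- **Cells.** `R ⊆ X` represents `X`; `L` = labels (the vertices of `X ∩ L` are of type `A`, those of `X \ L` of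
type `B`); a vertex of `X` has the outside neighbourhood `A` resp. `B`, up to one exceptional neighbour, which
is only allowed for vertices with at most two neighbours in `X`; `x l, y l` (`l < κ`) is an induced
matching in `R` of vertices with outside neighbourhood exactly `A` resp. `B` -/
structure Cel (D : SimpleGraph V) (κ c : ℕ) (X R : Finset V) (L A B : Set V) (x y : ℕ → V) :
    Prop where
  RX : R ⊆ X
  cR : R.card ≤ c
  lay : Lay D c (X : Set V)
  exA : ∀ v ∈ X, v ∈ L → D.neighborSet v \ (X : Set V) = A ∨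
    ((∃ e, D.neighborSet v \ (X : Set V) = insert e A) ∧
      (D.neighborSet v ∩ (X : Set V)).encard ≤ 2)
  exB : ∀ v ∈ X, v ∉ L → D.neighborSet v \ (X : Set V) = B ∨
    ((∃ e, D.neighborSet v \ (X : Set V) = insert e B) ∧
      (D.neighborSet v ∩ (X : Set V)).encard ≤ 2)
  ina : ∀ v ∈ X, ∀ w ∈ X, D.Adj v w → (v ∈ L ↔ w ∉ L)
  nbr : ∀ v ∈ X, ∃ w ∈ X, D.Adj v w
  im : IM D κ x y
  ix : ∀ l < κ, x l ∈ R ∧ x l ∈ L ∧ D.neighborSet (x l) \ (X : Set V) = A
  iy : ∀ l < κ, y l ∈ R ∧ y l ∉ L ∧ D.neighborSet (y l) \ (X : Set V) = B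
  twin : ∀ v ∈ X, ∃ r ∈ R, D.neighborSet v \ (X : Set V) = D.neighborSet r \ (X : Set V)

/-- cells without exceptional neighbours -/
def CelC (D : SimpleGraph V) (κ c : ℕ) (X R : Finset V) : Prop :=
  ∃ (L A B : Set V) (x y : ℕ → V), Cel D κ c X R L A B x y ∧
    (∀ v ∈ X, v ∈ L → D.neighborSet v \ (X : Set V) = A) ∧
    ∀ v ∈ X, v ∉ L → D.neighborSet v \ (X : Set V) = B

/-- cells which are induced paths `w 0, ..., w (m - 1)`; only the two ends may have an exceptional neighbour;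
`R` consists of the first and the last `h` vertices -/
def CelS (D : SimpleGraph V) (κ c h : ℕ) (X R : Finset V) : Prop :=
  ∃ (L A B : Set V) (x y : ℕ → V) (m : ℕ) (w : ℕ → V), Cel D κ c X R L A B x y ∧ 4 ≤ m ∧
    (∀ v, v ∈ X ↔ ∃ i < m, w i = v) ∧ (∀ i < m, ∀ j < m, w i = w j → i = j) ∧
    (∀ i < m, ∀ j < m, (D.Adj (w i) (w j) ↔ j = i + 1 ∨ i = j + 1)) ∧
    (∀ v, v ∈ R ↔ ∃ i < m, (i < h ∨ m ≤ i + h) ∧ w i = v) ∧
    (∀ i, 0 < i → i + 1 < m → w i ∈ L → D.neighborSet (w i) \ (X : Set V) = A) ∧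
    ∀ i, 0 < i → i + 1 < m → w i ∉ L → D.neighborSet (w i) \ (X : Set V) = B

/-- a family of disjoint cells -/
structure Fam (D : SimpleGraph V) (κ c h : ℕ) (F : Finset (Finset V × Finset V)) : Prop where
  cell : ∀ p ∈ F, CelC D κ c p.1 p.2 ∨ CelS D κ c h p.1 p.2
  dis : ∀ p ∈ F, ∀ q ∈ F, p ≠ q → Disjoint p.1 q.1

/-- the vertices which are not deleted: every vertex of a set `p.1` is in `p.2` -/
def Vst (F : Finset (Finset V × Finset V)) : Set V := {v | ∀ p ∈ F, v ∈ p.1 → v ∈ p.2}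

/-- the nonempty traces of the vertices of `S` on `Y \ S` -/
def TyIn (D : SimpleGraph V) (Y S : Set V) : Set (Set V) :=
  {T | T.Nonempty ∧ ∃ u ∈ S, T = (D.neighborSet u ∩ Y) \ S}

open Classical in
/-- the members of `F` whose set `p.2` is split by `S` -/
noncomputable def Spl (F : Finset (Finset V × Finset V)) (S : Set V) :
    Finset (Finset V × Finset V) :=
  F.filter fun p => (∃ r ∈ p.2, r ∈ S) ∧ ∃ r ∈ p.2, r ∉ S

/-- **Enumerations**: `u 0, ..., u (l - 1)` are the vertices of `K` along a path; the only possible further edge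
joins the first and the last vertex, and it does not satisfy `C` -/
structure Enu (D : SimpleGraph V) (K : Set V) (C : V → V → Prop) (l : ℕ) (u : ℕ → V) : Prop where
  mem : ∀ v, v ∈ K ↔ ∃ i < l, u i = v
  inj : ∀ i < l, ∀ j < l, u i = u j → i = j
  adj : ∀ i, i + 1 < l → D.Adj (u i) (u (i + 1))
  only : ∀ i < l, ∀ j < l, D.Adj (u i) (u j) → j = i + 1 ∨ i = j + 1 ∨
    (¬ C (u i) (u j) ∧ ((i = 0 ∧ j + 1 = l) ∨ (j = 0 ∧ i + 1 = l)))

/-- `u α, ..., u β` is a maximal run of edges which satisfy `C` -/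
structure MRun (C : V → V → Prop) (l : ℕ) (u : ℕ → V) (α β : ℕ) : Prop where
  le : α ≤ β
  lt : β < l
  all : ∀ i, α ≤ i → i < β → C (u i) (u (i + 1))
  fst : 0 < α → ¬ C (u (α - 1)) (u α)
  lst : β + 1 < l → ¬ C (u β) (u (β + 1))

/-- the set `S` without the vertices of the cells, and all cells whose representative `r p` is in `S` -/
def hatS (F : Finset (Finset V × Finset V)) (r : Finset V × Finset V → V) (S : Set V) : Set V :=
  {v | (v ∈ S ∧ ∀ p ∈ F, v ∉ p.1) ∨ ∃ p ∈ F, v ∈ p.1 ∧ r p ∈ S}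

/-- the standing hypotheses -/
structure Hyp (s m₀ : ℕ) (D : SimpleGraph V) : Prop where
  tri : TriFree D
  noF : ¬ IsIndMinor (KCo s F1) Dᶜ
  noC : ¬ CoM D m₀

end Pool.Agent.MPd439b2.W
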