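import Pool.Agent.Lib.MP_d439b2_co.W.SpecP

/-!
# MP_d439b2_co, W, P2: the realization lemma (helper10)
-/

set_option autoImplicit false

namespace Pool.Agent.MPd439b2.W

open Pool.Agent.MPd439b2

namespace AtomsAux

variable {V : Type} {D : SimpleGraph V}

theorem cmp_of_true {e : ℕ → ℕ → Option Bool} {R M : ℕ} {z : ℕ → ℕ → Finset V}
    {E : ℕ → ℕ → Prop} (hK : Kn e R E) (hP : Pat D M R z E) {p q : ℕ × ℕ} (hp : p.1 ≤ R)
    (hq : q.1 ≤ R) (hp2 : p.2 < M) (hq2 : q.2 < M) (h : okp e p q = some true) :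
    Cmp D (z p.1 p.2) (z q.1 q.2) := by
  unfold okp at h
  split_ifs at h with h1 h2
  · exact (hP.rel _ hp _ hq _ _ h1 hq2).2 ((hK _ hp _ hq).1 h)
  · exact ((hP.rel _ hq _ hp _ _ h2 hp2).2 ((hK _ hq _ hp).1 h)).symm

theorem not_cmp_of_false {e : ℕ → ℕ → Option Bool} {R M : ℕ} {z : ℕ → ℕ → Finset V}
    {E : ℕ → ℕ → Prop} (hK : Kn e R E) (hP : Pat D M R z E) {p q : ℕ × ℕ} (hp : p.1 ≤ R)
    (hq : q.1 ≤ R) (hp2 : p.2 < M) (hq2 : q.2 < M) (h : okp e p q = some false) :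
    ¬ Cmp D (z p.1 p.2) (z q.1 q.2) := by
  unfold okp at h
  split_ifs at h with h1 h2
  · exact fun hc => (hK _ hp _ hq).2 h ((hP.rel _ hp _ hq _ _ h1 hq2).1 hc)
  · exact fun hc => (hK _ hq _ hp).2 h ((hP.rel _ hq _ hp _ _ h2 hp2).1 hc.symm)

theorem edge_of_not_cmp {A B : Finset V} (hd : Disjoint A B) (h : ¬ Cmp D A B) :
    ∃ a ∈ A, ∃ b ∈ B, Dᶜ.Adj a b := by
  unfold Cmp at h
  push Not at h
  obtain ⟨a, ha, b, hb, hab⟩ := h
  refine ⟨a, ha, b, hb, ?_⟩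
  rw [SimpleGraph.compl_adj]
  exact ⟨fun hh => (Finset.disjoint_left.1 hd ha) (hh ▸ hb), hab⟩

theorem conn_indep {A : Set V} (hn : A.Nonempty) (h : ∀ x ∈ A, ∀ y ∈ A, ¬ D.Adj x y) :
    (Dᶜ.induce A).Connected := by
  have : Nonempty A := hn.to_subtype
  refine ⟨fun x y => ?_⟩
  by_cases hxy : x = y
  · rw [hxy]
  · refine SimpleGraph.Adj.reachable ?_
    change Dᶜ.Adj x.1 y.1
    rw [SimpleGraph.compl_adj]
    exact ⟨fun hh => hxy (Subtype.ext hh), h _ x.2 _ y.2⟩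

theorem edge_of_pair (hT : TriFree D) {C X : Set V} {a b x : V} (ha : a ∈ C) (hb : b ∈ C)
    (hab : D.Adj a b) (hx : x ∈ X) (hd : Disjoint C X) : ∃ u ∈ C, ∃ v ∈ X, Dᶜ.Adj u v := by
  have hne : ∀ c ∈ C, c ≠ x := fun c hc hh => (Set.disjoint_left.1 hd hc) (hh ▸ hx)
  by_cases h1 : D.Adj x a
  · refine ⟨b, hb, x, hx, ?_⟩
    rw [SimpleGraph.compl_adj]
    exact ⟨hne b hb, fun h2 => hT x a b h1 h2.symm hab⟩
  · refine ⟨a, ha, x, hx, ?_⟩
    rw [SimpleGraph.compl_adj]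
    exact ⟨hne a ha, fun h2 => h1 h2.symm⟩

/-- the branch set of a vertex of the graph `ofE N l` -/
def BB (z : ℕ → ℕ → Finset V) (A : List (ℕ × ℕ)) : Set V := {v | ∃ p ∈ A, v ∈ z p.1 p.2}

/-- the branch set of a vertex of the complete graph -/
def CC (z : ℕ → ℕ → Finset V) (k : ℕ) : Set V :=
  ({v | v ∈ z 0 k ∨ v ∈ z 0 (k + 2)} : Set V) ∪ {v | v ∈ z 1 (k + 1) ∨ v ∈ z 1 (k + 3)}

theorem mem_CC {z : ℕ → ℕ → Finset V} {k : ℕ} {v : V} (h : v ∈ CC z k) :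
    ∃ i ≤ 1, ∃ j < 4, v ∈ z i (k + j) := by
  rcases h with (h | h) | (h | h)
  · exact ⟨0, by omega, 0, by omega, h⟩
  · exact ⟨0, by omega, 2, by omega, h⟩
  · exact ⟨1, by omega, 1, by omega, h⟩
  · exact ⟨1, by omega, 3, by omega, h⟩

theorem CC_conn (hT : TriFree D) {R M : ℕ} {z : ℕ → ℕ → Finset V} {E : ℕ → ℕ → Prop}
    (hP : Pat D M R z E) (hR : 1 ≤ R) (h01 : E 0 1) (h10 : ¬ E 1 0) {k : ℕ} (hk : k + 4 ≤ M) :
    (Dᶜ.induce (CC z k)).Connected := by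
  have c01 : Cmp D (z 0 k) (z 1 (k + 1)) :=
    (hP.rel 0 (by omega) 1 hR k (k + 1) (by omega) (by omega)).2 h01
  have c03 : Cmp D (z 0 k) (z 1 (k + 3)) :=
    (hP.rel 0 (by omega) 1 hR k (k + 3) (by omega) (by omega)).2 h01
  have c23 : Cmp D (z 0 (k + 2)) (z 1 (k + 3)) :=
    (hP.rel 0 (by omega) 1 hR (k + 2) (k + 3) (by omega) (by omega)).2 h01
  have c12 : ¬ Cmp D (z 1 (k + 1)) (z 0 (k + 2)) := fun hc =>
    h10 ((hP.rel 1 hR 0 (by omega) (k + 1) (k + 2) (by omega) (by omega)).1 hc)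
  obtain ⟨a, ha⟩ := hP.ne 0 (by omega) k (by omega)
  obtain ⟨b, hb⟩ := hP.ne 1 hR (k + 1) (by omega)
  obtain ⟨d, hd⟩ := hP.ne 1 hR (k + 3) (by omega)
  obtain ⟨u, hu, v, hv, huv⟩ := edge_of_not_cmp
    (hP.dis 1 hR 0 (by omega) (k + 1) (by omega) (k + 2) (by omega) (by omega)) c12
  have h1 : (Dᶜ.induce ({v | v ∈ z 0 k ∨ v ∈ z 0 (k + 2)} : Set V)).Connected := by
    refine conn_indep ⟨a, Or.inl ha⟩ fun x hx y hy hxy => ?_
    have hx' : D.Adj d x := by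
      rcases hx with hx | hx
      · exact (c03 x hx d hd).symm
      · exact (c23 x hx d hd).symm
    have hy' : D.Adj d y := by
      rcases hy with hy | hy
      · exact (c03 y hy d hd).symm
      · exact (c23 y hy d hd).symm
    exact hT d x y hx' hy' hxy
  have h2 : (Dᶜ.induce ({v | v ∈ z 1 (k + 1) ∨ v ∈ z 1 (k + 3)} : Set V)).Connected := by
    refine conn_indep ⟨b, Or.inl hb⟩ fun x hx y hy hxy => ?_
    have hx' : D.Adj a x := by
      rcases hx with hx | hx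
      · exact c01 a ha x hx
      · exact c03 a ha x hx
    have hy' : D.Adj a y := by
      rcases hy with hy | hy
      · exact c01 a ha y hy
      · exact c03 a ha y hy
    exact hT a x y hx' hy' hxy
  exact SimpleGraph.connected_induce_union h1.preconnected h2.preconnected (v := v) (w := u)
    (Or.inr hv) (Or.inl hu) huv.symm

theorem CC_pair {R M : ℕ} {z : ℕ → ℕ → Finset V} {E : ℕ → ℕ → Prop}
    (hP : Pat D M R z E) (hR : 1 ≤ R) (h01 : E 0 1) {k : ℕ} (hk : k + 4 ≤ M) :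
    ∃ a ∈ CC z k, ∃ b ∈ CC z k, D.Adj a b := by
  obtain ⟨a, ha⟩ := hP.ne 0 (by omega) k (by omega)
  obtain ⟨b, hb⟩ := hP.ne 1 hR (k + 1) (by omega)
  exact ⟨a, Or.inl (Or.inl ha), b, Or.inr (Or.inl hb),
    (hP.rel 0 (by omega) 1 hR k (k + 1) (by omega) (by omega)).2 h01 a ha b hb⟩

end AtomsAux

open AtomsAux in
theorem atoms : S_Atoms := by
  intro e R K₀ N M s l L nb V D z E hchk hK hR h01 h10 hM hT hP
  obtain ⟨hc1, hc3⟩ := hchk
  -- groups with different indices are disjoint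
  have hdis : ∀ i ≤ R, ∀ j ≤ R, ∀ k < M, ∀ m < M, k ≠ m → ∀ v, v ∈ z i k → v ∈ z j m → False :=
    fun i hi j hj k hk m hm hkm v h1 h2 =>
      Finset.disjoint_left.1 (hP.dis i hi j hj k hk m hm hkm) h1 h2
  have hCB : ∀ (t : Fin s) (i : Fin N), Disjoint (CC z (K₀ + 4 * t.1)) (BB z (L.getD i.1 [])) := by
    intro t i
    rw [Set.disjoint_left]
    rintro v hv ⟨p, hp, hvp⟩
    obtain ⟨a, ha, b, hb, hvab⟩ := mem_CC hv
    obtain ⟨hp1, hp2, -⟩ := (hc1 i.1 i.2).2.2.2 p hp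
    have := t.2
    exact hdis a (by omega) p.1 hp1 _ (by omega) p.2 (by omega) (by omega) v hvab hvp
  have hCC : ∀ t t' : Fin s, t ≠ t' → Disjoint (CC z (K₀ + 4 * t.1)) (CC z (K₀ + 4 * t'.1)) := by
    intro t t' htt
    have h1 : t.1 ≠ t'.1 := fun h => htt (Fin.ext h)
    rw [Set.disjoint_left]
    intro v hv hv'
    obtain ⟨a, ha, b, hb, hvab⟩ := mem_CC hv
    obtain ⟨a', ha', b', hb', hvab'⟩ := mem_CC hv'
    have := t.2
    have := t'.2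
    exact hdis a (by omega) a' (by omega) _ (by omega) _ (by omega) (by omega) v hvab hvab'
  have hBB : ∀ i j : Fin N, i ≠ j → Disjoint (BB z (L.getD i.1 [])) (BB z (L.getD j.1 [])) := by
    intro i j hij
    have h1 : i.1 ≠ j.1 := fun h => hij (Fin.ext h)
    rw [Set.disjoint_left]
    rintro v ⟨p, hp, hvp⟩ ⟨q, hq, hvq⟩
    obtain ⟨hp1, hp2, -⟩ := (hc1 i.1 i.2).2.2.2 p hp
    obtain ⟨hq1, hq2, -⟩ := (hc1 j.1 j.2).2.2.2 q hq
    have h2 := (hc3 i.1 i.2 j.1 j.2 h1).1 p hp q hq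
    exact hdis p.1 hp1 q.1 hq1 p.2 (by omega) q.2 (by omega) h2 v hvp hvq
  have hBne : ∀ i : Fin N, (BB z (L.getD i.1 [])).Nonempty := by
    intro i
    obtain ⟨hne, -, -, hpp⟩ := hc1 i.1 i.2
    obtain ⟨p, hp⟩ := List.exists_mem_of_ne_nil _ hne
    obtain ⟨hp1, hp2, -⟩ := hpp p hp
    obtain ⟨v, hv⟩ := hP.ne p.1 hp1 p.2 (by omega)
    exact ⟨v, p, hp, hv⟩
  have hBconn : ∀ i : Fin N, (Dᶜ.induce (BB z (L.getD i.1 []))).Connected := by
    intro i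
    refine conn_indep (hBne i) ?_
    rintro x ⟨p, hp, hx⟩ y ⟨q, hq, hy⟩ hxy
    obtain ⟨-, hn1, hn2, hpp⟩ := hc1 i.1 i.2
    obtain ⟨d, hd⟩ := hP.ne _ hn1 (nb.getD i.1 (0, 0)).2 (by omega)
    have h1 : D.Adj x d := by
      obtain ⟨hp1, hp2, hp3⟩ := hpp p hp
      exact cmp_of_true hK hP hp1 hn1 (by omega) (by omega) hp3 x hx d hd
    have h2 : D.Adj y d := by
      obtain ⟨hp1, hp2, hp3⟩ := hpp q hq
      exact cmp_of_true hK hP hp1 hn1 (by omega) (by omega) hp3 y hy d hd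
    exact hT d x y h1.symm h2.symm hxy
  have hCk : ∀ t : Fin s, K₀ + 4 * t.1 + 4 ≤ M := fun t => by
    have := t.2
    omega
  have hCX : ∀ (t : Fin s) (X : Set V), X.Nonempty → Disjoint (CC z (K₀ + 4 * t.1)) X →
      ∃ u ∈ CC z (K₀ + 4 * t.1), ∃ v ∈ X, Dᶜ.Adj u v := by
    rintro t X ⟨x, hx⟩ hd
    obtain ⟨a, ha, b, hb, hab⟩ := CC_pair hP hR h01 (hCk t)
    exact edge_of_pair hT ha hb hab hx hd
  let B : Fin s ⊕ Fin N → Set V := fun u => match u with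
    | Sum.inl t => CC z (K₀ + 4 * t.1)
    | Sum.inr i => BB z (L.getD i.1 [])
  have hBc : ∀ u, (Dᶜ.induce (B u)).Connected := by
    rintro (t | i)
    · exact CC_conn hT hP hR h01 h10 (hCk t)
    · exact hBconn i
  refine ⟨B, hBc, ?_, ?_⟩
  · rintro (t | i) (t' | i') hne
    · exact hCC t t' fun h => hne (by rw [h])
    · exact hCB t i'
    · exact (hCB t' i).symm
    · exact hBB i i' fun h => hne (by rw [h])
  · rintro (t | i) (t' | i') hne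
    · have htt : t ≠ t' := fun h => hne (by rw [h])
      refine ⟨fun _ => ?_, fun _ => htt⟩
      obtain ⟨a, ha, -⟩ := CC_pair hP hR h01 (hCk t')
      exact hCX t _ ⟨a, ha⟩ (hCC t t' htt)
    · exact ⟨fun _ => hCX t _ (hBne i') (hCB t i'), fun _ => trivial⟩
    · refine ⟨fun _ => ?_, fun _ => trivial⟩
      obtain ⟨u, hu, v, hv, huv⟩ := hCX t' _ (hBne i) (hCB t' i)
      exact ⟨v, hv, u, hu, huv.symm⟩
    · have hii : i ≠ i' := fun h => hne (by rw [h])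
      have hii' : i.1 ≠ i'.1 := fun h => hii (Fin.ext h)
      obtain ⟨-, hadj, hnadj⟩ := hc3 i.1 i.2 i'.1 i'.2 hii'
      constructor
      · rintro ⟨-, hna⟩
        have h1 : ¬ ((i.1, i'.1) ∈ l ∨ (i'.1, i.1) ∈ l) := fun h => hna ⟨hii, h⟩
        obtain ⟨p, hp, q, hq, hpq⟩ := hnadj h1
        obtain ⟨hp1, hp2, -⟩ := (hc1 i.1 i.2).2.2.2 p hp
        obtain ⟨hq1, hq2, -⟩ := (hc1 i'.1 i'.2).2.2.2 q hq
        have h2 := (hc3 i.1 i.2 i'.1 i'.2 hii').1 p hp q hq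
        obtain ⟨a, ha, b, hb, hab⟩ := edge_of_not_cmp
          (hP.dis p.1 hp1 q.1 hq1 p.2 (by omega) q.2 (by omega) h2)
          (not_cmp_of_false hK hP hp1 hq1 (by omega) (by omega) hpq)
        exact ⟨a, ⟨p, hp, ha⟩, b, ⟨q, hq, hb⟩, hab⟩
      · rintro ⟨a, ⟨p, hp, ha⟩, b, ⟨q, hq, hb⟩, hab⟩
        refine ⟨hii, fun hadj' => ?_⟩
        have h1 := hadj hadj'.2 p hp q hq
        obtain ⟨hp1, hp2, -⟩ := (hc1 i.1 i.2).2.2.2 p hp
        obtain ⟨hq1, hq2, -⟩ := (hc1 i'.1 i'.2).2.2.2 q hq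
        have h2 := cmp_of_true hK hP hp1 hq1 (by omega) (by omega) h1 a ha b hb
        rw [SimpleGraph.compl_adj] at hab
        exact hab.2 h2

end Pool.Agent.MPd439b2.W
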