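import Pool.Agent.Lib.MP_d439b2_co.W.SpecD

/-!
# MP_d439b2_co, W, D8: the bounded width theorem (assembly)
-/

set_option autoImplicit false

namespace Pool.Agent.MPd439b2.W

open Pool.Agent.MPd439b2

private theorem bW_wt_symm {α : Type} (Γ : SimpleGraph α) (A B : Finset α) :
    wt (ind Γ) A B = wt (ind Γ) B A := by
  unfold wt
  rw [Finset.sum_comm]
  refine Finset.sum_congr rfl fun x _ => Finset.sum_congr rfl fun y _ => ?_
  unfold ind
  by_cases h : Γ.Adj y x
  · rw [if_pos h, if_pos h.symm]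
  · rw [if_neg h, if_neg fun h' => h h'.symm]

private theorem bW_wt_le {α : Type} (Γ Γ' : SimpleGraph α) (A B : Finset α)
    (h : ∀ x ∈ A, ∀ y ∈ B, Γ.Adj x y → Γ'.Adj x y) : wt (ind Γ) A B ≤ wt (ind Γ') A B := by
  unfold wt
  refine Finset.sum_le_sum fun x hx => Finset.sum_le_sum fun y hy => ?_
  unfold ind
  by_cases h1 : Γ.Adj x y
  · rw [if_pos h1, if_pos (h x hx y hy h1)]
  · rw [if_neg h1]
    exact Nat.zero_le _

private theorem bW_deg {α : Type} [Fintype α] [DecidableEq α] (h5 : S_Pre) (Γ : SimpleGraph α)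
    (σ : α → α) (d : ℕ) (hd : ∀ x A, wt (ind Γ) {x} A ≤ d) (b : Finset α) :
    wt (WB Γ σ) {b} {b}ᶜ ≤ 2 * d := by
  rw [(h5 α Γ σ {b} {b}ᶜ).1]
  have h1 : wt (ind Γ) (pre σ {b}) (pre σ {b}ᶜ) ≤ (pre σ {b}).card * d := by
    have : wt (ind Γ) (pre σ {b}) (pre σ {b}ᶜ) =
        ∑ x ∈ pre σ {b}, wt (ind Γ) {x} (pre σ {b}ᶜ) := by
      unfold wt
      refine Finset.sum_congr rfl fun x _ => ?_
      rw [Finset.sum_singleton]
    rw [this, ← smul_eq_mul]
    exact Finset.sum_le_card_nsmul _ _ _ fun x _ => hd x _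
  refine h1.trans (Nat.mul_le_mul_right _ ?_)
  rcases (pre σ {b}).eq_empty_or_nonempty with h | ⟨x, hx⟩
  · rw [h]
    simp
  · have hb : blk σ x = b := by
      unfold pre at hx
      simpa using hx
    have hsub : pre σ {b} ⊆ {x, σ x} := by
      intro y hy
      have hy' : blk σ y = b := by
        unfold pre at hy
        simpa using hy
      have : y ∈ blk σ y := by
        unfold blk
        simp
      rw [hy', ← hb] at this
      exact this
    exact (Finset.card_le_card hsub).trans Finset.card_le_two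

private theorem bW_col1 : ∀ i j : Fin 13, F1.Adj i j →
    (![false, true, true, true, false, true, false, true, false, true, false, true, false] :
      Fin 13 → Bool) i ≠
    (![false, true, true, true, false, true, false, true, false, true, false, true, false] :
      Fin 13 → Bool) j := by
  unfold F1
  decide

private theorem bW_col2 : ∀ i j : Fin 13, F2.Adj i j →
    (![false, true, true, false, true, false, true, true, false, true, false, true, false] :
      Fin 13 → Bool) i ≠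
    (![false, true, true, false, true, false, true, true, false, true, false, true, false] :
      Fin 13 → Bool) j := by
  unfold F2
  decide

private theorem bW_col3 : ∀ i j : Fin 12, F3.Adj i j →
    (![false, true, false, true, false, true, false, true, true, false, true, false] :
      Fin 12 → Bool) i ≠
    (![false, true, false, true, false, true, false, true, true, false, true, false] :
      Fin 12 → Bool) j := by
  unfold F3
  decide

private theorem bW_CoM {V : Type} {D : SimpleGraph V} {m m' : ℕ} (h : m' ≤ m) (hC : CoM D m) :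
    CoM D m' := by
  obtain ⟨a, b, hab⟩ := hC
  exact ⟨a, b, fun i hi j hj => hab i (by omega) j (by omega)⟩

private theorem bW_Step {α : Type} [PartialOrder α] {m m' : ℕ} (h : m' ≤ m) {a b : ℕ → α}
    (hS : Step m a b) : Step m' a b := fun k hk l hl => hS k (by omega) l (by omega)

private theorem bW_Alt {α : Type} [PartialOrder α] {m m' r : ℕ} (h : m' ≤ m) {v : ℕ → ℕ → α}
    (hA : Alt m r v) : Alt m' r v where
  odd := hA.odd
  ev i hi h0 := bW_Step h (hA.ev i hi h0)
  od i hi h0 := bW_Step h (hA.od i hi h0)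
  clo k hk l hl := hA.clo k (by omega) l (by omega)

theorem bW (h1 : S_Carve) (h2 : S_Deg) (h3 : S_Bundle) (h4 : S_SymC) (h5 : S_Pre) (h6 : S_Bad2)
    (h7 : S_SymG) (h8 : S_CarvLay) (h9 : S_Alt) (h10 : S_Join) (h11 : S_GrpA) (h12 : S_GrpB)
    (h13 : S_CoM) (h14 : S_NoHGC) : S_BW := by
  intro w s
  obtain ⟨n, hn⟩ : ∃ n, n = 2 * w := ⟨_, rfl⟩
  obtain ⟨m13, hm13⟩ := h13 13 s
  obtain ⟨m12, hm12⟩ := h13 12 s
  obtain ⟨m₀, hm₀⟩ : ∃ m₀, m₀ = max m13 m12 := ⟨_, rfl⟩
  choose M₂ hM₂ using fun r => h12 r (200 + 8 * s)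
  choose M₁ hM₁ using fun r => h11 m₀ r (M₂ r)
  choose f hf using fun r => h9 w r ((Finset.range (r + 1)).sup M₁)
  obtain ⟨N₁, hN₁⟩ := h3 n (64 * n) f
  obtain ⟨N, hN⟩ : ∃ N, N = 4 * n + 8 * n * N₁ := ⟨_, rfl⟩
  refine ⟨2 + n * (N + 2) ^ n, ?_⟩
  intro V _ D hT hW hyp
  classical
  have hfin : Finite (Cl D) := Subtype.finite
  letI : Fintype (Cl D) := Fintype.ofFinite _
  obtain ⟨c, hc, hcs⟩ := h4 w V D hW
  subst hn
  obtain ⟨hσ, hΓ⟩ := h7 (2 * w) V D c hc hcs
  have hdeg := h2 (2 * w) (Cl D) c Finset.univ hc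
  have hnoC : ¬ CoM D m₀ := by
    intro hC
    rcases hyp with h | h | h
    · exact h (hm13 V D F1 _ bW_col1 hT (bW_CoM (by omega) hC))
    · exact h (hm13 V D F2 _ bW_col2 hT (bW_CoM (by omega) hC))
    · exact h (hm12 V D F3 _ bW_col3 hT (bW_CoM (by omega) hC))
  rcases h1 (Finset (Cl D)) (WB (Gam c Finset.univ) (sg D)) (4 * (2 * w)) N
    (fun b b' => bW_wt_symm _ _ _)
    (fun b => by
      have := bW_deg h5 (Gam c Finset.univ) (sg D) (2 * (2 * w)) hdeg b
      omega)
    (by omega) with hcarv | ⟨Z, hZ⟩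
  · exact h8 (2 * w) N V D c hT hc hcarv
  · exfalso
    obtain ⟨U, S, hSU, hNS, hWL⟩ := h6 (Cl D) (Gam c Finset.univ) (sg D) (2 * (2 * w))
      (4 * (2 * w)) N (4 * (2 * w)) Z hσ hΓ hdeg hZ
    have hWL' : WL c U S (4 * (2 * w)) (64 * (2 * w)) := by
      refine ⟨hSU, fun Y hY a b => ?_⟩
      refine (hWL Y hY a b).trans ?_
      have e : 16 * (4 * (2 * w)) = 64 * (2 * w) := by ring
      rw [e]
      refine Nat.mul_le_mul_left _ (bW_wt_le _ _ _ _ fun x hx y hy hxy => ?_)
      have hxU : x ∈ U := hY hx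
      have hyU : y ∈ U := (Finset.mem_sdiff.1 hy).1
      rcases hxy with h | h | h
      · exact Or.inl ⟨hxU, hyU, h.2.2.1, h.2.2.2.1, fun z hz => h.2.2.2.2 z (Finset.mem_univ z)⟩
      · exact Or.inr (Or.inl ⟨hyU, hxU, h.2.2.1, h.2.2.2.1,
          fun z hz => h.2.2.2.2 z (Finset.mem_univ z)⟩)
      · exact Or.inr (Or.inr ⟨hxU, hyU, h.2.2⟩)
    have hS : N₁ ≤ S.card := by
      rw [hN] at hNS
      have e : 8 * (2 * w) * N₁ < 8 * (2 * w) * S.card := by
        have e1 : 4 * (2 * (2 * w)) * S.card = 8 * (2 * w) * S.card := by ring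
        omega
      exact (lt_of_mul_lt_mul_left e (Nat.zero_le _)).le
    obtain ⟨r, v, hB, hcl⟩ := hN₁ (Cl D) c U S hc hWL' hS
    obtain ⟨r', v', hr', hA⟩ := hf r (Cl D) v (h10 V D) hW hB hcl
    have hA' : Alt (M₁ r') r' v' :=
      bW_Alt (Finset.le_sup (f := M₁) (Finset.mem_range.2 (by omega))) hA
    obtain ⟨z, hz⟩ := hM₁ r' V D v' hnoC hA'
    obtain ⟨z', E, hE⟩ := hM₂ r' V D z hz
    exact h14 s V D hT hyp _ r' z' E le_rfl hE

end Pool.Agent.MPd439b2.W
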