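import Pool.Agent.Lib.MP_d439b2_co.W.SpecD

/-! Bounded width in the form of a class of graphs. -/

set_option autoImplicit false

namespace Pool.Agent.MPd439b2.W

open Pool.Agent.MPd439b2

private theorem bWk_tri {V : Type} (G : SimpleGraph V)
    (h : ¬ IsIndMinor (⊥ : SimpleGraph (Fin 3)) G) : TriFree Gᶜ := by
  intro x y z hxy hxz hyz
  apply h
  have e1 : ¬ Tch G {x} {y} := by
    rintro ⟨a, ha, b, hb, hab⟩
    rw [Set.mem_singleton_iff] at ha hb
    subst ha hb
    exact hxy.2 hab
  have e2 : ¬ Tch G {x} {z} := by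
    rintro ⟨a, ha, b, hb, hab⟩
    rw [Set.mem_singleton_iff] at ha hb
    subst ha hb
    exact hxz.2 hab
  have e3 : ¬ Tch G {y} {z} := by
    rintro ⟨a, ha, b, hb, hab⟩
    rw [Set.mem_singleton_iff] at ha hb
    subst ha hb
    exact hyz.2 hab
  have d1 : Disjoint ({x} : Set V) {y} := Set.disjoint_singleton.2 hxy.1
  have d2 : Disjoint ({x} : Set V) {z} := Set.disjoint_singleton.2 hxz.1
  have d3 : Disjoint ({y} : Set V) {z} := Set.disjoint_singleton.2 hyz.1
  rw [← ims_univ_iff]
  refine ⟨![{x}, {y}, {z}], fun _ => Set.subset_univ _, ?_, ?_, ?_⟩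
  · intro w
    fin_cases w
    · exact Conn.singleton G x
    · exact Conn.singleton G y
    · exact Conn.singleton G z
  · intro w w' hw
    fin_cases w <;> fin_cases w' <;> first | exact absurd rfl hw | skip
    · exact d1
    · exact d2
    · exact d1.symm
    · exact d3
    · exact d2.symm
    · exact d3.symm
  · intro w w' hw
    fin_cases w <;> fin_cases w' <;> first | exact absurd rfl hw | skip
    · exact ⟨fun h => absurd h (by simp), fun h => absurd h e1⟩
    · exact ⟨fun h => absurd h (by simp), fun h => absurd h e2⟩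
    · exact ⟨fun h => absurd h (by simp), fun h => absurd h.symm e1⟩
    · exact ⟨fun h => absurd h (by simp), fun h => absurd h e3⟩
    · exact ⟨fun h => absurd h (by simp), fun h => absurd h.symm e2⟩
    · exact ⟨fun h => absurd h (by simp), fun h => absurd h.symm e3⟩

theorem bWk (h1 : S_BW) (h2 : S_LayC) (h3 : S_Wid) (h4 : S_LayCW) : S_BWk := by
  intro k s
  obtain ⟨w, hw⟩ := h3 k s
  obtain ⟨N, hN⟩ := h1 w s
  refine ⟨3 * (N + 1 + 1), fun V _ _ G g1 g2 g3 => ?_⟩
  have hT := bWk_tri G g1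
  have hc : Gᶜᶜ = G := compl_compl G
  have hwid : WidP (Cl Gᶜ) w := hw V Gᶜ hT (by rw [hc]; exact g2)
  have hlay : Lay Gᶜ N Set.univ := hN V Gᶜ hT hwid (by rw [hc]; exact g3)
  have hlay2 := h2 V Gᶜ N Set.univ hlay
  rw [hc] at hlay2
  exact h4 V G (N + 1) hlay2

end Pool.Agent.MPd439b2.W
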