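import Pool.Agent.Lib.MP_d439b2_co.W.SpecD

/-!
# MP_d439b2_co, W, D5: from bad sets of blocks to well linked sets of elements
-/

set_option autoImplicit false

namespace Pool.Agent.MPd439b2.W

open Pool.Agent.MPd439b2

section wtl

variable {α : Type} [DecidableEq α]

private theorem bad2_union_left (w : α → α → ℕ) {A B : Finset α} (C : Finset α)
    (h : Disjoint A B) : wt w (A ∪ B) C = wt w A C + wt w B C := Finset.sum_union h

private theorem bad2_union_right (w : α → α → ℕ) (C : Finset α) {A B : Finset α}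
    (h : Disjoint A B) : wt w C (A ∪ B) = wt w C A + wt w C B := by
  unfold wt
  rw [← Finset.sum_add_distrib]
  exact Finset.sum_congr rfl fun x _ => Finset.sum_union h

private theorem bad2_mono (w : α → α → ℕ) {A B C D : Finset α} (h : A ⊆ B) (h' : C ⊆ D) :
    wt w A C ≤ wt w B D := by
  unfold wt
  exact (Finset.sum_le_sum fun x _ => Finset.sum_le_sum_of_subset h').trans
    (Finset.sum_le_sum_of_subset h)

private theorem bad2_ind_symm (Γ : SimpleGraph α) (x y : α) : ind Γ x y = ind Γ y x := by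
  unfold ind
  by_cases h : Γ.Adj x y
  · rw [if_pos h, if_pos h.symm]
  · rw [if_neg h, if_neg fun h' => h h'.symm]

private theorem bad2_symm (Γ : SimpleGraph α) (A B : Finset α) :
    wt (ind Γ) A B = wt (ind Γ) B A := by
  unfold wt
  rw [Finset.sum_comm]
  exact Finset.sum_congr rfl fun x _ => Finset.sum_congr rfl fun y _ => bad2_ind_symm Γ _ _

private theorem bad2_image (Γ : SimpleGraph α) (σ : α → α) (hσ : ∀ x, σ (σ x) = x)
    (hΓ : ∀ x y, Γ.Adj (σ x) (σ y) ↔ Γ.Adj x y) (A B : Finset α) :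
    wt (ind Γ) (A.image σ) (B.image σ) = wt (ind Γ) A B := by
  have hinj : Function.Injective σ := fun x y h => by rw [← hσ x, h, hσ]
  unfold wt
  rw [Finset.sum_image fun x _ y _ h => hinj h]
  refine Finset.sum_congr rfl fun x _ => ?_
  rw [Finset.sum_image fun x _ y _ h => hinj h]
  refine Finset.sum_congr rfl fun y _ => ?_
  unfold ind
  by_cases h : Γ.Adj x y
  · rw [if_pos h, if_pos ((hΓ x y).2 h)]
  · rw [if_neg h, if_neg fun h' => h ((hΓ x y).1 h')]

/-- lower and upper bound by the number of the elements with neighbours outside -/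
private theorem bad2_mu (Γ : SimpleGraph α) (d : ℕ) (hd : ∀ x A, wt (ind Γ) {x} A ≤ d)
    (C S₀ A : Finset α) (h1 : ∀ x ∈ A, x ∈ S₀ → ∃ y ∈ C, Γ.Adj x y)
    (h2 : ∀ x ∈ A, x ∉ S₀ → ∀ y ∈ C, ¬ Γ.Adj x y) :
    (A ∩ S₀).card ≤ wt (ind Γ) A C ∧ wt (ind Γ) A C ≤ d * (A ∩ S₀).card := by
  have hs : ∀ x, wt (ind Γ) {x} C = ∑ y ∈ C, ind Γ x y := fun x => by
    unfold wt
    rw [Finset.sum_singleton]
  have h0 : wt (ind Γ) A C = ∑ x ∈ A ∩ S₀, ∑ y ∈ C, ind Γ x y := by
    unfold wt
    symm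
    apply Finset.sum_subset Finset.inter_subset_left
    intro x hx hx'
    apply Finset.sum_eq_zero
    intro y hy
    have hx0 : x ∉ S₀ := fun h => hx' (Finset.mem_inter.2 ⟨hx, h⟩)
    unfold ind
    rw [if_neg (h2 x hx hx0 y hy)]
  rw [h0]
  constructor
  · rw [Finset.card_eq_sum_ones]
    refine Finset.sum_le_sum fun x hx => ?_
    obtain ⟨y, hy, hxy⟩ := h1 x (Finset.mem_inter.1 hx).1 (Finset.mem_inter.1 hx).2
    have : ind Γ x y = 1 := by
      unfold ind
      rw [if_pos hxy]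
    rw [← this]
    exact Finset.single_le_sum (f := fun y => ind Γ x y) (fun _ _ => Nat.zero_le _) hy
  · rw [mul_comm, ← smul_eq_mul]
    refine Finset.sum_le_card_nsmul _ _ _ fun x _ => ?_
    rw [← hs]
    exact hd x C

end wtl

section main

variable {α : Type} [Fintype α] [DecidableEq α]

private theorem bad2_blk (σ : α → α) (hσ : ∀ x, σ (σ x) = x) (x : α) :
    blk σ (σ x) = blk σ x := by
  unfold blk
  rw [hσ, Finset.pair_comm]

private theorem bad2_mem_pre (σ : α → α) (Z : Finset (Finset α)) (x : α) :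
    x ∈ pre σ Z ↔ blk σ x ∈ Z := by
  unfold pre
  simp

/-- property (B) -/
private theorem bad2_B (h1 : S_Pre) (Γ : SimpleGraph α) (σ : α → α) (Δ N : ℕ)
    (Z : Finset (Finset α)) (hB : Bad (WB Γ σ) Δ N Z) (T : Finset α)
    (hT : T ⊆ pre σ Z) (hσT : ∀ x ∈ T, σ x ∈ T) :
    min (wt (ind Γ) T (pre σ Z)ᶜ) (wt (ind Γ) (pre σ Z \ T) (pre σ Z)ᶜ) ≤
      wt (ind Γ) T (pre σ Z \ T) := by
  have hZT : T.image (blk σ) ⊆ Z := by
    intro b hb
    obtain ⟨x, hx, rfl⟩ := Finset.mem_image.1 hb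
    exact (bad2_mem_pre σ Z x).1 (hT hx)
  have hpT : pre σ (T.image (blk σ)) = T := by
    ext x
    rw [bad2_mem_pre]
    constructor
    · intro h
      obtain ⟨t, ht, htx⟩ := Finset.mem_image.1 h
      have : x ∈ blk σ t := by
        rw [htx]
        unfold blk
        simp
      unfold blk at this
      rcases Finset.mem_insert.1 this with h | h
      · rw [h]
        exact ht
      · rw [Finset.mem_singleton.1 h]
        exact hσT t ht
    · intro h
      exact Finset.mem_image_of_mem _ h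
  have hpd : pre σ (Z \ T.image (blk σ)) = pre σ Z \ T := by
    ext x
    rw [bad2_mem_pre, Finset.mem_sdiff, Finset.mem_sdiff, bad2_mem_pre, ← bad2_mem_pre σ
      (T.image (blk σ)), hpT]
  have h := hB.2.2 _ hZT
  rw [(h1 α Γ σ _ _).1, (h1 α Γ σ _ _).1, (h1 α Γ σ _ _).1, (h1 α Γ σ Z Z).2, hpT, hpd] at h
  exact h

private theorem bad2_sets {σ : α → α} {W X X' P A A' O : Finset α}
    (h1 : ∀ x, x ∈ X → x ∈ W) (h2 : ∀ x, σ x ∈ X → x ∈ W)
    (hmX' : ∀ x, x ∈ X' ↔ σ x ∈ X) (mP : ∀ x, x ∈ P ↔ x ∈ X ∧ σ x ∈ X)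
    (mA : ∀ x, x ∈ A ↔ x ∈ X ∧ σ x ∉ X) (mA' : ∀ x, x ∈ A' ↔ σ x ∈ X ∧ x ∉ X)
    (mO : ∀ x, x ∈ O ↔ x ∈ W ∧ x ∉ X ∧ σ x ∉ X) :
    X = P ∪ A ∧ X' = P ∪ A' ∧ W \ X = A' ∪ O ∧ W \ X' = A ∪ O ∧ W \ P = A ∪ (A' ∪ O) ∧
      W \ O = P ∪ (A ∪ A') ∧ W \ A = P ∪ (A' ∪ O) ∧ W \ A' = P ∪ (A ∪ O) := by
  refine ⟨?_, ?_, ?_, ?_, ?_, ?_, ?_, ?_⟩
  all_goals
    ext x
    simp only [Finset.mem_sdiff, Finset.mem_union, mP, mA, mA', mO, hmX']
    have e1 := h1 x
    have e2 := h2 x
    clear h1 h2 hmX' mP mA mA' mO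
    by_cases a1 : x ∈ X <;> by_cases a2 : σ x ∈ X <;> by_cases a3 : x ∈ W <;>
      simp only [a1, a2, a3, not_true_eq_false, not_false_eq_true, and_true, and_false, or_true,
        or_false, true_and, false_and, and_self, or_self, true_or, false_or, iff_self,
        forall_const, imp_false, false_implies, true_implies] at e1 e2 ⊢

theorem bad2 (h1 : S_Pre) : S_Bad2 := by
  intro α _ _ Γ σ d Δ N b Z hσ hΓ hd hB
  have hinj : Function.Injective σ := fun x y h => by rw [← hσ x, h, hσ]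
  obtain ⟨W, hW⟩ : ∃ W, W = pre σ Z := ⟨_, rfl⟩
  have hWσ : ∀ x, σ x ∈ W ↔ x ∈ W := by
    intro x
    rw [hW, bad2_mem_pre, bad2_mem_pre, bad2_blk σ hσ]
  have hBB := bad2_B h1 Γ σ Δ N Z hB
  rw [← hW] at hBB
  have hN : N < wt (ind Γ) W Wᶜ + Δ := by
    have := hB.1
    rw [(h1 α Γ σ _ _).1, (h1 α Γ σ Z Z).2, ← hW] at this
    exact this
  -- images
  have hmi : ∀ (A : Finset α) (x : α), x ∈ A.image σ ↔ σ x ∈ A := by
    intro A x
    rw [Finset.mem_image]
    constructor
    · rintro ⟨y, hy, rfl⟩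
      rwa [hσ]
    · intro h
      exact ⟨σ x, h, hσ x⟩
  have hWi : W.image σ = W := by
    ext x
    rw [hmi, hWσ]
  have hci : ∀ A : Finset α, (A.image σ).card = A.card := fun A =>
    Finset.card_image_of_injective A hinj
  have hwi := bad2_image Γ σ hσ hΓ
  -- `S₀`
  classical
  obtain ⟨S₀, hS₀⟩ : ∃ S₀ : Finset α, ∀ x, x ∈ S₀ ↔ x ∈ W ∧ ∃ y, y ∉ W ∧ Γ.Adj x y :=
    ⟨W.filter fun x => ∃ y, y ∉ W ∧ Γ.Adj x y, fun x => by rw [Finset.mem_filter]⟩
  have hS₀σ : ∀ x, σ x ∈ S₀ ↔ x ∈ S₀ := by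
    intro x
    rw [hS₀, hS₀, hWσ]
    refine and_congr_right fun _ => ⟨?_, ?_⟩
    · rintro ⟨y, hy, hxy⟩
      refine ⟨σ y, fun h => hy ((hWσ y).1 h), ?_⟩
      rw [← hΓ, hσ]
      exact hxy
    · rintro ⟨y, hy, hxy⟩
      exact ⟨σ y, fun h => hy ((hWσ y).1 h), (hΓ x y).2 hxy⟩
  have hμ : ∀ A : Finset α, A ⊆ W → (A ∩ S₀).card ≤ wt (ind Γ) A Wᶜ ∧
      wt (ind Γ) A Wᶜ ≤ d * (A ∩ S₀).card := by
    intro A hA
    apply bad2_mu Γ d hd
    · intro x _ hx
      obtain ⟨y, hy, hxy⟩ := ((hS₀ x).1 hx).2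
      exact ⟨y, Finset.mem_compl.2 hy, hxy⟩
    · intro x hx hx0 y hy hxy
      exact hx0 ((hS₀ x).2 ⟨hA hx, y, Finset.mem_compl.1 hy, hxy⟩)
  have hS₀W : S₀ ⊆ W := fun x hx => ((hS₀ x).1 hx).1
  have hNS : N < Δ + d * S₀.card := by
    have h := (hμ W (Finset.Subset.refl _)).2
    rw [Finset.inter_eq_right.2 hS₀W] at h
    omega
  by_cases hcase : ∀ X ⊆ W, S₀.card ≤ b * (X ∩ S₀).card → S₀.card ≤ b * (S₀ \ X).card →
      S₀.card ≤ 16 * b * wt (ind Γ) X (W \ X)
  · refine ⟨W, S₀, hS₀W, ?_, hcase⟩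
    have : d * S₀.card ≤ 4 * d * S₀.card := Nat.mul_le_mul_right _ (by omega)
    omega
  · push Not at hcase
    obtain ⟨X, hXW, hX1, hX2, hX3⟩ := hcase
    obtain ⟨ε, hε⟩ : ∃ ε, ε = wt (ind Γ) X (W \ X) := ⟨_, rfl⟩
    rw [← hε] at hX3
    have hb : 0 < b := by
      rcases Nat.eq_zero_or_pos b with h | h
      · rw [h] at hX1 hX3
        omega
      · exact h
    have hX4 : 16 * ε < (X ∩ S₀).card := by
      have : b * (16 * ε) < b * (X ∩ S₀).card := by
        calc b * (16 * ε) = 16 * b * ε := by ring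
          _ < S₀.card := hX3
          _ ≤ _ := hX1
      exact lt_of_mul_lt_mul_left this (Nat.zero_le b)
    have hX5 : 16 * ε < (S₀ \ X).card := by
      have : b * (16 * ε) < b * (S₀ \ X).card := by
        calc b * (16 * ε) = 16 * b * ε := by ring
          _ < S₀.card := hX3
          _ ≤ _ := hX2
      exact lt_of_mul_lt_mul_left this (Nat.zero_le b)
    -- the image of `X`
    obtain ⟨X', hX'⟩ : ∃ X', X' = X.image σ := ⟨_, rfl⟩
    have hmX' : ∀ x, x ∈ X' ↔ σ x ∈ X := by
      intro x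
      rw [hX', hmi]
    have hX'W : X' ⊆ W := by
      intro x hx
      exact (hWσ x).1 (hXW ((hmX' x).1 hx))
    have hε' : wt (ind Γ) X' (W \ X') = ε := by
      have : W \ X' = (W \ X).image σ := by
        ext x
        rw [hmi, Finset.mem_sdiff, Finset.mem_sdiff, hmX', hWσ]
      rw [this, hX', hwi, hε]
    obtain ⟨P, hP⟩ : ∃ P, P = X ∩ X' := ⟨_, rfl⟩
    obtain ⟨A, hA⟩ : ∃ A, A = X \ X' := ⟨_, rfl⟩
    obtain ⟨A', hA'⟩ : ∃ A', A' = X' \ X := ⟨_, rfl⟩
    obtain ⟨O, hO⟩ : ∃ O, O = W \ (X ∪ X') := ⟨_, rfl⟩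
    have mP : ∀ x, x ∈ P ↔ x ∈ X ∧ σ x ∈ X := fun x => by rw [hP, Finset.mem_inter, hmX']
    have mA : ∀ x, x ∈ A ↔ x ∈ X ∧ σ x ∉ X := fun x => by rw [hA, Finset.mem_sdiff, hmX']
    have mA' : ∀ x, x ∈ A' ↔ σ x ∈ X ∧ x ∉ X := fun x => by rw [hA', Finset.mem_sdiff, hmX']
    have mO : ∀ x, x ∈ O ↔ x ∈ W ∧ x ∉ X ∧ σ x ∉ X := fun x => by
      rw [hO, Finset.mem_sdiff, Finset.mem_union, hmX', not_or]
    have hPW : P ⊆ W := fun x hx => hXW ((mP x).1 hx).1
    have hAW : A ⊆ W := fun x hx => hXW ((mA x).1 hx).1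
    have hA'W : A' ⊆ W := fun x hx => hX'W ((hmX' x).2 ((mA' x).1 hx).1)
    have hOW : O ⊆ W := fun x hx => ((mO x).1 hx).1
    have dPA : Disjoint P A := by
      rw [Finset.disjoint_left]
      intro x hx hx'
      exact ((mA x).1 hx').2 ((mP x).1 hx).2
    have dPA' : Disjoint P A' := by
      rw [Finset.disjoint_left]
      intro x hx hx'
      exact ((mA' x).1 hx').2 ((mP x).1 hx).1
    have dPO : Disjoint P O := by
      rw [Finset.disjoint_left]
      intro x hx hx'
      exact ((mO x).1 hx').2.1 ((mP x).1 hx).1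
    have dAA' : Disjoint A A' := by
      rw [Finset.disjoint_left]
      intro x hx hx'
      exact ((mA x).1 hx).2 ((mA' x).1 hx').1
    have dAO : Disjoint A O := by
      rw [Finset.disjoint_left]
      intro x hx hx'
      exact ((mO x).1 hx').2.1 ((mA x).1 hx).1
    have dA'O : Disjoint A' O := by
      rw [Finset.disjoint_left]
      intro x hx hx'
      exact ((mO x).1 hx').2.2 ((mA' x).1 hx).1
    -- the sets in terms of the parts
    obtain ⟨sX, sX', sWX, sWX', sWP, sWO, sWA, sWA'⟩ :=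
      bad2_sets (σ := σ) (fun x h => hXW h) (fun x h => (hWσ x).1 (hXW h)) hmX' mP mA mA' mO
    have sWQ : W \ (W \ O) = O := Finset.sdiff_sdiff_eq_self hOW
    -- the six weights
    have eX : ε = wt (ind Γ) P A' + wt (ind Γ) P O + (wt (ind Γ) A A' + wt (ind Γ) A O) := by
      rw [hε, sWX]
      conv_lhs => rw [sX]
      rw [bad2_union_left _ _ dPA, bad2_union_right _ _ dA'O, bad2_union_right _ _ dA'O]
    have eX' : ε = wt (ind Γ) P A + wt (ind Γ) P O + (wt (ind Γ) A' A + wt (ind Γ) A' O) := by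
      rw [← hε', sWX']
      conv_lhs => rw [sX']
      rw [bad2_union_left _ _ dPA', bad2_union_right _ _ dAO, bad2_union_right _ _ dAO]
    have eP : wt (ind Γ) P (W \ P) = wt (ind Γ) P A + (wt (ind Γ) P A' + wt (ind Γ) P O) := by
      rw [sWP, bad2_union_right _ _ (Finset.disjoint_union_right.2 ⟨dAA', dAO⟩),
        bad2_union_right _ _ dA'O]
    have eQ : wt (ind Γ) (W \ O) O = wt (ind Γ) P O + (wt (ind Γ) A O + wt (ind Γ) A' O) := by
      rw [sWO, bad2_union_left _ _ (Finset.disjoint_union_right.2 ⟨dPA, dPA'⟩),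
        bad2_union_left _ _ dAA']
    have eA : wt (ind Γ) A (W \ A) = wt (ind Γ) A P + (wt (ind Γ) A A' + wt (ind Γ) A O) := by
      rw [sWA, bad2_union_right _ _ (Finset.disjoint_union_right.2 ⟨dPA', dPO⟩),
        bad2_union_right _ _ dA'O]
    have eA' : wt (ind Γ) A' (W \ A') =
        wt (ind Γ) A' P + (wt (ind Γ) A' A + wt (ind Γ) A' O) := by
      rw [sWA', bad2_union_right _ _ (Finset.disjoint_union_right.2 ⟨dPA, dPO⟩),
        bad2_union_right _ _ dAO]
    have sAA' := bad2_symm Γ A A'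
    have sPA := bad2_symm Γ P A
    have sPA' := bad2_symm Γ P A'
    have iA : A.image σ = A' := by
      ext x
      rw [hmi, mA, mA', hσ]
    have eAA' : wt (ind Γ) A' (W \ A') = wt (ind Γ) A (W \ A) := by
      have : W \ A' = (W \ A).image σ := by
        ext x
        rw [hmi, Finset.mem_sdiff, Finset.mem_sdiff, hWσ, ← iA, hmi]
      rw [this, ← iA, hwi]
    have hAε : wt (ind Γ) A (W \ A) ≤ ε := by omega
    -- `P` and `O`
    have bP := hBB P hPW (fun x hx => by
      rw [mP] at hx ⊢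
      rw [hσ]
      exact ⟨hx.2, hx.1⟩)
    have bQ := hBB (W \ O) Finset.sdiff_subset (fun x hx => by
      rw [Finset.mem_sdiff, mO] at hx ⊢
      rw [hσ, hWσ]
      tauto)
    rw [sWQ] at bQ
    have mWP := (hμ (W \ P) Finset.sdiff_subset).1
    have mQ := (hμ (W \ O) Finset.sdiff_subset).1
    have c1 : (S₀ \ X).card ≤ ((W \ P) ∩ S₀).card := by
      apply Finset.card_le_card
      intro x hx
      rw [Finset.mem_sdiff] at hx
      rw [Finset.mem_inter, Finset.mem_sdiff, mP]
      exact ⟨⟨hS₀W hx.1, fun h => hx.2 h.1⟩, hx.1⟩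
    have c2 : (X ∩ S₀).card ≤ ((W \ O) ∩ S₀).card := by
      apply Finset.card_le_card
      intro x hx
      rw [Finset.mem_inter] at hx
      rw [Finset.mem_inter, Finset.mem_sdiff, mO]
      exact ⟨⟨hXW hx.1, fun h => h.2.1 hx.1⟩, hx.2⟩
    have fP : wt (ind Γ) P Wᶜ ≤ wt (ind Γ) P (W \ P) := by
      rcases min_le_iff.1 bP with h | h
      · exact h
      · omega
    have fO : wt (ind Γ) O Wᶜ ≤ wt (ind Γ) (W \ O) O := by
      rcases min_le_iff.1 bQ with h | h
      · omega
      · exact h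
    have gP := (hμ P hPW).1
    have gO := (hμ O hOW).1
    -- counting `S₀`
    obtain ⟨S, hS⟩ : ∃ S, S = A ∩ S₀ := ⟨_, rfl⟩
    have cS' : (A' ∩ S₀).card = S.card := by
      have : A' ∩ S₀ = S.image σ := by
        ext x
        rw [hmi, hS, Finset.mem_inter, Finset.mem_inter, hS₀σ, ← iA, hmi]
      rw [this, hci]
    have cS₀ : S₀.card = (P ∩ S₀).card + (O ∩ S₀).card + S.card + (A' ∩ S₀).card := by
      have hu : S₀ = (P ∩ S₀) ∪ ((O ∩ S₀) ∪ (S ∪ (A' ∩ S₀))) := by
        ext x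
        rw [Finset.mem_union, Finset.mem_union, Finset.mem_union, hS, Finset.mem_inter,
          Finset.mem_inter, Finset.mem_inter, Finset.mem_inter, mP, mO, mA, mA']
        have := fun h : x ∈ S₀ => hS₀W h
        tauto
      conv_lhs => rw [hu]
      rw [Finset.card_union_of_disjoint, Finset.card_union_of_disjoint,
        Finset.card_union_of_disjoint]
      · ring
      · rw [hS]
        exact dAA'.mono Finset.inter_subset_left Finset.inter_subset_left
      · rw [hS, Finset.disjoint_union_right]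
        exact ⟨dAO.symm.mono Finset.inter_subset_left Finset.inter_subset_left,
          dA'O.symm.mono Finset.inter_subset_left Finset.inter_subset_left⟩
      · rw [hS, Finset.disjoint_union_right, Finset.disjoint_union_right]
        exact ⟨dPO.mono Finset.inter_subset_left Finset.inter_subset_left,
          dPA.mono Finset.inter_subset_left Finset.inter_subset_left,
          dPA'.mono Finset.inter_subset_left Finset.inter_subset_left⟩
    have cX : (X ∩ S₀).card ≤ S₀.card := Finset.card_le_card Finset.inter_subset_right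
    have h4S : S₀.card ≤ 4 * S.card := by omega
    refine ⟨A, S, by rw [hS]; exact Finset.inter_subset_left, ?_, ?_⟩
    · have : d * S₀.card ≤ 4 * d * S.card := by
        calc d * S₀.card ≤ d * (4 * S.card) := Nat.mul_le_mul_left _ h4S
          _ = 4 * d * S.card := by ring
      omega
    · intro Y hY hY1 hY2
      have h4b : 4 * (b * ε) < S.card := by
        have : 16 * b * ε = 4 * (4 * (b * ε)) := by ring
        omega
      obtain ⟨T, hT⟩ : ∃ T, T = Y ∪ Y.image σ := ⟨_, rfl⟩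
      have mT : ∀ x, x ∈ T ↔ x ∈ Y ∨ σ x ∈ Y := fun x => by rw [hT, Finset.mem_union, hmi]
      have hTW : T ⊆ W := by
        intro x hx
        rcases (mT x).1 hx with h | h
        · exact hAW (hY h)
        · exact (hWσ x).1 (hAW (hY h))
      have hTσ : ∀ x ∈ T, σ x ∈ T := by
        intro x hx
        rw [mT] at hx ⊢
        rw [hσ]
        exact hx.symm
      have bT := hBB T hTW hTσ
      have dY : Disjoint Y (Y.image σ) := by
        rw [Finset.disjoint_left]
        intro x hx hx'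
        rw [hmi] at hx'
        exact ((mA x).1 (hY hx)).2 ((mA _).1 (hY hx')).1
      have hWci : Wᶜ.image σ = Wᶜ := by
        ext x
        rw [hmi, Finset.mem_compl, Finset.mem_compl, hWσ]
      have hWTi : (W \ T).image σ = W \ T := by
        ext x
        rw [hmi, Finset.mem_sdiff, Finset.mem_sdiff, hWσ, mT, mT, hσ]
        tauto
      have t1 : wt (ind Γ) T Wᶜ = 2 * wt (ind Γ) Y Wᶜ := by
        have e1 : wt (ind Γ) (Y.image σ) Wᶜ = wt (ind Γ) Y Wᶜ := by
          conv_lhs => rw [← hWci]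
          exact hwi _ _
        rw [hT, bad2_union_left _ _ dY, e1]
        ring
      have t2 : 2 * wt (ind Γ) (A \ Y) Wᶜ ≤ wt (ind Γ) (W \ T) Wᶜ := by
        have e1 : wt (ind Γ) ((A \ Y).image σ) Wᶜ = wt (ind Γ) (A \ Y) Wᶜ := by
          conv_lhs => rw [← hWci]
          exact hwi _ _
        have dd : Disjoint (A \ Y) ((A \ Y).image σ) := by
          rw [Finset.disjoint_left]
          intro x hx hx'
          rw [hmi, Finset.mem_sdiff] at hx'
          rw [Finset.mem_sdiff] at hx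
          exact ((mA x).1 hx.1).2 ((mA _).1 hx'.1).1
        have e2 : (A \ Y) ∪ (A \ Y).image σ ⊆ W \ T := by
          intro x hx
          rw [Finset.mem_union, hmi, Finset.mem_sdiff, Finset.mem_sdiff, mA, mA, hσ] at hx
          rw [Finset.mem_sdiff, mT]
          have y1 : x ∈ Y → x ∈ X ∧ σ x ∉ X := fun h => (mA x).1 (hY h)
          have y2 : σ x ∈ Y → σ x ∈ X ∧ x ∉ X := fun h => by
            have := (mA _).1 (hY h)
            rwa [hσ] at this
          have y3 := fun h : x ∈ X => hXW h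
          have y4 := fun h : σ x ∈ X => (hWσ x).1 (hXW h)
          tauto
        have e3 := bad2_mono (ind Γ) e2 (Finset.Subset.refl Wᶜ)
        rw [bad2_union_left _ _ dd, e1] at e3
        omega
      have t3 : wt (ind Γ) T (W \ T) = 2 * wt (ind Γ) Y (W \ T) := by
        have e1 : wt (ind Γ) (Y.image σ) (W \ T) = wt (ind Γ) Y (W \ T) := by
          conv_lhs => rw [← hWTi]
          exact hwi _ _
        conv_lhs => rw [hT]
        rw [bad2_union_left _ _ dY, ← hT, e1]
        ring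
      have t4 : wt (ind Γ) Y (W \ T) ≤ wt (ind Γ) Y (A \ Y) + ε := by
        have e1 : W \ T ⊆ (A \ Y) ∪ (W \ A) := by
          intro x hx
          rw [Finset.mem_sdiff, mT] at hx
          rw [Finset.mem_union, Finset.mem_sdiff, Finset.mem_sdiff]
          tauto
        have d1 : Disjoint (A \ Y) (W \ A) := by
          rw [Finset.disjoint_left]
          intro x hx hx'
          exact (Finset.mem_sdiff.1 hx').2 (Finset.mem_sdiff.1 hx).1
        have e2 := bad2_mono (ind Γ) (Finset.Subset.refl Y) e1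
        rw [bad2_union_right _ _ d1] at e2
        have e3 := bad2_mono (ind Γ) hY (Finset.Subset.refl (W \ A))
        omega
      have t5 : (Y ∩ S).card ≤ wt (ind Γ) Y Wᶜ := by
        refine le_trans (Finset.card_le_card ?_) (hμ Y (hY.trans hAW)).1
        rw [hS]
        exact Finset.inter_subset_inter_left Finset.inter_subset_right
      have t6 : (S \ Y).card ≤ wt (ind Γ) (A \ Y) Wᶜ := by
        refine le_trans (Finset.card_le_card ?_) (hμ (A \ Y) (Finset.sdiff_subset.trans hAW)).1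
        intro x hx
        rw [hS, Finset.mem_sdiff, Finset.mem_inter] at hx
        rw [Finset.mem_inter, Finset.mem_sdiff]
        tauto
      have t7 : S.card ≤ b * (wt (ind Γ) Y (A \ Y) + ε) := by
        rcases min_le_iff.1 bT with h | h
        · refine hY1.trans (Nat.mul_le_mul_left _ ?_)
          omega
        · refine hY2.trans (Nat.mul_le_mul_left _ ?_)
          omega
      have t8 : b * (wt (ind Γ) Y (A \ Y) + ε) = b * wt (ind Γ) Y (A \ Y) + b * ε := by ring
      have t9 : 16 * b * wt (ind Γ) Y (A \ Y) = 16 * (b * wt (ind Γ) Y (A \ Y)) := by ring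
      rw [t8] at t7
      rw [t9]
      omega

end main

end Pool.Agent.MPd439b2.W
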