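import Pool.Agent.Lib.MP_d439b2_co.W.SpecA

/-!
# MP_d439b2_co, W: bad sets are well linked
-/

set_option autoImplicit false

namespace Pool.Agent.MPd439b2.W

open Pool.Agent.MPd439b2

namespace BadWLAux

section

variable {α : Type} [PartialOrder α] {n : ℕ} {c : α → Fin n}

theorem adj_left {U : Finset α} {x y : α} (h : (Gam c U).Adj x y) : x ∈ U := by
  rcases h with h | h | h
  · exact h.1
  · exact h.2.1
  · exact h.1

theorem adj_right {U : Finset α} {x y : α} (h : (Gam c U).Adj x y) : y ∈ U :=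
  adj_left h.symm

theorem cons_sub {U U' : Finset α} (hU : U' ⊆ U) {x y : α} (hx : x ∈ U') (hy : y ∈ U')
    (h : Cons c U x y) : Cons c U' x y :=
  ⟨hx, hy, h.2.2.1, h.2.2.2.1, fun z hz => h.2.2.2.2 z (hU hz)⟩

theorem adj_sub {U U' : Finset α} (hU : U' ⊆ U) {x y : α} (hx : x ∈ U') (hy : y ∈ U')
    (h : (Gam c U).Adj x y) : (Gam c U').Adj x y := by
  rcases h with h | h | h
  · exact Or.inl (cons_sub hU hx hy h)
  · exact Or.inr (Or.inl (cons_sub hU hy hx h))
  · exact Or.inr (Or.inr ⟨hx, hy, h.2.2⟩)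

end

theorem ind_of {α : Type} {Γ : SimpleGraph α} {x y : α} (h : Γ.Adj x y) : ind Γ x y = 1 := by
  unfold ind
  rw [if_pos h]

theorem ind_of_not {α : Type} {Γ : SimpleGraph α} {x y : α} (h : ¬ Γ.Adj x y) :
    ind Γ x y = 0 := by
  unfold ind
  rw [if_neg h]

theorem ind_mono {α : Type} {Γ Γ' : SimpleGraph α} {x y : α} (h : Γ.Adj x y → Γ'.Adj x y) :
    ind Γ x y ≤ ind Γ' x y := by
  by_cases h1 : Γ.Adj x y
  · rw [ind_of h1, ind_of (h h1)]
  · rw [ind_of_not h1]
    exact Nat.zero_le _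

end BadWLAux

open BadWLAux in
theorem badWL (h1 : S_Deg) : S_BadWL := by
  classical
  intro n α _ _ _ c U Z N b hc hbad
  obtain ⟨hN, _, hY⟩ := hbad
  set Γ := Gam c U with hΓ
  set S : Finset α := Z.filter (fun x => ∃ y, y ∉ Z ∧ Γ.Adj x y) with hS
  have hSZ : S ⊆ Z := Finset.filter_subset _ _
  have hcount : ∀ A : Finset α, (A ∩ S).card ≤ wt (ind Γ) A Zᶜ := by
    intro A
    unfold wt
    calc (A ∩ S).card = ∑ x ∈ A ∩ S, 1 := by simp
      _ ≤ ∑ x ∈ A ∩ S, ∑ y ∈ Zᶜ, ind Γ x y := by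
        refine Finset.sum_le_sum fun x hx => ?_
        have hx2 := (Finset.mem_filter.1 (Finset.mem_inter.1 hx).2).2
        obtain ⟨y, hy, hxy⟩ := hx2
        calc 1 = ind Γ x y := (ind_of hxy).symm
          _ ≤ ∑ y ∈ Zᶜ, ind Γ x y :=
            Finset.single_le_sum (f := fun y => ind Γ x y) (fun _ _ => Nat.zero_le _)
              (Finset.mem_compl.2 hy)
      _ ≤ ∑ x ∈ A, ∑ y ∈ Zᶜ, ind Γ x y :=
        Finset.sum_le_sum_of_subset Finset.inter_subset_left
  refine ⟨S, ⟨?_, ?_⟩, ?_⟩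
  · intro x hx
    have hx2 := (Finset.mem_filter.1 hx).2
    obtain ⟨y, _, hxy⟩ := hx2
    exact Finset.mem_inter.2 ⟨hSZ hx, adj_left hxy⟩
  · intro Y hYZ h2 h3
    have hYZ' : Y ⊆ Z := hYZ.trans Finset.inter_subset_left
    have h4 := hcount Y
    have h5 : (S \ Y).card ≤ wt (ind Γ) (Z \ Y) Zᶜ := by
      refine le_trans (Finset.card_le_card ?_) (hcount (Z \ Y))
      intro x hx
      rw [Finset.mem_sdiff] at hx
      rw [Finset.mem_inter, Finset.mem_sdiff]
      exact ⟨⟨hSZ hx.1, hx.2⟩, hx.1⟩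
    have h6 : S.card ≤ b * min (wt (ind Γ) Y Zᶜ) (wt (ind Γ) (Z \ Y) Zᶜ) := by
      rcases le_total (wt (ind Γ) Y Zᶜ) (wt (ind Γ) (Z \ Y) Zᶜ) with h | h
      · rw [min_eq_left h]
        exact h2.trans (Nat.mul_le_mul_left _ h4)
      · rw [min_eq_right h]
        exact h3.trans (Nat.mul_le_mul_left _ h5)
    refine h6.trans (Nat.mul_le_mul_left _ ((hY Y hYZ').trans ?_))
    unfold wt
    refine Finset.sum_le_sum fun x hx => ?_
    have e : ∑ y ∈ Z \ Y, ind Γ x y = ∑ y ∈ (Z ∩ U) \ Y, ind Γ x y := by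
      symm
      apply Finset.sum_subset
      · exact Finset.sdiff_subset_sdiff Finset.inter_subset_left (Finset.Subset.refl _)
      · intro y hy hy2
        apply ind_of_not
        intro hxy
        apply hy2
        rw [Finset.mem_sdiff] at hy ⊢
        exact ⟨Finset.mem_inter.2 ⟨hy.1, adj_right hxy⟩, hy.2⟩
    rw [e]
    refine Finset.sum_le_sum fun y hy => ?_
    exact ind_mono (adj_sub Finset.inter_subset_right (hYZ hx) (Finset.mem_sdiff.1 hy).1)
  · have h7 : wt (ind Γ) Z Zᶜ ≤ 2 * n * S.card := by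
      unfold wt
      have e : ∑ x ∈ Z, ∑ y ∈ Zᶜ, ind Γ x y = ∑ x ∈ S, ∑ y ∈ Zᶜ, ind Γ x y := by
        symm
        apply Finset.sum_subset hSZ
        intro x hx hx2
        apply Finset.sum_eq_zero
        intro y hy
        apply ind_of_not
        intro hxy
        exact hx2 (Finset.mem_filter.2 ⟨hx, y, Finset.mem_compl.1 hy, hxy⟩)
      rw [e]
      calc ∑ x ∈ S, ∑ y ∈ Zᶜ, ind Γ x y ≤ ∑ _x ∈ S, 2 * n := by
            refine Finset.sum_le_sum fun x _ => ?_
            have h8 := h1 n α c U hc x Zᶜ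
            unfold wt at h8
            rw [Finset.sum_singleton] at h8
            exact h8
        _ = 2 * n * S.card := by
            rw [Finset.sum_const, smul_eq_mul, mul_comm]
    calc N < wt (ind Γ) Z Zᶜ + 2 * n := hN
      _ ≤ 2 * n * S.card + 2 * n := Nat.add_le_add_right h7 _
      _ = 2 * n * (S.card + 1) := by ring

end Pool.Agent.MPd439b2.W
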