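import Pool.Agent.Lib.MP_d439b2_co.W.SpecD

/-!
# MP_d439b2_co, W, D7: from a carving of the blocks of `Cl D` to a layout of `D`
-/

set_option autoImplicit false

namespace Pool.Agent.MPd439b2.W

open Pool.Agent.MPd439b2

section

variable {V : Type}

/-- `x` is the closed set of the vertex `v` -/
private def ClV (D : SimpleGraph V) (v : V) (x : Cl D) : Prop := x.1 = cn D (cn D {v})

private theorem cl_sg_sg (D : SimpleGraph V) (x : Cl D) : sg D (sg D x) = x :=
  Subtype.ext x.2.1

private theorem cl_sg (D : SimpleGraph V) {u : V} {y : Cl D} (hy : ClV D u y) :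
    (sg D y).1 = cn D {u} := by
  change cn D y.1 = cn D {u}
  rw [hy, cn3]

private theorem cl_exists (D : SimpleGraph V) {u v : V} (h : D.Adj u v) :
    ∃ x : Cl D, ClV D u x := by
  refine ⟨⟨cn D (cn D {u}), cn3 D _, ⟨u, ?_⟩, ?_⟩, rfl⟩
  · exact sub_cn_cn D {u} rfl
  · rw [cn3]
    refine ⟨v, fun x hx => ?_⟩
    rw [Set.mem_singleton_iff.1 hx]
    exact h

private theorem cl_nb (D : SimpleGraph V) (v : V) : cn D {v} = D.neighborSet v := by
  ext u
  constructor
  · intro h
    exact h v rfl
  · intro h x hx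
    rw [Set.mem_singleton_iff.1 hx]
    exact h

private theorem cl_adj (D : SimpleGraph V) {u v : V} {x y : Cl D} (hx : ClV D v x)
    (hy : ClV D u y) : D.Adj v u ↔ x ≤ sg D y := by
  have h1 : x ≤ sg D y ↔ x.1 ⊆ (sg D y).1 := Iff.rfl
  rw [h1, cl_sg D hy, hx]
  constructor
  · intro h
    have e1 : ({v} : Set V) ⊆ cn D {u} := by
      intro w hw
      rw [Set.mem_singleton_iff.1 hw, cl_nb]
      exact h.symm
    have e2 := cn_anti (D := D) (cn_anti (D := D) e1)
    rwa [cn3] at e2
  · intro h
    have e1 := h (sub_cn_cn D {v} rfl)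
    rw [cl_nb] at e1
    exact SimpleGraph.Adj.symm e1

private theorem cl_types_le {D : SimpleGraph V} {k : ℕ} {A : Set V} (h : Lay D k A) :
    (Types D A).encard ≤ k := by
  cases h with
  | empty =>
    have : Types D ∅ = ∅ := by
      ext T
      constructor
      · rintro ⟨-, a, ha, -⟩
        exact absurd ha (Set.notMem_empty a)
      · intro h
        exact absurd h (Set.notMem_empty T)
    rw [this, Set.encard_empty]
    exact zero_le
  | single v h => exact h
  | union _ _ _ h => exact h

end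

section

variable {V : Type} (D : SimpleGraph V) [Fintype (Cl D)] [DecidableEq (Cl D)]

/-- the vertices of the blocks in `Z` -/
private def VZ (Z : Finset (Finset (Cl D))) : Set V := {v | ∃ x : Cl D, ClV D v x ∧ blk (sg D) x ∈ Z}

private theorem cl_blk (x : Cl D) : blk (sg D) (sg D x) = blk (sg D) x := by
  unfold blk
  rw [cl_sg_sg, Finset.pair_comm]

private theorem cl_mem_pre (Z : Finset (Finset (Cl D))) (x : Cl D) :
    x ∈ pre (sg D) Z ↔ blk (sg D) x ∈ Z := by
  unfold pre
  simp

private theorem cl_trace (h1 : S_Trace) (h2 : S_Pre) (n N : ℕ) (c : Cl D → Fin n)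
    (hc : ChainP c) (Z : Finset (Finset (Cl D)))
    (hZ : wt (WB (Gam c Finset.univ) (sg D)) Z Zᶜ ≤ N) :
    (Types D (VZ D Z)).encard ≤ (n * (N + 2) ^ n : ℕ) := by
  have h3 : wt (ind (Gam c Finset.univ)) (pre (sg D) Z) (pre (sg D) Z)ᶜ ≤ N := by
    rw [(h2 (Cl D) (Gam c Finset.univ) (sg D) Z Zᶜ).1,
      (h2 (Cl D) (Gam c Finset.univ) (sg D) Z Z).2] at hZ
    exact hZ
  have h4 := h1 n (Cl D) c (pre (sg D) Z) N hc h3
  set TT : Set (Set (Cl D)) :=
    {T : Set (Cl D) | ∃ a ∈ pre (sg D) Z, T = {b | b ∉ pre (sg D) Z ∧ a ≤ b}} with hTT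
  set Φ : Set (Cl D) → Set V := fun T => {u | ∃ y : Cl D, ClV D u y ∧ sg D y ∈ T} with hΦ
  have hfin : TT.Finite := Set.toFinite _
  have hsub : Types D (VZ D Z) ⊆ Φ '' TT := by
    rintro T ⟨-, v, ⟨x, hx, hxZ⟩, rfl⟩
    refine ⟨{b | b ∉ pre (sg D) Z ∧ x ≤ b}, ⟨x, (cl_mem_pre D Z x).2 hxZ, rfl⟩, ?_⟩
    ext u
    constructor
    · rintro ⟨y, hy, hy1, hy2⟩
      refine ⟨(cl_adj D hx hy).2 hy2, ?_⟩
      rintro ⟨y', hy', hyZ⟩
      have : y' = y := Subtype.ext (hy'.trans hy.symm)
      rw [this] at hyZ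
      apply hy1
      rw [cl_mem_pre, cl_blk]
      exact hyZ
    · rintro ⟨hvu, hu⟩
      have hvu' : D.Adj v u := hvu
      obtain ⟨y, hy⟩ := cl_exists D hvu'.symm
      refine ⟨y, hy, ?_, (cl_adj D hx hy).1 hvu'⟩
      intro h
      rw [cl_mem_pre, cl_blk] at h
      exact hu ⟨y, hy, h⟩
  calc (Types D (VZ D Z)).encard ≤ (Φ '' TT).encard := Set.encard_le_encard hsub
    _ ≤ TT.encard := Set.encard_image_le Φ TT
    _ = (TT.ncard : ℕ∞) := (Set.Finite.cast_ncard_eq hfin).symm
    _ ≤ (n * (N + 2) ^ n : ℕ) := by exact_mod_cast h4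

private theorem cl_single [Finite V] (k : ℕ) (hk : 2 ≤ k) (b : Finset (Cl D)) (A : Set V)
    (hA : ∀ v ∈ A, ∃ x : Cl D, ClV D v x ∧ blk (sg D) x = b) : Lay D k A := by
  have hfin : A.Finite := Set.toFinite A
  induction A, hfin using Set.Finite.induction_on with
  | empty => exact Lay.empty
  | @insert v A hv _ ih =>
    refine Lay.insert (by omega) (ih fun u hu => hA u (Set.mem_insert_of_mem _ hu)) hv ?_
    obtain ⟨x₀, hx₀, hb⟩ := hA v (Set.mem_insert _ _)
    have hsub : Types D (insert v A) ⊆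
        {(sg D x₀).1 \ insert v A, (sg D (sg D x₀)).1 \ insert v A} := by
      rintro T ⟨-, u, hu, rfl⟩
      obtain ⟨x, hx, hxb⟩ := hA u hu
      have h1 : D.neighborSet u = (sg D x).1 := by rw [cl_sg D hx, cl_nb]
      have h2 : x = x₀ ∨ x = sg D x₀ := by
        have : x ∈ blk (sg D) x₀ := by
          rw [hb, ← hxb]
          unfold blk
          simp
        unfold blk at this
        rcases Finset.mem_insert.1 this with h | h
        · exact Or.inl h
        · exact Or.inr (Finset.mem_singleton.1 h)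
      rw [h1]
      rcases h2 with h2 | h2
      · left
        rw [h2]
      · right
        rw [h2]
        rfl
    calc (Types D (insert v A)).encard
        ≤ ({(sg D x₀).1 \ insert v A, (sg D (sg D x₀)).1 \ insert v A} : Set (Set V)).encard :=
          Set.encard_le_encard hsub
      _ ≤ 2 := by
        refine (Set.encard_insert_le _ _).trans ?_
        rw [Set.encard_singleton]
        norm_num
      _ ≤ k := by exact_mod_cast hk

end

theorem carvLay (h1 : S_Trace) (h2 : S_Pre) : S_CarvLay := by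
  intro n N V _ D _ _ c _ hc hcarv
  have hk2 : 2 ≤ 2 + n * (N + 2) ^ n := Nat.le_add_right _ _
  have key : ∀ Z : Finset (Finset (Cl D)), Carv (WB (Gam c Finset.univ) (sg D)) N Z →
      Lay D (2 + n * (N + 2) ^ n) (VZ D Z) := by
    intro Z hZ
    induction hZ with
    | empty =>
      have : VZ D ∅ = ∅ := by
        ext v
        constructor
        · rintro ⟨x, -, hx⟩
          exact absurd hx (Finset.notMem_empty _)
        · intro h
          exact absurd h (Set.notMem_empty v)
      rw [this]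
      exact Lay.empty
    | single b _ =>
      refine cl_single D _ hk2 b _ ?_
      rintro v ⟨x, hx, hxb⟩
      exact ⟨x, hx, Finset.mem_singleton.1 hxb⟩
    | @union A B _ _ hd hw ihA ihB =>
      have e : VZ D (A ∪ B) = VZ D A ∪ VZ D B := by
        ext v
        constructor
        · rintro ⟨x, hx, hxb⟩
          rcases Finset.mem_union.1 hxb with h | h
          · exact Or.inl ⟨x, hx, h⟩
          · exact Or.inr ⟨x, hx, h⟩
        · rintro (⟨x, hx, hxb⟩ | ⟨x, hx, hxb⟩)
          · exact ⟨x, hx, Finset.mem_union_left _ hxb⟩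
          · exact ⟨x, hx, Finset.mem_union_right _ hxb⟩
      have ht := cl_trace D h1 h2 n N c hc (A ∪ B) hw
      rw [e] at ht ⊢
      refine Lay.union ihA ihB ?_ (ht.trans ?_)
      · rw [Set.disjoint_left]
        rintro v ⟨x, hx, hxb⟩ ⟨x', hx', hxb'⟩
        have : x' = x := Subtype.ext (hx'.trans hx.symm)
        rw [this] at hxb'
        exact Finset.disjoint_left.1 hd hxb hxb'
      · exact_mod_cast Nat.le_add_left _ _
  have h0 := key _ hcarv
  -- add the isolated vertices
  have hiso : ∀ I : Set V, (∀ v ∈ I, ∀ u, ¬ D.Adj v u) →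
      Lay D (2 + n * (N + 2) ^ n) (VZ D Finset.univ ∪ I) := by
    intro I hI
    have hfin : I.Finite := Set.toFinite I
    induction I, hfin using Set.Finite.induction_on with
    | empty =>
      rw [Set.union_empty]
      exact h0
    | @insert v I hv _ ih =>
      have hL := ih fun u hu => hI u (Set.mem_insert_of_mem _ hu)
      have hvi := hI v (Set.mem_insert _ _)
      have e : VZ D Finset.univ ∪ insert v I = insert v (VZ D Finset.univ ∪ I) := by
        rw [Set.union_insert]
      rw [e]
      refine Lay.insert (by omega) hL ?_ ?_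
      · rintro (⟨x, hx, -⟩ | h)
        · obtain ⟨u, hu⟩ := x.2.2.2
          have h3 : cn D x.1 = cn D {v} := cl_sg D hx
          rw [h3, cl_nb] at hu
          exact hvi u hu
        · exact hv h
      · refine (Set.encard_le_encard ?_).trans (cl_types_le hL)
        rintro T ⟨hne, a, ha, rfl⟩
        rcases Set.mem_insert_iff.1 ha with rfl | ha
        · obtain ⟨u, hu⟩ := hne
          exact absurd hu.1 (hvi u)
        · refine ⟨hne, a, ha, ?_⟩
          ext u
          constructor
          · rintro ⟨hu1, hu2⟩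
            exact ⟨hu1, fun h => hu2 (Set.mem_insert_of_mem _ h)⟩
          · rintro ⟨hu1, hu2⟩
            refine ⟨hu1, fun h => ?_⟩
            rcases Set.mem_insert_iff.1 h with rfl | h
            · exact hvi a (SimpleGraph.Adj.symm hu1)
            · exact hu2 h
  have h5 := hiso {v | ∀ u, ¬ D.Adj v u} (fun v hv => hv)
  have h6 : VZ D Finset.univ ∪ {v | ∀ u, ¬ D.Adj v u} = Set.univ := by
    ext v
    refine ⟨fun _ => trivial, fun _ => ?_⟩
    by_cases h : ∃ u, D.Adj v u
    · obtain ⟨u, hu⟩ := h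
      obtain ⟨x, hx⟩ := cl_exists D hu
      exact Or.inl ⟨x, hx, Finset.mem_univ _⟩
    · push Not at h
      exact Or.inr h
  rw [h6] at h5
  exact h5

end Pool.Agent.MPd439b2.W
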