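import Pool.Agent.Lib.MP_d439b2_co.W.SpecA

/-!
# MP_d439b2_co, W/Carve: the carving lemma
-/

set_option autoImplicit false

namespace Pool.Agent.MPd439b2.W

open Pool.Agent.MPd439b2

namespace CarveAux

variable {α : Type}

theorem wt_symm {w : α → α → ℕ} (hs : ∀ x y, w x y = w y x) (A B : Finset α) :
    wt w A B = wt w B A := by
  unfold wt
  rw [Finset.sum_comm]
  exact Finset.sum_congr rfl (fun y _ => Finset.sum_congr rfl (fun x _ => hs x y))

theorem wt_union_right [DecidableEq α] (w : α → α → ℕ) (A : Finset α) {B C : Finset α}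
    (h : Disjoint B C) : wt w A (B ∪ C) = wt w A B + wt w A C := by
  unfold wt
  rw [← Finset.sum_add_distrib]
  exact Finset.sum_congr rfl (fun x _ => Finset.sum_union h)

theorem wt_union_left [DecidableEq α] (w : α → α → ℕ) (A : Finset α) {B C : Finset α}
    (h : Disjoint B C) : wt w (B ∪ C) A = wt w B A + wt w C A := by
  unfold wt
  exact Finset.sum_union h

theorem wt_mono (w : α → α → ℕ) {A A' B B' : Finset α} (h : A ⊆ A') (h' : B ⊆ B') :
    wt w A B ≤ wt w A' B' := by
  unfold wt
  refine (Finset.sum_le_sum (fun x _ => Finset.sum_le_sum_of_subset h')).trans ?_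
  exact Finset.sum_le_sum_of_subset h

end CarveAux

open CarveAux in
theorem carve : S_Carve := by
  intro α _ _ w Δ N hs hΔ hN
  by_contra hcon
  push Not at hcon
  obtain ⟨hcar, hbad⟩ := hcon
  have claim : ∀ n, ∀ Z : Finset α, Z.card = n → wt w Z Zᶜ ≤ N → Carv w N Z := by
    intro n
    induction n using Nat.strong_induction_on with
    | _ n ih =>
    intro Z hZ hw
    rcases Z.eq_empty_or_nonempty with rfl | ⟨x, hx⟩
    · exact Carv.empty
    by_cases h2 : wt w Z Zᶜ + Δ ≤ N
    · have e1 : Z = Z.erase x ∪ {x} := by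
        ext y
        simp only [Finset.mem_union, Finset.mem_erase, Finset.mem_singleton]
        by_cases hy : y = x
        · simp [hy, hx]
        · simp [hy]
      have hd : Disjoint (Z.erase x) ({x} : Finset α) := by simp
      have hYc : (Z.erase x)ᶜ = Zᶜ ∪ {x} := by
        ext y
        simp only [Finset.mem_union, Finset.mem_compl, Finset.mem_erase, Finset.mem_singleton]
        tauto
      have hdc : Disjoint Zᶜ ({x} : Finset α) := by simp [hx]
      have hYw : wt w (Z.erase x) (Z.erase x)ᶜ ≤ N := by
        rw [hYc, wt_union_right w _ hdc, wt_symm hs (Z.erase x) {x}]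
        have h3 : wt w (Z.erase x) Zᶜ ≤ wt w Z Zᶜ := wt_mono w (Z.erase_subset x) subset_rfl
        have h4 : wt w {x} (Z.erase x) ≤ wt w {x} {x}ᶜ := by
          apply wt_mono w subset_rfl
          intro y hy
          simpa using (Finset.mem_erase.1 hy).1
        have h5 := hΔ x
        omega
      have hc1 := ih _ (hZ ▸ Finset.card_erase_lt_of_mem hx) _ rfl hYw
      have hc2 : Carv w N {x} := Carv.single x ((hΔ x).trans hN)
      have hc3 := Carv.union hc1 hc2 hd (by rw [← e1]; exact hw)
      rw [← e1] at hc3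
      exact hc3
    · push Not at h2
      have h3 := hbad Z
      unfold Bad at h3
      push Not at h3
      obtain ⟨Y, hYZ, hY⟩ := h3 h2 hw
      rw [lt_min_iff] at hY
      obtain ⟨hY1, hY2⟩ := hY
      have hYne : Y ≠ ∅ := by
        rintro rfl
        simp [wt] at hY1
      have hYne' : Z \ Y ≠ ∅ := by
        intro h
        rw [h] at hY2
        simp [wt] at hY2
      have hd : Disjoint Y (Z \ Y) := Finset.disjoint_sdiff
      have e1 : Y ∪ (Z \ Y) = Z := Finset.union_sdiff_of_subset hYZ
      have hYc : Yᶜ = Zᶜ ∪ (Z \ Y) := by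
        ext y
        simp only [Finset.mem_union, Finset.mem_compl, Finset.mem_sdiff]
        have := @hYZ y
        tauto
      have hdc : Disjoint Zᶜ (Z \ Y) := by
        rw [Finset.disjoint_left]
        intro y hy hy'
        exact (Finset.mem_compl.1 hy) (Finset.mem_sdiff.1 hy').1
      have hYc' : (Z \ Y)ᶜ = Zᶜ ∪ Y := by
        ext y
        simp only [Finset.mem_union, Finset.mem_compl, Finset.mem_sdiff]
        have := @hYZ y
        tauto
      have hdc' : Disjoint Zᶜ Y := by
        rw [Finset.disjoint_left]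
        intro y hy hy'
        exact (Finset.mem_compl.1 hy) (hYZ hy')
      have hsum : wt w Z Zᶜ = wt w Y Zᶜ + wt w (Z \ Y) Zᶜ := by
        rw [← wt_union_left w Zᶜ hd, e1]
      have hA : wt w Y Yᶜ ≤ N := by
        rw [hYc, wt_union_right w _ hdc]
        omega
      have hB : wt w (Z \ Y) (Z \ Y)ᶜ ≤ N := by
        rw [hYc', wt_union_right w _ hdc', wt_symm hs (Z \ Y) Y]
        omega
      have hcY : Y.card < Z.card := by
        apply Finset.card_lt_card
        refine ⟨hYZ, fun h => hYne' (Finset.sdiff_eq_empty_iff_subset.2 h)⟩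
      have hcY' : (Z \ Y).card < Z.card := by
        have h4 := Finset.card_sdiff_add_card_eq_card hYZ
        have h5 := Finset.card_pos.2 (Finset.nonempty_iff_ne_empty.2 hYne)
        omega
      have hc1 := ih _ (hZ ▸ hcY) _ rfl hA
      have hc2 := ih _ (hZ ▸ hcY') _ rfl hB
      have hc3 := Carv.union hc1 hc2 hd (by rw [e1]; exact hw)
      rw [e1] at hc3
      exact hc3
  apply hcar
  apply claim _ _ rfl
  simp [wt]

end Pool.Agent.MPd439b2.W
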