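import Pool.Agent.Lib.MP_d439b2_co.W.SpecP

/-!
# MP_d439b2_co, W: P8, the combinatorics of a minimal cycle
-/

set_option autoImplicit false

namespace Pool.Agent.MPd439b2.W

open Pool.Agent.MPd439b2

theorem cyc : S_Cyc := by
  intro r E hr ev od clo tri T1 T2 eo
  -- (1)
  have d : ∀ i ≤ r, ¬ E i i := fun i hi h => tri i hi i hi i hi ⟨h, h, h⟩
  -- (2)
  have se : ∀ i ≤ r, ∀ j ≤ r, i % 2 = 0 → j % 2 = 0 → E i j → E j i := by
    intro i hi j hj h1 h2 h
    by_contra h3
    have hj' : j < r := by omega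
    exact T1 ⟨j, hj, j + 1, by omega, i, hi, (ev j hj' h2).1, (ev j hj' h2).2, h, h3⟩
  have so : ∀ i ≤ r, ∀ j ≤ r, i % 2 = 1 → j % 2 = 1 → E i j → E j i := by
    intro i hi j hj h1 h2 h
    by_contra h3
    obtain ⟨m, rfl⟩ : ∃ m, i = m + 1 := ⟨i - 1, by omega⟩
    have h4 := ev m (by omega) (by omega)
    exact T1 ⟨m + 1, hi, j, hj, m, by omega, h, h3, h4.1, h4.2⟩
  -- (3)
  have ke : ∀ i, i + 2 ≤ r → i % 2 = 0 → ¬ E i (i + 2) ∧ ¬ E (i + 2) i := by
    intro i hi h1
    have h2 := ev i (by omega) h1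
    have h3 := od (i + 1) (by omega) (by omega)
    have h4 : ¬ E i (i + 2) := fun h =>
      tri i (by omega) (i + 2) hi (i + 1) (by omega) ⟨h, h3.1, h2.1⟩
    exact ⟨h4, fun h => h4 (se (i + 2) hi i (by omega) (by omega) h1 h)⟩
  have ko : ∀ i, i + 2 ≤ r → i % 2 = 1 → ¬ E i (i + 2) ∧ ¬ E (i + 2) i := by
    intro i hi h1
    have h2 := od i (by omega) h1
    have h3 := ev (i + 1) (by omega) (by omega)
    have h4 : ¬ E i (i + 2) := fun h =>
      tri (i + 1) (by omega) i (by omega) (i + 2) hi ⟨h2.1, h, h3.1⟩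
    exact ⟨h4, fun h => h4 (so (i + 2) hi i (by omega) (by omega) h1 h)⟩
  have hr1 : r ≠ 1 := by
    rintro rfl
    exact (ev 0 (by omega) (by omega)).2 clo.2
  have hr3 : r ≠ 3 := by
    rintro rfl
    exact T2 ⟨0, by omega, 1, by omega, 2, by omega, 3, by omega,
      (ev 0 (by omega) (by omega)).1, (ev 0 (by omega) (by omega)).2,
      Or.inl (ev 2 (by omega) (by omega)), clo.2, (od 1 (by omega) (by omega)).1⟩
  have hr5 : 5 ≤ r := by omega
  have n1r : ¬ E 1 r := fun h => tri 0 (by omega) 1 (by omega) r le_rfl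
    ⟨(ev 0 (by omega) (by omega)).1, h, clo.1⟩
  have nr1 : ¬ E r 1 := fun h => n1r (so r le_rfl 1 (by omega) hr (by omega) h)
  obtain ⟨a01, b01⟩ := ev 0 (by omega) (by omega)
  obtain ⟨a21, b12⟩ := od 1 (by omega) (by omega)
  obtain ⟨a23, b32⟩ := ev 2 (by omega) (by omega)
  obtain ⟨a43, b34⟩ := od 3 (by omega) (by omega)
  obtain ⟨a45, b54⟩ := ev 4 (by omega) (by omega)
  obtain ⟨n02, n20⟩ := ke 0 (by omega) (by omega)
  obtain ⟨n24, n42⟩ := ke 2 (by omega) (by omega)
  obtain ⟨n13, n31⟩ := ko 1 (by omega) (by omega)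
  obtain ⟨n35, n53⟩ := ko 3 (by omega) (by omega)
  have d0 := d 0 (by omega)
  have d1 := d 1 (by omega)
  have d2 := d 2 (by omega)
  have d3 := d 3 (by omega)
  have d4 := d 4 (by omega)
  have d5 := d 5 (by omega)
  obtain ⟨n03, n30⟩ := eo 0 (by omega) 3 (by omega) (by omega) (by omega) (by omega) (by omega)
    (by omega)
  obtain ⟨n25, n52⟩ := eo 2 (by omega) 5 (by omega) (by omega) (by omega) (by omega) (by omega)
    (by omega)
  obtain ⟨n41, n14⟩ := eo 4 (by omega) 1 (by omega) (by omega) (by omega) (by omega) (by omega)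
    (by omega)
  rcases Nat.lt_or_ge 5 r with h7 | h5
  · have h7 : 7 ≤ r := by omega
    by_cases h04 : E 0 4
    · right
      right
      refine ⟨h7, ?_⟩
      have h40 : E 4 0 := se 0 (by omega) 4 (by omega) (by omega) (by omega) h04
      have n15 : ¬ E 1 5 := by
        intro h
        have h51 : E 5 1 := so 1 (by omega) 5 (by omega) (by omega) (by omega) h
        exact T2 ⟨0, by omega, 1, by omega, 5, by omega, 4, by omega, a01, b01,
          Or.inr ⟨a45, b54⟩, h40, h51⟩
      have n51 : ¬ E 5 1 := fun h =>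
        n15 (so 5 (by omega) 1 (by omega) (by omega) (by omega) h)
      obtain ⟨a65, b56⟩ := od 5 (by omega) (by omega)
      obtain ⟨n46, n64⟩ := ke 4 (by omega) (by omega)
      obtain ⟨n05, n50⟩ := eo 0 (by omega) 5 (by omega) (by omega) (by omega) (by omega)
        (by omega) (by omega)
      obtain ⟨n61, n16⟩ := eo 6 (by omega) 1 (by omega) (by omega) (by omega) (by omega)
        (by omega) (by omega)
      obtain ⟨n63, n36⟩ := eo 6 (by omega) 3 (by omega) (by omega) (by omega) (by omega)
        (by omega) (by omega)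
      have d6 := d 6 (by omega)
      intro i hi j hj
      interval_cases i <;> interval_cases j <;>
        refine ⟨fun h => ?_, fun h => ?_⟩ <;>
        first
          | assumption
          | exact absurd h (by decide)
    · right
      left
      refine ⟨h7, ?_⟩
      have n40 : ¬ E 4 0 := fun h =>
        h04 (se 4 (by omega) 0 (by omega) (by omega) (by omega) h)
      obtain ⟨n2r, nr2⟩ := eo 2 (by omega) r (by omega) (by omega) (by omega) (by omega)
        (by omega) (by omega)
      obtain ⟨n4r, nr4⟩ := eo 4 (by omega) r (by omega) (by omega) (by omega) (by omega)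
        (by omega) (by omega)
      obtain ⟨n05, n50⟩ := eo 0 (by omega) 5 (by omega) (by omega) (by omega) (by omega)
        (by omega) (by omega)
      have drr := d r le_rfl
      obtain ⟨c1, c2⟩ := clo
      intro i hi j hj
      interval_cases i <;> interval_cases j <;>
        refine ⟨fun h => ?_, fun h => ?_⟩ <;>
        first
          | assumption
          | exact absurd h (by decide)
  · left
    obtain rfl : r = 5 := by omega
    refine ⟨rfl, ?_⟩
    obtain ⟨c1, c2⟩ := clo
    have n04 : ¬ E 0 4 := fun h => tri 0 (by omega) 4 (by omega) 5 (by omega) ⟨h, a45, c1⟩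
    have n40 : ¬ E 4 0 := fun h =>
      n04 (se 4 (by omega) 0 (by omega) (by omega) (by omega) h)
    intro i hi j hj
    interval_cases i <;> interval_cases j <;>
      refine ⟨fun h => ?_, fun h => ?_⟩ <;>
      first
        | assumption
        | exact absurd h (by decide)

end Pool.Agent.MPd439b2.W
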