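import Pool.Agent.Lib.MP_d439b2_co.W.SpecA

/-!
# MP_d439b2_co, W: the degrees of the skeleton
-/

set_option autoImplicit false

namespace Pool.Agent.MPd439b2.W

open Pool.Agent.MPd439b2

namespace degAux

variable {α : Type} [PartialOrder α] {n : ℕ}

/-- the neighbour `y` of `x` is of upper type -/
def Up (c : α → Fin n) (U : Finset α) (x y : α) : Prop := Cons c U x y ∨ Ess c x y

/-- the neighbour `y` of `x` is of lower type -/
def Dn (c : α → Fin n) (U : Finset α) (x y : α) : Prop := Cons c U y x ∨ Ess c y x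

theorem up_or_dn {c : α → Fin n} {U : Finset α} {x y : α} (h : (Gam c U).Adj x y) :
    Up c U x y ∨ Dn c U x y := by
  rcases h with h | h | ⟨-, -, h | h⟩
  · exact Or.inl (Or.inl h)
  · exact Or.inr (Or.inl h)
  · exact Or.inl (Or.inr h)
  · exact Or.inr (Or.inr h)

theorem up_inj {c : α → Fin n} {U : Finset α} {x y y' : α} (h : Up c U x y) (h' : Up c U x y')
    (hc : c y = c y') : y = y' := by
  rcases h with h | h <;> rcases h' with h' | h'
  · have a1 := h.2.2.2.2 y' h'.2.1 h'.2.2.1.symm h'.2.2.2.1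
    have a2 := h'.2.2.2.2 y h.2.1 h.2.2.1.symm h.2.2.2.1
    exact le_antisymm a1 a2
  · exact absurd (h.2.2.1.trans hc) h'.1
  · exact absurd (h'.2.2.1.trans hc.symm) h.1
  · exact le_antisymm (h.2.2.2 y' hc.symm h'.2.1) (h'.2.2.2 y hc h.2.1)

theorem dn_inj {c : α → Fin n} {U : Finset α} (hC : ChainP c) {x y y' : α} (h : Dn c U x y)
    (h' : Dn c U x y') (hc : c y = c y') : y = y' := by
  rcases h with h | h <;> rcases h' with h' | h'
  · rcases hC y y' hc with h1 | h1
    · rcases h1.eq_or_lt with h2 | h2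
      · exact h2
      · have h3 := h.2.2.2.2 y' h'.1 hc.symm h2
        exact absurd h'.2.2.2.1 (not_lt_of_ge h3)
    · rcases h1.eq_or_lt with h2 | h2
      · exact h2.symm
      · have h3 := h'.2.2.2.2 y h.1 hc h2
        exact absurd h.2.2.2.1 (not_lt_of_ge h3)
  · exact absurd (hc.symm.trans h.2.2.1) h'.1
  · exact absurd (hc.trans h'.2.2.1) h.1
  · exact le_antisymm (h'.2.2.1 y hc h.2.1) (h.2.2.1 y' hc.symm h'.2.1)

end degAux

open degAux in
theorem deg : S_Deg := by
  classical
  intro n α _ _ _ c U hC x A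
  have h1 : wt (ind (Gam c U)) {x} A = (A.filter (fun y => (Gam c U).Adj x y)).card := by
    unfold wt
    rw [Finset.sum_singleton, Finset.card_filter]
    apply Finset.sum_congr rfl
    intro y _
    unfold ind
    by_cases h : (Gam c U).Adj x y
    · rw [if_pos h]
    · rw [if_neg h]
  rw [h1]
  have h2 : (Finset.univ : Finset (Fin n × Bool)).card = 2 * n := by
    rw [Finset.card_univ, Fintype.card_prod, Fintype.card_fin, Fintype.card_bool, Nat.mul_comm]
  rw [← h2]
  apply Finset.card_le_card_of_injOn (fun y => (c y, decide (Up c U x y)))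
  · intro y _
    exact Finset.mem_coe.2 (Finset.mem_univ _)
  · intro y hy y' hy' he
    have a1 := (Finset.mem_filter.1 (Finset.mem_coe.1 hy)).2
    have a2 := (Finset.mem_filter.1 (Finset.mem_coe.1 hy')).2
    have e1 : c y = c y' := (Prod.mk.inj he).1
    have e2 : decide (Up c U x y) = decide (Up c U x y') := (Prod.mk.inj he).2
    rw [decide_eq_decide] at e2
    by_cases hu : Up c U x y
    · exact up_inj hu (e2.1 hu) e1
    · have hu' : ¬ Up c U x y' := fun h => hu (e2.2 h)
      exact dn_inj hC ((up_or_dn a1).resolve_left hu) ((up_or_dn a2).resolve_left hu') e1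

end Pool.Agent.MPd439b2.W
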