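import Pool.Agent.Lib.MP_d439b2_co.W.SpecD

/-!
# MP_d439b2_co, W: Dil, the theorem of Dilworth
-/

set_option autoImplicit false

namespace Pool.Agent.MPd439b2.W

namespace DilAux

variable {α : Type} [PartialOrder α]

/-- antichains -/
def AC (B : Finset α) : Prop := ∀ x ∈ B, ∀ y ∈ B, x ≤ y → x = y

/-- a colouring of `A` with `w` colours whose classes are chains -/
def Col (A : Finset α) (w : ℕ) (c : α → ℕ) : Prop :=
  (∀ x ∈ A, c x < w) ∧ ∀ x ∈ A, ∀ y ∈ A, c x = c y → x ≤ y ∨ y ≤ x

theorem AC.mono {B B' : Finset α} (h : AC B) (hs : B' ⊆ B) : AC B' :=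
  fun x hx y hy hxy => h x (hs hx) y (hs hy) hxy

/-- an antichain with `k` elements has an element of every colour -/
theorem hit {A B : Finset α} {k : ℕ} {c : α → ℕ} (hc : Col A k c) (hB : B ⊆ A) (hA : AC B)
    (hk : B.card = k) {i : ℕ} (hi : i < k) : ∃ y ∈ B, c y = i := by
  have hinj : Set.InjOn c (B : Set α) := by
    intro x hx y hy hxy
    rcases hc.2 x (hB hx) y (hB hy) hxy with h | h
    · exact hA x hx y hy h
    · exact (hA y hy x hx h).symm
  have h1 : B.image c ⊆ Finset.range k := by
    intro m hm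
    obtain ⟨x, hx, rfl⟩ := Finset.mem_image.1 hm
    exact Finset.mem_range.2 (hc.1 x (hB hx))
  have h2 : B.image c = Finset.range k := by
    refine Finset.eq_of_subset_of_card_le h1 ?_
    rw [Finset.card_image_of_injOn hinj, Finset.card_range, hk]
  have h3 : i ∈ B.image c := by
    rw [h2]
    exact Finset.mem_range.2 hi
  obtain ⟨y, hy, hyi⟩ := Finset.mem_image.1 h3
  exact ⟨y, hy, hyi⟩

/-- a nonempty finite chain has a largest element -/
theorem greatest {S : Finset α} (hS : S.Nonempty) (hch : ∀ x ∈ S, ∀ y ∈ S, x ≤ y ∨ y ≤ x) :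
    ∃ m ∈ S, ∀ z ∈ S, z ≤ m := by
  obtain ⟨m, hm⟩ := S.exists_maximal hS
  refine ⟨m, hm.1, fun z hz => ?_⟩
  rcases hch z hz m hm.1 with h | h
  · exact h
  · exact hm.2 hz h

open Classical in
theorem main (A : Finset α) : ∀ w : ℕ, (∀ B ⊆ A, AC B → B.card ≤ w) → ∃ c : α → ℕ, Col A w c := by
  induction A using Finset.strongInduction with
  | H A ih =>
    intro w hw
    rcases A.eq_empty_or_nonempty with rfl | hne
    · exact ⟨fun _ => 0, fun x hx => absurd hx (Finset.notMem_empty x),
        fun x hx => absurd hx (Finset.notMem_empty x)⟩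
    obtain ⟨a, haA, hamax⟩ := A.exists_maximal hne
    set A' := A.erase a with hA'
    have hA'A : A' ⊆ A := Finset.erase_subset a A
    have hss : A' ⊂ A := Finset.erase_ssubset haA
    -- the largest antichain
    obtain ⟨B₀, hB₀, hmax⟩ := (A'.powerset.filter (fun B => AC B)).exists_max_image
      (fun B => B.card) ⟨∅, by
        rw [Finset.mem_filter]
        exact ⟨Finset.empty_mem_powerset _, fun x hx => absurd hx (Finset.notMem_empty x)⟩⟩
    rw [Finset.mem_filter, Finset.mem_powerset] at hB₀
    set k := B₀.card with hk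
    have hmax' : ∀ B ⊆ A', AC B → B.card ≤ k := by
      intro B hB hAB
      exact hmax B (by rw [Finset.mem_filter, Finset.mem_powerset]; exact ⟨hB, hAB⟩)
    have hkw : k ≤ w := hw B₀ (hB₀.1.trans hA'A) hB₀.2
    obtain ⟨c, hc⟩ := ih A' hss k hmax'
    -- the elements `x i`
    have hx : ∀ i : ℕ, i < k → ∃ m, (m ∈ A' ∧ c m = i ∧ ∃ B ⊆ A', AC B ∧ B.card = k ∧ m ∈ B) ∧
        ∀ z, (z ∈ A' ∧ c z = i ∧ ∃ B ⊆ A', AC B ∧ B.card = k ∧ z ∈ B) → z ≤ m := by
      intro i hi
      set S := A'.filter (fun z => c z = i ∧ ∃ B ⊆ A', AC B ∧ B.card = k ∧ z ∈ B) with hS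
      have hmem : ∀ z, z ∈ S ↔ (z ∈ A' ∧ c z = i ∧ ∃ B ⊆ A', AC B ∧ B.card = k ∧ z ∈ B) := by
        intro z
        rw [hS, Finset.mem_filter]
      obtain ⟨y, hy, hyi⟩ := hit hc hB₀.1 hB₀.2 rfl hi
      have hSne : S.Nonempty := ⟨y, (hmem y).2 ⟨hB₀.1 hy, hyi, B₀, hB₀.1, hB₀.2, rfl, hy⟩⟩
      obtain ⟨m, hm, hm'⟩ := greatest hSne (by
        intro z hz z' hz'
        have h1 := (hmem z).1 hz
        have h2 := (hmem z').1 hz'
        exact hc.2 z h1.1 z' h2.1 (h1.2.1.trans h2.2.1.symm))
      exact ⟨m, (hmem m).1 hm, fun z hz => hm' z ((hmem z).2 hz)⟩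
    choose x hx1 hx2 using hx
    have hnle : ∀ i (hi : i < k) j (hj : j < k), i ≠ j → ¬ x j hj ≤ x i hi := by
      intro i hi j hj hij hle
      obtain ⟨h1, h2, B, hB, hAB, hBk, hxB⟩ := hx1 i hi
      obtain ⟨y, hy, hyj⟩ := hit hc hB hAB hBk hj
      have h3 : y ≤ x j hj := hx2 j hj y ⟨hB hy, hyj, B, hB, hAB, hBk, hy⟩
      have h4 : y = x i hi := hAB y hy _ hxB (h3.trans hle)
      apply hij
      rw [← h2, ← hyj, h4]
    by_cases hcase : ∃ i, ∃ hi : i < k, x i hi ≤ a
    · -- second case
      obtain ⟨i, hi, hia⟩ := hcase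
      set A'' := A.filter (fun z => ¬ (z = a ∨ (c z = i ∧ z ≤ x i hi))) with hA''
      have hmem : ∀ z, z ∈ A'' ↔ z ∈ A ∧ ¬ (z = a ∨ (c z = i ∧ z ≤ x i hi)) := by
        intro z
        rw [hA'', Finset.mem_filter]
      have hss'' : A'' ⊂ A := by
        refine ⟨fun z hz => ((hmem z).1 hz).1, fun h => ?_⟩
        exact ((hmem a).1 (h haA)).2 (Or.inl rfl)
      have hsub : A'' ⊆ A' := by
        intro z hz
        have h1 := (hmem z).1 hz
        exact Finset.mem_erase.2 ⟨fun h => h1.2 (Or.inl h), h1.1⟩
      have hcard : ∀ B ⊆ A'', AC B → B.card ≤ k - 1 := by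
        intro B hB hAB
        have h1 := hmax' B (hB.trans hsub) hAB
        by_contra hcon
        have h2 : B.card = k := by omega
        obtain ⟨z, hz, hzi⟩ := hit hc (hB.trans hsub) hAB h2 hi
        have h3 : z ≤ x i hi := hx2 i hi z ⟨hsub (hB hz), hzi, B, hB.trans hsub, hAB, h2, hz⟩
        exact ((hmem z).1 (hB hz)).2 (Or.inr ⟨hzi, h3⟩)
      obtain ⟨c'', hc''⟩ := ih A'' hss'' (k - 1) hcard
      refine ⟨fun z => if z = a ∨ (c z = i ∧ z ≤ x i hi) then k - 1 else c'' z, ?_, ?_⟩
      · intro z hz
        show (if z = a ∨ (c z = i ∧ z ≤ x i hi) then k - 1 else c'' z) < w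
        by_cases hK : z = a ∨ (c z = i ∧ z ≤ x i hi)
        · rw [if_pos hK]
          omega
        · rw [if_neg hK]
          have := hc''.1 z ((hmem z).2 ⟨hz, hK⟩)
          omega
      · intro z hz z' hz' hzz
        change (if z = a ∨ (c z = i ∧ z ≤ x i hi) then k - 1 else c'' z) =
          (if z' = a ∨ (c z' = i ∧ z' ≤ x i hi) then k - 1 else c'' z') at hzz
        by_cases hK : z = a ∨ (c z = i ∧ z ≤ x i hi)
        · by_cases hK' : z' = a ∨ (c z' = i ∧ z' ≤ x i hi)
          · rcases hK with rfl | hK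
            · rcases hK' with rfl | hK'
              · exact Or.inl le_rfl
              · exact Or.inr (hK'.2.trans hia)
            · rcases hK' with rfl | hK'
              · exact Or.inl (hK.2.trans hia)
              · by_cases hza : z = a
                · subst hza
                  exact Or.inr (hK'.2.trans hia)
                · by_cases hza' : z' = a
                  · subst hza'
                    exact Or.inl (hK.2.trans hia)
                  · exact hc.2 z (Finset.mem_erase.2 ⟨hza, hz⟩) z' (Finset.mem_erase.2 ⟨hza', hz'⟩)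
                      (hK.1.trans hK'.1.symm)
          · rw [if_pos hK, if_neg hK'] at hzz
            have := hc''.1 z' ((hmem z').2 ⟨hz', hK'⟩)
            omega
        · by_cases hK' : z' = a ∨ (c z' = i ∧ z' ≤ x i hi)
          · rw [if_neg hK, if_pos hK'] at hzz
            have := hc''.1 z ((hmem z).2 ⟨hz, hK⟩)
            omega
          · rw [if_neg hK, if_neg hK'] at hzz
            exact hc''.2 z ((hmem z).2 ⟨hz, hK⟩) z' ((hmem z').2 ⟨hz', hK'⟩) hzz
    · -- first case
      push Not at hcase
      set X : Finset α := (Finset.univ : Finset (Fin k)).image (fun i => x i.1 i.2) with hX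
      have hXmem : ∀ z ∈ X, ∃ i : Fin k, x i.1 i.2 = z := by
        intro z hz
        obtain ⟨i, _, hi⟩ := Finset.mem_image.1 hz
        exact ⟨i, hi⟩
      have hXA' : X ⊆ A' := by
        intro z hz
        obtain ⟨i, rfl⟩ := hXmem z hz
        exact (hx1 i.1 i.2).1
      have hXk : X.card = k := by
        rw [hX, Finset.card_image_of_injective, Finset.card_univ, Fintype.card_fin]
        intro i j hij
        by_contra hne'
        exact hnle i.1 i.2 j.1 j.2 (fun h => hne' (Fin.ext h)) (le_of_eq hij.symm)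
      have haX : a ∉ X := fun h => (Finset.mem_erase.1 (hXA' h)).1 rfl
      have hAC : AC (insert a X) := by
        intro z hz z' hz' hzz
        rcases Finset.mem_insert.1 hz with h1 | h1
        · rcases Finset.mem_insert.1 hz' with h2 | h2
          · rw [h1, h2]
          · obtain ⟨i, hi⟩ := hXmem z' h2
            rw [h1] at hzz
            have h3 := hamax (hA'A (hXA' h2)) hzz
            rw [← hi] at h3
            exact absurd h3 (hcase i.1 i.2)
        · rcases Finset.mem_insert.1 hz' with h2 | h2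
          · obtain ⟨i, hi⟩ := hXmem z h1
            rw [h2, ← hi] at hzz
            exact absurd hzz (hcase i.1 i.2)
          · obtain ⟨i, hi⟩ := hXmem z h1
            obtain ⟨j, hj⟩ := hXmem z' h2
            rw [← hi, ← hj] at hzz ⊢
            by_contra hne'
            exact hnle j.1 j.2 i.1 i.2 (fun h => hne' (by
              have h5 : j = i := Fin.ext h
              rw [h5])) hzz
      have hkw' : k + 1 ≤ w := by
        have h1 := hw (insert a X) (Finset.insert_subset haA (hXA'.trans hA'A)) hAC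
        rw [Finset.card_insert_of_notMem haX, hXk] at h1
        exact h1
      refine ⟨fun z => if z = a then k else c z, ?_, ?_⟩
      · intro z hz
        show (if z = a then k else c z) < w
        by_cases hza : z = a
        · rw [if_pos hza]
          omega
        · rw [if_neg hza]
          have := hc.1 z (Finset.mem_erase.2 ⟨hza, hz⟩)
          omega
      · intro z hz z' hz' hzz
        change (if z = a then k else c z) = (if z' = a then k else c z') at hzz
        by_cases hza : z = a
        · by_cases hza' : z' = a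
          · rw [hza, hza']
            exact Or.inl le_rfl
          · rw [if_pos hza, if_neg hza'] at hzz
            have := hc.1 z' (Finset.mem_erase.2 ⟨hza', hz'⟩)
            omega
        · by_cases hza' : z' = a
          · rw [if_neg hza, if_pos hza'] at hzz
            have := hc.1 z (Finset.mem_erase.2 ⟨hza, hz⟩)
            omega
          · rw [if_neg hza, if_neg hza'] at hzz
            exact hc.2 z (Finset.mem_erase.2 ⟨hza, hz⟩) z' (Finset.mem_erase.2 ⟨hza', hz'⟩) hzz

end DilAux

open DilAux in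
theorem dil : S_Dil := by
  intro w α _ _ hw
  have := Fintype.ofFinite α
  obtain ⟨c, hc⟩ := main (Finset.univ : Finset α) w (fun B _ hB => hw B hB)
  refine ⟨fun z => ⟨c z, hc.1 z (Finset.mem_univ z)⟩, fun z z' hzz => ?_⟩
  exact hc.2 z (Finset.mem_univ z) z' (Finset.mem_univ z') (congrArg Fin.val hzz)

end Pool.Agent.MPd439b2.W
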