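import Pool.Agent.Lib.MP_d439b2_co.W.SpecP

/-!
# MP_d439b2_co, W: `F1`, `F2`, `F3` are induced subgraphs of `F0`
-/

set_option autoImplicit false

namespace Pool.Agent.MPd439b2.W

open Pool.Agent.MPd439b2

namespace fSubAux

/-- an induced subgraph of `F` gives an induced subgraph of `KCo s F` -/
theorem sub {W W' V : Type} {F : SimpleGraph W} {F' : SimpleGraph W'} {G : SimpleGraph V} {s : ℕ}
    (f : W' → W) (hf : Function.Injective f) (ha : ∀ i j, F'.Adj i j ↔ F.Adj (f i) (f j))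
    (h : IsIndMinor (KCo s F) G) : IsIndMinor (KCo s F') G := by
  obtain ⟨B, h1, h2, h3⟩ := h
  have hinj : ∀ u v : Fin s ⊕ W', u ≠ v → Sum.map id f u ≠ Sum.map id f v := fun u v huv he =>
    huv ((Function.Injective.sumMap Function.injective_id hf) he)
  refine ⟨fun u => B (Sum.map id f u), fun u => h1 _, fun u v huv => h2 _ _ (hinj u v huv), ?_⟩
  intro u v huv
  rw [← h3 _ _ (hinj u v huv)]
  rcases u with u | u <;> rcases v with v | v
  · exact Iff.rfl
  · exact Iff.rfl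
  · exact Iff.rfl
  · show (u ≠ v ∧ ¬ F'.Adj u v) ↔ (f u ≠ f v ∧ ¬ F.Adj (f u) (f v))
    rw [ha u v]
    constructor
    · rintro ⟨a, b⟩
      exact ⟨fun h => a (hf h), b⟩
    · rintro ⟨a, b⟩
      exact ⟨fun h => a (by rw [h]), b⟩

def f1 : Fin 13 → Fin 16 := ![0, 1, 3, 5, 6, 8, 9, 10, 11, 12, 13, 14, 15]

def f2 : Fin 13 → Fin 16 := ![0, 1, 3, 4, 5, 6, 7, 8, 9, 10, 11, 12, 13]

def f3 : Fin 12 → Fin 16 := ![0, 1, 2, 3, 4, 5, 6, 7, 8, 9, 10, 11]

theorem i1 : Function.Injective f1 := by decide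

theorem i2 : Function.Injective f2 := by decide

theorem i3 : Function.Injective f3 := by decide

theorem a1 : ∀ i j, F1.Adj i j ↔ F0.Adj (f1 i) (f1 j) := by
  unfold F1 F0
  decide +kernel

theorem a2 : ∀ i j, F2.Adj i j ↔ F0.Adj (f2 i) (f2 j) := by
  unfold F2 F0
  decide +kernel

theorem a3 : ∀ i j, F3.Adj i j ↔ F0.Adj (f3 i) (f3 j) := by
  unfold F3 F0
  decide +kernel

end fSubAux

open fSubAux in
theorem fSub : S_FSub := by
  intro s V G h
  exact ⟨sub f1 i1 a1 h, sub f2 i2 a2 h, sub f3 i3 a3 h⟩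

end Pool.Agent.MPd439b2.W
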