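import Pool.Agent.Lib.MP_d439b2_co.W.SpecD
import Pool.Agent.Lib.MP_d439b2_co.Basic

/-!
# MP_d439b2_co, W: D11, the pair `(3 P_1, K_s v co(5 P_2))` has bounded clique-width
-/

set_option autoImplicit false

namespace Pool.Agent.MPd439b2.W

open Pool.Agent.MPd439b2

namespace FiveP2aux

/-- the embedding of `5 P_2` in `F1` -/
def emb (u : Fin 5 × Bool) : Fin 13 :=
  ⟨3 + 2 * u.1.val + (if u.2 then 1 else 0), by
    have := u.1.isLt
    split <;> omega⟩

lemma emb_inj : Function.Injective emb := by
  decide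

instance : DecidableRel (nP2 5).Adj := fun u v => by
  unfold nP2
  infer_instance

instance : DecidableRel F1.Adj := fun u v => by
  unfold F1
  infer_instance

lemma emb_adj : ∀ i j, (nP2 5).Adj i j ↔ F1.Adj (emb i) (emb j) := by
  decide

/-- the complement of a graph without three independent vertices has no triangle -/
lemma triFree {V : Type} (G : SimpleGraph V)
    (h : ¬ IsIndMinor (⊥ : SimpleGraph (Fin 3)) G) : TriFree Gᶜ := by
  intro x y z hxy hxz hyz
  rw [SimpleGraph.compl_adj] at hxy hxz hyz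
  apply h
  rw [← ims_univ_iff]
  refine ⟨fun i => {![x, y, z] i}, fun _ => Set.subset_univ _, fun i => Conn.singleton G _, ?_, ?_⟩
  · intro i j hij
    rw [Set.disjoint_singleton]
    fin_cases i <;> fin_cases j
    · exact absurd rfl hij
    · exact hxy.1
    · exact hxz.1
    · exact hxy.1.symm
    · exact absurd rfl hij
    · exact hyz.1
    · exact hxz.1.symm
    · exact hyz.1.symm
    · exact absurd rfl hij
  · intro i j hij
    constructor
    · intro hb
      exact hb.elim
    · rintro ⟨a, ha, b, hb, hab⟩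
      rw [Set.mem_singleton_iff] at ha hb
      subst ha
      subst hb
      exfalso
      fin_cases i <;> fin_cases j
      · exact absurd rfl hij
      · exact hxy.2 hab
      · exact hxz.2 hab
      · exact hxy.2 hab.symm
      · exact absurd rfl hij
      · exact hyz.2 hab
      · exact hxz.2 hab.symm
      · exact hyz.2 hab.symm
      · exact absurd rfl hij

end FiveP2aux

open FiveP2aux in
/-- **D11.** -/
theorem fiveP2 (h1 : S_BW) (h2 : S_LayC) (h3 : S_KSub) (h4 : S_Wid) (h5 : S_LayCW) : S_5P2 := by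
  intro s
  obtain ⟨w, hw⟩ := h4 5 s
  obtain ⟨N, hN⟩ := h1 w s
  refine ⟨3 * (N + 1 + 1), ?_⟩
  intro V _ _ G hG hK
  have htri := triFree G hG
  have hcc : (Gᶜ)ᶜ = G := compl_compl G
  have hwid : WidP (Cl Gᶜ) w := hw V Gᶜ htri (by rw [hcc]; exact hK)
  have hF1 : ¬ IsIndMinor (KCo s F1) (Gᶜ)ᶜ := by
    rw [hcc]
    intro h
    exact hK (h3 s _ _ V F1 (nP2 5) G emb emb_inj emb_adj h)
  have hL := h2 V Gᶜ N Set.univ (hN V Gᶜ htri hwid (Or.inl hF1))
  rw [hcc] at hL
  exact h5 V G (N + 1) hL

end Pool.Agent.MPd439b2.W
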