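import Pool.Agent.Lib.MP_d439b2_co.W.SpecE

/-!
# MP_d439b2_co, W, Gen: small generators
-/

set_option autoImplicit false

namespace Pool.Agent.MPd439b2.W

open Pool.Agent.MPd439b2

private theorem gen_aux {V : Type} [Finite V] (D : SimpleGraph V) (m : ℕ) (h : ¬ CoM D m) (v₀ : V)
    (A : Set V) : ∃ X : Finset V, X.card < m ∧ cn D X = cn D A := by
  classical
  have hex : ∃ n : ℕ, ∃ X : Finset V, cn D X = cn D A ∧ X.card = n := by
    refine ⟨_, A.toFinite.toFinset, ?_, rfl⟩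
    rw [Set.Finite.coe_toFinset]
  obtain ⟨X, hX, hcard⟩ := Nat.find_spec hex
  refine ⟨X, ?_, hX⟩
  by_contra hm
  rw [not_lt] at hm
  have hβ : ∀ v ∈ X, ∃ β : V, β ∈ cn D ((X.erase v : Finset V) : Set V) ∧ β ∉ cn D (X : Set V) := by
    intro v hv
    by_contra hno
    push Not at hno
    have h1 : cn D ((X.erase v : Finset V) : Set V) = cn D A := by
      rw [← hX]
      apply Set.Subset.antisymm hno
      apply cn_anti
      exact_mod_cast Finset.erase_subset v X
    have h2 : (X.erase v).card < Nat.find hex := by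
      rw [← hcard]
      exact Finset.card_erase_lt_of_mem hv
    exact Nat.find_min hex h2 ⟨X.erase v, h1, rfl⟩
  choose! β hβ1 hβ2 using hβ
  have hadj : ∀ u ∈ X, ∀ v ∈ X, (D.Adj u (β v) ↔ u ≠ v) := by
    intro u hu v hv
    constructor
    · rintro hadj rfl
      apply hβ2 u hu
      intro x hx
      by_cases hxu : x = u
      · rw [hxu]; exact hadj
      · exact hβ1 u hu x (by exact_mod_cast Finset.mem_erase.2 ⟨hxu, hx⟩)
    · intro hne
      exact hβ1 v hv u (by exact_mod_cast Finset.mem_erase.2 ⟨hne, hu⟩)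
  have e := X.equivFin
  refine h ⟨fun i => if hi : i < X.card then (e.symm ⟨i, hi⟩ : V) else v₀,
    fun i => if hi : i < X.card then β (e.symm ⟨i, hi⟩ : V) else v₀, fun i hi j hj => ?_⟩
  have hi' : i < X.card := lt_of_lt_of_le hi hm
  have hj' : j < X.card := lt_of_lt_of_le hj hm
  simp only [dif_pos hi', dif_pos hj']
  rw [hadj _ (e.symm ⟨i, hi'⟩).2 _ (e.symm ⟨j, hj'⟩).2]
  rw [Ne, Ne, Subtype.coe_inj, e.symm.injective.eq_iff, Fin.mk.injEq]

theorem gen : S_Gen := by
  intro V _ D m h x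
  obtain ⟨v₀, -⟩ := x.2.2.1
  refine ⟨gen_aux D m h v₀ x.1, ?_⟩
  obtain ⟨Y, hY, hY2⟩ := gen_aux D m h v₀ (sg D x).1
  refine ⟨Y, hY, ?_⟩
  rw [hY2]
  exact x.2.1

end Pool.Agent.MPd439b2.W
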