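import Pool.Agent.Lib.MP_d439b2_co.W.SpecE

/-!
# MP_d439b2_co, W: from an alternating closed bundle to a group cycle
-/

set_option autoImplicit false

namespace Pool.Agent.MPd439b2.W

open Pool.Agent.MPd439b2

private theorem grpA_cmp {V : Type} {D : SimpleGraph V} (x y : Cl D) (X Y : Finset V)
    (hX : cn D X = cn D x.1) (hY : cn D Y = y.1) : Cmp D X Y ↔ x ≤ y := by
  constructor
  · intro h
    have h1 : (X : Set V) ⊆ y.1 := by
      intro a ha
      rw [← hY]
      intro b hb
      exact (h a ha b hb).symm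
    have h2 : cn D (cn D (X : Set V)) ⊆ cn D (cn D y.1) := cn_anti (cn_anti h1)
    rw [hX, x.2.1, y.2.1] at h2
    exact h2
  · intro h a ha b hb
    have h1 : a ∈ cn D (cn D (X : Set V)) := sub_cn_cn D _ ha
    rw [hX, x.2.1] at h1
    have h2 : a ∈ y.1 := h h1
    rw [← hY] at h2
    exact (h2 b hb).symm

theorem grpA (h1 : S_Gen) (h2 : S_Sun) : S_GrpA := by
  classical
  intro m₀ r M
  obtain ⟨M', hM'⟩ := h2 (r + 1) m₀ (M + 4)
  refine ⟨M', ?_⟩
  intro V _ D v hco halt
  choose fX hX1 hX2 using fun x => (h1 V D m₀ hco x).1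
  choose fY hY1 hY2 using fun x => (h1 V D m₀ hco x).2
  let T : ℕ → ℕ → Finset V := fun i k => if i % 2 = 0 then fX (v i k) else fY (v i k)
  have hTe : ∀ i k, i % 2 = 0 → T i k = fX (v i k) := fun i k hi => if_pos hi
  have hTo : ∀ i k, i % 2 = 1 → T i k = fY (v i k) := fun i k hi => if_neg (by omega)
  obtain ⟨s, K, hs, hsM, hK, hdis⟩ := hM' V T (by
    intro i _ k _
    rcases Nat.mod_two_eq_zero_or_one i with hi | hi
    · rw [hTe i k hi]; exact (hX1 _).le
    · rw [hTo i k hi]; exact (hY1 _).le)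
  have hC : ∀ i j k l, i % 2 = 0 → j % 2 = 1 → (Cmp D (T i k) (T j l) ↔ v i k ≤ v j l) := by
    intro i j k l hi hj
    rw [hTe i k hi, hTo j l hj]
    exact grpA_cmp _ _ _ _ (hX2 _) (hY2 _)
  -- one step
  have hup : ∀ i j, i ≤ r → j ≤ r → i % 2 = 0 → j % 2 = 1 → Step M' (v i) (v j) → ∀ k < M, ∀ l < M,
      (k < l → Cmp D (T i (s (k + 2)) \ K i) (T j (s (l + 2)) \ K j)) ∧
      (l < k → ¬ Cmp D (T i (s (k + 2)) \ K i) (T j (s (l + 2)) \ K j)) := by
    intro i j hir hjr hi hj hst k hk l hl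
    have hcm : ∀ p q, p < q → q < M + 4 → Cmp D (T i (s p)) (T j (s q)) := by
      intro p q hpq hq
      rw [hC i j _ _ hi hj]
      exact (hst (s p) (hsM p (by omega)) (s q) (hsM q hq)).1 (hs p q hpq hq)
    constructor
    · intro hkl a ha b hb
      exact hcm (k + 2) (l + 2) (by omega) (by omega) a (Finset.mem_sdiff.1 ha).1 b
        (Finset.mem_sdiff.1 hb).1
    · intro hlk hcmp
      have hall : Cmp D (T i (s (k + 2))) (T j (s (l + 2))) := by
        intro a ha b hb
        by_cases haK : a ∈ K i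
        · have ha0 : a ∈ T i (s 0) := hK i (by omega) 0 (by omega) haK
          exact hcm 0 (l + 2) (by omega) (by omega) a ha0 b hb
        · by_cases hbK : b ∈ K j
          · have hb0 : b ∈ T j (s (M + 3)) := hK j (by omega) (M + 3) (by omega) hbK
            exact hcm (k + 2) (M + 3) (by omega) (by omega) a ha b hb0
          · exact hcmp a (Finset.mem_sdiff.2 ⟨ha, haK⟩) b (Finset.mem_sdiff.2 ⟨hb, hbK⟩)
      rw [hC i j _ _ hi hj] at hall
      exact (hst (s (k + 2)) (hsM _ (by omega)) (s (l + 2)) (hsM _ (by omega))).2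
        (hs (l + 2) (k + 2) (by omega) (by omega)) hall
  have hodd := halt.odd
  refine ⟨fun i k => T i (s (k + 2)) \ K i, hodd, ?_, ?_, ?_, ?_, ?_⟩
  · intro i hi k hk
    rw [Finset.nonempty_iff_ne_empty]
    intro hemp
    change T i (s (k + 2)) \ K i = ∅ at hemp
    rw [Finset.sdiff_eq_empty_iff_subset] at hemp
    rcases Nat.mod_two_eq_zero_or_one i with h0 | h0
    · have hir : i < r := by
        rcases hi.lt_or_eq with h | h
        · exact h
        · subst h; omega
      have hst := halt.ev i hir h0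
      have hj : (i + 1) % 2 = 1 := by omega
      have h3 : Cmp D (T i (s 0)) (T (i + 1) (s 1)) := by
        rw [hC i (i + 1) _ _ h0 hj]
        exact (hst (s 0) (hsM 0 (by omega)) (s 1) (hsM 1 (by omega))).1 (hs 0 1 (by omega) (by omega))
      have h4 : Cmp D (T i (s (k + 2))) (T (i + 1) (s 1)) := by
        intro a ha b hb
        exact h3 a (hK i (by omega) 0 (by omega) (hemp ha)) b hb
      rw [hC i (i + 1) _ _ h0 hj] at h4
      exact (hst (s (k + 2)) (hsM _ (by omega)) (s 1) (hsM 1 (by omega))).2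
        (hs 1 (k + 2) (by omega) (by omega)) h4
    · obtain ⟨j, rfl⟩ : ∃ j, i = j + 1 := ⟨i - 1, by omega⟩
      have hj0 : j % 2 = 0 := by omega
      have hst := halt.ev j (by omega) hj0
      have h3 : Cmp D (T j (s (M + 2))) (T (j + 1) (s (M + 3))) := by
        rw [hC j (j + 1) _ _ hj0 h0]
        exact (hst (s (M + 2)) (hsM _ (by omega)) (s (M + 3)) (hsM _ (by omega))).1
          (hs (M + 2) (M + 3) (by omega) (by omega))
      have h4 : Cmp D (T j (s (M + 2))) (T (j + 1) (s (k + 2))) := by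
        intro a ha b hb
        exact h3 a ha b (hK (j + 1) (by omega) (M + 3) (by omega) (hemp hb))
      rw [hC j (j + 1) _ _ hj0 h0] at h4
      exact (hst (s (M + 2)) (hsM _ (by omega)) (s (k + 2)) (hsM _ (by omega))).2
        (hs (k + 2) (M + 2) (by omega) (by omega)) h4
  · intro i hi j hj k hk l hl hkl
    exact hdis i (by omega) j (by omega) (k + 2) (by omega) (l + 2) (by omega) (by omega)
  · intro i hi h0
    exact hup i (i + 1) hi.le (by omega) h0 (by omega) (halt.ev i hi h0)
  · intro i hi h0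
    exact hup (i + 1) i (by omega) hi.le (by omega) h0 (halt.od i hi h0)
  · intro k hk l hl a ha b hb
    have h3 : Cmp D (T 0 (s (k + 2))) (T r (s (l + 2))) := by
      rw [hC 0 r _ _ rfl hodd]
      exact halt.clo _ (hsM _ (by omega)) _ (hsM _ (by omega))
    exact h3 a (Finset.mem_sdiff.1 ha).1 b (Finset.mem_sdiff.1 hb).1

end Pool.Agent.MPd439b2.W
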