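import Pool.Agent.Lib.MP_d439b2_co.W.SpecE

/-!
# MP_d439b2_co, W/Join: `Cl D` has joins
-/

set_option autoImplicit false

namespace Pool.Agent.MPd439b2.W

open Pool.Agent.MPd439b2

theorem join : S_Join := by
  intro V D x y u hx hy
  have hX : x.1 ∪ y.1 ⊆ u.1 := Set.union_subset hx hy
  have hne : (cn D (x.1 ∪ y.1)).Nonempty := u.2.2.2.mono (cn_anti hX)
  have h3 := cn3 D (x.1 ∪ y.1)
  refine ⟨⟨cn D (cn D (x.1 ∪ y.1)), ?_, ?_, ?_⟩, ?_, ?_, ?_⟩
  · rw [h3]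
  · exact x.2.2.1.mono (Set.subset_union_left.trans (sub_cn_cn D _))
  · rw [h3]
    exact hne
  · exact Set.subset_union_left.trans (sub_cn_cn D _)
  · exact Set.subset_union_right.trans (sub_cn_cn D _)
  · intro t ht1 ht2
    have h4 : x.1 ∪ y.1 ⊆ t.1 := Set.union_subset ht1 ht2
    have h5 : cn D (cn D (x.1 ∪ y.1)) ⊆ cn D (cn D t.1) := cn_anti (cn_anti h4)
    rw [t.2.1] at h5
    exact h5

end Pool.Agent.MPd439b2.W
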