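import Pool.Agent.Lib.MP_d439b2_co.W.SpecD

/-! Induced minors of a graph with fewer vertices of `F`. -/

set_option autoImplicit false

namespace Pool.Agent.MPd439b2.W

open Pool.Agent.MPd439b2

theorem kSub : S_KSub := by
  rintro s W W' V F F' G f hf hadj ⟨B, h1, h2, h3⟩
  have hinj : Function.Injective (Sum.map id f : Fin s ⊕ W' → Fin s ⊕ W) :=
    Function.Injective.sumMap Function.injective_id hf
  refine ⟨fun u => B (Sum.map id f u), fun u => h1 _, fun u v huv => h2 _ _ (hinj.ne huv), fun u v huv => ?_⟩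
  rw [← h3 _ _ (hinj.ne huv)]
  rcases u with u | u <;> rcases v with v | v
  · exact Iff.rfl
  · exact Iff.rfl
  · exact Iff.rfl
  · change (u ≠ v ∧ ¬ F'.Adj u v) ↔ (f u ≠ f v ∧ ¬ F.Adj (f u) (f v))
    rw [hadj, hf.ne_iff]

end Pool.Agent.MPd439b2.W
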