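import Pool.Agent.Lib.MP_d439b2_co.W.SpecE

set_option autoImplicit false

namespace Pool.Agent.MPd439b2.W

theorem lemA : S_LemA := by
  intro α _ w m P P' Q Q' hJ hW hP hQ hPQ hQP
  by_contra hm
  push Not at hm
  have hex : ∀ a : ℕ, ∃ j : α, a ≤ w → P (2 * a) ≤ j ∧ Q (2 * (w - a)) ≤ j ∧
      ∀ t, P (2 * a) ≤ t → Q (2 * (w - a)) ≤ t → j ≤ t := by
    intro a
    by_cases ha : a ≤ w
    · have h1 : P (2 * a) ≤ P' (2 * a + 1) :=
        (hP (2 * a) (by omega) (2 * a + 1) (by omega)).1 (by omega)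
      have h2 : Q (2 * (w - a)) ≤ P' (2 * a + 1) :=
        hQP (2 * (w - a)) (by omega) (2 * a + 1) (by omega)
      obtain ⟨j, hj⟩ := hJ _ _ _ h1 h2
      exact ⟨j, fun _ => hj⟩
    · exact ⟨P 0, fun h => absurd h ha⟩
  choose J hJ' using hex
  have hupP : ∀ a ≤ w, J a ≤ P' (2 * a + 1) := by
    intro a ha
    apply (hJ' a ha).2.2
    · exact (hP (2 * a) (by omega) (2 * a + 1) (by omega)).1 (by omega)
    · exact hQP (2 * (w - a)) (by omega) (2 * a + 1) (by omega)
  have hupQ : ∀ a ≤ w, J a ≤ Q' (2 * (w - a) + 1) := by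
    intro a ha
    apply (hJ' a ha).2.2
    · exact hPQ (2 * a) (by omega) (2 * (w - a) + 1) (by omega)
    · exact (hQ (2 * (w - a)) (by omega) (2 * (w - a) + 1) (by omega)).1 (by omega)
  have h1 : ∀ a b, a < b → b ≤ w → ¬ J b ≤ J a := by
    intro a b hab hb h
    have h3 : P (2 * b) ≤ P' (2 * a + 1) := ((hJ' b hb).1.trans h).trans (hupP a (by omega))
    exact (hP (2 * b) (by omega) (2 * a + 1) (by omega)).2 (by omega) h3
  have h2 : ∀ a b, a < b → b ≤ w → ¬ J a ≤ J b := by
    intro a b hab hb h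
    have h3 : Q (2 * (w - a)) ≤ Q' (2 * (w - b) + 1) :=
      ((hJ' a (by omega)).2.1.trans h).trans (hupQ b hb)
    exact (hQ (2 * (w - a)) (by omega) (2 * (w - b) + 1) (by omega)).2 (by omega) h3
  have hinj : ∀ a ≤ w, ∀ b ≤ w, J a ≤ J b → a = b := by
    intro a ha b hb h
    rcases Nat.lt_trichotomy a b with h3 | h3 | h3
    · exact absurd h (h2 a b h3 hb)
    · exact h3
    · exact absurd h (h1 b a h3 ha)
  classical
  have hcard : ((Finset.range (w + 1)).image J).card = w + 1 := by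
    rw [Finset.card_image_of_injOn, Finset.card_range]
    intro a ha b hb hab
    have ha' : a < w + 1 := Finset.mem_range.1 (Finset.mem_coe.1 ha)
    have hb' : b < w + 1 := Finset.mem_range.1 (Finset.mem_coe.1 hb)
    exact hinj a (by omega) b (by omega) (le_of_eq hab)
  have h4 := hW ((Finset.range (w + 1)).image J) (by
    intro x hx y hy hxy
    obtain ⟨a, ha, rfl⟩ := Finset.mem_image.1 hx
    obtain ⟨b, hb, rfl⟩ := Finset.mem_image.1 hy
    rw [Finset.mem_range] at ha hb
    rw [hinj a (by omega) b (by omega) hxy])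
  omega

end Pool.Agent.MPd439b2.W
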