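import Pool.Agent.Lib.MP_d439b2_co.W.SpecA
import Pool.Agent.Lib.MP_d439b2_co.GT.SpecG

/-!
# MP_d439b2_co, W, C1: many disjoint paths from the lower half to the upper half of a chain (helper86)
-/

set_option autoImplicit false

namespace Pool.Agent.MPd439b2.W

open Pool.Agent.MPd439b2

namespace LinkAAux

open Classical in
theorem wt_card {α : Type} (G : SimpleGraph α) (A B : Finset α) :
    wt (ind G) A B = ((A ×ˢ B).filter (fun p : α × α => G.Adj p.1 p.2)).card := by
  unfold wt ind
  rw [Finset.card_filter, Finset.sum_product]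

theorem wt_comm {α : Type} (G : SimpleGraph α) (A B : Finset α) :
    wt (ind G) A B = wt (ind G) B A := by
  unfold wt
  rw [Finset.sum_comm]
  refine Finset.sum_congr rfl fun y _ => Finset.sum_congr rfl fun x _ => ?_
  unfold ind
  by_cases h : G.Adj x y
  · rw [if_pos h, if_pos h.symm]
  · rw [if_neg h, if_neg (fun h' => h h'.symm)]

theorem exists_least {n : ℕ} {α : Type} [PartialOrder α] {c : α → Fin n} (hc : ChainP c)
    {K : Finset α} (i : Fin n) (hK : ∀ z ∈ K, c z = i) (h : K.Nonempty) :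
    ∃ z ∈ K, ∀ y ∈ K, z ≤ y := by
  obtain ⟨z, hz⟩ := K.exists_minimal h
  refine ⟨z, hz.1, fun y hy => ?_⟩
  rcases hc z y ((hK z hz.1).trans (hK y hy).symm) with h1 | h1
  · exact h1
  · exact hz.2 hy h1

theorem exists_greatest {n : ℕ} {α : Type} [PartialOrder α] {c : α → Fin n} (hc : ChainP c)
    {K : Finset α} (i : Fin n) (hK : ∀ z ∈ K, c z = i) (h : K.Nonempty) :
    ∃ z ∈ K, ∀ y ∈ K, y ≤ z := by
  obtain ⟨z, hz⟩ := K.exists_maximal h
  refine ⟨z, hz.1, fun y hy => ?_⟩
  rcases hc z y ((hK z hz.1).trans (hK y hy).symm) with h1 | h1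
  · exact hz.2 hy h1
  · exact h1

open Classical in
/-- the median of a finite chain -/
theorem median {n : ℕ} {α : Type} [PartialOrder α] {c : α → Fin n} (hc : ChainP c)
    {K : Finset α} (i : Fin n) (hK : ∀ z ∈ K, c z = i) (h : K.Nonempty) :
    ∃ t ∈ K, K.card ≤ 2 * (K.filter (fun x => x ≤ t)).card ∧
      K.card ≤ 2 * (K.filter (fun x => ¬ x ≤ t)).card + 1 := by
  let K' := K.filter (fun t => K.card ≤ 2 * (K.filter (fun x => x ≤ t)).card)
  have h1 : K'.Nonempty := by
    obtain ⟨t, ht, htg⟩ := exists_greatest hc i hK h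
    refine ⟨t, Finset.mem_filter.2 ⟨ht, ?_⟩⟩
    rw [Finset.filter_true_of_mem htg]
    omega
  obtain ⟨t, ht, htl⟩ := exists_least hc i (fun z hz => hK z (Finset.mem_filter.1 hz).1) h1
  have ht' := Finset.mem_filter.1 ht
  refine ⟨t, ht'.1, ht'.2, ?_⟩
  have hsplit : K.filter (fun x => x ≤ t) ⊆ insert t (K.filter (fun x => x < t)) := by
    intro x hx
    rw [Finset.mem_filter] at hx
    rw [Finset.mem_insert, Finset.mem_filter]
    rcases hx.2.lt_or_eq with h2 | h2
    · exact Or.inr ⟨hx.1, h2⟩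
    · exact Or.inl h2
  have h3 : (K.filter (fun x => x ≤ t)).card ≤ (K.filter (fun x => x < t)).card + 1 :=
    (Finset.card_le_card hsplit).trans (Finset.card_insert_le _ _)
  have h4 : 2 * (K.filter (fun x => x < t)).card < K.card := by
    by_cases h5 : (K.filter (fun x => x < t)).Nonempty
    · obtain ⟨u, hu, hug⟩ := exists_greatest hc i
        (fun z hz => hK z (Finset.mem_filter.1 hz).1) h5
      have hu' := Finset.mem_filter.1 hu
      have h6 : u ∉ K' := fun h => absurd (htl u h) (not_le_of_gt hu'.2)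
      have h7 : ¬ K.card ≤ 2 * (K.filter (fun x => x ≤ u)).card := fun h =>
        h6 (Finset.mem_filter.2 ⟨hu'.1, h⟩)
      have h8 : (K.filter (fun x => x < t)).card ≤ (K.filter (fun x => x ≤ u)).card := by
        apply Finset.card_le_card
        intro x hx
        exact Finset.mem_filter.2 ⟨(Finset.mem_filter.1 hx).1, hug x hx⟩
      omega
    · rw [Finset.not_nonempty_iff_eq_empty] at h5
      rw [h5, Finset.card_empty]
      exact Finset.card_pos.2 h
  have h5 := Finset.card_filter_add_card_filter_not (s := K) (fun x => x ≤ t)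
  omega

end LinkAAux

open LinkAAux in
open Classical in
theorem linkA (hdeg : S_Deg) (hmen : GT.SMen) : S_LinkA := by
  intro n q M α _ inst _ c U S hc hWL hcard
  have hinst : inst = Classical.decEq α := Subsingleton.elim _ _
  subst hinst
  obtain ⟨hSU, hWL⟩ := hWL
  have hSne : S.Nonempty := Finset.card_pos.1 (by omega)
  have hn : 0 < n := by
    obtain ⟨x, -⟩ := hSne
    exact Fin.pos (c x)
  -- pigeonhole
  have hpig : ∃ i : Fin n, S.card ≤ n * (S.filter (fun x => c x = i)).card := by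
    by_contra hno
    push Not at hno
    have h1 : S.card = ∑ i : Fin n, (S.filter (fun x => c x = i)).card :=
      Finset.card_eq_sum_card_fiberwise (fun x _ => Finset.mem_coe.2 (Finset.mem_univ _))
    have h2 : ∑ i : Fin n, n * (S.filter (fun x => c x = i)).card < ∑ _i : Fin n, S.card := by
      apply Finset.sum_lt_sum_of_nonempty
      · exact ⟨⟨0, hn⟩, Finset.mem_univ _⟩
      · intro i _
        exact hno i
    rw [← Finset.mul_sum, ← h1] at h2
    simp at h2
  obtain ⟨i, hi⟩ := hpig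
  set Si := S.filter (fun x => c x = i) with hSi
  have hSine : Si.Nonempty := by
    rw [← Finset.card_pos]
    rcases Nat.eq_zero_or_pos Si.card with h | h
    · rw [h] at hi
      have := Finset.card_pos.2 hSne
      omega
    · exact h
  obtain ⟨t, ht, ht1, ht2⟩ : ∃ t ∈ Si, Si.card ≤ 2 * (Si.filter (fun x => x ≤ t)).card ∧
      Si.card ≤ 2 * (Si.filter (fun x => ¬ x ≤ t)).card + 1 :=
    median hc i (fun z hz => (Finset.mem_filter.1 hz).2) hSine
  have htc : c t = i := (Finset.mem_filter.1 ht).2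
  set A := U.filter (fun x => c x = i ∧ x ≤ t) with hA
  set B := U.filter (fun x => c x = i ∧ ¬ x ≤ t) with hB
  have hA1 : Si.filter (fun x => x ≤ t) ⊆ A ∩ S := by
    intro x hx
    rw [Finset.mem_filter, hSi, Finset.mem_filter] at hx
    rw [Finset.mem_inter, hA, Finset.mem_filter]
    exact ⟨⟨hSU hx.1.1, hx.1.2, hx.2⟩, hx.1.1⟩
  have hB1 : Si.filter (fun x => ¬ x ≤ t) ⊆ B ∩ S := by
    intro x hx
    rw [Finset.mem_filter, hSi, Finset.mem_filter] at hx
    rw [Finset.mem_inter, hB, Finset.mem_filter]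
    exact ⟨⟨hSU hx.1.1, hx.1.2, hx.2⟩, hx.1.1⟩
  have hA2 := Finset.card_le_card hA1
  have hB2 := Finset.card_le_card hB1
  have hmenger : ∀ L X : Finset α, GT.Cut (Gam c U) A B L X → M + 1 ≤ X.card := by
    intro L X hcut
    by_contra hX
    have hX' : X.card ≤ M := by omega
    have hY1 : A ∩ S ⊆ ((L ∩ U) ∩ S) ∪ X := by
      intro x hx
      rw [Finset.mem_inter] at hx
      rcases Finset.mem_union.1 (hcut.head hx.1) with h | h
      · exact Finset.mem_union_left _ (Finset.mem_inter.2 ⟨Finset.mem_inter.2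
          ⟨h, hSU hx.2⟩, hx.2⟩)
      · exact Finset.mem_union_right _ h
    have hY2 : B ∩ S ⊆ S \ (L ∩ U) := by
      intro x hx
      rw [Finset.mem_inter] at hx
      refine Finset.mem_sdiff.2 ⟨hx.2, fun h => ?_⟩
      exact Finset.disjoint_left.1 hcut.last hx.1 (Finset.mem_inter.1 h).1
    have hY1c := (Finset.card_le_card hY1).trans (Finset.card_union_le _ _)
    have hY2c := Finset.card_le_card hY2
    have hw : wt (ind (Gam c U)) (L ∩ U) (U \ (L ∩ U)) ≤ 2 * n * X.card := by
      have e1 : wt (ind (Gam c U)) (L ∩ U) (U \ (L ∩ U)) ≤ wt (ind (Gam c U)) (L ∩ U) X := by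
        rw [wt_card, wt_card]
        apply Finset.card_le_card
        intro p hp
        simp only [Finset.mem_filter, Finset.mem_product, Finset.mem_inter,
          Finset.mem_sdiff] at hp ⊢
        refine ⟨⟨hp.1.1, ?_⟩, hp.2⟩
        rcases Finset.mem_union.1 (hcut.far p.1 hp.1.1.1 p.2 hp.2) with h | h
        · exact absurd ⟨h, hp.1.2.1⟩ hp.1.2.2
        · exact h
      refine e1.trans ?_
      rw [wt_comm]
      have e2 : wt (ind (Gam c U)) X (L ∩ U) =
          ∑ x ∈ X, wt (ind (Gam c U)) {x} (L ∩ U) := by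
        unfold wt
        simp
      rw [e2]
      refine (Finset.sum_le_card_nsmul X _ (2 * n) fun x _ => hdeg n α c U hc x (L ∩ U)).trans ?_
      rw [smul_eq_mul, mul_comm]
    have c1 : S.card ≤ 4 * n * ((L ∩ U) ∩ S).card := by
      have e1 : n * Si.card ≤ n * (2 * (((L ∩ U) ∩ S).card + M)) :=
        Nat.mul_le_mul_left n (by omega)
      nlinarith [Nat.zero_le (2 * n * q * (M + 1))]
    have c2 : S.card ≤ 4 * n * (S \ (L ∩ U)).card := by
      have e1 : n * Si.card ≤ n * (2 * (S \ (L ∩ U)).card + 1) :=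
        Nat.mul_le_mul_left n (by omega)
      nlinarith [Nat.zero_le (2 * n * q * (M + 1)), Nat.zero_le (n * M)]
    have c3 := hWL (L ∩ U) Finset.inter_subset_right c1 c2
    have c4 : q * wt (ind (Gam c U)) (L ∩ U) (U \ (L ∩ U)) ≤ q * (2 * n * M) :=
      Nat.mul_le_mul_left q (hw.trans (Nat.mul_le_mul_left _ hX'))
    have c5 : q * (2 * n * M) ≤ (4 * n + 2 * n * q) * (M + 1) := by
      nlinarith [Nat.zero_le (n * M), Nat.zero_le n, Nat.zero_le (n * q)]
    omega
  obtain ⟨ν, p, hp⟩ := hmen α (Gam c U) A B (M + 1) hmenger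
  refine ⟨i, A, B, ν, p, ?_, ?_, ?_, ?_, hp⟩
  · intro x hx hxc
    by_cases h : x ≤ t
    · exact Or.inl (Finset.mem_filter.2 ⟨hx, hxc, h⟩)
    · exact Or.inr (Finset.mem_filter.2 ⟨hx, hxc, h⟩)
  · intro x hx
    exact ⟨(Finset.mem_filter.1 hx).1, (Finset.mem_filter.1 hx).2.1⟩
  · intro x hx
    exact ⟨(Finset.mem_filter.1 hx).1, (Finset.mem_filter.1 hx).2.1⟩
  · intro x hx y hy
    have hx' := Finset.mem_filter.1 hx
    have hy' := Finset.mem_filter.1 hy
    have h1 : t < y := by
      rcases hc t y (htc.trans hy'.2.1.symm) with h | h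
      · exact lt_of_le_of_ne h (fun e => hy'.2.2 e.symm.le)
      · exact absurd h hy'.2.2
    exact lt_of_le_of_lt hx'.2.2 h1

end Pool.Agent.MPd439b2.W
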