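import Pool.Agent.Lib.MP_d439b2_co.W.SpecA

/-!
# MP_d439b2_co, W: trimming the paths (C2)
-/

set_option autoImplicit false

namespace Pool.Agent.MPd439b2.W

open Pool.Agent.MPd439b2

namespace LinkB

variable {α : Type} [PartialOrder α] {n : ℕ}

private theorem adj_mem {c : α → Fin n} {U : Finset α} {x y : α} (h : (Gam c U).Adj x y) :
    x ∈ U ∧ y ∈ U := by
  rcases h with h | h | h
  · exact ⟨h.1, h.2.1⟩
  · exact ⟨h.2.1, h.1⟩
  · exact ⟨h.1, h.2.1⟩

private theorem adj_sub {c : α → Fin n} {U U' : Finset α} (hU : U' ⊆ U) {x y : α}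
    (h : (Gam c U).Adj x y) (hx : x ∈ U') (hy : y ∈ U') : (Gam c U').Adj x y := by
  rcases h with h | h | h
  · exact Or.inl ⟨hx, hy, h.2.2.1, h.2.2.2.1, fun z hz => h.2.2.2.2 z (hU hz)⟩
  · exact Or.inr (Or.inl ⟨hy, hx, h.2.2.1, h.2.2.2.1, fun z hz => h.2.2.2.2 z (hU hz)⟩)
  · exact Or.inr (Or.inr ⟨hx, hy, h.2.2⟩)

private theorem adj_ess {c : α → Fin n} {U : Finset α} {x y : α} (h : (Gam c U).Adj x y)
    (hc : c x ≠ c y) : Ess c x y ∨ Ess c y x := by
  rcases h with h | h | h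
  · exact absurd h.2.2.1 hc
  · exact absurd h.2.2.1.symm hc
  · exact h.2.2

private theorem adj_cons {c : α → Fin n} {U : Finset α} {x y : α} (h : (Gam c U).Adj x y)
    (hc : c x = c y) (hlt : x < y) : Cons c U x y := by
  rcases h with h | h | h
  · exact h
  · exact absurd h.2.2.2.1 (lt_asymm hlt)
  · rcases h.2.2 with h' | h'
    · exact absurd hc h'.1
    · exact absurd hc.symm h'.1

private theorem trim {G : SimpleGraph α} {A B : Finset α} {ν : ℕ} {p : ℕ → α}
    (hlt : ∀ x ∈ A, ∀ y ∈ B, x < y) (hp : GT.Pth G A B ν p) :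
    ∃ σ τ, σ < τ ∧ τ ≤ ν ∧ p σ ∈ A ∧ p τ ∈ B ∧ ∀ s, σ < s → s < τ → p s ∉ A ∧ p s ∉ B := by
  classical
  let σ := Nat.findGreatest (fun s => p s ∈ A) ν
  have hσA : p σ ∈ A := by
    have := Nat.findGreatest_spec (P := fun s => p s ∈ A) (Nat.zero_le ν) hp.head
    exact this
  have hσle : σ ≤ ν := Nat.findGreatest_le ν
  have hσmax : ∀ s, σ < s → s ≤ ν → p s ∉ A := fun s h1 h2 =>
    Nat.findGreatest_is_greatest h1 h2
  have hσν : σ < ν := by
    rcases hσle.lt_or_eq with h | h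
    · exact h
    · exfalso
      have h1 : p ν ∈ A := h ▸ hσA
      exact lt_irrefl _ (hlt _ h1 _ hp.last)
  have hex : ∃ t, σ < t ∧ p t ∈ B := ⟨ν, hσν, hp.last⟩
  refine ⟨σ, Nat.find hex, (Nat.find_spec hex).1, Nat.find_min' hex ⟨hσν, hp.last⟩, hσA,
    (Nat.find_spec hex).2, fun s h1 h2 => ⟨hσmax s h1 ?_, fun h3 => ?_⟩⟩
  · exact h2.le.trans (Nat.find_min' hex ⟨hσν, hp.last⟩)
  · exact Nat.find_min hex h2 ⟨h1, h3⟩

private theorem path_conn [DecidableEq α] {G : SimpleGraph α} {p : ℕ → α} {σ τ : ℕ}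
    (h0 : σ + 1 < τ) (hadj : ∀ s, σ < s → s + 1 < τ → G.Adj (p s) (p (s + 1))) :
    Conn G (((Finset.Ioo σ τ).image p : Finset α) : Set α) := by
  have hmem : ∀ s, σ < s → s < τ → p s ∈ (((Finset.Ioo σ τ).image p : Finset α) : Set α) := by
    intro s h1 h2
    exact Finset.mem_coe.mpr (Finset.mem_image_of_mem p (Finset.mem_Ioo.mpr ⟨h1, h2⟩))
  refine ⟨⟨p (σ + 1), hmem _ (by omega) h0⟩, fun T hT hne hTne => ?_⟩
  by_contra hcon
  have hstep : ∀ s, σ < s → s + 1 < τ → (p s ∈ T ↔ p (s + 1) ∈ T) := by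
    intro s h1 h2
    by_contra hiff
    apply hcon
    by_cases h3 : p s ∈ T
    · have h4 : p (s + 1) ∉ T := fun h4 => hiff ⟨fun _ => h4, fun _ => h3⟩
      exact ⟨p s, h3, p (s + 1), ⟨hmem _ (by omega) h2, h4⟩, hadj s h1 h2⟩
    · have h4 : p (s + 1) ∈ T := by
        by_contra h4
        exact hiff ⟨fun h => absurd h h3, fun h => absurd h h4⟩
      exact ⟨p (s + 1), h4, p s, ⟨hmem _ h1 (by omega), h3⟩, (hadj s h1 h2).symm⟩
  have hall : ∀ j, σ + 1 + j < τ → (p (σ + 1) ∈ T ↔ p (σ + 1 + j) ∈ T) := by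
    intro j
    induction j with
    | zero => intro _; exact Iff.rfl
    | succ j ih =>
      intro h
      rw [ih (by omega), hstep (σ + 1 + j) (by omega) (by omega)]
      rfl
  have hidx : ∀ s, σ < s → s < τ → (p (σ + 1) ∈ T ↔ p s ∈ T) := by
    intro s h1 h2
    obtain ⟨j, rfl⟩ := Nat.exists_eq_add_of_le (show σ + 1 ≤ s from h1)
    exact hall j h2
  obtain ⟨t, ht⟩ := hne
  have ht' := hT ht
  rw [Finset.mem_coe, Finset.mem_image] at ht'
  obtain ⟨s, hs, rfl⟩ := ht'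
  rw [Finset.mem_Ioo] at hs
  have h1 : p (σ + 1) ∈ T := (hidx s hs.1 hs.2).mpr ht
  apply hTne
  refine Set.Subset.antisymm hT fun x hx => ?_
  rw [Finset.mem_coe, Finset.mem_image] at hx
  obtain ⟨s', hs', rfl⟩ := hx
  rw [Finset.mem_Ioo] at hs'
  exact (hidx s' hs'.1 hs'.2).mp h1

end LinkB

open LinkB

theorem linkB : S_LinkB := by
  classical
  intro n M α _ _ _ c U i A B ν p hch hAB hA hB hlt hL
  have htrim := fun k => trim hlt (hL.pth k)
  choose σ τ hστ hτν hσA hτB hmid using htrim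
  -- at most one short path
  have hshort : ∀ k k', k ≠ k' → τ k = σ k + 1 → τ k' = σ k' + 1 → p k (σ k) ≤ p k' (σ k') →
      False := by
    intro k k' hkk hk hk' hle
    have hadj := (hL.pth k).adj (σ k) (by have := hστ k; have := hτν k; omega)
    rw [← hk] at hadj
    have hcx : c (p k (σ k)) = i := (hA _ (hσA k)).2
    have hcy : c (p k (τ k)) = i := (hB _ (hτB k)).2
    have hcons := adj_cons hadj (hcx.trans hcy.symm) (hlt _ (hσA k) _ (hτB k))
    have hne : p k (σ k) ≠ p k' (σ k') := hL.dis k k' hkk (σ k)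
      (by have := hστ k; have := hτν k; omega) (σ k') (by have := hστ k'; have := hτν k'; omega)
    have h1 := hcons.2.2.2.2 (p k' (σ k')) (hA _ (hσA k')).1
      ((hA _ (hσA k')).2.trans hcx.symm) (lt_of_le_of_ne hle hne)
    exact lt_irrefl _ ((hlt _ (hσA k') _ (hτB k)).trans_le h1)
  have hone : ∃ k₀, ∀ k, k ≠ k₀ → σ k + 1 < τ k := by
    by_cases hex : ∃ k, τ k = σ k + 1
    · obtain ⟨k₀, hk₀⟩ := hex
      refine ⟨k₀, fun k hk => ?_⟩
      by_contra hcon
      have hk' : τ k = σ k + 1 := by have := hστ k; omega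
      have hcx : c (p k (σ k)) = i := (hA _ (hσA k)).2
      have hcy : c (p k₀ (σ k₀)) = i := (hA _ (hσA k₀)).2
      rcases hch _ _ (hcx.trans hcy.symm) with h | h
      · exact hshort k k₀ hk hk' hk₀ h
      · exact hshort k₀ k hk.symm hk₀ hk' h
    · push Not at hex
      refine ⟨0, fun k _ => ?_⟩
      have := hex k
      have := hστ k
      omega
  obtain ⟨k₀, hk₀⟩ := hone
  let f : ℕ → Fin (M + 1) := fun k => if h : k < M then k₀.succAbove ⟨k, h⟩ else 0
  have hf : ∀ k < M, f k ≠ k₀ := by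
    intro k hk
    simp only [f, dif_pos hk]
    exact Fin.succAbove_ne _ _
  have hfinj : ∀ k < M, ∀ l < M, k ≠ l → f k ≠ f l := by
    intro k hk l hl hkl he
    simp only [f, dif_pos hk, dif_pos hl] at he
    have := Fin.succAbove_right_injective he
    exact hkl (congrArg Fin.val this)
  have hlong : ∀ k < M, σ (f k) + 1 < τ (f k) := fun k hk => hk₀ _ (hf k hk)
  have hσν : ∀ k, σ k < ν k := fun k => (hστ k).trans_le (hτν k)
  -- the middle vertices
  have hmidU : ∀ k s, σ k < s → s < τ k → p k s ∈ U.filter (fun x => c x ≠ i) := by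
    intro k s h1 h2
    have hadj := (hL.pth k).adj s (by have := hτν k; omega)
    have hU := (adj_mem hadj).1
    rw [Finset.mem_filter]
    refine ⟨hU, fun hc => ?_⟩
    rcases hAB _ hU hc with h | h
    · exact (hmid k s h1 h2).1 h
    · exact (hmid k s h1 h2).2 h
  refine ⟨fun k => p (f k) (σ (f k)), fun k => p (f k) (τ (f k)),
    fun k => (Finset.Ioo (σ (f k)) (τ (f k))).image (p (f k)), ?_, ?_, ?_, ?_⟩
  · intro k hk
    exact ⟨(hA _ (hσA (f k))).1, (hA _ (hσA (f k))).2, (hB _ (hτB (f k))).2⟩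
  · intro k hk l hl
    exact hlt _ (hσA (f k)) _ (hτB (f l))
  · intro k hk l hl hkl
    have hne := hfinj k hk l hl hkl
    refine ⟨hL.dis _ _ hne _ (hσν _).le _ (hσν _).le, hL.dis _ _ hne _ (hτν _) _ (hτν _), ?_⟩
    rw [Finset.disjoint_left]
    intro x hx hx'
    rw [Finset.mem_image] at hx hx'
    obtain ⟨s, hs, rfl⟩ := hx
    obtain ⟨t, ht, he⟩ := hx'
    rw [Finset.mem_Ioo] at hs ht
    have h1 := hτν (f k)
    have h2 := hτν (f l)
    exact hL.dis _ _ hne s (by omega) t (by omega) he.symm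
  · intro k hk
    have hlk := hlong k hk
    have hτk := hτν (f k)
    refine ⟨?_, ?_, ?_, ?_⟩
    · intro x hx
      rw [Finset.mem_image] at hx
      obtain ⟨s, hs, rfl⟩ := hx
      rw [Finset.mem_Ioo] at hs
      exact hmidU (f k) s hs.1 hs.2
    · refine path_conn hlk fun s h1 h2 => ?_
      exact adj_sub (Finset.filter_subset _ _) ((hL.pth (f k)).adj s (by omega))
        (hmidU (f k) s h1 (by omega)) (hmidU (f k) (s + 1) (by omega) h2)
    · refine ⟨p (f k) (σ (f k) + 1), Finset.mem_image_of_mem _ (Finset.mem_Ioo.mpr ⟨by omega, hlk⟩), ?_⟩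
      have hadj := (hL.pth (f k)).adj (σ (f k)) (by omega)
      refine adj_ess hadj fun he => ?_
      have h1 := (Finset.mem_filter.mp (hmidU (f k) (σ (f k) + 1) (by omega) hlk)).2
      exact h1 (he.symm.trans (hA _ (hσA (f k))).2)
    · refine ⟨p (f k) (τ (f k) - 1), Finset.mem_image_of_mem _
        (Finset.mem_Ioo.mpr ⟨by omega, by omega⟩), ?_⟩
      have hadj := (hL.pth (f k)).adj (τ (f k) - 1) (by omega)
      rw [show τ (f k) - 1 + 1 = τ (f k) by omega] at hadj
      refine adj_ess hadj.symm fun he => ?_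
      have h1 := (Finset.mem_filter.mp (hmidU (f k) (τ (f k) - 1) (by omega) (by omega))).2
      exact h1 (he.symm.trans (hB _ (hτB (f k))).2)

end Pool.Agent.MPd439b2.W
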