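import Pool.Agent.Lib.MP_d439b2_co.W.SpecE

/-!
# MP_d439b2_co, W: merging two consecutive steps in the same direction (`S_Merge`)
-/

set_option autoImplicit false

namespace Pool.Agent.MPd439b2.W

open Pool.Agent.MPd439b2

theorem merge (hA : S_LemA) : S_Merge := by
  intro α _ w m a b d hJ hW hmono hab hbd
  obtain ⟨K, hK⟩ : ∃ K, K = 4 * w + 4 := ⟨_, rfl⟩
  rw [← hK] at hmono hab hbd ⊢
  have hle : ∀ k < m, ∀ j < K, K * k + j < K * m := by
    intro k hk j hj
    have h1 : K * (k + 1) ≤ K * m := Nat.mul_le_mul_left K hk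
    rw [Nat.mul_add, Nat.mul_one] at h1
    omega
  have hlt : ∀ k l, k < l → K * k + K ≤ K * l := by
    intro k l hkl
    have h1 : K * (k + 1) ≤ K * l := Nat.mul_le_mul_left K hkl
    rw [Nat.mul_add, Nat.mul_one] at h1
    exact h1
  have ma : ∀ k l, k ≤ l → l < K * m → a k ≤ a l := by
    intro k l hkl hl
    rcases Nat.lt_or_eq_of_le hkl with h | h
    · exact (hmono k l h hl).1.le
    · rw [h]
  have mb : ∀ k l, k ≤ l → l < K * m → b k ≤ b l := by
    intro k l hkl hl
    rcases Nat.lt_or_eq_of_le hkl with h | h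
    · exact (hmono k l h hl).2.1.le
    · rw [h]
  have md : ∀ k l, k ≤ l → l < K * m → d k ≤ d l := by
    intro k l hkl hl
    rcases Nat.lt_or_eq_of_le hkl with h | h
    · exact (hmono k l h hl).2.2.le
    · rw [h]
  intro k hk l hl
  have hk0 := hle k hk 0 (by omega)
  have hl0 := hle l hl 0 (by omega)
  have hk1 := hle k hk 1 (by omega)
  have hlm := hle l hl (2 * w + 2) (by omega)
  refine ⟨fun hkl => ?_, fun hlk hcon => ?_⟩
  · have h1 := hlt k l hkl
    exact ((hab (K * k) (by omega) (K * k + 1) (by omega)).1 (by omega)).trans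
      ((hbd (K * k + 1) (by omega) (K * l) (by omega)).1 (by omega))
  · have h1 := hlt l k hlk
    have hcon' : a (K * k) ≤ d (K * l) := hcon
    obtain ⟨p, hp⟩ : ∃ p, p = K * k + 1 - (2 * w + 2) := ⟨_, rfl⟩
    obtain ⟨q, hq⟩ : ∃ q, q = K * l := ⟨_, rfl⟩
    obtain ⟨N, hN⟩ : ∃ N, N = K * m := ⟨_, rfl⟩
    rw [← hN] at ma mb md hab hbd hk0 hl0 hk1 hlm
    have hpk : K * k = p + (2 * w + 1) := by omega
    rw [hpk] at hcon' hk0 hk1 h1
    rw [← hq] at hcon' hl0 hlm h1
    have h2 := hA α w (2 * w + 2) (fun t => a (p + t)) (fun t => b (p + t)) (fun t => b (q + t))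
      (fun t => d (q + t)) hJ hW
      (fun s hs t ht => ⟨fun h => (hab (p + s) (by omega) (p + t) (by omega)).1 (by omega),
        fun h => (hab (p + s) (by omega) (p + t) (by omega)).2 (by omega)⟩)
      (fun s hs t ht => ⟨fun h => (hbd (q + s) (by omega) (q + t) (by omega)).1 (by omega),
        fun h => (hbd (q + s) (by omega) (q + t) (by omega)).2 (by omega)⟩)
      (fun s hs t ht => ((ma (p + s) (p + (2 * w + 1)) (by omega) (by omega)).trans hcon').trans
        (md q (q + t) (by omega) (by omega)))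
      (fun s hs t ht => mb (q + s) (p + t) (by omega) (by omega))
    omega

end Pool.Agent.MPd439b2.W
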