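import Pool.Agent.Lib.MP_d439b2_co.W.SpecP

/-! There are no large homogeneous group cycles. -/

set_option autoImplicit false

namespace Pool.Agent.MPd439b2.W

open Pool.Agent.MPd439b2

theorem noHGC (h1 : S_Tri) (h2 : S_X1) (h3 : S_X2) (h4 : S_PatX) (h5 : S_Short) (h6 : S_Cyc) :
    S_NoHGC := by
  intro s V D hT hex M r
  have hcon : ¬ (IsIndMinor (KCo s F1) Dᶜ ∧ IsIndMinor (KCo s F2) Dᶜ ∧ IsIndMinor (KCo s F3) Dᶜ) := by
    rintro ⟨a, b, c⟩
    rcases hex with h | h | h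
    · exact h a
    · exact h b
    · exact h c
  induction r using Nat.strong_induction_on with
  | _ r ih =>
    intro z E hM h
    have T1 : ¬ ∃ t ≤ r, ∃ a ≤ r, ∃ b ≤ r, E t a ∧ ¬ E a t ∧ E b t ∧ ¬ E t b :=
      fun hh => hcon (h2 s V D M r z E hT h.pat hM hh)
    have T2 : ¬ ∃ p ≤ r, ∃ p' ≤ r, ∃ q ≤ r, ∃ q' ≤ r, E p p' ∧ ¬ E p' p ∧
        ((E q q' ∧ ¬ E q' q) ∨ (E q' q ∧ ¬ E q q')) ∧ E q' p ∧ E q p' :=
      fun hh => hcon (h3 s V D M r z E hT h.pat hM hh)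
    have htri := h1 V D M r z E hT h.pat (by omega)
    have hodd := h.odd
    have hsh : ∀ i ≤ r, ∀ j ≤ r, i % 2 = 0 → j % 2 = 1 → j ≠ i + 1 → i ≠ j + 1 → (i ≠ 0 ∨ j ≠ r) →
        ¬ E i j ∧ ¬ E j i := by
      intro i hi j hj hi2 hj2 hij hji h0
      have e1 : ¬ E i j := by
        intro hE
        obtain ⟨r', hr', z', E', hc⟩ := h5 V D M r z E h i hi j hj hi2 hj2 hij hji h0 hE
        exact ih r' hr' z' E' hM hc
      refine ⟨e1, fun hE => T1 ⟨i, hi, i + 1, by omega, j, hj, ?_, ?_, hE, e1⟩⟩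
      · exact (h.ev i (by omega) hi2).1
      · exact (h.ev i (by omega) hi2).2
    rcases h6 r E hodd h.ev h.od h.clo htri T1 T2 hsh with ⟨hr, hk⟩ | ⟨hr, hk⟩ | ⟨hr, hk⟩
    · subst hr
      exact hcon (h4 s V D M z E hT hM (Or.inl ⟨h.pat, hk⟩))
    · have hp : Pat D M 6 (fun i => z (if i = 6 then r else i))
          (fun i j => E (if i = 6 then r else i) (if j = 6 then r else j)) := by
        refine h.pat.comp (fun i => if i = 6 then r else i) ?_ le_rfl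
        intro i hi
        split_ifs <;> omega
      exact hcon (h4 s V D M _ _ hT hM (Or.inr (Or.inl ⟨hp, hk⟩)))
    · refine hcon (h4 s V D M z E hT hM (Or.inr (Or.inr ⟨?_, hk⟩)))
      exact h.pat.comp id (fun i hi => by change i ≤ r; omega) le_rfl

end Pool.Agent.MPd439b2.W
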