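import Pool.Agent.Lib.MP_d439b2_co.W.SpecA

/-!
# MP_d439b2_co, W: tracks do not cross (helper81)
-/

set_option autoImplicit false

namespace Pool.Agent.MPd439b2.W

open Pool.Agent.MPd439b2

namespace NoncrossAux

/-- enumeration of a strict total order on `{0, .., N - 1}` -/
private lemma enum (N : ℕ) (R : ℕ → ℕ → Prop) (hirr : ∀ k < N, ¬ R k k)
    (htr : ∀ k < N, ∀ l < N, ∀ j < N, R k l → R l j → R k j)
    (htot : ∀ k < N, ∀ l < N, k ≠ l → R k l ∨ R l k) :
    ∃ f : ℕ → ℕ, (∀ t < N, f t < N) ∧ ∀ t t', t < t' → t' < N → R (f t) (f t') := by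
  classical
  obtain ⟨rk, hrk⟩ : ∃ rk : ℕ → ℕ, rk = fun k => ((Finset.range N).filter (fun l => R l k)).card := ⟨_, rfl⟩
  have hlt : ∀ k < N, ∀ l < N, R k l → rk k < rk l := by
    intro k hk l hl h
    rw [hrk]
    apply Finset.card_lt_card
    rw [Finset.ssubset_iff_of_subset]
    · refine ⟨k, ?_, ?_⟩
      · rw [Finset.mem_filter, Finset.mem_range]
        exact ⟨hk, h⟩
      · rw [Finset.mem_filter, Finset.mem_range]
        intro h1
        exact hirr k hk h1.2
    · intro j hj
      rw [Finset.mem_filter, Finset.mem_range] at hj ⊢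
      exact ⟨hj.1, htr j hj.1 k hk l hl hj.2 h⟩
  have hN : ∀ k < N, rk k < N := by
    intro k hk
    have h1 : ((Finset.range N).filter (fun l => R l k)).card < (Finset.range N).card := by
      apply Finset.card_lt_card
      rw [Finset.ssubset_iff_of_subset (Finset.filter_subset _ _)]
      refine ⟨k, Finset.mem_range.2 hk, ?_⟩
      rw [Finset.mem_filter]
      intro h1
      exact hirr k hk h1.2
    rw [Finset.card_range] at h1
    rw [hrk]
    exact h1
  have hinj : Set.InjOn rk (Finset.range N : Set ℕ) := by
    intro k hk l hl h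
    rw [Finset.mem_coe, Finset.mem_range] at hk hl
    by_contra hne
    rcases htot k hk l hl hne with h1 | h1
    · have := hlt k hk l hl h1
      omega
    · have := hlt l hl k hk h1
      omega
  have hsurj : ∀ t < N, ∃ k < N, rk k = t := by
    intro t ht
    have h1 : Set.SurjOn rk (Finset.range N : Set ℕ) (Finset.range N : Set ℕ) := by
      apply Finset.surjOn_of_injOn_of_card_le
      · intro k hk
        rw [Finset.mem_coe, Finset.mem_range] at hk ⊢
        exact hN k hk
      · exact hinj
      · exact le_refl _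
    obtain ⟨k, hk, hkt⟩ := h1 (Finset.mem_coe.2 (Finset.mem_range.2 ht))
    rw [Finset.mem_coe, Finset.mem_range] at hk
    exact ⟨k, hk, hkt⟩
  have hex : ∀ t, ∃ k, t < N → k < N ∧ rk k = t := by
    intro t
    by_cases ht : t < N
    · obtain ⟨k, hk, hkt⟩ := hsurj t ht
      exact ⟨k, fun _ => ⟨hk, hkt⟩⟩
    · exact ⟨0, fun h => absurd h ht⟩
  choose f hf using hex
  refine ⟨f, fun t ht => (hf t ht).1, fun t t' htt ht' => ?_⟩
  obtain ⟨a1, a2⟩ := hf t (htt.trans ht')
  obtain ⟨b1, b2⟩ := hf t' ht'
  have hne : f t ≠ f t' := by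
    intro h
    rw [h, b2] at a2
    omega
  rcases htot _ a1 _ b1 hne with h | h
  · exact h
  · have := hlt _ b1 _ a1 h
    omega

end NoncrossAux

/-- **C6.** -/
theorem noncross : S_Noncross := by
  intro n m r α _ c A B χ dir hc hT
  obtain ⟨cA, cB, sep, up, dn⟩ := hT
  -- the order of the tracks
  have key : ∀ k < 2 * m, ∀ k' < 2 * m, A k 0 < A k' 0 → ∀ j ≤ r,
      A k j < A k' j ∧ A k j < B k' j ∧ B k j < A k' j ∧ B k j < B k' j := by
    intro k hk k' hk' h0
    have hne : k ≠ k' := by
      rintro rfl
      exact lt_irrefl _ h0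
    intro j
    induction j with
    | zero =>
      intro hj
      rcases sep k hk k' hk' hne 0 hj with h | h
      · exact h
      · exact absurd (h0.trans h.1) (lt_irrefl _)
    | succ j ih =>
      intro hj
      have h1 := ih (by omega)
      rcases sep k hk k' hk' hne (j + 1) hj with h | h
      · exact h
      · exfalso
        have h2 : A k (j + 1) ≤ A k' (j + 1) := by
          by_cases hd : dir j
          · have e1 := up k hk j (by omega) hd
            have e2 := up k' hk' j (by omega) hd
            apply e1.2.2.2 (A k' (j + 1))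
            · rw [cA k' hk' (j + 1) hj, cA k hk (j + 1) hj]
            · exact h1.2.2.2.le.trans e2.2.1
          · have e1 := dn k hk j (by omega) hd
            have e2 := dn k' hk' j (by omega) hd
            apply e2.2.2.1 (A k (j + 1))
            · rw [cA k' hk' (j + 1) hj, cA k hk (j + 1) hj]
            · exact e1.2.1.trans h1.2.2.2.le
        exact absurd (lt_of_le_of_lt h2 h.1) (lt_irrefl _)
  obtain ⟨f, hf, hff⟩ := NoncrossAux.enum (2 * m) (fun k l => A k 0 < A l 0) (fun k _ => lt_irrefl _)
    (fun k _ l _ j _ h1 h2 => lt_trans h1 h2) (by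
      intro k hk l hl hkl
      rcases sep k hk l hl hkl 0 (Nat.zero_le _) with h | h
      · exact Or.inl h.1
      · exact Or.inr h.1)
  have hord : ∀ t t', t < t' → t' < 2 * m → ∀ j ≤ r,
      A (f t) j < A (f t') j ∧ A (f t) j < B (f t') j ∧ B (f t) j < A (f t') j ∧ B (f t) j < B (f t') j := by
    intro t t' htt ht'
    exact key (f t) (hf t (by omega)) (f t') (hf t' ht') (hff t t' htt ht')
  refine ⟨fun k => f (2 * k), fun k hk => hf _ (by omega), ?_, ?_⟩
  · intro i hi k l hkl hl
    exact (hord (2 * k) (2 * l) (by omega) (by omega) i hi).1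
  · intro j hj
    by_cases hd : dir j
    · left
      intro k hk l hl
      constructor
      · intro hkl
        have h1 := hord (2 * k) (2 * k + 1) (by omega) (by omega) j (by omega)
        have h2 := up (f (2 * k + 1)) (hf _ (by omega)) j hj hd
        have h3 := hord (2 * k + 1) (2 * l) (by omega) (by omega) (j + 1) (by omega)
        exact ((h1.2.1.trans_le h2.2.1).trans h3.1).le
      · intro hlk h
        have h1 := hord (2 * l + 1) (2 * k) (by omega) (by omega) j (by omega)
        have h2 := up (f (2 * l + 1)) (hf _ (by omega)) j hj hd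
        have h3 := hord (2 * l) (2 * l + 1) (by omega) (by omega) (j + 1) (by omega)
        have h4 : A (f (2 * l + 1)) (j + 1) ≤ A (f (2 * l)) (j + 1) := by
          apply h2.2.2.2
          · rw [cA _ (hf _ (by omega)) (j + 1) (by omega), cA _ (hf _ (by omega)) (j + 1) (by omega)]
          · exact h1.2.2.1.le.trans h
        exact absurd (lt_of_le_of_lt h4 h3.1) (lt_irrefl _)
    · right
      intro k hk l hl
      constructor
      · intro hkl
        have h1 := hord (2 * k) (2 * k + 1) (by omega) (by omega) (j + 1) (by omega)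
        have h2 := dn (f (2 * k + 1)) (hf _ (by omega)) j hj hd
        have h3 := hord (2 * k + 1) (2 * l) (by omega) (by omega) j (by omega)
        exact ((h1.1.trans_le h2.2.1).trans h3.2.2.1).le
      · intro hlk h
        have h1 := hord (2 * l) (2 * l + 1) (by omega) (by omega) j (by omega)
        have h2 := dn (f (2 * l + 1)) (hf _ (by omega)) j hj hd
        have h3 := hord (2 * l + 1) (2 * k) (by omega) (by omega) (j + 1) (by omega)
        have h4 : A (f (2 * k)) (j + 1) ≤ A (f (2 * l + 1)) (j + 1) := by
          apply h2.2.2.1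
          · rw [cA _ (hf _ (by omega)) (j + 1) (by omega), cA _ (hf _ (by omega)) (j + 1) (by omega)]
          · exact h.trans h1.2.1.le
        exact absurd (lt_of_le_of_lt h4 h3.1) (lt_irrefl _)

end Pool.Agent.MPd439b2.W
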