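import Pool.Agent.Lib.MP_d439b2_co.W.SpecP

/-!
# MP_d439b2_co, W, PatX: patterns with unrelated rails
-/

set_option autoImplicit false

namespace Pool.Agent.MPd439b2.W

open Pool.Agent.MPd439b2

theorem patX (h1 : S_Atoms) : S_PatX := by
  intro s V D M z E hT hM h
  rcases h with ⟨hP, hK⟩ | ⟨hP, hK⟩ | ⟨hP, hK⟩
  · have h01 : E 0 1 := (hK 0 (by norm_num) 1 (by norm_num)).1 (by decide)
    have h10 : ¬ E 1 0 := (hK 1 (by norm_num) 0 (by norm_num)).2 (by decide)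
    exact ⟨h1 _ _ _ _ _ s _ _ _ V D z E chkA5_1 hK (by norm_num) h01 h10 (by omega) hT hP,
      h1 _ _ _ _ _ s _ _ _ V D z E chkA5_2 hK (by norm_num) h01 h10 (by omega) hT hP,
      h1 _ _ _ _ _ s _ _ _ V D z E chkA5_3 hK (by norm_num) h01 h10 (by omega) hT hP⟩
  · have h01 : E 0 1 := (hK 0 (by norm_num) 1 (by norm_num)).1 (by decide)
    have h10 : ¬ E 1 0 := (hK 1 (by norm_num) 0 (by norm_num)).2 (by decide)
    exact ⟨h1 _ _ _ _ _ s _ _ _ V D z E chkA_1 hK (by norm_num) h01 h10 (by omega) hT hP,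
      h1 _ _ _ _ _ s _ _ _ V D z E chkA_2 hK (by norm_num) h01 h10 (by omega) hT hP,
      h1 _ _ _ _ _ s _ _ _ V D z E chkA_3 hK (by norm_num) h01 h10 (by omega) hT hP⟩
  · have h01 : E 0 1 := (hK 0 (by norm_num) 1 (by norm_num)).1 (by decide)
    have h10 : ¬ E 1 0 := (hK 1 (by norm_num) 0 (by norm_num)).2 (by decide)
    exact ⟨h1 _ _ _ _ _ s _ _ _ V D z E chkB_1 hK (by norm_num) h01 h10 (by omega) hT hP,
      h1 _ _ _ _ _ s _ _ _ V D z E chkB_2 hK (by norm_num) h01 h10 (by omega) hT hP,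
      h1 _ _ _ _ _ s _ _ _ V D z E chkB_3 hK (by norm_num) h01 h10 (by omega) hT hP⟩

end Pool.Agent.MPd439b2.W
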