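import Pool.Agent.Lib.MP_d439b2_co.W.SpecD

/-!
# MP_d439b2_co, W, D4: weights of blocks
-/

set_option autoImplicit false

namespace Pool.Agent.MPd439b2.W

namespace PreAux

variable {α : Type} [Fintype α] [DecidableEq α]

theorem mem_pre {σ : α → α} {Z : Finset (Finset α)} {x : α} : x ∈ pre σ Z ↔ blk σ x ∈ Z := by
  simp [pre]

theorem sum_pre (σ : α → α) (Z : Finset (Finset α)) (f : α → ℕ) :
    ∑ b ∈ Z, ∑ x ∈ pre σ {b}, f x = ∑ x ∈ pre σ Z, f x := by
  rw [← Finset.sum_fiberwise_of_maps_to (s := pre σ Z) (t := Z) (g := blk σ)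
    (fun x hx => mem_pre.1 hx)]
  apply Finset.sum_congr rfl
  intro b hb
  apply Finset.sum_congr _ (fun _ _ => rfl)
  ext x
  rw [Finset.mem_filter, mem_pre, mem_pre, Finset.mem_singleton]
  constructor
  · intro h
    exact ⟨h ▸ hb, h⟩
  · exact fun h => h.2

end PreAux

open PreAux in
theorem preW : S_Pre := by
  intro α _ _ Γ σ Z Z'
  refine ⟨?_, ?_⟩
  · have h1 : wt (WB Γ σ) Z Z' =
        ∑ b ∈ Z, ∑ x ∈ pre σ {b}, ∑ b' ∈ Z', ∑ y ∈ pre σ {b'}, ind Γ x y := by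
      unfold wt WB wt
      apply Finset.sum_congr rfl
      intro b _
      rw [Finset.sum_comm]
    rw [h1, sum_pre σ Z (fun x => ∑ b' ∈ Z', ∑ y ∈ pre σ {b'}, ind Γ x y)]
    unfold wt
    apply Finset.sum_congr rfl
    intro x _
    exact sum_pre σ Z' (fun y => ind Γ x y)
  · ext x
    rw [mem_pre, Finset.mem_compl, Finset.mem_compl, mem_pre]

end Pool.Agent.MPd439b2.W
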