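import Pool.Agent.Lib.MP_d439b2_co.W.SpecA

/-!
# MP_d439b2_co, W, C3: the number of the runs of a region (helper86)
-/

set_option autoImplicit false

namespace Pool.Agent.MPd439b2.W

open Pool.Agent.MPd439b2

namespace RunsAux

open Classical in
theorem wt_card {α : Type} (G : SimpleGraph α) (A B : Finset α) :
    wt (ind G) A B = ((A ×ˢ B).filter (fun p : α × α => G.Adj p.1 p.2)).card := by
  unfold wt ind
  rw [Finset.card_filter, Finset.sum_product]

theorem exists_least {n : ℕ} {α : Type} [PartialOrder α] {c : α → Fin n} (hc : ChainP c)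
    {K : Finset α} (i : Fin n) (hK : ∀ z ∈ K, c z = i) (h : K.Nonempty) :
    ∃ z ∈ K, ∀ y ∈ K, z ≤ y := by
  obtain ⟨z, hz⟩ := K.exists_minimal h
  refine ⟨z, hz.1, fun y hy => ?_⟩
  rcases hc z y ((hK z hz.1).trans (hK y hy).symm) with h1 | h1
  · exact h1
  · exact hz.2 hy h1

theorem exists_greatest {n : ℕ} {α : Type} [PartialOrder α] {c : α → Fin n} (hc : ChainP c)
    {K : Finset α} (i : Fin n) (hK : ∀ z ∈ K, c z = i) (h : K.Nonempty) :
    ∃ z ∈ K, ∀ y ∈ K, y ≤ z := by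
  obtain ⟨z, hz⟩ := K.exists_maximal h
  refine ⟨z, hz.1, fun y hy => ?_⟩
  rcases hc z y ((hK z hz.1).trans (hK y hy).symm) with h1 | h1
  · exact hz.2 hy h1
  · exact h1

end RunsAux

open RunsAux in
open Classical in
theorem runs : S_Runs := by
  intro n α _ _ _ c U R T hc hT hrun
  rw [wt_card]
  set P := (R ×ˢ Rᶜ).filter (fun p : α × α => (Gam c U).Adj p.1 p.2) with hP
  let K : α → Finset α := fun x => U.filter (fun z => c z = c x ∧ x < z ∧ z ∉ R)
  have memK : ∀ x z, z ∈ K x ↔ z ∈ U ∧ c z = c x ∧ x < z ∧ z ∉ R := by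
    intro x z
    simp only [K, Finset.mem_filter]
  -- the key: two elements in the same chain
  have key : ∀ x ∈ T, ∀ y ∈ T, c x = c y → x < y → ∃ u ∈ K x, u ≤ y := by
    intro x hx y hy hxy hlt
    by_contra hno
    push Not at hno
    apply hrun x hx y hy hlt.ne
    refine ⟨(hT x hx).1, (hT x hx).2, (hT y hy).1, (hT y hy).2, hxy, ?_⟩
    intro z hz hzc hzz
    rcases hzz with ⟨h1, h2⟩ | ⟨h1, h2⟩
    · by_contra hzR
      rcases h1.lt_or_eq with h3 | h3
      · exact hno z ((memK x z).2 ⟨hz, hzc, h3, hzR⟩) h2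
      · exact hzR (h3 ▸ (hT x hx).2)
    · exact absurd (h1.trans h2) (not_le_of_gt hlt)
  have h0 : (T.filter (fun x => ¬ (K x).Nonempty)).card ≤ n := by
    have : (T.filter (fun x => ¬ (K x).Nonempty)).card ≤ (Finset.univ : Finset (Fin n)).card := by
      apply Finset.card_le_card_of_injOn c (fun _ _ => Finset.mem_coe.2 (Finset.mem_univ _))
      intro x hx y hy hxy
      rw [Finset.mem_coe, Finset.mem_filter] at hx hy
      by_contra hne
      rcases hc x y hxy with h1 | h1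
      · obtain ⟨u, hu, -⟩ := key x hx.1 y hy.1 hxy (lt_of_le_of_ne h1 hne)
        exact hx.2 ⟨u, hu⟩
      · obtain ⟨u, hu, -⟩ := key y hy.1 x hx.1 hxy.symm (lt_of_le_of_ne h1 (Ne.symm hne))
        exact hy.2 ⟨u, hu⟩
    simpa using this
  have hex : ∀ x, x ∈ T.filter (fun x => (K x).Nonempty) →
      ∃ p : α × α, p ∈ P ∧ p.2 ∈ K x ∧ ∀ z ∈ K x, p.2 ≤ z := by
    intro x hx
    rw [Finset.mem_filter] at hx
    obtain ⟨hxT, hxK⟩ := hx
    obtain ⟨z, hz, hzl⟩ := exists_least hc (c x) (fun z hz => ((memK x z).1 hz).2.1) hxK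
    obtain ⟨hzU, hzc, hxz, hzR⟩ := (memK x z).1 hz
    obtain ⟨y, hy, hyg⟩ := exists_greatest hc (c x) (K := U.filter (fun y => c y = c x ∧ y < z))
      (fun y hy => (Finset.mem_filter.1 hy).2.1)
      ⟨x, Finset.mem_filter.2 ⟨(hT x hxT).1, rfl, hxz⟩⟩
    rw [Finset.mem_filter] at hy
    obtain ⟨hyU, hyc, hyz⟩ := hy
    have hxy : x ≤ y := hyg x (Finset.mem_filter.2 ⟨(hT x hxT).1, rfl, hxz⟩)
    have hyR : y ∈ R := by
      by_contra hyR
      have h1 : x < y := lt_of_le_of_ne hxy (fun h => hyR (h ▸ (hT x hxT).2))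
      exact absurd (hzl y ((memK x y).2 ⟨hyU, hyc, h1, hyR⟩)) (not_le_of_gt hyz)
    refine ⟨(y, z), ?_, hz, hzl⟩
    rw [hP, Finset.mem_filter, Finset.mem_product, Finset.mem_compl]
    refine ⟨⟨hyR, hzR⟩, Or.inl ⟨hyU, hzU, hyc.trans hzc.symm, hyz, ?_⟩⟩
    intro w hwU hwc hyw
    rcases hc w z (hwc.trans (hyc.trans hzc.symm)) with h1 | h1
    · rcases h1.lt_or_eq with h2 | h2
      · exact absurd (hyg w (Finset.mem_filter.2 ⟨hwU, hwc.trans hyc, h2⟩)) (not_le_of_gt hyw)
      · exact h2.symm.le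
    · exact h1
  have h1 : (T.filter (fun x => (K x).Nonempty)).card ≤ P.card := by
    choose! φ hφ1 hφ2 hφ3 using hex
    apply Finset.card_le_card_of_injOn φ (fun x hx => Finset.mem_coe.2 (hφ1 x (Finset.mem_coe.1 hx)))
    intro x hx y hy hxy
    rw [Finset.mem_coe] at hx hy
    by_contra hne
    have e1 := ((memK x _).1 (hφ2 x hx))
    have e2 := ((memK y _).1 (hφ2 y hy))
    have hcxy : c x = c y := by rw [← e1.2.1, ← e2.2.1, hxy]
    rcases hc x y hcxy with h1 | h1
    · obtain ⟨u, hu, huy⟩ := key x (Finset.mem_filter.1 hx).1 y (Finset.mem_filter.1 hy).1 hcxy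
        (lt_of_le_of_ne h1 hne)
      have h2 := hφ3 x hx u hu
      rw [hxy] at h2
      exact absurd (h2.trans huy) (not_le_of_gt e2.2.2.1)
    · obtain ⟨u, hu, huy⟩ := key y (Finset.mem_filter.1 hy).1 x (Finset.mem_filter.1 hx).1 hcxy.symm
        (lt_of_le_of_ne h1 (Ne.symm hne))
      have h2 := hφ3 y hy u hu
      rw [← hxy] at h2
      exact absurd (h2.trans huy) (not_le_of_gt e1.2.2.1)
  have h2 := Finset.card_filter_add_card_filter_not (s := T) (fun x => (K x).Nonempty)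
  omega

end Pool.Agent.MPd439b2.W
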