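import Pool.Agent.Lib.MP_d439b2_co.W.SpecP

/-!
# MP_d439b2_co, W: shortcuts of homogeneous group cycles
-/

set_option autoImplicit false

namespace Pool.Agent.MPd439b2.W

open Pool.Agent.MPd439b2

private theorem short_mk {V : Type} {D : SimpleGraph V} {M r : ℕ} {z : ℕ → ℕ → Finset V}
    {E : ℕ → ℕ → Prop} (h : HGC D M r z E) (r' : ℕ) (ρ : ℕ → ℕ) (hr : r' < r)
    (hρ : ∀ i ≤ r', ρ i ≤ r) (hodd : r' % 2 = 1)
    (hev : ∀ t < r', t % 2 = 0 → E (ρ t) (ρ (t + 1)) ∧ ¬ E (ρ (t + 1)) (ρ t))
    (hod : ∀ t < r', t % 2 = 1 → E (ρ (t + 1)) (ρ t) ∧ ¬ E (ρ t) (ρ (t + 1)))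
    (hclo : E (ρ 0) (ρ r') ∧ E (ρ r') (ρ 0)) : ∃ r' < r, ∃ z' E', HGC D M r' z' E' :=
  ⟨r', hr, fun i => z (ρ i), fun i j => E (ρ i) (ρ j), h.pat.comp ρ hρ le_rfl, hodd, hev, hod, hclo⟩

theorem short : S_Short := by
  intro V D M r z E h i hi j hj hi0 hj1 hij1 hij2 hne hE
  have hodd := h.odd
  have hir : i < r := by
    rcases hi.lt_or_eq with h | h
    · exact h
    · subst h; omega
  by_cases hji : E j i
  · rcases lt_trichotomy i j with hlt | heq | hlt
    · refine short_mk h (j - i) (fun t => i + t) ?_ ?_ ?_ ?_ ?_ ?_
      · rcases hne with h | h <;> omega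
      · intro t ht; omega
      · omega
      · intro t ht ht0
        exact h.ev (i + t) (by omega) (by omega)
      · intro t ht ht1
        exact h.od (i + t) (by omega) (by omega)
      · skip
        rw [show i + (j - i) = j by omega, add_zero]
        exact ⟨hE, hji⟩
    · subst heq; omega
    · refine short_mk h (i - j) (fun t => i - t) ?_ ?_ ?_ ?_ ?_ ?_
      · omega
      · intro t ht; omega
      · omega
      · intro t ht ht0
        have e1 : i - t = (i - t - 1) + 1 := by omega
        have e2 : i - (t + 1) = i - t - 1 := by omega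
        rw [e2]
        have := h.od (i - t - 1) (by omega) (by omega)
        rw [← e1] at this
        exact this
      · intro t ht ht1
        have e1 : i - t = (i - t - 1) + 1 := by omega
        have e2 : i - (t + 1) = i - t - 1 := by omega
        rw [e2]
        have := h.ev (i - t - 1) (by omega) (by omega)
        rw [← e1] at this
        exact this
      · skip
        rw [show i - (i - j) = j by omega, Nat.sub_zero]
        exact ⟨hE, hji⟩
  · rcases lt_trichotomy i j with hlt | heq | hlt
    · refine short_mk h (r - (j - i - 1)) (fun t => if t ≤ i then t else t + (j - i - 1)) ?_ ?_ ?_ ?_ ?_ ?_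
      · omega
      · intro t ht
        split_ifs <;> omega
      · omega
      · intro t ht ht0
        rcases lt_trichotomy t i with h1 | h1 | h1
        · rw [if_pos h1.le, if_pos (by omega : t + 1 ≤ i)]
          exact h.ev t (by omega) ht0
        · rw [if_pos h1.le, if_neg (by omega : ¬ t + 1 ≤ i)]
          have e1 : t + 1 + (j - i - 1) = j := by omega
          rw [e1, h1]
          exact ⟨hE, hji⟩
        · rw [if_neg (by omega : ¬ t ≤ i), if_neg (by omega : ¬ t + 1 ≤ i)]
          have e1 : t + 1 + (j - i - 1) = t + (j - i - 1) + 1 := by omega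
          rw [e1]
          exact h.ev (t + (j - i - 1)) (by omega) (by omega)
      · intro t ht ht1
        rcases lt_trichotomy t i with h1 | h1 | h1
        · rw [if_pos h1.le, if_pos (by omega : t + 1 ≤ i)]
          exact h.od t (by omega) ht1
        · omega
        · rw [if_neg (by omega : ¬ t ≤ i), if_neg (by omega : ¬ t + 1 ≤ i)]
          have e1 : t + 1 + (j - i - 1) = t + (j - i - 1) + 1 := by omega
          rw [e1]
          exact h.od (t + (j - i - 1)) (by omega) (by omega)
      · skip
        rw [if_pos (Nat.zero_le i), if_neg (by omega : ¬ r - (j - i - 1) ≤ i)]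
        have e1 : r - (j - i - 1) + (j - i - 1) = r := by omega
        rw [e1]
        exact h.clo
    · subst heq; omega
    · refine short_mk h (r - (i - j - 1)) (fun t => if t ≤ j then t else t + (i - j - 1)) ?_ ?_ ?_ ?_ ?_ ?_
      · omega
      · intro t ht
        split_ifs <;> omega
      · omega
      · intro t ht ht0
        rcases lt_trichotomy t j with h1 | h1 | h1
        · rw [if_pos h1.le, if_pos (by omega : t + 1 ≤ j)]
          exact h.ev t (by omega) ht0
        · omega
        · rw [if_neg (by omega : ¬ t ≤ j), if_neg (by omega : ¬ t + 1 ≤ j)]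
          have e1 : t + 1 + (i - j - 1) = t + (i - j - 1) + 1 := by omega
          rw [e1]
          exact h.ev (t + (i - j - 1)) (by omega) (by omega)
      · intro t ht ht1
        rcases lt_trichotomy t j with h1 | h1 | h1
        · rw [if_pos h1.le, if_pos (by omega : t + 1 ≤ j)]
          exact h.od t (by omega) ht1
        · rw [if_pos h1.le, if_neg (by omega : ¬ t + 1 ≤ j)]
          have e1 : t + 1 + (i - j - 1) = i := by omega
          rw [e1, h1]
          exact ⟨hE, hji⟩
        · rw [if_neg (by omega : ¬ t ≤ j), if_neg (by omega : ¬ t + 1 ≤ j)]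
          have e1 : t + 1 + (i - j - 1) = t + (i - j - 1) + 1 := by omega
          rw [e1]
          exact h.od (t + (i - j - 1)) (by omega) (by omega)
      · skip
        rw [if_pos (Nat.zero_le j), if_neg (by omega : ¬ r - (i - j - 1) ≤ j)]
        have e1 : r - (i - j - 1) + (i - j - 1) = r := by omega
        rw [e1]
        exact h.clo

end Pool.Agent.MPd439b2.W
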