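import Pool.Agent.Lib.MP_d439b2_co.W.SpecE

/-!
# MP_d439b2_co, W, E6: the sunflower lemma for groups with several roles (helper86)
-/

set_option autoImplicit false

namespace Pool.Agent.MPd439b2.W

open Pool.Agent.MPd439b2

namespace SunAux

theorem enum (I : Finset ℕ) (n : ℕ) (h : n ≤ I.card) :
    ∃ σ : ℕ → ℕ, (∀ k l, k < l → l < n → σ k < σ l) ∧ ∀ k < n, σ k ∈ I := by
  let σ : ℕ → ℕ := fun k => if hk : k < I.card then I.orderEmbOfFin rfl ⟨k, hk⟩ else 0
  have hσ : ∀ k (hk : k < I.card), σ k = I.orderEmbOfFin rfl ⟨k, hk⟩ := fun k hk => dif_pos hk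
  refine ⟨σ, ?_, ?_⟩
  · intro k l hkl hl
    have h2 : l < I.card := lt_of_lt_of_le hl h
    have h1 : k < I.card := hkl.trans h2
    rw [hσ k h1, hσ l h2]
    exact (I.orderEmbOfFin rfl).strictMono (Fin.mk_lt_mk.2 hkl)
  · intro k hk
    rw [hσ k (lt_of_lt_of_le hk h)]
    exact Finset.orderEmbOfFin_mem I rfl _

/-- the conclusion -/
def Goal (e m N : ℕ) {V : Type} [DecidableEq V] (T : ℕ → ℕ → Finset V) : Prop :=
  ∃ (s : ℕ → ℕ) (K : ℕ → Finset V), (∀ k l, k < l → l < m → s k < s l) ∧ (∀ k < m, s k < N) ∧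
    (∀ i < e, ∀ k < m, K i ⊆ T i (s k)) ∧
    ∀ i < e, ∀ j < e, ∀ k < m, ∀ l < m, k ≠ l → Disjoint (T i (s k) \ K i) (T j (s l) \ K j)

/-- many indices with a common element in the role `i₀` -/
theorem reduce (e m S N N' : ℕ) {V : Type} [DecidableEq V] (T : ℕ → ℕ → Finset V)
    (hT : ∀ k < N, ∑ i ∈ Finset.range e, (T i k).card ≤ S + 1)
    (ih : ∀ T' : ℕ → ℕ → Finset V, (∀ k < N', ∑ i ∈ Finset.range e, (T' i k).card ≤ S) →
      Goal e m N' T')
    (I : Finset ℕ) (hI : ∀ k ∈ I, k < N) (hIc : N' ≤ I.card) (i₀ : ℕ) (hi₀ : i₀ < e) (x : V)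
    (hx : ∀ k ∈ I, x ∈ T i₀ k) : Goal e m N T := by
  obtain ⟨σ, hσ1, hσ2⟩ := enum I N' hIc
  let T' : ℕ → ℕ → Finset V := fun i k => if i = i₀ then (T i (σ k)).erase x else T i (σ k)
  have hT'0 : ∀ k, T' i₀ k = (T i₀ (σ k)).erase x := fun k => if_pos rfl
  have hT'1 : ∀ i, i ≠ i₀ → ∀ k, T' i k = T i (σ k) := fun i hi k => if_neg hi
  obtain ⟨s', K', h1, h2, h3, h4⟩ := ih T' (by
    intro k hk
    have h1 := hT (σ k) (hI _ (hσ2 k hk))
    have h2 : ∑ i ∈ Finset.range e, (T' i k).card < ∑ i ∈ Finset.range e, (T i (σ k)).card := by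
      apply Finset.sum_lt_sum
      · intro i _
        by_cases hi : i = i₀
        · subst hi
          rw [hT'0]
          exact Finset.card_le_card (Finset.erase_subset _ _)
        · rw [hT'1 i hi]
      · refine ⟨i₀, Finset.mem_range.2 hi₀, ?_⟩
        rw [hT'0]
        exact Finset.card_erase_lt_of_mem (hx _ (hσ2 k hk))
    omega)
  let K : ℕ → Finset V := fun i => if i = i₀ then insert x (K' i) else K' i
  have hK0 : K i₀ = insert x (K' i₀) := if_pos rfl
  have hK1 : ∀ i, i ≠ i₀ → K i = K' i := fun i hi => if_neg hi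
  have hsd : ∀ i, ∀ k, T i (σ (s' k)) \ K i = T' i (s' k) \ K' i := by
    intro i k
    by_cases hi : i = i₀
    · subst hi
      rw [hK0, hT'0]
      ext y
      simp only [Finset.mem_sdiff, Finset.mem_insert, Finset.mem_erase]
      tauto
    · rw [hK1 i hi, hT'1 i hi]
  refine ⟨fun k => σ (s' k), K, ?_, ?_, ?_, ?_⟩
  · intro k l hkl hl
    exact hσ1 _ _ (h1 k l hkl hl) (h2 l hl)
  · intro k hk
    exact hI _ (hσ2 _ (h2 k hk))
  · intro i hi k hk
    by_cases hi' : i = i₀
    · subst hi'
      rw [hK0]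
      intro y hy
      rcases Finset.mem_insert.1 hy with hy | hy
      · rw [hy]
        exact hx _ (hσ2 _ (h2 k hk))
      · have := h3 i hi k hk hy
        rw [hT'0] at this
        exact (Finset.mem_erase.1 this).2
    · rw [hK1 i hi']
      have := h3 i hi k hk
      rwa [hT'1 i hi'] at this
  · intro i hi j hj k hk l hl hkl
    have := h4 i hi j hj k hk l hl hkl
    rw [← hsd, ← hsd] at this
    exact this

theorem main (e S : ℕ) : ∀ m : ℕ, ∃ N : ℕ, ∀ (V : Type) [DecidableEq V] (T : ℕ → ℕ → Finset V),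
    (∀ k < N, ∑ i ∈ Finset.range e, (T i k).card ≤ S) → Goal e m N T := by
  induction S with
  | zero =>
    intro m
    refine ⟨m, fun V _ T hT => ⟨id, fun _ => ∅, fun k l hkl _ => hkl, fun k hk => hk,
      fun i _ k _ => Finset.empty_subset _, ?_⟩⟩
    intro i hi j _ k hk l _ _
    have h1 := Nat.le_zero.1 (hT k hk)
    rw [Finset.sum_eq_zero_iff] at h1
    have h2 := Finset.card_eq_zero.1 (h1 i (Finset.mem_range.2 hi))
    rw [id, h2, Finset.empty_sdiff]
    exact Finset.disjoint_empty_left _
  | succ S ih =>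
    intro m
    obtain ⟨N', hN'⟩ := ih m
    refine ⟨m + e * (m * (S + 1)) * N' + 1, fun V _ T hT => ?_⟩
    set N := m + e * (m * (S + 1)) * N' + 1 with hN
    let U : ℕ → Finset V := fun k => (Finset.range e).biUnion (fun i => T i k)
    have hU : ∀ k < N, (U k).card ≤ S + 1 := fun k hk => Finset.card_biUnion_le.trans (hT k hk)
    have hTU : ∀ i < e, ∀ k, T i k ⊆ U k := fun i hi k =>
      Finset.subset_biUnion_of_mem (fun i => T i k) (Finset.mem_range.2 hi)
    classical
    obtain ⟨J, hJ, hJmax⟩ := Finset.exists_max_image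
      ((Finset.range N).powerset.filter
        (fun J : Finset ℕ => ∀ k ∈ J, ∀ l ∈ J, k ≠ l → Disjoint (U k) (U l)))
      Finset.card ⟨∅, Finset.mem_filter.2 ⟨Finset.empty_mem_powerset _, by simp⟩⟩
    rw [Finset.mem_filter, Finset.mem_powerset] at hJ
    by_cases hm : m ≤ J.card
    · obtain ⟨s, hs1, hs2⟩ := enum J m hm
      refine ⟨s, fun _ => ∅, hs1, fun k hk => Finset.mem_range.1 (hJ.1 (hs2 k hk)),
        fun i _ k _ => Finset.empty_subset _, ?_⟩
      intro i hi j hj k hk l hl hkl
      rw [Finset.sdiff_empty, Finset.sdiff_empty]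
      have hne : s k ≠ s l := by
        rcases lt_or_gt_of_ne hkl with h | h
        · exact (hs1 k l h hl).ne
        · exact (hs1 l k h hk).ne'
      exact Finset.disjoint_of_subset_left (hTU i hi _)
        (Finset.disjoint_of_subset_right (hTU j hj _)
          (hJ.2 _ (hs2 k hk) _ (hs2 l hl) hne))
    · push Not at hm
      let W := J.biUnion U
      have hW : W.card ≤ m * (S + 1) := by
        refine Finset.card_biUnion_le.trans ((Finset.sum_le_card_nsmul J _ (S + 1)
          (fun k hk => hU k (Finset.mem_range.1 (hJ.1 hk)))).trans ?_)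
        rw [smul_eq_mul]
        exact Nat.mul_le_mul_right _ hm.le
      -- every other index meets `W`
      have hmeet : ∀ k ∈ Finset.range N \ J, ∃ q : ℕ × V, q ∈ Finset.range e ×ˢ W ∧
          q.2 ∈ T q.1 k := by
        intro k hk
        rw [Finset.mem_sdiff] at hk
        by_contra hno
        push Not at hno
        have h1 : ∀ l ∈ J, Disjoint (U k) (U l) := by
          intro l hl
          rw [Finset.disjoint_left]
          intro x hx hx'
          obtain ⟨i, hi, hxi⟩ := Finset.mem_biUnion.1 hx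
          exact hno (i, x) (Finset.mem_product.2 ⟨hi, Finset.mem_biUnion.2 ⟨l, hl, hx'⟩⟩) hxi
        have h2 := hJmax (insert k J) (Finset.mem_filter.2 ⟨Finset.mem_powerset.2
          (Finset.insert_subset hk.1 hJ.1), by
            intro a ha b hb hab
            rcases Finset.mem_insert.1 ha with ha' | ha'
            · rcases Finset.mem_insert.1 hb with hb' | hb'
              · exact absurd (ha'.trans hb'.symm) hab
              · rw [ha']
                exact h1 b hb'
            · rcases Finset.mem_insert.1 hb with hb' | hb'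
              · rw [hb']
                exact (h1 a ha').symm
              · exact hJ.2 a ha' b hb' hab⟩)
        rw [Finset.card_insert_of_notMem hk.2] at h2
        omega
      have hcard : (Finset.range e ×ˢ W).card * N' < (Finset.range N \ J).card := by
        have e1 : (Finset.range e ×ˢ W).card ≤ e * (m * (S + 1)) := by
          rw [Finset.card_product, Finset.card_range]
          exact Nat.mul_le_mul_left e hW
        have e2 : (Finset.range e ×ˢ W).card * N' ≤ e * (m * (S + 1)) * N' :=
          Nat.mul_le_mul_right N' e1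
        have e3 : (Finset.range N \ J).card = N - J.card := by
          rw [Finset.card_sdiff_of_subset hJ.1, Finset.card_range]
        rw [e3]
        omega
      obtain ⟨k₀, hk₀⟩ := Finset.card_pos.1 (lt_of_le_of_lt (Nat.zero_le _) hcard)
      obtain ⟨q₀, -, -⟩ := hmeet k₀ hk₀
      have hVne : Nonempty V := ⟨q₀.2⟩
      choose! φ hφ1 hφ2 using hmeet
      obtain ⟨q, hq, hqc⟩ := Finset.exists_lt_card_fiber_of_mul_lt_card_of_maps_to hφ1 hcard
      rw [Finset.mem_product, Finset.mem_range] at hq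
      refine reduce e m S N N' T hT (fun T' hT' => hN' V T' hT')
        ((Finset.range N \ J).filter (fun k => φ k = q)) ?_ hqc.le q.1 hq.1 q.2 ?_
      · intro k hk
        exact Finset.mem_range.1 (Finset.mem_sdiff.1 (Finset.mem_filter.1 hk).1).1
      · intro k hk
        have h1 := Finset.mem_filter.1 hk
        have h2 := hφ2 k h1.1
        rwa [h1.2] at h2

end SunAux

theorem sun : S_Sun := by
  intro e t m
  obtain ⟨N, hN⟩ := SunAux.main e (e * t) m
  refine ⟨N, fun V _ T hT => hN V T fun k hk => ?_⟩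
  refine (Finset.sum_le_card_nsmul (Finset.range e) _ t
    (fun i hi => hT i (Finset.mem_range.1 hi) k hk)).trans ?_
  rw [Finset.card_range, smul_eq_mul]

end Pool.Agent.MPd439b2.W
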