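import Pool.Agent.Lib.MP_d439b2_co.W.SpecD

/-! A symmetric partition into chains. -/

set_option autoImplicit false

namespace Pool.Agent.MPd439b2.W

open Pool.Agent.MPd439b2

private theorem symC_invol {V : Type} (D : SimpleGraph V) (x : Cl D) : sg D (sg D x) = x :=
  Subtype.ext x.2.1

private theorem symC_anti {V : Type} (D : SimpleGraph V) {x y : Cl D} (h : x ≤ y) : sg D y ≤ sg D x := by
  change (sg D y).1 ⊆ (sg D x).1
  exact cn_anti h

private theorem symC_n1 {V : Type} (D : SimpleGraph V) (x : Cl D) : ¬ x ≤ sg D x := by
  intro h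
  obtain ⟨v, hv⟩ := x.2.2.1
  have h2 : v ∈ cn D x.1 := h hv
  exact D.loopless.irrefl v (h2 v hv)

private theorem symC_n2 {V : Type} (D : SimpleGraph V) (x : Cl D) : ¬ sg D x ≤ x := by
  intro h
  obtain ⟨v, hv⟩ := x.2.2.2
  have h2 : v ∈ x.1 := h hv
  exact D.loopless.irrefl v (hv v h2)

theorem symC (h : S_Dil) : S_SymC := by
  intro w V _ D hw
  obtain ⟨c, hc⟩ := h w (Cl D) hw
  have hne : ∀ x, (c x).val ≠ (c (sg D x)).val := by
    intro x hx
    rcases hc x (sg D x) (Fin.ext hx) with h1 | h1
    · exact symC_n1 D x h1
    · exact symC_n2 D x h1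
  have hcmp : ∀ x y, c (sg D x) = c (sg D y) → x ≤ y ∨ y ≤ x := by
    intro x y hxy
    rcases hc _ _ hxy with h1 | h1
    · right
      have := symC_anti D h1
      rwa [symC_invol, symC_invol] at this
    · left
      have := symC_anti D h1
      rwa [symC_invol, symC_invol] at this
  let C : Cl D → ℕ := fun x => if (c x).val < (c (sg D x)).val then 2 * (c x).val else 2 * (c (sg D x)).val + 1
  have hlt : ∀ x, C x < 2 * w := by
    intro x
    have h1 := (c x).isLt
    have h2 := (c (sg D x)).isLt
    change (if (c x).val < (c (sg D x)).val then 2 * (c x).val else 2 * (c (sg D x)).val + 1) < 2 * w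
    split_ifs <;> omega
  have hev : ∀ x, (c x).val < (c (sg D x)).val → C x = 2 * (c x).val ∧ C (sg D x) = 2 * (c x).val + 1 := by
    intro x hx
    constructor
    · exact if_pos hx
    · change (if (c (sg D x)).val < (c (sg D (sg D x))).val then 2 * (c (sg D x)).val
        else 2 * (c (sg D (sg D x))).val + 1) = _
      rw [symC_invol, if_neg (by omega)]
  have hod : ∀ x, ¬ (c x).val < (c (sg D x)).val →
      C x = 2 * (c (sg D x)).val + 1 ∧ C (sg D x) = 2 * (c (sg D x)).val := by
    intro x hx
    have hx' := hne x
    constructor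
    · exact if_neg hx
    · change (if (c (sg D x)).val < (c (sg D (sg D x))).val then 2 * (c (sg D x)).val
        else 2 * (c (sg D (sg D x))).val + 1) = _
      rw [symC_invol, if_pos (by omega)]
  refine ⟨fun x => ⟨C x, hlt x⟩, ?_, ?_⟩
  · intro x y hxy
    have hxy' : C x = C y := congrArg Fin.val hxy
    by_cases hx : (c x).val < (c (sg D x)).val <;> by_cases hy : (c y).val < (c (sg D y)).val
    · have h1 := (hev x hx).1
      have h2 := (hev y hy).1
      exact hc x y (Fin.ext (by omega))
    · have h1 := (hev x hx).1
      have h2 := (hod y hy).1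
      omega
    · have h1 := (hod x hx).1
      have h2 := (hev y hy).1
      omega
    · have h1 := (hod x hx).1
      have h2 := (hod y hy).1
      exact hcmp x y (Fin.ext (by omega))
  · intro x y hxy
    have hxy' : C x = C y := congrArg Fin.val hxy
    apply Fin.ext
    change C (sg D x) = C (sg D y)
    by_cases hx : (c x).val < (c (sg D x)).val <;> by_cases hy : (c y).val < (c (sg D y)).val
    · have h1 := hev x hx
      have h2 := hev y hy
      omega
    · have h1 := (hev x hx).1
      have h2 := (hod y hy).1
      omega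
    · have h1 := (hod x hx).1
      have h2 := (hev y hy).1
      omega
    · have h1 := hod x hx
      have h2 := hod y hy
      omega

end Pool.Agent.MPd439b2.W
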