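import Pool.Agent.Lib.MP_d439b2_co.W.SpecD

set_option autoImplicit false

namespace Pool.Agent.MPd439b2.W

namespace SymG

variable {V : Type} {D : SimpleGraph V} {n : ℕ}

theorem sg_sg (x : Cl D) : sg D (sg D x) = x := Subtype.ext x.2.1

theorem sg_anti {x y : Cl D} (h : x ≤ y) : sg D y ≤ sg D x := cn_anti (D := D) h

theorem sg_le {x y : Cl D} : sg D y ≤ sg D x ↔ x ≤ y := by
  constructor
  · intro h
    have := sg_anti h
    rwa [sg_sg, sg_sg] at this
  · exact sg_anti

theorem sg_lt {x y : Cl D} : sg D y < sg D x ↔ x < y := by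
  rw [lt_iff_le_not_ge, lt_iff_le_not_ge, sg_le, sg_le]

theorem cons_dual [Fintype (Cl D)] {c : Cl D → Fin n} (hch : ChainP c)
    (hc : ∀ x y, c x = c y → c (sg D x) = c (sg D y)) {x y : Cl D}
    (h : Cons c Finset.univ x y) : Cons c Finset.univ (sg D y) (sg D x) := by
  obtain ⟨_, _, h1, h2, h3⟩ := h
  refine ⟨Finset.mem_univ _, Finset.mem_univ _, hc _ _ h1.symm, sg_lt.2 h2, ?_⟩
  intro z _ hz hlt
  have hz1 : c (sg D z) = c x := by
    have := hc _ _ hz
    rw [sg_sg] at this
    rw [this, h1]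
  have hz2 : sg D z < y := by
    rw [← sg_lt, sg_sg]
    exact hlt
  have hle : sg D z ≤ x := by
    rcases hch (sg D z) x hz1 with h4 | h4
    · exact h4
    · rcases eq_or_lt_of_le h4 with h5 | h5
      · exact le_of_eq h5.symm
      · exact absurd (h3 _ (Finset.mem_univ _) hz1 h5) (not_le_of_gt hz2)
  have := sg_anti hle
  rwa [sg_sg] at this

theorem ess_dual {c : Cl D → Fin n}
    (hc : ∀ x y, c x = c y → c (sg D x) = c (sg D y)) {x y : Cl D}
    (h : Ess c x y) : Ess c (sg D y) (sg D x) := by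
  obtain ⟨h1, h2, h3, h4⟩ := h
  refine ⟨?_, sg_anti h2, ?_, ?_⟩
  · intro h5
    have := hc _ _ h5
    rw [sg_sg, sg_sg] at this
    exact h1 this.symm
  · intro z hz hle
    have hz1 : c (sg D z) = c y := by
      have := hc _ _ hz
      rwa [sg_sg] at this
    have hz2 : x ≤ sg D z := by
      have := sg_anti hle
      rwa [sg_sg] at this
    have := sg_anti (h4 _ hz1 hz2)
    rwa [sg_sg] at this
  · intro z hz hle
    have hz1 : c (sg D z) = c x := by
      have := hc _ _ hz
      rwa [sg_sg] at this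
    have hz2 : sg D z ≤ y := by
      have := sg_anti hle
      rwa [sg_sg] at this
    have := sg_anti (h3 _ hz1 hz2)
    rwa [sg_sg] at this

theorem adj_dual [Fintype (Cl D)] {c : Cl D → Fin n} (hch : ChainP c)
    (hc : ∀ x y, c x = c y → c (sg D x) = c (sg D y)) {x y : Cl D}
    (h : (Gam c Finset.univ).Adj x y) : (Gam c Finset.univ).Adj (sg D x) (sg D y) := by
  rcases h with h | h | ⟨_, _, h | h⟩
  · exact Or.inr (Or.inl (cons_dual hch hc h))
  · exact Or.inl (cons_dual hch hc h)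
  · exact Or.inr (Or.inr ⟨Finset.mem_univ _, Finset.mem_univ _, Or.inr (ess_dual hc h)⟩)
  · exact Or.inr (Or.inr ⟨Finset.mem_univ _, Finset.mem_univ _, Or.inl (ess_dual hc h)⟩)

theorem main (n : ℕ) (V : Type) (D : SimpleGraph V) [Fintype (Cl D)] (c : Cl D → Fin n)
    (hch : ChainP c) (hc : ∀ x y, c x = c y → c (sg D x) = c (sg D y)) :
    (∀ x : Cl D, sg D (sg D x) = x) ∧
    ∀ x y, (Gam c Finset.univ).Adj (sg D x) (sg D y) ↔ (Gam c Finset.univ).Adj x y := by
  refine ⟨sg_sg, fun x y => ⟨fun h => ?_, adj_dual hch hc⟩⟩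
  have := adj_dual hch hc h
  rwa [sg_sg, sg_sg] at this

end SymG

theorem symG : S_SymG := fun n V D _ c hch hc => SymG.main n V D c hch hc

end Pool.Agent.MPd439b2.W
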