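import Pool.Agent.Lib.MP_d439b2_co.W.SpecD

/-!
# MP_d439b2_co, W: few traces (D3)
-/

set_option autoImplicit false

namespace Pool.Agent.MPd439b2.W

open Pool.Agent.MPd439b2

namespace Trace

variable {α : Type} [PartialOrder α] {n : ℕ}

private theorem exists_least {c : α → Fin n} (hch : ChainP c) (d : Fin n) (S : Finset α)
    (hS : S.Nonempty) (hc : ∀ z ∈ S, c z = d) : ∃ m ∈ S, ∀ z ∈ S, m ≤ z := by
  obtain ⟨m, hm⟩ := S.exists_minimal hS
  refine ⟨m, hm.prop, fun z hz => ?_⟩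
  rcases hch m z ((hc m hm.prop).trans (hc z hz).symm) with h | h
  · exact h
  · exact hm.le_of_le hz h

private theorem exists_greatest {c : α → Fin n} (hch : ChainP c) (d : Fin n) (S : Finset α)
    (hS : S.Nonempty) (hc : ∀ z ∈ S, c z = d) : ∃ m ∈ S, ∀ z ∈ S, z ≤ m := by
  obtain ⟨m, hm⟩ := S.exists_maximal hS
  refine ⟨m, hm.prop, fun z hz => ?_⟩
  rcases hch z m ((hc z hz).trans (hc m hm.prop).symm) with h | h
  · exact h
  · exact hm.le_of_ge hz h

/-- the predecessor of the first element outside `Y` -/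
private theorem exists_pred [Fintype α] {c : α → Fin n} (hch : ChainP c) {Y : Finset α} {a w : α}
    (ha : a ∈ Y) (hw : w ∉ Y) (hc : c a = c w) (haw : a ≤ w)
    (hmin : ∀ z, z ∉ Y → c z = c w → a ≤ z → w ≤ z) :
    ∃ u ∈ Y, c u = c w ∧ a ≤ u ∧ u < w ∧ (Gam c Finset.univ).Adj u w := by
  classical
  have hlt : a < w := lt_of_le_of_ne haw (fun he => hw (he ▸ ha))
  obtain ⟨u, hu, hmax⟩ := exists_greatest hch (c w)
    (Finset.univ.filter (fun z => c z = c w ∧ z < w))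
    ⟨a, Finset.mem_filter.mpr ⟨Finset.mem_univ _, hc, hlt⟩⟩
    (fun z hz => (Finset.mem_filter.mp hz).2.1)
  have hu2 := (Finset.mem_filter.mp hu).2
  have hau : a ≤ u := hmax a (Finset.mem_filter.mpr ⟨Finset.mem_univ _, hc, hlt⟩)
  refine ⟨u, ?_, hu2.1, hau, hu2.2, Or.inl ⟨Finset.mem_univ _, Finset.mem_univ _, hu2.1, hu2.2,
    fun z _ hz huz => ?_⟩⟩
  · by_contra huY
    exact lt_irrefl _ (hu2.2.trans_le (hmin u huY hu2.1 hau))
  · rcases hch w z (hz.trans hu2.1).symm with h | h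
    · exact h
    · rcases h.lt_or_eq with h' | h'
      · exfalso
        have := hmax z (Finset.mem_filter.mpr ⟨Finset.mem_univ _, hz.trans hu2.1, h'⟩)
        exact lt_irrefl _ (huz.trans_le this)
      · exact h'.ge

/-- `b` is the least element of the chain `d` above `a` with `P` -/
private def Lst (c : α → Fin n) (P : α → Prop) (a : α) (d : Fin n) (b : α) : Prop :=
  P b ∧ c b = d ∧ a ≤ b ∧ ∀ z, P z → c z = d → a ≤ z → b ≤ z

private def Rel (c : α → Fin n) (Y : Finset α) (a : α) (d : Fin n) (u u' : α) : Prop :=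
  (c u = d ∧ Lst c (fun z => z ∉ Y) a d u') ∨
  (c a ≠ d ∧ c u = c a ∧ a ≤ u ∧ ∃ q, Lst c (fun _ => True) a d q ∧
    (u' = q ∨ (c u' = c a ∧ u < u' ∧ u' ≤ q)))

private theorem exists_lst [Fintype α] {c : α → Fin n} (hch : ChainP c) (P : α → Prop) {a b : α}
    {d : Fin n} (hb : P b) (hc : c b = d) (hab : a ≤ b) : ∃ b', Lst c P a d b' := by
  classical
  obtain ⟨u, hu, hmin⟩ := exists_least hch d
    (Finset.univ.filter (fun z => P z ∧ c z = d ∧ a ≤ z))
    ⟨b, Finset.mem_filter.mpr ⟨Finset.mem_univ _, hb, hc, hab⟩⟩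
    (fun z hz => (Finset.mem_filter.mp hz).2.2.1)
  have hu2 := (Finset.mem_filter.mp hu).2
  exact ⟨u, hu2.1, hu2.2.1, hu2.2.2, fun z h1 h2 h3 =>
    hmin z (Finset.mem_filter.mpr ⟨Finset.mem_univ _, h1, h2, h3⟩)⟩

private theorem Lst.le_iff {c : α → Fin n} {P : α → Prop} {a b : α} {d : Fin n}
    (h : Lst c P a d b) {z : α} (hz : P z) (hc : c z = d) : a ≤ z ↔ b ≤ z :=
  ⟨fun h' => h.2.2.2 z hz hc h', fun h' => h.2.2.1.trans h'⟩

private theorem exists_rel [Fintype α] {c : α → Fin n} (hch : ChainP c) {Y : Finset α} {a b : α}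
    {d : Fin n} (ha : a ∈ Y) (hb : b ∉ Y) (hc : c b = d) (hab : a ≤ b) :
    ∃ u u', u ∈ Y ∧ u' ∉ Y ∧ (Gam c Finset.univ).Adj u u' ∧ Rel c Y a d u u' := by
  classical
  obtain ⟨b', hb'⟩ := exists_lst hch (fun z => z ∉ Y) hb hc hab
  -- case B
  have caseB : ∀ q ∈ Y, c q = d → a ≤ q → q ≤ b' →
      ∃ u u', u ∈ Y ∧ u' ∉ Y ∧ (Gam c Finset.univ).Adj u u' ∧ Rel c Y a d u u' := by
    intro q hq hcq haq hqb
    obtain ⟨u, huY, hcu, _, _, hadj⟩ := exists_pred hch hq hb'.1 (hcq.trans hb'.2.1.symm) hqb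
      (fun z hz hcz hqz => hb'.2.2.2 z hz (hcz.trans hb'.2.1) (haq.trans hqz))
    exact ⟨u, b', huY, hb'.1, hadj, Or.inl ⟨hcu.trans hb'.2.1, hb'⟩⟩
  by_cases hcad : c a = d
  · exact caseB a ha hcad le_rfl hb'.2.2.1
  obtain ⟨q, hq⟩ := exists_lst hch (fun _ => True) trivial hb'.2.1 hb'.2.2.1
  have hqb : q ≤ b' := hq.2.2.2 b' trivial hb'.2.1 hb'.2.2.1
  by_cases hqY : q ∈ Y
  · exact caseB q hqY hq.2.1 hq.2.2.1 hqb
  -- the largest element of the chain of `a` below `q`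
  obtain ⟨p, hp, hmax⟩ := exists_greatest hch (c a)
    (Finset.univ.filter (fun z => c z = c a ∧ z ≤ q))
    ⟨a, Finset.mem_filter.mpr ⟨Finset.mem_univ _, rfl, hq.2.2.1⟩⟩
    (fun z hz => (Finset.mem_filter.mp hz).2.1)
  have hp2 := (Finset.mem_filter.mp hp).2
  have hap : a ≤ p := hmax a (Finset.mem_filter.mpr ⟨Finset.mem_univ _, rfl, hq.2.2.1⟩)
  have hcpd : c p ≠ d := fun h => hcad (hp2.1.symm.trans h)
  by_cases hpY : p ∈ Y
  · refine ⟨p, q, hpY, hqY, Or.inr (Or.inr ⟨Finset.mem_univ _, Finset.mem_univ _, Or.inl ?_⟩),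
      Or.inr ⟨hcad, hp2.1, hap, q, hq, Or.inl rfl⟩⟩
    refine ⟨fun h => hcpd (h.trans hq.2.1), hp2.2, fun z hz hzq => ?_, fun z hz hpz => ?_⟩
    · exact hmax z (Finset.mem_filter.mpr ⟨Finset.mem_univ _, hz.trans hp2.1, hzq⟩)
    · exact hq.2.2.2 z trivial (hz.trans hq.2.1) (hap.trans hpz)
  · obtain ⟨w, hw⟩ := exists_lst hch (fun z => z ∉ Y) hpY hp2.1 hap
    obtain ⟨u, huY, hcu, hau, huw, hadj⟩ := exists_pred hch ha hw.1 hw.2.1.symm hw.2.2.1
      (fun z hz hcz haz => hw.2.2.2 z hz (hcz.trans hw.2.1) haz)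
    refine ⟨u, w, huY, hw.1, hadj, Or.inr ⟨hcad, hcu.trans hw.2.1, hau, q, hq,
      Or.inr ⟨hw.2.1, huw, ?_⟩⟩⟩
    exact (hw.2.2.2 p hpY hp2.1 hap).trans hp2.2

private theorem rel_det {c : α → Fin n} {Y : Finset α} {a a' u u' : α} {d : Fin n}
    (hc : c a = c a') (h : Rel c Y a d u u') (h' : Rel c Y a' d u u') {z : α} (hz : z ∉ Y)
    (hcz : c z = d) : a ≤ z ↔ a' ≤ z := by
  rcases h with ⟨h1, h2⟩ | ⟨h1, h2, h3, q, hq, h4⟩
  · rcases h' with ⟨h1', h2'⟩ | ⟨h1', h2', h3', q', hq', h4'⟩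
    · rw [h2.le_iff hz hcz, h2'.le_iff hz hcz]
    · exact absurd (h2'.symm.trans h1) h1'
  · rcases h' with ⟨h1', h2'⟩ | ⟨h1', h2', h3', q', hq', h4'⟩
    · exact absurd (h2.symm.trans h1') h1
    · have hqq : q = q' := by
        rcases h4 with h4 | h4 <;> rcases h4' with h4' | h4'
        · exact h4.symm.trans h4'
        · exfalso
          apply h1
          rw [hc, ← h4'.1, h4]
          exact hq.2.1
        · exfalso
          apply h1
          rw [← h4.1, h4']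
          exact hq'.2.1
        · refine le_antisymm ?_ ?_
          · exact hq.2.2.2 q' trivial hq'.2.1 (h3.trans (h4'.2.1.le.trans h4'.2.2))
          · exact hq'.2.2.2 q trivial hq.2.1 (h3'.trans (h4.2.1.le.trans h4.2.2))
      subst hqq
      rw [hq.le_iff trivial hcz, hq'.le_iff trivial hcz]

end Trace

open Trace

theorem trace : S_Trace := by
  classical
  intro n α _ _ _ c Y e hch he
  let P : Finset (α × α) := (Y ×ˢ Yᶜ).filter (fun p => (Gam c Finset.univ).Adj p.1 p.2)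
  have hP : P.card ≤ e := by
    refine le_trans (le_of_eq ?_) he
    rw [Finset.card_filter, Finset.sum_product]
    rfl
  -- the pair
  have hex : ∀ a : α, ∀ d : Fin n, ∃ o : Option (α × α), a ∈ Y →
      (o = none ∧ ∀ b, b ∉ Y → c b = d → ¬ a ≤ b) ∨
      ∃ x ∈ P, o = some x ∧ Rel c Y a d x.1 x.2 := by
    intro a d
    by_cases ha : a ∈ Y
    · by_cases hb : ∃ b, b ∉ Y ∧ c b = d ∧ a ≤ b
      · obtain ⟨b, hb1, hb2, hb3⟩ := hb
        obtain ⟨u, u', h1, h2, h3, h4⟩ := exists_rel hch ha hb1 hb2 hb3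
        refine ⟨some (u, u'), fun _ => Or.inr ⟨(u, u'), ?_, rfl, h4⟩⟩
        exact Finset.mem_filter.mpr
          ⟨Finset.mem_product.mpr ⟨h1, Finset.mem_compl.mpr h2⟩, h3⟩
      · exact ⟨none, fun _ => Or.inl ⟨rfl, fun b h1 h2 h3 => hb ⟨b, h1, h2, h3⟩⟩⟩
    · exact ⟨none, fun h => absurd h ha⟩
  choose g hg using hex
  let Φ : α → Fin n × (Fin n → Option (α × α)) := fun a => (c a, g a)
  let tr : α → Set α := fun a => {b | b ∉ Y ∧ a ≤ b}
  have htr : ∀ a ∈ Y, ∀ a' ∈ Y, Φ a = Φ a' → tr a = tr a' := by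
    intro a ha a' ha' hΦ
    have hc : c a = c a' := congrArg Prod.fst hΦ
    have hgg : g a = g a' := congrArg Prod.snd hΦ
    have key : ∀ z, z ∉ Y → (a ≤ z ↔ a' ≤ z) := by
      intro z hz
      have hgz : g a (c z) = g a' (c z) := congrFun hgg (c z)
      rcases hg a (c z) ha with ⟨h1, h2⟩ | ⟨x, hx, h1, h2⟩
      · rcases hg a' (c z) ha' with ⟨h1', h2'⟩ | ⟨x', hx', h1', h2'⟩
        · exact ⟨fun h => absurd h (h2 z hz rfl), fun h => absurd h (h2' z hz rfl)⟩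
        · rw [h1, h1'] at hgz
          exact absurd hgz (by simp)
      · rcases hg a' (c z) ha' with ⟨h1', h2'⟩ | ⟨x', hx', h1', h2'⟩
        · rw [h1, h1'] at hgz
          exact absurd hgz (by simp)
        · rw [h1, h1'] at hgz
          have hxx : x = x' := Option.some.inj hgz
          subst hxx
          exact rel_det hc h2 h2' hz rfl
    ext z
    exact ⟨fun h => ⟨h.1, (key z h.1).mp h.2⟩, fun h => ⟨h.1, (key z h.1).mpr h.2⟩⟩
  let S : Finset (Fin n × (Fin n → Option (α × α))) :=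
    Finset.univ ×ˢ Fintype.piFinset (fun _ => Finset.insertNone P)
  have hS : S.card = n * (P.card + 1) ^ n := by
    simp [S]
  let ψ : Fin n × (Fin n → Option (α × α)) → Set α := fun x =>
    if h : ∃ a ∈ Y, Φ a = x then tr (Classical.choose h) else ∅
  have hψ : ∀ a ∈ Y, ψ (Φ a) = tr a := by
    intro a ha
    have h : ∃ a' ∈ Y, Φ a' = Φ a := ⟨a, ha, rfl⟩
    simp only [ψ, dif_pos h]
    exact htr _ (Classical.choose_spec h).1 a ha (Classical.choose_spec h).2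
  have hsub : {T : Set α | ∃ a ∈ Y, T = {b | b ∉ Y ∧ a ≤ b}} ⊆ ψ '' (S : Set _) := by
    rintro T ⟨a, ha, rfl⟩
    refine ⟨Φ a, ?_, hψ a ha⟩
    rw [Finset.mem_coe, Finset.mem_product]
    refine ⟨Finset.mem_univ _, ?_⟩
    rw [Fintype.mem_piFinset]
    intro d
    rcases hg a d ha with ⟨h1, _⟩ | ⟨x, hx, h1, _⟩
    · show g a d ∈ _
      rw [h1]
      exact Finset.none_mem_insertNone
    · show g a d ∈ _
      rw [h1]
      exact Finset.some_mem_insertNone.mpr hx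
  have h1 := Set.ncard_le_ncard hsub ((Finset.finite_toSet S).image ψ)
  have h2 := Set.ncard_image_le (f := ψ) (Finset.finite_toSet S)
  rw [Set.ncard_coe_finset, hS] at h2
  exact (h1.trans h2).trans (Nat.mul_le_mul_left n (Nat.pow_le_pow_left (by omega) n))

end Pool.Agent.MPd439b2.W
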