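import Pool.Agent.Lib.MP_d439b2_co.W.SpecA

set_option autoImplicit false

namespace Pool.Agent.MPd439b2.W

open Pool.Agent.MPd439b2

section

variable {α : Type} [PartialOrder α] {n : ℕ}

private theorem trk_cmp {c : α → Fin n} (hc : ChainP c) {R R' : Finset α} {x y : α}
    (hcc : c x = c y) (hx : x ∈ R) (hy : y ∈ R') (hd : Disjoint R R') : x < y ∨ y < x := by
  have hne : x ≠ y := by
    rintro rfl
    exact Finset.disjoint_left.1 hd hx hy
  rcases hc x y hcc with h | h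
  · exact Or.inl (lt_of_le_of_ne h hne)
  · exact Or.inr (lt_of_le_of_ne h hne.symm)

private theorem trk_half {c : α → Fin n} {U R R' : Finset α} {A A' B' : α} (hA : A ∈ R)
    (hAU : A ∈ U) (h' : Run c U R' A' B') (hcc : c A = c A') (hd : Disjoint R R')
    (h1 : A < A' ∨ A' < A) (h2 : A < B' ∨ B' < A) :
    (A < A' ∧ A < B') ∨ (A' < A ∧ B' < A) := by
  obtain ⟨_, _, _, _, _, k6⟩ := h'
  have hno : ¬ (A' ≤ A ∧ A ≤ B' ∨ B' ≤ A ∧ A ≤ A') := fun hh =>
    Finset.disjoint_left.1 hd hA (k6 A hAU hcc hh)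
  rcases h1 with h1 | h1 <;> rcases h2 with h2 | h2
  · exact Or.inl ⟨h1, h2⟩
  · exact absurd (Or.inr ⟨h2.le, h1.le⟩) hno
  · exact absurd (Or.inl ⟨h1.le, h2.le⟩) hno
  · exact Or.inr ⟨h1, h2⟩

private theorem trk_sep {c : α → Fin n} (hc : ChainP c) {U R R' : Finset α} {A B A' B' : α}
    (h : Run c U R A B) (h' : Run c U R' A' B') (hcc : c A = c A') (hd : Disjoint R R') :
    (A < A' ∧ A < B' ∧ B < A' ∧ B < B') ∨ (A' < A ∧ A' < B ∧ B' < A ∧ B' < B) := by
  have hk := h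
  have hk' := h'
  obtain ⟨h1, h2, h3, h4, h5, h6⟩ := h
  obtain ⟨k1, k2, k3, k4, k5, k6⟩ := h'
  have eA := trk_half h2 h1 hk' hcc hd (trk_cmp hc hcc h2 k2 hd)
    (trk_cmp hc (hcc.trans k5) h2 k4 hd)
  have eB := trk_half h4 h3 hk' (h5.symm.trans hcc) hd (trk_cmp hc (h5.symm.trans hcc) h4 k2 hd)
    (trk_cmp hc (h5.symm.trans (hcc.trans k5)) h4 k4 hd)
  have hno : ¬ (A ≤ A' ∧ A' ≤ B ∨ B ≤ A' ∧ A' ≤ A) := fun hh =>
    Finset.disjoint_left.1 hd (h6 A' k1 hcc.symm hh) k2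
  rcases eA with eA | eA <;> rcases eB with eB | eB
  · exact Or.inl ⟨eA.1, eA.2, eB.1, eB.2⟩
  · exact absurd (Or.inl ⟨eA.1.le, eB.1.le⟩) hno
  · exact absurd (Or.inr ⟨eB.1.le, eA.1.le⟩) hno
  · exact Or.inr ⟨eA.1, eB.1, eA.2, eB.2⟩

/-- the extended itinerary -/
private def ext (a b : ℕ → α) (s : ℕ → ℕ) (A : ℕ → ℕ → α) (k j : ℕ) : α :=
  if j = 0 then a k else if j ≤ s k then A k (j - 1) else b k

private theorem ext_zero (a b : ℕ → α) (s : ℕ → ℕ) (A : ℕ → ℕ → α) (k : ℕ) :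
    ext a b s A k 0 = a k := if_pos rfl

private theorem ext_mid (a b : ℕ → α) (s : ℕ → ℕ) (A : ℕ → ℕ → α) (k j : ℕ) (h : j < s k) :
    ext a b s A k (j + 1) = A k j := by
  unfold ext
  rw [if_neg (Nat.succ_ne_zero j), if_pos (by omega)]
  rfl

private theorem ext_last (a b : ℕ → α) (s : ℕ → ℕ) (A : ℕ → ℕ → α) (k j : ℕ) (h : s k < j) :
    ext a b s A k j = b k := by
  unfold ext
  rw [if_neg (by omega), if_neg (by omega)]

end

theorem trackOf : S_TrackOf := by
  classical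
  intro n h m
  refine ⟨Fintype.card (Fin (n + h + 1) × (Fin (n + h + 2) → Fin n) × (Fin (n + h + 2) → Bool)) *
    (2 * m), ?_⟩
  intro α _ _ _ c U i a b R s A B hc hab hdis hit
  rcases Nat.eq_zero_or_pos m with hm | hm
  · subst hm
    refine ⟨0, fun _ => 0, fun _ _ => a 0, fun _ _ => a 0, fun _ => i, fun _ => True, by omega,
      fun k hk => absurd hk (by omega), ?_⟩
    exact ⟨fun k hk => absurd hk (by omega), fun k hk => absurd hk (by omega),
      fun k hk => absurd hk (by omega), fun k hk => absurd hk (by omega),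
      fun k hk => absurd hk (by omega)⟩
  -- the types
  let A2 := ext a b s A
  let B2 := ext a b s B
  let ty : ℕ → Fin (n + h + 1) × (Fin (n + h + 2) → Fin n) × (Fin (n + h + 2) → Bool) := fun k =>
    (⟨min (s k) (n + h), by omega⟩, fun j => c (A2 k j), fun j => decide (Ess c (B2 k j) (A2 k (j + 1))))
  set M := Fintype.card (Fin (n + h + 1) × (Fin (n + h + 2) → Fin n) × (Fin (n + h + 2) → Bool)) *
    (2 * m) with hM
  obtain ⟨τ, _, hτ⟩ := Finset.exists_le_card_fiber_of_mul_le_card_of_maps_to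
    (s := Finset.range M) (t := Finset.univ) (f := ty) (n := 2 * m) (fun _ _ => Finset.mem_univ _)
    ⟨(⟨0, by omega⟩, fun _ => i, fun _ => true), Finset.mem_univ _⟩
    (by rw [Finset.card_range, Finset.card_univ])
  obtain ⟨Φ, hΦs, hΦc⟩ := Finset.exists_subset_card_eq hτ
  let e := Φ.equivFinOfCardEq hΦc
  let κ : ℕ → ℕ := fun k => if hk : k < 2 * m then (e.symm ⟨k, hk⟩).1 else 0
  have hκΦ : ∀ k, k < 2 * m → κ k ∈ Φ := by
    intro k hk
    show (if hk : k < 2 * m then (e.symm ⟨k, hk⟩).1 else 0) ∈ Φ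
    rw [dif_pos hk]
    exact (e.symm ⟨k, hk⟩).2
  have hκinj : ∀ k, k < 2 * m → ∀ l, l < 2 * m → k ≠ l → κ k ≠ κ l := by
    intro k hk l hl hkl he
    apply hkl
    have he' : (if hk : k < 2 * m then (e.symm ⟨k, hk⟩).1 else 0) =
      (if hk : l < 2 * m then (e.symm ⟨l, hk⟩).1 else 0) := he
    rw [dif_pos hk, dif_pos hl] at he'
    have h2 := e.symm.injective (Subtype.ext he')
    exact congrArg Fin.val h2
  have hκM : ∀ k, k < 2 * m → κ k < M := by
    intro k hk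
    have := hΦs (hκΦ k hk)
    exact Finset.mem_range.1 (Finset.mem_filter.1 this).1
  have hκt : ∀ k, k < 2 * m → ty (κ k) = τ := by
    intro k hk
    have := hΦs (hκΦ k hk)
    exact (Finset.mem_filter.1 this).2
  have h0 : 0 < 2 * m := by omega
  have hty : ∀ k, k < 2 * m → ty (κ k) = ty (κ 0) := fun k hk =>
    (hκt k hk).trans (hκt 0 h0).symm
  have hs : ∀ k, k < 2 * m → s (κ k) = s (κ 0) := by
    intro k hk
    have h1 := congrArg (fun z => (z.1 : Fin (n + h + 1)).val) (hty k hk)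
    have h2 : min (s (κ k)) (n + h) = min (s (κ 0)) (n + h) := h1
    have h3 := (hit (κ k) (hκM k hk)).2.1
    have h4 := (hit (κ 0) (hκM 0 h0)).2.1
    omega
  have hcA : ∀ k, k < 2 * m → ∀ j ≤ s (κ 0) + 1, c (A2 (κ k) j) = c (A2 (κ 0) j) := by
    intro k hk j hj
    have h4 := (hit (κ 0) (hκM 0 h0)).2.1
    have h1 := congrFun (congrArg (fun z => z.2.1) (hty k hk)) (⟨j, by omega⟩ : Fin (n + h + 2))
    exact h1
  have hcB : ∀ k, k < 2 * m → ∀ j ≤ s (κ 0) + 1, c (B2 (κ k) j) = c (A2 (κ k) j) := by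
    intro k hk j hj
    rcases Nat.eq_zero_or_pos j with hj0 | hj0
    · subst hj0
      show c (ext a b s B (κ k) 0) = c (ext a b s A (κ k) 0)
      rw [ext_zero, ext_zero]
    · obtain ⟨j', rfl⟩ : ∃ j', j = j' + 1 := ⟨j - 1, by omega⟩
      by_cases hj2 : j' < s (κ k)
      · show c (ext a b s B (κ k) (j' + 1)) = c (ext a b s A (κ k) (j' + 1))
        rw [ext_mid _ _ _ _ _ _ hj2, ext_mid _ _ _ _ _ _ hj2]
        exact ((hit (κ k) (hκM k hk)).2.2.2.2.1 j' hj2).2.2.2.2.1.symm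
      · show c (ext a b s B (κ k) (j' + 1)) = c (ext a b s A (κ k) (j' + 1))
        rw [ext_last _ _ _ _ _ _ (by omega), ext_last _ _ _ _ _ _ (by omega)]
  have hstep : ∀ k, k < 2 * m → ∀ j < s (κ 0) + 1, Ess c (B2 (κ k) j) (A2 (κ k) (j + 1)) ∨
      Ess c (A2 (κ k) (j + 1)) (B2 (κ k) j) := by
    intro k hk j hj
    obtain ⟨g1, g2, g3, g4, g5, g6⟩ := hit (κ k) (hκM k hk)
    have hsk := hs k hk
    rcases Nat.eq_zero_or_pos j with hj0 | hj0
    · subst hj0
      show Ess c (ext a b s B (κ k) 0) (ext a b s A (κ k) (0 + 1)) ∨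
        Ess c (ext a b s A (κ k) (0 + 1)) (ext a b s B (κ k) 0)
      rw [ext_zero, ext_mid _ _ _ _ _ _ (by omega)]
      exact g3
    · obtain ⟨j', rfl⟩ : ∃ j', j = j' + 1 := ⟨j - 1, by omega⟩
      show Ess c (ext a b s B (κ k) (j' + 1)) (ext a b s A (κ k) (j' + 1 + 1)) ∨
        Ess c (ext a b s A (κ k) (j' + 1 + 1)) (ext a b s B (κ k) (j' + 1))
      by_cases hj2 : j' + 1 < s (κ k)
      · rw [ext_mid _ _ _ _ _ _ (by omega), ext_mid _ _ _ _ _ _ hj2]
        exact g6 j' hj2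
      · rw [ext_mid _ _ _ _ _ _ (by omega), ext_last _ _ _ _ _ _ (by omega)]
        have : j' = s (κ k) - 1 := by omega
        rw [this]
        exact g4
  have hdir : ∀ k, k < 2 * m → ∀ j < s (κ 0) + 1, (Ess c (B2 (κ k) j) (A2 (κ k) (j + 1)) ↔
      Ess c (B2 (κ 0) j) (A2 (κ 0) (j + 1))) := by
    intro k hk j hj
    have h4 := (hit (κ 0) (hκM 0 h0)).2.1
    have h1 := congrFun (congrArg (fun z => z.2.2) (hty k hk)) (⟨j, by omega⟩ : Fin (n + h + 2))
    have h2 : decide (Ess c (B2 (κ k) j) (A2 (κ k) (j + 1))) =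
      decide (Ess c (B2 (κ 0) j) (A2 (κ 0) (j + 1))) := h1
    exact decide_eq_decide.1 h2
  refine ⟨s (κ 0) + 1, κ, fun k j => A2 (κ k) j, fun k j => B2 (κ k) j, fun j => c (A2 (κ 0) j),
    fun j => Ess c (B2 (κ 0) j) (A2 (κ 0) (j + 1)), ?_, ?_, ?_⟩
  · have h4 := (hit (κ 0) (hκM 0 h0)).2.1
    omega
  · intro k hk
    refine ⟨hκM k hk, ext_zero _ _ _ _ _, ?_⟩
    exact ext_last _ _ _ _ _ _ (by rw [hs k hk]; omega)
  · refine ⟨fun k hk j hj => hcA k hk j hj, fun k hk j hj => (hcB k hk j hj).trans (hcA k hk j hj),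
      ?_, fun k hk j hj hd => (hdir k hk j hj).2 hd, fun k hk j hj hd =>
        (hstep k hk j hj).resolve_left (fun h' => hd ((hdir k hk j hj).1 h'))⟩
    intro k hk k' hk' hkk j hj
    have hκne := hκinj k hk k' hk' hkk
    obtain ⟨d1, d2, d3⟩ := hdis (κ k) (hκM k hk) (κ k') (hκM k' hk') hκne
    obtain ⟨ca, cb⟩ := hab (κ k) (hκM k hk)
    obtain ⟨ca', cb'⟩ := hab (κ k') (hκM k' hk')
    have hsk := hs k hk
    have hsk' := hs k' hk'
    rcases Nat.eq_zero_or_pos j with hj0 | hj0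
    · subst hj0
      show (ext a b s A (κ k) 0 < ext a b s A (κ k') 0 ∧ ext a b s A (κ k) 0 < ext a b s B (κ k') 0 ∧
        ext a b s B (κ k) 0 < ext a b s A (κ k') 0 ∧ ext a b s B (κ k) 0 < ext a b s B (κ k') 0) ∨
        (ext a b s A (κ k') 0 < ext a b s A (κ k) 0 ∧ ext a b s A (κ k') 0 < ext a b s B (κ k) 0 ∧
        ext a b s B (κ k') 0 < ext a b s A (κ k) 0 ∧ ext a b s B (κ k') 0 < ext a b s B (κ k) 0)
      simp only [ext_zero]
      rcases hc (a (κ k)) (a (κ k')) (ca.trans ca'.symm) with h' | h'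
      · have := lt_of_le_of_ne h' d1
        exact Or.inl ⟨this, this, this, this⟩
      · have := lt_of_le_of_ne h' d1.symm
        exact Or.inr ⟨this, this, this, this⟩
    · obtain ⟨j', rfl⟩ : ∃ j', j = j' + 1 := ⟨j - 1, by omega⟩
      show (ext a b s A (κ k) (j' + 1) < ext a b s A (κ k') (j' + 1) ∧
        ext a b s A (κ k) (j' + 1) < ext a b s B (κ k') (j' + 1) ∧
        ext a b s B (κ k) (j' + 1) < ext a b s A (κ k') (j' + 1) ∧
        ext a b s B (κ k) (j' + 1) < ext a b s B (κ k') (j' + 1)) ∨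
        (ext a b s A (κ k') (j' + 1) < ext a b s A (κ k) (j' + 1) ∧
        ext a b s A (κ k') (j' + 1) < ext a b s B (κ k) (j' + 1) ∧
        ext a b s B (κ k') (j' + 1) < ext a b s A (κ k) (j' + 1) ∧
        ext a b s B (κ k') (j' + 1) < ext a b s B (κ k) (j' + 1))
      by_cases hj2 : j' < s (κ 0)
      · have e1 := hcA k hk (j' + 1) hj
        have e2 := hcA k' hk' (j' + 1) hj
        have e3 : c (ext a b s A (κ k) (j' + 1)) = c (ext a b s A (κ k') (j' + 1)) :=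
          e1.trans e2.symm
        rw [ext_mid _ _ _ A (κ k) j' (by omega), ext_mid _ _ _ A (κ k') j' (by omega)] at e3
        rw [ext_mid _ _ _ A (κ k) j' (by omega), ext_mid _ _ _ A (κ k') j' (by omega),
          ext_mid _ _ _ B (κ k) j' (by omega), ext_mid _ _ _ B (κ k') j' (by omega)]
        exact trk_sep hc ((hit (κ k) (hκM k hk)).2.2.2.2.1 j' (by omega))
          ((hit (κ k') (hκM k' hk')).2.2.2.2.1 j' (by omega)) e3 d3
      · rw [ext_last _ _ _ A (κ k) _ (by omega), ext_last _ _ _ A (κ k') _ (by omega),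
          ext_last _ _ _ B (κ k) _ (by omega), ext_last _ _ _ B (κ k') _ (by omega)]
        rcases hc (b (κ k)) (b (κ k')) (cb.trans cb'.symm) with h' | h'
        · have := lt_of_le_of_ne h' d2
          exact Or.inl ⟨this, this, this, this⟩
        · have := lt_of_le_of_ne h' d2.symm
          exact Or.inr ⟨this, this, this, this⟩

end Pool.Agent.MPd439b2.W
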