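import Pool.Agent.Lib.MP_d439b2_co.W.SpecP

set_option autoImplicit false

namespace Pool.Agent.MPd439b2.W

theorem tri : S_Tri := by
  intro V D M r z E hT hP hM i hi j hj k hk h
  obtain ⟨a, ha⟩ := hP.ne i hi 0 (by omega)
  obtain ⟨b, hb⟩ := hP.ne j hj 1 (by omega)
  obtain ⟨c, hc⟩ := hP.ne k hk 2 (by omega)
  have h1 := (hP.rel i hi j hj 0 1 (by omega) (by omega)).2 h.1 a ha b hb
  have h2 := (hP.rel j hj k hk 1 2 (by omega) (by omega)).2 h.2.1 b hb c hc
  have h3 := (hP.rel i hi k hk 0 2 (by omega) (by omega)).2 h.2.2 a ha c hc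
  exact hT a b c h1 h3 h2

end Pool.Agent.MPd439b2.W
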