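import Pool.Agent.Lib.MP_d439b2_co.W.SpecE

/-!
# MP_d439b2_co, W: the width of `Cl D` (E11)
-/

set_option autoImplicit false

namespace Pool.Agent.MPd439b2.W

open Pool.Agent.MPd439b2

namespace Wid

variable {V : Type} {D : SimpleGraph V}

private theorem edge_iff {A B : Finset V} (h : Disjoint A B) :
    (∃ x ∈ (A : Set V), ∃ y ∈ (B : Set V), Dᶜ.Adj x y) ↔ ¬ Cmp D A B := by
  constructor
  · rintro ⟨x, hx, y, hy, hxy⟩ hc
    rw [SimpleGraph.compl_adj] at hxy
    exact hxy.2 (hc x hx y hy)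
  · intro hc
    by_contra hne
    apply hc
    intro a ha b hb
    by_contra hab
    apply hne
    refine ⟨a, ha, b, hb, ?_⟩
    rw [SimpleGraph.compl_adj]
    refine ⟨fun he => ?_, hab⟩
    exact Finset.disjoint_left.mp h ha (he ▸ hb)

private theorem clique_conn {A : Set V} (hne : A.Nonempty)
    (h : ∀ u ∈ A, ∀ v ∈ A, u ≠ v → Dᶜ.Adj u v) : Conn Dᶜ A := by
  refine ⟨hne, fun B hB hBne hBA => ?_⟩
  obtain ⟨b, hb⟩ := hBne
  have : ∃ a ∈ A, a ∉ B := by
    by_contra hcon
    push Not at hcon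
    exact hBA (Set.Subset.antisymm hB hcon)
  obtain ⟨a, ha, haB⟩ := this
  exact ⟨b, hb, a, ⟨ha, haB⟩, h b (hB hb) a ha (fun he => haB (he ▸ hb))⟩

private theorem comp_conn (htri : TriFree D) {A B : Finset V} (hA : A.Nonempty) (hB : B.Nonempty)
    (h : Cmp D A B) : Conn Dᶜ (A : Set V) ∧ Conn Dᶜ (B : Set V) := by
  obtain ⟨a, ha⟩ := hA
  obtain ⟨b, hb⟩ := hB
  constructor
  · refine clique_conn ⟨a, ha⟩ fun u hu v hv huv => ?_
    rw [SimpleGraph.compl_adj]
    exact ⟨huv, htri b u v (h u hu b hb).symm (h v hv b hb).symm⟩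
  · refine clique_conn ⟨b, hb⟩ fun u hu v hv huv => ?_
    rw [SimpleGraph.compl_adj]
    exact ⟨huv, htri a u v (h a ha u hu) (h a ha v hv)⟩

/-- the model from the groups -/
private theorem model (htri : TriFree D) {k s : ℕ} {G : ℕ → Bool → Finset V}
    (h1 : ∀ i < k + 2 * s, ∀ b, (G i b).Nonempty)
    (h2 : ∀ i < k + 2 * s, ∀ j < k + 2 * s, ∀ b b', (i ≠ j ∨ b ≠ b') → Disjoint (G i b) (G j b'))
    (h3 : ∀ i < k + 2 * s, Cmp D (G i true) (G i false))
    (h4 : ∀ i < k + 2 * s, ∀ j < k + 2 * s, ∀ b b', i ≠ j → ¬ Cmp D (G i b) (G j b')) :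
    IsIndMinor (KCo s (nP2 k)) Dᶜ := by
  classical
  let U : ℕ → Set V := fun q => ((G (k + 2 * q) true : Set V) ∪ (G (k + 2 * q + 1) true : Set V)) ∪
    ((G (k + 2 * q) false : Set V) ∪ (G (k + 2 * q + 1) false : Set V))
  let B : Fin s ⊕ (Fin k × Bool) → Set V := fun w => match w with
    | Sum.inl q => U q.val
    | Sum.inr x => (G x.1.val x.2 : Set V)
  -- elements of `U q`
  have hU : ∀ q v, v ∈ U q ↔ ∃ i b, (i = k + 2 * q ∨ i = k + 2 * q + 1) ∧ v ∈ G i b := by
    intro q v
    constructor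
    · rintro ((h | h) | (h | h))
      · exact ⟨_, _, Or.inl rfl, h⟩
      · exact ⟨_, _, Or.inr rfl, h⟩
      · exact ⟨_, _, Or.inl rfl, h⟩
      · exact ⟨_, _, Or.inr rfl, h⟩
    · rintro ⟨i, b, hi, hv⟩
      rcases hi with rfl | rfl <;> cases b
      · exact Or.inr (Or.inl hv)
      · exact Or.inl (Or.inl hv)
      · exact Or.inr (Or.inr hv)
      · exact Or.inl (Or.inr hv)
  have hdis0 : ∀ i < k + 2 * s, ∀ j < k + 2 * s, ∀ b b', (i ≠ j ∨ b ≠ b') → ∀ v, v ∈ G i b →
      v ∉ G j b' := fun i hi j hj b b' hne v hv hv' =>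
    Finset.disjoint_left.mp (h2 i hi j hj b b' hne) hv hv'
  have hconnG : ∀ i < k + 2 * s, ∀ b, Conn Dᶜ (G i b : Set V) := by
    intro i hi b
    have := comp_conn htri (h1 i hi true) (h1 i hi false) (h3 i hi)
    cases b
    · exact this.2
    · exact this.1
  have htch : ∀ i < k + 2 * s, ∀ j < k + 2 * s, ∀ b b', i ≠ j →
      Tch Dᶜ (G i b : Set V) (G j b' : Set V) := by
    intro i hi j hj b b' hij
    exact (edge_iff (h2 i hi j hj b b' (Or.inl hij))).mpr (h4 i hi j hj b b' hij)
  have hconnU : ∀ q < s, Conn Dᶜ (U q) := by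
    intro q hq
    have hi : k + 2 * q < k + 2 * s := by omega
    have hj : k + 2 * q + 1 < k + 2 * s := by omega
    have e1 : Conn Dᶜ ((G (k + 2 * q) true : Set V) ∪ (G (k + 2 * q + 1) true : Set V)) :=
      (hconnG _ hi true).union (hconnG _ hj true) (Or.inr (htch _ hi _ hj true true (by omega)))
    have e2 : Conn Dᶜ ((G (k + 2 * q) false : Set V) ∪ (G (k + 2 * q + 1) false : Set V)) :=
      (hconnG _ hi false).union (hconnG _ hj false) (Or.inr (htch _ hi _ hj false false (by omega)))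
    refine e1.union e2 (Or.inr ?_)
    exact (htch _ hi _ hj true false (by omega)).mono Set.subset_union_left Set.subset_union_right
  have hUdis : ∀ q < s, ∀ q' < s, q ≠ q' → Disjoint (U q) (U q') := by
    intro q hq q' hq' hne
    rw [Set.disjoint_left]
    intro v hv hv'
    obtain ⟨i, b, hi, hvi⟩ := (hU q v).mp hv
    obtain ⟨j, b', hj, hvj⟩ := (hU q' v).mp hv'
    exact hdis0 i (by omega) j (by omega) b b' (Or.inl (by omega)) v hvi hvj
  have hUG : ∀ q < s, ∀ i < k, ∀ b, Disjoint (U q) (G i b : Set V) := by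
    intro q hq i hi b
    rw [Set.disjoint_left]
    intro v hv hv'
    obtain ⟨j, b', hj, hvj⟩ := (hU q v).mp hv
    exact hdis0 j (by omega) i (by omega) b' b (Or.inl (by omega)) v hvj hv'
  have hUtch : ∀ q < s, ∀ C : Set V, C.Nonempty → Disjoint (U q) C →
      ∃ x ∈ U q, ∃ y ∈ C, Dᶜ.Adj x y := by
    intro q hq C hC hdis
    obtain ⟨z, hz⟩ := hC
    obtain ⟨u, hu⟩ := h1 (k + 2 * q) (by omega) true
    obtain ⟨v, hv⟩ := h1 (k + 2 * q) (by omega) false
    have huv : D.Adj u v := h3 _ (by omega) u hu v hv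
    have huU : u ∈ U q := (hU q u).mpr ⟨_, _, Or.inl rfl, hu⟩
    have hvU : v ∈ U q := (hU q v).mpr ⟨_, _, Or.inl rfl, hv⟩
    have hzu : u ≠ z := fun he => Set.disjoint_left.mp hdis huU (he ▸ hz)
    have hzv : v ≠ z := fun he => Set.disjoint_left.mp hdis hvU (he ▸ hz)
    by_cases hadj : D.Adj u z
    · refine ⟨v, hvU, z, hz, ?_⟩
      rw [SimpleGraph.compl_adj]
      exact ⟨hzv, htri u v z huv hadj⟩
    · refine ⟨u, huU, z, hz, ?_⟩
      rw [SimpleGraph.compl_adj]
      exact ⟨hzu, hadj⟩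
  refine ⟨B, ?_, ?_, ?_⟩
  · rintro (q | ⟨i, b⟩)
    · exact (conn_iff _ _).mp (hconnU q.val q.isLt)
    · exact (conn_iff _ _).mp (hconnG i.val (by omega) b)
  · rintro (q | ⟨i, b⟩) (q' | ⟨j, b'⟩) hne
    · exact hUdis q.val q.isLt q'.val q'.isLt (fun he => hne (by rw [Fin.ext he]))
    · exact hUG q.val q.isLt j.val j.isLt b'
    · exact (hUG q'.val q'.isLt i.val i.isLt b).symm
    · have hne' : i.val ≠ j.val ∨ b ≠ b' := by
        by_contra hcon
        push Not at hcon
        exact hne (by rw [Fin.ext hcon.1, hcon.2])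
      have := h2 i.val (by omega) j.val (by omega) b b' hne'
      exact Finset.disjoint_coe.mpr this
  · rintro (q | ⟨i, b⟩) (q' | ⟨j, b'⟩) hne
    · have hqq : q ≠ q' := fun he => hne (by rw [he])
      refine ⟨fun _ => ?_, fun _ => hqq⟩
      exact hUtch q.val q.isLt _ (hconnU q'.val q'.isLt).1
        (hUdis q.val q.isLt q'.val q'.isLt (fun he => hqq (Fin.ext he)))
    · refine ⟨fun _ => ?_, fun _ => trivial⟩
      exact hUtch q.val q.isLt _ (hconnG j.val (by omega) b').1 (hUG q.val q.isLt j.val j.isLt b')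
    · refine ⟨fun _ => ?_, fun _ => trivial⟩
      obtain ⟨x, hx, y, hy, hxy⟩ := hUtch q'.val q'.isLt _ (hconnG i.val (by omega) b).1
        (hUG q'.val q'.isLt i.val i.isLt b)
      exact ⟨y, hy, x, hx, hxy.symm⟩
    · by_cases hij : i = j
      · subst hij
        have hbb : b ≠ b' := fun he => hne (by rw [he])
        constructor
        · rintro ⟨_, h⟩
          exact absurd ⟨rfl, hbb⟩ h
        · rintro ⟨x, hx, y, hy, hxy⟩
          exfalso
          rw [SimpleGraph.compl_adj] at hxy
          apply hxy.2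
          have h3' := h3 i.val (by omega)
          cases b <;> cases b'
          · exact absurd rfl hbb
          · exact (h3' y hy x hx).symm
          · exact h3' x hx y hy
          · exact absurd rfl hbb
      · have hij' : i.val ≠ j.val := fun he => hij (Fin.ext he)
        constructor
        · intro _
          exact htch i.val (by omega) j.val (by omega) b b' hij'
        · intro _
          exact ⟨fun he => hij (congrArg Prod.fst he), fun h => hij h.1⟩

/-- no large co-matching -/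
private theorem noCoM (h4 : S_CoM) (k s : ℕ) : ∃ m : ℕ, ∀ (V : Type) (D : SimpleGraph V),
    TriFree D → ¬ IsIndMinor (KCo s (nP2 k)) Dᶜ → ¬ CoM D m := by
  obtain ⟨m, hm⟩ := h4 (2 * k) s
  refine ⟨m, fun V D htri hno hco => hno ?_⟩
  let e : Fin k × Bool ≃ Fin (2 * k) := Fintype.equivFinOfCardEq (by simp [mul_comm])
  let F : SimpleGraph (Fin (2 * k)) := (nP2 k).comap e.symm
  obtain ⟨B, hB1, hB2, hB3⟩ := hm V D F (fun i => (e.symm i).2) (fun i j hij => hij.2) htri hco
  refine ⟨fun w => B (Sum.map id e w), fun w => hB1 _, fun w w' hne => hB2 _ _ ?_,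
    fun w w' hne => ?_⟩
  · intro he
    apply hne
    exact (Function.Injective.sumMap Function.injective_id e.injective) he
  · have hne' : Sum.map id e w ≠ Sum.map id e w' := fun he =>
      hne ((Function.Injective.sumMap Function.injective_id e.injective) he)
    rw [← hB3 _ _ hne']
    rcases w with q | x <;> rcases w' with q' | y
    · exact Iff.rfl
    · exact Iff.rfl
    · exact Iff.rfl
    · show (x ≠ y ∧ ¬ (nP2 k).Adj x y) ↔ (e x ≠ e y ∧ ¬ (nP2 k).Adj (e.symm (e x)) (e.symm (e y)))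
      rw [e.symm_apply_apply, e.symm_apply_apply]
      simp

end Wid

open Wid

theorem wid (h1 : S_Gen) (h2 : S_Sun) (h3 : S_RamC) (h4 : S_CoM) : S_Wid := by
  classical
  intro k s
  obtain ⟨m₀, hm₀⟩ := noCoM h4 k s
  obtain ⟨m₂, hm₂⟩ := h3 (Prop × Prop) (k + 2 * s + 3)
  obtain ⟨w, hw⟩ := h2 2 m₀ (m₂ + 2)
  refine ⟨w, fun V _ D htri hno A hA => ?_⟩
  by_contra hcard
  push Not at hcard
  have hCoM : ¬ CoM D m₀ := hm₀ V D htri hno
  have hgen := h1 V D m₀ hCoM
  choose GX hGXc hGX using fun x => (hgen x).1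
  choose GY hGYc hGY using fun x => (hgen x).2
  -- an enumeration of the antichain
  have hAne : A.Nonempty := by
    rw [← Finset.card_pos]; omega
  obtain ⟨d0, hd0⟩ := hAne
  let x : ℕ → Cl D := fun i => if h : i < A.card then (A.equivFin.symm ⟨i, h⟩).1 else d0
  have hxA : ∀ i, x i ∈ A := by
    intro i
    simp only [x]
    split_ifs with h
    · exact (A.equivFin.symm ⟨i, h⟩).2
    · exact hd0
  have hxinj : ∀ i < w, ∀ j < w, x i ≤ x j → i = j := by
    intro i hi j hj hle
    have := hA (x i) (hxA i) (x j) (hxA j) hle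
    simp only [x] at this
    rw [dif_pos (by omega), dif_pos (by omega)] at this
    have h5 := A.equivFin.symm.injective (Subtype.ext this)
    exact congrArg Fin.val h5
  have hcmp : ∀ u v : Cl D, Cmp D (GX u) (GY v) ↔ u ≤ v := by
    intro u v
    constructor
    · intro hc
      have h5 : (GX u : Set V) ⊆ v.1 := by
        intro a ha
        rw [← hGY v]
        intro b hb
        exact (hc a ha b hb).symm
      have h6 : cn D v.1 ⊆ cn D (GX u : Set V) := cn_anti h5
      rw [hGX u] at h6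
      have h7 := cn_anti (D := D) h6
      rw [u.2.1, v.2.1] at h7
      exact h7
    · intro hle a ha b hb
      have h5 : a ∈ u.1 := by
        have := sub_cn_cn D (GX u : Set V) ha
        rw [hGX u, u.2.1] at this
        exact this
      have h6 : a ∈ v.1 := hle h5
      rw [← hGY v] at h6
      exact (h6 b hb).symm
  let T : ℕ → ℕ → Finset V := fun r i => if r = 0 then GX (x i) else GY (x i)
  have hT0 : ∀ i, T 0 i = GX (x i) := fun i => by simp [T]
  have hT1 : ∀ i, T 1 i = GY (x i) := fun i => by simp [T]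
  obtain ⟨σ, K, hσ1, hσ2, hK, hdis⟩ := hw V T (by
    intro r hr i hi
    simp only [T]
    split_ifs
    · exact (hGXc _).le
    · exact (hGYc _).le)
  have hTT : ∀ i < m₂ + 2, ∀ j < m₂ + 2, Cmp D (T 0 (σ i)) (T 1 (σ j)) ↔ i = j := by
    intro i hi j hj
    rw [hT0, hT1, hcmp]
    constructor
    · intro hle
      have h5 := hxinj (σ i) (hσ2 i hi) (σ j) (hσ2 j hj) hle
      rcases lt_trichotomy i j with h | h | h
      · have := hσ1 i j h hj; omega
      · exact h
      · have := hσ1 j i h hi; omega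
    · rintro rfl; exact le_refl _
  let X : ℕ → Finset V := fun i => T 0 (σ i) \ K 0
  let Y : ℕ → Finset V := fun i => T 1 (σ i) \ K 1
  have hXY : ∀ i < m₂ + 2, ∀ j < m₂ + 2, Cmp D (X i) (Y j) ↔ i = j := by
    intro i hi j hj
    constructor
    · intro hc
      rw [← hTT i hi j hj]
      intro a ha b hb
      by_cases haK : a ∈ K 0
      · exact (hTT j hj j hj).mpr rfl a (hK 0 (by norm_num) j hj haK) b hb
      by_cases hbK : b ∈ K 1
      · exact (hTT i hi i hi).mpr rfl a ha b (hK 1 (by norm_num) i hi hbK)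
      exact hc a (Finset.mem_sdiff.mpr ⟨ha, haK⟩) b (Finset.mem_sdiff.mpr ⟨hb, hbK⟩)
    · rintro rfl
      intro a ha b hb
      exact (hTT i hi i hi).mpr rfl a (Finset.mem_sdiff.mp ha).1 b (Finset.mem_sdiff.mp hb).1
  have hother : ∀ i < m₂ + 2, ∃ j < m₂ + 2, j ≠ i := by
    intro i hi
    by_cases h0 : i = 0
    · exact ⟨1, by omega, by omega⟩
    · exact ⟨0, by omega, by omega⟩
  have hXne : ∀ i < m₂ + 2, (X i).Nonempty := by
    intro i hi
    obtain ⟨j, hj, hji⟩ := hother i hi
    by_contra hemp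
    rw [Finset.not_nonempty_iff_eq_empty] at hemp
    have : i = j := (hXY i hi j hj).mp (by
      intro a ha
      rw [hemp] at ha
      exact absurd ha (Finset.notMem_empty a))
    exact hji this.symm
  have hYne : ∀ i < m₂ + 2, (Y i).Nonempty := by
    intro i hi
    obtain ⟨j, hj, hji⟩ := hother i hi
    by_contra hemp
    rw [Finset.not_nonempty_iff_eq_empty] at hemp
    have : j = i := (hXY j hj i hi).mp (by
      intro a ha b hb
      rw [hemp] at hb
      exact absurd hb (Finset.notMem_empty b))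
    exact hji this
  obtain ⟨τ, c, hτ1, hτ2, hτ3⟩ := hm₂ (fun i j => (Cmp D (X i) (X j), Cmp D (Y i) (Y j)))
  -- indices
  have hτlt : ∀ i < k + 2 * s + 3, τ i < m₂ + 2 := fun i hi => by
    have := hτ2 i hi; omega
  have hτne : ∀ i < k + 2 * s + 3, ∀ j < k + 2 * s + 3, i ≠ j → τ i ≠ τ j := by
    intro i hi j hj hij
    rcases lt_or_gt_of_ne hij with h | h
    · have := hτ1 i j h hj; omega
    · have := hτ1 j i h hi; omega
  have hcmpX : ∀ i < k + 2 * s + 3, ∀ j < k + 2 * s + 3, i < j →
      (Cmp D (X (τ i)) (X (τ j)) ↔ c.1) ∧ (Cmp D (Y (τ i)) (Y (τ j)) ↔ c.2) := by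
    intro i hi j hj hij
    have := hτ3 i j hij hj
    constructor
    · exact iff_of_eq (congrArg Prod.fst this)
    · exact iff_of_eq (congrArg Prod.snd this)
  have hc1 : ¬ c.1 := by
    intro hc
    obtain ⟨a, ha⟩ := hXne (τ 0) (hτlt 0 (by omega))
    obtain ⟨b, hb⟩ := hXne (τ 1) (hτlt 1 (by omega))
    obtain ⟨d, hd⟩ := hXne (τ 2) (hτlt 2 (by omega))
    exact htri a b d ((hcmpX 0 (by omega) 1 (by omega) (by omega)).1.mpr hc a ha b hb)
      ((hcmpX 0 (by omega) 2 (by omega) (by omega)).1.mpr hc a ha d hd)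
      ((hcmpX 1 (by omega) 2 (by omega) (by omega)).1.mpr hc b hb d hd)
  have hc2 : ¬ c.2 := by
    intro hc
    obtain ⟨a, ha⟩ := hYne (τ 0) (hτlt 0 (by omega))
    obtain ⟨b, hb⟩ := hYne (τ 1) (hτlt 1 (by omega))
    obtain ⟨d, hd⟩ := hYne (τ 2) (hτlt 2 (by omega))
    exact htri a b d ((hcmpX 0 (by omega) 1 (by omega) (by omega)).2.mpr hc a ha b hb)
      ((hcmpX 0 (by omega) 2 (by omega) (by omega)).2.mpr hc a ha d hd)
      ((hcmpX 1 (by omega) 2 (by omega) (by omega)).2.mpr hc b hb d hd)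
  have cmp_symm : ∀ {P Q : Finset V}, Cmp D P Q → Cmp D Q P := fun h a ha b hb =>
    (h b hb a ha).symm
  apply hno
  refine model htri (G := fun i b => if b = true then X (τ i) else Y (τ i)) ?_ ?_ ?_ ?_
  · intro i hi b
    cases b
    · exact hYne _ (hτlt i (by omega))
    · exact hXne _ (hτlt i (by omega))
  · intro i hi j hj b b' hne
    by_cases hij : i = j
    · subst hij
      have hXYd : Disjoint (X (τ i)) (Y (τ i)) := by
        rw [Finset.disjoint_left]
        intro v hv hv'
        exact D.loopless.irrefl v ((hXY (τ i) (hτlt i (by omega)) (τ i) (hτlt i (by omega))).mpr rfl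
          v hv v hv')
      have hbb : b ≠ b' := by
        rcases hne with h | h
        · exact absurd rfl h
        · exact h
      cases b <;> cases b'
      · exact absurd rfl hbb
      · exact hXYd.symm
      · exact hXYd
      · exact absurd rfl hbb
    · have hti := hτlt i (by omega)
      have htj := hτlt j (by omega)
      have hne2 := hτne i (by omega) j (by omega) hij
      cases b <;> cases b'
      · exact hdis 1 (by norm_num) 1 (by norm_num) _ hti _ htj hne2
      · exact hdis 1 (by norm_num) 0 (by norm_num) _ hti _ htj hne2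
      · exact hdis 0 (by norm_num) 1 (by norm_num) _ hti _ htj hne2
      · exact hdis 0 (by norm_num) 0 (by norm_num) _ hti _ htj hne2
  · intro i hi
    exact (hXY (τ i) (hτlt i (by omega)) (τ i) (hτlt i (by omega))).mpr rfl
  · intro i hi j hj b b' hij hc
    have hti := hτlt i (by omega)
    have htj := hτlt j (by omega)
    have hne2 := hτne i (by omega) j (by omega) hij
    have key : ∀ b, ¬ Cmp D (if b = true then X (τ i) else Y (τ i))
        (if b = true then X (τ j) else Y (τ j)) := by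
      intro b hc
      cases b
      · rcases lt_or_gt_of_ne hij with h | h
        · exact hc2 ((hcmpX i (by omega) j (by omega) h).2.mp hc)
        · exact hc2 ((hcmpX j (by omega) i (by omega) h).2.mp (cmp_symm hc))
      · rcases lt_or_gt_of_ne hij with h | h
        · exact hc1 ((hcmpX i (by omega) j (by omega) h).1.mp hc)
        · exact hc1 ((hcmpX j (by omega) i (by omega) h).1.mp (cmp_symm hc))
    cases b <;> cases b'
    · exact key false hc
    · exact hne2 ((hXY _ htj _ hti).mp (cmp_symm hc)).symm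
    · exact hne2 ((hXY _ hti _ htj).mp hc)
    · exact key true hc

end Pool.Agent.MPd439b2.W
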