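import Pool.Agent.Lib.MP_d439b2_co.W.SpecP

/-!
# MP_d439b2_co, W, P4: opposite ladders at a common rail
-/

set_option autoImplicit false

namespace Pool.Agent.MPd439b2.W

theorem x1 (h1 : S_Tri) (h2 : S_Atoms) (h3 : S_FSub) : S_X1 := by
  rintro s V D M r z E hT hP hM ⟨t, ht, a, ha, b, hb, h4, h5, h6, h7⟩
  apply h3
  have hd : ∀ i ≤ r, ¬ E i i := fun i hi h => h1 V D M r z E hT hP (by omega) i hi i hi i hi ⟨h, h, h⟩
  let ρ : ℕ → ℕ := fun i => if i = 0 then t else if i = 1 then a else b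
  have e0 : ρ 0 = t := rfl
  have e1 : ρ 1 = a := rfl
  have e2 : ρ 2 = b := rfl
  have hρ : ∀ i ≤ 2, ρ i ≤ r := by
    intro i hi
    interval_cases i
    · rw [e0]; exact ht
    · rw [e1]; exact ha
    · rw [e2]; exact hb
  have hK : Kn eT1 2 (fun i j => E (ρ i) (ρ j)) := by
    intro i hi j hj
    interval_cases i <;> interval_cases j <;> simp only [e0, e1, e2] <;> refine ⟨?_, ?_⟩ <;>
      intro h8 <;> first | exact absurd h8 (by decide) | assumption | exact hd _ (by assumption)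
  exact h2 eT1 2 48 16 M s l0 _ _ V D _ _ chkT1 hK (by norm_num) h4 h5 (by omega) hT
    (hP.comp ρ hρ le_rfl)

end Pool.Agent.MPd439b2.W
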