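import Pool.Agent.Lib.MP_d439b2_co.W.Alt
import Pool.Agent.Lib.MP_d439b2_co.W.Atoms
import Pool.Agent.Lib.MP_d439b2_co.W.BW
import Pool.Agent.Lib.MP_d439b2_co.W.BWk
import Pool.Agent.Lib.MP_d439b2_co.W.Bad2
import Pool.Agent.Lib.MP_d439b2_co.W.BadWL
import Pool.Agent.Lib.MP_d439b2_co.W.Bundle
import Pool.Agent.Lib.MP_d439b2_co.W.CarvLay
import Pool.Agent.Lib.MP_d439b2_co.W.Carve
import Pool.Agent.Lib.MP_d439b2_co.W.CoM
import Pool.Agent.Lib.MP_d439b2_co.W.Cross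
import Pool.Agent.Lib.MP_d439b2_co.W.Cyc
import Pool.Agent.Lib.MP_d439b2_co.W.Deg
import Pool.Agent.Lib.MP_d439b2_co.W.Dil
import Pool.Agent.Lib.MP_d439b2_co.W.FSub
import Pool.Agent.Lib.MP_d439b2_co.W.FiveP2
import Pool.Agent.Lib.MP_d439b2_co.W.Gen
import Pool.Agent.Lib.MP_d439b2_co.W.GrpA
import Pool.Agent.Lib.MP_d439b2_co.W.GrpB
import Pool.Agent.Lib.MP_d439b2_co.W.Join
import Pool.Agent.Lib.MP_d439b2_co.W.KSub
import Pool.Agent.Lib.MP_d439b2_co.W.LayC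
import Pool.Agent.Lib.MP_d439b2_co.W.LemA
import Pool.Agent.Lib.MP_d439b2_co.W.LinkA
import Pool.Agent.Lib.MP_d439b2_co.W.LinkB
import Pool.Agent.Lib.MP_d439b2_co.W.Merge
import Pool.Agent.Lib.MP_d439b2_co.W.NoHGC
import Pool.Agent.Lib.MP_d439b2_co.W.Noncross
import Pool.Agent.Lib.MP_d439b2_co.W.PatX
import Pool.Agent.Lib.MP_d439b2_co.W.Pre
import Pool.Agent.Lib.MP_d439b2_co.W.RamC
import Pool.Agent.Lib.MP_d439b2_co.W.Reg
import Pool.Agent.Lib.MP_d439b2_co.W.Reroute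
import Pool.Agent.Lib.MP_d439b2_co.W.Runs
import Pool.Agent.Lib.MP_d439b2_co.W.Short
import Pool.Agent.Lib.MP_d439b2_co.W.Sun
import Pool.Agent.Lib.MP_d439b2_co.W.SymC
import Pool.Agent.Lib.MP_d439b2_co.W.SymG
import Pool.Agent.Lib.MP_d439b2_co.W.Trace
import Pool.Agent.Lib.MP_d439b2_co.W.TrackOf
import Pool.Agent.Lib.MP_d439b2_co.W.Tri
import Pool.Agent.Lib.MP_d439b2_co.W.Wid
import Pool.Agent.Lib.MP_d439b2_co.W.X1
import Pool.Agent.Lib.MP_d439b2_co.W.X2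
import Pool.Agent.Lib.MP_d439b2_co.GT.Men
import Pool.Agent.Lib.MP_d439b2_co.LayCW

/-!
# MP_d439b2_co, W: the bounded width theorem, final form (helper28)
-/

set_option autoImplicit false

namespace Pool.Agent.MPd439b2.W

open Pool.Agent.MPd439b2

theorem bundleF : S_Bundle :=
  bundle carve (reg cross) deg (badWL deg) (linkA deg GT.pMen) linkB (reroute runs) trackOf noncross

theorem noHGCF : S_NoHGC :=
  noHGC tri (x1 tri atoms fSub) (x2 tri atoms fSub) (patX atoms) short cyc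

/-- The bounded width theorem. -/
theorem bwF : S_BW :=
  bW carve deg bundleF (symC dil) preW (bad2 preW) symG (carvLay trace preW) (alt (merge lemA)) join
    (grpA gen sun) (grpB ramC) coM noHGCF

theorem widF : S_Wid := wid gen sun ramC coM

/-- `(3 P_1, K_s ∨ co(5 P_2))` is bounded. -/
theorem fivePF : S_5P2 := fiveP2 bwF layC kSub widF layCW

theorem bwkF : S_BWk := bWk bwF layC widF layCW

end Pool.Agent.MPd439b2.W
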