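import Pool.Agent.Lib.MP_d439b2_co.W.SpecM
import Pool.Agent.Lib.MP_d439b2_co.B.Dig

/-!
# MP_d439b2_co, W, M3: independent sets in digraphs of small outdegree
-/

set_option autoImplicit false

namespace Pool.Agent.MPd439b2.W

open Pool.Agent.MPd439b2

theorem dig : S_Dig := by
  classical
  intro τ m I R h hc
  exact Pool.Agent.MPd439b2.dig ℕ I R τ m (fun i hi => ⟨I.filter (fun j => j ≠ i ∧ R i j),
    h i hi _ (Finset.filter_subset _ _) (fun j hj => (Finset.mem_filter.mp hj).2),
    fun y hy hne hR => Finset.mem_filter.mpr ⟨hy, hne, hR⟩⟩) hc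

end Pool.Agent.MPd439b2.W
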