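import Pool.Agent.Lib.MP_d439b2_co.W.BaseT

/-!
# MP_d439b2_co, W, Spec T: one component of the light graph (helper28)

Row (R), case (T,T), one component: an induced matching `a, b` of size `n` such that every vertex touches at most `h`
or all but at most `h` of its edges; if a component `K` of the graph of the light vertices contains many edges of the
matching then there is a cut with few types and large sides.  `D` is triangle-free, not necessarily bipartite.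
Every `S_...` is a statement to be proved in its own file; the docstring contains the complete proof.
Definitions and small lemmas (`Sp`, `Spd`, `Lvl`, `Dn`, `Nr`, `IPth`, `Sit`): `BaseT.lean`.
`v ~ w` means `D.Adj v w`.
-/

set_option autoImplicit false

namespace Pool.Agent.MPd439b2.W

open Pool.Agent.MPd439b2

/-- **T1.** Models of `KCo s F0` (compare M1, `W/Mod.lean`).

Proof. Let `g : Fin 16 → V` be `u 0, .., u 7, p 0, q 0, p 1, q 1, p 2, q 2, p 3, q 3`.  `g i ~ g j` iff `F0.Adj i j`: for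
`i, j < 8` by hypothesis (`S223.Adj i j ↔ F0.Adj i j`, `decide`), for `i < 8 ≤ j` there are no edges, for `8 ≤ i, j`
by `IM D 4 p q`.  `g` is injective: `F0` has no twins (`∀ i j, (∀ k, F0.Adj i k ↔ F0.Adj j k) → i = j`, `decide`; compare
`twin_S223`, `inj_S223`).
For `t < s` let `C t = {a (2 t), b (2 t), a (2 t + 1), b (2 t + 1)}` (four different vertices by `BaseM`); the
only edges of `D` inside are the two M-edges, so `C t` is connected in `Dᶜ` (a 4-cycle).  It is joined by an edge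
of `Dᶜ` to every disjoint nonempty set: a vertex `v` is not adjacent in `D` to both `a (2 t)` and `b (2 t)`
(no triangles).  The sets `C t` are disjoint from each other and do not contain `g i`.
The model is `inl t ↦ C t`, `inr i ↦ {g i}`.  For `i ≠ j` the vertices `g i ≠ g j` are joined by an edge of `Dᶜ` iff
`¬ F0.Adj i j`, which is `(KCo s F0).Adj (inr i) (inr j)`. -/
def S_F0I : Prop := ∀ (s : ℕ) (V : Type) (D : SimpleGraph V) (u : Fin 8 → V) (p q a b : ℕ → V),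
  TriFree D → (∀ i j, D.Adj (u i) (u j) ↔ S223.Adj i j) → IM D 4 p q →
  (∀ i, ∀ j < 4, ¬ D.Adj (u i) (p j) ∧ ¬ D.Adj (u i) (q j)) → IM D (2 * s) a b →
  (∀ k < 2 * s, (∀ i, a k ≠ u i ∧ b k ≠ u i) ∧
    ∀ j < 4, a k ≠ p j ∧ a k ≠ q j ∧ b k ≠ p j ∧ b k ≠ q j) →
  IsIndMinor (KCo s F0) Dᶜ

/-- **T2.** No spiders in `K` (uses T1).

Proof. Let `u` be a spider in `K`.  Its 8 vertices touch together at most `8 h` edges, so there are `4 + 2 s` different
indices `o 0, .., o (3 + 2 s) < n` which are not touched.  T1 with `p j = a (o j)`, `q j = b (o j)` (`j < 4`) and the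
spare edges `a (o (4 + k))`, `b (o (4 + k))` (`k < 2 s`).  `a (o k) ≠ u i` as `a (o k) ~ b (o k)` but `u i` is not adjacent
to `b (o k)`; the same for `b (o k)`; the M-edges are disjoint (`IM.inj_a`, `IM.inj_b`, `IM.ne_ab`). -/
def S_NoSpK : Prop := ∀ (s h n : ℕ) (V : Type) (D : SimpleGraph V) (a b : ℕ → V) (K : Set V),
  TriFree D → ¬ IsIndMinor (KCo s F0) Dᶜ → IM D n a b → (∀ v ∈ K, (Jt D n a b v).card ≤ h) →
  8 * h + 4 + 2 * s ≤ n → ¬ Sp D K

/-- **T3.** Breadth first search.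

Proof. The set of the `v ∈ K` with `∃ m, Nr D K m r v` contains `r` and is closed under neighbours in `K`
(`Nr.trans`, `Nr.of_adj`), so it is `K` (`Conn.eq_of_nb`).  Let `lam v` be the smallest `m` with `Nr D K m r v` (and `0` if
there is none).  `lam r = 0` (`Nr.refl`).  `par`: `v ∈ K`, `v ≠ r`, `m = lam v`; `m ≠ 0`, as a walk without steps gives
`v = r`; a walk `p 0 = r, .., p m' = v`, `m' ≤ m`; so `m' = m` by minimality; `u = p (m - 1)`: `Nr D K (m - 1) r u`, so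
`lam u ≤ m - 1`; if `lam u < m - 1` then `Nr D K (m - 1) r v`: contradiction.  `slow`: `Nr D K (lam v) r v` and
`Nr D K 1 v u`. -/
def S_Bfs : Prop := ∀ (V : Type) (D : SimpleGraph V) (K : Set V) (r : V), Conn D K → r ∈ K →
  ∃ lam : V → ℕ, Lvl D K lam r

/-- **T4.** Down paths.

Proof. Induction on `lam v`.  `lam v = 0`: `p j = v`.  `lam v = k + 1`: `v ≠ r` (`Lvl.zero`), `par` gives `u ∈ K`, `v ~ u`,
`lam u = k`; a down path `p'` of `u`; `p j = p' j` for `j ≤ k`, `p j = v` for `k < j`. -/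
def S_DnP : Prop := ∀ (V : Type) (D : SimpleGraph V) (K : Set V) (lam : V → ℕ) (r : V),
  Lvl D K lam r → ∀ v ∈ K, ∃ p, Dn D K lam v p

/-- **T5.** Balls contain boundedly many edges of an induced matching (uses M3 = `S_Dig`).

Proof. Induction on `d`.  `d = 0, 1`: `L = t`: if `Nr D K 1 v (a i)` then `v = a i` (so `v ~ b i`) or `v ~ a i`; so
`J ⊆ Jt D n a b v`.
Step from `d ≥ 1` to `d + 1`: let `L` be the number for `d`; we show that `19 L + 3` works.  Let `J₀` be the set of the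
`i ∈ J` with `Nr D K d v (a i)` or `Nr D K d v (b i)`: `|J₀| ≤ L`; `I = J \ J₀`.  For `i ∈ I` there is a walk
`ζ i 0 = v, .., ζ i (d + 1)` inside `K` (exactly `d + 1` steps, as `i ∉ J₀`) whose last vertex is an end of the edge `i`;
let `ω i` be the other end.  Let `y i 1 = ζ i 1`, `y i 2 = ζ i 2`, and `y i 3 = ζ i 3` if `2 ≤ d`, `y i 3 = ω i` if `d = 1`.  So
`v ~ y i 1 ~ y i 2 ~ y i 3`, all in `K`, and `v ≁ y i 3`: if `2 ≤ d` and `v ~ ζ i 3` there is a walk with `d - 1` steps from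
`v` to `ζ i (d + 1)`; if `d = 1` and `v ~ ω i` then `Nr D K 1 v (ω i)`: in both cases `i ∈ J₀`.
Let `R i i'` mean that some `y i α` (`α ∈ {1, 2, 3}`) is adjacent to some `y i' β` (`β ∈ {2, 3}`).  Then
`Nr D K d (y i α) (a i')` or `Nr D K d (y i α) (b i')`: one step to `y i' β`, and then along the walk to `ζ i' (d + 1)` in
`d + 1 - β ≤ d - 1` steps (for `d = 1`, `β = 3` the vertex `y i' 3 = ω i'` is itself an end).  So by induction (for the
vertex `y i α ∈ K`) every `i` has at most `τ = 3 L` indices `i'` with `R i i'`.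
If `(2 τ + 1) * 3 ≤ |I|` then M3 gives three indices `i, j, k ∈ I` without relations, and
`Spd D v (y i 1) (y i 2) (y j 1) (y j 2) (y k 1) (y k 2) (y k 3)`: all non-edges between different legs have an end `y _ 2`
or `y _ 3`.  `Spd.sp`: contradiction.  So `|I| ≤ 18 L + 2` and `|J| ≤ 19 L + 3`. -/
def S_Ball : Prop := ∀ t d : ℕ, ∃ L : ℕ, ∀ (V : Type) (D : SimpleGraph V) (K : Set V) (n : ℕ)
  (a b : ℕ → V), TriFree D → ¬ Sp D K → IM D n a b → (∀ i < n, a i ∈ K ∧ b i ∈ K) →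
  (∀ v ∈ K, (Jt D n a b v).card ≤ t) → ∀ v ∈ K, ∀ J : Finset ℕ,
  (∀ i ∈ J, i < n ∧ (Nr D K d v (a i) ∨ Nr D K d v (b i))) → J.card ≤ L

/-- **T6.** Every vertex of `K` touches at most four edges of an induced matching (uses T3, T4).

Proof. T3: levels `μ` from the root `v`.  There is `w' ∈ K` with `6 ≤ μ w'`: otherwise `μ r ≤ 5`, `μ w ≤ 5`, so
`Nr D K 5 v r`, `Nr D K 5 v w` (T4, `Dn.nr_root`, `Nr.mono`), `Nr D K 10 r w`, and `lam w ≤ 10` (`Lvl.le_of_nr`):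
contradiction.  T4: a down path of `w'` (for `μ`); `v_j` is its vertex on the level `j`, `j ≤ 6`; `v_0 = v`.
`v_j` touches the index `k` if `v_j ~ a k` or `v_j ~ b k`.  Let `k ∈ Jt D n a b v`.  Then `μ (a k), μ (b k) ≤ 2`
(`a k, b k ∈ K`), so `v_j` does not touch `k` for `4 ≤ j` (`Lvl.nadj`).  Let `i(k)` be the largest `j ≤ 3` such that `v_j`
touches `k` (it exists, `j = 0`).  If there are at least five `k`, two of them, `k ≠ k'`, have the same `i = i(k) = i(k')`.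
Let `x₁` be the end of the edge `k` adjacent to `v_i`, `x₂` the other end, `y₁`, `y₂` the same for `k'`:
`Spd D v_i x₁ x₂ y₁ y₂ v_(i+1) v_(i+2) v_(i+3)`: the two edges are not adjacent (`IM`), and `v_(i+1), v_(i+2), v_(i+3)` do
not touch `k`, `k'`.  Contradiction. -/
def S_Tch : Prop := ∀ (V : Type) (D : SimpleGraph V) (K : Set V) (lam : V → ℕ) (r w v : V)
  (n : ℕ) (a b : ℕ → V), TriFree D → ¬ Sp D K → Conn D K → Lvl D K lam r → w ∈ K → 12 ≤ lam w →
  v ∈ K → IM D n a b → (∀ i < n, a i ∈ K ∧ b i ∈ K) → (Jt D n a b v).card ≤ 4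

/-- **T7.** Two down paths do not meet above level 3, if they do not meet near their tops.

Proof. Call `(j, j')` bad if `3 ≤ j ≤ lam x`, `3 ≤ j' ≤ lam y` and (`p j = q j'` or `p j ~ q j'`).  Suppose that there is a
bad pair, and let `(j, j')` be one with `j + j'` maximal.  The hypothesis: `j + 3 ≤ lam x`, `j' + 3 ≤ lam y`.  Levels:
`lam (p j) = j`, `lam (q j') = j'`, so `j' = j`, or `p j ~ q j'` and `j' = j + 1` or `j = j' + 1`.
(i) `p j = q j'`, `j = j'`: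
`Spd D (p j) (p (j + 1)) (p (j + 2)) (q (j + 1)) (q (j + 2)) (p (j - 1)) (p (j - 2)) (p (j - 3))`.
(ii) `p j ~ q j'`, `j = j'`:
`Spd D (p j) (p (j + 1)) (p (j + 2)) (q j) (q (j + 1)) (p (j - 1)) (p (j - 2)) (p (j - 3))`.
(iii) `p j ~ q j'`, `j' = j + 1`:
`Spd D (p j) (p (j + 1)) (p (j + 2)) (q (j + 1)) (q (j + 2)) (p (j - 1)) (p (j - 2)) (p (j - 3))`.
(iv) `p j ~ q j'`, `j = j' + 1`: as (iii) with `p` and `q` exchanged.
All non-edges follow from the levels (`Lvl.nadj`) or, between `p (j + 1), p (j + 2)` and `q (j + 1), q (j + 2)`, from the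
maximality of `j + j'`.  `Spd.sp`: contradiction. -/
def S_PairL : Prop := ∀ (V : Type) (D : SimpleGraph V) (K : Set V) (lam : V → ℕ) (r x y : V)
  (p q : ℕ → V), TriFree D → ¬ Sp D K → Lvl D K lam r → Dn D K lam x p → Dn D K lam y q →
  (∀ j j', 3 ≤ j → 3 ≤ j' → j ≤ lam x → j' ≤ lam y → (p j = q j' ∨ D.Adj (p j) (q j')) →
    j + 3 ≤ lam x ∧ j' + 3 ≤ lam y) →
  ∀ j j', 3 ≤ j → 3 ≤ j' → j ≤ lam x → j' ≤ lam y → p j ≠ q j' ∧ ¬ D.Adj (p j) (q j')

/-- **T8.** Down paths of vertices which are far from each other (uses T7).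

Proof. We verify the hypothesis of T7.  Let `p j = q j'` or `p j ~ q j'`.  So `j ≤ j' + 1`, `j' ≤ j + 1` (levels).
`Nr D K (lam x - j) x (p j)`, `Nr D K 1 (p j) (q j')`, `Nr D K (lam y - j') (q j') y` (`Dn.nr'`, `Dn.top`, `Nr.symm`), so
`Nr D K ((lam x - j) + 1 + (lam y - j')) x y`, and `l + 6 < (lam x - j) + 1 + (lam y - j')` (`Nr.mono`).  With
`lam y ≤ lam x + l` and `j ≤ j' + 1`: `l + 6 ≤ (lam x - j) + (lam x + l - j + 1)`, so `j + 3 ≤ lam x` (`omega`); in the same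
way `j' + 3 ≤ lam y`. -/
def S_PairD : Prop := ∀ (V : Type) (D : SimpleGraph V) (K : Set V) (lam : V → ℕ) (r x y : V)
  (p q : ℕ → V) (l : ℕ), TriFree D → ¬ Sp D K → Lvl D K lam r → Dn D K lam x p →
  Dn D K lam y q → lam x ≤ lam y + l → lam y ≤ lam x + l → ¬ Nr D K (l + 6) x y →
  ∀ j j', 3 ≤ j → 3 ≤ j' → j ≤ lam x → j' ≤ lam y → p j ≠ q j' ∧ ¬ D.Adj (p j) (q j')

/-- **T9.** A walk contains an induced path.

Proof. Among all pairs `(m', q)` with `q 0 = p 0`, `q m' = p m`, `q i ~ q (i + 1)` for `i < m'`, and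
`∀ i ≤ m', ∃ j ≤ m, q i = p j` (`(m, p)` is one) choose one with minimal `m'`.  Let `i < j ≤ m'`.  `q i = q j`: the walk
`q' k = q k` for `k ≤ i`, `q' k = q (k + (j - i))` for `k > i` has `m' - (j - i)` steps: contradiction.  `i + 2 ≤ j` and
`q i ~ q j`: `q' k = q k` for `k ≤ i`, `q' k = q (k + (j - i - 1))` for `k > i` has `m' - (j - i - 1) < m'` steps. -/
def S_IndP : Prop := ∀ (V : Type) (D : SimpleGraph V) (m : ℕ) (p : ℕ → V),
  (∀ j < m, D.Adj (p j) (p (j + 1))) → ∃ (m' : ℕ) (q : ℕ → V), IPth D m' q ∧ q 0 = p 0 ∧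
    q m' = p m ∧ ∀ i ≤ m', ∃ j ≤ m, q i = p j

/-- **T10.** Nothing is attached to the middle of an induced path.

Proof. Suppose `t₀ ~ q i` for some `i ≤ m`.
(1) There is only one such `i`: `Spd D (q i) (q (i - 1)) (q (i - 2)) (q (i + 1)) (q (i + 2)) t₀ t₁ t₂`.
(2) Otherwise let `i` be the smallest and `j` the largest one, `i < j`.  `j ≠ i + 1` (no triangle `t₀, q i, q j`).
`Spd D t₀ (q j) (q (j + 1)) t₁ t₂ (q i) (q (i - 1)) (q (i - 2))`.
The non-edges: `IPth.nadj`, the hypothesis on `t₁`, `t₂`, and the choice of `i`, `j`.  `Spd.sp`: contradiction. -/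
def S_Att : Prop := ∀ (V : Type) (D : SimpleGraph V) (K : Set V) (m : ℕ) (q : ℕ → V)
  (t₀ t₁ t₂ : V), TriFree D → ¬ Sp D K → IPth D m q → (∀ i ≤ m, q i ∈ K) → t₀ ∈ K → t₁ ∈ K →
  t₂ ∈ K → D.Adj t₀ t₁ → D.Adj t₁ t₂ → (∀ i ≤ m, ¬ D.Adj t₁ (q i) ∧ ¬ D.Adj t₂ (q i)) →
  (∀ i ≤ m, D.Adj t₀ (q i) → 3 ≤ i ∧ i + 3 ≤ m) → ∀ i ≤ m, ¬ D.Adj t₀ (q i)

/-- **T11.** There are no three arms (uses T9, T10).

Proof. `ℓ i = lam (x i)`; `p i 0 = r` (`Dn.zero`).  The walk `w j = p 0 (ℓ 0 - j)` for `j ≤ ℓ 0`, `w (ℓ 0 + j) = p 1 j` for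
`j ≤ ℓ 1` goes from `x 0` to `x 1`.  T9: an induced path `q 0 = x 0, .., q m = x 1` such that every `q i` is some `p 0 j`
(`j ≤ ℓ 0`) or some `p 1 j` (`j ≤ ℓ 1`).
(1) For `i ≤ ℓ 0 - 3`: `i ≤ m` and `q i = p 0 (ℓ 0 - i)`.  Induction.  `i = 0` is clear.  Let `i + 1 ≤ ℓ 0 - 3`,
`j = ℓ 0 - i ≥ 4`, `q i = p 0 j`.  `i ≠ m`, as `q m = x 1 = p 1 (ℓ 1) ≠ p 0 j` (hypothesis).  `q (i + 1) ~ p 0 j` is not a
vertex `p 1 j'` (levels: `j' ≥ j - 1 ≥ 3`, hypothesis), so it is `p 0 j'` with `j' = j - 1` or `j' = j + 1` (levels; `j' = j`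
is impossible).  If `j' = j + 1` then `1 ≤ i` and `q (i + 1) = p 0 (ℓ 0 - (i - 1)) = q (i - 1)`: contradiction to
`IPth.inj`.
(2) By symmetry (the path `i ↦ q (m - i)`, roles of `0` and `1` exchanged): for `i ≤ ℓ 1 - 3`: `i ≤ m` and
`q (m - i) = p 1 (ℓ 1 - i)`.
(3) Let `w' j = p 2 (ℓ 2 - j)` for `j ≤ ℓ 2` and `w' (ℓ 2 + j) = p 0 j` for `j ≤ 2`: a walk.  `p 0 2` is adjacent to
`p 0 3 = q (ℓ 0 - 3)`.  Let `e ≤ ℓ 2 + 2` be the smallest number such that `w' e` is adjacent to some `q i`.  For `4 ≤ j` the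
vertex `p 2 j` is not adjacent to any `q i`: `q i` would have a level `≥ j - 1 ≥ 3`, so it would be `p 0 j'` or `p 1 j'` with
`3 ≤ j'`: contradiction.  So `ℓ 2 - 3 ≤ e`, in particular `2 ≤ e`, and `lam (w' e) ≤ 3`.
(4) T10 with `t₀ = w' e`, `t₁ = w' (e - 1)`, `t₂ = w' (e - 2)`: if `t₀ ~ q i` then `lam (q i) ≤ 4`; `q i` has the level
`ℓ 0 - i ≥ 10` for `i ≤ 2`, and the level `ℓ 1 - (m - i) ≥ 10` for `m ≤ i + 2`; so `3 ≤ i` and `i + 3 ≤ m`.  Contradiction. -/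
def S_NoArm : Prop := ∀ (V : Type) (D : SimpleGraph V) (K : Set V) (lam : V → ℕ) (r : V)
  (x : ℕ → V) (p : ℕ → ℕ → V), TriFree D → ¬ Sp D K → Lvl D K lam r →
  (∀ i < 3, 12 ≤ lam (x i) ∧ Dn D K lam (x i) (p i)) →
  (∀ i < 3, ∀ i' < 3, i ≠ i' → ∀ j j', 3 ≤ j → 3 ≤ j' → j ≤ lam (x i) → j' ≤ lam (x i') →
    p i j ≠ p i' j' ∧ ¬ D.Adj (p i j) (p i' j')) → False

/-- **T12.** No three far vertices on similar levels (uses T4, T8, T11).

Proof. T4: down paths `p i` of `x i`.  T8 for `x i`, `x i'` (`i ≠ i'`), T11. -/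
def S_Arm3 : Prop := ∀ (V : Type) (D : SimpleGraph V) (K : Set V) (lam : V → ℕ) (r : V) (l : ℕ)
  (x : ℕ → V), TriFree D → ¬ Sp D K → Lvl D K lam r → (∀ i < 3, x i ∈ K ∧ 12 ≤ lam (x i)) →
  (∀ i < 3, ∀ j < 3, lam (x i) ≤ lam (x j) + l) →
  (∀ i < 3, ∀ j < 3, i ≠ j → ¬ Nr D K (l + 6) (x i) (x j)) → False

/-- **T13.** Induced matchings in windows are bounded (uses T4, T5, T6, T12).

Proof. Let `L` be the number of T5 for `t = 4`, `d = l + 6`, and `L'` the one for `t = 4`, `d = 12`; `f = 2 L + L'`.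
By T6 every vertex of `K` touches at most four of the edges.  `J₁` = the set of the `i < n` with `lam (a i) ≤ 12`:
`Nr D K 12 r (a i)` (T4, `Dn.nr_root`), so `|J₁| ≤ L'` (T5 for the vertex `r`).  `J₂` = the set of the `i < n` with
`12 < lam (a i)`; suppose it is not empty, `i₀ ∈ J₂`.  If `Nr D K (l + 6) (a i₀) (a i)` for all `i ∈ J₂` then `|J₂| ≤ L`.
Otherwise let `i₁ ∈ J₂` with `¬ Nr D K (l + 6) (a i₀) (a i₁)`.  For `i ∈ J₂` we have `Nr D K (l + 6) (a i₀) (a i)` or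
`Nr D K (l + 6) (a i₁) (a i)`, by T12 for `a i₀, a i₁, a i` (and `Nr.symm`).  So `|J₂| ≤ 2 L`. -/
def S_WinB : Prop := ∀ l : ℕ, ∃ f : ℕ, ∀ (V : Type) (D : SimpleGraph V) (K : Set V) (lam : V → ℕ)
  (r : V) (d n : ℕ) (a b : ℕ → V), TriFree D → ¬ Sp D K → Conn D K → Lvl D K lam r →
  (∃ w ∈ K, 12 ≤ lam w) → IM D n a b →
  (∀ i < n, a i ∈ K ∧ b i ∈ K ∧ d ≤ lam (a i) ∧ lam (a i) ≤ d + l) → n ≤ f

/-- **T14.** Induced subgraphs (compare M14, `W/HypI.lean`).

Proof. `TriFree` is clear; `CoM (D.induce Y) m₀` gives `CoM D m₀` (apply `Subtype.val`).  `Excl`: let `B` be a model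
of `H = KCo s F` (`F` is one of `F1, F2, F3`) in `(D.induce Y)ᶜ`; the sets `Subtype.val '' B w` form a model in `Dᶜ`: two
elements `u, v : Y` are adjacent in `(D.induce Y)ᶜ` iff `u.1, v.1` are adjacent in `Dᶜ`.  See `W/HypI.lean`. -/
def S_ExcI : Prop := ∀ (s m₀ : ℕ) (V : Type) (D : SimpleGraph V) (Y : Set V), TriFree D →
  Excl s D → ¬ CoM D m₀ → TriFree (D.induce Y) ∧ Excl s (D.induce Y) ∧ ¬ CoM (D.induce Y) m₀

/-- **T15.** (Not a task: this is `Rep.widR`.)  No large induced matching: the width of `Cl D` is bounded. -/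
def S_WidS : Prop := ∀ s m₀ n : ℕ, ∃ w : ℕ, ∀ (V : Type) [Finite V] (D : SimpleGraph V),
  TriFree D → Excl s D → ¬ CoM D m₀ → (∀ a b, ¬ IM D n a b) → WidP (Cl D) w

/-- **T16.** Cuts of `K` (uses O14 = `S_OSep`, T14, T15).

Proof. `w` from T15 for `(s, m₀, f)`, `N` from O14 for `(w, s)`.  `W = {v ∈ K | d ≤ lam v ≤ d + 15}`, `D' = D.induce W`.  T14:
`TriFree D'`, `Excl s D'`, `¬ CoM D' m₀`.  An induced matching of `D'` of size `f` would give one of `D` (apply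
`Subtype.val`): contradiction.  T15: `WidP (Cl D') w`.  O14 with `lam' v = lam v.1`, `a = d`, `b = d + 15` gives
`X' : Set W` with `lam v.1 ≤ d → v ∈ X'`, `d + 15 ≤ lam v.1 → v ∉ X'` and `(Types D' X').encard ≤ N`.
`X = {v ∈ K | lam v ≤ d} ∪ Subtype.val '' X'`.  Clearly `X ⊆ K` and `lam v < d + 15` for `v ∈ X`.
Types: let `u ∈ X` and `T = (D.neighborSet u ∩ K) \ X` nonempty, `z ∈ T`.  `lam z > d`, so `lam u ≥ d`, so `u ∈ W`, and
`u ∈ X'` (if `lam u = d` because `X'` contains the vertices with `lam ≤ d`, otherwise by the definition of `X`).  So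
`lam u < d + 15`, and every `z ∈ T` satisfies `d < lam z ≤ d + 15`, so `z ∈ W`.  So `T = Subtype.val '' (N_D'(u) \ X')`, the
image of an element of `Types D' X'`. -/
def S_CutK : Prop := ∀ s m₀ f : ℕ, ∃ N : ℕ, ∀ (V : Type) [Finite V] (D : SimpleGraph V)
  (K : Set V) (lam : V → ℕ) (d : ℕ), TriFree D → Excl s D → ¬ CoM D m₀ →
  (∀ u ∈ K, ∀ v ∈ K, D.Adj u v → lam u ≤ lam v + 1) →
  (∀ a b, IM D f a b → ¬ ∀ i < f, (a i ∈ K ∧ d ≤ lam (a i) ∧ lam (a i) ≤ d + 15) ∧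
    (b i ∈ K ∧ d ≤ lam (b i) ∧ lam (b i) ≤ d + 15)) →
  ∃ X ⊆ K, (∀ v ∈ K, lam v ≤ d → v ∈ X) ∧ (∀ v ∈ X, lam v < d + 15) ∧
    (TyIn D K X).encard ≤ N

/-- **T17.** The third leg.

Proof. `C` = the set of the `v ∈ K` with `f ≁ v` which have a neighbour `v' ∈ K` with `f ≁ v'`.  `p ∈ C`, and `C ≠ K` because
`f` has a neighbour in `K`.  `Conn`: there are `z₁ ∈ C` and `z₀ ∈ K \ C` with `z₁ ~ z₀`.  `f ~ z₀`: otherwise `z₀ ∈ C` as
`z₀ ~ z₁`, `f ≁ z₁`.  `z₂` = a neighbour of `z₁` in `K` with `f ≁ z₂`. -/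
def S_Leg3 : Prop := ∀ (V : Type) (D : SimpleGraph V) (K : Set V) (f p q : V), Conn D K →
  (∃ v ∈ K, D.Adj f v) → p ∈ K → q ∈ K → D.Adj p q → ¬ D.Adj f p → ¬ D.Adj f q →
  ∃ z₀ ∈ K, ∃ z₁ ∈ K, ∃ z₂ ∈ K, D.Adj f z₀ ∧ D.Adj z₀ z₁ ∧ D.Adj z₁ z₂ ∧ ¬ D.Adj f z₁ ∧
    ¬ D.Adj f z₂

/-- **T18.** A full vertex which touches `K` has boundedly many null edges far from each other (uses T1, T17).

Proof. Suppose the levels satisfy `lam (p j) + 6 ≤ lam (p i)` for `j < i < 6`.  T17 for `p 0, q 0`: `z₀, z₁, z₂`.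
`c = lam z₁`.  Call `i < 6` hit if `z₀`, `z₁` or `z₂` is adjacent to `p i` or `q i`; then `c ≤ lam (p i) + 3` and
`lam (p i) ≤ c + 3` (levels).  Three hit indices are impossible (their levels would differ by at least 12).  So there are
four indices `i 0 < .. < i 3` which are not hit; `P j = p (i j)`, `Q j = q (i j)`.  `IM D 4 P Q`: `lam (q i)` differs from
`lam (p i)` by at most one, so for different indices all levels differ by at least four (`Lvl.nadj`).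
`G` = the set of the `k < n` which are touched by `f` and not by the 11 vertices `z₀, z₁, z₂, P j, Q j`.  These are in
`K ⊆ U`, so `|G| ≥ n - h - 11 h ≥ 2 s + 2`.  `f` is not a vertex `a k`, `b k` (`k < n`), because such a vertex touches only the
edge `k`, but `f` touches at least two.  Let `k₀, k₁, g 0, .., g (2 s - 1)` be different elements of `G`; `x₁` the end of the
edge `k₀` adjacent to `f`, `x₂` the other end; `y₁, y₂` for `k₁`.
`Spd D f x₁ x₂ y₁ y₂ z₀ z₁ z₂`: the edges `k₀ ≠ k₁` are not adjacent (`IM`) and not touched by `z₀, z₁, z₂`; `f ≁ z₂`.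
T1 with `u = ![f, x₁, x₂, y₁, y₂, z₀, z₁, z₂]` (`Spd.ind`), `P`, `Q`, `fun j => a (g j)`, `fun j => b (g j)`: `f ≁ P j, Q j`;
`x₁, x₂, y₁, y₂` are not adjacent to `P j, Q j` because `P j, Q j` do not touch `k₀, k₁`; `z₀, z₁, z₂` are not adjacent to
them because the indices are not hit.  `a (g j)`, `b (g j)` are different from `f` (see above), from the vertices of the
edges `k₀, k₁` (`IM.inj_a`, ..), and from `z₀, z₁, z₂, P i, Q i`, because these do not touch the edge `g j`. -/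
def S_Dirt : Prop := ∀ (s h n : ℕ) (V : Type) (D : SimpleGraph V) (a b : ℕ → V) (U K : Set V)
  (lam : V → ℕ) (r f : V) (p q : ℕ → V), Sit s h n D a b U K → Lvl D K lam r → f ∉ U →
  (∃ v ∈ K, D.Adj f v) → (∀ i < 6, p i ∈ K ∧ q i ∈ K ∧ D.Adj (p i) (q i) ∧ ¬ D.Adj f (p i) ∧
    ¬ D.Adj f (q i)) → ¬ ∀ i < 6, ∀ j < i, lam (p j) + 6 ≤ lam (p i)

/-- **T19.** Null edges of different full vertices (uses E7 = `S_RamC`, M3 = `S_Dig`, P4 = `S_X1`, T18).

Proof. `M = m₀ + 200 + 8 s + 3`, `N` the number of E7 for `κ = Fin 3 → Prop` and `M`; `T = 11 N`.  Suppose that the levels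
satisfy `lam (p j) + 6 ≤ lam (p i)` for `j < i < T`.
(1) For `i < T` let `R i j` mean `f i ≁ p j` and `f i ≁ q j`.  There are at most `5` indices `j < T` with `R i j`: six of them
in increasing order contradict T18 for `f i`.  M3 (`τ = 5`, `m = N`, `I = range T`) gives `N` indices such that for different
`i, j` among them `f i` is adjacent to `p j` or to `q j` (not to both, no triangles).  Enumerate them increasingly and rename
them `0, .., N - 1`.
(2) E7 for `χ i j = ![f i ~ f j, f i ~ p j, f j ~ p i]`: `M` indices (rename them `0, .., M - 1`, increasing) such that for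
`i < j < M` these three truth values are constant, `α, β, γ`.  `α` is false (otherwise `f 0, f 1, f 2` is a triangle).
For `i < j`: `f i ~ p j` iff `β`, `f i ~ q j` iff not `β`, `f j ~ p i` iff `γ`, `f j ~ q i` iff not `γ`.
(3) `β` and `γ`: `CoM D m₀` with `f`, `p` (`f i ≁ p i`).  Not `β` and not `γ`: `CoM D m₀` with `f`, `q`.
(4) `β` and not `γ`: P4 with `M`, `r = 2`, the rails `z 0 k = {f k}`, `z 1 k = {p k}`, `z 2 k = {q k}`, and `E i j` true only
for `(i, j) = (0, 1)` and `(2, 0)`; `t = 0`, `a = 1`, `b = 2`.  `Pat`: `dis`: `f i ≠ f j` for `i ≠ j` because `f j` sees one of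
`p i, q i` and `f i` does not; `f i ∉ U`, but `p j, q j ∈ K ⊆ U`; the levels of `p i, q i` and of `p j, q j` differ by at least
four.  `rel` for `k < l`: `f k ≁ f l`; `f k ~ p l` (`β`); `p k ≁ f l` (not `γ`); `f k ≁ q l` (`β`); `q k ~ f l` (not `γ`); the
others by the levels (`Lvl.nadj`).  P4 contradicts `Excl s D`.
(5) Not `β` and `γ`: the same with `p` and `q` exchanged. -/
def S_NullF : Prop := ∀ s m₀ : ℕ, ∃ T : ℕ, ∀ (h n : ℕ) (V : Type) (D : SimpleGraph V)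
  (a b : ℕ → V) (U K : Set V) (lam : V → ℕ) (r : V) (f p q : ℕ → V), Sit s h n D a b U K →
  Excl s D → ¬ CoM D m₀ → Lvl D K lam r → (∀ i < T, f i ∉ U ∧ (∃ v ∈ K, D.Adj (f i) v) ∧
    p i ∈ K ∧ q i ∈ K ∧ D.Adj (p i) (q i) ∧ ¬ D.Adj (f i) (p i) ∧ ¬ D.Adj (f i) (q i)) →
  ¬ ∀ i < T, ∀ j < i, lam (p j) + 6 ≤ lam (p i)

/-- **T20.** A clean block of levels (uses T19).

Proof. `T` from T19; `c i = Z + i (Z + 6)`, `E = 2 Z + T (Z + 6)`; so `Z ≤ c i` and `c i + Z ≤ E` for `i < T`.  Suppose that no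
`d = c i` (`i < T`) works: there are `f i ∉ U` with a neighbour in `K`, and `p i, q i ∈ K`, `p i ~ q i`,
`c i ≤ lam (p i) ≤ c i + Z`, `f i ≁ p i`, `f i ≁ q i`.  For `j < i < T`: `lam (p j) + 6 ≤ c j + Z + 6 ≤ c i ≤ lam (p i)`.  This
contradicts T19.  (For `T = 0` T19 itself gives a contradiction.) -/
def S_Zone : Prop := ∀ s m₀ Z : ℕ, ∃ E : ℕ, ∀ (h n : ℕ) (V : Type) (D : SimpleGraph V)
  (a b : ℕ → V) (U K : Set V) (lam : V → ℕ) (r : V), Sit s h n D a b U K → Excl s D →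
  ¬ CoM D m₀ → Lvl D K lam r → ∃ d, Z ≤ d ∧ d + Z ≤ E ∧
    ∀ f, f ∉ U → (∃ v ∈ K, D.Adj f v) → ∀ p ∈ K, ∀ q ∈ K, D.Adj p q → d ≤ lam p →
      lam p ≤ d + Z → D.Adj f p ∨ D.Adj f q

/-- **T21.** The traces of the full vertices on a clean block (uses T4, T12).

Proof. If `Z` is empty there is at most one trace.  `R = {v ∈ K | d ≤ lam v ≤ e}`; `x` and `y` are joined if
`∃ m, Nr D R m x y` (symmetric and transitive; reflexive on `R`).
(1) Every `z ∈ Z` is joined to some `x ∈ K` with `lam x = d + 12`: T4 and `Dn.nr` (levels between `d + 12` and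
`lam z ≤ e`; `Nr.mono_set`).
(2) There are `x₀, x₁ ∈ K` such that every `z ∈ Z` is joined to `x₀` or to `x₁`.  Let `z₀ ∈ Z` and `x₀` as in (1).  If all
`z ∈ Z` are joined to `x₀` take `x₁ = x₀`.  Otherwise let `z₁ ∈ Z` be not joined to `x₀`, and `x₁` for `z₁` as in (1).  Let
`z ∈ Z`, `x` for `z` as in (1), and suppose that `z` is joined neither to `x₀` nor to `x₁`.  So `x₀, x₁, x` are pairwise not
joined.  A walk inside `K` with at most 6 steps between two vertices on the level `d + 12` stays on the levels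
`d + 6, .., d + 18` (`Lvl.walk`), so inside `R`; so `¬ Nr D K 6` for each two of `x₀, x₁, x`.  T12 with `l = 0`:
contradiction.
(3) Let `f ∈ F`.  If `p, q ∈ R`, `p ~ q`, then exactly one of `f ~ p`, `f ~ q` holds (hypothesis, no triangles).  So for a
walk inside `R` with `m` steps from `x` to `z`: `f ~ z` iff (`f ~ x` iff `m` is even) (induction on `m`).  For every
`z ∈ Z` fix such a walk from `x₀` or from `x₁`.  So `D.neighborSet f ∩ Z` is determined by the two truth values of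
`f ~ x₀`, `f ~ x₁`: at most four sets. -/
def S_Clss : Prop := ∀ (V : Type) (D : SimpleGraph V) (K F Z : Set V) (lam : V → ℕ) (r : V)
  (d e : ℕ), TriFree D → ¬ Sp D K → Lvl D K lam r → d + 18 ≤ e →
  (∀ f ∈ F, ∀ p ∈ K, ∀ q ∈ K, D.Adj p q → d ≤ lam p → lam p ≤ e → D.Adj f p ∨ D.Adj f q) →
  (∀ z ∈ Z, z ∈ K ∧ d + 12 ≤ lam z ∧ lam z ≤ e) →
  {T | ∃ f ∈ F, T = D.neighborSet f ∩ Z}.encard ≤ 4

/-- **T22.** The types of a band.

Proof. `Z = X₂ \ X₁`.  Let `u ∉ Z` and `T = D.neighborSet u \ Zᶜ = D.neighborSet u ∩ Z` nonempty.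
(1) `u ∈ X₁`: `S = (D.neighborSet u ∩ K) \ X₁` is in `TyIn D K X₁` (it contains `T`), and `T = S ∩ X₂`: at most `N` sets `T`.
(2) `u ∈ K \ X₂`: let `A(u)` be the set of the `S ∈ TyIn D K X₂` with `u ∈ S`.  For `x ∈ Z` let
`S_x = (D.neighborSet x ∩ K) \ X₂`; `x ~ u` iff `u ∈ S_x`, and then `S_x ∈ TyIn D K X₂`.  So
`T = {x ∈ Z | S_x ∈ A(u)}` is determined by `A(u)`: at most `2 ^ N` sets `T` (`TyIn D K X₂` is finite with at most `N`
elements).
(3) `u ∈ U \ K`: `u` has no neighbours in `K` (`IsComp`), so `T` is empty: contradiction.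
(4) `u ∉ U`: at most `t` sets `T`. -/
def S_Band : Prop := ∀ (N t : ℕ) (V : Type) [Finite V] (D : SimpleGraph V) (U K X₁ X₂ : Set V),
  IsComp D U K → X₁ ⊆ X₂ → X₂ ⊆ K → (TyIn D K X₁).encard ≤ N → (TyIn D K X₂).encard ≤ N →
  {T | ∃ f, f ∉ U ∧ T = D.neighborSet f ∩ (X₂ \ X₁)}.encard ≤ t →
  (Types D (X₂ \ X₁)ᶜ).encard ≤ ((N + 2 ^ N + t : ℕ) : ℕ∞)

/-- **T23.** **One component of the light graph** (uses E10 = `S_CoM`, P3 = `S_FSub`, T2, T3, T4, T5, T13, T16, T20, T21,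
T22).

Proof. `m₀` from E10 for `N = 16` and `s`; `f` from T13 for `l = 15`; `N` from T16 for `(s, m₀, f + 1)`;
`c₀ = N + 2 ^ N + 5`.  Given `B`: `E` from T20 for `(s, m₀, B + 50)`, `L` from T5 for `t = h`, `d = E`;
`n₀ = 20 h + 2 s + 20 + L + 1`.
(1) `¬ IsIndMinor (KCo s F0) Dᶜ` by P3 and `Excl s D`.  `¬ CoM D m₀` by E10 with the proper 2-colouring
`![false, true, false, true, false, true, false, true, false, true, false, true, false, true, false, true]` of `F0`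
(`decide`).  `n₀ ≤ |J| ≤ n`.  So `Sit s h n D a b U K`.  For `i < n` the vertices `a i`, `b i` touch only the edge `i`, so
they are in `U` (otherwise `n ≤ 1 + h`); for `i ∈ J`: `b i ∈ K` (`IsComp`).  `¬ Sp D K`: T2.
(2) Enumerate `J` by `σ`, `n' = |J|`: `a' = a ∘ σ`, `b' = b ∘ σ` is an induced matching of size `n'` in `K`, every vertex of
`K` touches at most `h` of its edges.  `r = a' 0`; T3: `Lvl D K lam r`.  By T5 (`v = r`, all indices; `L < n'`) there is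
`w = a' i ∈ K` with `¬ Nr D K E r w`; so `E < lam w` (T4, `Dn.nr_root`, `Nr.mono`).  `50 ≤ E` (see (4)), so `12 ≤ lam w`.
(3) For every `d`: by T13 there is no induced matching of size `f + 1` in the window `d, .., d + 15` of `K`; T16 gives
`X(d)`.
(4) T20: `d` with `B + 50 ≤ d`, `d + B + 50 ≤ E`.  `X₁ = X(d + 12)`, `X₂ = X(d + B + 35)`.  `X₁ ⊆ X₂`: `v ∈ X₁` satisfies
`lam v < d + 27 ≤ d + B + 35`.  `Z = X₂ \ X₁`: for `z ∈ Z`: `d + 12 < lam z < d + B + 50`.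
(5) T21 with `F` = the set of the `f ∉ U` with a neighbour in `K`, `e = d + B + 50`: at most four traces on `Z`.  The other
`f ∉ U` have the trace `∅`.  T22 with `t = 5`: `(Types D Zᶜ).encard ≤ c₀`.
(6) `X = Zᶜ`.  Let `p` be a down path of `w` (T4).  For `d + 27 ≤ j ≤ d + B + 35` (`≤ lam w`): `p j ∈ X₂`, `p j ∉ X₁`; these are
at least `B` different vertices of `Z = Xᶜ`.  For `j ≤ d + 12`: `p j ∈ X₁`, so `p j ∉ Z`: at least `B` different vertices of
`X`. -/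
def S_TT1 : Prop := ∀ s h : ℕ, ∃ c₀ : ℕ, ∀ B : ℕ, ∃ n₀ : ℕ, ∀ (n : ℕ) (V : Type) [Finite V]
  (D : SimpleGraph V) (a b : ℕ → V) (U K : Set V) (J : Finset ℕ), TriFree D → Excl s D →
  IM D n a b → (∀ v, v ∈ U → (Jt D n a b v).card ≤ h) →
  (∀ v, v ∉ U → n ≤ (Jt D n a b v).card + h) → IsComp D U K → (∀ i ∈ J, i < n ∧ a i ∈ K) →
  n₀ ≤ J.card → ∃ X : Set V, (Types D X).encard ≤ c₀ ∧ B ≤ X.ncard ∧ B ≤ Xᶜ.ncard

end Pool.Agent.MPd439b2.W
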