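import Pool.Agent.Lib.MP_d439b2_co.W.SpecT

/-!
# MP_d439b2_co, W, T12: no three far vertices on similar levels (helper28)
-/

set_option autoImplicit false

namespace Pool.Agent.MPd439b2.W

open Pool.Agent.MPd439b2

theorem arm3 (h1 : S_DnP) (h2 : S_PairD) (h3 : S_NoArm) : S_Arm3 := by
  intro V D K lam r l x ht hs hl hx hlev hfar
  have h4 : ∀ i, ∃ p, i < 3 → Dn D K lam (x i) p := by
    intro i
    by_cases hi : i < 3
    · obtain ⟨p, hp⟩ := h1 V D K lam r hl (x i) (hx i hi).1
      exact ⟨p, fun _ => hp⟩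
    · exact ⟨fun _ => r, fun h => absurd h hi⟩
  choose p hp using h4
  refine h3 V D K lam r x p ht hs hl (fun i hi => ⟨(hx i hi).2, hp i hi⟩) ?_
  intro i hi i' hi' hii
  exact h2 V D K lam r (x i) (x i') (p i) (p i') l ht hs hl (hp i hi) (hp i' hi')
    (hlev i hi i' hi') (hlev i' hi' i hi) (hfar i hi i' hi' hii)

end Pool.Agent.MPd439b2.W
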