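import Pool.Agent.Lib.MP_d439b2_co.W.SpecT

/-!
# MP_d439b2_co, W, T10: nothing is attached to the middle of an induced path
-/

set_option autoImplicit false

namespace Pool.Agent.MPd439b2.W

open Pool.Agent.MPd439b2

theorem att : S_Att := by
  intro V D K m q t₀ t₁ t₂ ht hS hq hK h₀ h₁ h₂ h01 h12 hn hmid i₀ hi₀ ha₀
  classical
  set S : Finset ℕ := (Finset.range (m + 1)).filter (fun i => D.Adj t₀ (q i)) with hSdef
  have hmem : ∀ i, i ∈ S ↔ i ≤ m ∧ D.Adj t₀ (q i) := by
    intro i
    rw [hSdef, Finset.mem_filter, Finset.mem_range, Nat.lt_succ_iff]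
  have hne : S.Nonempty := ⟨i₀, (hmem i₀).2 ⟨hi₀, ha₀⟩⟩
  set i := S.min' hne with hi
  set j := S.max' hne with hj
  obtain ⟨him, hia⟩ := (hmem i).1 (S.min'_mem hne)
  obtain ⟨hjm, hja⟩ := (hmem j).1 (S.max'_mem hne)
  have hlo : ∀ k ≤ m, D.Adj t₀ (q k) → i ≤ k := fun k h1 h2 => S.min'_le k ((hmem k).2 ⟨h1, h2⟩)
  have hup : ∀ k ≤ m, D.Adj t₀ (q k) → k ≤ j := fun k h1 h2 => S.le_max' k ((hmem k).2 ⟨h1, h2⟩)
  obtain ⟨hi3, hi3'⟩ := hmid i him hia
  obtain ⟨hj3, hj3'⟩ := hmid j hjm hja
  have hij : i ≤ j := hlo j hjm hja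
  apply hS
  have ea : ∀ a b : ℕ, a ≤ m → b ≤ m → (a + 1 = b ∨ b + 1 = a) → D.Adj (q a) (q b) :=
    fun a b h1 h2 h3 => (hq.adj a h1 b h2).2 h3
  have n0 : ∀ k ≤ m, k < i → ¬ D.Adj t₀ (q k) := fun k h1 h2 h3 => by
    have := hlo k h1 h3
    omega
  have n0' : ∀ k ≤ m, j < k → ¬ D.Adj t₀ (q k) := fun k h1 h2 h3 => by
    have := hup k h1 h3
    omega
  rcases Nat.eq_or_lt_of_le hij with h | h
  · refine Spd.sp (c := q i) (x₁ := q (i - 1)) (x₂ := q (i - 2)) (y₁ := q (i + 1)) (y₂ := q (i + 2))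
      (z₁ := t₀) (z₂ := t₁) (z₃ := t₂) ht ?_ (hK _ him) (hK _ (by omega)) (hK _ (by omega))
      (hK _ (by omega)) (hK _ (by omega)) h₀ h₁ h₂
    exact
      { cx := ea _ _ (by omega) (by omega) (by omega)
        xx := ea _ _ (by omega) (by omega) (by omega)
        cy := ea _ _ (by omega) (by omega) (by omega)
        yy := ea _ _ (by omega) (by omega) (by omega)
        cz := hia.symm
        zz := h01
        zw := h12
        ncz3 := fun h3 => (hn i him).2 h3.symm
        nx1y2 := hq.nadj (by omega) (by omega) (by omega) (by omega)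
        nx1z2 := fun h3 => (hn _ (by omega)).1 h3.symm
        nx1z3 := fun h3 => (hn _ (by omega)).2 h3.symm
        nx2y1 := hq.nadj (by omega) (by omega) (by omega) (by omega)
        nx2y2 := hq.nadj (by omega) (by omega) (by omega) (by omega)
        nx2z1 := fun h3 => n0 _ (by omega) (by omega) h3.symm
        nx2z2 := fun h3 => (hn _ (by omega)).1 h3.symm
        nx2z3 := fun h3 => (hn _ (by omega)).2 h3.symm
        ny1z2 := fun h3 => (hn _ (by omega)).1 h3.symm
        ny1z3 := fun h3 => (hn _ (by omega)).2 h3.symm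
        ny2z1 := fun h3 => n0' _ (by omega) (by omega) h3.symm
        ny2z2 := fun h3 => (hn _ (by omega)).1 h3.symm
        ny2z3 := fun h3 => (hn _ (by omega)).2 h3.symm }
  · refine Spd.sp (c := t₀) (x₁ := q j) (x₂ := q (j + 1)) (y₁ := t₁) (y₂ := t₂)
      (z₁ := q i) (z₂ := q (i - 1)) (z₃ := q (i - 2)) ht ?_ h₀ (hK _ hjm) (hK _ (by omega)) h₁ h₂
      (hK _ him) (hK _ (by omega)) (hK _ (by omega))
    exact
      { cx := hja
        xx := ea _ _ (by omega) (by omega) (by omega)
        cy := h01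
        yy := h12
        cz := hia
        zz := ea _ _ (by omega) (by omega) (by omega)
        zw := ea _ _ (by omega) (by omega) (by omega)
        ncz3 := n0 _ (by omega) (by omega)
        nx1y2 := fun h3 => (hn _ hjm).2 h3.symm
        nx1z2 := hq.nadj (by omega) (by omega) (by omega) (by omega)
        nx1z3 := hq.nadj (by omega) (by omega) (by omega) (by omega)
        nx2y1 := fun h3 => (hn _ (by omega)).1 h3.symm
        nx2y2 := fun h3 => (hn _ (by omega)).2 h3.symm
        nx2z1 := hq.nadj (by omega) (by omega) (by omega) (by omega)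
        nx2z2 := hq.nadj (by omega) (by omega) (by omega) (by omega)
        nx2z3 := hq.nadj (by omega) (by omega) (by omega) (by omega)
        ny1z2 := (hn _ (by omega)).1
        ny1z3 := (hn _ (by omega)).1
        ny2z1 := (hn _ him).2
        ny2z2 := (hn _ (by omega)).2
        ny2z3 := (hn _ (by omega)).2 }

end Pool.Agent.MPd439b2.W
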