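import Pool.Agent.Lib.MP_d439b2_co.W.SpecT

/-!
# MP_d439b2_co, W: T5, balls contain boundedly many edges of an induced matching
-/

set_option autoImplicit false

namespace Pool.Agent.MPd439b2.W

open Pool.Agent.MPd439b2

namespace BallAux

variable {V : Type} {D : SimpleGraph V} {K : Set V}

/-- the rest of a walk -/
theorem tail {m j : ℕ} {p : ℕ → V} (hj : j ≤ m) (hp : ∀ j ≤ m, p j ∈ K)
    (ha : ∀ j < m, D.Adj (p j) (p (j + 1))) : Nr D K (m - j) (p j) (p m) := by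
  refine ⟨m - j, le_rfl, fun t => p (j + t), rfl, ?_, fun t ht => hp _ (by omega), fun t ht => ?_⟩
  · show p (j + (m - j)) = p m
    rw [Nat.add_sub_cancel' hj]
  · have h1 := ha (j + t) (by omega)
    rw [Nat.add_assoc] at h1
    exact h1

/-- the three vertices of a leg -/
theorem exY {d : ℕ} (hd : 1 ≤ d) {v e ω : V} (hω : ω ∈ K) (hadj : D.Adj e ω)
    (h : Nr D K (d + 1) v e) (h0 : ¬ Nr D K d v e) (h0' : ¬ Nr D K d v ω) :
    ∃ y₁ y₂ y₃ : V, y₁ ∈ K ∧ y₂ ∈ K ∧ y₃ ∈ K ∧ D.Adj v y₁ ∧ D.Adj y₁ y₂ ∧ D.Adj y₂ y₃ ∧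
      ¬ D.Adj v y₃ ∧ Nr D K (d - 1) y₂ e ∧ (Nr D K (d - 1) y₃ e ∨ Nr D K (d - 1) y₃ ω) := by
  obtain ⟨m, hm, p, p0, pm, hp, ha⟩ := h
  have hmd : m = d + 1 := by
    by_contra hne
    exact h0 ⟨m, by omega, p, p0, pm, hp, ha⟩
  subst hmd
  have hv : v ∈ K := by
    rw [← p0]
    exact hp 0 (Nat.zero_le _)
  have a0 : D.Adj v (p 1) := by
    have h1 := ha 0 (by omega)
    rw [p0] at h1
    exact h1
  have a1 : D.Adj (p 1) (p 2) := ha 1 (by omega)
  have n2 : Nr D K (d - 1) (p 2) e := by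
    have h1 := tail (j := 2) (by omega) hp ha
    rw [pm] at h1
    exact h1.mono (by omega)
  by_cases h2 : 2 ≤ d
  · refine ⟨p 1, p 2, p 3, hp 1 (by omega), hp 2 (by omega), hp 3 (by omega), a0, a1,
      ha 2 (by omega), ?_, n2, Or.inl ?_⟩
    · intro h3
      apply h0
      have h4 := tail (j := 3) (by omega) hp ha
      rw [pm] at h4
      exact ((Nr.of_adj hv (hp 3 (by omega)) h3).trans h4).mono (by omega)
    · have h4 := tail (j := 3) (by omega) hp ha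
      rw [pm] at h4
      exact h4.mono (by omega)
  · have hd1 : d = 1 := by omega
    subst hd1
    have h3 : D.Adj (p 2) ω := by
      have h4 : p 2 = e := pm
      rw [h4]
      exact hadj
    refine ⟨p 1, p 2, ω, hp 1 (by omega), hp 2 (by omega), hω, a0, a1, h3, ?_, n2,
      Or.inr (Nr.refl hω _)⟩
    exact fun h4 => h0' (Nr.of_adj hv hω h4)

/-- the base case -/
theorem base {t n : ℕ} {a b : ℕ → V} (hM : IM D n a b)
    (hJ : ∀ v ∈ K, (Jt D n a b v).card ≤ t) {v : V} (hv : v ∈ K) {J : Finset ℕ}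
    (h : ∀ i ∈ J, i < n ∧ (Nr D K 1 v (a i) ∨ Nr D K 1 v (b i))) : J.card ≤ t := by
  refine le_trans (Finset.card_le_card fun i hi => ?_) (hJ v hv)
  obtain ⟨h1, h2⟩ := h i hi
  rw [mem_Jt]
  refine ⟨h1, ?_⟩
  have key : ∀ w : V, Nr D K 1 v w → v = w ∨ D.Adj v w := by
    rintro w ⟨m, hm, p, p0, pm, hp, ha⟩
    rcases Nat.eq_zero_or_pos m with h3 | h3
    · left
      rw [← p0, ← pm, h3]
    · right
      have h4 : m = 1 := by omega
      subst h4
      rw [← p0, ← pm]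
      exact ha 0 (by omega)
  rcases h2 with h2 | h2
  · rcases key _ h2 with h3 | h3
    · right
      rw [h3]
      exact hM.edge h1
    · exact Or.inl h3
  · rcases key _ h2 with h3 | h3
    · left
      rw [h3]
      exact (hM.edge h1).symm
    · exact Or.inr h3

/-- the step -/
theorem step (hDig : S_Dig) {t d L : ℕ} (hd : 1 ≤ d)
    (ih : ∀ (V : Type) (D : SimpleGraph V) (K : Set V) (n : ℕ)
      (a b : ℕ → V), TriFree D → ¬ Sp D K → IM D n a b → (∀ i < n, a i ∈ K ∧ b i ∈ K) →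
      (∀ v ∈ K, (Jt D n a b v).card ≤ t) → ∀ v ∈ K, ∀ J : Finset ℕ,
      (∀ i ∈ J, i < n ∧ (Nr D K d v (a i) ∨ Nr D K d v (b i))) → J.card ≤ L)
    (V : Type) (D : SimpleGraph V) (K : Set V) (n : ℕ)
      (a b : ℕ → V) (hT : TriFree D) (hS : ¬ Sp D K) (hM : IM D n a b)
      (hab : ∀ i < n, a i ∈ K ∧ b i ∈ K) (hJt : ∀ v ∈ K, (Jt D n a b v).card ≤ t) (v : V)
      (hv : v ∈ K) (J : Finset ℕ)
      (hJ : ∀ i ∈ J, i < n ∧ (Nr D K (d + 1) v (a i) ∨ Nr D K (d + 1) v (b i))) :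
      J.card ≤ 19 * L + 3 := by
  classical
  set J₀ := J.filter fun i => Nr D K d v (a i) ∨ Nr D K d v (b i) with hJ₀
  set I := J.filter fun i => ¬ (Nr D K d v (a i) ∨ Nr D K d v (b i)) with hI
  have hcard : J₀.card + I.card = J.card := Finset.card_filter_add_card_filter_not _
  have h0 : J₀.card ≤ L := by
    refine ih V D K n a b hT hS hM hab hJt v hv J₀ fun i hi => ?_
    rw [hJ₀, Finset.mem_filter] at hi
    exact ⟨(hJ i hi.1).1, hi.2⟩
  have hex : ∀ i ∈ I, ∃ y₁ y₂ y₃ : V, y₁ ∈ K ∧ y₂ ∈ K ∧ y₃ ∈ K ∧ D.Adj v y₁ ∧ D.Adj y₁ y₂ ∧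
      D.Adj y₂ y₃ ∧ ¬ D.Adj v y₃ ∧ (Nr D K (d - 1) y₂ (a i) ∨ Nr D K (d - 1) y₂ (b i)) ∧
      (Nr D K (d - 1) y₃ (a i) ∨ Nr D K (d - 1) y₃ (b i)) := by
    intro i hi
    rw [hI, Finset.mem_filter] at hi
    obtain ⟨hi1, hi2⟩ := hi
    push Not at hi2
    obtain ⟨hn, h1⟩ := hJ i hi1
    rcases h1 with h1 | h1
    · obtain ⟨y₁, y₂, y₃, e1, e2, e3, e4, e5, e6, e7, e8, e9⟩ :=
        exY hd (hab i hn).2 (hM.edge hn) h1 hi2.1 hi2.2
      exact ⟨y₁, y₂, y₃, e1, e2, e3, e4, e5, e6, e7, Or.inl e8, e9⟩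
    · obtain ⟨y₁, y₂, y₃, e1, e2, e3, e4, e5, e6, e7, e8, e9⟩ :=
        exY hd (hab i hn).1 (hM.edge hn).symm h1 hi2.2 hi2.1
      exact ⟨y₁, y₂, y₃, e1, e2, e3, e4, e5, e6, e7, Or.inr e8, e9.symm⟩
  have hne : Nonempty V := ⟨v⟩
  choose! y₁ y₂ y₃ e1 e2 e3 e4 e5 e6 e7 e8 e9 using hex
  -- the relation
  set Q : V → ℕ → Prop := fun u j => D.Adj u (y₂ j) ∨ D.Adj u (y₃ j) with hQ
  set R : ℕ → ℕ → Prop := fun i j => Q (y₁ i) j ∨ Q (y₂ i) j ∨ Q (y₃ i) j with hR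
  have hIn : ∀ i ∈ I, i < n := by
    intro i hi
    rw [hI, Finset.mem_filter] at hi
    exact (hJ i hi.1).1
  have hQL : ∀ u ∈ K, ∀ J' ⊆ I, (∀ j ∈ J', Q u j) → J'.card ≤ L := by
    intro u hu J' hJ' hq
    refine ih V D K n a b hT hS hM hab hJt u hu J' fun j hj => ⟨hIn j (hJ' hj), ?_⟩
    have hj' := hJ' hj
    rcases hq j hj with h1 | h1
    · rcases e8 j hj' with h2 | h2
      · exact Or.inl (((Nr.of_adj hu (e2 j hj') h1).trans h2).mono (by omega))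
      · exact Or.inr (((Nr.of_adj hu (e2 j hj') h1).trans h2).mono (by omega))
    · rcases e9 j hj' with h2 | h2
      · exact Or.inl (((Nr.of_adj hu (e3 j hj') h1).trans h2).mono (by omega))
      · exact Or.inr (((Nr.of_adj hu (e3 j hj') h1).trans h2).mono (by omega))
  have hRL : ∀ i ∈ I, ∀ J' ⊆ I, (∀ j ∈ J', j ≠ i ∧ R i j) → J'.card ≤ 3 * L := by
    intro i hi J' hJ' hr
    have h1 : J' ⊆ (J'.filter fun j => Q (y₁ i) j) ∪ (J'.filter fun j => Q (y₂ i) j) ∪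
        (J'.filter fun j => Q (y₃ i) j) := by
      intro j hj
      rcases (hr j hj).2 with h2 | h2 | h2
      · exact Finset.mem_union_left _ (Finset.mem_union_left _ (Finset.mem_filter.mpr ⟨hj, h2⟩))
      · exact Finset.mem_union_left _ (Finset.mem_union_right _ (Finset.mem_filter.mpr ⟨hj, h2⟩))
      · exact Finset.mem_union_right _ (Finset.mem_filter.mpr ⟨hj, h2⟩)
    have h2 := Finset.card_le_card h1
    have h3 := Finset.card_union_le ((J'.filter fun j => Q (y₁ i) j) ∪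
      (J'.filter fun j => Q (y₂ i) j)) (J'.filter fun j => Q (y₃ i) j)
    have h4 := Finset.card_union_le (J'.filter fun j => Q (y₁ i) j)
      (J'.filter fun j => Q (y₂ i) j)
    have k1 := hQL (y₁ i) (e1 i hi) (J'.filter fun j => Q (y₁ i) j)
      ((Finset.filter_subset _ _).trans hJ') fun j hj => (Finset.mem_filter.mp hj).2
    have k2 := hQL (y₂ i) (e2 i hi) (J'.filter fun j => Q (y₂ i) j)
      ((Finset.filter_subset _ _).trans hJ') fun j hj => (Finset.mem_filter.mp hj).2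
    have k3 := hQL (y₃ i) (e3 i hi) (J'.filter fun j => Q (y₃ i) j)
      ((Finset.filter_subset _ _).trans hJ') fun j hj => (Finset.mem_filter.mp hj).2
    omega
  by_contra hcon
  have hbig : (2 * (3 * L) + 1) * 3 ≤ I.card := by omega
  obtain ⟨J', hJ', hc, hno⟩ := hDig (3 * L) 3 I R hRL hbig
  obtain ⟨i, j, k, hij, hik, hjk, rfl⟩ := Finset.card_eq_three.mp hc
  have hi : i ∈ I := hJ' (by simp)
  have hj : j ∈ I := hJ' (by simp)
  have hk : k ∈ I := hJ' (by simp)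
  have no : ∀ p ∈ ({i, j, k} : Finset ℕ), ∀ q ∈ ({i, j, k} : Finset ℕ), p ≠ q →
      (¬ D.Adj (y₁ p) (y₂ q) ∧ ¬ D.Adj (y₁ p) (y₃ q)) ∧
      (¬ D.Adj (y₂ p) (y₂ q) ∧ ¬ D.Adj (y₂ p) (y₃ q)) := by
    intro p hp q hq hpq
    have h1 := hno p hp q hq hpq
    exact ⟨⟨fun h => h1 (Or.inl (Or.inl h)), fun h => h1 (Or.inl (Or.inr h))⟩,
      fun h => h1 (Or.inr (Or.inl (Or.inl h))), fun h => h1 (Or.inr (Or.inl (Or.inr h)))⟩
  have nij := no i (by simp) j (by simp) hij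
  have nji := no j (by simp) i (by simp) hij.symm
  have nik := no i (by simp) k (by simp) hik
  have nki := no k (by simp) i (by simp) hik.symm
  have njk := no j (by simp) k (by simp) hjk
  have nkj := no k (by simp) j (by simp) hjk.symm
  apply hS
  have hspd : Spd D v (y₁ i) (y₂ i) (y₁ j) (y₂ j) (y₁ k) (y₂ k) (y₃ k) := {
    cx := e4 i hi
    xx := e5 i hi
    cy := e4 j hj
    yy := e5 j hj
    cz := e4 k hk
    zz := e5 k hk
    zw := e6 k hk
    ncz3 := e7 k hk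
    nx1y2 := nij.1.1
    nx1z2 := nik.1.1
    nx1z3 := nik.1.2
    nx2y1 := fun h => nji.1.1 h.symm
    nx2y2 := nij.2.1
    nx2z1 := fun h => nki.1.1 h.symm
    nx2z2 := nik.2.1
    nx2z3 := nik.2.2
    ny1z2 := njk.1.1
    ny1z3 := njk.1.2
    ny2z1 := fun h => nkj.1.1 h.symm
    ny2z2 := njk.2.1
    ny2z3 := njk.2.2 }
  exact hspd.sp hT hv (e1 i hi) (e2 i hi) (e1 j hj) (e2 j hj) (e1 k hk) (e2 k hk) (e3 k hk)

end BallAux

theorem ball (hDig : S_Dig) : S_Ball := by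
  intro t d
  induction d with
  | zero =>
    refine ⟨t, fun V D K n a b _ _ hM _ hJ v hv J h => BallAux.base hM hJ hv fun i hi => ?_⟩
    obtain ⟨h1, h2⟩ := h i hi
    exact ⟨h1, h2.imp (fun h => h.mono (Nat.zero_le _)) (fun h => h.mono (Nat.zero_le _))⟩
  | succ d ih =>
    rcases Nat.eq_zero_or_pos d with rfl | hd
    · exact ⟨t, fun V D K n a b _ _ hM _ hJ v hv J h => BallAux.base hM hJ hv h⟩
    · obtain ⟨L, hL⟩ := ih
      exact ⟨19 * L + 3, BallAux.step hDig hd hL⟩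

end Pool.Agent.MPd439b2.W
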