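import Pool.Agent.Lib.MP_d439b2_co.W.SpecT

/-!
# MP_d439b2_co, W, T22: the types of a band
-/

set_option autoImplicit false

namespace Pool.Agent.MPd439b2.W

open Pool.Agent.MPd439b2

private theorem band_pow {α : Type} [Finite α] {s : Set α} {N : ℕ} (h : s.encard ≤ N) :
    (𝒫 s).encard ≤ ((2 ^ N : ℕ) : ℕ∞) := by
  classical
  have : Fintype α := Fintype.ofFinite α
  have h1 : s.encard = (s.toFinset.card : ℕ∞) := by
    rw [Set.encard_eq_coe_toFinset_card]
  rw [h1, Nat.cast_le] at h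
  have h2 : 𝒫 s = ((s.toFinset.powerset.image fun t : Finset α => (t : Set α)) : Set (Set α)) := by
    ext t
    simp only [Set.mem_powerset_iff, Finset.coe_image, Set.mem_image, Finset.mem_coe,
      Finset.mem_powerset]
    constructor
    · intro ht
      exact ⟨t.toFinset, Set.toFinset_subset_toFinset.2 ht, by simp⟩
    · rintro ⟨t', ht', rfl⟩
      intro x hx
      have := ht' hx
      simpa using this
  rw [h2, Set.encard_coe_eq_coe_finsetCard, Nat.cast_le]
  refine Finset.card_image_le.trans ?_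
  rw [Finset.card_powerset]
  exact Nat.pow_le_pow_right (by norm_num) h

theorem band : S_Band := by
  intro N t V _ D U K X₁ X₂ hK h12 h2K hN1 hN2 ht
  obtain ⟨_, hKU, hcl⟩ := hK
  set Z : Set V := X₂ \ X₁ with hZ
  have hsub : Types D Zᶜ ⊆ (fun S : Set V => S ∩ X₂) '' TyIn D K X₁ ∪
      (fun A : Set (Set V) => {x | x ∈ Z ∧ (D.neighborSet x ∩ K) \ X₂ ∈ A}) '' 𝒫 (TyIn D K X₂) ∪
      {T | ∃ f, f ∉ U ∧ T = D.neighborSet f ∩ Z} := by
    rintro T ⟨⟨z, hz⟩, u, hu, rfl⟩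
    have hzz : z ∈ Z := by
      by_contra h
      exact hz.2 h
    have hT : D.neighborSet u \ Zᶜ = D.neighborSet u ∩ Z := by
      ext x
      simp
    rw [hT]
    by_cases hu1 : u ∈ X₁
    · left; left
      refine ⟨(D.neighborSet u ∩ K) \ X₁, ⟨⟨z, ⟨hz.1, h2K hzz.1⟩, hzz.2⟩, u, hu1, rfl⟩, ?_⟩
      ext x
      constructor
      · rintro ⟨⟨⟨h1, h2⟩, h3⟩, h4⟩
        exact ⟨h1, h4, h3⟩
      · rintro ⟨h1, h2, h3⟩
        exact ⟨⟨⟨h1, h2K h2⟩, h3⟩, h2⟩
    · have hu2 : u ∉ X₂ := fun h => hu ⟨h, hu1⟩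
      by_cases huK : u ∈ K
      · left; right
        refine ⟨{S | S ∈ TyIn D K X₂ ∧ u ∈ S}, fun S hS => hS.1, ?_⟩
        ext x
        constructor
        · rintro ⟨h1, h2, h3⟩
          exact ⟨SimpleGraph.Adj.symm h3.1.1, h1⟩
        · rintro ⟨h1, h2⟩
          have h3 : u ∈ (D.neighborSet x ∩ K) \ X₂ := ⟨⟨SimpleGraph.Adj.symm h1, huK⟩, hu2⟩
          exact ⟨h2, ⟨⟨u, h3⟩, x, h2.1, rfl⟩, h3⟩
      · right
        refine ⟨u, fun huU => huK ?_, rfl⟩
        exact hcl z (h2K hzz.1) u huU (SimpleGraph.Adj.symm hz.1)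
  refine (Set.encard_le_encard hsub).trans ?_
  refine (Set.encard_union_le _ _).trans ?_
  refine (add_le_add ((Set.encard_union_le _ _).trans (add_le_add
    ((Set.encard_image_le _ _).trans hN1) ((Set.encard_image_le _ _).trans (band_pow hN2)))) ht).trans ?_
  push_cast
  exact le_rfl

end Pool.Agent.MPd439b2.W
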