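import Pool.Agent.Lib.MP_d439b2_co.W.SpecT

/-!
# MP_d439b2_co, W: breadth first search levels (`S_Bfs`)
-/

set_option autoImplicit false

namespace Pool.Agent.MPd439b2.W

open Pool.Agent.MPd439b2

theorem bfs : S_Bfs := by
  classical
  intro V D K r hK hr
  have hex : ∀ v ∈ K, ∃ m, Nr D K m r v := by
    have h1 : {v | v ∈ K ∧ ∃ m, Nr D K m r v} = K := by
      refine Conn.eq_of_nb hK (fun v hv => hv.1) (C := {v | v ∈ K ∧ ∃ m, Nr D K m r v})
        ⟨r, hr, 0, Nr.refl hr 0⟩ ?_
      rintro v hv ⟨h1, b, hb, hbv⟩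
      obtain ⟨m, hm⟩ := hb.2
      exact h1 ⟨hv, m + 1, hm.trans (Nr.of_adj hb.1 hv hbv)⟩
    intro v hv
    rw [← h1] at hv
    exact hv.2
  let lam : V → ℕ := fun v => if h : ∃ m, Nr D K m r v then Nat.find h else 0
  have hl : ∀ v ∈ K, Nr D K (lam v) r v := by
    intro v hv
    have h := hex v hv
    have e : lam v = Nat.find h := by
      simp only [lam]
      rw [dif_pos h]
    rw [e]
    exact Nat.find_spec h
  have hmin : ∀ v m, Nr D K m r v → lam v ≤ m := by
    intro v m hm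
    have h : ∃ m, Nr D K m r v := ⟨m, hm⟩
    have e : lam v = Nat.find h := by
      simp only [lam]
      rw [dif_pos h]
    rw [e]
    exact Nat.find_min' h hm
  refine ⟨lam, hr, ?_, ?_, ?_⟩
  · exact Nat.le_zero.mp (hmin r 0 (Nr.refl hr 0))
  · intro v hv hvr
    obtain ⟨m, hm, p, h0, h1, h2, h3⟩ := hl v hv
    have hm' : lam v ≤ m := hmin v m ⟨m, le_rfl, p, h0, h1, h2, h3⟩
    have hm0 : m ≠ 0 := by
      rintro rfl
      exact hvr (h1.symm.trans h0)
    have hu : Nr D K (m - 1) r (p (m - 1)) :=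
      ⟨m - 1, le_rfl, p, h0, rfl, fun j hj => h2 j (by omega), fun j hj => h3 j (by omega)⟩
    have huK : p (m - 1) ∈ K := h2 _ (by omega)
    have huv : D.Adj (p (m - 1)) v := by
      have h4 := h3 (m - 1) (by omega)
      have h5 : m - 1 + 1 = m := by omega
      rw [h5, h1] at h4
      exact h4
    refine ⟨p (m - 1), huK, huv.symm, ?_⟩
    have h6 := hmin _ _ hu
    have h7 := hmin v (lam (p (m - 1)) + 1) ((hl _ huK).trans (Nr.of_adj huK hv huv))
    omega
  · intro u hu v hv huv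
    exact hmin u (lam v + 1) ((hl v hv).trans (Nr.of_adj hv hu huv.symm))

end Pool.Agent.MPd439b2.W
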