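import Pool.Agent.Lib.MP_d439b2_co.W.SpecT

/-!
# MP_d439b2_co, W, T16: cuts of `K`
-/

set_option autoImplicit false

namespace Pool.Agent.MPd439b2.W

open Pool.Agent.MPd439b2

theorem cutK (h1 : S_OSep) (h2 : S_ExcI) (h3 : S_WidS) : S_CutK := by
  intro s m₀ f
  obtain ⟨w, hw⟩ := h3 s m₀ f
  obtain ⟨N, hN⟩ := h1 w s
  refine ⟨N, fun V _ D K lam d ht hE hC hlam hIM => ?_⟩
  let Wd : Set V := {v | v ∈ K ∧ d ≤ lam v ∧ lam v ≤ d + 15}
  obtain ⟨t1, t2, t3⟩ := h2 s m₀ V D Wd ht hE hC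
  have hwid : WidP (Cl (D.induce Wd)) w := by
    refine hw Wd (D.induce Wd) t1 t2 t3 fun a b hab => ?_
    refine hIM (fun i => (a i).1) (fun i => (b i).1) hab fun i _ => ?_
    exact ⟨(a i).2, (b i).2⟩
  obtain ⟨X', hX1, hX2, hX3⟩ := hN Wd (D.induce Wd) (fun v => lam v.1) d (d + 15) t1 hwid t2
    (fun u v huv => hlam u.1 u.2.1 v.1 v.2.1 huv) le_rfl
  refine ⟨{v | v ∈ K ∧ lam v ≤ d} ∪ Subtype.val '' X', ?_, ?_, ?_, ?_⟩
  · rintro v (h | ⟨v, _, rfl⟩)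
    · exact h.1
    · exact v.2.1
  · intro v hv hd
    exact Or.inl ⟨hv, hd⟩
  · rintro v (h | ⟨v, hv, rfl⟩)
    · have := h.2
      omega
    · by_contra hcon
      exact hX2 v (not_lt.1 hcon) hv
  · have hsub : TyIn D K ({v | v ∈ K ∧ lam v ≤ d} ∪ Subtype.val '' X') ⊆
        (fun T : Set Wd => Subtype.val '' T) '' Types (D.induce Wd) X' := by
      rintro T ⟨⟨z, hz⟩, u, hu, rfl⟩
      have hlow : ∀ z ∈ (D.neighborSet u ∩ K) \ ({v | v ∈ K ∧ lam v ≤ d} ∪ Subtype.val '' X'),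
          d < lam z := by
        rintro z ⟨⟨_, h2⟩, h3⟩
        by_contra hcon
        exact h3 (Or.inl ⟨h2, not_lt.1 hcon⟩)
      have huK : u ∈ K := by
        rcases hu with h | ⟨u, _, rfl⟩
        · exact h.1
        · exact u.2.1
      have huX : ∃ u' : Wd, u'.1 = u ∧ u' ∈ X' := by
        rcases hu with h | ⟨u', hu', rfl⟩
        · have e1 := hlow z hz
          have e2 := hlam z hz.1.2 u huK (SimpleGraph.Adj.symm hz.1.1)
          have h5 : u ∈ K ∧ lam u ≤ d := h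
          have e3 : lam u = d := by omega
          exact ⟨⟨u, huK, by omega, by omega⟩, rfl, hX1 _ h5.2⟩
        · exact ⟨u', rfl, hu'⟩
      obtain ⟨u', rfl, hu'⟩ := huX
      have hlt : lam u'.1 < d + 15 := by
        by_contra hcon
        exact hX2 u' (not_lt.1 hcon) hu'
      have hmem : ∀ z ∈ (D.neighborSet u'.1 ∩ K) \
          ({v | v ∈ K ∧ lam v ≤ d} ∪ Subtype.val '' X'), z ∈ Wd := by
        intro z hz
        have e1 := hlow z hz
        have e2 := hlam z hz.1.2 u'.1 huK (SimpleGraph.Adj.symm hz.1.1)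
        exact ⟨hz.1.2, by omega, by omega⟩
      refine ⟨(D.induce Wd).neighborSet u' \ X', ⟨⟨⟨z, hmem z hz⟩, hz.1.1, fun h => hz.2
        (Or.inr ⟨_, h, rfl⟩)⟩, u', hu', rfl⟩, ?_⟩
      ext x
      constructor
      · rintro ⟨x, ⟨h4, h5⟩, rfl⟩
        refine ⟨⟨h4, x.2.1⟩, ?_⟩
        rintro (h6 | ⟨x', hx', h6⟩)
        · exact h5 (hX1 x h6.2)
        · rw [Subtype.ext h6] at hx'
          exact h5 hx'
      · intro hx
        exact ⟨⟨x, hmem x hx⟩, ⟨hx.1.1, fun h => hx.2 (Or.inr ⟨_, h, rfl⟩)⟩, rfl⟩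
    exact (Set.encard_le_encard hsub).trans ((Set.encard_image_le _ _).trans hX3)

end Pool.Agent.MPd439b2.W
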