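import Pool.Agent.Lib.MP_d439b2_co.W.SpecT

/-!
# MP_d439b2_co, W: boundedly many null edges (T18)
-/

set_option autoImplicit false

namespace Pool.Agent.MPd439b2.W

open Pool.Agent.MPd439b2

namespace Dirt56

variable {V : Type} {D : SimpleGraph V} {n : ℕ} {a b : ℕ → V} {K : Set V}

theorem enum (S : Finset ℕ) (m : ℕ) (h : m ≤ S.card) : ∃ σ : ℕ → ℕ, (∀ i < m, σ i ∈ S) ∧
    ∀ i < m, ∀ j < m, σ i = σ j → i = j := by
  refine ⟨fun i => if hi : i < S.card then S.orderEmbOfFin rfl ⟨i, hi⟩ else 0, fun i hi => ?_,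
    fun i hi j hj hij => ?_⟩
  · dsimp only
    rw [dif_pos (by omega)]
    exact S.orderEmbOfFin_mem rfl _
  · dsimp only at hij
    rw [dif_pos (by omega), dif_pos (by omega)] at hij
    exact congrArg Fin.val ((S.orderEmbOfFin rfl).injective hij)

/-- `w` does not touch the edge `k` -/
def NT (D : SimpleGraph V) (a b : ℕ → V) (w : V) (k : ℕ) : Prop :=
  ¬ D.Adj w (a k) ∧ ¬ D.Adj w (b k)

/-- `x`, `x'` are the ends of the edge `k` -/
def En (a b : ℕ → V) (k : ℕ) (x x' : V) : Prop :=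
  (x = a k ∧ x' = b k) ∨ (x = b k ∧ x' = a k)

theorem nt_of {w : V} {k : ℕ} (hk : k < n) (h : k ∉ Jt D n a b w) : NT D a b w k := by
  rw [mem_Jt] at h
  constructor
  · exact fun h1 => h ⟨hk, Or.inl h1⟩
  · exact fun h1 => h ⟨hk, Or.inr h1⟩

theorem en_exists {w : V} {k : ℕ} (h : k ∈ Jt D n a b w) :
    ∃ x x', En a b k x x' ∧ D.Adj w x := by
  rw [mem_Jt] at h
  rcases h.2 with h1 | h1
  · exact ⟨a k, b k, Or.inl ⟨rfl, rfl⟩, h1⟩
  · exact ⟨b k, a k, Or.inr ⟨rfl, rfl⟩, h1⟩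

theorem En.adj {k : ℕ} {x x' : V} (h : En a b k x x') (him : IM D n a b) (hk : k < n) :
    D.Adj x x' := by
  rcases h with ⟨rfl, rfl⟩ | ⟨rfl, rfl⟩
  · exact him.edge hk
  · exact (him.edge hk).symm

theorem En.nt {k : ℕ} {x x' w : V} (h : En a b k x x') (hw : NT D a b w k) :
    ¬ D.Adj x w ∧ ¬ D.Adj x' w := by
  rcases h with ⟨rfl, rfl⟩ | ⟨rfl, rfl⟩
  · exact ⟨fun h1 => hw.1 h1.symm, fun h1 => hw.2 h1.symm⟩
  · exact ⟨fun h1 => hw.2 h1.symm, fun h1 => hw.1 h1.symm⟩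

theorem En.cross {k k' : ℕ} {x x' y y' : V} (h : En a b k x x') (h' : En a b k' y y')
    (him : IM D n a b) (hk : k < n) (hk' : k' < n) (hne : k ≠ k') :
    ¬ D.Adj x y ∧ ¬ D.Adj x y' ∧ ¬ D.Adj x' y ∧ ¬ D.Adj x' y' := by
  have e1 : ¬ D.Adj (a k) (b k') := fun h1 => hne ((him k hk k' hk').1.1 h1)
  have e2 : ¬ D.Adj (b k) (a k') := fun h1 => hne ((him k' hk' k hk).1.1 h1.symm).symm
  have e3 := (him k hk k' hk').2.1
  have e4 := (him k hk k' hk').2.2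
  rcases h with ⟨rfl, rfl⟩ | ⟨rfl, rfl⟩ <;> rcases h' with ⟨rfl, rfl⟩ | ⟨rfl, rfl⟩
  · exact ⟨e3, e1, e2, e4⟩
  · exact ⟨e1, e3, e4, e2⟩
  · exact ⟨e2, e4, e3, e1⟩
  · exact ⟨e4, e2, e1, e3⟩

theorem En.ne {k k' : ℕ} {x x' : V} (h : En a b k x x') (him : IM D n a b) (hk : k < n)
    (hk' : k' < n) (hne : k ≠ k') : a k' ≠ x ∧ a k' ≠ x' ∧ b k' ≠ x ∧ b k' ≠ x' := by
  have e1 : a k' ≠ a k := fun h1 => hne (him.inj_a hk' hk h1).symm
  have e2 : a k' ≠ b k := him.ne_ab hk' hk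
  have e3 : b k' ≠ a k := (him.ne_ab hk hk').symm
  have e4 : b k' ≠ b k := fun h1 => hne (him.inj_b hk' hk h1).symm
  rcases h with ⟨rfl, rfl⟩ | ⟨rfl, rfl⟩
  · exact ⟨e1, e2, e3, e4⟩
  · exact ⟨e2, e1, e4, e3⟩

theorem nt_ne {k : ℕ} {w : V} (him : IM D n a b) (hk : k < n) (hw : NT D a b w k) :
    a k ≠ w ∧ b k ≠ w := by
  constructor
  · rintro rfl
    exact hw.2 (him.edge hk)
  · rintro rfl
    exact hw.1 (him.edge hk).symm

/-- a vertex of the matching touches only one edge -/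
theorem not_end {f : V} (him : IM D n a b) (h2 : 2 ≤ (Jt D n a b f).card) {k : ℕ} (hk : k < n) :
    a k ≠ f ∧ b k ≠ f := by
  have key : ∀ g : V, (∀ i < n, (D.Adj g (a i) ∨ D.Adj g (b i)) → i = k) →
      (Jt D n a b g).card ≤ 1 := by
    intro g hg
    have h3 : Jt D n a b g ⊆ {k} := by
      intro i hi
      rw [mem_Jt] at hi
      rw [Finset.mem_singleton]
      exact hg i hi.1 hi.2
    exact (Finset.card_le_card h3).trans (by simp)
  constructor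
  · rintro rfl
    have h4 := key (a k) (fun i hi h => by
      rcases h with h | h
      · exact absurd h (him k hk i hi).2.1
      · exact ((him k hk i hi).1.1 h).symm)
    omega
  · rintro rfl
    have h4 := key (b k) (fun i hi h => by
      rcases h with h | h
      · exact (him i hi k hk).1.1 h.symm
      · exact absurd h (him k hk i hi).2.2)
    omega

/-- levels of an edge near `z` -/
theorem near {lam : V → ℕ} {r z p q : V} (hl : Lvl D K lam r) (hz : z ∈ K) (hp : p ∈ K)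
    (hq : q ∈ K) (hpq : D.Adj p q) (h : D.Adj z p ∨ D.Adj z q) :
    lam z ≤ lam p + 2 ∧ lam p ≤ lam z + 2 := by
  have h1 := hl.slow' hp hq hpq
  rcases h with h | h
  · have h2 := hl.slow' hz hp h
    omega
  · have h2 := hl.slow' hz hq h
    omega

end Dirt56

open Dirt56

theorem dirt (h1 : S_F0I) (h2 : S_Leg3) : S_Dirt := by
  classical
  intro s h n V D a b U K lam r f p q hS hl hfU hfK hpq hlev
  have hKU : K ⊆ U := hS.comp.2.1
  have him := hS.im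
  have hbig := hS.big
  obtain ⟨hp0, hq0, hpq0, hfp0, hfq0⟩ := hpq 0 (by omega)
  obtain ⟨z₀, hz₀, z₁, hz₁, z₂, hz₂, hfz, h01, h12, hfz1, hfz2⟩ :=
    h2 V D K f (p 0) (q 0) hS.comp.1 hfK hp0 hq0 hpq0 hfp0 hfq0
  have l01 := hl.slow' hz₀ hz₁ h01
  have l12 := hl.slow' hz₁ hz₂ h12
  -- hit indices
  let hit : ℕ → Prop := fun i => D.Adj z₀ (p i) ∨ D.Adj z₀ (q i) ∨ D.Adj z₁ (p i) ∨
    D.Adj z₁ (q i) ∨ D.Adj z₂ (p i) ∨ D.Adj z₂ (q i)
  have hhit : ∀ i < 6, hit i → lam z₁ ≤ lam (p i) + 3 ∧ lam (p i) ≤ lam z₁ + 3 := by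
    intro i hi hh
    obtain ⟨hp, hq, hpq', _, _⟩ := hpq i hi
    have e0 : D.Adj z₀ (p i) ∨ D.Adj z₀ (q i) → lam z₀ ≤ lam (p i) + 2 ∧ lam (p i) ≤ lam z₀ + 2 :=
      near hl hz₀ hp hq hpq'
    have e1 : D.Adj z₁ (p i) ∨ D.Adj z₁ (q i) → lam z₁ ≤ lam (p i) + 2 ∧ lam (p i) ≤ lam z₁ + 2 :=
      near hl hz₁ hp hq hpq'
    have e2 : D.Adj z₂ (p i) ∨ D.Adj z₂ (q i) → lam z₂ ≤ lam (p i) + 2 ∧ lam (p i) ≤ lam z₂ + 2 :=
      near hl hz₂ hp hq hpq'
    rcases hh with hh | hh | hh | hh | hh | hh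
    · have := e0 (Or.inl hh); omega
    · have := e0 (Or.inr hh); omega
    · have := e1 (Or.inl hh); omega
    · have := e1 (Or.inr hh); omega
    · have := e2 (Or.inl hh); omega
    · have := e2 (Or.inr hh); omega
  have hHcard : ((Finset.range 6).filter hit).card ≤ 2 := by
    by_contra hcon
    push Not at hcon
    obtain ⟨σ, hσ, hinj⟩ := enum ((Finset.range 6).filter hit) 3 hcon
    have m0 := Finset.mem_filter.1 (hσ 0 (by omega))
    have m1 := Finset.mem_filter.1 (hσ 1 (by omega))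
    have m2 := Finset.mem_filter.1 (hσ 2 (by omega))
    rw [Finset.mem_range] at m0 m1 m2
    have n01 : σ 0 ≠ σ 1 := fun h => absurd (hinj 0 (by omega) 1 (by omega) h) (by omega)
    have n02 : σ 0 ≠ σ 2 := fun h => absurd (hinj 0 (by omega) 2 (by omega) h) (by omega)
    have n12 : σ 1 ≠ σ 2 := fun h => absurd (hinj 1 (by omega) 2 (by omega) h) (by omega)
    have b0 := hhit _ m0.1 m0.2
    have b1 := hhit _ m1.1 m1.2
    have b2 := hhit _ m2.1 m2.2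
    have key : ∀ i < 6, ∀ j < 6, i ≠ j → lam (p i) + 6 ≤ lam (p j) ∨ lam (p j) + 6 ≤ lam (p i) := by
      intro i hi j hj hij
      rcases lt_or_gt_of_ne hij with h3 | h3
      · exact Or.inl (hlev j hj i h3)
      · exact Or.inr (hlev i hi j h3)
    have c0 := key _ m0.1 _ m1.1 n01
    have c1 := key _ m0.1 _ m2.1 n02
    have c2 := key _ m1.1 _ m2.1 n12
    omega
  have hNcard : 4 ≤ ((Finset.range 6).filter (fun i => ¬ hit i)).card := by
    have h3 := Finset.card_filter_add_card_filter_not (s := Finset.range 6) hit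
    rw [Finset.card_range] at h3
    omega
  obtain ⟨ι, hι, hιinj⟩ := enum _ 4 hNcard
  have hι6 : ∀ j < 4, ι j < 6 := fun j hj => Finset.mem_range.1 (Finset.mem_filter.1 (hι j hj)).1
  have hιn : ∀ j < 4, ¬ hit (ι j) := fun j hj => (Finset.mem_filter.1 (hι j hj)).2
  set P : ℕ → V := fun j => p (ι j) with hP
  set Q : ℕ → V := fun j => q (ι j) with hQ
  have hPK : ∀ j < 4, P j ∈ K := fun j hj => (hpq _ (hι6 j hj)).1
  have hQK : ∀ j < 4, Q j ∈ K := fun j hj => (hpq _ (hι6 j hj)).2.1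
  have hPQ : ∀ j < 4, D.Adj (P j) (Q j) := fun j hj => (hpq _ (hι6 j hj)).2.2.1
  have hfP : ∀ j < 4, ¬ D.Adj f (P j) := fun j hj => (hpq _ (hι6 j hj)).2.2.2.1
  have hfQ : ∀ j < 4, ¬ D.Adj f (Q j) := fun j hj => (hpq _ (hι6 j hj)).2.2.2.2
  have hIMPQ : IM D 4 P Q := by
    intro i hi j hj
    by_cases hij : i = j
    · subst hij
      exact ⟨iff_of_true (hPQ i hi) rfl, fun h3 => h3.ne rfl, fun h3 => h3.ne rfl⟩
    · have hne : ι i ≠ ι j := fun h3 => hij (hιinj i hi j hj h3)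
      have hd : lam (P i) + 6 ≤ lam (P j) ∨ lam (P j) + 6 ≤ lam (P i) := by
        rcases lt_or_gt_of_ne hne with h3 | h3
        · exact Or.inl (hlev _ (hι6 j hj) _ h3)
        · exact Or.inr (hlev _ (hι6 i hi) _ h3)
      have s1 := hl.slow' (hPK i hi) (hQK i hi) (hPQ i hi)
      have s2 := hl.slow' (hPK j hj) (hQK j hj) (hPQ j hj)
      refine ⟨iff_of_false ?_ hij, ?_, ?_⟩
      · exact hl.nadj (hPK i hi) (hQK j hj) (by omega)
      · exact hl.nadj (hPK i hi) (hPK j hj) (by omega)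
      · exact hl.nadj (hQK i hi) (hQK j hj) (by omega)
  -- the free edges
  obtain ⟨good, hgood⟩ : ∃ good : ℕ → Prop, ∀ k, good k ↔ (k ∉ Jt D n a b z₀ ∧
      k ∉ Jt D n a b z₁ ∧ k ∉ Jt D n a b z₂ ∧
        ∀ j < 4, k ∉ Jt D n a b (P j) ∧ k ∉ Jt D n a b (Q j)) := ⟨_, fun _ => Iff.rfl⟩
  set G : Finset ℕ := (Jt D n a b f).filter good with hG
  have hGc : 2 * s + 2 ≤ G.card := by
    have hcov : Jt D n a b f ⊆ G ∪ (Jt D n a b z₀ ∪ (Jt D n a b z₁ ∪ (Jt D n a b z₂ ∪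
        (Finset.range 4).biUnion (fun j => Jt D n a b (P j) ∪ Jt D n a b (Q j))))) := by
      intro k hk
      by_contra hcon
      simp only [Finset.mem_union, Finset.mem_biUnion, Finset.mem_range, not_or, not_exists,
        not_and] at hcon
      obtain ⟨c1, c2, c3, c4, c5⟩ := hcon
      exact c1 (Finset.mem_filter.2 ⟨hk, (hgood k).2 ⟨c2, c3, c4, fun j hj => c5 j hj⟩⟩)
    have b0 := hS.full f hfU
    have b1 := Finset.card_le_card hcov
    have b2 := hS.light z₀ (hKU hz₀)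
    have b3 := hS.light z₁ (hKU hz₁)
    have b4 := hS.light z₂ (hKU hz₂)
    have b5 : ((Finset.range 4).biUnion (fun j => Jt D n a b (P j) ∪ Jt D n a b (Q j))).card ≤
        4 * (2 * h) := by
      have b6 := Finset.card_biUnion_le_card_mul (Finset.range 4)
        (fun j => Jt D n a b (P j) ∪ Jt D n a b (Q j)) (2 * h) (fun j hj => by
          rw [Finset.mem_range] at hj
          refine (Finset.card_union_le _ _).trans ?_
          have c1 := hS.light _ (hKU (hPK j hj))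
          have c2 := hS.light _ (hKU (hQK j hj))
          omega)
      rwa [Finset.card_range] at b6
    have u1 := Finset.card_union_le G (Jt D n a b z₀ ∪ (Jt D n a b z₁ ∪ (Jt D n a b z₂ ∪
        (Finset.range 4).biUnion (fun j => Jt D n a b (P j) ∪ Jt D n a b (Q j)))))
    have u2 := Finset.card_union_le (Jt D n a b z₀) (Jt D n a b z₁ ∪ (Jt D n a b z₂ ∪
        (Finset.range 4).biUnion (fun j => Jt D n a b (P j) ∪ Jt D n a b (Q j))))
    have u3 := Finset.card_union_le (Jt D n a b z₁) (Jt D n a b z₂ ∪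
        (Finset.range 4).biUnion (fun j => Jt D n a b (P j) ∪ Jt D n a b (Q j)))
    have u4 := Finset.card_union_le (Jt D n a b z₂)
        ((Finset.range 4).biUnion (fun j => Jt D n a b (P j) ∪ Jt D n a b (Q j)))
    omega
  obtain ⟨σ, hσ, hσinj⟩ := enum G (2 * s + 2) hGc
  have hσf : ∀ i < 2 * s + 2, σ i ∈ Jt D n a b f := fun i hi => (Finset.mem_filter.1 (hσ i hi)).1
  have hσn : ∀ i < 2 * s + 2, σ i < n := fun i hi => (mem_Jt.1 (hσf i hi)).1
  have t0 : ∀ i < 2 * s + 2, NT D a b z₀ (σ i) := fun i hi =>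
    nt_of (hσn i hi) ((hgood _).1 (Finset.mem_filter.1 (hσ i hi)).2).1
  have t1 : ∀ i < 2 * s + 2, NT D a b z₁ (σ i) := fun i hi =>
    nt_of (hσn i hi) ((hgood _).1 (Finset.mem_filter.1 (hσ i hi)).2).2.1
  have t2 : ∀ i < 2 * s + 2, NT D a b z₂ (σ i) := fun i hi =>
    nt_of (hσn i hi) ((hgood _).1 (Finset.mem_filter.1 (hσ i hi)).2).2.2.1
  have tP : ∀ i < 2 * s + 2, ∀ j < 4, NT D a b (P j) (σ i) := fun i hi j hj =>
    nt_of (hσn i hi) (((hgood _).1 (Finset.mem_filter.1 (hσ i hi)).2).2.2.2 j hj).1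
  have tQ : ∀ i < 2 * s + 2, ∀ j < 4, NT D a b (Q j) (σ i) := fun i hi j hj =>
    nt_of (hσn i hi) (((hgood _).1 (Finset.mem_filter.1 (hσ i hi)).2).2.2.2 j hj).2
  have hJ2 : 2 ≤ (Jt D n a b f).card := by
    have : G.card ≤ (Jt D n a b f).card := Finset.card_filter_le _ _
    omega
  have i0 : 0 < 2 * s + 2 := by omega
  have i1 : 1 < 2 * s + 2 := by omega
  have hne01 : σ 0 ≠ σ 1 := fun h3 => absurd (hσinj 0 i0 1 i1 h3) (by omega)
  obtain ⟨x₁, x₂, hEx, hfx⟩ := en_exists (hσf 0 i0)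
  obtain ⟨y₁, y₂, hEy, hfy⟩ := en_exists (hσf 1 i1)
  have cr := hEx.cross hEy him (hσn 0 i0) (hσn 1 i1) hne01
  have x0 := hEx.nt (t0 0 i0)
  have x1 := hEx.nt (t1 0 i0)
  have x2 := hEx.nt (t2 0 i0)
  have y0 := hEy.nt (t0 1 i1)
  have y1 := hEy.nt (t1 1 i1)
  have y2 := hEy.nt (t2 1 i1)
  have hSpd : Spd D f x₁ x₂ y₁ y₂ z₀ z₁ z₂ :=
    { cx := hfx
      xx := hEx.adj him (hσn 0 i0)
      cy := hfy
      yy := hEy.adj him (hσn 1 i1)
      cz := hfz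
      zz := h01
      zw := h12
      ncz3 := hfz2
      nx1y2 := cr.2.1
      nx1z2 := x1.1
      nx1z3 := x2.1
      nx2y1 := cr.2.2.1
      nx2y2 := cr.2.2.2
      nx2z1 := x0.2
      nx2z2 := x1.2
      nx2z3 := x2.2
      ny1z2 := y1.1
      ny1z3 := y2.1
      ny2z1 := y0.2
      ny2z2 := y1.2
      ny2z3 := y2.2 }
  refine hS.noF (h1 s V D ![f, x₁, x₂, y₁, y₂, z₀, z₁, z₂] P Q (fun j => a (σ (j + 2)))
    (fun j => b (σ (j + 2))) hS.tri (hSpd.ind hS.tri) hIMPQ ?_ ?_ ?_)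
  · intro i j hj
    have eP : ∀ k, ¬ hit k → ¬ D.Adj z₀ (p k) ∧ ¬ D.Adj z₀ (q k) ∧ ¬ D.Adj z₁ (p k) ∧
        ¬ D.Adj z₁ (q k) ∧ ¬ D.Adj z₂ (p k) ∧ ¬ D.Adj z₂ (q k) := by
      intro k hk
      simp only [hit, not_or] at hk
      exact hk
    obtain ⟨g1, g2, g3, g4, g5, g6⟩ := eP _ (hιn j hj)
    have a1 := hEx.nt (tP 0 i0 j hj)
    have a2 := hEx.nt (tQ 0 i0 j hj)
    have a3 := hEy.nt (tP 1 i1 j hj)
    have a4 := hEy.nt (tQ 1 i1 j hj)
    fin_cases i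
    · exact ⟨hfP j hj, hfQ j hj⟩
    · exact ⟨a1.1, a2.1⟩
    · exact ⟨a1.2, a2.2⟩
    · exact ⟨a3.1, a4.1⟩
    · exact ⟨a3.2, a4.2⟩
    · exact ⟨g1, g2⟩
    · exact ⟨g3, g4⟩
    · exact ⟨g5, g6⟩
  · refine him.comp (fun j => σ (j + 2)) (fun j hj => hσn _ (by omega)) (fun i hi j hj h3 => ?_)
    have h4 := hσinj (i + 2) (by omega) (j + 2) (by omega) h3
    omega
  · intro k hk
    have hk2 : k + 2 < 2 * s + 2 := by omega
    have hkn := hσn _ hk2
    have n0 : σ 0 ≠ σ (k + 2) := fun h3 => absurd (hσinj 0 i0 _ hk2 h3) (by omega)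
    have n1 : σ 1 ≠ σ (k + 2) := fun h3 => absurd (hσinj 1 i1 _ hk2 h3) (by omega)
    have ex := hEx.ne him (hσn 0 i0) hkn n0
    have ey := hEy.ne him (hσn 1 i1) hkn n1
    have e0 := nt_ne him hkn (t0 _ hk2)
    have e1 := nt_ne him hkn (t1 _ hk2)
    have e2 := nt_ne him hkn (t2 _ hk2)
    have ef := not_end him hJ2 hkn
    refine ⟨fun i => ?_, fun j hj => ?_⟩
    · fin_cases i
      · exact ef
      · exact ⟨ex.1, ex.2.2.1⟩
      · exact ⟨ex.2.1, ex.2.2.2⟩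
      · exact ⟨ey.1, ey.2.2.1⟩
      · exact ⟨ey.2.1, ey.2.2.2⟩
      · exact e0
      · exact e1
      · exact e2
    · have c1 := nt_ne him hkn (tP _ hk2 j hj)
      have c2 := nt_ne him hkn (tQ _ hk2 j hj)
      exact ⟨c1.1, c2.1, c1.2, c2.2⟩

end Pool.Agent.MPd439b2.W
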