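import Pool.Agent.Lib.MP_d439b2_co.W.SpecT

/-!
# MP_d439b2_co, W: down paths (helper18)
-/

set_option autoImplicit false

namespace Pool.Agent.MPd439b2.W

open Pool.Agent.MPd439b2

theorem dnP : S_DnP := by
  intro V D K lam r hL
  have key : ∀ m : ℕ, ∀ v ∈ K, lam v = m → ∃ p, Dn D K lam v p := by
    intro m
    induction m with
    | zero =>
      intro v hv hm
      exact ⟨fun _ => v, rfl, fun _ _ => hv, fun j hj => by omega, fun j hj => by omega⟩
    | succ k ih =>
      intro v hv hm
      have hvr : v ≠ r := by
        rintro rfl
        have := hL.zero
        omega
      obtain ⟨u, hu, hvu, hlu⟩ := hL.par v hv hvr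
      have hk : lam u = k := by omega
      obtain ⟨p, hp⟩ := ih u hu hk
      refine ⟨fun j => if j ≤ k then p j else v, ?_, ?_, ?_, ?_⟩
      · show (if lam v ≤ k then p (lam v) else v) = v
        rw [if_neg (by omega)]
      · intro j hj
        show (if j ≤ k then p j else v) ∈ K
        split_ifs with h
        · exact hp.mem j (by omega)
        · exact hv
      · intro j hj
        show lam (if j ≤ k then p j else v) = j
        split_ifs with h
        · exact hp.lev j (by omega)
        · omega
      · intro j hj
        show D.Adj (if j + 1 ≤ k then p (j + 1) else v) (if j ≤ k then p j else v)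
        rw [if_pos (by omega : j ≤ k)]
        split_ifs with h
        · exact hp.adj j (by omega)
        · have hjk : j = lam u := by omega
          rw [hjk, hp.top]
          exact hvu
  exact fun v hv => key _ v hv rfl

end Pool.Agent.MPd439b2.W
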