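import Pool.Agent.Lib.MP_d439b2_co.W.SpecT

/-!
# MP_d439b2_co, W, T14: induced subgraphs
-/

set_option autoImplicit false

namespace Pool.Agent.MPd439b2.W

open Pool.Agent.MPd439b2

namespace ExcIAux

theorem adj_co {V : Type} {D : SimpleGraph V} {Y : Set V} (u v : Y) :
    (D.induce Y)ᶜ.Adj u v ↔ Dᶜ.Adj u.1 v.1 := by
  rw [SimpleGraph.compl_adj, SimpleGraph.compl_adj]
  have h1 : u ≠ v ↔ u.1 ≠ v.1 := by rw [Ne, Ne, Subtype.ext_iff]
  rw [h1]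
  exact Iff.rfl

theorem conn_img {V : Type} {D : SimpleGraph V} {Y : Set V} {A : Set Y}
    (h : Conn (D.induce Y)ᶜ A) : Conn Dᶜ (Subtype.val '' A) := by
  refine ⟨h.1.image _, ?_⟩
  intro B hB1 hB2 hB3
  have hsub : {u : Y | u.1 ∈ B} ⊆ A := by
    intro u hu
    obtain ⟨u', h1, h2⟩ := hB1 hu
    rwa [← Subtype.ext h2]
  obtain ⟨b, hb, a, ha, hab⟩ := h.2 {u : Y | u.1 ∈ B} hsub (by
    obtain ⟨x, hx⟩ := hB2
    obtain ⟨u, _, h2⟩ := hB1 hx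
    refine ⟨u, ?_⟩
    rw [Set.mem_ofPred_eq, h2]
    exact hx) (by
    intro he
    apply hB3
    refine Set.Subset.antisymm hB1 ?_
    rintro _ ⟨u, hu, rfl⟩
    rw [← he] at hu
    exact hu)
  refine ⟨b.1, hb, a.1, ⟨⟨a, ha.1, rfl⟩, ha.2⟩, (adj_co b a).1 hab⟩

theorem minor {ι : Type} {H : SimpleGraph ι} {V : Type} {D : SimpleGraph V} {Y : Set V}
    (h : IsIndMinor H (D.induce Y)ᶜ) : IsIndMinor H Dᶜ := by
  rw [← ims_univ_iff] at h ⊢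
  obtain ⟨B, _, h2, h3, h4⟩ := h
  refine ⟨fun w => Subtype.val '' B w, fun w => Set.subset_univ _, fun w => conn_img (h2 w),
    ?_, ?_⟩
  · intro w w' hw
    rw [Set.disjoint_left]
    rintro _ ⟨u, hu, rfl⟩ ⟨u', hu', he⟩
    rw [Subtype.ext he] at hu'
    exact Set.disjoint_left.1 (h3 w w' hw) hu hu'
  · intro w w' hw
    rw [h4 w w' hw]
    constructor
    · rintro ⟨a, ha, b, hb, hab⟩
      exact ⟨a.1, ⟨a, ha, rfl⟩, b.1, ⟨b, hb, rfl⟩, (adj_co a b).1 hab⟩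
    · rintro ⟨_, ⟨a, ha, rfl⟩, _, ⟨b, hb, rfl⟩, hab⟩
      exact ⟨a, ha, b, hb, (adj_co a b).2 hab⟩

end ExcIAux

theorem excI : S_ExcI := by
  intro s m₀ V D Y hT hE hC
  refine ⟨?_, ?_, ?_⟩
  · intro x y z h1 h2
    exact hT x.1 y.1 z.1 h1 h2
  · rcases hE with h | h | h
    · exact Or.inl (fun h' => h (ExcIAux.minor h'))
    · exact Or.inr (Or.inl (fun h' => h (ExcIAux.minor h')))
    · exact Or.inr (Or.inr (fun h' => h (ExcIAux.minor h')))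
  · rintro ⟨a, b, hab⟩
    exact hC ⟨fun i => (a i).1, fun i => (b i).1, hab⟩

end Pool.Agent.MPd439b2.W
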