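import Pool.Agent.Lib.MP_d439b2_co.W.SpecT
import Pool.Agent.Lib.MP_d439b2_co.W.Mod

/-!
# MP_d439b2_co, W, T1: models of `KCo s F0`
-/

set_option autoImplicit false

namespace Pool.Agent.MPd439b2.W

open Pool.Agent.MPd439b2

namespace f0IAux

theorem d1 : ∀ i j : Fin 16, ∀ (hi : i.val < 8) (hj : j.val < 8),
    (F0.Adj i j ↔ S223.Adj ⟨i.val, hi⟩ ⟨j.val, hj⟩) := by
  unfold F0
  decide

theorem d2 : ∀ i j : Fin 16, i.val < 8 → 8 ≤ j.val → ¬ F0.Adj i j := by
  unfold F0
  decide

theorem d3 : ∀ i j : Fin 16, 8 ≤ i.val → 8 ≤ j.val →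
    (F0.Adj i j ↔ i.val / 2 = j.val / 2 ∧ i.val ≠ j.val) := by
  unfold F0
  decide

variable {V : Type}

/-- the sixteen vertices -/
def g (u : Fin 8 → V) (p q : ℕ → V) (i : Fin 16) : V :=
  if h : i.val < 8 then u ⟨i.val, h⟩ else
    if i.val % 2 = 0 then p (i.val / 2 - 4) else q (i.val / 2 - 4)

theorem g_lt {u : Fin 8 → V} {p q : ℕ → V} {i : Fin 16} (h : i.val < 8) :
    g u p q i = u ⟨i.val, h⟩ := dif_pos h

theorem g_ev {u : Fin 8 → V} {p q : ℕ → V} {i : Fin 16} (h : 8 ≤ i.val) (h2 : i.val % 2 = 0) :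
    g u p q i = p (i.val / 2 - 4) := by
  unfold g
  rw [dif_neg (by omega), if_pos h2]

theorem g_od {u : Fin 8 → V} {p q : ℕ → V} {i : Fin 16} (h : 8 ≤ i.val) (h2 : ¬ i.val % 2 = 0) :
    g u p q i = q (i.val / 2 - 4) := by
  unfold g
  rw [dif_neg (by omega), if_neg h2]

/-- every vertex is some `u i`, `p j` or `q j` -/
theorem g_cases (u : Fin 8 → V) (p q : ℕ → V) (i : Fin 16) :
    (∃ j, g u p q i = u j) ∨ ∃ j < 4, g u p q i = p j ∨ g u p q i = q j := by
  by_cases h : i.val < 8
  · exact Or.inl ⟨_, g_lt h⟩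
  · have := i.isLt
    right
    refine ⟨i.val / 2 - 4, by omega, ?_⟩
    by_cases h2 : i.val % 2 = 0
    · exact Or.inl (g_ev (by omega) h2)
    · exact Or.inr (g_od (by omega) h2)

theorem g_adj {D : SimpleGraph V} {u : Fin 8 → V} {p q : ℕ → V}
    (hu : ∀ i j, D.Adj (u i) (u j) ↔ S223.Adj i j) (hM : IM D 4 p q)
    (hn : ∀ i, ∀ j < 4, ¬ D.Adj (u i) (p j) ∧ ¬ D.Adj (u i) (q j)) (i j : Fin 16) :
    D.Adj (g u p q i) (g u p q j) ↔ F0.Adj i j := by
  have hi := i.isLt
  have hj := j.isLt
  have key : ∀ i j : Fin 16, i.val < 8 → 8 ≤ j.val →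
      (D.Adj (g u p q i) (g u p q j) ↔ F0.Adj i j) := by
    intro i j hi8 hj8
    have hj := j.isLt
    refine iff_of_false ?_ (d2 i j hi8 hj8)
    have h1 := hn ⟨i.val, hi8⟩ (j.val / 2 - 4) (by omega)
    rw [g_lt hi8]
    by_cases h2 : j.val % 2 = 0
    · rw [g_ev hj8 h2]
      exact h1.1
    · rw [g_od hj8 h2]
      exact h1.2
  by_cases hi8 : i.val < 8
  · by_cases hj8 : j.val < 8
    · rw [g_lt hi8, g_lt hj8, hu, d1 i j hi8 hj8]
    · exact key i j hi8 (by omega)
  · by_cases hj8 : j.val < 8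
    · rw [D.adj_comm, F0.adj_comm]
      exact key j i hj8 (by omega)
    · rw [d3 i j (by omega) (by omega)]
      have h1 := hM (i.val / 2 - 4) (by omega) (j.val / 2 - 4) (by omega)
      have h1' := hM (j.val / 2 - 4) (by omega) (i.val / 2 - 4) (by omega)
      by_cases hi2 : i.val % 2 = 0
      · by_cases hj2 : j.val % 2 = 0
        · rw [g_ev (by omega) hi2, g_ev (by omega) hj2]
          exact iff_of_false h1.2.1 (fun h => h.2 (by omega))
        · rw [g_ev (by omega) hi2, g_od (by omega) hj2, h1.1]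
          constructor
          · intro h
            exact ⟨by omega, by omega⟩
          · rintro ⟨h, _⟩
            omega
      · by_cases hj2 : j.val % 2 = 0
        · rw [g_od (by omega) hi2, g_ev (by omega) hj2, D.adj_comm, h1'.1]
          constructor
          · intro h
            exact ⟨by omega, by omega⟩
          · rintro ⟨h, _⟩
            omega
        · rw [g_od (by omega) hi2, g_od (by omega) hj2]
          exact iff_of_false h1.2.2 (fun h => h.2 (by omega))

theorem g_inj {D : SimpleGraph V} {u : Fin 8 → V} {p q : ℕ → V}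
    (hu : ∀ i j, D.Adj (u i) (u j) ↔ S223.Adj i j) (hM : IM D 4 p q)
    (hn : ∀ i, ∀ j < 4, ¬ D.Adj (u i) (p j) ∧ ¬ D.Adj (u i) (q j)) {i j : Fin 16} (hij : i ≠ j) :
    g u p q i ≠ g u p q j := by
  have hi := i.isLt
  have hj := j.isLt
  have hv : i.val ≠ j.val := fun h => hij (Fin.ext h)
  have key : ∀ i j : Fin 16, i.val < 8 → 8 ≤ j.val → g u p q i ≠ g u p q j := by
    intro i j hi8 hj8
    have hj := j.isLt
    have h1 := hn ⟨i.val, hi8⟩ (j.val / 2 - 4) (by omega)
    have h2 := hM.edge (i := j.val / 2 - 4) (by omega)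
    rw [g_lt hi8]
    by_cases h3 : j.val % 2 = 0
    · rw [g_ev hj8 h3]
      intro h4
      rw [h4] at h1
      exact h1.2 h2
    · rw [g_od hj8 h3]
      intro h4
      rw [h4] at h1
      exact h1.1 h2.symm
  by_cases hi8 : i.val < 8
  · by_cases hj8 : j.val < 8
    · rw [g_lt hi8, g_lt hj8]
      intro h
      have h2 : (⟨i.val, hi8⟩ : Fin 8) = ⟨j.val, hj8⟩ := inj_S223 hu h
      exact hv (Fin.mk.inj_iff.1 h2)
    · exact key i j hi8 (by omega)
  · by_cases hj8 : j.val < 8
    · exact (key j i hj8 (by omega)).symm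
    · by_cases hi2 : i.val % 2 = 0
      · by_cases hj2 : j.val % 2 = 0
        · rw [g_ev (by omega) hi2, g_ev (by omega) hj2]
          intro h
          have := hM.inj_a (by omega) (by omega) h
          omega
        · rw [g_ev (by omega) hi2, g_od (by omega) hj2]
          exact hM.ne_ab (by omega) (by omega)
      · by_cases hj2 : j.val % 2 = 0
        · rw [g_od (by omega) hi2, g_ev (by omega) hj2]
          exact (hM.ne_ab (by omega) (by omega)).symm
        · rw [g_od (by omega) hi2, g_od (by omega) hj2]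
          intro h
          have := hM.inj_b (by omega) (by omega) h
          omega

end f0IAux

open modAux f0IAux in
theorem f0I : S_F0I := by
  intro s V D u p q a b ht hu hpq hn hM hout
  rw [← ims_univ_iff]
  have hadj := g_adj hu hpq hn
  have hinj : ∀ i j, i ≠ j → g u p q i ≠ g u p q j := fun i j hij => g_inj hu hpq hn hij
  have hconn : ∀ i, Conn Dᶜ ({g u p q i} : Set V) := by
    intro i
    exact Conn.singleton Dᶜ _
  have hgg : ∀ i j, i ≠ j → Disjoint ({g u p q i} : Set V) ({g u p q j} : Set V) := by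
    intro i j hij
    rw [Set.disjoint_singleton]
    exact hinj i j hij
  have hCg : ∀ (t : Fin s) i, Disjoint (C4 a b t) ({g u p q i} : Set V) := by
    intro t i
    rw [Set.disjoint_singleton_right]
    intro hv
    obtain ⟨k, hk, hvk⟩ := mem_C4 hv
    have h1 := hout k (by have := t.2; omega)
    rcases g_cases u p q i with ⟨j, hj⟩ | ⟨j, hj4, hj⟩
    · rcases hvk with h | h
      · exact (h1.1 j).1 (h.symm.trans hj)
      · exact (h1.1 j).2 (h.symm.trans hj)
    · obtain ⟨e1, e2, e3, e4⟩ := h1.2 j hj4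
      rcases hj with hj | hj <;> rcases hvk with h | h
      · exact e1 (h.symm.trans hj)
      · exact e3 (h.symm.trans hj)
      · exact e2 (h.symm.trans hj)
      · exact e4 (h.symm.trans hj)
  have hCC : ∀ q q' : Fin s, q ≠ q' → Disjoint (C4 a b q) (C4 a b q') := by
    intro q q' hqq
    have hq := q.2
    have hq' := q'.2
    have hqq' : q.val ≠ q'.val := fun h => hqq (Fin.ext h)
    rw [Set.disjoint_left]
    intro v hv hv'
    obtain ⟨k, hk, hvk⟩ := mem_C4 hv
    obtain ⟨k', hk', hvk'⟩ := mem_C4 hv'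
    have hkk : k ≠ k' := by omega
    rcases hvk with h1 | h1 <;> rcases hvk' with h2 | h2
    · exact hkk (hM.inj_a (by omega) (by omega) (h1.symm.trans h2))
    · exact hM.ne_ab (by omega) (by omega) (h1.symm.trans h2)
    · exact hM.ne_ab (by omega) (by omega) (h2.symm.trans h1)
    · exact hkk (hM.inj_b (by omega) (by omega) (h1.symm.trans h2))
  refine ⟨fun w => match w with
    | Sum.inl t => C4 a b t
    | Sum.inr i => ({g u p q i} : Set V), fun w => Set.subset_univ _, ?_, ?_, ?_⟩
  · rintro (t | i)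
    · exact conn_C4 hM (by have := t.2; omega)
    · exact hconn i
  · rintro (t | i) (t' | i') hw
    · exact hCC t t' fun h => hw (by rw [h])
    · exact hCg t i'
    · exact (hCg t' i).symm
    · exact hgg i i' fun h => hw (by rw [h])
  · rintro (t | i) (t' | i') hw
    · have hqq : t ≠ t' := fun h => hw (by rw [h])
      refine iff_of_true hqq ?_
      exact tch_C4 ht hM (by have := t.2; omega) (conn_C4 hM (by have := t'.2; omega)).1
        (hCC t t' hqq)
    · refine iff_of_true trivial ?_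
      exact tch_C4 (q := t) ht hM (by have := t.2; omega) (Set.singleton_nonempty _) (hCg t i')
    · refine iff_of_true trivial ?_
      exact (tch_C4 (q := t') ht hM (by have := t'.2; omega) (Set.singleton_nonempty _)
        (hCg t' i)).symm
    · have hii : i ≠ i' := fun h => hw (by rw [h])
      show (i ≠ i' ∧ ¬ F0.Adj i i') ↔ Tch Dᶜ ({g u p q i} : Set V) ({g u p q i'} : Set V)
      rw [← hadj i i']
      constructor
      · rintro ⟨_, h2⟩
        refine ⟨_, rfl, _, rfl, ?_⟩
        rw [SimpleGraph.compl_adj]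
        exact ⟨hinj i i' hii, h2⟩
      · rintro ⟨x, rfl, y, rfl, hxy⟩
        rw [SimpleGraph.compl_adj] at hxy
        exact ⟨hii, hxy.2⟩

end Pool.Agent.MPd439b2.W
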