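import Pool.Agent.Lib.MP_d439b2_co.W.SpecT

/-!
# MP_d439b2_co, W, T9: a walk contains an induced path
-/

set_option autoImplicit false

namespace Pool.Agent.MPd439b2.W

open Pool.Agent.MPd439b2

namespace IndPAux

/-- walks with `k` steps from `p 0` to `p m` on the vertices of `p` -/
def Wk {V : Type} (D : SimpleGraph V) (m : ℕ) (p : ℕ → V) (k : ℕ) (q : ℕ → V) : Prop :=
  q 0 = p 0 ∧ q k = p m ∧ (∀ i < k, D.Adj (q i) (q (i + 1))) ∧ ∀ i ≤ k, ∃ j ≤ m, q i = p j

theorem cut {V : Type} {D : SimpleGraph V} {m : ℕ} {p : ℕ → V} {k : ℕ} {q : ℕ → V}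
    (h : Wk D m p k q) {i s : ℕ} (hk : i + 1 + s ≤ k) (ha : D.Adj (q i) (q (i + 1 + s))) :
    ∃ q', Wk D m p (k - s) q' := by
  obtain ⟨h0, h1, h2, h3⟩ := h
  refine ⟨fun t => if t ≤ i then q t else q (t + s), ?_, ?_, ?_, ?_⟩
  · simpa using h0
  · dsimp only
    rw [if_neg (by omega)]
    have : k - s + s = k := by omega
    rw [this, h1]
  · intro t ht
    dsimp only
    by_cases h4 : t + 1 ≤ i
    · rw [if_pos (by omega), if_pos h4]
      exact h2 t (by omega)
    · by_cases h5 : t ≤ i
      · have h6 : t = i := by omega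
        subst h6
        rw [if_pos le_rfl, if_neg (by omega)]
        exact ha
      · rw [if_neg h5, if_neg h4]
        have h6 : t + 1 + s = t + s + 1 := by omega
        rw [h6]
        exact h2 _ (by omega)
  · intro t ht
    dsimp only
    split_ifs
    · exact h3 t (by omega)
    · exact h3 _ (by omega)

end IndPAux

open IndPAux

theorem indP : S_IndP := by
  intro V D m p hp
  classical
  have hex : ∃ k, ∃ q, Wk D m p k q := ⟨m, p, rfl, rfl, hp, fun i hi => ⟨i, hi, rfl⟩⟩
  obtain ⟨q, hq⟩ := Nat.find_spec hex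
  set k := Nat.find hex with hk
  have hmin : ∀ k', k' < k → ¬ ∃ q, Wk D m p k' q := fun k' hk' => Nat.find_min hex hk'
  have hq' := hq
  obtain ⟨h0, h1, h2, h3⟩ := hq
  have hinj : ∀ i j, i < j → j ≤ k → q i ≠ q j := by
    intro i j hij hj he
    rcases Nat.lt_or_ge j k with h4 | h4
    · have h5 := cut hq' (i := i) (s := j - i) (by omega) (by
        have h6 : i + 1 + (j - i) = j + 1 := by omega
        rw [h6, he]
        exact h2 j h4)
      exact hmin _ (by omega) h5
    · have h5 : j = k := by omega
      subst h5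
      exact hmin i hij ⟨q, h0, by rw [he, h1], fun t ht => h2 t (by omega), fun t ht => h3 t (by omega)⟩
  have hadj : ∀ i j, i + 2 ≤ j → j ≤ k → ¬ D.Adj (q i) (q j) := by
    intro i j hij hj he
    have h5 := cut hq' (i := i) (s := j - i - 1) (by omega) (by
      have h6 : i + 1 + (j - i - 1) = j := by omega
      rw [h6]
      exact he)
    exact hmin _ (by omega) h5
  refine ⟨k, q, ⟨?_, ?_⟩, h0, h1, h3⟩
  · intro i hi j hj he
    rcases lt_trichotomy i j with h4 | h4 | h4
    · exact absurd he (hinj i j h4 hj)
    · exact h4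
    · exact absurd he.symm (hinj j i h4 hi)
  · intro i hi j hj
    constructor
    · intro h4
      rcases lt_trichotomy i j with h5 | h5 | h5
      · left
        by_contra h6
        exact hadj i j (by omega) hj h4
      · subst h5
        exact absurd rfl h4.ne
      · right
        by_contra h6
        exact hadj j i (by omega) hi h4.symm
    · rintro (h4 | h4)
      · subst h4
        exact h2 i (by omega)
      · subst h4
        exact (h2 j (by omega)).symm

end Pool.Agent.MPd439b2.W
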