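import Pool.Agent.Lib.MP_d439b2_co.W.SpecT

/-!
# MP_d439b2_co, W, T17: the third leg (helper28)
-/

set_option autoImplicit false

namespace Pool.Agent.MPd439b2.W

open Pool.Agent.MPd439b2

theorem leg3 : S_Leg3 := by
  intro V D K f p q hK ⟨v, hv, hfv⟩ hp hq hpq hfp hfq
  obtain ⟨z₁, ⟨hz₁, hf₁, z₂, hz₂, h12, hf₂⟩, z₀, ⟨hz₀, hn⟩, h10⟩ :=
    hK.2 {w | w ∈ K ∧ ¬ D.Adj f w ∧ ∃ w' ∈ K, D.Adj w w' ∧ ¬ D.Adj f w'} (fun w hw => hw.1)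
      ⟨p, hp, hfp, q, hq, hpq, hfq⟩ (by
        intro he
        have h1 : v ∈ {w | w ∈ K ∧ ¬ D.Adj f w ∧ ∃ w' ∈ K, D.Adj w w' ∧ ¬ D.Adj f w'} := by
          rw [he]
          exact hv
        exact h1.2.1 hfv)
  refine ⟨z₀, hz₀, z₁, hz₁, z₂, hz₂, ?_, h10.symm, h12, hf₁, hf₂⟩
  by_contra h0
  exact hn ⟨hz₀, h0, z₁, hz₁, h10.symm, hf₁⟩

end Pool.Agent.MPd439b2.W
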