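import Pool.Agent.Lib.MP_d439b2_co.W.SpecT

/-!
# MP_d439b2_co, W, T11: there are no three arms
-/

set_option autoImplicit false

namespace Pool.Agent.MPd439b2.W

open Pool.Agent.MPd439b2

namespace NoArmAux

variable {V : Type} {D : SimpleGraph V} {K : Set V} {lam : V → ℕ} {r : V}

theorem rev {m : ℕ} {q : ℕ → V} (h : IPth D m q) : IPth D m (fun i => q (m - i)) := by
  refine ⟨fun i hi j hj he => ?_, fun i hi j hj => ?_⟩
  · have := h.inj _ (by omega) _ (by omega) he
    omega
  · rw [h.adj _ (by omega) _ (by omega)]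
    omega

/-- the beginning of the induced path is the first down path -/
theorem start {q : ℕ → V} {m : ℕ} (hl : Lvl D K lam r) (hq : IPth D m q) (x y : V) (p p' : ℕ → V)
    (hp : Dn D K lam x p) (hp' : Dn D K lam y p') (hy : 12 ≤ lam y)
    (hsep : ∀ j j', 3 ≤ j → 3 ≤ j' → j ≤ lam x → j' ≤ lam y →
      p j ≠ p' j' ∧ ¬ D.Adj (p j) (p' j'))
    (h0 : q 0 = x) (hm : q m = y)
    (hall : ∀ i ≤ m, (∃ j ≤ lam x, q i = p j) ∨ (∃ j ≤ lam y, q i = p' j)) :
    ∀ i, i + 3 ≤ lam x → i ≤ m ∧ q i = p (lam x - i) := by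
  intro i
  induction i using Nat.strong_induction_on with
  | _ i ih =>
    intro hi
    rcases Nat.eq_zero_or_pos i with h1 | h1
    · subst h1
      exact ⟨Nat.zero_le _, by rw [h0, Nat.sub_zero, hp.top]⟩
    · obtain ⟨k, rfl⟩ : ∃ k, i = k + 1 := ⟨i - 1, by omega⟩
      obtain ⟨h2, h3⟩ := ih k (by omega) (by omega)
      have h4 : k ≠ m := by
        intro h4
        subst h4
        have h5 := (hsep (lam x - k) (lam y) (by omega) (by omega) (by omega) le_rfl).1
        apply h5
        rw [← h3, hm, hp'.top]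
      have h5 : k + 1 ≤ m := by omega
      refine ⟨h5, ?_⟩
      have h6 : D.Adj (q k) (q (k + 1)) := (hq.adj k h2 (k + 1) h5).2 (Or.inl rfl)
      rw [h3] at h6
      have hL : lam (p (lam x - k)) = lam x - k := hp.lev _ (by omega)
      rcases hall (k + 1) h5 with ⟨j, hj, h7⟩ | ⟨j, hj, h7⟩
      · rw [h7] at h6
        have h8 := hl.slow' (hp.mem _ (by omega)) (hp.mem _ hj) h6
        rw [hL, hp.lev j hj] at h8
        have h9 : j ≠ lam x - k := by
          rintro rfl
          exact h6.ne rfl
        have h10 : j = lam x - k - 1 ∨ j = lam x - k + 1 := by omega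
        rcases h10 with h10 | h10
        · rw [h7, h10]
          have : lam x - k - 1 = lam x - (k + 1) := by omega
          rw [this]
        · exfalso
          have h11 : 1 ≤ k := by omega
          obtain ⟨h12, h13⟩ := ih (k - 1) (by omega) (by omega)
          have h14 : lam x - (k - 1) = j := by omega
          rw [h14, ← h7] at h13
          have := hq.inj _ h12 _ h5 h13
          omega
      · exfalso
        rw [h7] at h6
        have h8 := hl.slow' (hp.mem _ (by omega)) (hp'.mem _ hj) h6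
        rw [hL, hp'.lev j hj] at h8
        exact (hsep (lam x - k) j (by omega) (by omega) (by omega) hj).2 h6

end NoArmAux

open NoArmAux

theorem noArm (h9 : S_IndP) (h10 : S_Att) : S_NoArm := by
  intro V D K lam r x p ht hS hl hx hsep
  obtain ⟨hx0, hp0⟩ := hx 0 (by omega)
  obtain ⟨hx1, hp1⟩ := hx 1 (by omega)
  obtain ⟨hx2, hp2⟩ := hx 2 (by omega)
  have hs01 := hsep 0 (by omega) 1 (by omega) (by omega)
  have hs10 := hsep 1 (by omega) 0 (by omega) (by omega)
  have hs20 := hsep 2 (by omega) 0 (by omega) (by omega)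
  have hs21 := hsep 2 (by omega) 1 (by omega) (by omega)
  have hz0 := hp0.zero hl
  have hz1 := hp1.zero hl
  have hz2 := hp2.zero hl
  -- the walk from `x 0` to `x 1`
  obtain ⟨m, q, hq, hq0, hqm, hqa⟩ := h9 V D (lam (x 0) + lam (x 1))
    (fun j => if j ≤ lam (x 0) then p 0 (lam (x 0) - j) else p 1 (j - lam (x 0))) (by
      intro j hj
      by_cases h1 : j + 1 ≤ lam (x 0)
      · rw [if_pos (by omega), if_pos h1]
        have h2 := hp0.adj (lam (x 0) - (j + 1)) (by omega)
        have h3 : lam (x 0) - (j + 1) + 1 = lam (x 0) - j := by omega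
        rwa [h3] at h2
      · by_cases h2 : j ≤ lam (x 0)
        · have h3 : j = lam (x 0) := by omega
          subst h3
          rw [if_pos le_rfl, if_neg (by omega), Nat.sub_self, hz0, ← hz1]
          have h3 : lam (x 0) + 1 - lam (x 0) = 0 + 1 := by omega
          rw [h3]
          exact (hp1.adj 0 (by omega)).symm
        · rw [if_neg h2, if_neg h1]
          have h3 : j + 1 - lam (x 0) = j - lam (x 0) + 1 := by omega
          rw [h3]
          exact (hp1.adj _ (by omega)).symm)
  have hq0' : q 0 = x 0 := by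
    rw [hq0, if_pos (Nat.zero_le _), Nat.sub_zero, hp0.top]
  have hqm' : q m = x 1 := by
    rw [hqm, if_neg (by omega)]
    have : lam (x 0) + lam (x 1) - lam (x 0) = lam (x 1) := by omega
    rw [this, hp1.top]
  have hall : ∀ i ≤ m, (∃ j ≤ lam (x 0), q i = p 0 j) ∨ (∃ j ≤ lam (x 1), q i = p 1 j) := by
    intro i hi
    obtain ⟨j, hj, h1⟩ := hqa i hi
    by_cases h2 : j ≤ lam (x 0)
    · rw [if_pos h2] at h1
      exact Or.inl ⟨_, by omega, h1⟩
    · rw [if_neg h2] at h1
      exact Or.inr ⟨_, by omega, h1⟩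
  have hst := start hl hq (x 0) (x 1) (p 0) (p 1) hp0 hp1 hx1 hs01 hq0' hqm' hall
  have hen := start hl (rev hq) (x 1) (x 0) (p 1) (p 0) hp1 hp0 hx0 hs10
    (by rw [Nat.sub_zero, hqm']) (by rw [Nat.sub_self, hq0'])
    (fun i hi => (hall (m - i) (by omega)).symm)
  have hqK : ∀ i ≤ m, q i ∈ K := by
    intro i hi
    rcases hall i hi with ⟨j, hj, h1⟩ | ⟨j, hj, h1⟩
    · rw [h1]
      exact hp0.mem j hj
    · rw [h1]
      exact hp1.mem j hj
  -- the third arm
  set w : ℕ → V := fun j => if j ≤ lam (x 2) then p 2 (lam (x 2) - j) else p 0 (j - lam (x 2))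
    with hw
  have hwK : ∀ j ≤ lam (x 2) + 2, w j ∈ K := by
    intro j hj
    simp only [hw]
    split_ifs with h1
    · exact hp2.mem _ (by omega)
    · exact hp0.mem _ (by omega)
  have hwa : ∀ j < lam (x 2) + 2, D.Adj (w j) (w (j + 1)) := by
    intro j hj
    simp only [hw]
    by_cases h1 : j + 1 ≤ lam (x 2)
    · rw [if_pos (by omega), if_pos h1]
      have h2 := hp2.adj (lam (x 2) - (j + 1)) (by omega)
      have h3 : lam (x 2) - (j + 1) + 1 = lam (x 2) - j := by omega
      rwa [h3] at h2
    · by_cases h2 : j ≤ lam (x 2)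
      · have h3 : j = lam (x 2) := by omega
        subst h3
        rw [if_pos le_rfl, if_neg (by omega), Nat.sub_self, hz2, ← hz0]
        have h3 : lam (x 2) + 1 - lam (x 2) = 0 + 1 := by omega
        rw [h3]
        exact (hp0.adj 0 (by omega)).symm
      · rw [if_neg h2, if_neg h1]
        have h3 : j + 1 - lam (x 2) = j - lam (x 2) + 1 := by omega
        rw [h3]
        exact (hp0.adj _ (by omega)).symm
  classical
  have hex : ∃ e, e ≤ lam (x 2) + 2 ∧ ∃ i ≤ m, D.Adj (w e) (q i) := by
    obtain ⟨h1, h2⟩ := hst (lam (x 0) - 3) (by omega)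
    refine ⟨lam (x 2) + 2, le_rfl, lam (x 0) - 3, h1, ?_⟩
    rw [h2]
    simp only [hw]
    rw [if_neg (by omega)]
    have h3 : lam (x 2) + 2 - lam (x 2) = 2 := by omega
    have h4 : lam (x 0) - (lam (x 0) - 3) = 2 + 1 := by omega
    rw [h3, h4]
    exact (hp0.adj 2 (by omega)).symm
  obtain ⟨he, i₀, hi₀, hadj⟩ := Nat.find_spec hex
  have hmin : ∀ e', e' < Nat.find hex → ∀ i ≤ m, ¬ D.Adj (w e') (q i) := by
    intro e' h1 i hi h2
    exact Nat.find_min hex h1 ⟨by omega, i, hi, h2⟩
  set e := Nat.find hex with hedef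
  have he3 : lam (x 2) ≤ e + 3 := by
    by_contra h1
    have h2 : w e = p 2 (lam (x 2) - e) := by
      simp only [hw]
      rw [if_pos (by omega)]
    rw [h2] at hadj
    have hL : lam (p 2 (lam (x 2) - e)) = lam (x 2) - e := hp2.lev _ (by omega)
    rcases hall i₀ hi₀ with ⟨j, hj, h3⟩ | ⟨j, hj, h3⟩
    · rw [h3] at hadj
      have h4 := hl.slow' (hp2.mem _ (by omega)) (hp0.mem _ hj) hadj
      rw [hL, hp0.lev j hj] at h4
      exact (hs20 (lam (x 2) - e) j (by omega) (by omega) (by omega) hj).2 hadj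
    · rw [h3] at hadj
      have h4 := hl.slow' (hp2.mem _ (by omega)) (hp1.mem _ hj) hadj
      rw [hL, hp1.lev j hj] at h4
      exact (hs21 (lam (x 2) - e) j (by omega) (by omega) (by omega) hj).2 hadj
  have hle : lam (w e) ≤ 3 := by
    simp only [hw]
    split_ifs with h1
    · rw [hp2.lev _ (by omega)]
      omega
    · rw [hp0.lev _ (by omega)]
      omega
  have hKe := hwK e he
  refine h10 V D K m q (w e) (w (e - 1)) (w (e - 2)) ht hS hq hqK hKe (hwK _ (by omega))
    (hwK _ (by omega)) ?_ ?_ ?_ ?_ i₀ hi₀ hadj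
  · have h1 := hwa (e - 1) (by omega)
    have h2 : e - 1 + 1 = e := by omega
    rw [h2] at h1
    exact h1.symm
  · have h1 := hwa (e - 2) (by omega)
    have h2 : e - 2 + 1 = e - 1 := by omega
    rw [h2] at h1
    exact h1.symm
  · intro i hi
    exact ⟨hmin _ (by omega) i hi, hmin _ (by omega) i hi⟩
  · intro i hi h1
    have h2 := hl.slow' hKe (hqK i hi) h1
    constructor
    · by_contra h3
      obtain ⟨_, h4⟩ := hst i (by omega)
      have h5 : lam (q i) = lam (x 0) - i := by
        rw [h4]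
        exact hp0.lev _ (by omega)
      omega
    · by_contra h3
      obtain ⟨_, h4⟩ := hen (m - i) (by omega)
      have h6 : m - (m - i) = i := by omega
      rw [h6] at h4
      have h5 : lam (q i) = lam (x 1) - (m - i) := by
        rw [h4]
        exact hp1.lev _ (by omega)
      omega

end Pool.Agent.MPd439b2.W
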