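import Pool.Agent.Lib.MP_d439b2_co.W.SpecT

/-!
# MP_d439b2_co, W, T2: no spiders in `K`
-/

set_option autoImplicit false

namespace Pool.Agent.MPd439b2.W

open Pool.Agent.MPd439b2

private theorem noSpK_enum (S : Finset ℕ) (m : ℕ) (h : m ≤ S.card) :
    ∃ o : ℕ → ℕ, (∀ i < m, o i ∈ S) ∧ ∀ i < m, ∀ j < m, o i = o j → i = j := by
  refine ⟨fun i => if hi : i < S.card then S.orderEmbOfFin rfl ⟨i, hi⟩ else 0, ?_, ?_⟩
  · intro i hi
    simp only [dif_pos (lt_of_lt_of_le hi h)]
    exact Finset.orderEmbOfFin_mem _ _ _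
  · intro i hi j hj hij
    simp only [dif_pos (lt_of_lt_of_le hi h), dif_pos (lt_of_lt_of_le hj h)] at hij
    exact Fin.mk.inj_iff.1 ((S.orderEmbOfFin rfl).injective hij)

theorem noSpK (h1 : S_F0I) : S_NoSpK := by
  classical
  intro s h n V D a b K ht hF hM hJ hn ⟨u, huK, hu⟩
  let B : Finset ℕ := Finset.univ.biUnion fun i : Fin 8 => Jt D n a b (u i)
  have hB : B.card ≤ 8 * h := by
    refine Finset.card_biUnion_le.trans ?_
    refine (Finset.sum_le_card_nsmul Finset.univ _ h fun i _ => hJ _ (huK i)).trans ?_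
    simp
  have hS : 4 + 2 * s ≤ ((Finset.range n) \ B).card := by
    have := Finset.le_card_sdiff B (Finset.range n)
    rw [Finset.card_range] at this
    omega
  obtain ⟨o, ho1, ho2⟩ := noSpK_enum _ _ hS
  have hon : ∀ i < 4 + 2 * s, o i < n := fun i hi =>
    Finset.mem_range.1 (Finset.mem_sdiff.1 (ho1 i hi)).1
  have hnt : ∀ i : Fin 8, ∀ k < 4 + 2 * s, ¬ D.Adj (u i) (a (o k)) ∧ ¬ D.Adj (u i) (b (o k)) := by
    intro i k hk
    have h2 : o k ∉ Jt D n a b (u i) := fun h3 =>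
      (Finset.mem_sdiff.1 (ho1 k hk)).2 (Finset.mem_biUnion.2 ⟨i, Finset.mem_univ _, h3⟩)
    rw [mem_Jt] at h2
    constructor
    · exact fun h3 => h2 ⟨hon k hk, Or.inl h3⟩
    · exact fun h3 => h2 ⟨hon k hk, Or.inr h3⟩
  have hM1 : IM D 4 (fun j => a (o j)) fun j => b (o j) :=
    hM.comp o (fun i hi => hon i (by omega)) fun i hi j hj => ho2 i (by omega) j (by omega)
  have hM2 : IM D (2 * s) (fun k => a (o (4 + k))) fun k => b (o (4 + k)) :=
    hM.comp (fun k => o (4 + k)) (fun i hi => hon _ (by omega)) fun i hi j hj he => by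
      have := ho2 _ (by omega) _ (by omega) he
      omega
  refine hF (h1 s V D u _ _ _ _ ht hu hM1 (fun i j hj => hnt i j (by omega)) hM2 ?_)
  intro k hk
  refine ⟨fun i => ⟨fun he => ?_, fun he => ?_⟩, fun j hj => ?_⟩
  · have h2 := hM.edge (hon (4 + k) (by omega))
    have h3 := (hnt i (4 + k) (by omega)).2
    rw [he] at h2
    exact h3 h2
  · have h2 := hM.edge (hon (4 + k) (by omega))
    have h3 := (hnt i (4 + k) (by omega)).1
    rw [he] at h2
    exact h3 h2.symm
  · have hne : o (4 + k) ≠ o j := fun he => by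
      have := ho2 _ (by omega) _ (by omega) he
      omega
    have n1 := hon (4 + k) (by omega)
    have n2 := hon j (by omega)
    exact ⟨fun he => hne (hM.inj_a n1 n2 he), hM.ne_ab n1 n2, (hM.ne_ab n2 n1).symm,
      fun he => hne (hM.inj_b n1 n2 he)⟩

end Pool.Agent.MPd439b2.W
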