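import Pool.Agent.Lib.MP_d439b2_co.W.SpecT

/-!
# MP_d439b2_co, W, T19: null edges of different full vertices
-/

set_option autoImplicit false

namespace Pool.Agent.MPd439b2.W

open Pool.Agent.MPd439b2

namespace NullFAux

theorem enum (J : Finset ℕ) (m : ℕ) (hm : m ≤ J.card) : ∃ σ : ℕ → ℕ, (∀ k < m, σ k ∈ J) ∧
    ∀ k l, k < l → l < m → σ k < σ l := by
  classical
  refine ⟨fun k => if h : k < J.card then J.orderEmbOfFin rfl ⟨k, h⟩ else 0, ?_, ?_⟩
  · intro k hk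
    dsimp only
    rw [dif_pos (by omega)]
    exact Finset.orderEmbOfFin_mem _ _ _
  · intro k l hkl hl
    dsimp only
    rw [dif_pos (by omega), dif_pos (by omega)]
    exact (J.orderEmbOfFin rfl).strictMono hkl

variable {V : Type} {D : SimpleGraph V}

theorem cmp1 {x y : V} : Cmp D {x} {y} ↔ D.Adj x y := by
  unfold Cmp
  simp

/-- the pattern of step (4) -/
theorem core (hX : S_X1) {s M : ℕ} {F P Q : ℕ → V} (ht : TriFree D) (hM : 200 + 8 * s ≤ M)
    (hFF : ∀ k l, k < l → l < M → F k ≠ F l ∧ ¬ D.Adj (F k) (F l))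
    (hFP : ∀ k < M, ∀ l < M, F k ≠ P l ∧ F k ≠ Q l)
    (hPQ : ∀ k l, k < l → l < M → (P k ≠ P l ∧ ¬ D.Adj (P k) (P l)) ∧
      (P k ≠ Q l ∧ ¬ D.Adj (P k) (Q l)) ∧ (Q k ≠ P l ∧ ¬ D.Adj (Q k) (P l)) ∧
      (Q k ≠ Q l ∧ ¬ D.Adj (Q k) (Q l)))
    (h1 : ∀ k l, k < l → l < M → D.Adj (F k) (P l) ∧ ¬ D.Adj (F k) (Q l) ∧
      ¬ D.Adj (F l) (P k) ∧ D.Adj (F l) (Q k)) :
    IsIndMinor (KCo s F1) Dᶜ ∧ IsIndMinor (KCo s F2) Dᶜ ∧ IsIndMinor (KCo s F3) Dᶜ := by
  classical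
  set x : ℕ → ℕ → V := fun i k => if i = 0 then F k else if i = 1 then P k else Q k with hx
  have hne : ∀ i ≤ 2, ∀ j ≤ 2, ∀ k l, k < l → l < M → x i k ≠ x j l := by
    intro i hi j hj k l hkl hl
    obtain ⟨a1, a2, a3, a4⟩ := hPQ k l hkl hl
    have b1 := (hFF k l hkl hl).1
    have b2 := hFP k (by omega) l hl
    have b3 := hFP l hl k (by omega)
    interval_cases i <;> interval_cases j
    · exact b1
    · exact b2.1
    · exact b2.2
    · exact b3.1.symm
    · exact a1.1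
    · exact a2.1
    · exact b3.2.symm
    · exact a3.1
    · exact a4.1
  have hPat : Pat D M 2 (fun i k => {x i k}) (fun i j => (i = 0 ∧ j = 1) ∨ (i = 2 ∧ j = 0)) := by
    refine ⟨fun i _ k _ => Finset.singleton_nonempty _, fun i hi j hj k hk l hl hkl => ?_,
      fun i hi j hj k l hkl hl => ?_⟩
    · rw [Finset.disjoint_singleton]
      rcases lt_or_gt_of_ne hkl with h2 | h2
      · exact hne i hi j hj k l h2 hl
      · exact (hne j hj i hi l k h2 hk).symm
    · rw [cmp1]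
      obtain ⟨a1, a2, a3, a4⟩ := hPQ k l hkl hl
      have b1 := (hFF k l hkl hl).2
      obtain ⟨c1, c2, c3, c4⟩ := h1 k l hkl hl
      interval_cases i <;> interval_cases j
      · exact iff_of_false b1 (by omega)
      · exact iff_of_true c1 (by omega)
      · exact iff_of_false c2 (by omega)
      · exact iff_of_false (fun h => c3 h.symm) (by omega)
      · exact iff_of_false a1.2 (by omega)
      · exact iff_of_false a2.2 (by omega)
      · exact iff_of_true c4.symm (by omega)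
      · exact iff_of_false a3.2 (by omega)
      · exact iff_of_false a4.2 (by omega)
  exact hX s V D M 2 _ _ ht hPat hM ⟨0, by omega, 1, by omega, 2, le_rfl, by omega, by omega,
    by omega, by omega⟩

end NullFAux

open NullFAux

theorem nullF (hRam : S_RamC) (hDig : S_Dig) (hX : S_X1) (hDirt : S_Dirt) : S_NullF := by
  intro s m₀
  obtain ⟨N, hN⟩ := hRam (Fin 3 → Prop) (m₀ + 200 + 8 * s + 3)
  refine ⟨11 * N, fun h n V D a b U K lam r f p q hSit hEx hCo hl hf hlev => ?_⟩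
  have ht := hSit.tri
  have hKU : K ⊆ U := hSit.comp.2.1
  classical
  set M := m₀ + 200 + 8 * s + 3 with hM
  -- (1)
  obtain ⟨J, hJ, hJc, hJR⟩ := hDig 5 N (Finset.range (11 * N))
    (fun i j => ¬ D.Adj (f i) (p j) ∧ ¬ D.Adj (f i) (q j)) (by
      intro i hi J hJ hR
      by_contra hc
      obtain ⟨σ, hσ, hσ'⟩ := enum J 6 (by omega)
      have hiT : i < 11 * N := Finset.mem_range.1 hi
      have hsT : ∀ k < 6, σ k < 11 * N := fun k hk => Finset.mem_range.1 (hJ (hσ k hk))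
      refine hDirt s h n V D a b U K lam r (f i) (fun k => p (σ k)) (fun k => q (σ k)) hSit hl
        (hf i hiT).1 (hf i hiT).2.1 (fun k hk => ?_) (fun k hk j hj => ?_)
      · obtain ⟨_, _, h3, h4, h5, _⟩ := hf (σ k) (hsT k hk)
        obtain ⟨_, h6, h7⟩ := hR (σ k) (hσ k hk)
        exact ⟨h3, h4, h5, h6, h7⟩
      · exact hlev _ (hsT k hk) _ (hσ' j k hj hk)) (by
      rw [Finset.card_range])
  obtain ⟨σ, hσ, hσ'⟩ := enum J N hJc.ge
  have hσT : ∀ k < N, σ k < 11 * N := fun k hk => Finset.mem_range.1 (hJ (hσ k hk))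
  -- (2)
  obtain ⟨ρ, c, hρ, hρN, hc⟩ := hN (fun i j => ![D.Adj (f (σ i)) (f (σ j)),
    D.Adj (f (σ i)) (p (σ j)), D.Adj (f (σ j)) (p (σ i))])
  set F : ℕ → V := fun k => f (σ (ρ k)) with hF
  set P : ℕ → V := fun k => p (σ (ρ k)) with hP
  set Q : ℕ → V := fun k => q (σ (ρ k)) with hQ
  have hT : ∀ k < M, σ (ρ k) < 11 * N := fun k hk => hσT _ (hρN k hk)
  have hlt : ∀ k l, k < l → l < M → σ (ρ k) < σ (ρ l) := fun k l hkl hl' =>
    hσ' _ _ (hρ k l hkl hl') (hρN l hl')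
  have c0 : ∀ k l, k < l → l < M → (D.Adj (F k) (F l) ↔ c 0) := fun k l h1 h2 => by
    have := congrFun (hc k l h1 h2) 0
    exact iff_of_eq this
  have c1 : ∀ k l, k < l → l < M → (D.Adj (F k) (P l) ↔ c 1) := fun k l h1 h2 => by
    have := congrFun (hc k l h1 h2) 1
    exact iff_of_eq this
  have c2 : ∀ k l, k < l → l < M → (D.Adj (F l) (P k) ↔ c 2) := fun k l h1 h2 => by
    have := congrFun (hc k l h1 h2) 2
    exact iff_of_eq this
  have hK : ∀ k < M, F k ∉ U ∧ P k ∈ K ∧ Q k ∈ K ∧ D.Adj (P k) (Q k) ∧ ¬ D.Adj (F k) (P k) ∧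
      ¬ D.Adj (F k) (Q k) := by
    intro k hk
    obtain ⟨h1, _, h3, h4, h5, h6, h7⟩ := hf _ (hT k hk)
    exact ⟨h1, h3, h4, h5, h6, h7⟩
  have hor : ∀ k < M, ∀ l < M, k ≠ l → (D.Adj (F k) (P l) ∨ D.Adj (F k) (Q l)) := by
    intro k hk l hl' hkl
    by_contra h1
    push Not at h1
    refine hJR (σ (ρ k)) (hσ _ (hρN k hk)) (σ (ρ l)) (hσ _ (hρN l hl')) ?_ h1
    rcases lt_or_gt_of_ne hkl with h2 | h2
    · exact (hlt k l h2 hl').ne
    · exact (hlt l k h2 hk).ne'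
  have hand : ∀ k < M, ∀ l < M, D.Adj (F k) (P l) → ¬ D.Adj (F k) (Q l) := fun k hk l hl' h1 h2 =>
    ht _ _ _ h1 h2 (hK l hl').2.2.2.1
  have hiff : ∀ k < M, ∀ l < M, k ≠ l → (D.Adj (F k) (Q l) ↔ ¬ D.Adj (F k) (P l)) := by
    intro k hk l hl' hkl
    constructor
    · exact fun h1 h2 => hand k hk l hl' h2 h1
    · exact fun h1 => (hor k hk l hl' hkl).resolve_left h1
  -- levels
  have hlP : ∀ k l, k < l → l < M → lam (P k) + 6 ≤ lam (P l) := fun k l h1 h2 =>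
    hlev _ (hT l h2) _ (hlt k l h1 h2)
  have hlQ : ∀ k < M, lam (P k) ≤ lam (Q k) + 1 ∧ lam (Q k) ≤ lam (P k) + 1 := fun k hk =>
    hl.slow' (hK k hk).2.1 (hK k hk).2.2.1 (hK k hk).2.2.2.1
  have far : ∀ u ∈ K, ∀ v ∈ K, lam u + 2 ≤ lam v → u ≠ v ∧ ¬ D.Adj u v := by
    intro u hu v hv h1
    refine ⟨?_, hl.nadj hu hv (Or.inl h1)⟩
    rintro rfl
    omega
  have hPQ : ∀ k l, k < l → l < M → (P k ≠ P l ∧ ¬ D.Adj (P k) (P l)) ∧
      (P k ≠ Q l ∧ ¬ D.Adj (P k) (Q l)) ∧ (Q k ≠ P l ∧ ¬ D.Adj (Q k) (P l)) ∧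
      (Q k ≠ Q l ∧ ¬ D.Adj (Q k) (Q l)) := by
    intro k l h1 h2
    have e1 := hlP k l h1 h2
    have e2 := hlQ k (by omega)
    have e3 := hlQ l h2
    have k1 := hK k (by omega)
    have k2 := hK l h2
    exact ⟨far _ k1.2.1 _ k2.2.1 (by omega), far _ k1.2.1 _ k2.2.2.1 (by omega),
      far _ k1.2.2.1 _ k2.2.1 (by omega), far _ k1.2.2.1 _ k2.2.2.1 (by omega)⟩
  have hFP : ∀ k < M, ∀ l < M, F k ≠ P l ∧ F k ≠ Q l := by
    intro k hk l hl'
    constructor
    · intro h1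
      exact (hK k hk).1 (h1 ▸ hKU (hK l hl').2.1)
    · intro h1
      exact (hK k hk).1 (h1 ▸ hKU (hK l hl').2.2.1)
  -- the colour 0
  have hc0 : ¬ c 0 := by
    intro h1
    have e1 := (c0 0 1 (by omega) (by omega)).2 h1
    have e2 := (c0 0 2 (by omega) (by omega)).2 h1
    have e3 := (c0 1 2 (by omega) (by omega)).2 h1
    exact ht _ _ _ e1 e2 e3
  have hFF : ∀ k l, k < l → l < M → F k ≠ F l ∧ ¬ D.Adj (F k) (F l) := by
    intro k l h1 h2
    refine ⟨fun h3 => ?_, fun h3 => hc0 ((c0 k l h1 h2).1 h3)⟩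
    have e1 := hor l h2 k (by omega) (by omega)
    rw [← h3] at e1
    have e2 := hK k (by omega)
    rcases e1 with e1 | e1
    · exact e2.2.2.2.2.1 e1
    · exact e2.2.2.2.2.2 e1
  have done : (IsIndMinor (KCo s F1) Dᶜ ∧ IsIndMinor (KCo s F2) Dᶜ ∧
      IsIndMinor (KCo s F3) Dᶜ) → False := by
    rintro ⟨e1, e2, e3⟩
    rcases hEx with h1 | h1 | h1
    · exact h1 e1
    · exact h1 e2
    · exact h1 e3
  by_cases hb : c 1
  · by_cases hg : c 2
    · apply hCo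
      refine ⟨F, P, fun i hi j hj => ?_⟩
      rcases lt_trichotomy i j with h1 | h1 | h1
      · exact iff_of_true ((c1 i j h1 (by omega)).2 hb) h1.ne
      · subst h1
        exact iff_of_false (hK i (by omega)).2.2.2.2.1 (fun h => h rfl)
      · exact iff_of_true ((c2 j i h1 (by omega)).2 hg) h1.ne'
    · apply done
      refine core hX (F := F) (P := P) (Q := Q) (M := M) ht (by omega) hFF hFP hPQ ?_
      intro k l h1 h2
      have e1 := (c1 k l h1 h2).2 hb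
      have e2 : ¬ D.Adj (F l) (P k) := fun h => hg ((c2 k l h1 h2).1 h)
      exact ⟨e1, hand k (by omega) l h2 e1, e2, (hiff l h2 k (by omega) (by omega)).2 e2⟩
  · by_cases hg : c 2
    · apply done
      refine core hX (F := F) (P := Q) (Q := P) (M := M) ht (by omega) hFF
        (fun k hk l hl' => (hFP k hk l hl').symm) ?_ ?_
      · intro k l h1 h2
        obtain ⟨e1, e2, e3, e4⟩ := hPQ k l h1 h2
        exact ⟨e4, e3, e2, e1⟩
      · intro k l h1 h2
        have e1 : ¬ D.Adj (F k) (P l) := fun h => hb ((c1 k l h1 h2).1 h)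
        have e2 := (c2 k l h1 h2).2 hg
        exact ⟨(hiff k (by omega) l h2 (by omega)).2 e1, e1, hand l h2 k (by omega) e2, e2⟩
    · apply hCo
      refine ⟨F, Q, fun i hi j hj => ?_⟩
      rcases lt_trichotomy i j with h1 | h1 | h1
      · have e1 : ¬ D.Adj (F i) (P j) := fun h => hb ((c1 i j h1 (by omega)).1 h)
        exact iff_of_true ((hiff i (by omega) j (by omega) h1.ne).2 e1) h1.ne
      · subst h1
        exact iff_of_false (hK i (by omega)).2.2.2.2.2 (fun h => h rfl)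
      · have e1 : ¬ D.Adj (F i) (P j) := fun h => hg ((c2 j i h1 (by omega)).1 h)
        exact iff_of_true ((hiff i (by omega) j (by omega) h1.ne').2 e1) h1.ne'

end Pool.Agent.MPd439b2.W
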