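import Pool.Agent.Lib.MP_d439b2_co.W.SpecT

/-!
# MP_d439b2_co, W, T7: two down paths do not meet (helper91)
-/

set_option autoImplicit false

namespace Pool.Agent.MPd439b2.W

open Pool.Agent.MPd439b2

namespace PairLAux

variable {V : Type} {D : SimpleGraph V} {K : Set V} {lam : V → ℕ} {r x y : V} {p q : ℕ → V}

theorem spider (ht : TriFree D) (hS : ¬ Sp D K) (hl : Lvl D K lam r) (hp : Dn D K lam x p)
    (hq : Dn D K lam y q) {i e : ℕ} (he : e = i + 3 ∨ e = i + 4) (hi : i + 5 ≤ lam x)
    (he' : e + 1 ≤ lam y) (h0 : D.Adj (p (i + 3)) (q e)) (h1 : ¬ D.Adj (p (i + 4)) (q (e + 1)))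
    (h2 : ¬ D.Adj (p (i + 5)) (q e)) (h3 : ¬ D.Adj (p (i + 5)) (q (e + 1))) : False := by
  have pm : ∀ j, j ≤ i + 5 → p j ∈ K := fun j hj => hp.mem j (by omega)
  have pl : ∀ j, j ≤ i + 5 → lam (p j) = j := fun j hj => hp.lev j (by omega)
  have qm : ∀ j, j ≤ e + 1 → q j ∈ K := fun j hj => hq.mem j (by omega)
  have ql : ∀ j, j ≤ e + 1 → lam (q j) = j := fun j hj => hq.lev j (by omega)
  have pp : ∀ j k, j ≤ i + 5 → k ≤ i + 5 → (j + 2 ≤ k ∨ k + 2 ≤ j) → ¬ D.Adj (p j) (p k) := by
    intro j k hj hk h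
    refine hl.nadj (pm j hj) (pm k hk) ?_
    rw [pl j hj, pl k hk]
    exact h
  have qp : ∀ j k, j ≤ e + 1 → k ≤ i + 5 → (j + 2 ≤ k ∨ k + 2 ≤ j) → ¬ D.Adj (q j) (p k) := by
    intro j k hj hk h
    refine hl.nadj (qm j hj) (pm k hk) ?_
    rw [ql j hj, pl k hk]
    exact h
  have s : Spd D (p (i + 3)) (p (i + 4)) (p (i + 5)) (q e) (q (e + 1)) (p (i + 2)) (p (i + 1))
      (p i) :=
    { cx := (hp.adj (i + 3) (by omega)).symm
      xx := (hp.adj (i + 4) (by omega)).symm
      cy := h0
      yy := (hq.adj e (by omega)).symm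
      cz := hp.adj (i + 2) (by omega)
      zz := hp.adj (i + 1) (by omega)
      zw := hp.adj i (by omega)
      ncz3 := pp _ _ (by omega) (by omega) (by omega)
      nx1y2 := h1
      nx1z2 := pp _ _ (by omega) (by omega) (by omega)
      nx1z3 := pp _ _ (by omega) (by omega) (by omega)
      nx2y1 := h2
      nx2y2 := h3
      nx2z1 := pp _ _ (by omega) (by omega) (by omega)
      nx2z2 := pp _ _ (by omega) (by omega) (by omega)
      nx2z3 := pp _ _ (by omega) (by omega) (by omega)
      ny1z2 := qp _ _ (by omega) (by omega) (by omega)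
      ny1z3 := qp _ _ (by omega) (by omega) (by omega)
      ny2z1 := qp _ _ (by omega) (by omega) (by omega)
      ny2z2 := qp _ _ (by omega) (by omega) (by omega)
      ny2z3 := qp _ _ (by omega) (by omega) (by omega) }
  exact hS (s.sp ht (pm _ (by omega)) (pm _ (by omega)) (pm _ (by omega)) (qm _ (by omega))
    (qm _ (by omega)) (pm _ (by omega)) (pm _ (by omega)) (pm _ (by omega)))

theorem core (ht : TriFree D) (hS : ¬ Sp D K) (hl : Lvl D K lam r) (hp : Dn D K lam x p)
    (hq : Dn D K lam y q) {j j' : ℕ} (h3 : 3 ≤ j) (hj : j + 3 ≤ lam x) (hj' : j' + 3 ≤ lam y)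
    (hmax : ∀ k k', 3 ≤ k → 3 ≤ k' → k ≤ lam x → k' ≤ lam y → j + j' < k + k' →
      ¬ D.Adj (p k) (q k')) (hb : p j = q j' ∨ D.Adj (p j) (q j')) (hle : j ≤ j') : False := by
  have l1 := hp.lev j (by omega)
  have l2 := hq.lev j' (by omega)
  obtain ⟨i, rfl⟩ : ∃ i, j = i + 3 := ⟨j - 3, by omega⟩
  rcases hb with hb | hb
  · have hjj : j' = i + 3 := by
      rw [hb, l2] at l1
      exact l1
    subst hjj
    refine spider ht hS hl hp hq (i := i) (e := i + 4) (Or.inr rfl) (by omega) (by omega) ?_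
      (hmax _ _ (by omega) (by omega) (by omega) (by omega) (by omega))
      (hmax _ _ (by omega) (by omega) (by omega) (by omega) (by omega))
      (hmax _ _ (by omega) (by omega) (by omega) (by omega) (by omega))
    rw [hb]
    exact (hq.adj (i + 3) (by omega)).symm
  · have h4 := hl.slow' (hp.mem _ (by omega)) (hq.mem _ (by omega)) hb
    rw [l1, l2] at h4
    have h5 : j' = i + 3 ∨ j' = i + 4 := by omega
    refine spider ht hS hl hp hq (i := i) (e := j') h5 (by omega) (by omega) hb
      (hmax _ _ (by omega) (by omega) (by omega) (by omega) (by omega)) ?_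
      (hmax _ _ (by omega) (by omega) (by omega) (by omega) (by omega))
    rcases h5 with rfl | rfl
    · refine hl.nadj (hp.mem _ (by omega)) (hq.mem _ (by omega)) ?_
      rw [hp.lev _ (by omega), hq.lev _ (by omega)]
      omega
    · exact hmax _ _ (by omega) (by omega) (by omega) (by omega) (by omega)

end PairLAux

/-- **T7.** -/
theorem pairL : S_PairL := by
  intro V D K lam r x y p q ht hS hl hp hq hyp
  have key : ∀ N j j', 3 ≤ j → 3 ≤ j' → j ≤ lam x → j' ≤ lam y → lam x + lam y ≤ j + j' + N →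
      p j ≠ q j' ∧ ¬ D.Adj (p j) (q j') := by
    intro N
    induction N with
    | zero =>
      intro j j' h3 h3' hj hj' hN
      have h : ¬ (p j = q j' ∨ D.Adj (p j) (q j')) := by
        intro hb
        have := hyp j j' h3 h3' hj hj' hb
        omega
      exact ⟨fun h1 => h (Or.inl h1), fun h1 => h (Or.inr h1)⟩
    | succ N ih =>
      intro j j' h3 h3' hj hj' hN
      have h : ¬ (p j = q j' ∨ D.Adj (p j) (q j')) := by
        intro hb
        obtain ⟨h4, h5⟩ := hyp j j' h3 h3' hj hj' hb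
        rcases le_total j j' with hle | hle
        · exact PairLAux.core ht hS hl hp hq h3 h4 h5 (fun k k' hk hk' hkx hky hlt =>
            (ih k k' hk hk' hkx hky (by omega)).2) hb hle
        · refine PairLAux.core ht hS hl hq hp h3' h5 h4 (fun k k' hk hk' hkx hky hlt h6 =>
            (ih k' k hk' hk hky hkx (by omega)).2 h6.symm) ?_ hle
          rcases hb with hb | hb
          · exact Or.inl hb.symm
          · exact Or.inr hb.symm
      exact ⟨fun h1 => h (Or.inl h1), fun h1 => h (Or.inr h1)⟩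
  intro j j' h3 h3' hj hj'
  exact key (lam x + lam y) j j' h3 h3' hj hj' (by omega)

end Pool.Agent.MPd439b2.W
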