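import Pool.Agent.Lib.MP_d439b2_co.W.SpecT

/-!
# MP_d439b2_co, W, T6: every vertex of `K` touches at most four edges of an induced matching
-/

set_option autoImplicit false

namespace Pool.Agent.MPd439b2.W

open Pool.Agent.MPd439b2

theorem tch (h3 : S_Bfs) (h4 : S_DnP) : S_Tch := by
  classical
  intro V D K lam r w v n a b ht hsp hK hl hw hlw hv hM hab
  obtain ⟨μ, hμ⟩ := h3 V D K v hK hv
  -- a vertex of level at least six
  obtain ⟨w', hw', hw6⟩ : ∃ w' ∈ K, 6 ≤ μ w' := by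
    by_contra hcon
    push Not at hcon
    obtain ⟨p1, hp1⟩ := h4 V D K μ v hμ r hl.root
    obtain ⟨p2, hp2⟩ := h4 V D K μ v hμ w hw
    have e1 : Nr D K 5 v r := (hp1.nr_root hμ).mono (by have := hcon r hl.root; omega)
    have e2 : Nr D K 5 v w := (hp2.nr_root hμ).mono (by have := hcon w hw; omega)
    have e3 : Nr D K 10 r w := e1.symm.trans e2
    have e4 := hl.le_of_nr e3
    rw [hl.zero] at e4
    omega
  obtain ⟨p, hp⟩ := h4 V D K μ v hμ w' hw'
  have hp0 : p 0 = v := hp.zero hμ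
  have hpK : ∀ j ≤ 6, p j ∈ K := fun j hj => hp.mem j (by omega)
  have hpl : ∀ j ≤ 6, μ (p j) = j := fun j hj => hp.lev j (by omega)
  have hpa : ∀ j < 6, D.Adj (p j) (p (j + 1)) := fun j hj => (hp.adj j (by omega)).symm
  -- touching
  let T : ℕ → ℕ → Prop := fun j k => D.Adj (p j) (a k) ∨ D.Adj (p j) (b k)
  have hlev : ∀ k ∈ Jt D n a b v, μ (a k) ≤ 2 ∧ μ (b k) ≤ 2 := by
    intro k hk
    rw [mem_Jt] at hk
    obtain ⟨hkn, hk⟩ := hk
    have e1 := hM.edge hkn
    obtain ⟨ha, hb⟩ := hab k hkn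
    have e2 := hμ.slow' ha hb e1
    have e3 : μ v = 0 := hμ.zero
    rcases hk with h | h
    · have e4 := hμ.slow' hv ha h
      omega
    · have e4 := hμ.slow' hv hb h
      omega
  have hfar : ∀ k ∈ Jt D n a b v, ∀ j ≤ 6, 4 ≤ j → ¬ T j k := by
    intro k hk j hj hj4 hT
    obtain ⟨e1, e2⟩ := hlev k hk
    obtain ⟨ha, hb⟩ := hab k (mem_Jt.1 hk).1
    have e3 := hpl j hj
    rcases hT with h | h
    · exact hμ.nadj (hpK j hj) ha (by omega) h
    · exact hμ.nadj (hpK j hj) hb (by omega) h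
  let f : ℕ → ℕ := fun k => Nat.findGreatest (fun j => T j k) 3
  have hf3 : ∀ k, f k ≤ 3 := fun k => Nat.findGreatest_le 3
  have hfT : ∀ k ∈ Jt D n a b v, T (f k) k := by
    intro k hk
    refine Nat.findGreatest_spec (P := fun j => T j k) (m := 0) (Nat.zero_le _) ?_
    rw [mem_Jt] at hk
    show D.Adj (p 0) (a k) ∨ D.Adj (p 0) (b k)
    rw [hp0]
    exact hk.2
  have hfN : ∀ k ∈ Jt D n a b v, ∀ j ≤ 6, f k < j → ¬ T j k := by
    intro k hk j hj hfj
    by_cases h : j ≤ 3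
    · exact Nat.findGreatest_is_greatest (P := fun j => T j k) (n := 3) hfj h
    · exact hfar k hk j hj (by omega)
  by_contra hcon
  push Not at hcon
  obtain ⟨k, hk, k', hk', hkk, hff⟩ := Finset.exists_ne_map_eq_of_card_lt_of_maps_to
    (s := Jt D n a b v) (t := Finset.range 4) (f := f) (by rw [Finset.card_range]; exact hcon)
    (fun k _ => Finset.mem_coe.2 (Finset.mem_range.2 (by have := hf3 k; omega)))
  have hkn := (mem_Jt.1 hk).1
  have hkn' := (mem_Jt.1 hk').1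
  -- the two ends of an edge, the first one adjacent to the vertex `p i`
  have hends : ∀ k ∈ Jt D n a b v, ∃ x₁ x₂ : V, (x₁ = a k ∧ x₂ = b k ∨ x₁ = b k ∧ x₂ = a k) ∧
      D.Adj (p (f k)) x₁ ∧ D.Adj x₁ x₂ := by
    intro k hk
    have e1 := hM.edge (mem_Jt.1 hk).1
    rcases hfT k hk with h | h
    · exact ⟨a k, b k, Or.inl ⟨rfl, rfl⟩, h, e1⟩
    · exact ⟨b k, a k, Or.inr ⟨rfl, rfl⟩, h, e1.symm⟩
  obtain ⟨x₁, x₂, hx, hx1, hx2⟩ := hends k hk
  obtain ⟨y₁, y₂, hy, hy1, hy2⟩ := hends k' hk'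
  have hi3 := hf3 k
  rw [← hff] at hy1
  set i := f k with hi
  -- no edges between the two edges of the matching
  have m1 := hM k hkn k' hkn'
  have m2 := hM k' hkn' k hkn
  have n1 : ¬ D.Adj (a k) (b k') := fun h => hkk (m1.1.1 h)
  have n2 : ¬ D.Adj (b k) (a k') := fun h => hkk (m2.1.1 h.symm).symm
  have hxy : ∀ s t : V, (s = a k ∨ s = b k) → (t = a k' ∨ t = b k') → ¬ D.Adj s t := by
    rintro s t (rfl | rfl) (rfl | rfl)
    · exact m1.2.1
    · exact n1
    · exact n2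
    · exact m1.2.2
  have hx1' : x₁ = a k ∨ x₁ = b k := hx.imp And.left And.left
  have hx2' : x₂ = a k ∨ x₂ = b k := by
    rcases hx with h | h
    · exact Or.inr h.2
    · exact Or.inl h.2
  have hy1' : y₁ = a k' ∨ y₁ = b k' := hy.imp And.left And.left
  have hy2' : y₂ = a k' ∨ y₂ = b k' := by
    rcases hy with h | h
    · exact Or.inr h.2
    · exact Or.inl h.2
  have hz : ∀ j ≤ 6, i < j → ∀ s : V, (s = a k ∨ s = b k) ∨ (s = a k' ∨ s = b k') →
      ¬ D.Adj s (p j) := by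
    intro j hj hij s hs hadj
    rcases hs with (rfl | rfl) | (rfl | rfl)
    · exact hfN k hk j hj hij (Or.inl hadj.symm)
    · exact hfN k hk j hj hij (Or.inr hadj.symm)
    · exact hfN k' hk' j hj (by rw [← hff]; exact hij) (Or.inl hadj.symm)
    · exact hfN k' hk' j hj (by rw [← hff]; exact hij) (Or.inr hadj.symm)
  have hK1 : ∀ s : V, (s = a k ∨ s = b k) ∨ (s = a k' ∨ s = b k') → s ∈ K := by
    rintro s ((rfl | rfl) | (rfl | rfl))
    · exact (hab k hkn).1
    · exact (hab k hkn).2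
    · exact (hab k' hkn').1
    · exact (hab k' hkn').2
  have hSpd : Spd D (p i) x₁ x₂ y₁ y₂ (p (i + 1)) (p (i + 2)) (p (i + 3)) := {
    cx := hx1
    xx := hx2
    cy := hy1
    yy := hy2
    cz := hpa i (by omega)
    zz := hpa (i + 1) (by omega)
    zw := hpa (i + 2) (by omega)
    ncz3 := hμ.nadj (hpK i (by omega)) (hpK (i + 3) (by omega)) (by
      rw [hpl i (by omega), hpl (i + 3) (by omega)]; omega)
    nx1y2 := hxy _ _ hx1' hy2'
    nx1z2 := hz _ (by omega) (by omega) _ (Or.inl hx1')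
    nx1z3 := hz _ (by omega) (by omega) _ (Or.inl hx1')
    nx2y1 := hxy _ _ hx2' hy1'
    nx2y2 := hxy _ _ hx2' hy2'
    nx2z1 := hz _ (by omega) (by omega) _ (Or.inl hx2')
    nx2z2 := hz _ (by omega) (by omega) _ (Or.inl hx2')
    nx2z3 := hz _ (by omega) (by omega) _ (Or.inl hx2')
    ny1z2 := hz _ (by omega) (by omega) _ (Or.inr hy1')
    ny1z3 := hz _ (by omega) (by omega) _ (Or.inr hy1')
    ny2z1 := hz _ (by omega) (by omega) _ (Or.inr hy2')
    ny2z2 := hz _ (by omega) (by omega) _ (Or.inr hy2')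
    ny2z3 := hz _ (by omega) (by omega) _ (Or.inr hy2') }
  exact hsp (hSpd.sp ht (hpK i (by omega)) (hK1 _ (Or.inl hx1')) (hK1 _ (Or.inl hx2'))
    (hK1 _ (Or.inr hy1')) (hK1 _ (Or.inr hy2')) (hpK _ (by omega)) (hpK _ (by omega))
    (hpK _ (by omega)))

end Pool.Agent.MPd439b2.W
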