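import Pool.Agent.Lib.MP_d439b2_co.W.SpecT

/-!
# MP_d439b2_co, W, T13: induced matchings in windows are bounded
-/

set_option autoImplicit false

namespace Pool.Agent.MPd439b2.W

open Pool.Agent.MPd439b2

theorem winB (h4 : S_DnP) (h5 : S_Ball) (h6 : S_Tch) (h12 : S_Arm3) : S_WinB := by
  classical
  intro l
  obtain ⟨L, hL⟩ := h5 4 (l + 6)
  obtain ⟨L', hL'⟩ := h5 4 12
  refine ⟨2 * L + L', ?_⟩
  rintro V D K lam r d n a b hT hSp hC hLv ⟨w, hw, hw12⟩ hIM hab
  have hab' : ∀ i < n, a i ∈ K ∧ b i ∈ K := fun i hi => ⟨(hab i hi).1, (hab i hi).2.1⟩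
  have hJt : ∀ v ∈ K, (Jt D n a b v).card ≤ 4 := fun v hv =>
    h6 V D K lam r w v n a b hT hSp hC hLv hw hw12 hv hIM hab'
  have hJ₁ : ((Finset.range n).filter fun i => lam (a i) ≤ 12).card ≤ L' := by
    refine hL' V D K n a b hT hSp hIM hab' hJt r hLv.root _ fun i hi => ?_
    rw [Finset.mem_filter, Finset.mem_range] at hi
    obtain ⟨p, hp⟩ := h4 V D K lam r hLv (a i) (hab' i hi.1).1
    exact ⟨hi.1, Or.inl ((hp.nr_root hLv).mono hi.2)⟩
  have hJ₂ : ((Finset.range n).filter fun i => ¬ lam (a i) ≤ 12).card ≤ 2 * L := by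
    by_cases hne : ∃ i₀, i₀ < n ∧ ¬ lam (a i₀) ≤ 12
    · obtain ⟨i₀, hi₀, hi₀'⟩ := hne
      by_cases hex : ∃ i₁, i₁ < n ∧ ¬ lam (a i₁) ≤ 12 ∧ ¬ Nr D K (l + 6) (a i₀) (a i₁)
      · obtain ⟨i₁, hi₁, hi₁', hno⟩ := hex
        have hor : ∀ i, i < n → ¬ lam (a i) ≤ 12 →
            Nr D K (l + 6) (a i₀) (a i) ∨ Nr D K (l + 6) (a i₁) (a i) := by
          intro i hi hi'
          by_contra hcon
          rw [not_or] at hcon
          obtain ⟨hc0, hc1⟩ := hcon
          have hx : ∀ j < 3, (![a i₀, a i₁, a i] : Fin 3 → V) (Fin.ofNat 3 j) ∈ K := by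
            intro j hj
            interval_cases j
            · exact (hab' i₀ hi₀).1
            · exact (hab' i₁ hi₁).1
            · exact (hab' i hi).1
          refine h12 V D K lam r l (fun j => (![a i₀, a i₁, a i] : Fin 3 → V) (Fin.ofNat 3 j)) hT hSp
            hLv (fun j hj => ⟨hx j hj, ?_⟩) ?_ ?_
          · interval_cases j
            · show 12 ≤ lam (a i₀)
              omega
            · show 12 ≤ lam (a i₁)
              omega
            · show 12 ≤ lam (a i)
              omega
          · have hw0 := (hab i₀ hi₀).2.2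
            have hw1 := (hab i₁ hi₁).2.2
            have hw2 := (hab i hi).2.2
            intro j hj k hk
            interval_cases j <;> interval_cases k <;>
              simp only [Fin.ofNat, Nat.reduceMod, Matrix.cons_val_zero, Matrix.cons_val_one,
                Fin.zero_eta, Fin.mk_one, Fin.reduceFinMk, Matrix.cons_val] <;> omega
          · intro j hj k hk hjk
            interval_cases j <;> interval_cases k
            · exact absurd rfl hjk
            · exact hno
            · exact hc0
            · exact fun h => hno h.symm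
            · exact absurd rfl hjk
            · exact hc1
            · exact fun h => hc0 h.symm
            · exact fun h => hc1 h.symm
            · exact absurd rfl hjk
        have h0 : ((Finset.range n).filter fun i => Nr D K (l + 6) (a i₀) (a i)).card ≤ L :=
          hL V D K n a b hT hSp hIM hab' hJt (a i₀) (hab' i₀ hi₀).1 _ fun i hi => by
            rw [Finset.mem_filter, Finset.mem_range] at hi
            exact ⟨hi.1, Or.inl hi.2⟩
        have h1 : ((Finset.range n).filter fun i => Nr D K (l + 6) (a i₁) (a i)).card ≤ L :=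
          hL V D K n a b hT hSp hIM hab' hJt (a i₁) (hab' i₁ hi₁).1 _ fun i hi => by
            rw [Finset.mem_filter, Finset.mem_range] at hi
            exact ⟨hi.1, Or.inl hi.2⟩
        have h2 : ((Finset.range n).filter fun i => ¬ lam (a i) ≤ 12) ⊆
            ((Finset.range n).filter fun i => Nr D K (l + 6) (a i₀) (a i)) ∪
              ((Finset.range n).filter fun i => Nr D K (l + 6) (a i₁) (a i)) := by
          intro i hi
          rw [Finset.mem_filter, Finset.mem_range] at hi
          rw [Finset.mem_union, Finset.mem_filter, Finset.mem_filter, Finset.mem_range]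
          rcases hor i hi.1 hi.2 with h | h
          · exact Or.inl ⟨hi.1, h⟩
          · exact Or.inr ⟨hi.1, h⟩
        have h3 := (Finset.card_le_card h2).trans (Finset.card_union_le _ _)
        omega
      · have h0 : ((Finset.range n).filter fun i => ¬ lam (a i) ≤ 12).card ≤ L := by
          refine hL V D K n a b hT hSp hIM hab' hJt (a i₀) (hab' i₀ hi₀).1 _ fun i hi => ?_
          rw [Finset.mem_filter, Finset.mem_range] at hi
          refine ⟨hi.1, Or.inl ?_⟩
          by_contra h
          exact hex ⟨i, hi.1, hi.2, h⟩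
        omega
    · have h0 : ((Finset.range n).filter fun i => ¬ lam (a i) ≤ 12) = ∅ := by
        rw [Finset.filter_eq_empty_iff]
        intro i hi h
        exact hne ⟨i, Finset.mem_range.1 hi, h⟩
      rw [h0, Finset.card_empty]
      exact Nat.zero_le _
  have h := Finset.card_filter_add_card_filter_not (s := Finset.range n) (fun i => lam (a i) ≤ 12)
  rw [Finset.card_range] at h
  omega

end Pool.Agent.MPd439b2.W
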