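import Pool.Agent.Lib.MP_d439b2_co.W.SpecT

/-!
# MP_d439b2_co, W, T20: a clean block of levels (helper28)
-/

set_option autoImplicit false

namespace Pool.Agent.MPd439b2.W

open Pool.Agent.MPd439b2

theorem zone (h1 : S_NullF) : S_Zone := by
  intro s m₀ Z
  obtain ⟨T, hT⟩ := h1 s m₀
  refine ⟨2 * Z + T * (Z + 6), fun h n V D a b U K lam r hS hE hC hl => ?_⟩
  by_contra hno
  push Not at hno
  have key : ∀ i, ∃ f p q : V, i < T → f ∉ U ∧ (∃ v ∈ K, D.Adj f v) ∧ p ∈ K ∧ q ∈ K ∧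
      D.Adj p q ∧ Z + i * (Z + 6) ≤ lam p ∧ lam p ≤ Z + i * (Z + 6) + Z ∧ ¬ D.Adj f p ∧
      ¬ D.Adj f q := by
    intro i
    by_cases hi : i < T
    · have h2 : (i + 1) * (Z + 6) ≤ T * (Z + 6) := Nat.mul_le_mul_right _ hi
      have h3 : (i + 1) * (Z + 6) = i * (Z + 6) + (Z + 6) := by ring
      obtain ⟨f, hf, hv, p, hp, q, hq, hpq, h4, h5, h6⟩ :=
        hno (Z + i * (Z + 6)) (by omega) (by omega)
      exact ⟨f, p, q, fun _ => ⟨hf, hv, hp, hq, hpq, h4, h5, h6⟩⟩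
    · exact ⟨r, r, r, fun h => absurd h hi⟩
  choose f p q hk using key
  refine hT h n V D a b U K lam r f p q hS hE hC hl (fun i hi => ?_) (fun i hi j hj => ?_)
  · obtain ⟨k1, k2, k3, k4, k5, _, _, k8, k9⟩ := hk i hi
    exact ⟨k1, k2, k3, k4, k5, k8, k9⟩
  · obtain ⟨_, _, _, _, _, k6, _, _, _⟩ := hk i hi
    obtain ⟨_, _, _, _, _, _, k7, _, _⟩ := hk j (by omega)
    have h2 : (j + 1) * (Z + 6) ≤ i * (Z + 6) := Nat.mul_le_mul_right _ hj
    have h3 : (j + 1) * (Z + 6) = j * (Z + 6) + (Z + 6) := by ring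
    omega

end Pool.Agent.MPd439b2.W
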