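import Pool.Agent.Lib.MP_d439b2_co.W.FinalO
import Pool.Agent.Lib.MP_d439b2_co.W.Dig
import Pool.Agent.Lib.MP_d439b2_co.Rep.WidR
import Pool.Agent.Lib.MP_d439b2_co.SA.OneComp
import Pool.Agent.Lib.MP_d439b2_co.W.F0I
import Pool.Agent.Lib.MP_d439b2_co.W.NoSpK
import Pool.Agent.Lib.MP_d439b2_co.W.Bfs
import Pool.Agent.Lib.MP_d439b2_co.W.DnP
import Pool.Agent.Lib.MP_d439b2_co.W.Ball
import Pool.Agent.Lib.MP_d439b2_co.W.Tch
import Pool.Agent.Lib.MP_d439b2_co.W.PairL
import Pool.Agent.Lib.MP_d439b2_co.W.PairD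
import Pool.Agent.Lib.MP_d439b2_co.W.IndP
import Pool.Agent.Lib.MP_d439b2_co.W.Att
import Pool.Agent.Lib.MP_d439b2_co.W.NoArm
import Pool.Agent.Lib.MP_d439b2_co.W.Arm3
import Pool.Agent.Lib.MP_d439b2_co.W.WinB
import Pool.Agent.Lib.MP_d439b2_co.W.ExcI
import Pool.Agent.Lib.MP_d439b2_co.W.CutK
import Pool.Agent.Lib.MP_d439b2_co.W.Leg3
import Pool.Agent.Lib.MP_d439b2_co.W.Dirt
import Pool.Agent.Lib.MP_d439b2_co.W.NullF
import Pool.Agent.Lib.MP_d439b2_co.W.Zone
import Pool.Agent.Lib.MP_d439b2_co.W.Clss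
import Pool.Agent.Lib.MP_d439b2_co.W.Band
import Pool.Agent.Lib.MP_d439b2_co.W.TT1

/-!
# MP_d439b2_co, W: one component of the light graph, final form (helper28)
-/

set_option autoImplicit false

namespace Pool.Agent.MPd439b2.W

open Pool.Agent.MPd439b2

theorem widSF : S_WidS :=
  Rep.widR gen sun ramC (x1 tri atoms fSub) (x2 tri atoms fSub)

theorem arm3F : S_Arm3 := arm3 dnP (pairD pairL) (noArm indP att)

/-- **One component of the light graph** contains a cut with few types. -/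
theorem tT1F : S_TT1 :=
  tT1 coM fSub (noSpK f0I) bfs dnP (ball dig) (winB dnP (ball dig) (tch bfs dnP) arm3F)
    (cutK oSepF excI widSF)
    (zone (nullF ramC dig (x1 tri atoms fSub) (dirt f0I leg3))) (clss dnP arm3F) band

end Pool.Agent.MPd439b2.W

namespace Pool.Agent.MPd439b2.SA

/-- (T,T), one component, unconditional -/
theorem oneCompF : S_OneComp := hOneComp W.tT1F

end Pool.Agent.MPd439b2.SA
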