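import Pool.Agent.Lib.MP_d439b2_co.Spec1
import Pool.Agent.Lib.MP_d439b2_co.GT.Base

/-!
# MP_d439b2_co, W: the bounded width theorem for the row `3P_1`, definitions (helper28)

`D` is a triangle-free graph (the complement of a graph without three pairwise non-adjacent vertices).
`Cl D` is the ordered set of the closed sets of vertices.  If its antichains are bounded and `Dᶜ` does not
contain `K_s ∨ co(F)` for one of three graphs `F`, then `D` has a layout of bounded width.
-/

set_option autoImplicit false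

namespace Pool.Agent.MPd439b2.W

open Pool.Agent.MPd439b2

/-! ### carvings -/

section carv

variable {α : Type}

/-- the total weight between `A` and `B` -/
def wt (w : α → α → ℕ) (A B : Finset α) : ℕ := ∑ x ∈ A, ∑ y ∈ B, w x y

open Classical in
/-- the weights of a graph: `1` for edges, `0` otherwise -/
noncomputable def ind (Γ : SimpleGraph α) (x y : α) : ℕ := if Γ.Adj x y then 1 else 0

variable [Fintype α] [DecidableEq α]

/-- the set `A` has a carving of width at most `N`: a rooted binary tree whose leaves are the elements of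
`A` such that for every node the set of the leaves below it has total weight at most `N` to its
complement -/
inductive Carv (w : α → α → ℕ) (N : ℕ) : Finset α → Prop
  | empty : Carv w N ∅
  | single (x : α) : wt w {x} {x}ᶜ ≤ N → Carv w N {x}
  | union {A B : Finset α} : Carv w N A → Carv w N B → Disjoint A B →
      wt w (A ∪ B) (A ∪ B)ᶜ ≤ N → Carv w N (A ∪ B)

/-- `Z` can not be split: the obstruction to a carving of width `N` -/
def Bad (w : α → α → ℕ) (Δ N : ℕ) (Z : Finset α) : Prop :=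
  N < wt w Z Zᶜ + Δ ∧ wt w Z Zᶜ ≤ N ∧
    ∀ Y ⊆ Z, min (wt w Y Zᶜ) (wt w (Z \ Y) Zᶜ) ≤ wt w Y (Z \ Y)

end carv

/-! ### ordered sets with a partition into chains -/

section poset

variable {α : Type} [PartialOrder α] {n : ℕ}

/-- the classes of `c` are chains -/
def ChainP (c : α → Fin n) : Prop := ∀ x y, c x = c y → x ≤ y ∨ y ≤ x

/-- `(x, y)` is an essential pair: `x` and `y` are in different chains, `x ≤ y`, `x` is the largest
element of its chain below `y`, `y` is the smallest element of its chain above `x` -/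
def Ess (c : α → Fin n) (x y : α) : Prop :=
  c x ≠ c y ∧ x ≤ y ∧ (∀ z, c z = c x → z ≤ y → z ≤ x) ∧ ∀ z, c z = c y → x ≤ z → y ≤ z

/-- `x < y` are consecutive elements of `U` in the same chain -/
def Cons (c : α → Fin n) (U : Finset α) (x y : α) : Prop :=
  x ∈ U ∧ y ∈ U ∧ c x = c y ∧ x < y ∧ ∀ z ∈ U, c z = c x → x < z → y ≤ z

/-- the skeleton of `U`: consecutive elements of `U` in the same chain, and essential pairs with both
elements in `U` -/
def Gam (c : α → Fin n) (U : Finset α) : SimpleGraph α where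
  Adj x y := Cons c U x y ∨ Cons c U y x ∨ (x ∈ U ∧ y ∈ U ∧ (Ess c x y ∨ Ess c y x))
  symm := ⟨fun _ _ h => by
    rcases h with h | h | ⟨h1, h2, h3⟩
    · exact Or.inr (Or.inl h)
    · exact Or.inl h
    · exact Or.inr (Or.inr ⟨h2, h1, h3.symm⟩)⟩
  loopless := ⟨fun _ h => by
    rcases h with h | h | ⟨_, _, h3 | h3⟩
    · exact lt_irrefl _ h.2.2.2.1
    · exact lt_irrefl _ h.2.2.2.1
    · exact h3.1 rfl
    · exact h3.1 rfl⟩

/-- `S` is well linked in the skeleton of `U`: every set `Y` which is balanced for `S` has many edges to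
`U \ Y` -/
def WL [DecidableEq α] (c : α → Fin n) (U S : Finset α) (b q : ℕ) : Prop :=
  S ⊆ U ∧ ∀ Y ⊆ U, S.card ≤ b * (Y ∩ S).card → S.card ≤ b * (S \ Y).card →
    S.card ≤ q * wt (ind (Gam c U)) Y (U \ Y)

/-- `a` and `b` are in the same run of `R` in `U`: they are in `R ∩ U` and in the same chain, and all
elements of `U` between them in this chain are in `R` -/
def Run (c : α → Fin n) (U R : Finset α) (a b : α) : Prop :=
  a ∈ U ∧ a ∈ R ∧ b ∈ U ∧ b ∈ R ∧ c a = c b ∧
    ∀ z ∈ U, c z = c a → (a ≤ z ∧ z ≤ b ∨ b ≤ z ∧ z ≤ a) → z ∈ R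

/-- the step from `a` to `b`: `a k ≤ b l` if `k < l`, and not `a k ≤ b l` if `l < k` -/
def Step (m : ℕ) (a b : ℕ → α) : Prop :=
  ∀ k < m, ∀ l < m, (k < l → a k ≤ b l) ∧ (l < k → ¬ a k ≤ b l)

/-- a bundle of size `m` with `r` steps, rails `v 0, ..., v r` -/
structure Bun (m r : ℕ) (v : ℕ → ℕ → α) : Prop where
  mono : ∀ i ≤ r, ∀ k l, k < l → l < m → v i k < v i l
  step : ∀ i < r, Step m (v i) (v (i + 1)) ∨ Step m (v (i + 1)) (v i)

/-- an alternating closed bundle: even rails are below odd rails, `r` is odd, the rail `0` is completely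
below the rail `r` -/
structure Alt (m r : ℕ) (v : ℕ → ℕ → α) : Prop where
  odd : r % 2 = 1
  ev : ∀ i < r, i % 2 = 0 → Step m (v i) (v (i + 1))
  od : ∀ i < r, i % 2 = 1 → Step m (v (i + 1)) (v i)
  clo : ∀ k < m, ∀ l < m, v 0 k ≤ v r l

/-- `M` tracks with `r` steps: the track `k` enters the rail `j` (in the chain `χ j`) at `A k j` and leaves
it at `B k j`; `B k j` and `A k (j + 1)` form an essential pair whose direction depends only on `j`;
different tracks are separated in every rail -/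
structure Tracks (c : α → Fin n) (M r : ℕ) (A B : ℕ → ℕ → α) (χ : ℕ → Fin n) (dir : ℕ → Prop) :
    Prop where
  cA : ∀ k < M, ∀ j ≤ r, c (A k j) = χ j
  cB : ∀ k < M, ∀ j ≤ r, c (B k j) = χ j
  sep : ∀ k < M, ∀ k' < M, k ≠ k' → ∀ j ≤ r,
    (A k j < A k' j ∧ A k j < B k' j ∧ B k j < A k' j ∧ B k j < B k' j) ∨
      (A k' j < A k j ∧ A k' j < B k j ∧ B k' j < A k j ∧ B k' j < B k j)
  up : ∀ k < M, ∀ j < r, dir j → Ess c (B k j) (A k (j + 1))
  dn : ∀ k < M, ∀ j < r, ¬ dir j → Ess c (A k (j + 1)) (B k j)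

/-- antichains have at most `w` elements -/
def WidP (α : Type) [PartialOrder α] (w : ℕ) : Prop :=
  ∀ A : Finset α, (∀ x ∈ A, ∀ y ∈ A, x ≤ y → x = y) → A.card ≤ w

/-- two elements with an upper bound have a least upper bound -/
def JoinP (α : Type) [PartialOrder α] : Prop :=
  ∀ x y u : α, x ≤ u → y ≤ u → ∃ j, x ≤ j ∧ y ≤ j ∧ ∀ t, x ≤ t → y ≤ t → j ≤ t

end poset

/-! ### closed sets -/

section closed

variable {V : Type}

/-- no triangles -/
def TriFree (D : SimpleGraph V) : Prop := ∀ x y z, D.Adj x y → D.Adj x z → ¬ D.Adj y z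

/-- the common neighbours of `X` -/
def cn (D : SimpleGraph V) (X : Set V) : Set V := {v | ∀ x ∈ X, D.Adj x v}

/-- `X` is closed: nonempty, with common neighbours, and equal to the set of the common neighbours of its
common neighbours -/
def IsCl (D : SimpleGraph V) (X : Set V) : Prop :=
  cn D (cn D X) = X ∧ X.Nonempty ∧ (cn D X).Nonempty

/-- the closed sets, ordered by inclusion -/
abbrev Cl (D : SimpleGraph V) : Type := {X : Set V // IsCl D X}

theorem cn_anti {D : SimpleGraph V} {X Y : Set V} (h : X ⊆ Y) : cn D Y ⊆ cn D X :=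
  fun _ hv x hx => hv x (h hx)

theorem sub_cn_cn (D : SimpleGraph V) (X : Set V) : X ⊆ cn D (cn D X) :=
  fun _ hx _ hy => (hy _ hx).symm

theorem cn3 (D : SimpleGraph V) (X : Set V) : cn D (cn D (cn D X)) = cn D X :=
  Set.Subset.antisymm (cn_anti (sub_cn_cn D X)) (sub_cn_cn D (cn D X))

/-- the involution of the closed sets: `X` goes to its set of common neighbours -/
def sg (D : SimpleGraph V) (x : Cl D) : Cl D :=
  ⟨cn D x.1, by
    refine ⟨cn3 D x.1, x.2.2.2, ?_⟩
    rw [x.2.1]
    exact x.2.2.1⟩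

/-- `A` is complete to `B` -/
def Cmp (D : SimpleGraph V) (A B : Finset V) : Prop := ∀ a ∈ A, ∀ b ∈ B, D.Adj a b

/-- **Patterns**: nonempty groups `z i k`, rails `i ≤ r`, indices `k < M`; groups with different indices are
disjoint; for `k < l` the groups `z i k` and `z j l` are complete to each other iff `E i j` -/
structure Pat (D : SimpleGraph V) (M r : ℕ) (z : ℕ → ℕ → Finset V) (E : ℕ → ℕ → Prop) : Prop where
  ne : ∀ i ≤ r, ∀ k < M, (z i k).Nonempty
  dis : ∀ i ≤ r, ∀ j ≤ r, ∀ k < M, ∀ l < M, k ≠ l → Disjoint (z i k) (z j l)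
  rel : ∀ i ≤ r, ∀ j ≤ r, ∀ k l, k < l → l < M → (Cmp D (z i k) (z j l) ↔ E i j)

/-- **Homogeneous group cycle** with `r` steps: consecutive rails form ladders (the even rail has to have
the smaller index), the rails `0` and `r` are complete to each other -/
structure HGC (D : SimpleGraph V) (M r : ℕ) (z : ℕ → ℕ → Finset V) (E : ℕ → ℕ → Prop) : Prop where
  pat : Pat D M r z E
  odd : r % 2 = 1
  ev : ∀ i < r, i % 2 = 0 → E i (i + 1) ∧ ¬ E (i + 1) i
  od : ∀ i < r, i % 2 = 1 → E (i + 1) i ∧ ¬ E i (i + 1)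
  clo : E 0 r ∧ E r 0

end closed

/-! ### the excluded graphs -/

/-- the join of the complete graph with `s` vertices and the complement of `F` -/
def KCo (s : ℕ) {W : Type} (F : SimpleGraph W) : SimpleGraph (Fin s ⊕ W) where
  Adj
    | Sum.inl i, Sum.inl j => i ≠ j
    | Sum.inl _, Sum.inr _ => True
    | Sum.inr _, Sum.inl _ => True
    | Sum.inr x, Sum.inr y => x ≠ y ∧ ¬ F.Adj x y
  symm := ⟨fun u v h => by
    rcases u with u | u <;> rcases v with v | v
    · exact Ne.symm h
    · exact trivial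
    · exact trivial
    · exact ⟨h.1.symm, fun h' => h.2 h'.symm⟩⟩
  loopless := ⟨fun u h => by
    rcases u with u | u
    · exact h rfl
    · exact h.1 rfl⟩

/-- the graph on `Fin n` with the given edges -/
def ofE (n : ℕ) (l : List (ℕ × ℕ)) : SimpleGraph (Fin n) where
  Adj i j := i ≠ j ∧ ((i.val, j.val) ∈ l ∨ (j.val, i.val) ∈ l)
  symm := ⟨fun _ _ h => ⟨h.1.symm, h.2.symm⟩⟩
  loopless := ⟨fun _ h => h.1 rfl⟩

instance (n : ℕ) (l : List (ℕ × ℕ)) : DecidableRel (ofE n l).Adj := fun i j => by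
  unfold ofE
  infer_instance

/-- `S_{2,2,3} + 4 P_2` -/
def F0 : SimpleGraph (Fin 16) :=
  ofE 16 [(0, 1), (1, 2), (0, 3), (3, 4), (0, 5), (5, 6), (6, 7), (8, 9), (10, 11), (12, 13), (14, 15)]

/-- `S_{1,1,2} + 4 P_2` -/
def F1 : SimpleGraph (Fin 13) := ofE 13 [(0, 1), (0, 2), (0, 3), (3, 4), (5, 6), (7, 8), (9, 10), (11, 12)]

/-- `S_{1,2,3} + 3 P_2` -/
def F2 : SimpleGraph (Fin 13) :=
  ofE 13 [(0, 1), (0, 2), (2, 3), (0, 4), (4, 5), (5, 6), (7, 8), (9, 10), (11, 12)]

/-- `S_{2,2,3} + 2 P_2` -/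
def F3 : SimpleGraph (Fin 12) :=
  ofE 12 [(0, 1), (1, 2), (0, 3), (3, 4), (0, 5), (5, 6), (6, 7), (8, 9), (10, 11)]

/-- `n P_2` -/
def nP2 (n : ℕ) : SimpleGraph (Fin n × Bool) where
  Adj u v := u.1 = v.1 ∧ u.2 ≠ v.2
  symm := ⟨fun _ _ h => ⟨h.1.symm, h.2.symm⟩⟩
  loopless := ⟨fun _ h => h.2 rfl⟩

end Pool.Agent.MPd439b2.W
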