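import Pool.Agent.Lib.MP_d439b2_co.W.BaseM

/-!
# MP_d439b2_co, W, Spec M: `S_{1,1,2} + 4 P_2` without width assumption (helper28)

Every `S_...` is a statement to be proved in its own file; the docstring contains the complete proof.
Definitions: `DefsM.lean`; small lemmas: `BaseM.lean`.  Abbreviations in the docstrings: `t = 3 + 2 s`,
`κ = 8 + 2 s`; an M-edge is a pair `(a i, b i)`; `v ~ w` means `D.Adj v w`; `U` is the set of the vertices
which are not in `A ∪ B`; `N(v)` is the neighbourhood.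
-/

set_option autoImplicit false

namespace Pool.Agent.MPd439b2.W

open Pool.Agent.MPd439b2

/-- **M1.** Models of `KCo s F1`.

Proof. Every `i : Fin 13` has a neighbour `j` in `F1` (`decide`), so `g i` is complete to the nonempty set `g j`,
so there are no edges of `D` inside `g i` (no triangles); so `g i` is a clique of `Dᶜ`, hence connected.
For `q < s` let `C q = {a (2 q), b (2 q), a (2 q + 1), b (2 q + 1)}` (four different vertices by `BaseM`); the
only edges of `D` inside are the two M-edges, so `C q` is connected in `Dᶜ` (a 4-cycle).  It is joined by an edge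
of `Dᶜ` to every disjoint nonempty set: a vertex `v` is not adjacent in `D` to both `a (2 q)` and `b (2 q)`
(no triangles).  The sets `C q` are disjoint from each other and from the `g i`.
The model is `inl q ↦ C q`, `inr i ↦ g i`.  For `i ≠ j`: the disjoint sets `g i`, `g j` are joined by an edge of
`Dᶜ` iff they are not complete to each other in `D` iff `¬ F1.Adj i j`, which is
`(KCo s F1).Adj (inr i) (inr j)`.  (For `IsIndMinor` use `ims_univ_iff`, `IMS`, `Conn`: a nonempty set which is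
pairwise adjacent is `Conn`.) -/
def S_Mod : Prop := ∀ (s : ℕ) (V : Type) (D : SimpleGraph V) (g : Fin 13 → Finset V)
  (a b : ℕ → V), TriFree D → (∀ i, (g i).Nonempty) → (∀ i j, i ≠ j → Disjoint (g i) (g j)) →
  (∀ i j, i ≠ j → (Cmp D (g i) (g j) ↔ F1.Adj i j)) → IM D (2 * s) a b →
  (∀ q < 2 * s, ∀ i, a q ∉ g i ∧ b q ∉ g i) → IsIndMinor (KCo s F1) Dᶜ

/-- **M2.** A set `C` which touches three edges of an induced matching touches almost all of them (uses M1).

Proof. Suppose that `O` has at least `4 + 2 s` elements; take `o 0, .., o (3 + 2 s) ∈ O` different, and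
`i 0, i 1, i 2 ∈ I` different.  Let `c j` (`j < 3`) be one of `a (i j)`, `b (i j)` to which `C` is complete, and let
`d` be the other end of the edge `i 2` (so `c 2 ~ d`).  No index is in `I` and in `O`.  The elements of `C` are not
vertices `a k`, `b k` with `k < n`: such a vertex is adjacent to only one of the `a j, b j` (`j < n`), but an
element of `C` is adjacent to `c 0`, `c 1`, `c 2`, which are different.
The groups: `g 0 = C`, `g 1 = {c 0}`, `g 2 = {c 1}`, `g 3 = {c 2}`, `g 4 = {d}`,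
`g (5 + 2 q) = {a (o q)}`, `g (6 + 2 q) = {b (o q)}` for `q < 4`.  They are nonempty and disjoint.
`C` is complete to `g 1, g 2, g 3`, not to `{d}` (`c 2 ~ d`, no triangles), and not to the `g j`, `5 ≤ j`
(definition of `O`).  The pairs among `g 1, .., g 12` are clear from `IM`: the only adjacent pairs are
`(3, 4)`, `(5, 6)`, `(7, 8)`, `(9, 10)`, `(11, 12)`.  The 2 s spare edges are the edges `o 4, .., o (3 + 2 s)`.  M1
gives `IsIndMinor (KCo s F1) Dᶜ`: contradiction. -/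
def S_Fab : Prop := ∀ (s : ℕ) (V : Type) (D : SimpleGraph V) (n : ℕ) (a b : ℕ → V)
  (C : Finset V) (I O : Finset ℕ), TriFree D → ¬ IsIndMinor (KCo s F1) Dᶜ → IM D n a b →
  C.Nonempty → (∀ i ∈ I, i < n ∧ (Cmp D C {a i} ∨ Cmp D C {b i})) → 3 ≤ I.card →
  (∀ i ∈ O, i < n ∧ ¬ Cmp D C {a i} ∧ ¬ Cmp D C {b i}) → O.card ≤ 3 + 2 * s

/-- **M3.** Independent sets in digraphs of small outdegree.

Proof. Induction on `m`.  `m = 0`: `J = ∅`.  Step: let `(2 τ + 1) (m + 1) ≤ |I|`, so `I` is not empty.  The number of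
the pairs `(i, j)` of different elements of `I` with `R i j` is at most `τ |I|` (hypothesis with
`J` = the set of all `j ∈ I`, `j ≠ i`, `R i j`).  So there is `j₀ ∈ I` with at most `τ` elements `i ∈ I`,
`i ≠ j₀`, `R i j₀`.  Remove from `I`: `j₀`, these `i`, and the at most `τ` elements `j ≠ j₀` with `R j₀ j`.  The rest
`I'` has at least `(2 τ + 1) m` elements and satisfies the hypothesis.  Induction gives `J'`;
`J = J' ∪ {j₀}`. -/
def S_Dig : Prop := ∀ (τ m : ℕ) (I : Finset ℕ) (R : ℕ → ℕ → Prop),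
  (∀ i ∈ I, ∀ J ⊆ I, (∀ j ∈ J, j ≠ i ∧ R i j) → J.card ≤ τ) → (2 * τ + 1) * m ≤ I.card →
  ∃ J ⊆ I, J.card = m ∧ ∀ i ∈ J, ∀ j ∈ J, i ≠ j → ¬ R i j

/-- **M4.** The co-matching bound (uses M3).

Proof. Suppose `(2 τ + 1) m₀ < |I|`.  M3 for `R i j = ¬ D.Adj (x i) (a j)` gives `J ⊆ I` with `m₀` elements such that
`x i ~ a j` for all `i ≠ j` in `J`.  Enumerate `J` as `e 0, .., e (m₀ - 1)`.  Then `x (e i) ~ a (e j)` iff
`i ≠ j`: `CoM D m₀`.  Contradiction. -/
def S_Ind : Prop := ∀ (V : Type) (D : SimpleGraph V) (m₀ τ : ℕ) (I : Finset ℕ) (x a : ℕ → V),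
  ¬ CoM D m₀ → (∀ i ∈ I, ¬ D.Adj (x i) (a i)) →
  (∀ i ∈ I, ∀ J ⊆ I, (∀ j ∈ J, ¬ D.Adj (x i) (a j)) → J.card ≤ τ) →
  I.card ≤ (2 * τ + 1) * m₀

/-- **M5.** Cleaning (uses M2, M4).

Proof. `n = n' + t + 2 (2 t + 5) m₀`.  Let `J(v) = Jt D n a b v`.  A vertex is adjacent to at most one of
`a i`, `b i` (no triangles).  Call `v` big if `3 ≤ |J(v)|`; then M2 for `C = {v}`, `I = J(v)` gives
`|range n \ J(v)| ≤ t`.  If there is no big vertex take `A = B = ∅` and `a' = a`, `b' = b` (`CM.mono`-like).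
Otherwise let `x₀` be big, `I₁ = J(x₀)`, `n - t ≤ |I₁|`, and for `i ∈ I₁` let `p i` be the one of `a i`, `b i` which is
adjacent to `x₀`, `q i` the other one.  `Agr(v) = {i < n | (v ~ a i and x₀ ~ a i) or (v ~ b i and x₀ ~ b i)}`;
for `i ∈ I₁`: `i ∈ Agr(v)` iff `v ~ p i`.  `A` is the set of the big `v` with `3 ≤ |Agr(v)|`, `B` the set of the other
big vertices.
(1) `v ∈ A`: M2 for `C = {v, x₀}`, `I = Agr(v)`, `O` = the other indices `< n` shows that there are at most `t`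
indices `i < n` outside `Agr(v)`; so at most `t` elements `i ∈ I₁` with `v ≁ p i`.
(2) `v ∈ B`: there are at most `t` indices `< n` outside `J(v)` and at most `2` in `Agr(v)`.  So at most `t + 2`
elements `i ∈ I₁` satisfy `v ≁ q i`.
(3) Let `I_A` be the set of the `i ∈ I₁` such that `x ≁ p i` for some `x = x i ∈ A`.  M4 for `I_A`, `x`, `p`,
`τ = t + 2`: `|I_A| ≤ (2 t + 5) m₀`.  In the same way the set `I_B` of the `i ∈ I₁` with `y ≁ q i` for some
`y ∈ B` has at most `(2 t + 5) m₀` elements.  So there are `n'` different indices `σ 0, .., σ (n' - 1)` in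
`I₁ \ (I_A ∪ I_B)`; `a' i = p (σ i)`, `b' i = q (σ i)`.
`few`: `v ∉ A`, `v ∉ B` is not big, `|J(v)| ≤ 2`, and `σ` maps `Jt D n' a' b' v` injectively to `J(v)`. -/
def S_Clean : Prop := ∀ s m₀ n' : ℕ, ∃ n : ℕ, ∀ (V : Type) (D : SimpleGraph V) (a b : ℕ → V),
  Hyp s m₀ D → IM D n a b → ∃ (a' b' : ℕ → V) (A B : Set V), CM D n' a' b' A B ∧
    ∀ i < n', ∃ j < n, (a' i = a j ∧ b' i = b j) ∨ (a' i = b j ∧ b' i = a j)

/-- **M6.** Almost all edges of an induced matching outside `A ∪ B` are clean (uses M2, M4).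

Proof. `c₀ = t + 2 (2 t + 5) m₀ + 1`, `n₀ = 4 c₀ + t + 4`.
(0) If `A ∪ B` is empty then every edge is clean (`TyA D A B u` is trivial), take `i = 0`.  By `CM.swap`, `CE.swap`
we may assume that `A` is not empty; `x₀ ∈ A`.
(1) Each of the `2 c₀` vertices `p i`, `q i` touches at most two M-edges (`few`), so there is a set `T` of at least
`n - 4 c₀ ≥ t + 4` indices `j < n` not touched by any of them; the vertices `a j`, `b j` with `j ∈ T` are different
from all `p i`, `q i` (`a j ~ b j`).  So the pairs `(p i, q i)`, `i < c₀`, together with the pairs `(a j, b j)`,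
`j ∈ T`, form an induced matching `M''` (index them by numbers, first the `c₀` pairs).
(2) `C = {x}` or `{x, x'}` with `x, x' ∈ A`: complete to `a j`, `j ∈ T`.  M2 for `M''`, `I = T` (`3 ≤ |T|`): at most
`t` of the `i < c₀` satisfy `¬ Cmp C {p i}` and `¬ Cmp C {q i}`.
(3) `x₀` alone: at least `c₀ - t` indices `i < c₀` with `x₀ ~ p i` or `x₀ ~ q i`; let `I₁` be the set of these, and
exchange `p i` and `q i` where necessary (`CE.symm`) such that `x₀ ~ p i` for `i ∈ I₁`; so `x₀ ≁ q i`.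
For `x ∈ A` there are at most `t` elements `i ∈ I₁` with `x ≁ p i` (by (2) for `{x₀, x}`, as `x₀ ≁ q i`).
(4) `y ∈ B`: `y ~ b j` for `j ∈ T`, so `y ≁ a j`.  By M2 for `{y}`, `I = T`, at most `t` indices `i < c₀` satisfy
`y ≁ p i` and `y ≁ q i`.  Let `I = {i < c₀ | Cmp {x₀, y} {p i} or Cmp {x₀, y} {q i}}`.  If `3 ≤ |I|` then M2 for
`C = {x₀, y}`, this `I` and `O = T` gives `|T| ≤ t` (`x₀ ≁ b j`, `y ≁ a j`): contradiction.  So `|I| ≤ 2`, and
at most `t + 2` elements `i ∈ I₁` satisfy `y ≁ q i`.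
(5) M4 (`τ = t + 2`): the set of the `i ∈ I₁` with `x ≁ p i` for some `x ∈ A` has at most `(2 t + 5) m₀` elements,
and the set of the `i ∈ I₁` with `y ≁ q i` for some `y ∈ B` too.  As `c₀ - t > 2 (2 t + 5) m₀` there is `i ∈ I₁` with
`p i` complete to `A`, `q i` complete to `B`; then `p i` has no neighbour in `B` and `q i` none in `A` (no triangles,
`p i ~ q i`).  So `CE D A B (p i) (q i)`. -/
def S_Unc : Prop := ∀ s m₀ : ℕ, ∃ c₀ n₀ : ℕ, ∀ (V : Type) (D : SimpleGraph V) (n : ℕ)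
  (a b p q : ℕ → V) (A B : Set V), Hyp s m₀ D → CM D n a b A B → n₀ ≤ n → IM D c₀ p q →
  (∀ i < c₀, p i ∉ A ∧ p i ∉ B ∧ q i ∉ A ∧ q i ∉ B) → ∃ i < c₀, CE D A B (p i) (q i)

/-- **M7.** No forks outside `A ∪ B` (uses M1).

Proof. Suppose `Fork D c l₁ l₂ m e`.  The five vertices touch at most `10` M-edges (`few`), so `4 + 2 s` indices
`o 0, .., o (3 + 2 s)` are not touched.  In particular the vertices of these edges are different from the five
vertices.  `g 0 = {c}`, `g 1 = {l₁}`, `g 2 = {l₂}`, `g 3 = {m}`, `g 4 = {e}`, `g (5 + 2 q) = {a (o q)}`,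
`g (6 + 2 q) = {b (o q)}`, `q < 4`; the spare edges are `o 4, .., o (3 + 2 s)`.  No triangles: `l₁, l₂, m` are
pairwise not adjacent, `c ≁ e`.  Different: `e ≠ c` (`c ~ l₁`, `e ≁ l₁`), `e ≠ l₁` and `e ≠ l₂` (`m ~ e`, `c ~ m`,
`c ~ l₁`: `m ≁ l₁`), `m ≠ l₁`, `m ≠ l₂` (`m ~ e`).  M1: contradiction. -/
def S_ForkU : Prop := ∀ (s m₀ : ℕ) (V : Type) (D : SimpleGraph V) (n : ℕ) (a b : ℕ → V)
  (A B : Set V), Hyp s m₀ D → CM D n a b A B → 14 + 2 * s ≤ n → NoFork D (A ∪ B)ᶜ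

/-- **M8.** Connected fork-free graphs.

Proof. Suppose that `v ∈ K` has at least three neighbours in `K`.  `N = N(v) ∩ K` (independent, no triangles), `W` =
the set of the `w ∈ K`, `w ≠ v`, `w ∉ N`, with a neighbour in `N`; `Z` = the set of the `z ∈ K` outside
`{v} ∪ N ∪ W` with a neighbour in `W`.
(1) `w ∈ W` has at most one non-neighbour in `N`: if `w ~ u`, `w ≁ u'`, `w ≁ u''` (`u, u', u'' ∈ N`, `u' ≠ u''`) then
`Fork D v u' u'' u w`.
(2) `W` is independent: `w, w' ∈ W` have a common neighbour in `N` by (1) (`|N| ≥ 3`).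
(3) `u ∈ N` has at most one non-neighbour in `W`: if `u ≁ w`, `u ≁ w'`, `w ≠ w'`, then `w` and `w'` are adjacent to all
elements of `N` except `u`; let `u'' ∈ N`, `u'' ≠ u`: `Fork D u'' w w' v u`.
(4) `z ∈ Z` is adjacent to all of `W`: let `z ~ w`, `z ≁ w'`; a common neighbour `u ∈ N` of `w, w'`:
`Fork D u v w' w z` (`z ≁ v` as `z ∉ N`).
(5) `Z` has at most one element: `z ≠ z'`, `w ∈ W` adjacent to both by (4), `u ∈ N` adjacent to `w`:
`Fork D w z z' u v`.
(6) `{v} ∪ N ∪ W ∪ Z = K`: otherwise there is an edge `b a'` with `b` in the union, `a' ∈ K` outside (`Conn`).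
`b ≠ v`, `b ∉ N`, `b ∉ W` by the definitions of `N`, `W`, `Z`.  `b = z ∈ Z`: let `w ∈ W` (it exists, `w ~ z`), and
`u ≠ u' ∈ N` adjacent to `w` (by (1)); `a'` has no neighbours in `N` and is not `v` and not in `W`:
`Fork D w u u' z a'`.
`P = {v} ∪ W`, `Q = N ∪ Z`: disjoint; `P` is independent (2), `Q` is independent (`z ≁ u` for `u ∈ N` by the definition
of `Z`, as otherwise `z ∈ W`; (5)).  `AlmC D P Q`: `v` is adjacent to `N`, `|Z| ≤ 1`; `w ∈ W`: (1), (4).
`AlmC D Q P`: `u ∈ N`: (3), `u ~ v`; `z ∈ Z`: (4), so its only non-neighbour in `P` is `v`. -/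
def S_CompT : Prop := ∀ (V : Type) (D : SimpleGraph V) (K : Set V), TriFree D → Conn D K →
  NoFork D K → (∀ v ∈ K, (D.neighborSet v ∩ K).encard ≤ 2) ∨
  ∃ P Q : Set V, K = P ∪ Q ∧ Disjoint P Q ∧ (∀ u ∈ P, ∀ v ∈ P, ¬ D.Adj u v) ∧
    (∀ u ∈ Q, ∀ v ∈ Q, ¬ D.Adj u v) ∧ AlmC D P Q ∧ AlmC D Q P

/-- **M9.** Layouts of paths and cycles.

Proof. CLAIM: for every `j` with `1 ≤ j ≤ |K|` there is `S ⊆ K` with `j` elements, `Lay D (t + 4) S` and
`∑ v ∈ S, (2 - d_S v) ≤ 2` where `d_S v` is the number of neighbours of `v` in `S` (all `d_S v ≤ 2`).  `j = 1`: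
`S = {v}`, `Lay.single'`.  Step: `S ≠ K`, so there are `b ∈ S`, `w ∈ K \ S` adjacent (`Conn`).  `S' = S ∪ {w}`;
`d = d_{S'} w ≥ 1`; the sum changes by `(2 - d) - d ≤ 0` (in natural numbers: work with
`∑ v ∈ S, d_S v ≥ 2 |S| - 2`; it increases by `2 d ≥ 2`).  Types of `S'`: if `v ∈ S'` has no neighbour in
`K \ S'` then `N(v) \ S' = N(v) \ K`: at most `t` types.  A vertex `v ∈ S'` with a neighbour in `K \ S'` has
`d_{S'} v ≤ 1`, so there are at most two such vertices, hence at most two further types.  So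
`(Types D S').encard ≤ t + 2`, and `Lay.insert` applies.  `j = |K|`: `S = K`. -/
def S_LayD2 : Prop := ∀ (V : Type) [Finite V] (D : SimpleGraph V) (K : Set V) (t : ℕ),
  Conn D K → (∀ v ∈ K, (D.neighborSet v ∩ K).encard ≤ 2) →
  {T | ∃ v ∈ K, T = D.neighborSet v \ K}.encard ≤ t → Lay D (t + 4) K

/-- **M10.** Layouts of complete bipartite graphs minus a matching.

Proof. `K = P ∪ Q`.  Call `S ⊆ K` closed if every vertex of `S ∩ P` is adjacent to all of `Q \ S` and every vertex of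
`S ∩ Q` is adjacent to all of `P \ S`.  Let `S` be closed with `Lay D (2 t + 4) S` and the maximal number of elements
(`∅` is closed).  Suppose `S ≠ K`, `v ∈ K \ S`, say `v ∈ P` (the other case is the same).
(1) For a closed `S'` and a vertex `u ∈ S' ∩ P`: `N(u) \ S' = (N(u) \ K) ∪ (Q \ S')`; for `u ∈ S' ∩ Q`:
`N(u) \ S' = (N(u) \ K) ∪ (P \ S')`.  So there are at most `2 t` types.
(2) `S ∪ {v}` has at most `2 t + 1` types: for `u ∈ S`, `N(u) \ (S ∪ {v})` is `(N(u) \ K) ∪ (Q \ (S ∪ {v}))` resp.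
`(N(u) \ K) ∪ (P \ (S ∪ {v}))`, and one more type for `v`.  So `Lay D (2 t + 4) (S ∪ {v})`.
(3) If `v` is adjacent to all of `Q \ S` then `S ∪ {v}` is closed: contradiction.  Otherwise let `w ∈ Q \ S`,
`v ≁ w`.  By `AlmC D P Q` `v` is adjacent to all other vertices of `Q`; by `AlmC D Q P` `w` is adjacent to all other
vertices of `P`.  So `S ∪ {v, w}` is closed, by (1) it has at most `2 t` types, and
`Lay D (2 t + 4) (S ∪ {v, w})`: contradiction.  So `S = K`. -/
def S_LayPQ : Prop := ∀ (V : Type) [Finite V] (D : SimpleGraph V) (P Q : Set V) (t : ℕ),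
  Disjoint P Q → (∀ u ∈ P, ∀ v ∈ P, ¬ D.Adj u v) → (∀ u ∈ Q, ∀ v ∈ Q, ¬ D.Adj u v) →
  AlmC D P Q → AlmC D Q P →
  {T | ∃ v ∈ P ∪ Q, T = D.neighborSet v \ (P ∪ Q)}.encard ≤ t → Lay D (2 * t + 4) (P ∪ Q)

/-- **M11.** Layouts of unions of components.

Proof. Call `S ⊆ X` closed if every `w ∈ U` adjacent to a vertex of `S` is in `S`.  Let `S` be closed with `Lay D k S`
and the maximal number of elements (`∅` is closed).  Suppose `S ≠ X`, `v ∈ X \ S`; `K` the component of `v`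
(`exists_isComp`).  `K ⊆ X`: `K ∩ X` is closed in `K` (`Conn.eq_of_nb`).  `K` is disjoint from `S`: `K ∩ S` is closed
in `K`, and `v ∉ S`.  So `Lay D k K`.  For `u ∈ S ∪ K`: `N(u) \ (S ∪ K) = N(u) \ U` (`S ∪ K` is closed and contained in
`U`), so `S ∪ K` has at most `k` types and `Lay D k (S ∪ K)` (`Lay.union`), and it is closed: contradiction. -/
def S_LayUn : Prop := ∀ (V : Type) [Finite V] (D : SimpleGraph V) (U X : Set V) (k : ℕ),
  X ⊆ U → (∀ v ∈ X, ∀ w ∈ U, D.Adj v w → w ∈ X) →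
  (∀ K, IsComp D U K → K ⊆ X → Lay D k K) →
  {T | ∃ v ∈ X, T = D.neighborSet v \ U}.encard ≤ k → Lay D k X

/-- **M12.** Layouts of fork-free parts (uses M8, M9, M10, M11).

Proof. M11 with `k = 2 t + 4`.  Let `K ⊆ X` be a component of `D[U]`.  For `v ∈ K`: `N(v) \ K = N(v) \ U`, so there are
at most `t` outside types of `K`.  `NoFork D K`.  M8: M9 and `Lay.mono` (`t + 4 ≤ 2 t + 4`), or M10. -/
def S_LayFree : Prop := ∀ (V : Type) [Finite V] (D : SimpleGraph V) (U X : Set V) (t : ℕ),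
  TriFree D → NoFork D U → X ⊆ U → (∀ v ∈ X, ∀ w ∈ U, D.Adj v w → w ∈ X) →
  {T | ∃ v ∈ X, T = D.neighborSet v \ U}.encard ≤ t → Lay D (2 * t + 4) X

/-- **M13.** No large induced matching: the width of `Cl D` is bounded (uses E5, E6, E7, P4, P5; compare E11).

Proof. Let `M = 200 + 8 s + n + 3`, `m₂` the number of E7 for `κ = Fin (2 m₀) → Fin (2 m₀) → Prop` and `M`, `m₃` the number
of E6 for `e = 2`, `t = m₀`, `m = m₂ + 2`; `w = m₃`.  Suppose that there is an antichain with more than `w` elements,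
`x 0, .., x (w - 1)` different elements of it.  As in E11 we get finite sets `X i`, `Y i` (`i < m₂ + 2`) with at most
`m₀` elements each, such that `X i` is complete to `Y j` iff `i = j`; they are nonempty, and for `i ≠ j` the sets
`X i ∪ Y i` and `X j ∪ Y j` are disjoint.
Enumerate the sets: `X i = {ξ 0 i, .., ξ (m₀ - 1) i}`, `Y i = {η 0 i, .., η (m₀ - 1) i}` with repetitions (nonempty,
at most `m₀` elements; so `1 ≤ m₀`).  The rails: `v p i = ξ p i` for `p < m₀`, `v (m₀ + q) i = η q i` for `q < m₀`;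
`r = 2 m₀ - 1`.  E7 for `χ i j = fun p q => D.Adj (v p i) (v q j)` gives `M` indices (rename them `0, .., M - 1`) and
`E p q` with `D.Adj (v p i) (v q j) ↔ E p q` for all `i < j < M`, `p, q ≤ r`.  So `Pat D M r z E` for
`z p i = {v p i}`.  (`S_Pat`-fields: `dis` from the disjointness for different indices.)
(1) `¬ E p p`: otherwise `v p 0, v p 1, v p 2` is a triangle.
(2) For rails `x` (`x < m₀`) and `y` (`m₀ ≤ y < 2 m₀`) we have `v x i ~ v y i` for all `i`.  If `¬ E x y` and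
`¬ E y x` then `a i = v x i`, `b i = v y i` (`i < n`) is an induced matching (with (1)): contradiction.
(3) `X 0` is not complete to `Y 1`: there are `x`, `y` with `¬ E x y`, so `E y x` by (2).  `X 1` is not complete to `Y 0`:
there are `x'`, `y'` with `¬ E y' x'`, so `E x' y'` by (2).
(4) The pair `x, y'`.  If `E x y'`, `¬ E y' x`: P4 with `t = x`, `a = y'`, `b = y`.  If `¬ E x y'`, `E y' x`: P4 with
`t = y'`, `a = x`, `b = x'`.  The case `¬ E x y'`, `¬ E y' x` is impossible by (2).  So `E x y'` and `E y' x`.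
(5) The pair `x', y`.  If `E x' y`, `¬ E y x'`: P4 with `t = y`, `a = x`, `b = x'`.  If `¬ E x' y`, `E y x'`: P4 with
`t = x'`, `a = y'`, `b = y`.  So `E x' y` and `E y x'`.
(6) P5 with `p = x'`, `p' = y'`, `q = x`, `q' = y`: `E p p'`, `¬ E p' p`, `E q' q`, `¬ E q q'`,
`E q' p = E y x'`, `E q p' = E x y'`.  So `IsIndMinor (KCo s F1) Dᶜ` in all cases: contradiction. -/
def S_WidM : Prop := ∀ s m₀ n : ℕ, ∃ w : ℕ, ∀ (V : Type) [Finite V] (D : SimpleGraph V),
  Hyp s m₀ D → (∀ a b, ¬ IM D n a b) → WidP (Cl D) w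

/-- **M14.** Induced subgraphs.

Proof. `tri` is clear.  `noC`: `CoM (D.induce Y) m₀` gives `CoM D m₀` (apply `Subtype.val`).  `noF`: let `B` be a model
of `H = KCo s F1` in `(D.induce Y)ᶜ`; the sets `Subtype.val '' B w` form a model in `Dᶜ`: two elements `u, v : Y` are
adjacent in `(D.induce Y)ᶜ` iff `u.1, v.1` are adjacent in `Dᶜ`; `Conn` (`conn_iff`) is transported along the
image. -/
def S_HypI : Prop := ∀ (s m₀ : ℕ) (V : Type) (D : SimpleGraph V) (Y : Set V), Hyp s m₀ D →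
  Hyp s m₀ (D.induce Y)

/-- **M15.** No large induced matching in `Y`: bounded layout of `D[Y]` (uses M13, M14, `S_BW`).

Proof. `D' = D.induce Y` satisfies `Hyp` (M14) and has no induced matching of size `n` (compose with
`Subtype.val`).  M13: `WidP (Cl D') w`.  `S_BW` for `w` and `s` (first alternative: `¬ IsIndMinor (KCo s F1) D'ᶜ`) gives
`N`. -/
def S_NoIM : Prop := ∀ s m₀ n : ℕ, ∃ N : ℕ, ∀ (V : Type) [Finite V] (D : SimpleGraph V)
  (Y : Set V), Hyp s m₀ D → (∀ a b, IM D n a b → ¬ ∀ i < n, a i ∈ Y ∧ b i ∈ Y) →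
  Lay (D.induce Y) N Set.univ

/-- **M16.** Crossing matchings (uses M1).

Proof. Suppose all `x i ~ a j` and `y i ~ b j`.  So `x i ≁ b j` and `y i ≁ a j` (no triangles, `a j ~ b j`).  The vertices
`x i, y i` are different from all `a j`, `b j` (a vertex of the matching `a, b` has only one neighbour in it).
`g 0 = {x 0}`, `g 1 = {a 0}`, `g 2 = {a 1}`, `g 3 = {y 0}`, `g 4 = {b 2}`; for `i = 3, 4, 5, 6`:
`g (2 i - 1) = {x i, b i}`, `g (2 i) = {y i, a i}`.  The spare edges are `(a j, b j)`, `7 ≤ j < 7 + 2 s`.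
Complete pairs: `x 0 ~ a 0, a 1, y 0`; `y 0 ~ b 2`; `{x i, b i}` and `{y i, a i}`: `x i ~ y i`, `x i ~ a i`, `b i ~ y i`,
`b i ~ a i`.  All other pairs are not complete: `x 0 ≁ b 2`; `a 0, a 1, y 0, b 2`: `a 0 ≁ a 1`, `a 0 ≁ y 0`,
`a 0 ≁ b 2` and so on; `{x i, b i}` is not complete to `x 0` (`x i ≁ x 0`), `a 0`, `a 1` (`b i`), `y 0` (`x i`),
`b 2` (`b i`); `{y i, a i}` not to `x 0` (`y i`), `a 0`, `a 1` (`a i`), `y 0` (`y i`), `b 2` (`a i`); for `i ≠ j`:
`x i ≁ x j`, `x i ≁ y j`, `y i ≁ y j`.  M1: contradiction. -/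
def S_Crs : Prop := ∀ (s : ℕ) (V : Type) (D : SimpleGraph V) (a b x y : ℕ → V), TriFree D →
  ¬ IsIndMinor (KCo s F1) Dᶜ → IM D (8 + 2 * s) a b → IM D 7 x y →
  ¬ ∀ i < 7, ∀ j < 8 + 2 * s, D.Adj (x i) (a j) ∧ D.Adj (y i) (b j)

/-- **M17.** Lemma I (uses M1, M7).

Proof. `U` = vertices not in `A ∪ B`.  At most `c` of the indices `i < n` satisfy `a i ∈ X` (then `a i ∈ R`).
(1) Let `v', w' ∈ X ∩ L` and `v' ∈ A`.  `v'` is adjacent to all `a i`; at least `n - c - 1 ≥ 3` of them are outside `X`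
and not the exceptional neighbour of `v'`, so in `AX` (`exA`).  `w'` is adjacent to all elements of `AX`
(`Cel.subA`), so it touches at least three M-edges, so `w' ∈ A ∪ B` (`few`), and `w' ∈ B` is impossible
(`CM.nB`): `w' ∈ A`.  The same for `v' ∈ B`.  So `X ∩ L` is contained in `A`, in `B`, or in `U`.  The same holds for
`X \ L` (`Cel.swap`).
(2) `X ⊆ U`.  Suppose not.  By `Cel.swap` we may assume `v ∈ L`.  `X ∩ L ⊆ U` as `v ∈ U`, so `X \ L ⊆ A` or
`X \ L ⊆ B`; by `CM.swap`, `CE.swap` we may assume `X \ L ⊆ A` (the conclusion is symmetric).  So `y l ∈ A` is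
adjacent to all `a i`.
 (2a) `q ∈ X`: by `ina` `q ∉ L`, so `q ∈ A`: contradiction.
 (2b) `q ∉ X`, `q ∈ AX`.  `x l ~ q` for all `l < κ` (`Cel.mem_A`).  Choose different indices `i 3, i 4, i 5, i 6 < n` with
`a (i l) ∉ X` and `i l ∉ Jt D n a b q` (`n ≥ c + 2 + 4`); so `q ≁ a (i l)`, `q ≠ a (i l)` (`q` does not touch the
edge).  `g 0 = {q}`, `g 1 = {x 0}`, `g 2 = {x 1}`, `g 3 = {x 2}`, `g 4 = {y 2}`, and for `l = 3, .., 6`:
`g (2 l - 1) = {y l}`, `g (2 l) = {x l, a (i l)}`; spare edges `(x l, y l)`, `7 ≤ l < 7 + 2 s ≤ κ`.  Complete pairs: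
`q ~ x 0, x 1, x 2`; `x 2 ~ y 2`; `y l ~ x l`, `y l ~ a (i l)`.  Not complete: `q` and `y 2`, `y l`
(`q ~ x 2`, `q ~ x l`, no triangles), `q` and `a (i l)`; all other pairs by `IM D κ x y` (for `{x l, a (i l)}` use `x l`).
Different: `q, a (i l) ∉ X`.  M1: contradiction.
 (2c) `q ∉ X`, `q ∉ AX`.  Then `v` has an exceptional neighbour and at most two neighbours in `X` (`exA`).  `v` has a
neighbour `w ∈ X` (`nbr`), `w ∉ L` (`ina`), so `w ∈ A`.  `CE D A B v q`: `TyA D B A v` is false (`v ~ w ∈ A`), so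
`TyA D A B v`: `v` is adjacent to all elements of `A`, in particular to `y 0, y 1, y 2`, which are different elements
of `X`: contradiction.
(3) `AX ⊆ A ∪ B`: let `z ∈ AX`, `z ∈ U`.  `z ~ x 0, x 1, x 2`, `x 2 ~ y 2`, `y 2 ≁ x 0, x 1`: `Fork D z (x 0) (x 1) (x 2) (y 2)`,
all five in `U` by (2): contradiction to M7.  `BX ⊆ A ∪ B`: `Cel.swap`. -/
def S_LemI : Prop := ∀ (s m₀ c n : ℕ) (V : Type) (D : SimpleGraph V) (a b x y : ℕ → V)
  (A B L AX BX : Set V) (X R : Finset V), Hyp s m₀ D → CM D n a b A B → c + 20 + 2 * s ≤ n →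
  Cel D (8 + 2 * s) c X R L AX BX x y → (∀ i < n, (a i ∈ X → a i ∈ R) ∧ (b i ∈ X → b i ∈ R)) →
  ∀ v q : V, v ∈ X → v ∉ A → v ∉ B → q ∉ A → q ∉ B → CE D A B v q →
    (∀ w ∈ X, w ∉ A ∧ w ∉ B) ∧ AX ⊆ A ∪ B ∧ BX ⊆ A ∪ B

/-- **M18.** The case without large vertices (uses M7, M12).

Proof. M7: `NoFork D univ`.  M12 with `U = X = univ`, `t = 1`: `N(v) \ univ = ∅` is the only type. -/
def S_AllU : Prop := ∀ (s m₀ n : ℕ) (V : Type) [Finite V] (D : SimpleGraph V) (a b : ℕ → V)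
  (A B : Set V), Hyp s m₀ D → CM D n a b A B → 14 + 2 * s ≤ n → A ∪ B = ∅ →
  Lay D 8 Set.univ

/-- **M19.** Cells without exceptional neighbours which meet a clean edge (uses M17).

Proof. Let `L, AX, BX, x, y` be the data of the cell.  M17: `X` is contained in `U`, `AX, BX ⊆ A ∪ B`.
(1) `w ∈ X`, `u ∈ U`, `w ~ u`: if `u ∉ X` then `u ∈ N(w) \ X`, which is `AX` or `BX`: contradiction.
(2) For `w ∈ X ∩ L` and `z ∈ A ∪ B`: `w ~ z` iff `z ∈ AX` (`z ∉ X`); for `w ∈ X \ L`: iff `z ∈ BX`.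
(3) By (1) `q ∈ X`; by `Cel.swap` we may assume `v ∈ L`, so `q ∉ L`.  `CE D A B v q` and (2): either
(`A ⊆ AX`, `B ∩ AX = ∅`, `B ⊆ BX`, `A ∩ BX = ∅`) or the same with `A`, `B` exchanged.  By (2) every edge `w u` of `X`
(one end in `L`, the other not) is clean. -/
def S_CIn : Prop := ∀ (s m₀ c n : ℕ) (V : Type) (D : SimpleGraph V) (a b : ℕ → V)
  (A B : Set V) (X R : Finset V), Hyp s m₀ D → CM D n a b A B → c + 20 + 2 * s ≤ n →
  CelC D (8 + 2 * s) c X R → (∀ i < n, (a i ∈ X → a i ∈ R) ∧ (b i ∈ X → b i ∈ R)) →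
  ∀ v q : V, v ∈ X → v ∉ A → v ∉ B → q ∉ A → q ∉ B → CE D A B v q →
    (∀ w ∈ X, w ∉ A ∧ w ∉ B) ∧ (∀ w ∈ X, ∀ u, u ∉ A → u ∉ B → D.Adj w u → u ∈ X) ∧
    ∀ w ∈ X, ∀ u ∈ X, D.Adj w u → CE D A B w u

/-- **M20.** The union of all clean components is a cell (uses M7, M12).

Proof. `κ = 8 + 2 s`, `U` = the complement of `A ∪ B`.  For `v ∈ X` let `K ∋ v` be a clean component; `v` has a neighbour
`w ∈ K` (`Conn`, `K` has at least two elements), and `CE D A B v w`.  So `TyA D A B v` or `TyA D B A v`, not both (take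
an element of `A ∪ B`, `CM.disj`).  `L = {v | TyA D A B v}`.
(1) `N(v) \ X = A` for `v ∈ X ∩ L`, `= B` for `v ∈ X \ L`: a neighbour of `v` in `U` is in `K ⊆ X`; `X ⊆ U`;
`TyA` and `CM.disj`.
(2) `v, w ∈ X` adjacent: same component (`IsComp.eq`), `CE D A B v w`, so exactly one of them is in `L`.
(3) For `i ∈ I` the edge `a i, b i` is in a clean component (`b i ∈ U` by `CM.out`), so it is clean, one of its ends is in
`L`.  Enumerate `I` as `i 0, .., i (κ - 1)`; `x l` is the end of the edge `i l` in `L`, `y l` the other one.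
`IM D κ x y`.  `R` = the set of all `x l`, `y l`: at most `2 κ` elements.  `twin`: `x 0` or `y 0` by (1).
(4) `Lay D 8 X`: M7 and M12 with `t = 2` (`U`, `X`): `N(v) \ U` is `A` or `B` by (1) (`N(v) \ U = N(v) \ X` for `v ∈ X`, as
all neighbours in `U` are in `X`).  `8 ≤ c`.
`exA`, `exB`: first alternative. -/
def S_AlphaCel : Prop := ∀ (s m₀ c n : ℕ) (V : Type) [Finite V] (D : SimpleGraph V)
  (a b : ℕ → V) (A B : Set V) (X : Finset V) (I : Finset ℕ), Hyp s m₀ D → CM D n a b A B →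
  20 + 2 * s ≤ n → (A ∪ B).Nonempty → (∀ v, v ∈ X ↔ ∃ K, CComp D A B K ∧ v ∈ K) →
  (∀ i ∈ I, i < n ∧ a i ∈ X) → I.card = 8 + 2 * s → 16 + 4 * s ≤ c →
  ∃ R : Finset V, R.card ≤ 16 + 4 * s ∧ CelC D (8 + 2 * s) c X R

/-- **M21.** Cells which meet a clean component (uses M17, M19).

Proof. `v ∈ X ∩ K`, `K` a clean component; `v` has a neighbour `q ∈ K` (`Conn`, `K` has at least two elements), `v q` is
clean, `v, q ∈ U`.
(C) `CelC`: M19.  Let `w ∈ X`, `K'` its component in `D[U]` (`w ∈ U`).  `K' ⊆ X` by the second part of M19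
(`Conn.eq_of_nb`).  `w` has a neighbour in `X` (`nbr`), which is in `K'`; all edges of `K'` are clean by the third part.
So `CComp D A B K'`.
(S) `CelS`: M17: `X ⊆ U`.  `X = {w 0, .., w (m - 1)}` with `w i ~ w (i + 1)`; one `w i` is in `K`, so all are (`IsComp`), in
both directions by induction. -/
def S_AlphaIn : Prop := ∀ (s m₀ c h n : ℕ) (V : Type) [Finite V] (D : SimpleGraph V)
  (a b : ℕ → V) (A B : Set V) (X R : Finset V), Hyp s m₀ D → CM D n a b A B →
  c + 20 + 2 * s ≤ n → (CelC D (8 + 2 * s) c X R ∨ CelS D (8 + 2 * s) c h X R) →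
  (∀ i < n, (a i ∈ X → a i ∈ R) ∧ (b i ∈ X → b i ∈ R)) →
  (∃ K, CComp D A B K ∧ ∃ v ∈ K, v ∈ X) → ∀ w ∈ X, ∃ K, CComp D A B K ∧ w ∈ K

/-- **M22.** Enumeration of paths and cycles.

Proof. Consider the sequences `u 0, .., u (l - 1)` of different elements of `K` with `u i ~ u (i + 1)`; `l ≤ |K|`, and
`l = 2` is possible.  Take one with `l` maximal (`2 ≤ l`).
(1) For `0 < i < l - 1` the vertices `u (i - 1) ≠ u (i + 1)` are neighbours of `u i` in `K`, so they are all neighbours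
of `u i` in `K`.
(2) Let `z ∈ K` be a neighbour of `u 0`.  By maximality `z = u j` for some `j`, `1 ≤ j`.  If `1 < j < l - 1` then (1) for
`j` gives `0 ∈ {j - 1, j + 1}`: contradiction.  So `z = u 1` or `z = u (l - 1)`.  The same for `u (l - 1)`: its
neighbours in `K` are `u (l - 2)` and possibly `u 0`.
(3) So the set `{u i}` is closed in `K` and equal to `K` (`Conn.eq_of_nb`), and the adjacent pairs are the consecutive
ones and possibly `(0, l - 1)`.
(4) If `u 0 ≁ u (l - 1)`, or `l = 2`, or `¬ C (u 0) (u (l - 1))` (so also `¬ C (u (l - 1)) (u 0)`): done.  Otherwise `l ≥ 3`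
and `u 0 ~ u (l - 1)`, `C (u 0) (u (l - 1))`.  The edge `v w` with `¬ C v w` is `u i, u (i + 1)` for some `i + 1 < l`.
Take `u' j = u ((i + 1 + j) % l)`: consecutive elements are adjacent, the other adjacent pair is
`u' 0 = u (i + 1)`, `u' (l - 1) = u i`, which does not satisfy `C`. -/
def S_PathE : Prop := ∀ (V : Type) [Finite V] (D : SimpleGraph V) (K : Set V)
  (C : V → V → Prop), (∀ u v, C u v → C v u) → Conn D K →
  (∀ v ∈ K, (D.neighborSet v ∩ K).encard ≤ 2) →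
  (∃ v ∈ K, ∃ w ∈ K, D.Adj v w ∧ ¬ C v w) → ∃ l u, Enu D K C l u

/-- **M23.** No large induced matchings in complete bipartite graphs minus a matching.

Proof. Suppose `i 0, i 1, i 2 ∈ I` are different.  The edge `i j` has one end `p j ∈ P` and one end `q j ∈ Q` (`P`, `Q` are
independent).  `p 0 ≁ q 1`, `p 0 ≁ q 2`, `q 1 ≠ q 2`: contradiction to `AlmC D P Q`. -/
def S_PQ3 : Prop := ∀ (V : Type) (D : SimpleGraph V) (n : ℕ) (a b : ℕ → V) (P Q : Set V),
  (∀ u ∈ P, ∀ v ∈ P, ¬ D.Adj u v) → (∀ u ∈ Q, ∀ v ∈ Q, ¬ D.Adj u v) → AlmC D P Q →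
  IM D n a b → ∀ I : Finset ℕ, (∀ i ∈ I, i < n ∧ a i ∈ P ∪ Q ∧ b i ∈ P ∪ Q) → I.card ≤ 2

/-- **M24.** One edge in each component.

Proof. Choose `p i, q i ∈ K i` adjacent with `¬ C (p i) (q i)` for `i < m`, and `p i = p 0`, `q i = q 0` for `m ≤ i`.
Different components are disjoint (`IsComp.eq`) and there are no edges between them (an edge from `K i` to
`w ∈ K j ⊆ U` gives `w ∈ K i`). -/
def S_NumC : Prop := ∀ (V : Type) (D : SimpleGraph V) (U : Set V) (C : V → V → Prop) (m : ℕ)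
  (K : ℕ → Set V), 0 < m → (∀ i < m, IsComp D U (K i)) → (∀ i < m, ∀ j < m, K i = K j → i = j) →
  (∀ i < m, ∃ v ∈ K i, ∃ w ∈ K i, D.Adj v w ∧ ¬ C v w) →
  ∃ p q, IM D m p q ∧ ∀ i < m, p i ∈ U ∧ q i ∈ U ∧ ¬ C (p i) (q i)

/-- **M25.** Many M-edges in clean components or in one unclean path or cycle (uses M8, M23, M24).

Proof. `U` = the complement of `A ∪ B`; `a i, b i ∈ U` for `i < n` (`CM.out`).  `1 ≤ c₀` (otherwise the hypothesis gives
`i < 0`; `IM D 0 _ _` is trivial).  Let `K i` be the component of `a i` in `D[U]`; `b i ∈ K i`.  It has an edge; either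
all its edges are clean (`CComp`) or one is not.  Let `I₁` be the set of the `i < n` with `CComp D A B (K i)`.  If
`κ' ≤ |I₁|`: first case.  Otherwise the set `I₂` of the other indices has at least `c₀ (N₁ + 3)` elements.  The
components `K i`, `i ∈ I₂`, are fewer than `c₀` different sets: otherwise choose `c₀` different ones; M24 with
`C = CE D A B` gives an induced matching of size `c₀` in `U` without clean edges: contradiction.  Pigeonhole: there
are `K` and `I ⊆ I₂` with at least `N₁ + 3` elements and `K i = K` for `i ∈ I`.  M8 for `K`: in the second case of M8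
M23 gives `|I| ≤ 2`: contradiction.  So the first case of M8. -/
def S_Pig : Prop := ∀ (c₀ κ' N₁ n : ℕ) (V : Type) [Finite V] (D : SimpleGraph V) (a b : ℕ → V)
  (A B : Set V), TriFree D → CM D n a b A B → 2 ≤ n → NoFork D (A ∪ B)ᶜ →
  (∀ p q, IM D c₀ p q → (∀ i < c₀, p i ∉ A ∧ p i ∉ B ∧ q i ∉ A ∧ q i ∉ B) →
    ∃ i < c₀, CE D A B (p i) (q i)) →
  κ' + c₀ * (N₁ + 3) ≤ n →
  (∃ I : Finset ℕ, κ' ≤ I.card ∧ ∀ i ∈ I, i < n ∧ ∃ K, CComp D A B K ∧ a i ∈ K ∧ b i ∈ K) ∨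
  ∃ K, IsComp D (A ∪ B)ᶜ K ∧ (∀ v ∈ K, (D.neighborSet v ∩ K).encard ≤ 2) ∧
    (∃ v ∈ K, ∃ w ∈ K, D.Adj v w ∧ ¬ CE D A B v w) ∧
    ∃ I : Finset ℕ, N₁ ≤ I.card ∧ ∀ i ∈ I, i < n ∧ a i ∈ K ∧ b i ∈ K

/-- **M26.** A maximal clean run with many M-edges.

Proof. `E₀ = {j | j + 1 < l, ¬ C (u j) (u (j + 1))}`.
(1) `|E₀| ≤ 3 c₀`.  Otherwise let `e 1 < .. < e (3 c₀)` be elements of `E₀` which are at least `1`, and
`p i = u (e (3 i + 1))`, `q i = u (e (3 i + 1) + 1)` for `i < c₀`.  For `i < i'` we have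
`e (3 i' + 1) ≥ e (3 i + 1) + 3`; by `only` the vertices of the two edges are not adjacent: they are not
consecutive, and the index `0` does not occur.  So `IM D c₀ p q` (for `c₀ = 0` trivial), and no
`C (p i) (q i)`: contradiction to the last hypothesis.
(2) For `i ∈ I` the adjacent vertices `a i`, `b i` are `u j`, `u (j + 1)` in some order for `j = π i`, `j + 1 < l`, or
`{a i, b i} = {u 0, u (l - 1)}`; the second case occurs for at most one `i` (`IM`).  `π` is injective.  Let `I'` be the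
set of the `i ∈ I` of the first kind with `π i ∉ E₀`: `|I'| ≥ |I| - 1 - 3 c₀`.  For `i, i' ∈ I'`, `π i < π i'` we have
`π i + 3 ≤ π i'`: the vertices `u (π i), u (π i + 1), u (π i'), u (π i' + 1)` are different, and `u (π i + 1) ≁ u (π i')`.
(3) Let `ρ i` be the number of the `e ∈ E₀` with `e < π i`; `ρ i ≤ 3 c₀`.  By pigeonhole there are `I'' ⊆ I'` with at
least `N₂ + 2` elements and the same `ρ i` (`(3 c₀ + 1) (N₂ + 3) - 1 - 3 c₀ = (3 c₀ + 1) (N₂ + 2)`).  Let `j₁` be the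
smallest and `j₂` the largest `π i`, `i ∈ I''`.  There is no element of `E₀` in `[j₁, j₂]`.
(4) Let `α` be the smallest number such that no `e ∈ E₀` satisfies `α ≤ e ≤ j₁` (so `α = 0` or `α - 1 ∈ E₀`), and `β` the
smallest number `≥ j₂ + 1` with `β ∈ E₀` or `β + 1 = l` (`j₂ + 1 < l`).  `MRun C l u α β`.  (`fst`: `α - 1 ∈ E₀`, `C` is not
needed to be symmetric here.)
(5) `J` = the `i ∈ I''` with `π i ≠ j₁`, `π i ≠ j₂`: at least `N₂` elements; `π i ≥ j₁ + 3 ≥ α + 2`,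
`π i + 1 + 3 ≤ j₂ + 1 ≤ β`. -/
def S_RunL : Prop := ∀ (c₀ N₂ l n : ℕ) (V : Type) (D : SimpleGraph V) (K : Set V)
  (C : V → V → Prop) (u a b : ℕ → V) (I : Finset ℕ), Enu D K C l u → IM D n a b →
  (∀ i ∈ I, i < n ∧ a i ∈ K ∧ b i ∈ K) → (3 * c₀ + 1) * (N₂ + 3) ≤ I.card →
  (∀ p q, IM D c₀ p q → (∀ i < c₀, p i ∈ K ∧ q i ∈ K) → ∃ i < c₀, C (p i) (q i)) →
  ∃ α β, MRun C l u α β ∧ ∃ J ⊆ I, N₂ ≤ J.card ∧
    ∀ i ∈ J, ∃ j k, α + 2 ≤ j ∧ j + 2 ≤ β ∧ α + 2 ≤ k ∧ k + 2 ≤ β ∧ a i = u j ∧ b i = u k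

/-- **M27.** The inner part of a long maximal clean run is a cell (uses M9).

Proof. `κ = 8 + 2 s`, `U` = the complement of `A ∪ B`, `m = β - α - 3 ≥ 2 h + 7`, `w i = u (α + 2 + i)` for `i < m`; so
`X = {w 0, .., w (m - 1)}`.
(1) For `α ≤ j ≤ β` the vertex `u j` is an end of a clean edge (`α < β`), so `TyA D A B (u j)` or `TyA D B A (u j)`, not
both (`(A ∪ B).Nonempty`, `CM.disj`).  `L = {v | TyA D A B v}`.  For `α ≤ j < β` exactly one of `u j`, `u (j + 1)` is in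
`L` (`CE`).
(2) For `α + 2 ≤ j ≤ β - 2` the neighbours of `u j` in `U` are in `K`, so they are `u (j - 1)` and `u (j + 1)` (`only`,
`j` is neither `0` nor `l - 1`).  So `N(u j)` is `A ∪ {u (j - 1), u (j + 1)}` if `u j ∈ L`, and
`B ∪ {u (j - 1), u (j + 1)}` otherwise.  So `N(w i) \ X` is `A` resp. `B` for `0 < i`, `i + 1 < m`, it is
`insert (u (α + 1)) A` resp. `insert (u (α + 1)) B` for `i = 0`, and with `u (β - 1)` for `i = m - 1`.  Every `w i` has at
most two neighbours in `X` and at least one.  `w i ~ w j` iff `i, j` are consecutive.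
(3) `x l` is the one of `w (3 l + 1)`, `w (3 l + 2)` which is in `L`, `y l` the other one (`l < κ`); `3 l + 2 < 3 κ ≤ h`, so
they are in `R` and inner vertices.  `IM D κ x y`: the indices of different pairs differ by at least `2`.
(4) `R` = the set of the `w i` with `i < h` or `m ≤ i + h`: at most `2 h ≤ c` elements.  `twin`: inner vertices: `x 0` or
`y 0`; `w 0, w (m - 1) ∈ R`.
(5) `Lay D 8 X`: M9 with `t = 4`: `Conn D X` (a path), the types `N(v) \ X` are `A`, `B` and those of `w 0`,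
`w (m - 1)`.  `8 ≤ c`. -/
def S_BetaCel : Prop := ∀ (s m₀ c h n l α β : ℕ) (V : Type) [Finite V] (D : SimpleGraph V)
  (a b u : ℕ → V) (A B K : Set V) (X : Finset V), Hyp s m₀ D → CM D n a b A B →
  20 + 2 * s ≤ n → (A ∪ B).Nonempty → IsComp D (A ∪ B)ᶜ K → Enu D K (CE D A B) l u →
  MRun (CE D A B) l u α β → (∀ v, v ∈ X ↔ ∃ j, α + 2 ≤ j ∧ j + 2 ≤ β ∧ u j = v) →
  α + 2 * h + 10 ≤ β → 3 * (8 + 2 * s) ≤ h → 2 * h ≤ c → 8 ≤ c →
  ∃ R : Finset V, R.card ≤ 2 * h ∧ CelS D (8 + 2 * s) c h X R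

/-- **M28.** Cells which meet the inner part of a maximal clean run (uses M17, M19).

Proof. Let `v = u j₀ ∈ X'`, `α + 2 ≤ j₀ ≤ β - 2`.  `j₀` is neither `0` nor `l - 1`, so the neighbours of `v` in `K` are
`u (j₀ - 1)`, `u (j₀ + 1)`, and both edges are clean.  `q = u (j₀ + 1)`; `v, q ∈ U` (`K ⊆ U`).
(C) `CelC`: M19 gives that `X'` is closed in `D[U]`, so `K ⊆ X'` (`Conn.eq_of_nb`), and all edges of `X'` are clean; but
`K` contains an edge which is not clean: contradiction.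
(S) `CelS` with the path `w 0, .., w (m - 1)` and the data `L, AX, BX, x, y`.  M17: `X' ⊆ U`, `AX, BX ⊆ A ∪ B`.  `X' ⊆ K`
(a path in `U` which contains `v ∈ K`), so `w i = u (σ i)`, `σ i < l`, `σ` injective on `i < m`.
 (1) For an inner vertex `w i` (`0 < i`, `i + 1 < m`) and `z ∈ A ∪ B`: `w i ~ z` iff `z ∈ AX` if `w i ∈ L`, iff `z ∈ BX` if
`w i ∉ L`.  So for inner edges `w i w (i + 1)` (`0 < i`, `i + 2 < m`), whose ends have different labels (`ina`): if one
inner edge is clean then all inner edges are clean (as in M19).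
 (2) There is `i₁` with `0 < i₁`, `i₁ + 1 < m` and `α + 1 ≤ σ i₁ ≤ β - 1`: let `v = w i₀`; `i₁ = i₀` if `i₀` is inner;
`i₁ = 1` if `i₀ = 0` and `i₁ = m - 2` if `i₀ = m - 1` (`w i₁` is a neighbour of `v` in `K`, so `σ i₁ = j₀ ± 1`).  The
index `σ i₁` is neither `0` nor `l - 1`, so all neighbours of `w i₁` in `K` are `u (σ i₁ ± 1)` and these edges are
clean (`MRun.all`).  As `4 ≤ m`, one of `w (i₁ - 1)`, `w (i₁ + 1)` is an inner vertex; so there is a clean inner edge.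
By (1) all inner edges are clean.
 (3) All inner vertices satisfy `α ≤ σ i ≤ β`: this holds for `i₁`; if it holds for `i` and `w i w (i ± 1)` is an inner
edge (clean, so by `only` `σ (i ± 1) = σ i ± 1`), it holds for `i ± 1` (`MRun.fst`, `MRun.lst`: the edges
`u (α - 1) u α` and `u β u (β + 1)` are not clean; for `fst` note that `CE` is symmetric).
 (4) For `2 ≤ i`, `i + 3 ≤ m`: `σ (i - 1)`, `σ (i + 1)` are different and each is `σ i + 1` or `σ i - 1`; so
`{σ (i - 1), σ (i + 1)} = {σ i - 1, σ i + 1}`, and by (3) `α + 1 ≤ σ i ≤ β - 1`.  For `3 ≤ i`, `i + 4 ≤ m` the same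
argument gives `α + 2 ≤ σ i ≤ β - 2`.
 (5) `w i ∉ R'` means `h ≤ i` and `i + h < m`, so `3 ≤ i`, `i + 4 ≤ m`, as `3 ≤ h`. -/
def S_BetaIn : Prop := ∀ (s m₀ c h n l α β : ℕ) (V : Type) [Finite V] (D : SimpleGraph V)
  (a b u : ℕ → V) (A B K : Set V) (X' R' : Finset V), Hyp s m₀ D → CM D n a b A B →
  c + 20 + 2 * s ≤ n → IsComp D (A ∪ B)ᶜ K → (∃ v ∈ K, ∃ w ∈ K, D.Adj v w ∧ ¬ CE D A B v w) →
  Enu D K (CE D A B) l u → MRun (CE D A B) l u α β → 3 ≤ h →
  (CelC D (8 + 2 * s) c X' R' ∨ CelS D (8 + 2 * s) c h X' R') →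
  (∀ i < n, (a i ∈ X' → a i ∈ R') ∧ (b i ∈ X' → b i ∈ R')) →
  (∃ v ∈ X', ∃ j, α + 2 ≤ j ∧ j + 2 ≤ β ∧ u j = v) →
  ∀ v ∈ X', v ∉ R' → ∃ j, α + 2 ≤ j ∧ j + 2 ≤ β ∧ u j = v

/-- **M29.** Exchange.

Proof. `F'` consists of `(X, R)` and of the `p ∈ F` with `Disjoint p.1 X`.  `Fam` is clear.
`Vst F' ⊆ (Vst F \ (Z \ R)) ∪ R`: let `v ∈ Vst F'`, `v ∉ R`; so `v ∉ X` (by `(X, R) ∈ F'`), so `v ∉ Z`.  Suppose
`v ∉ Vst F`: there is `p ∈ F` with `v ∈ p.1`, `v ∉ p.2`.  If `p.1` is disjoint from `X` then `p ∈ F'`: contradiction.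
Otherwise the third hypothesis gives `v ∈ X`: contradiction.
As `Z \ R ⊆ Vst F`: `|Vst F'| ≤ |Vst F| - |Z \ R| + |R| ≤ |Vst F| - |Z| + 2 |R| < |Vst F|`. -/
def S_Exch : Prop := ∀ (κ c h : ℕ) (V : Type) [Finite V] (D : SimpleGraph V)
  (F : Finset (Finset V × Finset V)) (X R Z : Finset V), Fam D κ c h F →
  (CelC D κ c X R ∨ CelS D κ c h X R) →
  (∀ p ∈ F, (∃ v ∈ p.1, v ∈ X) → ∀ w ∈ p.1, w ∉ p.2 → w ∈ X) → Z ⊆ X →
  (∀ v ∈ Z, v ∈ Vst F) → 2 * R.card < Z.card →
  ∃ F', Fam D κ c h F' ∧ (Vst F').ncard < (Vst F).ncard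

/-- **M30.** A large induced matching among the vertices which are not deleted can be used to delete more (uses M5,
M6, M7, M18, M20, M21, M22, M25, M26, M27, M28, M29).

Proof. `κ = 8 + 2 s`, `h = 36 + 8 s`, `c = 2 h = 72 + 16 s`; `c₀, n₀` from M6; `N₂ = 2 h + 10`,
`N₁ = (3 c₀ + 1) (N₂ + 3)`, `κ' = 2 κ + 1`, `n' = n₀ + c + 20 + 2 s + κ' + c₀ (N₁ + 3)`; `n` is the number of M5 for
`n'`.  M5: `CM D n' a' b' A B` with `a' i, b' i ∈ Vst F`.  So for every `p ∈ F` and `i < n'`: `a' i ∈ p.1` implies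
`a' i ∈ p.2`, and the same for `b' i`.  If `A ∪ B = ∅`: M18 and `Lay.mono`.  Otherwise M7 and M6 give the hypotheses of
M25.
(α) `I` with `2 κ + 1` elements (at least), `a' i, b' i` in a clean component for `i ∈ I`.  `X` = the set of the vertices of
all clean components.  M20 with `κ` elements of `I` gives `R`, `|R| ≤ 2 κ`.  `Z` = the set of the `a' i, b' i`, `i ∈ I`:
`|Z| = 2 |I| ≥ 4 κ + 2` (`IM`), `Z ⊆ X`.  M21: if `p ∈ F` and `p.1` meets `X` then `p.1 ⊆ X`.  M29.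
(β) `K` and `I`.  M22 with `C = CE D A B`: `Enu D K (CE D A B) l u`.  M26 (its last hypothesis by M6, `K ⊆ U`) gives `α, β, J`.
`X = {u j | α + 2 ≤ j, j + 2 ≤ β}`, `Z` = the set of the `a' i, b' i`, `i ∈ J`: `Z ⊆ X`, `|Z| = 2 |J| ≥ 2 N₂ = 4 h + 20`.
`|X| ≤ β - α - 3` so `α + 2 h + 10 ≤ β`.  M27: `R` with `2 |R| ≤ 4 h < |Z|`.  M28: if `p ∈ F` and `p.1` meets `X` then
`p.1 \ p.2 ⊆ X`.  M29. -/
def S_StepX : Prop := ∀ s m₀ : ℕ, ∃ c h n : ℕ, ∀ (V : Type) [Finite V] (D : SimpleGraph V)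
  (F : Finset (Finset V × Finset V)), Hyp s m₀ D → Fam D (8 + 2 * s) c h F →
  (∃ a b, IM D n a b ∧ ∀ i < n, a i ∈ Vst F ∧ b i ∈ Vst F) →
  Lay D c Set.univ ∨ ∃ F', Fam D (8 + 2 * s) c h F' ∧ (Vst F').ncard < (Vst F).ncard

/-- **M31.** Relations between cells.

Proof. `z ∈ A`, so `z ∉ X` and `z ~ x l` for all `l < κ` (`Cel.mem_A`); `x l ∉ X'` (disjoint).  So `x 0, x 1 ∈ N(z) \ X'`,
which is `A'` or `insert e A'` (`exA` for `X'`); as `x 0 ≠ x 1` there is `l ∈ {0, 1}` with `x l ∈ A'`.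
(a) `w ∈ X'`, `w ∈ L'`: `A' ⊆ N(w) \ X'` (`Cel.subA`), so `w ~ x l`, and `w ∉ X`; so `w ∈ A`.
(b) By (a) `x' 0 ∈ A`.  `w ∈ X`, `w ∈ L`: `A ⊆ N(w) \ X`, so `w ~ x' 0`, `w ∉ X'`; so `w ∈ A'` (`Cel.mem_A`). -/
def S_Rel : Prop := ∀ (κ c : ℕ) (V : Type) (D : SimpleGraph V) (X R X' R' : Finset V)
  (L A B L' A' B' : Set V) (x y x' y' : ℕ → V), 2 ≤ κ → Cel D κ c X R L A B x y →
  Cel D κ c X' R' L' A' B' x' y' → Disjoint X X' → ∀ z ∈ X', z ∈ L' → z ∈ A →
  (∀ w ∈ X', w ∈ L' → w ∈ A) ∧ ∀ w ∈ X, w ∈ L → w ∈ A'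

/-- **M32.** Cells do not cross (uses M16, M31).

Proof. First part: suppose `x 0 ~ x' 0` and `y 0 ~ y' 0`.  `x' 0 ∈ A` (`Cel.mem_A`, disjoint), M31: `x' j ∈ A` for all
`j < κ`, so `x i ~ x' j` for all `i, j < κ`.  With `Cel.swap` for both cells: `y' 0 ∈ B`, so `y' j ∈ B` and `y i ~ y' j`.
M16 with `a = x'`, `b = y'` (`κ = 8 + 2 s`) and the first seven pairs `x i, y i`: contradiction.
Second part: the first part for `Cel.swap` of the second cell. -/
def S_RelX : Prop := ∀ (s c : ℕ) (V : Type) (D : SimpleGraph V) (X R X' R' : Finset V)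
  (L A B L' A' B' : Set V) (x y x' y' : ℕ → V), TriFree D → ¬ IsIndMinor (KCo s F1) Dᶜ →
  Cel D (8 + 2 * s) c X R L A B x y → Cel D (8 + 2 * s) c X' R' L' A' B' x' y' →
  Disjoint X X' → ¬ (D.Adj (x 0) (x' 0) ∧ D.Adj (y 0) (y' 0)) ∧
    ¬ (D.Adj (x 0) (y' 0) ∧ D.Adj (y 0) (x' 0))

/-- **M33.** A cut with few types splits boundedly many cells (uses E7, M3, M31, M32).

Proof. `κ = 8 + 2 s`.  `m = 3 + n + 3 (2 N + 2)`; `f` is the number of E7 for four-tuples of `Prop` and `m`.  Suppose that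
`Spl F S` has more than `f` elements; enumerate `f` different ones, `P 0, .., P (f - 1)`.  For `j < f` let
`L j, A j, B j, x j, y j` be the data of `Cel` (`Fam.cel`) for `P j`.
(1) By `Cel.swap` we may assume for every `j`: there are `p j ∈ R_j ∩ L j ∩ S` and `q j ∈ R_j \ L j`, `q j ∉ S`
(`R_j = (P j).2`).  Otherwise (neither for `L j` nor for its complement) all or none of the elements of `R_j` are in
`S`: if some element of `R_j ∩ L j` is in `S` then all elements of `R_j \ L j` are in `S`, in particular `y j 0`, so all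
elements of `R_j ∩ L j` are in `S`; if none is in `S` then no element of `R_j \ L j` is in `S` (as `x j 0 ∉ S`).  But `P j` is
split.
(2) E7: indices `s 0 < s 1 < ..` (rename them `0, .., m - 1`) such that for `j < k` the truth values of
`x j 0 ~ x k 0`, `y j 0 ~ y k 0`, `x j 0 ~ y k 0`, `y j 0 ~ x k 0` do not depend on `j < k`.  The first and the second are
false (triangles, `m ≥ 3`).  If the third and the fourth are false then `x j 0, y j 0` (`j < n`) is an induced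
matching of vertices of `Vst F` (`Fam.mem_Vst`): contradiction.  Not both are true (M32).  So either `x j 0 ~ y k 0`
iff `j < k` for all `j ≠ k`, or `x j 0 ~ y k 0` iff `k < j` for all `j ≠ k`.
(3) For `j ≠ k`: if `x j 0 ~ y k 0` then `p j ~ q k`; if not, then `p j ~ q k` holds for at most one `k` (`j` fixed).
PROOF.  `x j 0 ~ y k 0`: `y k 0 ∈ A j`; M31 (with `Cel.swap` for `P k`) gives `q k ∈ A j`, so `p j ~ q k` (`Cel.subA`).
`x j 0 ≁ y k 0` and `p j ~ q k`: `q k ∈ N(p j) \ X_j`; `q k ∈ A j` would give `y k 0 ∈ A j` by M31 and `x j 0 ~ y k 0`; so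
`q k` is the exceptional neighbour `e` of `p j` (`exA`), and the `q k` are different (disjoint cells).
(4) M3 with `τ = 1` and `R j k = (p j ~ q k and not x j 0 ~ y k 0)`: a set `J` of `2 N + 2` indices with
`p j ~ q k` iff `x j 0 ~ y k 0` for `j ≠ k ∈ J`.  Let `j 0 < .. < j (2 N + 1)` be its elements in increasing order in
the first case of (2), in decreasing order in the second case.  So `p (j a) ~ q (j b)` iff `a < b`, for `a ≠ b`.
(5) `q k ∈ Vst F`, `q k ∉ S`, `p j ∈ S`.  For `a ≤ N` let `T a = (N(p (j (2 a))) ∩ Vst F) \ S`; it contains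
`q (j (2 a + 1))`, and for `a < b ≤ N` `T b` does not contain `q (j (2 a + 1))`.  So `T 0, .., T N` are `N + 1` different
elements of `TyIn D (Vst F) S`: contradiction. -/
def S_Split : Prop := ∀ s m₀ n N : ℕ, ∃ f : ℕ, ∀ (c h : ℕ) (V : Type) [Finite V]
  (D : SimpleGraph V) (F : Finset (Finset V × Finset V)), Hyp s m₀ D →
  Fam D (8 + 2 * s) c h F →
  (∀ a b, IM D n a b → ¬ ∀ i < n, a i ∈ Vst F ∧ b i ∈ Vst F) →
  ∀ S : Set V, (TyIn D (Vst F) S).encard ≤ N → (Spl F S).card ≤ f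

/-- **M34.** The types of `hatS F r S`.

Proof. `Y = Vst F`, `S' = hatS F r S`, `W` = the union of the sets `p.2`, `p ∈ Spl F S`: at most `f c` elements.  For
`p ∈ F`: if `r p ∈ S` then `p.1 ⊆ S'`; if `r p ∉ S` then `p.1` is disjoint from `S'` (the cells are disjoint).
(1) Every `u ∈ S'` has a `u' ∈ S' ∩ (S ∪ W)` with `N(u) \ S' = N(u') \ S'`.  If `u` is in no cell then `u ∈ S`, `u' = u`.  If
`u ∈ p.1`, `r p ∈ S`: let `u' ∈ p.2` with `N(u) \ p.1 = N(u') \ p.1` (`twin`); as `p.1 ⊆ S'`,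
`N(u) \ S' = N(u') \ S'`.  If `u' ∉ S` then `p` is split by `S` (`r p ∈ p.2 ∩ S`), so `u' ∈ W`.
(2) For `u' ∈ S'` the set `N(u') \ S'` is determined by `(N(u') ∩ Y) \ S` and `N(u') ∩ W`: let `z ∉ S'`.  If `z` is in no
cell then `z ∈ Y`, `z ∉ S`, so `z ∈ N(u')` iff `z ∈ (N(u') ∩ Y) \ S`.  If `z ∈ p.1`, `p ∈ F`: `r p ∉ S`, let `z' ∈ p.2` be
the twin of `z`; `u' ∉ p.1`, so `u' ~ z` iff `u' ~ z'`; `z' ∈ Y` (`Fam.mem_Vst`).  If `z' ∉ S`: iff
`z' ∈ (N(u') ∩ Y) \ S`.  If `z' ∈ S` then `p` is split, `z' ∈ W`: iff `z' ∈ N(u') ∩ W`.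
(3) So the number of types is at most the number of the pairs `(T, T')`, `T = (N(u') ∩ Y) \ S` for some
`u' ∈ S ∪ W`, `T' ⊆ W`.  For `u' ∈ S` there are at most `N + 1` sets `T` (the elements of `TyIn D Y S` and `∅`), for
`u' ∈ W` at most `f c`; and there are at most `2 ^ (f c)` sets `T'`. -/
def S_LiftT : Prop := ∀ (κ c h N f : ℕ) (V : Type) [Finite V] (D : SimpleGraph V)
  (F : Finset (Finset V × Finset V)) (r : Finset V × Finset V → V), Fam D κ c h F →
  (∀ p ∈ F, r p ∈ p.2) → ∀ S ⊆ Vst F, (TyIn D (Vst F) S).encard ≤ N → (Spl F S).card ≤ f →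
  (Types D (hatS F r S)).encard ≤ ((N + 1 + f * c) * 2 ^ (f * c) : ℕ)

/-- **M35.** Lifting a layout (uses M34).

Proof. `Y = Vst F`, `N' = c + (N + 1 + f c) 2 ^ (f c)`.  For `p ∈ F` choose `r p ∈ p.2` (for example `x 0`, `1 ≤ κ`, `Fam.cel`).
CLAIM: `Lay (D.induce Y) N T` (`T : Set Y`) implies `Lay D N' (hatS F r (Subtype.val '' T))`.  Induction.
`empty`: `hatS F r ∅ = ∅`.  `single v`: if `v` is in no cell, `hatS = {v}` (`Lay.single'`).  If `v ∈ p.1`, `p ∈ F` (unique `p`):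
if `v = r p` then `hatS = p.1` and `Lay D c p.1` (`lay`; `Lay.mono`), otherwise `hatS = ∅` (`r p' = v` implies
`v ∈ p'.1`, so `p' = p`).  `union T T'`: `hatS` of the union is the union of the two sets `hatS`, which are disjoint
(`T`, `T'` are disjoint, the cells are disjoint).  Types: let `S = Subtype.val '' (T ∪ T')`; the elements of
`TyIn D Y S` are the images under `Subtype.val` of the elements of `Types (D.induce Y) (T ∪ T')`, so there are at
most `N`; the hypothesis gives `(Spl F S).card ≤ f`, and M34.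
For `T = univ`: `Subtype.val '' univ = Y`, and `hatS F r Y = univ`: `v` in no cell is in `Y`; `v ∈ p.1`, `p ∈ F`:
`r p ∈ Y` (`Fam.mem_Vst`). -/
def S_Lift : Prop := ∀ (κ c h N f : ℕ) (V : Type) [Finite V] (D : SimpleGraph V)
  (F : Finset (Finset V × Finset V)), 1 ≤ κ → Fam D κ c h F →
  (∀ S ⊆ Vst F, (TyIn D (Vst F) S).encard ≤ N → (Spl F S).card ≤ f) →
  Lay (D.induce (Vst F)) N Set.univ → Lay D (c + (N + 1 + f * c) * 2 ^ (f * c)) Set.univ

/-- **M36.** Bounded layouts (uses M15, M30, M33, M35).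

Proof. `c, h, n` from M30, `N₁` from M15 for `s, m₀, n`, `f` from M33 for `s, m₀, n, N₁`;
`N = c + (c + (N₁ + 1 + f c) 2 ^ (f c))`.  `∅` is a `Fam`.  Let `F` be a family with `Fam D (8 + 2 s) c h F` and
`(Vst F).ncard` minimal.  If there is an induced matching of size `n` in `Vst F` then M30 gives `Lay D c univ` (the other
case contradicts the minimality).  Otherwise M15 with `Y = Vst F`: `Lay (D.induce (Vst F)) N₁ univ`; M33 and M35. -/
def S_FinF1 : Prop := ∀ s m₀ : ℕ, ∃ N : ℕ, ∀ (V : Type) [Finite V] (D : SimpleGraph V),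
  Hyp s m₀ D → Lay D N Set.univ

/-- **M37.** The pair `(3 P_1, K_s ∨ co(S_{1,1,2} + 4 P_2))` is bounded (uses M36, D9, E10 and `layCW`).

Proof. Let `m₀` be the number of E10 for `13` and `s`.  Let `G` have no induced minor `⊥ : SimpleGraph (Fin 3)` and no
induced minor `KCo s F1`; `D = Gᶜ`, `Dᶜ = G`.  `D` is triangle-free: a triangle `x, y, z` of `D` gives the model
`{x}, {y}, {z}` of `⊥` in `G`.  `¬ CoM D m₀`: E10 with the proper 2-colouring
`![false, true, true, true, false, true, false, true, false, true, false, true, false]` of `F1` (`decide`).  So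
`Hyp s m₀ D`.  M36: `Lay D N univ`, D9: `Lay G (N + 1) univ`, and `S_LayCW` (proved in `LayCW.lean`) gives a bound for
the clique-width.  (Compare `FiveP2.lean`.) -/
def S_F1Row : Prop := ∀ s : ℕ, BoundedCW (⊥ : SimpleGraph (Fin 3)) (KCo s F1)

end Pool.Agent.MPd439b2.W
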