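import Pool.Agent.Lib.MP_d439b2_co.W.SpecD
import Pool.Agent.Lib.MP_d439b2_co.GT.SpecG

/-!
# MP_d439b2_co, W, Spec O: open bundles and layered separation (helper28)

Theorem O': if a triangle-free graph of bounded width without `F1` (or `F2`, or `F3`) has a layering of its vertices,
then its low and its high vertices are separated by a set with few types.
Every `S_...` is a statement to be proved in its own file; the docstring contains the complete proof.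
-/

set_option autoImplicit false

namespace Pool.Agent.MPd439b2.W

open Pool.Agent.MPd439b2

/-- one of the three graphs is excluded -/
def Excl (s : ℕ) {V : Type} (D : SimpleGraph V) : Prop :=
  ¬ IsIndMinor (KCo s F1) Dᶜ ∨ ¬ IsIndMinor (KCo s F2) Dᶜ ∨ ¬ IsIndMinor (KCo s F3) Dᶜ

/-- an open alternating bundle: even rails are below odd rails -/
structure OAlt {α : Type} [PartialOrder α] (m r : ℕ) (v : ℕ → ℕ → α) : Prop where
  ev : ∀ i < r, i % 2 = 0 → Step m (v i) (v (i + 1))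
  od : ∀ i < r, i % 2 = 1 → Step m (v (i + 1)) (v i)

/-- **Open group paths** (not yet homogeneous): nonempty groups `z i k`, groups with different indices are
disjoint; ladders between consecutive rails -/
structure GO {V : Type} (D : SimpleGraph V) (M r : ℕ) (z : ℕ → ℕ → Finset V) : Prop where
  ne : ∀ i ≤ r, ∀ k < M, (z i k).Nonempty
  dis : ∀ i ≤ r, ∀ j ≤ r, ∀ k < M, ∀ l < M, k ≠ l → Disjoint (z i k) (z j l)
  ev : ∀ i < r, i % 2 = 0 → ∀ k < M, ∀ l < M,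
    (k < l → Cmp D (z i k) (z (i + 1) l)) ∧ (l < k → ¬ Cmp D (z i k) (z (i + 1) l))
  od : ∀ i < r, i % 2 = 1 → ∀ k < M, ∀ l < M,
    (k < l → Cmp D (z (i + 1) k) (z i l)) ∧ (l < k → ¬ Cmp D (z (i + 1) k) (z i l))

/-- **Homogeneous open group paths** with `r` steps -/
structure HGO {V : Type} (D : SimpleGraph V) (M r : ℕ) (z : ℕ → ℕ → Finset V) (E : ℕ → ℕ → Prop) :
    Prop where
  pat : Pat D M r z E
  ev : ∀ i < r, i % 2 = 0 → E i (i + 1) ∧ ¬ E (i + 1) i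
  od : ∀ i < r, i % 2 = 1 → E (i + 1) i ∧ ¬ E i (i + 1)

/-- a homogeneous open group path from the level `a` (or lower) to the level `b` (or higher) -/
structure LO {V : Type} (D : SimpleGraph V) (lam : V → ℕ) (a b M r : ℕ) (z : ℕ → ℕ → Finset V)
    (E : ℕ → ℕ → Prop) : Prop where
  hgo : HGO D M r z E
  lo : ∀ k < M, ∀ x ∈ z 0 k, lam x ≤ a
  hi : ∀ k < M, ∀ x ∈ z r k, b ≤ lam x

/-- **O1.** No closed bundles: the skeleton has a carving of bounded width (uses A1, B1, B2, C7, E3, E4, E8, E9, E10,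
P9; compare the proof of `bW` in `W/BW.lean`, of which this is a simpler version).

Proof. `m₀`, `M₂`, `M₁`, `f` as in `W/BW.lean`: `¬ CoM D m₀` by E10 for `F1, F2, F3`; `M₂ r` the number of E9 for
`(r, 200 + 8 s)`, `M₁ r` the number of E8 for `(m₀, r, M₂ r)`, `f r` the number of E3 for `(w, r, max_{r' ≤ r} M₁ r')`.
Let `N₁` be the number of C7 for `n`, `q = 4 n`, `f`, and `g = 2 n (N₁ + 1) + 1`.  A1 for `ind (Gam c univ)`, `Δ = 2 n`,
`N = g`: the symmetry is clear, B1 (with `U = univ`) gives the second hypothesis.  Either the carving, or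
`Bad (ind (Gam c univ)) (2 n) g Z`: B2 with `U = univ`, `b = 4 n` gives `S` with `WL c (Z ∩ univ) S (4 n) (4 n)` and
`2 n (N₁ + 1) + 1 < 2 n (|S| + 1)`, so `N₁ ≤ |S|`; C7: a closed bundle of size `f r` with `r` steps; E3 with E4:
`Alt (max M₁) r' v'`, restrict to `Alt (M₁ r') r' v'`; E8, E9: `HGC D (200 + 8 s) r' z E`, contradicting P9. -/
def S_OCarv : Prop := ∀ n w s : ℕ, ∃ g : ℕ, 1 ≤ g ∧ ∀ (V : Type) [Finite V] (D : SimpleGraph V)
  [Fintype (Cl D)] [DecidableEq (Cl D)] (c : Cl D → Fin n), TriFree D → WidP (Cl D) w → Excl s D →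
  ChainP c → Carv (ind (Gam c Finset.univ)) g Finset.univ

/-- **O2.** Many disjoint paths or a small edge cut (uses Menger's theorem `GT.SMen`).

Proof. If every `X` with `GT.Cut Γ A B L X` has at least `k` elements, `GT.SMen` gives the paths.  Otherwise let
`GT.Cut Γ A B L X`, `|X| < k`, and `Y = L ∪ (X \ B)`.  `A ⊆ L ∪ X` and `A`, `B` are disjoint, so `A ⊆ Y`.  `L` and `B` are
disjoint, so `Y` and `B` are.  Let `x ∈ Y`, `y ∉ Y` be adjacent.  If `x ∈ L` then `y ∈ L ∪ X` (`far`), so `y ∈ X ∩ B`.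
So `wt Y Yᶜ ≤ wt L (X ∩ B) + wt (X \ B) Yᶜ = wt (X ∩ B) L + wt (X \ B) Yᶜ ≤ d |X ∩ B| + d |X \ B| = d |X| ≤ d k`
(symmetry of `ind Γ`; `wt (ind Γ) S T` is the sum of `wt (ind Γ) {x} T`, `x ∈ S`). -/
def S_OMen : Prop := ∀ (α : Type) [Fintype α] [DecidableEq α] (Γ : SimpleGraph α) (d k : ℕ)
  (A B : Finset α), (∀ x S, wt (ind Γ) {x} S ≤ d) → Disjoint A B →
  (∃ ν p, GT.Lkg Γ A B k ν p) ∨ ∃ Y, A ⊆ Y ∧ Disjoint Y B ∧ wt (ind Γ) Y Yᶜ ≤ d * k

/-- **O3.** Pigeonhole for open itineraries (the same as C5 `S_TrackOf` without the first and the last rail; copy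
`W/TrackOf.lean`).

Proof. The type of `k` is the triple of `s k` (at most `n + h`), the function `j ↦ c (A k j)` and the function
`j ↦ (Ess c (B k j) (A k (j + 1)))` (a truth value), `j : Fin (n + h + 1)`.  There are at most
`τ = (n + h + 1) * n ^ (n + h + 1) * 2 ^ (n + h + 1)` types; `M = τ * (2 m) + 1`.  So there are `2 m` indices
`κ 0, .., κ (2 m - 1) < M`, all different, of the same type.  Put `r = s (κ 0) - 1`, `A' k j = A (κ k) j`,
`B' k j = B (κ k) j`, `χ j = c (A' 0 j)`, `dir j = Ess c (B' 0 j) (A' 0 (j + 1))` (`1 ≤ m`, so `0 < 2 m`).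
`cA`: same type.  `cB`: `c (B k j) = c (A k j)` by `Run`.  `up`, `dn`: same type, and for every `k` and `j < r` one of
`Ess c (B' k j) (A' k (j + 1))`, `Ess c (A' k (j + 1)) (B' k j)` holds.
`sep`, rail `j ≤ r`: the elements `A, B := A (κ k) j, B (κ k) j` are in a run of `R (κ k)` and
`A', B' := A (κ k') j, B (κ k') j` in a run of `R (κ k')`, in the same chain, and `R (κ k)`, `R (κ k')` are
disjoint.  All four are comparable.  None of `A', B'` is between `A` and `B` (in either order) as it would be in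
`R (κ k)`, and none of `A, B` is between `A'` and `B'`.  So both `A'` and `B'` are above `A` and `B`, or both are
below `A` and `B`, or one of them, say `A'`, is above both and the other one `B'` is below both; in the last
case `A` is between `A'` and `B'`: contradiction. -/
def S_OIt : Prop := ∀ n h m : ℕ, 1 ≤ m → ∃ M : ℕ, ∀ (α : Type) [Fintype α] [DecidableEq α]
  [PartialOrder α] (c : α → Fin n) (U : Finset α) (R : ℕ → Finset α) (s : ℕ → ℕ) (A B : ℕ → ℕ → α),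
  ChainP c → (∀ k < M, ∀ l < M, k ≠ l → Disjoint (R k) (R l)) →
  (∀ k < M, 1 ≤ s k ∧ s k ≤ n + h ∧ (∀ j < s k, Run c U (R k) (A k j) (B k j)) ∧
    ∀ j, j + 1 < s k → Ess c (B k j) (A k (j + 1)) ∨ Ess c (A k (j + 1)) (B k j)) →
  ∃ (r : ℕ) (κ : ℕ → ℕ) (A' B' : ℕ → ℕ → α) (χ : ℕ → Fin n) (dir : ℕ → Prop),
    r ≤ n + h ∧ (∀ k < 2 * m, κ k < M ∧ s (κ k) = r + 1 ∧ A' k 0 = A (κ k) 0 ∧
      B' k r = B (κ k) r) ∧ Tracks c (2 * m) r A' B' χ dir

/-- **O4.** From many disjoint paths to an open bundle (uses A3, C4, O3, C6).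

Proof. Let `M` be the number of O3 for `n`, `h = 2 g`, `m`, and `K = 4 g M`.  For `i < K` let `Q i` be the set of the
vertices `p i 0, .., p i (ν i)` (and `Q i = ∅` for `K ≤ i`); it is connected (`GT.conn_seg`, `Q i = GT.seg (p i) 0 (ν i + 1)`),
and different ones are disjoint (`Lkg.dis`).  A3 (`S_Reg` with `M' = K`) gives `j k < K` and disjoint regions `R k`,
`k < M`, with `Q (j k) ⊆ R k` and `wt (ind Γ) (R k) (R k)ᶜ ≤ 2 g`.  C4 (`S_Reroute` with `U = univ`, `R = R k`,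
`Q = Q (j k)`, `h = 2 g`, `x = p (j k) 0`, `y = p (j k) (ν (j k))`) gives `s k`, `A k`, `B k` with `A k 0 = x ∈ A`,
`B k (s k - 1) = y ∈ B`.  O3 gives tracks, C6 (`S_Noncross`) gives `κ'` with `Bun m r (fun j k => A' (κ' k) j)`.
`v 0 k = A' (κ' k) 0 = A (κ (κ' k)) 0 = x ∈ A`; `c (v r k) = χ r = c (B' (κ' k) r)` and
`B' (κ' k) r = B (κ (κ' k)) r = y ∈ B` as `s (κ (κ' k)) = r + 1`. -/
def S_OBun : Prop := ∀ n g m : ℕ, 1 ≤ g → 1 ≤ m → ∃ K : ℕ, ∀ (α : Type) [Fintype α] [DecidableEq α]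
  [PartialOrder α] (c : α → Fin n) (A B : Finset α) (ν : Fin K → ℕ) (p : Fin K → ℕ → α),
  ChainP c → Carv (ind (Gam c Finset.univ)) g Finset.univ →
  GT.Lkg (Gam c Finset.univ) A B K ν p →
  ∃ (r : ℕ) (v : ℕ → ℕ → α), r ≤ n + 2 * g ∧ Bun m r v ∧ (∀ k < m, v 0 k ∈ A) ∧
    ∀ k < m, ∃ y ∈ B, c (v r k) = c y

/-- **O5.** Open bundles contain open alternating bundles (uses E2; compare E3 and `W/Alt.lean`).

Proof. Let `K = 4 w + 4`, `M 0 = m + 1`, `M (r + 1) = K * M r`.  CLAIM (induction on `r`): for every bundle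
`Bun (M r) r v` there are `r' ≤ r`, `v'` with `Bun (m + 1) r' v'`, whose consecutive steps have different types (for
`i + 1 < r'`: `Step (v' i) (v' (i + 1))` and `Step (v' (i + 2)) (v' (i + 1))`, or `Step (v' (i + 1)) (v' i)` and
`Step (v' (i + 1)) (v' (i + 2))`, size `m + 1`), and such that every `v' 0 k` (`k < m + 1`) is some `v 0 l`, every
`v' r' k` is some `v r l` (`l < M r`).  Choose for every `i < r` the type `up` (`Step (M r) (v i) (v (i + 1))`) or `down`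
(`Step (M r) (v (i + 1)) (v i)`) (one of them holds).  If the types alternate restrict `v` to the size `m + 1`
(`m + 1 ≤ M r`).  Otherwise two consecutive types `i - 1, i` (`1 ≤ i < r`) are equal.  Let `v₁ j k = v j (K k)` for
`j < i`, `v₁ j k = v (j + 1) (K k)` for `i ≤ j`; `Bun (M (r - 1)) (r - 1) v₁`: the step `i - 1` by E2 (for `up` with
`a, b, d = v (i - 1), v i, v (i + 1)`, for `down` with `a, b, d = v (i + 1), v i, v (i - 1)`), all other steps by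
restriction.  The rails `0` and `r` are kept (`1 ≤ i < r`).  Induction.
If the type of the step `0` of `v'` is `up` (or `r' = 0`): even steps are `up`, odd steps are `down`: `OAlt m r' v'`.
Otherwise `r'' = r' - 1`, `v'' j k = v' (j + 1) k`: `OAlt m r'' v''`, and for `k < m`:
`v' 1 k ≤ v' 0 (k + 1)`, so `pos (v'' 0 k) ≤ pos (v' 0 (k + 1)) + 2 ≤ a + 2`. -/
def S_OAlt : Prop := ∀ w r m : ℕ, ∃ M : ℕ, ∀ (α : Type) [PartialOrder α] (v : ℕ → ℕ → α)
  (pos : α → ℕ) (a b : ℕ), JoinP α → WidP α w →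
  (∀ x y, x ≤ y → pos x ≤ pos y + 2 ∧ pos y ≤ pos x + 2) → Bun M r v →
  (∀ k < M, pos (v 0 k) ≤ a) → (∀ k < M, b ≤ pos (v r k)) →
  ∃ (r' : ℕ) (v' : ℕ → ℕ → α), r' ≤ r ∧ OAlt m r' v' ∧ (∀ k < m, pos (v' 0 k) ≤ a + 2) ∧
    ∀ k < m, b ≤ pos (v' r' k)

/-- **O6.** From an open alternating bundle of closed sets to an open group path (uses E5, E6; copy `W/GrpA.lean`, the
proof of E8).

Proof. As E8: `M'` is the number of E6 for `e = r + 1`, `t = m₀`, `m = M + 4`.  For `i` even, `i ≤ r`, let `T i k` be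
the set `X` of E5 for `v i k` (`cn X = cn (v i k)`, so `X ⊆ cn (cn X) = v i k`); for `i` odd let `T i k` be the set `Y`
of E5 for `v i k` (`cn Y = v i k`, so `Y ⊆ cn (cn Y) = cn (v i k) = sg (v i k)`).  E6 gives `s` and `K`.
`z i k = T i (s (k + 2)) \ K i`, `τ k = s (k + 2)`.  `dis`, `ev`, `od` as in E8 (1), (2), (3).
`ne`: `i` even and `i < r`, or `i` odd: as in E8 (5).  `i` even, `i = r` (so `2 ≤ i` as `1 ≤ r`): suppose `z i k = ∅`,
`T i (s (k + 2)) = K i ⊆ T i (s 0)`, which is complete to `T (i - 1) (s 1)` (`Step M' (v i) (v (i - 1))`, `0 < 1`).  So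
`v i (s (k + 2)) ≤ v (i - 1) (s 1)`, contradicting `Step` as `s 1 < s (k + 2)`. -/
def S_OGrpA : Prop := ∀ m₀ r M : ℕ, ∃ M' : ℕ, ∀ (V : Type) [Finite V] (D : SimpleGraph V)
  (v : ℕ → ℕ → Cl D), ¬ CoM D m₀ → 1 ≤ r → OAlt M' r v → ∃ (z : ℕ → ℕ → Finset V) (τ : ℕ → ℕ),
    GO D M r z ∧ ∀ i ≤ r, ∀ k < M, τ k < M' ∧ ∀ x ∈ z i k, x ∈ (v i (τ k)).1 ∨ x ∈ (sg D (v i (τ k))).1

/-- **O7.** From an open group path to a homogeneous one (uses E7; copy `W/GrpB.lean`, the proof of E9).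

Proof. As E9: `M'` is the number of E7 for `κ = Fin (r + 1) → Fin (r + 1) → Prop` and `m = M + 2`;
`χ k l = fun i j => Cmp D (z i k) (z j l)`.  E7 gives `s` and `c`; `z' i k = z i (s k)`, `τ = s`, `E i j` is `c i j` for
`i, j ≤ r` (and `False` otherwise). -/
def S_OGrpB : Prop := ∀ r M : ℕ, ∃ M' : ℕ, ∀ (V : Type) (D : SimpleGraph V)
  (z : ℕ → ℕ → Finset V), GO D M' r z → ∃ (z' : ℕ → ℕ → Finset V) (E : ℕ → ℕ → Prop) (τ : ℕ → ℕ),
    HGO D M r z' E ∧ ∀ i, ∀ k < M, τ k < M' ∧ z' i k = z i (τ k)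

/-- **O8.** Levels change slowly.

Proof. Let `κ i = 0` for even `i` and `κ i = 1` for odd `i`.  For `i < r` the groups `z i (κ i)` and
`z (i + 1) (κ (i + 1))` are complete to each other (`pat.rel` and `ev`, resp. `od`, with the indices `0 < 1`, symmetry
of `Cmp`).  By induction on `i ≤ r`: every `x ∈ z i (κ i)` satisfies `lam x ≤ a + i` (there is `y ∈ z (i - 1) _` by `ne`,
`D.Adj x y`, so `lam x ≤ lam y + 1`).  For `i = r` take `x ∈ z r (κ r)`: `b ≤ lam x ≤ a + r`. -/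
def S_OLen : Prop := ∀ (V : Type) (D : SimpleGraph V) (lam : V → ℕ) (a b M r : ℕ)
  (z : ℕ → ℕ → Finset V) (E : ℕ → ℕ → Prop), 2 ≤ M → (∀ u v, D.Adj u v → lam u ≤ lam v + 1) →
  LO D lam a b M r z E → b ≤ a + r

/-- **O9.** Shortcuts in open paths (compare P7, `W/Short.lean`, cases (3) and (4)).

Proof. (1) `i < j` (`j ≠ i + 1`): keep the rails `0, .., i, j, .., r`: `ρ t = t` for `t ≤ i`,
`ρ t = t + (j - i - 1)` for `t > i`, `r' = r - (j - i - 1)`; `j - i - 1` is even and positive.  The new step `i` is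
even: `E i j`, `¬ E j i`.
(2) `j < i` (`i ≠ j + 1`): keep `0, .., j, i, .., r`: `ρ t = t` for `t ≤ j`, `ρ t = t + (i - j - 1)` for
`t > j`, `r' = r - (i - j - 1)`.  The new step `j` is odd: needs `E (ρ (j + 1)) (ρ j) = E i j` and `¬ E j i`.
The parity of `ρ t` is the parity of `t`, `ρ 0 = 0`, `ρ r' = r`, so `lo`, `hi` are the old ones.  `Pat.comp`. -/
def S_OShort : Prop := ∀ (V : Type) (D : SimpleGraph V) (lam : V → ℕ) (a b M r : ℕ)
  (z : ℕ → ℕ → Finset V) (E : ℕ → ℕ → Prop), LO D lam a b M r z E →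
  ∀ i ≤ r, ∀ j ≤ r, i % 2 = 0 → j % 2 = 1 → j ≠ i + 1 → i ≠ j + 1 → E i j → ¬ E j i →
  ∃ r' < r, ∃ z' E', LO D lam a b M r' z' E'

/-- **O10.** Closing a path (compare P7, `W/Short.lean`, cases (1) and (2)).

Proof. (1) `i < j`: `i + 3 ≤ j`.  `r' = j - i` (odd), `z' t = z (i + t)`, `E' t u = E (i + t) (i + u)`.  `ev`, `od` from
those of `E` (`i` is even), `clo`: `E i j`, `E j i`.
(2) `j < i`: `r' = i - j` (odd), `z' t = z (i - t)`, `E' t u = E (i - t) (i - u)`.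
`t < r'` even: the rails `i - t` (even) and `i - t - 1` (odd): `od` of the path at `i - t - 1` gives
`E (i - t) (i - t - 1)`, `¬ E (i - t - 1) (i - t)`, which is `ev` of the cycle.  `t` odd: the rails `i - t` (odd),
`i - t - 1` (even): `ev` of the path at `i - t - 1` gives `E (i - t - 1) (i - t)`, `¬ E (i - t) (i - t - 1)`: `od` of the
cycle at `t`.  `clo`: `E i j`, `E j i`.  `Pat.comp`. -/
def S_OClose : Prop := ∀ (V : Type) (D : SimpleGraph V) (M r : ℕ)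
  (z : ℕ → ℕ → Finset V) (E : ℕ → ℕ → Prop), HGO D M r z E →
  ∀ i ≤ r, ∀ j ≤ r, i % 2 = 0 → j % 2 = 1 → j ≠ i + 1 → i ≠ j + 1 → E i j → E j i →
  ∃ r' z' E', HGC D M r' z' E'

/-- **O11.** The combinatorics of a minimal open path (compare P8, `W/Cyc.lean`).  Let `T1` be the fifth, `T2` the
sixth hypothesis.

Proof. (1) `¬ E i i` (fourth hypothesis with `i, i, i`).
(2) Same parity, `i, i' ≤ 7`: `E i i'` implies `E i' i`.  Both even: otherwise `T1` with `t = i'`, `a = i' + 1`, `b = i`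
(`E i' (i' + 1)`, `¬ E (i' + 1) i'`, `E i i'`, `¬ E i' i`; `i' ≤ 6`).  Both odd: otherwise `T1` with `t = i`, `a = i'`,
`b = i - 1` (`E i i'`, `¬ E i' i`, `E (i - 1) i`, `¬ E i (i - 1)`).
(3) Distance two: `i` even, `i + 2 ≤ 6`: `¬ E i (i + 2)` (with `E (i + 2) (i + 1)`, `E i (i + 1)` it is a
transitive triangle), and `¬ E (i + 2) i` by (2).  `i` odd, `i + 2 ≤ 7`: `¬ E i (i + 2)` (with `E (i + 1) i`,
`E (i + 1) (i + 2)`), `¬ E (i + 2) i` by (2).
(4) `¬ E 1 5`: so `¬ E 5 1` by (2).  `Kn eB 6 E`: the diagonal by (1), consecutive pairs by `ev`, `od`, the pairs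
`(1, 5)`, even-odd pairs at distance `≥ 3` by the last hypothesis, pairs at distance two by (3); the pairs `(0, 4)`,
`(2, 6)`, `(0, 6)` are `none` in `eB`.
(5) `E 1 5`: so `E 5 1`.  `¬ E 2 6`: otherwise `E 6 2` by (2), and `T2` with `p, p', q, q' = 2, 1, 5, 6`
(`E 2 1`, `¬ E 1 2`, `E 6 5`, `¬ E 5 6`, `E 6 2`, `E 5 1`): contradiction.  So `¬ E 2 6`, `¬ E 6 2`, and
`Kn eB 6 (fun t u => E (u + 1) (t + 1))`: the consecutive pair `t, t + 1`, `t` even: `E (t + 2) (t + 1)` holds (`od` at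
`t + 1`) and `E (t + 1) (t + 2)` does not; `t` odd: `¬ E (t + 2) (t + 1)`, `E (t + 1) (t + 2)` (`ev` at `t + 1`); the
other pairs as in (4), the pair `(1, 5)` is `E 6 2`, `E 2 6`.
(For the check of `Kn` over all `i, j ≤ 6` use `interval_cases`.) -/
def S_OCyc : Prop := ∀ (r : ℕ) (E : ℕ → ℕ → Prop), 7 ≤ r →
  (∀ i < r, i % 2 = 0 → E i (i + 1) ∧ ¬ E (i + 1) i) →
  (∀ i < r, i % 2 = 1 → E (i + 1) i ∧ ¬ E i (i + 1)) →
  (∀ i ≤ r, ∀ j ≤ r, ∀ k ≤ r, ¬ (E i j ∧ E j k ∧ E i k)) →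
  (¬ ∃ t ≤ r, ∃ a ≤ r, ∃ b ≤ r, E t a ∧ ¬ E a t ∧ E b t ∧ ¬ E t b) →
  (¬ ∃ p ≤ r, ∃ p' ≤ r, ∃ q ≤ r, ∃ q' ≤ r, E p p' ∧ ¬ E p' p ∧
    ((E q q' ∧ ¬ E q' q) ∨ (E q' q ∧ ¬ E q q')) ∧ E q' p ∧ E q p') →
  (∀ i ≤ r, ∀ j ≤ r, i % 2 = 0 → j % 2 = 1 → j ≠ i + 1 → i ≠ j + 1 → ¬ E i j ∧ ¬ E j i) →
  Kn eB 6 E ∨ Kn eB 6 (fun t u => E (u + 1) (t + 1))

/-- **O12.** There are no long homogeneous open group paths (uses P1, P4, P5, P6, P9, O8, O9, O10, O11).

Proof. Strong induction on `r`.  Let `LO D lam a b M r z E`, and suppose that there is no such path with smaller `r'` (and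
the same `a, b, M`).  O8: `7 ≤ r`.  P4 and P5: the hypotheses `T1`, `T2` of O11 hold, because one of the three graphs is
not contained.  P1: the fourth hypothesis of O11.  Let `i` be even, `j` odd, not consecutive.  If `E i j` and `¬ E j i`:
O9 contradicts the minimality.  If `E i j` and `E j i`: O10 gives an `HGC`, contradicting P9.  If `¬ E i j` and `E j i`:
`T1` with `t = i`, `b = j` and `a = i + 1` if `i < r`, `a = i - 1` if `i = r` (`E i (i - 1)`, `¬ E (i - 1) i` by `od`,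
`i - 1` odd): contradiction.  So `¬ E i j ∧ ¬ E j i`.  O11 gives `Kn eB 6 E`: `Pat.comp` with `ρ = id` and P6, or
`Kn eB 6 E'` with `E' t u = E (u + 1) (t + 1)`: the pattern `z' t k = z (t + 1) (M - 1 - k)` (`Pat D M 6 z' E'`: for
`k < l < M`, `M - 1 - l < M - 1 - k`, so `Cmp D (z' t k) (z' u l)` iff `Cmp D (z (u + 1) (M - 1 - l)) (z (t + 1) (M - 1 - k))`
(symmetry) iff `E (u + 1) (t + 1)`), and P6.  So all three graphs are contained: contradiction. -/
def S_ONo : Prop := ∀ (s : ℕ) (V : Type) (D : SimpleGraph V) (lam : V → ℕ), TriFree D → Excl s D →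
  (∀ u v, D.Adj u v → lam u ≤ lam v + 1) →
  ∀ (a b M r : ℕ) (z : ℕ → ℕ → Finset V) (E : ℕ → ℕ → Prop), 200 + 8 * s ≤ M → a + 7 ≤ b →
    ¬ LO D lam a b M r z E

/-- **O13.** From a set of closed sets with a small boundary to a set of vertices with few types (uses D3, D6; compare D7,
`W/CarvLay.lean`, where the small lemmas on `cl v = cn (cn {v})` are).

Proof. `Γ = Gam c univ`, `σ = sg D`, `Y' = {x ∈ Y | σ x ∈ Y}`; so `σ x ∈ Y'` iff `x ∈ Y'`.
`wt (ind Γ) Y' Y'ᶜ ≤ 2 e`: let `x ∈ Y'`, `y ∉ Y'` be adjacent.  Either `y ∉ Y`: the pair is counted in `wt Y Yᶜ ≤ e`.  Or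
`y ∈ Y`, `σ y ∉ Y`: the pair `(σ x, σ y)` is adjacent (D6), `σ x ∈ Y`, `σ y ∉ Y`: again at most `e` pairs (`σ` is
injective).
Call `v` isolated if it has no neighbours.  For `v` not isolated let `cl v : Cl D` be `cn (cn {v})`; for `u, v` not
isolated `D.Adj v u ↔ cl v ≤ σ (cl u)`.
`X = P ∪ {v | v not isolated, cl v ∈ Y'}`.  `P ⊆ X`.  `v ∈ Q`: `v ∉ P`, and `cl v ∉ Y'` by hypothesis.  So `X` and `Q` are
disjoint.  The vertices of `P` which are not isolated satisfy `cl v ∈ Y'`.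
Types: let `v ∈ X` with a nonempty trace `N(v) \ X`; so `v` is not isolated, `cl v ∈ Y'`.  `N(v) \ X` consists of the
`u ∉ X`, not isolated, with `cl v ≤ σ (cl u)`, and `u ∉ X` implies `cl u ∉ Y'`, so `σ (cl u) ∉ Y'`.  So the trace is
determined by the set `{b | b ∉ Y' ∧ cl v ≤ b}`; D3 (with `Y'`, `2 e`) shows that there are at most
`n (2 e + 2) ^ n` traces (everything is finite). -/
def S_OTy : Prop := ∀ (n e : ℕ) (V : Type) [Finite V] (D : SimpleGraph V) [Fintype (Cl D)]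
  [DecidableEq (Cl D)] (c : Cl D → Fin n) (Y : Finset (Cl D)) (P Q : Set V), ChainP c →
  (∀ x y, c x = c y → c (sg D x) = c (sg D y)) →
  wt (ind (Gam c Finset.univ)) Y Yᶜ ≤ e → Disjoint P Q →
  (∀ v ∈ P, ∀ x : Cl D, x.1 = cn D (cn D {v}) → x ∈ Y ∧ sg D x ∈ Y) →
  (∀ v ∈ Q, ∀ x : Cl D, x.1 = cn D (cn D {v}) → x ∉ Y ∨ sg D x ∉ Y) →
  ∃ X : Set V, P ⊆ X ∧ Disjoint X Q ∧ (Types D X).encard ≤ ((n * (2 * e + 2) ^ n : ℕ) : ℕ∞)

/-- **O14.** **Layered separation** (Theorem O'; uses B1, D2, E4, E10, O1, O2, O4, O5, O6, O7, O12, O13).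

Proof. `n = 2 w`; `M = 200 + 8 s`; `m₀` as in `W/BW.lean` (E10 for `F1, F2, F3`): `¬ CoM D m₀`.  `g` from O1 for `n, w, s`,
`R = n + 2 g`.  For `r ≤ R`: `M_B r` the number of O7 for `(r, M)`, `M_A r` the number of O6 for `(m₀, r, M_B r)`,
`μ = 1 + max_{r ≤ R} M_A r`, `f r` the number of O5 for `(w, r, μ)`, `m = 1 + max_{r ≤ R} f r`, `K` the number of O4 for
`(n, g, m)`, `e = 2 n K`, `N = n (2 e + 2) ^ n`.
Let `D`, `lam`, `a`, `b` be given.  D2 gives `c : Cl D → Fin n`.  For `x : Cl D` let `pos x` be the minimum of `lam` on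
`x.1 ∪ (sg D x).1` (nonempty; e.g. `sInf (lam '' ..)`).
(p1) For `v ∈ x.1 ∪ (sg D x).1`: `pos x ≤ lam v ≤ pos x + 2`: every vertex of `x.1` is adjacent to every vertex of
`(sg D x).1 = cn x.1`; let `u` attain the minimum; if `u, v` are on different sides then `lam v ≤ lam u + 1`; if they are
on the same side use a vertex `t` of the other side: `lam v ≤ lam t + 1 ≤ lam u + 2`.
(p2) `x ≤ y`: a vertex of `x.1 ⊆ y.1` gives `pos x ≤ pos y + 2`, `pos y ≤ pos x + 2`.  (p3) `c x = c y`: the same by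
`ChainP`.  (p4) `pos (sg D x) = pos x` (`sg D (sg D x) = x`).
`A = {x | pos x ≤ a}`, `B = {x | b ≤ pos x + 2}`, disjoint.  O2 with `Γ = Gam c univ`, `d = 2 n` (B1), `k = K`.
(I) `Y` with `A ⊆ Y`, `Y ∩ B = ∅`, `wt Y Yᶜ ≤ 2 n K = e`: O13 with `P = {v | lam v ≤ a}`, `Q = {v | b ≤ lam v}`: for
`x.1 = cn (cn {v})` we have `v ∈ x.1`, so `v ∈ P` implies `pos x = pos (sg x) ≤ a`, `x, sg x ∈ A ⊆ Y`, and `v ∈ Q` implies
`b ≤ lam v ≤ pos x + 2`, `x ∈ B`, `x ∉ Y`.
(II) `GT.Lkg`: O4 gives `r ≤ R` and `Bun m r v` with `pos (v 0 k) ≤ a` and `b ≤ pos y + 2 ≤ pos (v r k) + 4` (p3).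
Restrict to the size `f r`.  O5 (with `b - 4` for `b`, E4): `r' ≤ r`, `OAlt μ r' v'`, `pos (v' 0 k) ≤ a + 2`,
`b - 4 ≤ pos (v' r' k)`.  `1 ≤ r'` as `a + 2 < b - 4` and `0 < μ`.  Restrict to `OAlt (M_A r') r' v'`.  O6, O7:
`HGO D M r' z' E` with `z' i k ⊆ v' i l ∪ sg (v' i l)`, `l = τ (τ' k) < μ`.  By (p1) `LO D lam (a + 4) (b - 4) M r' z' E`,
and `a + 4 + 7 ≤ b - 4`: contradiction to O12. -/
def S_OSep : Prop := ∀ w s : ℕ, ∃ N : ℕ, ∀ (V : Type) [Finite V] (D : SimpleGraph V) (lam : V → ℕ)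
  (a b : ℕ), TriFree D → WidP (Cl D) w → Excl s D → (∀ u v, D.Adj u v → lam u ≤ lam v + 1) →
  a + 15 ≤ b → ∃ X : Set V, (∀ v, lam v ≤ a → v ∈ X) ∧ (∀ v, b ≤ lam v → v ∉ X) ∧
    (Types D X).encard ≤ N

end Pool.Agent.MPd439b2.W
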