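import Pool.Agent.Lib.MP_d439b2_co.W.SpecE

/-!
# Closed bundles contain alternating closed bundles
-/

set_option autoImplicit false

namespace Pool.Agent.MPd439b2.W

open Pool.Agent.MPd439b2

namespace AltAux

section

variable {α : Type} [PartialOrder α]

/-- steps can be restricted along an increasing map -/
theorem step_restr {M M' : ℕ} {a b : ℕ → α} (h : Step M a b) (f : ℕ → ℕ)
    (hf : ∀ k l, k < l → f k < f l) (hb : ∀ k, k < M' → f k < M) :
    Step M' (fun k => a (f k)) (fun k => b (f k)) := by
  intro k hk l hl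
  exact ⟨fun hkl => (h _ (hb k hk) _ (hb l hl)).1 (hf k l hkl),
    fun hlk => (h _ (hb k hk) _ (hb l hl)).2 (hf l k hlk)⟩

theorem step_le {M M' : ℕ} {a b : ℕ → α} (h : Step M a b) (hM : M' ≤ M) : Step M' a b :=
  step_restr h id (fun _ _ h => h) (fun _ hk => lt_of_lt_of_le hk hM)

/-- the inductive statement -/
def Claim (w m r M : ℕ) : Prop :=
  m ≤ M ∧ ∀ (α : Type) [PartialOrder α] (v : ℕ → ℕ → α),
    JoinP α → WidP α w → Bun M r v → (∀ k < M, ∀ l < M, v 0 k ≤ v r l) →
    ∃ (r' : ℕ) (v' : ℕ → ℕ → α), r' ≤ r ∧ Alt m r' v'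

/-- merging two consecutive rails -/
theorem merge_bun (h1 : S_Merge) {w r M' : ℕ} {v : ℕ → ℕ → α} (hJ : JoinP α) (hW : WidP α w)
    (hB : Bun ((4 * w + 4) * M' + 1) (r + 1) v) (i : ℕ) (hir : i < r)
    (h2 : (Step ((4 * w + 4) * M' + 1) (v i) (v (i + 1)) ∧
        Step ((4 * w + 4) * M' + 1) (v (i + 1)) (v (i + 2))) ∨
      (Step ((4 * w + 4) * M' + 1) (v (i + 1)) (v i) ∧
        Step ((4 * w + 4) * M' + 1) (v (i + 2)) (v (i + 1)))) :
    Bun M' r (fun j k => if j ≤ i then v j ((4 * w + 4) * k) else v (j + 1) ((4 * w + 4) * k)) := by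
  have hK : 0 < 4 * w + 4 := by omega
  have hf : ∀ k l, k < l → (4 * w + 4) * k < (4 * w + 4) * l := fun k l h =>
    Nat.mul_lt_mul_of_pos_left h hK
  have hb : ∀ k, k < M' → (4 * w + 4) * k < (4 * w + 4) * M' + 1 := fun k h =>
    lt_trans (hf k M' h) (Nat.lt_succ_self _)
  have hmono : ∀ j, j ≤ r + 1 → ∀ k l, k < l → l < (4 * w + 4) * M' → v j k < v j l :=
    fun j hj k l hkl hl => hB.mono j hj k l hkl (lt_trans hl (Nat.lt_succ_self _))
  have hmerge : Step M' (fun k => v i ((4 * w + 4) * k)) (fun k => v (i + 2) ((4 * w + 4) * k)) ∨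
      Step M' (fun k => v (i + 2) ((4 * w + 4) * k)) (fun k => v i ((4 * w + 4) * k)) := by
    rcases h2 with ⟨h2, h3⟩ | ⟨h2, h3⟩
    · left
      exact h1 α w M' (v i) (v (i + 1)) (v (i + 2)) hJ hW
        (fun k l hkl hl => ⟨hmono i (by omega) k l hkl hl, hmono (i + 1) (by omega) k l hkl hl,
          hmono (i + 2) (by omega) k l hkl hl⟩)
        (step_le h2 (Nat.le_succ _)) (step_le h3 (Nat.le_succ _))
    · right
      exact h1 α w M' (v (i + 2)) (v (i + 1)) (v i) hJ hW
        (fun k l hkl hl => ⟨hmono (i + 2) (by omega) k l hkl hl,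
          hmono (i + 1) (by omega) k l hkl hl, hmono i (by omega) k l hkl hl⟩)
        (step_le h3 (Nat.le_succ _)) (step_le h2 (Nat.le_succ _))
  constructor
  · intro j hj k l hkl hl
    show (if j ≤ i then v j ((4 * w + 4) * k) else v (j + 1) ((4 * w + 4) * k)) <
      (if j ≤ i then v j ((4 * w + 4) * l) else v (j + 1) ((4 * w + 4) * l))
    by_cases hji : j ≤ i
    · rw [if_pos hji, if_pos hji]
      exact hB.mono j (by omega) _ _ (hf k l hkl) (hb l hl)
    · rw [if_neg hji, if_neg hji]
      exact hB.mono (j + 1) (by omega) _ _ (hf k l hkl) (hb l hl)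
  · intro j hj
    rcases lt_trichotomy j i with hji | hji | hji
    · have e1 : (fun k => if j ≤ i then v j ((4 * w + 4) * k) else v (j + 1) ((4 * w + 4) * k)) =
          fun k => v j ((4 * w + 4) * k) := by
        funext k
        rw [if_pos hji.le]
      have e2 : (fun k => if j + 1 ≤ i then v (j + 1) ((4 * w + 4) * k) else
          v (j + 1 + 1) ((4 * w + 4) * k)) = fun k => v (j + 1) ((4 * w + 4) * k) := by
        funext k
        rw [if_pos (by omega)]
      show Step M' (fun k => if j ≤ i then v j ((4 * w + 4) * k) else v (j + 1) ((4 * w + 4) * k))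
        (fun k => if j + 1 ≤ i then v (j + 1) ((4 * w + 4) * k) else
          v (j + 1 + 1) ((4 * w + 4) * k)) ∨ Step M' (fun k => if j + 1 ≤ i then
            v (j + 1) ((4 * w + 4) * k) else v (j + 1 + 1) ((4 * w + 4) * k))
        (fun k => if j ≤ i then v j ((4 * w + 4) * k) else v (j + 1) ((4 * w + 4) * k))
      rw [e1, e2]
      rcases hB.step j (by omega) with h | h
      · exact Or.inl (step_restr h _ hf hb)
      · exact Or.inr (step_restr h _ hf hb)
    · subst hji
      have e1 : (fun k => if j ≤ j then v j ((4 * w + 4) * k) else v (j + 1) ((4 * w + 4) * k)) =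
          fun k => v j ((4 * w + 4) * k) := by
        funext k
        rw [if_pos le_rfl]
      have e2 : (fun k => if j + 1 ≤ j then v (j + 1) ((4 * w + 4) * k) else
          v (j + 1 + 1) ((4 * w + 4) * k)) = fun k => v (j + 2) ((4 * w + 4) * k) := by
        funext k
        rw [if_neg (by omega)]
      show Step M' (fun k => if j ≤ j then v j ((4 * w + 4) * k) else v (j + 1) ((4 * w + 4) * k))
        (fun k => if j + 1 ≤ j then v (j + 1) ((4 * w + 4) * k) else
          v (j + 1 + 1) ((4 * w + 4) * k)) ∨ Step M' (fun k => if j + 1 ≤ j then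
            v (j + 1) ((4 * w + 4) * k) else v (j + 1 + 1) ((4 * w + 4) * k))
        (fun k => if j ≤ j then v j ((4 * w + 4) * k) else v (j + 1) ((4 * w + 4) * k))
      rw [e1, e2]
      exact hmerge
    · have e1 : (fun k => if j ≤ i then v j ((4 * w + 4) * k) else v (j + 1) ((4 * w + 4) * k)) =
          fun k => v (j + 1) ((4 * w + 4) * k) := by
        funext k
        rw [if_neg (by omega)]
      have e2 : (fun k => if j + 1 ≤ i then v (j + 1) ((4 * w + 4) * k) else
          v (j + 1 + 1) ((4 * w + 4) * k)) = fun k => v (j + 1 + 1) ((4 * w + 4) * k) := by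
        funext k
        rw [if_neg (by omega)]
      show Step M' (fun k => if j ≤ i then v j ((4 * w + 4) * k) else v (j + 1) ((4 * w + 4) * k))
        (fun k => if j + 1 ≤ i then v (j + 1) ((4 * w + 4) * k) else
          v (j + 1 + 1) ((4 * w + 4) * k)) ∨ Step M' (fun k => if j + 1 ≤ i then
            v (j + 1) ((4 * w + 4) * k) else v (j + 1 + 1) ((4 * w + 4) * k))
        (fun k => if j ≤ i then v j ((4 * w + 4) * k) else v (j + 1) ((4 * w + 4) * k))
      rw [e1, e2]
      rcases hB.step (j + 1) (by omega) with h | h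
      · exact Or.inl (step_restr h _ hf hb)
      · exact Or.inr (step_restr h _ hf hb)

end

theorem claim_succ (h1 : S_Merge) {w m r M' : ℕ} (ih : Claim w m r M') :
    Claim w m (r + 1) ((4 * w + 4) * M' + 1) := by
  obtain ⟨hmM, ih⟩ := ih
  have hK : 0 < 4 * w + 4 := by omega
  have hMM : M' ≤ (4 * w + 4) * M' := Nat.le_mul_of_pos_left M' hK
  refine ⟨by omega, ?_⟩
  intro α _ v hJ hW hB hclo
  by_cases c1 : ∃ i, i < r ∧ ((Step ((4 * w + 4) * M' + 1) (v i) (v (i + 1)) ∧
      Step ((4 * w + 4) * M' + 1) (v (i + 1)) (v (i + 2))) ∨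
      (Step ((4 * w + 4) * M' + 1) (v (i + 1)) (v i) ∧
        Step ((4 * w + 4) * M' + 1) (v (i + 2)) (v (i + 1))))
  · obtain ⟨i, hir, h2⟩ := c1
    have hB' := merge_bun h1 hJ hW hB i hir h2
    obtain ⟨r', v', hr', hA⟩ := ih α _ hJ hW hB' (by
      intro k hk l hl
      show (if 0 ≤ i then v 0 ((4 * w + 4) * k) else v (0 + 1) ((4 * w + 4) * k)) ≤
        (if r ≤ i then v r ((4 * w + 4) * l) else v (r + 1) ((4 * w + 4) * l))
      rw [if_pos (Nat.zero_le i), if_neg (by omega)]
      exact hclo _ (lt_trans (Nat.mul_lt_mul_of_pos_left hk hK) (Nat.lt_succ_self _)) _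
        (lt_trans (Nat.mul_lt_mul_of_pos_left hl hK) (Nat.lt_succ_self _)))
    exact ⟨r', v', by omega, hA⟩
  · by_cases c2 : Step ((4 * w + 4) * M' + 1) (v 1) (v 0)
    · obtain ⟨r', v', hr', hA⟩ := ih α (fun j k => v (j + 1) k) hJ hW
        ⟨fun i hi k l hkl hl => hB.mono (i + 1) (by omega) k l hkl (by omega),
          fun i hi => (hB.step (i + 1) (by omega)).imp (fun h => step_le h (by omega))
            (fun h => step_le h (by omega))⟩ (by
        intro k hk l hl
        exact le_trans ((c2 k (by omega) (k + 1) (by omega)).1 (Nat.lt_succ_self k))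
          (hclo (k + 1) (by omega) l (by omega)))
      exact ⟨r', v', by omega, hA⟩
    · by_cases c3 : Step ((4 * w + 4) * M' + 1) (v (r + 1)) (v r)
      · obtain ⟨r', v', hr', hA⟩ := ih α (fun j k => v j (k + 1)) hJ hW
          ⟨fun i hi k l hkl hl => hB.mono i (by omega) (k + 1) (l + 1) (by omega) (by omega),
            fun i hi => (hB.step i (by omega)).imp
              (fun h => step_restr h (fun k => k + 1) (fun k l h => Nat.succ_lt_succ h)
                (fun k hk => by omega))
              (fun h => step_restr h (fun k => k + 1) (fun k l h => Nat.succ_lt_succ h)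
                (fun k hk => by omega))⟩ (by
          intro k hk l hl
          exact le_trans (hclo (k + 1) (by omega) 0 (by omega))
            ((c3 0 (by omega) (l + 1) (by omega)).1 (Nat.succ_pos l)))
        exact ⟨r', v', by omega, hA⟩
      · have key : ∀ i, i ≤ r → (i % 2 = 0 → Step ((4 * w + 4) * M' + 1) (v i) (v (i + 1))) ∧
            (i % 2 = 1 → Step ((4 * w + 4) * M' + 1) (v (i + 1)) (v i)) := by
          intro i
          induction i with
          | zero =>
            intro _
            refine ⟨fun _ => ?_, fun h => by omega⟩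
            rcases hB.step 0 (by omega) with h | h
            · exact h
            · exact absurd h c2
          | succ i ihi =>
            intro hi
            obtain ⟨h3, h4⟩ := ihi (by omega)
            constructor
            · intro hev
              have h5 := h4 (by omega)
              rcases hB.step (i + 1) (by omega) with h | h
              · exact h
              · exact absurd ⟨i, by omega, Or.inr ⟨h5, h⟩⟩ c1
            · intro hod
              have h5 := h3 (by omega)
              rcases hB.step (i + 1) (by omega) with h | h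
              · exact absurd ⟨i, by omega, Or.inl ⟨h5, h⟩⟩ c1
              · exact h
        have hr : r % 2 = 0 := by
          by_contra hr
          exact c3 ((key r le_rfl).2 (by omega))
        refine ⟨r + 1, v, le_rfl, ?_⟩
        exact
          { odd := by omega
            ev := fun i hi he => step_le ((key i (by omega)).1 he) (by omega)
            od := fun i hi ho => step_le ((key i (by omega)).2 ho) (by omega)
            clo := fun k hk l hl => hclo k (by omega) l (by omega) }

theorem claim_all (h1 : S_Merge) (w m r : ℕ) : ∃ M, Claim w m r M := by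
  induction r with
  | zero =>
    refine ⟨m + 2, by omega, ?_⟩
    intro α _ v _ _ hB hclo
    exact absurd (lt_of_le_of_lt (hclo 1 (by omega) 0 (by omega))
      (hB.mono 0 le_rfl 0 1 (by omega) (by omega))) (lt_irrefl _)
  | succ r ih =>
    obtain ⟨M', hM'⟩ := ih
    exact ⟨_, claim_succ h1 hM'⟩

end AltAux

open AltAux

theorem alt (h1 : S_Merge) : S_Alt := by
  intro w r m
  obtain ⟨M, _, hM⟩ := claim_all h1 w m r
  exact ⟨M, hM⟩

end Pool.Agent.MPd439b2.W
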