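import Pool.Agent.Lib.MP_d439b2_co.W.SpecO
import Pool.Agent.Lib.MP_d439b2_co.W.SpecM

/-!
# MP_d439b2_co, W: one component of the light graph, definitions and small lemmas (helper28)
-/

set_option autoImplicit false

namespace Pool.Agent.MPd439b2.W

open Pool.Agent.MPd439b2

section defs

variable {V : Type}

/-- the spider `S_{2,2,3}` -/
def S223 : SimpleGraph (Fin 8) :=
  ofE 8 [(0, 1), (1, 2), (0, 3), (3, 4), (0, 5), (5, 6), (6, 7)]

/-- there is an induced spider `S_{2,2,3}` inside `K` (the map `u` is injective, `inj_S223`) -/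
def Sp (D : SimpleGraph V) (K : Set V) : Prop :=
  ∃ u : Fin 8 → V, (∀ i, u i ∈ K) ∧ ∀ i j, D.Adj (u i) (u j) ↔ S223.Adj i j

/-- the spider with the centre `c` and the legs `x₁ x₂`, `y₁ y₂`, `z₁ z₂ z₃`; the other non-edges follow from the
absence of triangles, and the eight vertices are different (see `Spd.ind`, `Spd.sp`) -/
structure Spd (D : SimpleGraph V) (c x₁ x₂ y₁ y₂ z₁ z₂ z₃ : V) : Prop where
  cx : D.Adj c x₁
  xx : D.Adj x₁ x₂
  cy : D.Adj c y₁
  yy : D.Adj y₁ y₂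
  cz : D.Adj c z₁
  zz : D.Adj z₁ z₂
  zw : D.Adj z₂ z₃
  ncz3 : ¬ D.Adj c z₃
  nx1y2 : ¬ D.Adj x₁ y₂
  nx1z2 : ¬ D.Adj x₁ z₂
  nx1z3 : ¬ D.Adj x₁ z₃
  nx2y1 : ¬ D.Adj x₂ y₁
  nx2y2 : ¬ D.Adj x₂ y₂
  nx2z1 : ¬ D.Adj x₂ z₁
  nx2z2 : ¬ D.Adj x₂ z₂
  nx2z3 : ¬ D.Adj x₂ z₃
  ny1z2 : ¬ D.Adj y₁ z₂
  ny1z3 : ¬ D.Adj y₁ z₃
  ny2z1 : ¬ D.Adj y₂ z₁
  ny2z2 : ¬ D.Adj y₂ z₂
  ny2z3 : ¬ D.Adj y₂ z₃

/-- levels of the set `K` from the root `r` (breadth first search) -/
structure Lvl (D : SimpleGraph V) (K : Set V) (lam : V → ℕ) (r : V) : Prop where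
  root : r ∈ K
  zero : lam r = 0
  par : ∀ v ∈ K, v ≠ r → ∃ u ∈ K, D.Adj v u ∧ lam v = lam u + 1
  slow : ∀ u ∈ K, ∀ v ∈ K, D.Adj u v → lam u ≤ lam v + 1

/-- `p` is a path down from `v` to the root: `p j` is on the level `j` -/
structure Dn (D : SimpleGraph V) (K : Set V) (lam : V → ℕ) (v : V) (p : ℕ → V) : Prop where
  top : p (lam v) = v
  mem : ∀ j ≤ lam v, p j ∈ K
  lev : ∀ j ≤ lam v, lam (p j) = j
  adj : ∀ j < lam v, D.Adj (p (j + 1)) (p j)

/-- there is a walk with at most `d` steps inside `K` from `v` to `w` -/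
def Nr (D : SimpleGraph V) (K : Set V) (d : ℕ) (v w : V) : Prop :=
  ∃ m ≤ d, ∃ p : ℕ → V, p 0 = v ∧ p m = w ∧ (∀ j ≤ m, p j ∈ K) ∧ ∀ j < m, D.Adj (p j) (p (j + 1))

/-- `q 0, ..., q m` is an induced path -/
structure IPth (D : SimpleGraph V) (m : ℕ) (q : ℕ → V) : Prop where
  inj : ∀ i ≤ m, ∀ j ≤ m, q i = q j → i = j
  adj : ∀ i ≤ m, ∀ j ≤ m, (D.Adj (q i) (q j) ↔ i + 1 = j ∨ j + 1 = i)

/-- the situation: `a, b` an induced matching, `U` the light vertices (they touch at most `h` edges of the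
matching), all other vertices touch all but at most `h` edges, `K` a component of `D[U]` -/
structure Sit (s h n : ℕ) (D : SimpleGraph V) (a b : ℕ → V) (U K : Set V) : Prop where
  tri : TriFree D
  noF : ¬ IsIndMinor (KCo s F0) Dᶜ
  im : IM D n a b
  light : ∀ v, v ∈ U → (Jt D n a b v).card ≤ h
  full : ∀ v, v ∉ U → n ≤ (Jt D n a b v).card + h
  comp : IsComp D U K
  big : 20 * h + 2 * s + 20 ≤ n

end defs

section lemmas

variable {V : Type} {D : SimpleGraph V} {K : Set V}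

instance : DecidableRel S223.Adj := by
  unfold S223
  infer_instance

theorem twin_S223 : ∀ i j : Fin 8, (∀ k, S223.Adj i k ↔ S223.Adj j k) → i = j := by
  decide

theorem inj_S223 {u : Fin 8 → V} (h : ∀ i j, D.Adj (u i) (u j) ↔ S223.Adj i j) :
    Function.Injective u := by
  intro i j hij
  refine twin_S223 i j fun k => ?_
  rw [← h, ← h, hij]

theorem Spd.ind {c x₁ x₂ y₁ y₂ z₁ z₂ z₃ : V} (ht : TriFree D)
    (h : Spd D c x₁ x₂ y₁ y₂ z₁ z₂ z₃) : ∀ i j,
    D.Adj (![c, x₁, x₂, y₁, y₂, z₁, z₂, z₃] i) (![c, x₁, x₂, y₁, y₂, z₁, z₂, z₃] j) ↔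
      S223.Adj i j := by
  have e1 : ¬ D.Adj c x₂ := fun h1 => ht c x₁ x₂ h.cx h1 h.xx
  have e2 : ¬ D.Adj c y₂ := fun h1 => ht c y₁ y₂ h.cy h1 h.yy
  have e3 : ¬ D.Adj c z₂ := fun h1 => ht c z₁ z₂ h.cz h1 h.zz
  have e4 : ¬ D.Adj x₁ y₁ := fun h1 => ht c x₁ y₁ h.cx h.cy h1
  have e5 : ¬ D.Adj x₁ z₁ := fun h1 => ht c x₁ z₁ h.cx h.cz h1
  have e6 : ¬ D.Adj y₁ z₁ := fun h1 => ht c y₁ z₁ h.cy h.cz h1
  have e7 : ¬ D.Adj z₁ z₃ := fun h1 => ht z₁ z₂ z₃ h.zz h1 h.zw
  have key : ∀ i j : Fin 8, i < j →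
      (D.Adj (![c, x₁, x₂, y₁, y₂, z₁, z₂, z₃] i) (![c, x₁, x₂, y₁, y₂, z₁, z₂, z₃] j) ↔
        S223.Adj i j) := by
    intro i j hij
    fin_cases i <;> fin_cases j
    all_goals first
      | exact absurd hij (by decide)
      | exact iff_of_true h.cx (by decide)
      | exact iff_of_true h.xx (by decide)
      | exact iff_of_true h.cy (by decide)
      | exact iff_of_true h.yy (by decide)
      | exact iff_of_true h.cz (by decide)
      | exact iff_of_true h.zz (by decide)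
      | exact iff_of_true h.zw (by decide)
      | exact iff_of_false e1 (by decide)
      | exact iff_of_false e2 (by decide)
      | exact iff_of_false e3 (by decide)
      | exact iff_of_false e4 (by decide)
      | exact iff_of_false e5 (by decide)
      | exact iff_of_false e6 (by decide)
      | exact iff_of_false e7 (by decide)
      | exact iff_of_false h.ncz3 (by decide)
      | exact iff_of_false h.nx1y2 (by decide)
      | exact iff_of_false h.nx1z2 (by decide)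
      | exact iff_of_false h.nx1z3 (by decide)
      | exact iff_of_false (fun h1 => h.nx2y1 h1) (by decide)
      | exact iff_of_false h.nx2y2 (by decide)
      | exact iff_of_false h.nx2z1 (by decide)
      | exact iff_of_false h.nx2z2 (by decide)
      | exact iff_of_false h.nx2z3 (by decide)
      | exact iff_of_false h.ny1z2 (by decide)
      | exact iff_of_false h.ny1z3 (by decide)
      | exact iff_of_false h.ny2z1 (by decide)
      | exact iff_of_false h.ny2z2 (by decide)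
      | exact iff_of_false h.ny2z3 (by decide)
  intro i j
  rcases lt_trichotomy i j with h1 | h1 | h1
  · exact key i j h1
  · subst h1
    exact iff_of_false (fun h2 => h2.ne rfl) (fun h2 => h2.ne rfl)
  · rw [D.adj_comm, key j i h1, S223.adj_comm]

theorem Spd.sp {c x₁ x₂ y₁ y₂ z₁ z₂ z₃ : V} (ht : TriFree D)
    (h : Spd D c x₁ x₂ y₁ y₂ z₁ z₂ z₃) (hc : c ∈ K) (hx₁ : x₁ ∈ K) (hx₂ : x₂ ∈ K) (hy₁ : y₁ ∈ K)
    (hy₂ : y₂ ∈ K) (hz₁ : z₁ ∈ K) (hz₂ : z₂ ∈ K) (hz₃ : z₃ ∈ K) : Sp D K := by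
  refine ⟨![c, x₁, x₂, y₁, y₂, z₁, z₂, z₃], fun i => ?_, h.ind ht⟩
  fin_cases i
  · exact hc
  · exact hx₁
  · exact hx₂
  · exact hy₁
  · exact hy₂
  · exact hz₁
  · exact hz₂
  · exact hz₃

theorem Nr.refl {v : V} (hv : v ∈ K) (d : ℕ) : Nr D K d v v :=
  ⟨0, Nat.zero_le _, fun _ => v, rfl, rfl, fun _ _ => hv, fun _ h => absurd h (Nat.not_lt_zero _)⟩

theorem Nr.mono {d d' : ℕ} {v w : V} (h : Nr D K d v w) (hd : d ≤ d') : Nr D K d' v w := by
  obtain ⟨m, hm, h⟩ := h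
  exact ⟨m, hm.trans hd, h⟩

theorem Nr.mono_set {K' : Set V} {d : ℕ} {v w : V} (h : Nr D K d v w) (hK : K ⊆ K') :
    Nr D K' d v w := by
  obtain ⟨m, hm, p, h0, h1, h2, h3⟩ := h
  exact ⟨m, hm, p, h0, h1, fun j hj => hK (h2 j hj), h3⟩

theorem Nr.of_adj {v w : V} (hv : v ∈ K) (hw : w ∈ K) (h : D.Adj v w) : Nr D K 1 v w := by
  refine ⟨1, le_rfl, fun j => if j = 0 then v else w, rfl, rfl, fun j _ => ?_, fun j hj => ?_⟩
  · dsimp only
    split_ifs
    · exact hv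
    · exact hw
  · have : j = 0 := by omega
    subst this
    exact h

theorem Nr.symm {d : ℕ} {v w : V} (h : Nr D K d v w) : Nr D K d w v := by
  obtain ⟨m, hm, p, h0, h1, h2, h3⟩ := h
  refine ⟨m, hm, fun j => p (m - j), ?_, ?_, fun j _ => h2 _ (by omega), fun j hj => ?_⟩
  · simpa using h1
  · simpa using h0
  · have h4 := h3 (m - (j + 1)) (by omega)
    have h5 : m - (j + 1) + 1 = m - j := by omega
    rw [h5] at h4
    exact h4.symm

theorem Nr.trans {d d' : ℕ} {u v w : V} (h : Nr D K d u v) (h' : Nr D K d' v w) :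
    Nr D K (d + d') u w := by
  obtain ⟨m, hm, p, h0, h1, h2, h3⟩ := h
  obtain ⟨m', hm', p', h0', h1', h2', h3'⟩ := h'
  refine ⟨m + m', by omega, fun j => if j ≤ m then p j else p' (j - m), ?_, ?_, fun j hj => ?_,
    fun j hj => ?_⟩
  · simpa using h0
  · dsimp only
    split_ifs with h4
    · have h5 : m' = 0 := by omega
      subst h5
      rw [Nat.add_zero, h1, ← h0', h1']
    · rw [Nat.add_sub_cancel_left, h1']
  · dsimp only
    split_ifs with h4
    · exact h2 j h4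
    · exact h2' _ (by omega)
  · dsimp only
    by_cases h4 : j + 1 ≤ m
    · rw [if_pos (by omega), if_pos h4]
      exact h3 j (by omega)
    · by_cases h5 : j ≤ m
      · have h6 : j = m := by omega
        subst h6
        rw [if_pos le_rfl, if_neg (by omega), h1, ← h0']
        have h7 : j + 1 - j = 0 + 1 := by omega
        rw [h7]
        exact h3' 0 (by omega)
      · rw [if_neg h5, if_neg h4]
        have h6 : j + 1 - m = j - m + 1 := by omega
        rw [h6]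
        exact h3' _ (by omega)

theorem Nr.left_mem {d : ℕ} {v w : V} (h : Nr D K d v w) : v ∈ K := by
  obtain ⟨m, _, p, h0, _, h2, _⟩ := h
  rw [← h0]
  exact h2 0 (Nat.zero_le _)

theorem Nr.right_mem {d : ℕ} {v w : V} (h : Nr D K d v w) : w ∈ K := h.symm.left_mem

theorem Lvl.eq_root {lam : V → ℕ} {r v : V} (h : Lvl D K lam r) (hv : v ∈ K) (h0 : lam v = 0) :
    v = r := by
  by_contra hne
  obtain ⟨u, _, _, hu⟩ := h.par v hv hne
  omega

theorem Lvl.slow' {lam : V → ℕ} {r u v : V} (h : Lvl D K lam r) (hu : u ∈ K) (hv : v ∈ K)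
    (huv : D.Adj u v) : lam u ≤ lam v + 1 ∧ lam v ≤ lam u + 1 :=
  ⟨h.slow u hu v hv huv, h.slow v hv u hu huv.symm⟩

/-- vertices on levels which differ by at least two are not adjacent -/
theorem Lvl.nadj {lam : V → ℕ} {r u v : V} (h : Lvl D K lam r) (hu : u ∈ K) (hv : v ∈ K)
    (hl : lam u + 2 ≤ lam v ∨ lam v + 2 ≤ lam u) : ¬ D.Adj u v := by
  intro huv
  obtain ⟨h1, h2⟩ := h.slow' hu hv huv
  omega

theorem Dn.zero {lam : V → ℕ} {r v : V} {p : ℕ → V} (hl : Lvl D K lam r) (h : Dn D K lam v p) :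
    p 0 = r :=
  hl.eq_root (h.mem 0 (Nat.zero_le _)) (h.lev 0 (Nat.zero_le _))

/-- two vertices of a down-path: `i ≤ j` gives a walk of length `j - i` between them, on levels
between `i` and `j` -/
theorem Dn.nr {lam : V → ℕ} {v : V} {p : ℕ → V} (h : Dn D K lam v p) {i j : ℕ} (hij : i ≤ j)
    (hj : j ≤ lam v) : Nr D {w | w ∈ K ∧ i ≤ lam w ∧ lam w ≤ j} (j - i) (p j) (p i) := by
  refine ⟨j - i, le_rfl, fun t => p (j - t), rfl, ?_, fun t ht => ?_, fun t ht => ?_⟩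
  · have : j - (j - i) = i := by omega
    dsimp only
    rw [this]
  · have h1 := h.lev (j - t) (by omega)
    refine ⟨h.mem _ (by omega), ?_, ?_⟩ <;> dsimp only <;> omega
  · have h1 := h.adj (j - (t + 1)) (by omega)
    have h2 : j - (t + 1) + 1 = j - t := by omega
    rw [h2] at h1
    exact h1

theorem Dn.nr' {lam : V → ℕ} {v : V} {p : ℕ → V} (h : Dn D K lam v p) {i j : ℕ} (hij : i ≤ j)
    (hj : j ≤ lam v) : Nr D K (j - i) (p j) (p i) :=
  (h.nr hij hj).mono_set fun _ hw => hw.1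

/-- levels along a walk -/
theorem Lvl.walk {lam : V → ℕ} {r : V} (h : Lvl D K lam r) {m : ℕ} {p : ℕ → V}
    (hp : ∀ j ≤ m, p j ∈ K) (ha : ∀ j < m, D.Adj (p j) (p (j + 1))) :
    ∀ j ≤ m, lam (p j) ≤ lam (p 0) + j ∧ lam (p 0) ≤ lam (p j) + j := by
  intro j
  induction j with
  | zero => exact fun _ => ⟨le_rfl, le_rfl⟩
  | succ j ih =>
    intro hj
    obtain ⟨h1, h2⟩ := ih (by omega)
    obtain ⟨h3, h4⟩ := h.slow' (hp j (by omega)) (hp (j + 1) hj) (ha j (by omega))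
    constructor <;> omega

theorem Lvl.le_of_nr {lam : V → ℕ} {r : V} (h : Lvl D K lam r) {d : ℕ} {u v : V}
    (hn : Nr D K d u v) : lam v ≤ lam u + d := by
  obtain ⟨m, hm, p, h0, h1, h2, h3⟩ := hn
  have h4 := (h.walk h2 h3 m le_rfl).1
  rw [h0, h1] at h4
  omega

/-- a vertex is at distance at most `lam v` from the root -/
theorem Dn.nr_root {lam : V → ℕ} {r v : V} {p : ℕ → V} (hl : Lvl D K lam r) (h : Dn D K lam v p) :
    Nr D K (lam v) r v := by
  have h1 := h.nr' (Nat.zero_le _) le_rfl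
  rw [h.top, h.zero hl, Nat.sub_zero] at h1
  exact h1.symm

theorem IPth.nadj {m : ℕ} {q : ℕ → V} (h : IPth D m q) {i j : ℕ} (hi : i ≤ m) (hj : j ≤ m)
    (h1 : i + 1 ≠ j) (h2 : j + 1 ≠ i) : ¬ D.Adj (q i) (q j) := by
  rw [h.adj i hi j hj]
  push Not
  exact ⟨h1, h2⟩

end lemmas

end Pool.Agent.MPd439b2.W
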