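import Pool.Agent.Lib.MP_d439b2_co.W.SpecT

/-!
# MP_d439b2_co, W, T21: the traces of the full vertices on a clean block
-/

set_option autoImplicit false

namespace Pool.Agent.MPd439b2.W

open Pool.Agent.MPd439b2

namespace ClssAux

variable {V : Type} {D : SimpleGraph V} {K : Set V}

/-- at most four traces, if they are determined by two truth values -/
theorem four {F : Set V} {Z : Set V} {x₀ x₁ : V}
    (h : ∀ f ∈ F, ∀ f' ∈ F, (D.Adj f x₀ ↔ D.Adj f' x₀) → (D.Adj f x₁ ↔ D.Adj f' x₁) →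
      D.neighborSet f ∩ Z = D.neighborSet f' ∩ Z) :
    {T | ∃ f ∈ F, T = D.neighborSet f ∩ Z}.encard ≤ 4 := by
  classical
  let φ : Bool × Bool → Set V := fun s =>
    if hs : ∃ f ∈ F, (D.Adj f x₀ ↔ s.1 = true) ∧ (D.Adj f x₁ ↔ s.2 = true) then
      D.neighborSet hs.choose ∩ Z else ∅
  have h1 : {T | ∃ f ∈ F, T = D.neighborSet f ∩ Z} ⊆ φ '' Set.univ := by
    rintro T ⟨f, hf, rfl⟩
    refine ⟨(decide (D.Adj f x₀), decide (D.Adj f x₁)), Set.mem_univ _, ?_⟩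
    have hs : ∃ g ∈ F, (D.Adj g x₀ ↔ decide (D.Adj f x₀) = true) ∧
        (D.Adj g x₁ ↔ decide (D.Adj f x₁) = true) :=
      ⟨f, hf, by rw [decide_eq_true_iff], by rw [decide_eq_true_iff]⟩
    have h2 : φ (decide (D.Adj f x₀), decide (D.Adj f x₁)) = D.neighborSet hs.choose ∩ Z :=
      dif_pos hs
    rw [h2]
    obtain ⟨h3, h4, h5⟩ := hs.choose_spec
    exact h _ h3 f hf (h4.trans decide_eq_true_iff) (h5.trans decide_eq_true_iff)
  refine (Set.encard_le_encard h1).trans ((Set.encard_image_le _ _).trans ?_)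
  rw [Set.encard_univ, ENat.card_eq_coe_fintype_card]
  decide

/-- a walk inside `K` with at most six steps between two vertices on the level `d + 12` -/
theorem nrR {lam : V → ℕ} {r : V} (h : Lvl D K lam r) {d e : ℕ} (hde : d + 18 ≤ e) {u v : V}
    (hu : lam u = d + 12) (hn : Nr D K 6 u v) :
    Nr D {w | w ∈ K ∧ d ≤ lam w ∧ lam w ≤ e} 6 u v := by
  obtain ⟨m, hm, p, h0, h1, h2, h3⟩ := hn
  refine ⟨m, hm, p, h0, h1, fun j hj => ?_, h3⟩
  obtain ⟨h4, h5⟩ := h.walk h2 h3 j hj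
  rw [h0] at h4 h5
  refine ⟨h2 j hj, ?_, ?_⟩ <;> omega

/-- parity along a walk -/
theorem par {lam : V → ℕ} {d e : ℕ} {f : V} (hT : TriFree D)
    (hf : ∀ p ∈ K, ∀ q ∈ K, D.Adj p q → d ≤ lam p → lam p ≤ e → D.Adj f p ∨ D.Adj f q)
    {m : ℕ} {p : ℕ → V} (hp : ∀ j ≤ m, p j ∈ {w | w ∈ K ∧ d ≤ lam w ∧ lam w ≤ e})
    (ha : ∀ j < m, D.Adj (p j) (p (j + 1))) :
    ∀ j ≤ m, (D.Adj f (p j) ↔ (D.Adj f (p 0) ↔ Even j)) := by
  intro j
  induction j with
  | zero =>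
    intro _
    simp
  | succ j ih =>
    intro hj
    have h1 := ih (by omega)
    obtain ⟨h2, h3, h4⟩ := hp j (by omega)
    obtain ⟨h5, h6, h7⟩ := hp (j + 1) hj
    have h8 := hf (p j) h2 (p (j + 1)) h5 (ha j (by omega)) h3 h4
    have h9 : ¬ (D.Adj f (p j) ∧ D.Adj f (p (j + 1))) := fun h => hT f _ _ h.1 h.2 (ha j (by omega))
    rw [Nat.even_add_one]
    tauto

/-- two vertices see every joined vertex in the same way -/
theorem same {lam : V → ℕ} {d e : ℕ} {f f' : V} (hT : TriFree D)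
    (hf : ∀ p ∈ K, ∀ q ∈ K, D.Adj p q → d ≤ lam p → lam p ≤ e → D.Adj f p ∨ D.Adj f q)
    (hf' : ∀ p ∈ K, ∀ q ∈ K, D.Adj p q → d ≤ lam p → lam p ≤ e → D.Adj f' p ∨ D.Adj f' q)
    {m : ℕ} {x z : V} (hn : Nr D {w | w ∈ K ∧ d ≤ lam w ∧ lam w ≤ e} m x z)
    (hx : D.Adj f x ↔ D.Adj f' x) : D.Adj f z ↔ D.Adj f' z := by
  obtain ⟨m', hm, p, h0, h1, h2, h3⟩ := hn
  have h4 := par hT hf h2 h3 m' le_rfl
  have h5 := par hT hf' h2 h3 m' le_rfl
  rw [h0, h1] at h4 h5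
  rw [h4, h5, hx]

end ClssAux

theorem clss (h4 : S_DnP) (h12 : S_Arm3) : S_Clss := by
  classical
  intro V D K F Z lam r d e hT hSp hLv hde hF hZ
  have one : ∀ z ∈ Z, ∃ x ∈ K, lam x = d + 12 ∧
      ∃ m, Nr D {w | w ∈ K ∧ d ≤ lam w ∧ lam w ≤ e} m x z := by
    intro z hz
    obtain ⟨hzK, hz1, hz2⟩ := hZ z hz
    obtain ⟨p, hp⟩ := h4 V D K lam r hLv z hzK
    have h1 := hp.nr hz1 le_rfl
    rw [hp.top] at h1
    refine ⟨p (d + 12), hp.mem _ hz1, hp.lev _ hz1, _, (h1.symm).mono_set ?_⟩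
    rintro w ⟨hw1, hw2, hw3⟩
    refine ⟨hw1, ?_, ?_⟩ <;> omega
  have two : ∃ x₀ x₁ : V, ∀ z ∈ Z, (∃ m, Nr D {w | w ∈ K ∧ d ≤ lam w ∧ lam w ≤ e} m x₀ z) ∨
      ∃ m, Nr D {w | w ∈ K ∧ d ≤ lam w ∧ lam w ≤ e} m x₁ z := by
    by_cases hZe : Z.Nonempty
    · obtain ⟨z₀, hz₀⟩ := hZe
      obtain ⟨x₀, hx₀, hl₀, m₀, hm₀⟩ := one z₀ hz₀
      by_cases hall : ∀ z ∈ Z, ∃ m, Nr D {w | w ∈ K ∧ d ≤ lam w ∧ lam w ≤ e} m x₀ z
      · exact ⟨x₀, x₀, fun z hz => Or.inl (hall z hz)⟩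
      · push Not at hall
        obtain ⟨z₁, hz₁, hno⟩ := hall
        obtain ⟨x₁, hx₁, hl₁, m₁, hm₁⟩ := one z₁ hz₁
        refine ⟨x₀, x₁, fun z hz => ?_⟩
        by_contra hcon
        rw [not_or] at hcon
        obtain ⟨hc0, hc1⟩ := hcon
        obtain ⟨x, hx, hl, m, hm⟩ := one z hz
        have n01 : ¬ Nr D K 6 x₀ x₁ := fun h =>
          hno _ ((ClssAux.nrR hLv hde hl₀ h).trans hm₁)
        have n02 : ¬ Nr D K 6 x₀ x := fun h =>
          hc0 ⟨_, (ClssAux.nrR hLv hde hl₀ h).trans hm⟩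
        have n12 : ¬ Nr D K 6 x₁ x := fun h =>
          hc1 ⟨_, (ClssAux.nrR hLv hde hl₁ h).trans hm⟩
        have hlev : ∀ j < 3, lam ((![x₀, x₁, x] : Fin 3 → V) (Fin.ofNat 3 j)) = d + 12 := by
          intro j hj
          interval_cases j
          · exact hl₀
          · exact hl₁
          · exact hl
        refine h12 V D K lam r 0 (fun j => (![x₀, x₁, x] : Fin 3 → V) (Fin.ofNat 3 j)) hT hSp
            hLv (fun j hj => ⟨?_, ?_⟩) ?_ ?_
        · interval_cases j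
          · exact hx₀
          · exact hx₁
          · exact hx
        · show 12 ≤ lam ((![x₀, x₁, x] : Fin 3 → V) (Fin.ofNat 3 j))
          rw [hlev j hj]
          omega
        · intro j hj k hk
          show lam ((![x₀, x₁, x] : Fin 3 → V) (Fin.ofNat 3 j)) ≤
            lam ((![x₀, x₁, x] : Fin 3 → V) (Fin.ofNat 3 k)) + 0
          rw [hlev j hj, hlev k hk]
        · intro j hj k hk hjk
          interval_cases j <;> interval_cases k
          · exact absurd rfl hjk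
          · exact n01
          · exact n02
          · exact fun h => n01 h.symm
          · exact absurd rfl hjk
          · exact n12
          · exact fun h => n02 h.symm
          · exact fun h => n12 h.symm
          · exact absurd rfl hjk
    · exact ⟨r, r, fun z hz => absurd ⟨z, hz⟩ hZe⟩
  obtain ⟨x₀, x₁, hx⟩ := two
  refine ClssAux.four (x₀ := x₀) (x₁ := x₁) fun f hf f' hf' h0 h1 => ?_
  ext z
  constructor
  · rintro ⟨hz1, hz2⟩
    refine ⟨?_, hz2⟩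
    rcases hx z hz2 with ⟨m, hm⟩ | ⟨m, hm⟩
    · exact (ClssAux.same hT (hF f hf) (hF f' hf') hm h0).1 hz1
    · exact (ClssAux.same hT (hF f hf) (hF f' hf') hm h1).1 hz1
  · rintro ⟨hz1, hz2⟩
    refine ⟨?_, hz2⟩
    rcases hx z hz2 with ⟨m, hm⟩ | ⟨m, hm⟩
    · exact (ClssAux.same hT (hF f hf) (hF f' hf') hm h0).2 hz1
    · exact (ClssAux.same hT (hF f hf) (hF f' hf') hm h1).2 hz1

end Pool.Agent.MPd439b2.W
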