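import Pool.Agent.Lib.MP_d439b2_co.W.SpecA

/-!
# MP_d439b2_co, W, A2: few disjoint connected sets cross a small boundary
-/

set_option autoImplicit false

namespace Pool.Agent.MPd439b2.W

open Pool.Agent.MPd439b2

theorem cross : S_Cross := by
  classical
  intro α _ _ Γ B I Q hconn hdis hne
  have hex : ∀ i ∈ I, ∃ x y, x ∈ Q i ∧ x ∈ B ∧ y ∈ Q i ∧ y ∉ B ∧ Γ.Adj x y := by
    intro i hi
    obtain ⟨⟨a, ha⟩, ⟨b, hb⟩⟩ := hne i hi
    rw [Finset.mem_inter] at ha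
    rw [Finset.mem_sdiff] at hb
    obtain ⟨x, hx, y, hy, hxy⟩ := (hconn i hi).2 {z | z ∈ Q i ∧ z ∈ B} (fun z hz => hz.1)
      ⟨a, ha⟩ (fun h => hb.2 (by
        have h2 : b ∈ ({z | z ∈ Q i ∧ z ∈ B} : Set α) := by
          rw [h]
          exact hb.1
        exact h2.2))
    exact ⟨x, y, hx.1, hx.2, hy.1, fun h => hy.2 ⟨hy.1, h⟩, hxy⟩
  rcases I.eq_empty_or_nonempty with rfl | ⟨i0, hi0⟩
  · simp
  obtain ⟨z0, _⟩ := hex i0 hi0
  haveI : Nonempty α := ⟨z0⟩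
  choose! x y hx hxB hy hyB hxy using hex
  have hwt : wt (ind Γ) B Bᶜ = ((B ×ˢ Bᶜ).filter (fun p : α × α => Γ.Adj p.1 p.2)).card := by
    unfold wt ind
    rw [Finset.card_filter, Finset.sum_product]
  rw [hwt]
  refine Finset.card_le_card_of_injOn (fun i => (x i, y i)) ?_ ?_
  · intro i hi
    have hi' : i ∈ I := hi
    refine Finset.mem_coe.2 (Finset.mem_filter.2 ⟨Finset.mem_product.2 ⟨hxB i hi', ?_⟩, hxy i hi'⟩)
    exact Finset.mem_compl.2 (hyB i hi')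
  · intro i hi j hj hij
    have hi' : i ∈ I := hi
    have hj' : j ∈ I := hj
    by_contra hne
    have h1 := Finset.disjoint_left.1 (hdis i hi' j hj' hne) (hx i hi')
    have h2 : x i = x j := congrArg Prod.fst hij
    rw [h2] at h1
    exact h1 (hx j hj')

end Pool.Agent.MPd439b2.W
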