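import Pool.Agent.Lib.MP_d439b2_co.W.Defs

/-!
# MP_d439b2_co, W: patterns and explicit realizations of the excluded graphs in them (helper28)

The checks are finite computations (`decide +kernel`).
-/

set_option autoImplicit false

namespace Pool.Agent.MPd439b2.W

/-- what is known about the relation of the groups `p = (i, k)` and `q = (j, l)` (rail, index): `e i j` is
the relation for the rails `i`, `j` when the index of the rail `i` is smaller -/
def okp (e : ℕ → ℕ → Option Bool) (p q : ℕ × ℕ) : Option Bool :=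
  if p.2 < q.2 then e p.1 q.1 else if q.2 < p.2 then e q.1 p.1 else none

/-- one branch set: the list `A` of groups `(rail, index)`, and a group `n` complete to all of them -/
def chk1 (e : ℕ → ℕ → Option Bool) (R K₀ : ℕ) (A : List (ℕ × ℕ)) (n : ℕ × ℕ) : Prop :=
  A ≠ [] ∧ n.1 ≤ R ∧ n.2 < K₀ ∧ ∀ p ∈ A, p.1 ≤ R ∧ p.2 < K₀ ∧ okp e p n = some true

instance (e : ℕ → ℕ → Option Bool) (R K₀ : ℕ) (A : List (ℕ × ℕ)) (n : ℕ × ℕ) :
    Decidable (chk1 e R K₀ A n) := by
  unfold chk1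
  infer_instance

/-- two branch sets: all indices are different; if `adj` then everything is complete, otherwise some pair is
not complete -/
def chk2 (e : ℕ → ℕ → Option Bool) (adj : Prop) (A B : List (ℕ × ℕ)) : Prop :=
  (∀ p ∈ A, ∀ q ∈ B, p.2 ≠ q.2) ∧ (adj → ∀ p ∈ A, ∀ q ∈ B, okp e p q = some true) ∧
    (¬ adj → ∃ p ∈ A, ∃ q ∈ B, okp e p q = some false)

instance (e : ℕ → ℕ → Option Bool) (adj : Prop) [Decidable adj] (A B : List (ℕ × ℕ)) :
    Decidable (chk2 e adj A B) := by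
  unfold chk2
  infer_instance

/-- all conditions for the pairs of branch sets `i, j`, `i` fixed -/
def chk3 (e : ℕ → ℕ → Option Bool) (N : ℕ) (l : List (ℕ × ℕ)) (L : List (List (ℕ × ℕ))) (i : ℕ) :
    Prop :=
  ∀ j < N, i ≠ j → chk2 e ((i, j) ∈ l ∨ (j, i) ∈ l) (L.getD i []) (L.getD j [])

instance (e : ℕ → ℕ → Option Bool) (N : ℕ) (l : List (ℕ × ℕ)) (L : List (List (ℕ × ℕ))) (i : ℕ) :
    Decidable (chk3 e N l L i) := by
  unfold chk3
  infer_instance

/-- `L.getD i []` is the list of the groups `(rail, index)` whose union is the branch set of the vertex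
`i < N` of the graph with the list of edges `l`; `nb.getD i (0, 0)` is a group complete to all of them -/
def chk (e : ℕ → ℕ → Option Bool) (R K₀ N : ℕ) (l : List (ℕ × ℕ)) (L : List (List (ℕ × ℕ)))
    (nb : List (ℕ × ℕ)) : Prop :=
  (∀ i < N, chk1 e R K₀ (L.getD i []) (nb.getD i (0, 0))) ∧ ∀ i < N, chk3 e N l L i

instance (e : ℕ → ℕ → Option Bool) (R K₀ N : ℕ) (l : List (ℕ × ℕ)) (L : List (List (ℕ × ℕ)))
    (nb : List (ℕ × ℕ)) : Decidable (chk e R K₀ N l L nb) := by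
  unfold chk
  infer_instance

/-- the relations `E` of the rails `≤ R` are as in the table `e` (where it is defined) -/
def Kn (e : ℕ → ℕ → Option Bool) (R : ℕ) (E : ℕ → ℕ → Prop) : Prop :=
  ∀ i ≤ R, ∀ j ≤ R, (e i j = some true → E i j) ∧ (e i j = some false → ¬ E i j)

/-- three rails: `0` and `1` form a ladder, `0` and `2` the opposite ladder -/
def eT1 (i j : ℕ) : Option Bool :=
  if i = j then some false else
  if i = 0 ∧ j = 1 then some true else
  if i = 1 ∧ j = 0 then some false else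
  if i = 2 ∧ j = 0 then some true else
  if i = 0 ∧ j = 2 then some false else none

/-- four rails: ladders `0, 1` and `2, 3`; `0` and `3` are complete to each other, `1` and `2` too -/
def eT2 (i j : ℕ) : Option Bool :=
  if i = j then some false else
  if i = 0 ∧ j = 1 then some true else
  if i = 1 ∧ j = 0 then some false else
  if i = 2 ∧ j = 3 then some true else
  if i = 3 ∧ j = 2 then some false else
  if (i = 0 ∧ j = 3) ∨ (i = 3 ∧ j = 0) then some true else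
  if (i = 1 ∧ j = 2) ∨ (i = 2 ∧ j = 1) then some true else none

/-- six rails, a group cycle with five steps in which all other pairs are unrelated -/
def eA5 (i j : ℕ) : Option Bool :=
  if i + 1 = j ∨ j + 1 = i then (if i % 2 = 0 then some true else some false) else
  if (i = 0 ∧ j = 5) ∨ (i = 5 ∧ j = 0) then some true else some false

/-- the rails `0, .., 5` of a longer group cycle and the last rail, called `6` -/
def eA (i j : ℕ) : Option Bool :=
  if (i = 0 ∧ j = 6) ∨ (i = 6 ∧ j = 0) then some true else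
  if (i = 5 ∧ j = 6) ∨ (i = 6 ∧ j = 5) then none else
  if i + 1 = j ∨ j + 1 = i then (if i % 2 = 0 then some true else some false) else
  if (i = 1 ∧ j = 5) ∨ (i = 5 ∧ j = 1) then none else
  if (i = 3 ∧ j = 6) ∨ (i = 6 ∧ j = 3) then none else some false

/-- the rails `0, .., 6` of a longer group cycle in which `1` and `5` are unrelated -/
def eB (i j : ℕ) : Option Bool :=
  if i + 1 = j ∨ j + 1 = i then (if i % 2 = 0 then some true else some false) else
  if (i = 0 ∧ j = 4) ∨ (i = 4 ∧ j = 0) then none else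
  if (i = 2 ∧ j = 6) ∨ (i = 6 ∧ j = 2) then none else
  if (i = 0 ∧ j = 6) ∨ (i = 6 ∧ j = 0) then none else some false

/-- the edges of `F0` -/
def l0 : List (ℕ × ℕ) :=
  [(0, 1), (1, 2), (0, 3), (3, 4), (0, 5), (5, 6), (6, 7), (8, 9), (10, 11), (12, 13), (14, 15)]

/-- the edges of `F1` -/
def l1 : List (ℕ × ℕ) := [(0, 1), (0, 2), (0, 3), (3, 4), (5, 6), (7, 8), (9, 10), (11, 12)]

/-- the edges of `F2` -/
def l2 : List (ℕ × ℕ) :=
  [(0, 1), (0, 2), (2, 3), (0, 4), (4, 5), (5, 6), (7, 8), (9, 10), (11, 12)]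

/-- the edges of `F3` -/
def l3 : List (ℕ × ℕ) :=
  [(0, 1), (1, 2), (0, 3), (3, 4), (0, 5), (5, 6), (6, 7), (8, 9), (10, 11)]

theorem chkT1 : chk eT1 2 48 16 l0
    [[(1, 38), (2, 10)], [(0, 15), (0, 37)], [(1, 39), (2, 14)], [(0, 13), (0, 35)], [(1, 36), (2,
    12)], [(0, 11), (0, 33)], [(1, 34), (2, 8)], [(0, 9), (0, 32)], [(0, 7), (0, 30)], [(1, 31),
    (2, 6)], [(0, 5), (0, 28)], [(1, 29), (2, 4)], [(0, 3), (0, 26)], [(1, 27), (2, 2)], [(0, 1),
    (0, 24)], [(1, 25), (2, 0)]]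
    [(0, 16), (1, 40), (0, 17), (1, 41), (0, 18), (1, 42), (0, 19), (1, 43), (1, 44), (0, 20), (1,
    45), (0, 21), (1, 46), (0, 22), (1, 47), (0, 23)] := by
  decide +kernel

theorem chkT2 : chk eT2 3 48 16 l0
    [[(1, 13), (3, 38)], [(0, 8), (2, 37)], [(1, 9), (3, 39)], [(0, 10), (2, 35)], [(1, 11), (3,
    36)], [(0, 12), (2, 33)], [(1, 15), (3, 34)], [(0, 14), (2, 32)], [(0, 16), (2, 30)], [(1,
    17), (3, 31)], [(0, 18), (2, 28)], [(1, 19), (3, 29)], [(0, 20), (2, 26)], [(1, 21), (3, 27)],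
    [(0, 22), (2, 24)], [(1, 23), (3, 25)]]
    [(0, 7), (1, 40), (0, 6), (1, 41), (0, 5), (1, 42), (0, 4), (1, 43), (1, 44), (0, 3), (1, 45),
    (0, 2), (1, 46), (0, 1), (1, 47), (0, 0)] := by
  decide +kernel

theorem chkA5_1 : chk eA5 5 33 13 l1
    [[(2, 13)], [(1, 14), (3, 15)], [(1, 16), (3, 17)], [(1, 19), (3, 20)], [(2, 18)], [(0, 21)],
    [(5, 22), (1, 23)], [(1, 12)], [(0, 11), (2, 10)], [(3, 9)], [(2, 8), (4, 7)], [(4, 24)], [(3,
    25), (5, 26)]]
    [(3, 27), (2, 3), (2, 4), (2, 5), (3, 28), (1, 29), (0, 6), (2, 2), (1, 30), (4, 1), (3, 31),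
    (5, 32), (4, 0)] := by
  decide +kernel

theorem chkA_1 : chk eA 6 33 13 l1
    [[(2, 13)], [(1, 14), (3, 15)], [(1, 16), (3, 17)], [(1, 19), (3, 20)], [(2, 18)], [(0, 21)],
    [(6, 22), (1, 23)], [(1, 12)], [(0, 11), (2, 10)], [(3, 9)], [(2, 8), (4, 7)], [(4, 24)], [(3,
    25), (5, 26)]]
    [(3, 27), (2, 3), (2, 4), (2, 5), (3, 28), (1, 29), (0, 6), (2, 2), (1, 30), (4, 1), (3, 31),
    (5, 32), (4, 0)] := by
  decide +kernel

theorem chkB_1 : chk eB 6 33 13 l1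
    [[(3, 19)], [(2, 18), (4, 17)], [(2, 16), (4, 15)], [(2, 13), (4, 12)], [(3, 14)], [(1, 11)],
    [(0, 10), (2, 9)], [(2, 20)], [(1, 21), (3, 22)], [(4, 23)], [(3, 24), (5, 25)], [(5, 8)],
    [(4, 7), (6, 6)]]
    [(4, 5), (3, 29), (3, 28), (3, 27), (4, 4), (2, 3), (1, 26), (3, 30), (2, 2), (5, 31), (4, 1),
    (6, 0), (5, 32)] := by
  decide +kernel

theorem chkA5_2 : chk eA5 5 32 13 l2
    [[(2, 13)], [(1, 15), (3, 16)], [(1, 18), (3, 19)], [(2, 17)], [(3, 14)], [(2, 11), (4, 10)],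
    [(3, 12)], [(0, 20)], [(5, 21), (1, 22)], [(1, 9)], [(0, 8), (2, 7)], [(4, 23)], [(3, 24), (5,
    25)]]
    [(3, 26), (2, 2), (2, 3), (3, 27), (2, 4), (3, 28), (2, 5), (1, 29), (0, 6), (2, 1), (1, 30),
    (5, 31), (4, 0)] := by
  decide +kernel

theorem chkA_2 : chk eA 6 32 13 l2
    [[(2, 13)], [(1, 15), (3, 16)], [(1, 18), (3, 19)], [(2, 17)], [(3, 14)], [(2, 11), (4, 10)],
    [(3, 12)], [(0, 20)], [(6, 21), (1, 22)], [(1, 9)], [(0, 8), (2, 7)], [(4, 23)], [(3, 24), (5,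
    25)]]
    [(3, 26), (2, 2), (2, 3), (3, 27), (2, 4), (3, 28), (2, 5), (1, 29), (0, 6), (2, 1), (1, 30),
    (5, 31), (4, 0)] := by
  decide +kernel

theorem chkB_2 : chk eB 6 32 13 l2
    [[(3, 18)], [(2, 16), (4, 15)], [(2, 13), (4, 12)], [(3, 14)], [(4, 17)], [(3, 20), (5, 21)],
    [(4, 19)], [(1, 11)], [(0, 10), (2, 9)], [(2, 22)], [(1, 23), (3, 24)], [(5, 8)], [(4, 7), (6,
    6)]]
    [(4, 5), (3, 29), (3, 28), (4, 4), (3, 27), (4, 3), (3, 26), (2, 2), (1, 25), (3, 30), (2, 1),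
    (6, 0), (5, 31)] := by
  decide +kernel

theorem chkA5_3 : chk eA5 5 29 12 l3
    [[(2, 9)], [(1, 15), (3, 16)], [(2, 14)], [(3, 12)], [(2, 10), (4, 11)], [(1, 13)], [(2, 7),
    (0, 6)], [(1, 8)], [(0, 17)], [(5, 18), (1, 19)], [(4, 20)], [(3, 21), (5, 22)]]
    [(3, 23), (2, 1), (3, 24), (2, 2), (3, 25), (2, 3), (1, 26), (2, 4), (1, 27), (0, 5), (5, 28),
    (4, 0)] := by
  decide +kernel

theorem chkA_3 : chk eA 6 29 12 l3
    [[(2, 9)], [(1, 15), (3, 16)], [(2, 14)], [(3, 12)], [(2, 10), (4, 11)], [(1, 13)], [(2, 7),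
    (0, 6)], [(1, 8)], [(0, 17)], [(6, 18), (1, 19)], [(4, 20)], [(3, 21), (5, 22)]]
    [(3, 23), (2, 1), (3, 24), (2, 2), (3, 25), (2, 3), (1, 26), (2, 4), (1, 27), (0, 5), (5, 28),
    (4, 0)] := by
  decide +kernel

theorem chkB_3 : chk eB 6 29 12 l3
    [[(3, 19)], [(2, 13), (4, 12)], [(3, 14)], [(4, 16)], [(3, 18), (5, 17)], [(2, 15)], [(3, 21),
    (1, 22)], [(2, 20)], [(1, 11)], [(0, 10), (2, 9)], [(5, 8)], [(4, 7), (6, 6)]]
    [(4, 5), (3, 27), (4, 4), (3, 26), (4, 3), (3, 25), (2, 2), (3, 24), (2, 1), (1, 23), (6, 0),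
    (5, 28)] := by
  decide +kernel

end Pool.Agent.MPd439b2.W
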