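import Pool.Agent.Lib.MP_d439b2_co.W.SpecU

/-!
# MP_d439b2_co, W: boundedly many null edges, general k (U3)
-/

set_option autoImplicit false

namespace Pool.Agent.MPd439b2.W

open Pool.Agent.MPd439b2

namespace DirtU56

variable {V : Type} {D : SimpleGraph V} {n : ℕ} {a b : ℕ → V} {K : Set V}

theorem enum (S : Finset ℕ) (m : ℕ) (h : m ≤ S.card) : ∃ σ : ℕ → ℕ, (∀ i < m, σ i ∈ S) ∧
    ∀ i < m, ∀ j < m, σ i = σ j → i = j := by
  refine ⟨fun i => if hi : i < S.card then S.orderEmbOfFin rfl ⟨i, hi⟩ else 0, fun i hi => ?_,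
    fun i hi j hj hij => ?_⟩
  · dsimp only
    rw [dif_pos (by omega)]
    exact S.orderEmbOfFin_mem rfl _
  · dsimp only at hij
    rw [dif_pos (by omega), dif_pos (by omega)] at hij
    exact congrArg Fin.val ((S.orderEmbOfFin rfl).injective hij)

/-- `w` does not touch the edge `k` -/
def NT (D : SimpleGraph V) (a b : ℕ → V) (w : V) (k : ℕ) : Prop :=
  ¬ D.Adj w (a k) ∧ ¬ D.Adj w (b k)

/-- `x`, `x'` are the ends of the edge `k` -/
def En (a b : ℕ → V) (k : ℕ) (x x' : V) : Prop :=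
  (x = a k ∧ x' = b k) ∨ (x = b k ∧ x' = a k)

theorem nt_of {w : V} {k : ℕ} (hk : k < n) (h : k ∉ Jt D n a b w) : NT D a b w k := by
  rw [mem_Jt] at h
  constructor
  · exact fun h1 => h ⟨hk, Or.inl h1⟩
  · exact fun h1 => h ⟨hk, Or.inr h1⟩

theorem en_exists {w : V} {k : ℕ} (h : k ∈ Jt D n a b w) :
    ∃ x x', En a b k x x' ∧ D.Adj w x := by
  rw [mem_Jt] at h
  rcases h.2 with h1 | h1
  · exact ⟨a k, b k, Or.inl ⟨rfl, rfl⟩, h1⟩
  · exact ⟨b k, a k, Or.inr ⟨rfl, rfl⟩, h1⟩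

theorem En.adj {k : ℕ} {x x' : V} (h : En a b k x x') (him : IM D n a b) (hk : k < n) :
    D.Adj x x' := by
  rcases h with ⟨rfl, rfl⟩ | ⟨rfl, rfl⟩
  · exact him.edge hk
  · exact (him.edge hk).symm

theorem En.nt {k : ℕ} {x x' w : V} (h : En a b k x x') (hw : NT D a b w k) :
    ¬ D.Adj x w ∧ ¬ D.Adj x' w := by
  rcases h with ⟨rfl, rfl⟩ | ⟨rfl, rfl⟩
  · exact ⟨fun h1 => hw.1 h1.symm, fun h1 => hw.2 h1.symm⟩
  · exact ⟨fun h1 => hw.2 h1.symm, fun h1 => hw.1 h1.symm⟩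

theorem En.cross {k k' : ℕ} {x x' y y' : V} (h : En a b k x x') (h' : En a b k' y y')
    (him : IM D n a b) (hk : k < n) (hk' : k' < n) (hne : k ≠ k') :
    ¬ D.Adj x y ∧ ¬ D.Adj x y' ∧ ¬ D.Adj x' y ∧ ¬ D.Adj x' y' := by
  have e1 : ¬ D.Adj (a k) (b k') := fun h1 => hne ((him k hk k' hk').1.1 h1)
  have e2 : ¬ D.Adj (b k) (a k') := fun h1 => hne ((him k' hk' k hk).1.1 h1.symm).symm
  have e3 := (him k hk k' hk').2.1
  have e4 := (him k hk k' hk').2.2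
  rcases h with ⟨rfl, rfl⟩ | ⟨rfl, rfl⟩ <;> rcases h' with ⟨rfl, rfl⟩ | ⟨rfl, rfl⟩
  · exact ⟨e3, e1, e2, e4⟩
  · exact ⟨e1, e3, e4, e2⟩
  · exact ⟨e2, e4, e3, e1⟩
  · exact ⟨e4, e2, e1, e3⟩

theorem En.ne {k k' : ℕ} {x x' : V} (h : En a b k x x') (him : IM D n a b) (hk : k < n)
    (hk' : k' < n) (hne : k ≠ k') : a k' ≠ x ∧ a k' ≠ x' ∧ b k' ≠ x ∧ b k' ≠ x' := by
  have e1 : a k' ≠ a k := fun h1 => hne (him.inj_a hk' hk h1).symm
  have e2 : a k' ≠ b k := him.ne_ab hk' hk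
  have e3 : b k' ≠ a k := (him.ne_ab hk hk').symm
  have e4 : b k' ≠ b k := fun h1 => hne (him.inj_b hk' hk h1).symm
  rcases h with ⟨rfl, rfl⟩ | ⟨rfl, rfl⟩
  · exact ⟨e1, e2, e3, e4⟩
  · exact ⟨e2, e1, e4, e3⟩

theorem nt_ne {k : ℕ} {w : V} (him : IM D n a b) (hk : k < n) (hw : NT D a b w k) :
    a k ≠ w ∧ b k ≠ w := by
  constructor
  · rintro rfl
    exact hw.2 (him.edge hk)
  · rintro rfl
    exact hw.1 (him.edge hk).symm

/-- a vertex of the matching touches only one edge -/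
theorem not_end {f : V} (him : IM D n a b) (h2 : 2 ≤ (Jt D n a b f).card) {k : ℕ} (hk : k < n) :
    a k ≠ f ∧ b k ≠ f := by
  have key : ∀ g : V, (∀ i < n, (D.Adj g (a i) ∨ D.Adj g (b i)) → i = k) →
      (Jt D n a b g).card ≤ 1 := by
    intro g hg
    have h3 : Jt D n a b g ⊆ {k} := by
      intro i hi
      rw [mem_Jt] at hi
      rw [Finset.mem_singleton]
      exact hg i hi.1 hi.2
    exact (Finset.card_le_card h3).trans (by simp)
  constructor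
  · rintro rfl
    have h4 := key (a k) (fun i hi h => by
      rcases h with h | h
      · exact absurd h (him k hk i hi).2.1
      · exact ((him k hk i hi).1.1 h).symm)
    omega
  · rintro rfl
    have h4 := key (b k) (fun i hi h => by
      rcases h with h | h
      · exact (him i hi k hk).1.1 h.symm
      · exact absurd h (him k hk i hi).2.2)
    omega

/-- levels of an edge near `z` -/
theorem near {lam : V → ℕ} {r z p q : V} (hl : Lvl D K lam r) (hz : z ∈ K) (hp : p ∈ K)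
    (hq : q ∈ K) (hpq : D.Adj p q) (h : D.Adj z p ∨ D.Adj z q) :
    lam z ≤ lam p + 2 ∧ lam p ≤ lam z + 2 := by
  have h1 := hl.slow' hp hq hpq
  rcases h with h | h
  · have h2 := hl.slow' hz hp h
    omega
  · have h2 := hl.slow' hz hq h
    omega

end DirtU56

open DirtU56

theorem dirtU (h1 : SA.S_Pt) (h2 : S_Leg3) : S_DirtU := by
  classical
  intro k h n V D a b U K lam r f p q hS hl hfU hfK hpq hlev
  have hKU : K ⊆ U := hS.comp.2.1
  have him := hS.im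
  have hbig : 2 * (k * h) + 60 * h + 2 * k + 60 ≤ n := by
    have e : (2 * k + 60) * (h + 1) = 2 * (k * h) + 60 * h + 2 * k + 60 := by ring
    rw [← e]
    exact hS.big
  obtain ⟨hp0, hq0, hpq0, hfp0, hfq0⟩ := hpq 0 (by omega)
  obtain ⟨z₀, hz₀, z₁, hz₁, z₂, hz₂, hfz, h01, h12, hfz1, hfz2⟩ :=
    h2 V D K f (p 0) (q 0) hS.comp.1 hfK hp0 hq0 hpq0 hfp0 hfq0
  have l01 := hl.slow' hz₀ hz₁ h01
  have l12 := hl.slow' hz₁ hz₂ h12
  -- hit indices
  let hit : ℕ → Prop := fun i => D.Adj z₀ (p i) ∨ D.Adj z₀ (q i) ∨ D.Adj z₁ (p i) ∨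
    D.Adj z₁ (q i) ∨ D.Adj z₂ (p i) ∨ D.Adj z₂ (q i)
  have hhit : ∀ i < k + 2, hit i → lam z₁ ≤ lam (p i) + 3 ∧ lam (p i) ≤ lam z₁ + 3 := by
    intro i hi hh
    obtain ⟨hp, hq, hpq', _, _⟩ := hpq i hi
    have e0 : D.Adj z₀ (p i) ∨ D.Adj z₀ (q i) → lam z₀ ≤ lam (p i) + 2 ∧ lam (p i) ≤ lam z₀ + 2 :=
      near hl hz₀ hp hq hpq'
    have e1 : D.Adj z₁ (p i) ∨ D.Adj z₁ (q i) → lam z₁ ≤ lam (p i) + 2 ∧ lam (p i) ≤ lam z₁ + 2 :=
      near hl hz₁ hp hq hpq'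
    have e2 : D.Adj z₂ (p i) ∨ D.Adj z₂ (q i) → lam z₂ ≤ lam (p i) + 2 ∧ lam (p i) ≤ lam z₂ + 2 :=
      near hl hz₂ hp hq hpq'
    rcases hh with hh | hh | hh | hh | hh | hh
    · have := e0 (Or.inl hh); omega
    · have := e0 (Or.inr hh); omega
    · have := e1 (Or.inl hh); omega
    · have := e1 (Or.inr hh); omega
    · have := e2 (Or.inl hh); omega
    · have := e2 (Or.inr hh); omega
  have hHcard : ((Finset.range (k + 2)).filter hit).card ≤ 2 := by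
    by_contra hcon
    push Not at hcon
    obtain ⟨σ, hσ, hinj⟩ := enum ((Finset.range (k + 2)).filter hit) 3 hcon
    have m0 := Finset.mem_filter.1 (hσ 0 (by omega))
    have m1 := Finset.mem_filter.1 (hσ 1 (by omega))
    have m2 := Finset.mem_filter.1 (hσ 2 (by omega))
    rw [Finset.mem_range] at m0 m1 m2
    have n01 : σ 0 ≠ σ 1 := fun h => absurd (hinj 0 (by omega) 1 (by omega) h) (by omega)
    have n02 : σ 0 ≠ σ 2 := fun h => absurd (hinj 0 (by omega) 2 (by omega) h) (by omega)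
    have n12 : σ 1 ≠ σ 2 := fun h => absurd (hinj 1 (by omega) 2 (by omega) h) (by omega)
    have b0 := hhit _ m0.1 m0.2
    have b1 := hhit _ m1.1 m1.2
    have b2 := hhit _ m2.1 m2.2
    have key : ∀ i < k + 2, ∀ j < k + 2, i ≠ j → lam (p i) + 6 ≤ lam (p j) ∨ lam (p j) + 6 ≤ lam (p i) := by
      intro i hi j hj hij
      rcases lt_or_gt_of_ne hij with h3 | h3
      · exact Or.inl (hlev j hj i h3)
      · exact Or.inr (hlev i hi j h3)
    have c0 := key _ m0.1 _ m1.1 n01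
    have c1 := key _ m0.1 _ m2.1 n02
    have c2 := key _ m1.1 _ m2.1 n12
    omega
  have hNcard : k ≤ ((Finset.range (k + 2)).filter (fun i => ¬ hit i)).card := by
    have h3 := Finset.card_filter_add_card_filter_not (s := Finset.range (k + 2)) hit
    rw [Finset.card_range] at h3
    omega
  obtain ⟨ι, hι, hιinj⟩ := enum _ k hNcard
  have hι6 : ∀ j < k, ι j < k + 2 := fun j hj => Finset.mem_range.1 (Finset.mem_filter.1 (hι j hj)).1
  have hιn : ∀ j < k, ¬ hit (ι j) := fun j hj => (Finset.mem_filter.1 (hι j hj)).2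
  set P : ℕ → V := fun j => p (ι j) with hP
  set Q : ℕ → V := fun j => q (ι j) with hQ
  have hPK : ∀ j < k, P j ∈ K := fun j hj => (hpq _ (hι6 j hj)).1
  have hQK : ∀ j < k, Q j ∈ K := fun j hj => (hpq _ (hι6 j hj)).2.1
  have hPQ : ∀ j < k, D.Adj (P j) (Q j) := fun j hj => (hpq _ (hι6 j hj)).2.2.1
  have hfP : ∀ j < k, ¬ D.Adj f (P j) := fun j hj => (hpq _ (hι6 j hj)).2.2.2.1
  have hfQ : ∀ j < k, ¬ D.Adj f (Q j) := fun j hj => (hpq _ (hι6 j hj)).2.2.2.2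
  have hIMPQ : IM D k P Q := by
    intro i hi j hj
    by_cases hij : i = j
    · subst hij
      exact ⟨iff_of_true (hPQ i hi) rfl, fun h3 => h3.ne rfl, fun h3 => h3.ne rfl⟩
    · have hne : ι i ≠ ι j := fun h3 => hij (hιinj i hi j hj h3)
      have hd : lam (P i) + 6 ≤ lam (P j) ∨ lam (P j) + 6 ≤ lam (P i) := by
        rcases lt_or_gt_of_ne hne with h3 | h3
        · exact Or.inl (hlev _ (hι6 j hj) _ h3)
        · exact Or.inr (hlev _ (hι6 i hi) _ h3)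
      have s1 := hl.slow' (hPK i hi) (hQK i hi) (hPQ i hi)
      have s2 := hl.slow' (hPK j hj) (hQK j hj) (hPQ j hj)
      refine ⟨iff_of_false ?_ hij, ?_, ?_⟩
      · exact hl.nadj (hPK i hi) (hQK j hj) (by omega)
      · exact hl.nadj (hPK i hi) (hPK j hj) (by omega)
      · exact hl.nadj (hQK i hi) (hQK j hj) (by omega)
  -- the free edges
  obtain ⟨good, hgood⟩ : ∃ good : ℕ → Prop, ∀ l, good l ↔ (l ∉ Jt D n a b z₀ ∧
      l ∉ Jt D n a b z₁ ∧ l ∉ Jt D n a b z₂ ∧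
        ∀ j < k, l ∉ Jt D n a b (P j) ∧ l ∉ Jt D n a b (Q j)) := ⟨_, fun _ => Iff.rfl⟩
  set G : Finset ℕ := (Jt D n a b f).filter good with hG
  have hGc : 2 ≤ G.card := by
    have hcov : Jt D n a b f ⊆ G ∪ (Jt D n a b z₀ ∪ (Jt D n a b z₁ ∪ (Jt D n a b z₂ ∪
        (Finset.range k).biUnion (fun j => Jt D n a b (P j) ∪ Jt D n a b (Q j))))) := by
      intro l hk
      by_contra hcon
      simp only [Finset.mem_union, Finset.mem_biUnion, Finset.mem_range, not_or, not_exists,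
        not_and] at hcon
      obtain ⟨c1, c2, c3, c4, c5⟩ := hcon
      exact c1 (Finset.mem_filter.2 ⟨hk, (hgood l).2 ⟨c2, c3, c4, fun j hj => c5 j hj⟩⟩)
    have b0 := hS.full f hfU
    have b1 := Finset.card_le_card hcov
    have b2 := hS.light z₀ (hKU hz₀)
    have b3 := hS.light z₁ (hKU hz₁)
    have b4 := hS.light z₂ (hKU hz₂)
    have b5 : ((Finset.range k).biUnion (fun j => Jt D n a b (P j) ∪ Jt D n a b (Q j))).card ≤
        2 * (k * h) := by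
      have b6 := Finset.card_biUnion_le_card_mul (Finset.range k)
        (fun j => Jt D n a b (P j) ∪ Jt D n a b (Q j)) (2 * h) (fun j hj => by
          rw [Finset.mem_range] at hj
          refine (Finset.card_union_le _ _).trans ?_
          have c1 := hS.light _ (hKU (hPK j hj))
          have c2 := hS.light _ (hKU (hQK j hj))
          omega)
      rw [Finset.card_range] at b6
      have e : k * (2 * h) = 2 * (k * h) := by ring
      rwa [e] at b6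
    have u1 := Finset.card_union_le G (Jt D n a b z₀ ∪ (Jt D n a b z₁ ∪ (Jt D n a b z₂ ∪
        (Finset.range k).biUnion (fun j => Jt D n a b (P j) ∪ Jt D n a b (Q j)))))
    have u2 := Finset.card_union_le (Jt D n a b z₀) (Jt D n a b z₁ ∪ (Jt D n a b z₂ ∪
        (Finset.range k).biUnion (fun j => Jt D n a b (P j) ∪ Jt D n a b (Q j))))
    have u3 := Finset.card_union_le (Jt D n a b z₁) (Jt D n a b z₂ ∪
        (Finset.range k).biUnion (fun j => Jt D n a b (P j) ∪ Jt D n a b (Q j)))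
    have u4 := Finset.card_union_le (Jt D n a b z₂)
        ((Finset.range k).biUnion (fun j => Jt D n a b (P j) ∪ Jt D n a b (Q j)))
    omega
  obtain ⟨σ, hσ, hσinj⟩ := enum G (2) hGc
  have hσf : ∀ i < 2, σ i ∈ Jt D n a b f := fun i hi => (Finset.mem_filter.1 (hσ i hi)).1
  have hσn : ∀ i < 2, σ i < n := fun i hi => (mem_Jt.1 (hσf i hi)).1
  have t0 : ∀ i < 2, NT D a b z₀ (σ i) := fun i hi =>
    nt_of (hσn i hi) ((hgood _).1 (Finset.mem_filter.1 (hσ i hi)).2).1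
  have t1 : ∀ i < 2, NT D a b z₁ (σ i) := fun i hi =>
    nt_of (hσn i hi) ((hgood _).1 (Finset.mem_filter.1 (hσ i hi)).2).2.1
  have t2 : ∀ i < 2, NT D a b z₂ (σ i) := fun i hi =>
    nt_of (hσn i hi) ((hgood _).1 (Finset.mem_filter.1 (hσ i hi)).2).2.2.1
  have tP : ∀ i < 2, ∀ j < k, NT D a b (P j) (σ i) := fun i hi j hj =>
    nt_of (hσn i hi) (((hgood _).1 (Finset.mem_filter.1 (hσ i hi)).2).2.2.2 j hj).1
  have tQ : ∀ i < 2, ∀ j < k, NT D a b (Q j) (σ i) := fun i hi j hj =>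
    nt_of (hσn i hi) (((hgood _).1 (Finset.mem_filter.1 (hσ i hi)).2).2.2.2 j hj).2
  have hJ2 : 2 ≤ (Jt D n a b f).card := by
    have : G.card ≤ (Jt D n a b f).card := Finset.card_filter_le _ _
    omega
  have i0 : 0 < 2 := by omega
  have i1 : 1 < 2 := by omega
  have hne01 : σ 0 ≠ σ 1 := fun h3 => absurd (hσinj 0 i0 1 i1 h3) (by omega)
  obtain ⟨x₁, x₂, hEx, hfx⟩ := en_exists (hσf 0 i0)
  obtain ⟨y₁, y₂, hEy, hfy⟩ := en_exists (hσf 1 i1)
  have cr := hEx.cross hEy him (hσn 0 i0) (hσn 1 i1) hne01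
  have x0 := hEx.nt (t0 0 i0)
  have x1 := hEx.nt (t1 0 i0)
  have x2 := hEx.nt (t2 0 i0)
  have y0 := hEy.nt (t0 1 i1)
  have y1 := hEy.nt (t1 1 i1)
  have y2 := hEy.nt (t2 1 i1)
  have hSpd : Spd D f x₁ x₂ y₁ y₂ z₀ z₁ z₂ :=
    { cx := hfx
      xx := hEx.adj him (hσn 0 i0)
      cy := hfy
      yy := hEy.adj him (hσn 1 i1)
      cz := hfz
      zz := h01
      zw := h12
      ncz3 := hfz2
      nx1y2 := cr.2.1
      nx1z2 := x1.1
      nx1z3 := x2.1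
      nx2y1 := cr.2.2.1
      nx2y2 := cr.2.2.2
      nx2z1 := x0.2
      nx2z2 := x1.2
      nx2z3 := x2.2
      ny1z2 := y1.1
      ny1z3 := y2.1
      ny2z1 := y0.2
      ny2z2 := y1.2
      ny2z3 := y2.2 }
  have eP : ∀ t, ¬ hit t → ¬ D.Adj z₀ (p t) ∧ ¬ D.Adj z₀ (q t) ∧ ¬ D.Adj z₁ (p t) ∧
      ¬ D.Adj z₁ (q t) ∧ ¬ D.Adj z₂ (p t) ∧ ¬ D.Adj z₂ (q t) := by
    intro t ht
    simp only [hit, not_or] at ht
    exact ht
  refine h1 V D k f x₁ x₂ y₁ y₂ z₀ z₁ z₂ P Q hS.tri hS.noS hSpd.cx hSpd.xx hSpd.cy hSpd.yy hSpd.cz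
    hSpd.zz hSpd.zw hSpd.ncz3 hSpd.nx1y2 hSpd.nx1z2 hSpd.nx1z3 (fun h3 => hSpd.nx2y1 h3.symm)
    hSpd.ny1z2 hSpd.ny1z3 (fun h3 => hSpd.nx2z1 h3.symm) (fun h3 => hSpd.ny2z1 h3.symm)
    hSpd.nx2y2 hSpd.nx2z2 hSpd.nx2z3 hSpd.ny2z2 hSpd.ny2z3 hIMPQ ?_
  intro t ht v hv
  obtain ⟨g1, g2, g3, g4, g5, g6⟩ := eP _ (hιn t ht)
  have a1 := hEx.nt (tP 0 i0 t ht)
  have a2 := hEx.nt (tQ 0 i0 t ht)
  have a3 := hEy.nt (tP 1 i1 t ht)
  have a4 := hEy.nt (tQ 1 i1 t ht)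
  simp only [Set.mem_insert_iff, Set.mem_singleton_iff] at hv
  rcases hv with rfl | rfl | rfl | rfl | rfl | rfl | rfl | rfl
  · exact ⟨hfP t ht, hfQ t ht⟩
  · exact ⟨a1.1, a2.1⟩
  · exact ⟨a1.2, a2.2⟩
  · exact ⟨a3.1, a4.1⟩
  · exact ⟨a3.2, a4.2⟩
  · exact ⟨g1, g2⟩
  · exact ⟨g3, g4⟩
  · exact ⟨g5, g6⟩

end Pool.Agent.MPd439b2.W
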