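import Pool.Agent.Lib.MP_d439b2_co.W.SpecU

/-!
# MP_d439b2_co, W, U2: sets of light vertices contain no merged spider
-/

set_option autoImplicit false

namespace Pool.Agent.MPd439b2.W

open Pool.Agent.MPd439b2

namespace ExclWAux

private theorem f3_spE : ∀ i j : Fin 8, (F3.Adj (Fin.castLE (by norm_num : 8 ≤ 12) i)
    (Fin.castLE (by norm_num : 8 ≤ 12) j) ↔ SA.spE i j) := by
  unfold F3
  decide

private theorem spE_symm {i j : Fin 8} (h : SA.spE i j) : SA.spE j i := Or.symm h

private theorem spE_non : ∀ i : Fin 8, ∃ j, j ≠ i ∧ ¬ SA.spE i j := by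
  decide

private def idx : Finset (Fin 8 × Fin 8) := Finset.univ.filter fun p => p.2 ≠ p.1 ∧ ¬ SA.spE p.1 p.2

private theorem idx_card : idx.card ≤ 56 := by
  decide

private theorem pick {n k : ℕ} (T : Finset ℕ) (h : T.card + k ≤ n) :
    ∃ o : ℕ → ℕ, (∀ t < k, o t < n ∧ o t ∉ T) ∧ ∀ t < k, ∀ u < k, t ≠ u → o t ≠ o u := by
  have h1 : k ≤ (Finset.range n \ T).card := by
    have := Finset.le_card_sdiff T (Finset.range n)
    rw [Finset.card_range] at this
    omega
  obtain ⟨S, hS, hSk⟩ := Finset.exists_subset_card_eq h1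
  let e := S.orderIsoOfFin hSk
  refine ⟨fun t => if h : t < k then (e ⟨t, h⟩ : ℕ) else 0, fun t ht => ?_, fun t ht u hu htu => ?_⟩
  · beta_reduce
    rw [dif_pos ht]
    have h2 := Finset.mem_sdiff.mp (hS (e ⟨t, ht⟩).2)
    exact ⟨Finset.mem_range.mp h2.1, h2.2⟩
  · beta_reduce
    rw [dif_pos ht, dif_pos hu]
    intro h2
    exact htu (congrArg Fin.val (e.injective (Subtype.ext h2)))

end ExclWAux

open ExclWAux in
/-- **U2.** -/
theorem exclW : S_ExclW := by
  intro k h n V D a b W htri hno him hW hn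
  classical
  right
  right
  rintro ⟨B, hconn, hdis, hadj⟩
  let A : Fin 8 → Set W := fun i => B (Sum.inr (Fin.castLE (by norm_num : 8 ≤ 12) i))
  have hι : ∀ i j : Fin 8, i ≠ j → (Sum.inr (Fin.castLE (by norm_num : 8 ≤ 12) i) : Fin 0 ⊕ Fin 12) ≠
      Sum.inr (Fin.castLE (by norm_num : 8 ≤ 12) j) := by
    intro i j hij h1
    have h2 := Sum.inr.inj h1
    exact hij (Fin.ext (by simpa using congrArg Fin.val h2))
  have hAdis : ∀ i j, i ≠ j → Disjoint (A i) (A j) := fun i j hij => hdis _ _ (hι i j hij)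
  have hAne : ∀ i j, i ≠ j → ∀ x ∈ A i, ∀ y ∈ A j, x ≠ y := by
    intro i j hij x hx y hy hxy
    exact Set.disjoint_left.mp (hAdis i j hij) hx (hxy ▸ hy)
  have hK : ∀ i j : Fin 8, i ≠ j → ((KCo 0 F3).Adj (Sum.inr (Fin.castLE (by norm_num : 8 ≤ 12) i))
      (Sum.inr (Fin.castLE (by norm_num : 8 ≤ 12) j)) ↔ ¬ SA.spE i j) := by
    intro i j hij
    rw [← f3_spE i j]
    constructor
    · intro h1
      exact h1.2
    · intro h1
      exact ⟨fun h2 => hι i j hij (congrArg Sum.inr h2), h1⟩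
  have hyes : ∀ i j, i ≠ j → SA.spE i j → ∀ x ∈ A i, ∀ y ∈ A j, D.Adj x.1 y.1 := by
    intro i j hij he x hx y hy
    by_contra hc
    have h1 : ∃ x ∈ A i, ∃ y ∈ A j, (D.induce W)ᶜ.Adj x y :=
      ⟨x, hx, y, hy, hAne i j hij x hx y hy, fun h2 => hc h2⟩
    exact ((hK i j hij).mp ((hadj _ _ (hι i j hij)).mpr h1)) he
  have hno' : ∀ i j, i ≠ j → ¬ SA.spE i j → ∃ x ∈ A i, ∃ y ∈ A j, ¬ D.Adj x.1 y.1 := by
    intro i j hij he
    obtain ⟨x, hx, y, hy, h1⟩ := (hadj _ _ (hι i j hij)).mp ((hK i j hij).mpr he)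
    exact ⟨x, hx, y, hy, fun h2 => h1.2 h2⟩
  have hneA : ∀ i, (A i).Nonempty := by
    intro i
    obtain ⟨j, hj, he⟩ := spE_non i
    obtain ⟨x, hx, _⟩ := hno' i j hj.symm he
    exact ⟨x, hx⟩
  have : Nonempty W := ⟨(hneA 0).choose⟩
  choose! X hX Y hY hXY using hno'
  let w : Fin 8 → Fin 8 → W := fun i j => if i < j then X i j else Y j i
  have hwA : ∀ i j, j ≠ i → ¬ SA.spE i j → w i j ∈ A i := by
    intro i j hji he
    by_cases hlt : i < j
    · have : w i j = X i j := if_pos hlt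
      rw [this]
      exact hX i j hji.symm he
    · have : w i j = Y j i := if_neg hlt
      rw [this]
      exact hY j i hji fun h2 => he (spE_symm h2)
  have hww : ∀ i j, j ≠ i → ¬ SA.spE i j → ¬ D.Adj (w i j).1 (w j i).1 := by
    intro i j hji he
    by_cases hlt : i < j
    · have h1 : w i j = X i j := if_pos hlt
      have h2 : w j i = Y i j := if_neg (not_lt.mpr hlt.le)
      rw [h1, h2]
      exact hXY i j hji.symm he
    · have h1 : w i j = Y j i := if_neg hlt
      have h2 : w j i = X j i := if_pos (lt_of_le_of_ne (not_lt.mp hlt) hji)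
      rw [h1, h2]
      exact fun h3 => hXY j i hji (fun h4 => he (spE_symm h4)) h3.symm
  let g : Fin 8 → Finset V := fun i =>
    (Finset.univ.filter fun j => j ≠ i ∧ ¬ SA.spE i j).image fun j => (w i j).1
  have hg : ∀ i x, x ∈ g i → ∃ j, j ≠ i ∧ ¬ SA.spE i j ∧ (w i j).1 = x := by
    intro i x hx
    obtain ⟨j, hj, h1⟩ := Finset.mem_image.mp hx
    have h2 := (Finset.mem_filter.mp hj).2
    exact ⟨j, h2.1, h2.2, h1⟩
  have hg' : ∀ i j, j ≠ i → ¬ SA.spE i j → (w i j).1 ∈ g i := by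
    intro i j h1 h2
    exact Finset.mem_image.mpr ⟨j, Finset.mem_filter.mpr ⟨Finset.mem_univ _, h1, h2⟩, rfl⟩
  let T : Finset ℕ := idx.biUnion fun p => Jt D n a b (w p.1 p.2).1
  have hT : T.card ≤ 56 * h := by
    refine (Finset.card_biUnion_le).trans ?_
    refine (Finset.sum_le_card_nsmul idx _ h fun p _ => hW _ (w p.1 p.2).2).trans ?_
    rw [smul_eq_mul]
    exact Nat.mul_le_mul_right h idx_card
  obtain ⟨o, ho, hoi⟩ := pick (n := n) (k := k) T (by omega)
  have hfree : ∀ i, ∀ x ∈ g i, ∀ t < k, ¬ D.Adj x (a (o t)) ∧ ¬ D.Adj x (b (o t)) := by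
    intro i x hx t ht
    obtain ⟨j, hj, he, rfl⟩ := hg i x hx
    by_contra hc
    refine (ho t ht).2 (Finset.mem_biUnion.mpr ⟨(i, j), ?_, ?_⟩)
    · exact Finset.mem_filter.mpr ⟨Finset.mem_univ _, hj, he⟩
    · refine Finset.mem_filter.mpr ⟨Finset.mem_range.mpr (ho t ht).1, ?_⟩
      by_contra h3
      rw [not_or] at h3
      exact hc h3
  have hgne : ∀ i, (g i).Nonempty := by
    intro i
    obtain ⟨j, hj, he⟩ := spE_non i
    exact ⟨_, hg' i j hj he⟩
  refine hno g (fun t => {a (o t)}) (fun t => {b (o t)}) ⟨hgne, fun t _ => ⟨_, Finset.mem_singleton_self _⟩,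
    fun t _ => ⟨_, Finset.mem_singleton_self _⟩, fun i j hij => ?_, fun i j hij => ?_, fun i t ht => ?_,
    fun i t ht => ?_, fun t ht => ?_, fun t ht u hu htu => ?_, fun t ht u hu htu => ?_,
    fun t ht u hu htu => ?_⟩
  · rw [Finset.disjoint_left]
    intro x hx hx'
    obtain ⟨j1, h1, h2, h3⟩ := hg i x hx
    obtain ⟨j2, h4, h5, h6⟩ := hg j x hx'
    exact hAne i j hij _ (hwA i j1 h1 h2) _ (hwA j j2 h4 h5) (Subtype.ext (h3.trans h6.symm))
  · constructor
    · intro hc
      by_contra he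
      exact hww i j hij.symm he (hc _ (hg' i j hij.symm he) _
        (hg' j i hij fun h2 => he (spE_symm h2)))
    · intro he x hx y hy
      obtain ⟨j1, h1, h2, rfl⟩ := hg i x hx
      obtain ⟨j2, h4, h5, rfl⟩ := hg j y hy
      exact hyes i j hij he _ (hwA i j1 h1 h2) _ (hwA j j2 h4 h5)
  · constructor
    · rw [Finset.disjoint_singleton_right]
      intro hx
      exact (hfree i _ hx t ht).2 (him.edge (ho t ht).1)
    · intro hc
      obtain ⟨x, hx⟩ := hgne i
      exact (hfree i x hx t ht).1 (hc x hx _ (Finset.mem_singleton_self _))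
  · constructor
    · rw [Finset.disjoint_singleton_right]
      intro hx
      exact (hfree i _ hx t ht).1 (him.edge (ho t ht).1).symm
    · intro hc
      obtain ⟨x, hx⟩ := hgne i
      exact (hfree i x hx t ht).2 (hc x hx _ (Finset.mem_singleton_self _))
  · constructor
    · rw [Finset.disjoint_singleton]
      exact him.ne_ab (ho t ht).1 (ho t ht).1
    · intro x hx y hy
      rw [Finset.mem_singleton] at hx hy
      rw [hx, hy]
      exact him.edge (ho t ht).1
  · constructor
    · rw [Finset.disjoint_singleton]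
      exact fun he => hoi t ht u hu htu (him.inj_a (ho t ht).1 (ho u hu).1 he)
    · intro hc
      exact (him _ (ho t ht).1 _ (ho u hu).1).2.1
        (hc _ (Finset.mem_singleton_self _) _ (Finset.mem_singleton_self _))
  · constructor
    · rw [Finset.disjoint_singleton]
      exact him.ne_ab (ho t ht).1 (ho u hu).1
    · intro hc
      exact hoi t ht u hu htu ((him _ (ho t ht).1 _ (ho u hu).1).1.mp
        (hc _ (Finset.mem_singleton_self _) _ (Finset.mem_singleton_self _)))
  · constructor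
    · rw [Finset.disjoint_singleton]
      exact fun he => hoi t ht u hu htu (him.inj_b (ho t ht).1 (ho u hu).1 he)
    · intro hc
      exact (him _ (ho t ht).1 _ (ho u hu).1).2.2
        (hc _ (Finset.mem_singleton_self _) _ (Finset.mem_singleton_self _))

end Pool.Agent.MPd439b2.W
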