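import Pool.Agent.Lib.MP_d439b2_co.W.SpecO

/-!
# MP_d439b2_co, W/OAlt: open bundles contain open alternating bundles
-/

set_option autoImplicit false

namespace Pool.Agent.MPd439b2.W

open Pool.Agent.MPd439b2

namespace OAltAux

section

variable {α : Type} [PartialOrder α]

/-- steps can be restricted along an increasing map -/
theorem step_restr {M M' : ℕ} {a b : ℕ → α} (h : Step M a b) (f : ℕ → ℕ)
    (hf : ∀ k l, k < l → f k < f l) (hb : ∀ k, k < M' → f k < M) :
    Step M' (fun k => a (f k)) (fun k => b (f k)) := by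
  intro k hk l hl
  exact ⟨fun hkl => (h _ (hb k hk) _ (hb l hl)).1 (hf k l hkl),
    fun hlk => (h _ (hb k hk) _ (hb l hl)).2 (hf l k hlk)⟩

theorem step_le {M M' : ℕ} {a b : ℕ → α} (h : Step M a b) (hM : M' ≤ M) : Step M' a b :=
  step_restr h id (fun _ _ h => h) (fun _ hk => lt_of_lt_of_le hk hM)

/-- alternating steps, beginning with an upward step (`t = 0`) or with a downward step (`t = 1`) -/
def AltT (m r t : ℕ) (v : ℕ → ℕ → α) : Prop :=
  ∀ i < r, ((i + t) % 2 = 0 → Step m (v i) (v (i + 1))) ∧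
    ((i + t) % 2 = 1 → Step m (v (i + 1)) (v i))

/-- the inductive statement -/
def Claim (w m r M : ℕ) : Prop :=
  m + 1 ≤ M ∧ ∀ (α : Type) [PartialOrder α] (v : ℕ → ℕ → α),
    JoinP α → WidP α w → Bun M r v →
    ∃ (r' t : ℕ) (v' : ℕ → ℕ → α), r' ≤ r ∧ t < 2 ∧ AltT (m + 1) r' t v' ∧
      (∀ k < m + 1, ∃ l < M, v' 0 k = v 0 l) ∧ ∀ k < m + 1, ∃ l < M, v' r' k = v r l

/-- merging two consecutive rails -/
theorem merge_bun (h1 : S_Merge) {w r M' : ℕ} {v : ℕ → ℕ → α} (hJ : JoinP α) (hW : WidP α w)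
    (hB : Bun ((4 * w + 4) * M' + 1) (r + 1) v) (i : ℕ) (hir : i < r)
    (h2 : (Step ((4 * w + 4) * M' + 1) (v i) (v (i + 1)) ∧
        Step ((4 * w + 4) * M' + 1) (v (i + 1)) (v (i + 2))) ∨
      (Step ((4 * w + 4) * M' + 1) (v (i + 1)) (v i) ∧
        Step ((4 * w + 4) * M' + 1) (v (i + 2)) (v (i + 1)))) :
    Bun M' r (fun j k => if j ≤ i then v j ((4 * w + 4) * k) else v (j + 1) ((4 * w + 4) * k)) := by
  have hK : 0 < 4 * w + 4 := by omega
  have hf : ∀ k l, k < l → (4 * w + 4) * k < (4 * w + 4) * l := fun k l h =>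
    Nat.mul_lt_mul_of_pos_left h hK
  have hb : ∀ k, k < M' → (4 * w + 4) * k < (4 * w + 4) * M' + 1 := fun k h =>
    lt_trans (hf k M' h) (Nat.lt_succ_self _)
  have hmono : ∀ j, j ≤ r + 1 → ∀ k l, k < l → l < (4 * w + 4) * M' → v j k < v j l :=
    fun j hj k l hkl hl => hB.mono j hj k l hkl (lt_trans hl (Nat.lt_succ_self _))
  have hmerge : Step M' (fun k => v i ((4 * w + 4) * k)) (fun k => v (i + 2) ((4 * w + 4) * k)) ∨
      Step M' (fun k => v (i + 2) ((4 * w + 4) * k)) (fun k => v i ((4 * w + 4) * k)) := by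
    rcases h2 with ⟨h2, h3⟩ | ⟨h2, h3⟩
    · left
      exact h1 α w M' (v i) (v (i + 1)) (v (i + 2)) hJ hW
        (fun k l hkl hl => ⟨hmono i (by omega) k l hkl hl, hmono (i + 1) (by omega) k l hkl hl,
          hmono (i + 2) (by omega) k l hkl hl⟩)
        (step_le h2 (Nat.le_succ _)) (step_le h3 (Nat.le_succ _))
    · right
      exact h1 α w M' (v (i + 2)) (v (i + 1)) (v i) hJ hW
        (fun k l hkl hl => ⟨hmono (i + 2) (by omega) k l hkl hl,
          hmono (i + 1) (by omega) k l hkl hl, hmono i (by omega) k l hkl hl⟩)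
        (step_le h3 (Nat.le_succ _)) (step_le h2 (Nat.le_succ _))
  constructor
  · intro j hj k l hkl hl
    show (if j ≤ i then v j ((4 * w + 4) * k) else v (j + 1) ((4 * w + 4) * k)) <
      (if j ≤ i then v j ((4 * w + 4) * l) else v (j + 1) ((4 * w + 4) * l))
    by_cases hji : j ≤ i
    · rw [if_pos hji, if_pos hji]
      exact hB.mono j (by omega) _ _ (hf k l hkl) (hb l hl)
    · rw [if_neg hji, if_neg hji]
      exact hB.mono (j + 1) (by omega) _ _ (hf k l hkl) (hb l hl)
  · intro j hj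
    rcases lt_trichotomy j i with hji | hji | hji
    · have e1 : (fun k => if j ≤ i then v j ((4 * w + 4) * k) else v (j + 1) ((4 * w + 4) * k)) =
          fun k => v j ((4 * w + 4) * k) := by
        funext k
        rw [if_pos hji.le]
      have e2 : (fun k => if j + 1 ≤ i then v (j + 1) ((4 * w + 4) * k) else
          v (j + 1 + 1) ((4 * w + 4) * k)) = fun k => v (j + 1) ((4 * w + 4) * k) := by
        funext k
        rw [if_pos (by omega)]
      show Step M' (fun k => if j ≤ i then v j ((4 * w + 4) * k) else v (j + 1) ((4 * w + 4) * k))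
        (fun k => if j + 1 ≤ i then v (j + 1) ((4 * w + 4) * k) else
          v (j + 1 + 1) ((4 * w + 4) * k)) ∨ Step M' (fun k => if j + 1 ≤ i then
            v (j + 1) ((4 * w + 4) * k) else v (j + 1 + 1) ((4 * w + 4) * k))
        (fun k => if j ≤ i then v j ((4 * w + 4) * k) else v (j + 1) ((4 * w + 4) * k))
      rw [e1, e2]
      rcases hB.step j (by omega) with h | h
      · exact Or.inl (step_restr h _ hf hb)
      · exact Or.inr (step_restr h _ hf hb)
    · subst hji
      have e1 : (fun k => if j ≤ j then v j ((4 * w + 4) * k) else v (j + 1) ((4 * w + 4) * k)) =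
          fun k => v j ((4 * w + 4) * k) := by
        funext k
        rw [if_pos le_rfl]
      have e2 : (fun k => if j + 1 ≤ j then v (j + 1) ((4 * w + 4) * k) else
          v (j + 1 + 1) ((4 * w + 4) * k)) = fun k => v (j + 2) ((4 * w + 4) * k) := by
        funext k
        rw [if_neg (by omega)]
      show Step M' (fun k => if j ≤ j then v j ((4 * w + 4) * k) else v (j + 1) ((4 * w + 4) * k))
        (fun k => if j + 1 ≤ j then v (j + 1) ((4 * w + 4) * k) else
          v (j + 1 + 1) ((4 * w + 4) * k)) ∨ Step M' (fun k => if j + 1 ≤ j then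
            v (j + 1) ((4 * w + 4) * k) else v (j + 1 + 1) ((4 * w + 4) * k))
        (fun k => if j ≤ j then v j ((4 * w + 4) * k) else v (j + 1) ((4 * w + 4) * k))
      rw [e1, e2]
      exact hmerge
    · have e1 : (fun k => if j ≤ i then v j ((4 * w + 4) * k) else v (j + 1) ((4 * w + 4) * k)) =
          fun k => v (j + 1) ((4 * w + 4) * k) := by
        funext k
        rw [if_neg (by omega)]
      have e2 : (fun k => if j + 1 ≤ i then v (j + 1) ((4 * w + 4) * k) else
          v (j + 1 + 1) ((4 * w + 4) * k)) = fun k => v (j + 1 + 1) ((4 * w + 4) * k) := by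
        funext k
        rw [if_neg (by omega)]
      show Step M' (fun k => if j ≤ i then v j ((4 * w + 4) * k) else v (j + 1) ((4 * w + 4) * k))
        (fun k => if j + 1 ≤ i then v (j + 1) ((4 * w + 4) * k) else
          v (j + 1 + 1) ((4 * w + 4) * k)) ∨ Step M' (fun k => if j + 1 ≤ i then
            v (j + 1) ((4 * w + 4) * k) else v (j + 1 + 1) ((4 * w + 4) * k))
        (fun k => if j ≤ i then v j ((4 * w + 4) * k) else v (j + 1) ((4 * w + 4) * k))
      rw [e1, e2]
      rcases hB.step (j + 1) (by omega) with h | h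
      · exact Or.inl (step_restr h _ hf hb)
      · exact Or.inr (step_restr h _ hf hb)

end

theorem claim_succ (h1 : S_Merge) {w m r M' : ℕ} (ih : Claim w m r M') :
    Claim w m (r + 1) ((4 * w + 4) * M' + 1) := by
  obtain ⟨hmM, ih⟩ := ih
  have hK : 0 < 4 * w + 4 := by omega
  have hMM : M' ≤ (4 * w + 4) * M' := Nat.le_mul_of_pos_left M' hK
  refine ⟨by omega, ?_⟩
  intro α _ v hJ hW hB
  by_cases c1 : ∃ i, i < r ∧ ((Step ((4 * w + 4) * M' + 1) (v i) (v (i + 1)) ∧
      Step ((4 * w + 4) * M' + 1) (v (i + 1)) (v (i + 2))) ∨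
      (Step ((4 * w + 4) * M' + 1) (v (i + 1)) (v i) ∧
        Step ((4 * w + 4) * M' + 1) (v (i + 2)) (v (i + 1))))
  · obtain ⟨i, hir, h2⟩ := c1
    have hB' := merge_bun h1 hJ hW hB i hir h2
    obtain ⟨r', t, v', hr', ht, hA, hs, he⟩ := ih α _ hJ hW hB'
    refine ⟨r', t, v', by omega, ht, hA, fun k hk => ?_, fun k hk => ?_⟩
    · obtain ⟨l, hl, h3⟩ := hs k hk
      refine ⟨(4 * w + 4) * l, lt_trans (Nat.mul_lt_mul_of_pos_left hl hK) (Nat.lt_succ_self _), ?_⟩
      rw [h3]
      exact if_pos (Nat.zero_le i)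
    · obtain ⟨l, hl, h3⟩ := he k hk
      refine ⟨(4 * w + 4) * l, lt_trans (Nat.mul_lt_mul_of_pos_left hl hK) (Nat.lt_succ_self _), ?_⟩
      rw [h3]
      exact if_neg (by omega)
  · have hend0 : ∀ k < m + 1, ∃ l < (4 * w + 4) * M' + 1, v 0 k = v 0 l := fun k hk =>
      ⟨k, by omega, rfl⟩
    have hend1 : ∀ k < m + 1, ∃ l < (4 * w + 4) * M' + 1, v (r + 1) k = v (r + 1) l :=
      fun k hk => ⟨k, by omega, rfl⟩
    have hstart : ∃ t < 2, (t % 2 = 0 → Step ((4 * w + 4) * M' + 1) (v 0) (v (0 + 1))) ∧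
        (t % 2 = 1 → Step ((4 * w + 4) * M' + 1) (v (0 + 1)) (v 0)) := by
      rcases hB.step 0 (by omega) with h | h
      · exact ⟨0, by omega, fun _ => h, fun h' => by omega⟩
      · exact ⟨1, by omega, fun h' => by omega, fun _ => h⟩
    obtain ⟨t, ht, hst⟩ := hstart
    have key : ∀ i, i ≤ r →
        ((i + t) % 2 = 0 → Step ((4 * w + 4) * M' + 1) (v i) (v (i + 1))) ∧
          ((i + t) % 2 = 1 → Step ((4 * w + 4) * M' + 1) (v (i + 1)) (v i)) := by
      intro i
      induction i with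
      | zero =>
        intro _
        rw [Nat.zero_add]
        exact hst
      | succ i ihi =>
        intro hi
        obtain ⟨h3, h4⟩ := ihi (by omega)
        constructor
        · intro hev
          have h5 := h4 (by omega)
          rcases hB.step (i + 1) (by omega) with h | h
          · exact h
          · exact absurd ⟨i, by omega, Or.inr ⟨h5, h⟩⟩ c1
        · intro hod
          have h5 := h3 (by omega)
          rcases hB.step (i + 1) (by omega) with h | h
          · exact absurd ⟨i, by omega, Or.inl ⟨h5, h⟩⟩ c1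
          · exact h
    refine ⟨r + 1, t, v, le_rfl, ht, fun i hi => ⟨fun he => ?_, fun ho => ?_⟩, hend0, hend1⟩
    · exact step_le ((key i (by omega)).1 he) (by omega)
    · exact step_le ((key i (by omega)).2 ho) (by omega)

theorem claim_all (h1 : S_Merge) (w m r : ℕ) : ∃ M, Claim w m r M := by
  induction r with
  | zero =>
    refine ⟨m + 1, le_rfl, ?_⟩
    intro α _ v _ _ hB
    exact ⟨0, 0, v, le_rfl, by omega, fun i hi => absurd hi (Nat.not_lt_zero i),
      fun k hk => ⟨k, hk, rfl⟩, fun k hk => ⟨k, hk, rfl⟩⟩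
  | succ r ih =>
    obtain ⟨M', hM'⟩ := ih
    exact ⟨_, claim_succ h1 hM'⟩

end OAltAux

open OAltAux

theorem oAlt (h1 : S_Merge) : S_OAlt := by
  intro w r m
  obtain ⟨M, _, hM⟩ := claim_all h1 w m r
  refine ⟨M, ?_⟩
  intro α _ v pos a b hJ hW hpos hB ha hb
  obtain ⟨r', t, v', hr', ht, hA, hs, he⟩ := hM α v hJ hW hB
  have hs' : ∀ k < m + 1, pos (v' 0 k) ≤ a := by
    intro k hk
    obtain ⟨l, hl, h3⟩ := hs k hk
    rw [h3]
    exact ha l hl
  have he' : ∀ k < m + 1, b ≤ pos (v' r' k) := by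
    intro k hk
    obtain ⟨l, hl, h3⟩ := he k hk
    rw [h3]
    exact hb l hl
  by_cases hc : t = 0 ∨ r' = 0
  · refine ⟨r', v', hr', ⟨?_, ?_⟩, fun k hk => ?_, fun k hk => he' k (by omega)⟩
    · intro i hi h0
      exact step_le ((hA i hi).1 (by omega)) (by omega)
    · intro i hi h0
      exact step_le ((hA i hi).2 (by omega)) (by omega)
    · have := hs' k (by omega)
      omega
  · push Not at hc
    obtain ⟨r'', rfl⟩ : ∃ r'', r' = r'' + 1 := ⟨r' - 1, by omega⟩
    refine ⟨r'', fun j k => v' (j + 1) k, by omega, ⟨?_, ?_⟩, fun k hk => ?_,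
      fun k hk => he' k (by omega)⟩
    · intro i hi h0
      exact step_le ((hA (i + 1) (by omega)).1 (by omega)) (by omega)
    · intro i hi h0
      exact step_le ((hA (i + 1) (by omega)).2 (by omega)) (by omega)
    · have h3 : v' (0 + 1) k ≤ v' 0 (k + 1) :=
        ((hA 0 (by omega)).2 (by omega) k (by omega) (k + 1) (by omega)).1 (Nat.lt_succ_self k)
      have h4 := (hpos _ _ h3).1
      have h5 := (hpos _ _ h3).2
      have h6 := hs' (k + 1) (by omega)
      show pos (v' (0 + 1) k) ≤ a + 2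
      omega

end Pool.Agent.MPd439b2.W
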