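import Pool.Agent.Lib.MP_d439b2_co.W.SpecO

/-!
# MP_d439b2_co, W: O4, from many disjoint paths to an open bundle
-/

set_option autoImplicit false

namespace Pool.Agent.MPd439b2.W

open Pool.Agent.MPd439b2

theorem oBun (hReg : S_Reg) (hRer : S_Reroute) (hOIt : S_OIt) (hNon : S_Noncross) : S_OBun := by
  intro n g m hg hm
  obtain ⟨M, hM⟩ := hOIt n (2 * g) m hm
  refine ⟨4 * g * M + 1, ?_⟩
  intro α _ _ _ c A B ν p hc hcarv hL
  -- the sets of the vertices of the paths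
  obtain ⟨Q, hQ⟩ : ∃ Q : ℕ → Finset α, ∀ i, ∀ h : i < 4 * g * M + 1,
      Q i = GT.seg (p ⟨i, h⟩) 0 (ν ⟨i, h⟩ + 1) := by
    refine ⟨fun i => if h : i < 4 * g * M + 1 then GT.seg (p ⟨i, h⟩) 0 (ν ⟨i, h⟩ + 1) else ∅, ?_⟩
    intro i h
    simp only [h, dif_pos]
  have memQ : ∀ i, ∀ h : i < 4 * g * M + 1, ∀ s ≤ ν ⟨i, h⟩, p ⟨i, h⟩ s ∈ Q i := by
    intro i h s hs
    rw [hQ i h]
    unfold GT.seg
    exact Finset.mem_image_of_mem _ (Finset.mem_Ico.2 ⟨Nat.zero_le s, by omega⟩)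
  obtain ⟨jj, R, r1, r2⟩ := hReg α (Gam c Finset.univ) g M (4 * g * M + 1) Q hg hcarv
    (by
      intro i hi
      rw [hQ i hi]
      exact GT.conn_seg (by omega) fun s h1 h2 => (hL.pth ⟨i, hi⟩).adj s (by omega))
    (by
      intro i hi j hj hij
      rw [hQ i hi, hQ j hj, Finset.disjoint_left]
      intro x hx hy
      unfold GT.seg at hx hy
      obtain ⟨s, hs, rfl⟩ := Finset.mem_image.1 hx
      obtain ⟨t, ht, hst⟩ := Finset.mem_image.1 hy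
      rw [Finset.mem_Ico] at hs ht
      refine hL.dis ⟨i, hi⟩ ⟨j, hj⟩ (fun h => hij (Fin.mk.inj_iff.1 h)) s (by omega) t (by omega)
        hst.symm)
    (by omega)
  have hit : ∀ k, ∃ (s : ℕ) (A' B' : ℕ → α), k < M → (1 ≤ s ∧ s ≤ n + 2 * g ∧
      (∀ j < s, Run c Finset.univ (R k) (A' j) (B' j)) ∧
      ∀ j, j + 1 < s → Ess c (B' j) (A' (j + 1)) ∨ Ess c (A' (j + 1)) (B' j)) ∧
      A' 0 ∈ A ∧ B' (s - 1) ∈ B := by
    intro k
    by_cases hk : k < M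
    · obtain ⟨q1, q2, q3⟩ := r1 k hk
      obtain ⟨s, A', B', s1, s2, s3, s4, s5, s6⟩ :=
        hRer n α c Finset.univ (R k) (Q (jj k)) (2 * g) (p ⟨jj k, q1⟩ 0)
          (p ⟨jj k, q1⟩ (ν ⟨jj k, q1⟩)) hc q3 q2 (Finset.subset_univ _)
          (by
            rw [hQ _ q1]
            exact GT.conn_seg (by omega) fun s h1 h2 => (hL.pth ⟨jj k, q1⟩).adj s (by omega))
          (memQ _ q1 0 (Nat.zero_le _)) (memQ _ q1 _ le_rfl)
      refine ⟨s, A', B', fun _ => ⟨⟨s1, s2, s5, s6⟩, ?_, ?_⟩⟩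
      · rw [s3]
        exact (hL.pth _).head
      · rw [s4]
        exact (hL.pth _).last
    · exact ⟨0, fun _ => p ⟨0, by omega⟩ 0, fun _ => p ⟨0, by omega⟩ 0, fun h => absurd h hk⟩
  choose s A' B' hs using hit
  obtain ⟨r, κ, A2, B2, χ, dir, t1, t2, t3⟩ := hM α c Finset.univ R s A' B' hc
    (fun k hk l hl hkl => (r2 k hk l hl hkl).2) (fun k hk => (hs k hk).1)
  obtain ⟨κ', k1, k2⟩ := hNon n m r α c A2 B2 χ dir hc t3
  refine ⟨r, fun j k => A2 (κ' k) j, t1, k2, fun k hk => ?_, fun k hk => ?_⟩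
  · obtain ⟨e1, e2, e3, e4⟩ := t2 (κ' k) (k1 k hk)
    show A2 (κ' k) 0 ∈ A
    rw [e3]
    exact (hs _ e1).2.1
  · obtain ⟨e1, e2, e3, e4⟩ := t2 (κ' k) (k1 k hk)
    have h1 := (hs _ e1).2.2
    rw [e2, Nat.add_sub_cancel] at h1
    refine ⟨_, h1, ?_⟩
    show c (A2 (κ' k) r) = _
    rw [t3.cA _ (k1 k hk) r le_rfl, ← e4, t3.cB _ (k1 k hk) r le_rfl]

end Pool.Agent.MPd439b2.W
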