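import Pool.Agent.Lib.MP_d439b2_co.W.SpecO

/-!
# MP_d439b2_co, W, O1: no closed bundles, so the skeleton has a carving of bounded width
-/

set_option autoImplicit false

namespace Pool.Agent.MPd439b2.W

open Pool.Agent.MPd439b2

private theorem oCarv_wt_symm {α : Type} (Γ : SimpleGraph α) (x y : α) :
    ind Γ x y = ind Γ y x := by
  unfold ind
  by_cases h : Γ.Adj x y
  · rw [if_pos h, if_pos h.symm]
  · rw [if_neg h, if_neg fun h' => h h'.symm]

private theorem oCarv_col1 : ∀ i j : Fin 13, F1.Adj i j →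
    (![false, true, true, true, false, true, false, true, false, true, false, true, false] :
      Fin 13 → Bool) i ≠
    (![false, true, true, true, false, true, false, true, false, true, false, true, false] :
      Fin 13 → Bool) j := by
  unfold F1
  decide

private theorem oCarv_col2 : ∀ i j : Fin 13, F2.Adj i j →
    (![false, true, true, false, true, false, true, true, false, true, false, true, false] :
      Fin 13 → Bool) i ≠
    (![false, true, true, false, true, false, true, true, false, true, false, true, false] :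
      Fin 13 → Bool) j := by
  unfold F2
  decide

private theorem oCarv_col3 : ∀ i j : Fin 12, F3.Adj i j →
    (![false, true, false, true, false, true, false, true, true, false, true, false] :
      Fin 12 → Bool) i ≠
    (![false, true, false, true, false, true, false, true, true, false, true, false] :
      Fin 12 → Bool) j := by
  unfold F3
  decide

private theorem oCarv_CoM {V : Type} {D : SimpleGraph V} {m m' : ℕ} (h : m' ≤ m) (hC : CoM D m) :
    CoM D m' := by
  obtain ⟨a, b, hab⟩ := hC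
  exact ⟨a, b, fun i hi j hj => hab i (by omega) j (by omega)⟩

private theorem oCarv_Step {α : Type} [PartialOrder α] {m m' : ℕ} (h : m' ≤ m) {a b : ℕ → α}
    (hS : Step m a b) : Step m' a b := fun k hk l hl => hS k (by omega) l (by omega)

private theorem oCarv_Alt {α : Type} [PartialOrder α] {m m' r : ℕ} (h : m' ≤ m)
    {v : ℕ → ℕ → α} (hA : Alt m r v) : Alt m' r v where
  odd := hA.odd
  ev i hi h0 := oCarv_Step h (hA.ev i hi h0)
  od i hi h0 := oCarv_Step h (hA.od i hi h0)
  clo k hk l hl := hA.clo k (by omega) l (by omega)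

theorem oCarv (h1 : S_Carve) (h2 : S_Deg) (h3 : S_BadWL) (h4 : S_Bundle) (h5 : S_Alt)
    (h6 : S_Join) (h7 : S_GrpA) (h8 : S_GrpB) (h9 : S_CoM) (h10 : S_NoHGC) : S_OCarv := by
  intro n w s
  obtain ⟨m13, hm13⟩ := h9 13 s
  obtain ⟨m12, hm12⟩ := h9 12 s
  obtain ⟨m₀, hm₀⟩ : ∃ m₀, m₀ = max m13 m12 := ⟨_, rfl⟩
  choose M₂ hM₂ using fun r => h8 r (200 + 8 * s)
  choose M₁ hM₁ using fun r => h7 m₀ r (M₂ r)
  choose f hf using fun r => h5 w r ((Finset.range (r + 1)).sup M₁)
  obtain ⟨N₁, hN₁⟩ := h4 n (4 * n) f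
  refine ⟨2 * n * (N₁ + 1) + 1, by omega, ?_⟩
  intro V _ D _ _ c hT hW hyp hc
  have hnoC : ¬ CoM D m₀ := by
    intro hC
    rcases hyp with h | h | h
    · exact h (hm13 V D F1 _ oCarv_col1 hT (oCarv_CoM (by omega) hC))
    · exact h (hm13 V D F2 _ oCarv_col2 hT (oCarv_CoM (by omega) hC))
    · exact h (hm12 V D F3 _ oCarv_col3 hT (oCarv_CoM (by omega) hC))
  have hle : 2 * n ≤ 2 * n * (N₁ + 1) + 1 := by
    have : 2 * n * 1 ≤ 2 * n * (N₁ + 1) := Nat.mul_le_mul_left _ (by omega)
    omega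
  rcases h1 (Cl D) (ind (Gam c Finset.univ)) (2 * n) (2 * n * (N₁ + 1) + 1)
    (fun x y => oCarv_wt_symm _ _ _)
    (fun x => h2 n (Cl D) c Finset.univ hc x _) hle with hcarv | ⟨Z, hZ⟩
  · exact hcarv
  · exfalso
    obtain ⟨S, hWL, hNS⟩ := h3 n (Cl D) c Finset.univ Z _ (4 * n) hc hZ
    have hS : N₁ ≤ S.card := by
      have e : 2 * n * (N₁ + 1) < 2 * n * (S.card + 1) := by omega
      have := lt_of_mul_lt_mul_left e (Nat.zero_le _)
      omega
    obtain ⟨r, v, hB, hcl⟩ := hN₁ (Cl D) c _ S hc hWL hS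
    obtain ⟨r', v', hr', hA⟩ := hf r (Cl D) v (h6 V D) hW hB hcl
    have hA' : Alt (M₁ r') r' v' :=
      oCarv_Alt (Finset.le_sup (f := M₁) (Finset.mem_range.2 (by omega))) hA
    obtain ⟨z, hz⟩ := hM₁ r' V D v' hnoC hA'
    obtain ⟨z', E, hE⟩ := hM₂ r' V D z hz
    exact h10 s V D hT hyp _ r' z' E le_rfl hE

end Pool.Agent.MPd439b2.W
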