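import Pool.Agent.Lib.MP_d439b2_co.W.SpecO

/-!
# MP_d439b2_co, W: closing a homogeneous open group path
-/

set_option autoImplicit false

namespace Pool.Agent.MPd439b2.W

open Pool.Agent.MPd439b2

private theorem oClose_mk {V : Type} {D : SimpleGraph V} {M r : ℕ} {z : ℕ → ℕ → Finset V}
    {E : ℕ → ℕ → Prop} (h : HGO D M r z E) (r' : ℕ) (ρ : ℕ → ℕ)
    (hρ : ∀ i ≤ r', ρ i ≤ r) (hodd : r' % 2 = 1)
    (hev : ∀ t < r', t % 2 = 0 → E (ρ t) (ρ (t + 1)) ∧ ¬ E (ρ (t + 1)) (ρ t))
    (hod : ∀ t < r', t % 2 = 1 → E (ρ (t + 1)) (ρ t) ∧ ¬ E (ρ t) (ρ (t + 1)))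
    (hclo : E (ρ 0) (ρ r') ∧ E (ρ r') (ρ 0)) : ∃ r' z' E', HGC D M r' z' E' :=
  ⟨r', fun i => z (ρ i), fun i j => E (ρ i) (ρ j), h.pat.comp ρ hρ le_rfl, hodd, hev, hod, hclo⟩

theorem oClose : S_OClose := by
  intro V D M r z E h i hi j hj hi0 hj1 hij1 hij2 hE hji
  rcases lt_trichotomy i j with hlt | heq | hlt
  · refine oClose_mk h (j - i) (fun t => i + t) ?_ ?_ ?_ ?_ ?_
    · intro t ht
      show i + t ≤ r
      omega
    · omega
    · intro t ht ht0
      exact h.ev (i + t) (by omega) (by omega)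
    · intro t ht ht1
      exact h.od (i + t) (by omega) (by omega)
    · show E (i + 0) (i + (j - i)) ∧ E (i + (j - i)) (i + 0)
      rw [show i + (j - i) = j by omega, add_zero]
      exact ⟨hE, hji⟩
  · subst heq; omega
  · refine oClose_mk h (i - j) (fun t => i - t) ?_ ?_ ?_ ?_ ?_
    · intro t ht
      show i - t ≤ r
      omega
    · omega
    · intro t ht ht0
      show E (i - t) (i - (t + 1)) ∧ ¬ E (i - (t + 1)) (i - t)
      have e1 : i - t = (i - t - 1) + 1 := by omega
      have e2 : i - (t + 1) = i - t - 1 := by omega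
      rw [e2]
      have := h.od (i - t - 1) (by omega) (by omega)
      rw [← e1] at this
      exact this
    · intro t ht ht1
      show E (i - (t + 1)) (i - t) ∧ ¬ E (i - t) (i - (t + 1))
      have e1 : i - t = (i - t - 1) + 1 := by omega
      have e2 : i - (t + 1) = i - t - 1 := by omega
      rw [e2]
      have := h.ev (i - t - 1) (by omega) (by omega)
      rw [← e1] at this
      exact this
    · show E (i - 0) (i - (i - j)) ∧ E (i - (i - j)) (i - 0)
      rw [show i - (i - j) = j by omega, Nat.sub_zero]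
      exact ⟨hE, hji⟩

end Pool.Agent.MPd439b2.W
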