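import Pool.Agent.Lib.MP_d439b2_co.W.SpecO

/-!
# MP_d439b2_co, W/OGrpB: from an open group path to a homogeneous one
-/

set_option autoImplicit false

namespace Pool.Agent.MPd439b2.W

open Pool.Agent.MPd439b2

theorem oGrpB (h : S_RamC) : S_OGrpB := by
  intro r M
  obtain ⟨M', hM'⟩ := h (Fin (r + 1) → Fin (r + 1) → Prop) (M + 2)
  refine ⟨M', fun V D z hz => ?_⟩
  obtain ⟨s, c, hs, hsN, hc⟩ := hM' (fun k l => fun i j => Cmp D (z i k) (z j l))
  have hrel : ∀ i (hi : i < r + 1) j (hj : j < r + 1) k l, k < l → l < M + 2 →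
      (Cmp D (z i (s k)) (z j (s l)) ↔ c ⟨i, hi⟩ ⟨j, hj⟩) := by
    intro i hi j hj k l hkl hl
    have h1 := congrFun (congrFun (hc k l hkl hl) ⟨i, hi⟩) ⟨j, hj⟩
    exact iff_of_eq h1
  have hsymm : ∀ A B : Finset V, Cmp D A B ↔ Cmp D B A := fun A B =>
    ⟨fun h b hb a ha => (h a ha b hb).symm, fun h b hb a ha => (h a ha b hb).symm⟩
  have h01 : s 0 < s 1 := hs 0 1 (by omega) (by omega)
  have h0 : s 0 < M' := hsN 0 (by omega)
  have h1 : s 1 < M' := hsN 1 (by omega)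
  have hE : ∀ i j, i ≤ r → j ≤ r → ((∃ (hi : i < r + 1) (hj : j < r + 1), c ⟨i, hi⟩ ⟨j, hj⟩) ↔
      Cmp D (z i (s 0)) (z j (s 1))) := by
    intro i j hi hj
    rw [hrel i (by omega) j (by omega) 0 1 (by omega) (by omega)]
    exact ⟨fun ⟨_, _, h⟩ => h, fun h => ⟨_, _, h⟩⟩
  refine ⟨fun i k => z i (s k), fun i j => ∃ (hi : i < r + 1) (hj : j < r + 1),
    c ⟨i, hi⟩ ⟨j, hj⟩, s, ⟨⟨?_, ?_, ?_⟩, ?_, ?_⟩, fun i k hk => ⟨hsN k (by omega), rfl⟩⟩
  · intro i hi k hk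
    exact hz.ne i hi _ (hsN k (by omega))
  · intro i hi j hj k hk l hl hkl
    apply hz.dis i hi j hj _ (hsN k (by omega)) _ (hsN l (by omega))
    rcases lt_or_gt_of_ne hkl with h2 | h2
    · exact (hs k l h2 (by omega)).ne
    · exact (hs l k h2 (by omega)).ne'
  · intro i hi j hj k l hkl hl
    rw [hrel i (by omega) j (by omega) k l hkl (by omega)]
    exact ⟨fun h => ⟨_, _, h⟩, fun ⟨_, _, h⟩ => h⟩
  · intro i hi hi2
    rw [hE i (i + 1) (by omega) (by omega), hE (i + 1) i (by omega) (by omega)]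
    refine ⟨(hz.ev i hi hi2 _ h0 _ h1).1 h01, ?_⟩
    rw [hsymm]
    exact (hz.ev i hi hi2 _ h1 _ h0).2 h01
  · intro i hi hi2
    rw [hE i (i + 1) (by omega) (by omega), hE (i + 1) i (by omega) (by omega)]
    refine ⟨(hz.od i hi hi2 _ h0 _ h1).1 h01, ?_⟩
    rw [hsymm]
    exact (hz.od i hi hi2 _ h1 _ h0).2 h01

end Pool.Agent.MPd439b2.W
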