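import Pool.Agent.Lib.MP_d439b2_co.W.SpecO

/-!
# MP_d439b2_co, W/OIt: pigeonhole for open itineraries
-/

set_option autoImplicit false

namespace Pool.Agent.MPd439b2.W

open Pool.Agent.MPd439b2

section

variable {α : Type} [PartialOrder α] {n : ℕ}

private theorem oit_cmp {c : α → Fin n} (hc : ChainP c) {R R' : Finset α} {x y : α}
    (hcc : c x = c y) (hx : x ∈ R) (hy : y ∈ R') (hd : Disjoint R R') : x < y ∨ y < x := by
  have hne : x ≠ y := by
    rintro rfl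
    exact Finset.disjoint_left.1 hd hx hy
  rcases hc x y hcc with h | h
  · exact Or.inl (lt_of_le_of_ne h hne)
  · exact Or.inr (lt_of_le_of_ne h hne.symm)

private theorem oit_half {c : α → Fin n} {U R R' : Finset α} {A A' B' : α} (hA : A ∈ R)
    (hAU : A ∈ U) (h' : Run c U R' A' B') (hcc : c A = c A') (hd : Disjoint R R')
    (h1 : A < A' ∨ A' < A) (h2 : A < B' ∨ B' < A) :
    (A < A' ∧ A < B') ∨ (A' < A ∧ B' < A) := by
  obtain ⟨_, _, _, _, _, k6⟩ := h'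
  have hno : ¬ (A' ≤ A ∧ A ≤ B' ∨ B' ≤ A ∧ A ≤ A') := fun hh =>
    Finset.disjoint_left.1 hd hA (k6 A hAU hcc hh)
  rcases h1 with h1 | h1 <;> rcases h2 with h2 | h2
  · exact Or.inl ⟨h1, h2⟩
  · exact absurd (Or.inr ⟨h2.le, h1.le⟩) hno
  · exact absurd (Or.inl ⟨h1.le, h2.le⟩) hno
  · exact Or.inr ⟨h1, h2⟩

private theorem oit_sep {c : α → Fin n} (hc : ChainP c) {U R R' : Finset α} {A B A' B' : α}
    (h : Run c U R A B) (h' : Run c U R' A' B') (hcc : c A = c A') (hd : Disjoint R R') :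
    (A < A' ∧ A < B' ∧ B < A' ∧ B < B') ∨ (A' < A ∧ A' < B ∧ B' < A ∧ B' < B) := by
  have hk := h
  have hk' := h'
  obtain ⟨h1, h2, h3, h4, h5, h6⟩ := h
  obtain ⟨k1, k2, k3, k4, k5, k6⟩ := h'
  have eA := oit_half h2 h1 hk' hcc hd (oit_cmp hc hcc h2 k2 hd)
    (oit_cmp hc (hcc.trans k5) h2 k4 hd)
  have eB := oit_half h4 h3 hk' (h5.symm.trans hcc) hd (oit_cmp hc (h5.symm.trans hcc) h4 k2 hd)
    (oit_cmp hc (h5.symm.trans (hcc.trans k5)) h4 k4 hd)
  have hno : ¬ (A ≤ A' ∧ A' ≤ B ∨ B ≤ A' ∧ A' ≤ A) := fun hh =>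
    Finset.disjoint_left.1 hd (h6 A' k1 hcc.symm hh) k2
  rcases eA with eA | eA <;> rcases eB with eB | eB
  · exact Or.inl ⟨eA.1, eA.2, eB.1, eB.2⟩
  · exact absurd (Or.inl ⟨eA.1.le, eB.1.le⟩) hno
  · exact absurd (Or.inr ⟨eB.1.le, eA.1.le⟩) hno
  · exact Or.inr ⟨eA.1, eB.1, eA.2, eB.2⟩

end

theorem oIt : S_OIt := by
  classical
  intro n h m hm
  refine ⟨Fintype.card (Fin (n + h + 1) × (Fin (n + h + 1) → Fin n) × (Fin (n + h + 1) → Bool)) *
    (2 * m) + 1, ?_⟩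
  intro α _ _ _ c U R s A B hc hdis hit
  set M := Fintype.card (Fin (n + h + 1) × (Fin (n + h + 1) → Fin n) × (Fin (n + h + 1) → Bool)) *
    (2 * m) + 1 with hM
  let ty : ℕ → Fin (n + h + 1) × (Fin (n + h + 1) → Fin n) × (Fin (n + h + 1) → Bool) := fun k =>
    (⟨min (s k) (n + h), by omega⟩, fun j => c (A k j), fun j => decide (Ess c (B k j) (A k (j + 1))))
  obtain ⟨τ, _, hτ⟩ := Finset.exists_le_card_fiber_of_mul_le_card_of_maps_to
    (s := Finset.range M) (t := Finset.univ) (f := ty) (n := 2 * m) (fun _ _ => Finset.mem_univ _)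
    ⟨ty 0, Finset.mem_univ _⟩ (by rw [Finset.card_range, Finset.card_univ, hM]; omega)
  obtain ⟨Φ, hΦs, hΦc⟩ := Finset.exists_subset_card_eq hτ
  let e := Φ.equivFinOfCardEq hΦc
  let κ : ℕ → ℕ := fun k => if hk : k < 2 * m then (e.symm ⟨k, hk⟩).1 else 0
  have hκΦ : ∀ k, k < 2 * m → κ k ∈ Φ := by
    intro k hk
    show (if hk : k < 2 * m then (e.symm ⟨k, hk⟩).1 else 0) ∈ Φ
    rw [dif_pos hk]
    exact (e.symm ⟨k, hk⟩).2
  have hκinj : ∀ k, k < 2 * m → ∀ l, l < 2 * m → k ≠ l → κ k ≠ κ l := by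
    intro k hk l hl hkl he
    apply hkl
    have he' : (if hk : k < 2 * m then (e.symm ⟨k, hk⟩).1 else 0) =
      (if hk : l < 2 * m then (e.symm ⟨l, hk⟩).1 else 0) := he
    rw [dif_pos hk, dif_pos hl] at he'
    have h2 := e.symm.injective (Subtype.ext he')
    exact congrArg Fin.val h2
  have hκM : ∀ k, k < 2 * m → κ k < M := by
    intro k hk
    have := hΦs (hκΦ k hk)
    exact Finset.mem_range.1 (Finset.mem_filter.1 this).1
  have hκt : ∀ k, k < 2 * m → ty (κ k) = τ := by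
    intro k hk
    have := hΦs (hκΦ k hk)
    exact (Finset.mem_filter.1 this).2
  have h0 : 0 < 2 * m := by omega
  have hty : ∀ k, k < 2 * m → ty (κ k) = ty (κ 0) := fun k hk =>
    (hκt k hk).trans (hκt 0 h0).symm
  have hs0 := hit (κ 0) (hκM 0 h0)
  have hs : ∀ k, k < 2 * m → s (κ k) = s (κ 0) := by
    intro k hk
    have h1 := congrArg (fun z => (z.1 : Fin (n + h + 1)).val) (hty k hk)
    have h2 : min (s (κ k)) (n + h) = min (s (κ 0)) (n + h) := h1
    have h3 := (hit (κ k) (hκM k hk)).2.1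
    have h4 := hs0.2.1
    omega
  have hcA : ∀ k, k < 2 * m → ∀ j ≤ s (κ 0) - 1, c (A (κ k) j) = c (A (κ 0) j) := by
    intro k hk j hj
    have h4 := hs0.2.1
    have h1 := congrFun (congrArg (fun z => z.2.1) (hty k hk)) (⟨j, by omega⟩ : Fin (n + h + 1))
    exact h1
  have hrun : ∀ k, k < 2 * m → ∀ j ≤ s (κ 0) - 1, Run c U (R (κ k)) (A (κ k) j) (B (κ k) j) := by
    intro k hk j hj
    have h4 := hs0.1
    have h5 := hs k hk
    exact (hit (κ k) (hκM k hk)).2.2.1 j (by omega)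
  have hdir : ∀ k, k < 2 * m → ∀ j < s (κ 0) - 1, (Ess c (B (κ k) j) (A (κ k) (j + 1)) ↔
      Ess c (B (κ 0) j) (A (κ 0) (j + 1))) := by
    intro k hk j hj
    have h4 := hs0.2.1
    have h1 := congrFun (congrArg (fun z => z.2.2) (hty k hk)) (⟨j, by omega⟩ : Fin (n + h + 1))
    have h2 : decide (Ess c (B (κ k) j) (A (κ k) (j + 1))) =
      decide (Ess c (B (κ 0) j) (A (κ 0) (j + 1))) := h1
    exact decide_eq_decide.1 h2
  refine ⟨s (κ 0) - 1, κ, fun k j => A (κ k) j, fun k j => B (κ k) j, fun j => c (A (κ 0) j),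
    fun j => Ess c (B (κ 0) j) (A (κ 0) (j + 1)), ?_, ?_, ?_⟩
  · have h4 := hs0.2.1
    omega
  · intro k hk
    have h4 := hs0.1
    have h5 := hs k hk
    exact ⟨hκM k hk, by omega, rfl, rfl⟩
  · refine ⟨fun k hk j hj => hcA k hk j hj,
      fun k hk j hj => (hrun k hk j hj).2.2.2.2.1.symm.trans (hcA k hk j hj), ?_,
      fun k hk j hj hd => (hdir k hk j hj).2 hd, ?_⟩
    · intro k hk k' hk' hkk j hj
      exact oit_sep hc (hrun k hk j hj) (hrun k' hk' j hj)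
        ((hcA k hk j hj).trans (hcA k' hk' j hj).symm)
        (hdis (κ k) (hκM k hk) (κ k') (hκM k' hk') (hκinj k hk k' hk' hkk))
    · intro k hk j hj hd
      have h4 := hs0.1
      have h5 := hs k hk
      exact ((hit (κ k) (hκM k hk)).2.2.2 j (by omega)).resolve_left
        (fun h' => hd ((hdir k hk j hj).1 h'))

end Pool.Agent.MPd439b2.W
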