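import Pool.Agent.Lib.MP_d439b2_co.W.SpecO

/-!
# O8: levels change slowly along open homogeneous group paths
-/

set_option autoImplicit false

namespace Pool.Agent.MPd439b2.W

open Pool.Agent.MPd439b2

theorem oLen : S_OLen := by
  intro V D lam a b M r z E hM hlam hLO
  obtain ⟨⟨hpat, hev, hod⟩, hlo, hhi⟩ := hLO
  have key : ∀ i, i ≤ r → ∀ x ∈ z i (i % 2), lam x ≤ a + i := by
    intro i
    induction i with
    | zero =>
      intro _ x hx
      exact hlo 0 (by omega) x hx
    | succ i ih =>
      intro hi x hx
      have hi' : i ≤ r := by omega
      obtain ⟨y, hy⟩ := hpat.ne i hi' (i % 2) (by omega)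
      have hly := ih hi' y hy
      have hadj : D.Adj x y := by
        rcases Nat.mod_two_eq_zero_or_one i with h0 | h1
        · have e : (i + 1) % 2 = 1 := by omega
          rw [e] at hx
          rw [h0] at hy
          have hE := (hev i (by omega) h0).1
          have hC := (hpat.rel i hi' (i + 1) hi 0 1 (by omega) (by omega)).2 hE
          exact (hC y hy x hx).symm
        · have e : (i + 1) % 2 = 0 := by omega
          rw [e] at hx
          rw [h1] at hy
          have hE := (hod i (by omega) h1).1
          have hC := (hpat.rel (i + 1) hi i hi' 0 1 (by omega) (by omega)).2 hE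
          exact hC x hx y hy
      have := hlam x y hadj
      omega
  obtain ⟨x, hx⟩ := hpat.ne r le_rfl (r % 2) (by omega)
  have h1 := key r le_rfl x hx
  have h2 := hhi (r % 2) (by omega) x hx
  omega

end Pool.Agent.MPd439b2.W
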