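import Pool.Agent.Lib.MP_d439b2_co.W.SpecO

/-!
# MP_d439b2_co, W: O2, many disjoint paths or a small edge cut
-/

set_option autoImplicit false

namespace Pool.Agent.MPd439b2.W

open Pool.Agent.MPd439b2

theorem oMen (hMen : GT.SMen) : S_OMen := by
  intro α _ _ Γ d k A B hd hAB
  by_cases h : ∀ L X : Finset α, GT.Cut Γ A B L X → k ≤ X.card
  · exact Or.inl (hMen α Γ A B k h)
  · right
    push Not at h
    obtain ⟨L, X, hc, hX⟩ := h
    have hsym : ∀ x y, ind Γ x y = ind Γ y x := by
      intro x y
      unfold ind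
      by_cases hxy : Γ.Adj x y
      · rw [if_pos hxy, if_pos hxy.symm]
      · rw [if_neg hxy, if_neg (fun h' => hxy h'.symm)]
    have hd' : ∀ x S, ∑ y ∈ S, ind Γ x y ≤ d := by
      intro x S
      have := hd x S
      unfold wt at this
      rwa [Finset.sum_singleton] at this
    refine ⟨L ∪ (X \ B), ?_, ?_, ?_⟩
    · intro a ha
      rw [Finset.mem_union, Finset.mem_sdiff]
      rcases Finset.mem_union.1 (hc.head ha) with h1 | h1
      · exact Or.inl h1
      · exact Or.inr ⟨h1, fun h2 => Finset.disjoint_left.1 hAB ha h2⟩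
    · rw [Finset.disjoint_left]
      intro x hx hxB
      rcases Finset.mem_union.1 hx with h1 | h1
      · exact Finset.disjoint_left.1 hc.last hxB h1
      · exact (Finset.mem_sdiff.1 h1).2 hxB
    · have hdis : Disjoint L (X \ B) := hc.dis.mono_right Finset.sdiff_subset
      have e1 : ∀ x ∈ L, ∑ y ∈ (L ∪ (X \ B))ᶜ, ind Γ x y ≤ ∑ y ∈ X ∩ B, ind Γ x y := by
        intro x hx
        rw [← Finset.sum_filter_ne_zero]
        refine Finset.sum_le_sum_of_subset ?_
        intro y hy
        rw [Finset.mem_filter, Finset.mem_compl, Finset.mem_union, Finset.mem_sdiff] at hy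
        have hxy : Γ.Adj x y := by
          by_contra hn
          exact hy.2 (by unfold ind; rw [if_neg hn])
        have h1 := Finset.mem_union.1 (hc.far x hx y hxy)
        rw [Finset.mem_inter]
        push Not at hy
        rcases h1 with h1 | h1
        · exact absurd h1 hy.1.1
        · exact ⟨h1, hy.1.2 h1⟩
      have e2 : ∑ x ∈ L, ∑ y ∈ X ∩ B, ind Γ x y ≤ (X ∩ B).card * d := by
        rw [Finset.sum_comm]
        rw [← smul_eq_mul]
        refine Finset.sum_le_card_nsmul _ _ _ fun y _ => ?_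
        have : ∑ x ∈ L, ind Γ x y = ∑ x ∈ L, ind Γ y x :=
          Finset.sum_congr rfl fun x _ => hsym x y
        rw [this]
        exact hd' y L
      have e3 : ∑ x ∈ X \ B, ∑ y ∈ (L ∪ (X \ B))ᶜ, ind Γ x y ≤ (X \ B).card * d := by
        rw [← smul_eq_mul]
        exact Finset.sum_le_card_nsmul _ _ _ fun x _ => hd' x _
      have e4 : (X \ B).card + (X ∩ B).card = X.card := Finset.card_sdiff_add_card_inter _ _
      have e5 : wt (ind Γ) (L ∪ (X \ B)) (L ∪ (X \ B))ᶜ =
          ∑ x ∈ L, ∑ y ∈ (L ∪ (X \ B))ᶜ, ind Γ x y +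
            ∑ x ∈ X \ B, ∑ y ∈ (L ∪ (X \ B))ᶜ, ind Γ x y := by
        unfold wt
        rw [Finset.sum_union hdis]
      have e6 := Finset.sum_le_sum e1
      have e7 : (X \ B).card * d + (X ∩ B).card * d = X.card * d := by rw [← e4]; ring
      have e8 : X.card * d ≤ d * k := by
        rw [Nat.mul_comm]
        exact Nat.mul_le_mul_left d hX.le
      rw [e5]
      omega

end Pool.Agent.MPd439b2.W
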