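import Pool.Agent.Lib.MP_d439b2_co.W.SpecO

/-! There are no long homogeneous open group paths. -/

set_option autoImplicit false

namespace Pool.Agent.MPd439b2.W

open Pool.Agent.MPd439b2

private theorem cmp_symm {V : Type} {D : SimpleGraph V} {A B : Finset V} (h : Cmp D A B) :
    Cmp D B A := fun b hb a ha => (h a ha b hb).symm

/-- the reversed pattern -/
private theorem pat_rev {V : Type} {D : SimpleGraph V} {M r : ℕ} {z : ℕ → ℕ → Finset V}
    {E : ℕ → ℕ → Prop} (h : Pat D M r z E) (hr : 7 ≤ r) :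
    Pat D M 6 (fun t k => z (t + 1) (M - 1 - k)) (fun t u => E (u + 1) (t + 1)) where
  ne i hi k hk := h.ne (i + 1) (by omega) (M - 1 - k) (by omega)
  dis i hi j hj k hk l hl hkl := h.dis (i + 1) (by omega) (j + 1) (by omega)
    (M - 1 - k) (by omega) (M - 1 - l) (by omega) (by omega)
  rel i hi j hj k l hkl hl := by
    have h0 := h.rel (j + 1) (by omega) (i + 1) (by omega) (M - 1 - l) (M - 1 - k)
      (by omega) (by omega)
    exact ⟨fun hc => h0.1 (cmp_symm hc), fun hc => cmp_symm (h0.2 hc)⟩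

theorem oNo (h1 : S_Tri) (h2 : S_X1) (h3 : S_X2) (h4 : S_PatX) (h5 : S_NoHGC) (h6 : S_OLen)
    (h7 : S_OShort) (h8 : S_OClose) (h9 : S_OCyc) : S_ONo := by
  intro s V D lam hT hex hlam a b M r
  have hcon : ¬ (IsIndMinor (KCo s F1) Dᶜ ∧ IsIndMinor (KCo s F2) Dᶜ ∧ IsIndMinor (KCo s F3) Dᶜ) := by
    rintro ⟨a, b, c⟩
    rcases hex with h | h | h
    · exact h a
    · exact h b
    · exact h c
  induction r using Nat.strong_induction_on with
  | _ r ih =>
    intro z E hM hab h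
    have hg := h.hgo
    have hr : 7 ≤ r := by
      have := h6 V D lam a b M r z E (by omega) hlam h
      omega
    have T1 : ¬ ∃ t ≤ r, ∃ a ≤ r, ∃ b ≤ r, E t a ∧ ¬ E a t ∧ E b t ∧ ¬ E t b :=
      fun hh => hcon (h2 s V D M r z E hT hg.pat hM hh)
    have T2 : ¬ ∃ p ≤ r, ∃ p' ≤ r, ∃ q ≤ r, ∃ q' ≤ r, E p p' ∧ ¬ E p' p ∧
        ((E q q' ∧ ¬ E q' q) ∨ (E q' q ∧ ¬ E q q')) ∧ E q' p ∧ E q p' :=
      fun hh => hcon (h3 s V D M r z E hT hg.pat hM hh)
    have htri := h1 V D M r z E hT hg.pat (by omega)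
    have hsh : ∀ i ≤ r, ∀ j ≤ r, i % 2 = 0 → j % 2 = 1 → j ≠ i + 1 → i ≠ j + 1 →
        ¬ E i j ∧ ¬ E j i := by
      intro i hi j hj hi2 hj2 hij hji
      have e1 : ¬ E i j := by
        intro hE
        by_cases hE' : E j i
        · obtain ⟨r', z', E', hc⟩ := h8 V D M r z E hg i hi j hj hi2 hj2 hij hji hE hE'
          exact h5 s V D hT hex M r' z' E' hM hc
        · obtain ⟨r', hr', z', E', hc⟩ := h7 V D lam a b M r z E h i hi j hj hi2 hj2 hij hji hE hE'
          exact ih r' hr' z' E' hM hab hc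
      refine ⟨e1, fun hE => ?_⟩
      rcases Nat.lt_or_ge i r with hir | hir
      · exact T1 ⟨i, hi, i + 1, by omega, j, hj, (hg.ev i hir hi2).1, (hg.ev i hir hi2).2, hE, e1⟩
      · obtain ⟨i', rfl⟩ : ∃ i', i = i' + 1 := ⟨i - 1, by omega⟩
        exact T1 ⟨i' + 1, hi, i', by omega, j, hj, (hg.od i' (by omega) (by omega)).1,
          (hg.od i' (by omega) (by omega)).2, hE, e1⟩
    rcases h9 r E hr hg.ev hg.od htri T1 T2 hsh with hk | hk
    · refine hcon (h4 s V D M z E hT hM (Or.inr (Or.inr ⟨?_, hk⟩)))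
      exact hg.pat.comp id (fun i hi => by change i ≤ r; omega) le_rfl
    · have hp := pat_rev hg.pat hr
      exact hcon (h4 s V D M _ _ hT hM (Or.inr (Or.inr ⟨hp, hk⟩)))

end Pool.Agent.MPd439b2.W
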