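import Pool.Agent.Lib.MP_d439b2_co.W.SpecO

/-!
# MP_d439b2_co, W, O14: layered separation (assembly)
-/

set_option autoImplicit false

namespace Pool.Agent.MPd439b2.W

open Pool.Agent.MPd439b2

private theorem oS_col1 : ∀ i j : Fin 13, F1.Adj i j →
    (![false, true, true, true, false, true, false, true, false, true, false, true, false] :
      Fin 13 → Bool) i ≠
    (![false, true, true, true, false, true, false, true, false, true, false, true, false] :
      Fin 13 → Bool) j := by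
  unfold F1
  decide

private theorem oS_col2 : ∀ i j : Fin 13, F2.Adj i j →
    (![false, true, true, false, true, false, true, true, false, true, false, true, false] :
      Fin 13 → Bool) i ≠
    (![false, true, true, false, true, false, true, true, false, true, false, true, false] :
      Fin 13 → Bool) j := by
  unfold F2
  decide

private theorem oS_col3 : ∀ i j : Fin 12, F3.Adj i j →
    (![false, true, false, true, false, true, false, true, true, false, true, false] :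
      Fin 12 → Bool) i ≠
    (![false, true, false, true, false, true, false, true, true, false, true, false] :
      Fin 12 → Bool) j := by
  unfold F3
  decide

private theorem oS_CoM {V : Type} {D : SimpleGraph V} {m m' : ℕ} (h : m' ≤ m) (hC : CoM D m) :
    CoM D m' := by
  obtain ⟨a, b, hab⟩ := hC
  exact ⟨a, b, fun i hi j hj => hab i (by omega) j (by omega)⟩

private theorem oS_Step {α : Type} [PartialOrder α] {m m' : ℕ} (h : m' ≤ m) {a b : ℕ → α}
    (hS : Step m a b) : Step m' a b := fun k hk l hl => hS k (by omega) l (by omega)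

private theorem oS_Bun {α : Type} [PartialOrder α] {m m' r : ℕ} (h : m' ≤ m) {v : ℕ → ℕ → α}
    (hB : Bun m r v) : Bun m' r v where
  mono i hi k l hkl hl := hB.mono i hi k l hkl (by omega)
  step i hi := (hB.step i hi).imp (oS_Step h) (oS_Step h)

private theorem oS_OAlt {α : Type} [PartialOrder α] {m m' r : ℕ} (h : m' ≤ m) {v : ℕ → ℕ → α}
    (hA : OAlt m r v) : OAlt m' r v where
  ev i hi h0 := oS_Step h (hA.ev i hi h0)
  od i hi h0 := oS_Step h (hA.od i hi h0)

/-- the numbers of co-matchings -/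
private theorem oS_m0 (h : S_CoM) (s : ℕ) : ∃ m₀ : ℕ, ∀ (V : Type) (D : SimpleGraph V), TriFree D →
    Excl s D → ¬ CoM D m₀ := by
  obtain ⟨m13, hm13⟩ := h 13 s
  obtain ⟨m12, hm12⟩ := h 12 s
  refine ⟨max m13 m12, fun V D hT hyp hC => ?_⟩
  rcases hyp with h | h | h
  · exact h (hm13 V D F1 _ oS_col1 hT (oS_CoM (by omega) hC))
  · exact h (hm13 V D F2 _ oS_col2 hT (oS_CoM (by omega) hC))
  · exact h (hm12 V D F3 _ oS_col3 hT (oS_CoM (by omega) hC))

section pos

variable {V : Type} {D : SimpleGraph V}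

/-- the position of a closed set -/
private noncomputable def oPos (D : SimpleGraph V) (lam : V → ℕ) (x : Cl D) : ℕ :=
  sInf (lam '' (x.1 ∪ (sg D x).1))

private theorem oPos_le (lam : V → ℕ) (x : Cl D) (v : V) (hv : v ∈ x.1 ∨ v ∈ (sg D x).1) :
    oPos D lam x ≤ lam v :=
  Nat.sInf_le ⟨v, hv, rfl⟩

private theorem oPos_ge (lam : V → ℕ) (hlam : ∀ u v, D.Adj u v → lam u ≤ lam v + 1) (x : Cl D)
    (v : V) (hv : v ∈ x.1 ∨ v ∈ (sg D x).1) : lam v ≤ oPos D lam x + 2 := by
  obtain ⟨p, hp⟩ := x.2.2.1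
  obtain ⟨q, hq⟩ := x.2.2.2
  have hq' : q ∈ (sg D x).1 := hq
  have hne : (lam '' (x.1 ∪ (sg D x).1)).Nonempty := ⟨lam p, p, Or.inl hp, rfl⟩
  obtain ⟨u, hu, hu2⟩ := Nat.sInf_mem hne
  have e : oPos D lam x = lam u := hu2.symm
  rw [e]
  have hadj : ∀ y ∈ x.1, ∀ t ∈ (sg D x).1, D.Adj y t := fun y hy t ht => ht y hy
  rcases hu with hu | hu <;> rcases hv with hv | hv
  · have h1 := hlam v q (hadj v hv q hq')
    have h2 := hlam q u (hadj u hu q hq').symm
    omega
  · have h1 := hlam v u (hadj u hu v hv).symm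
    omega
  · have h1 := hlam v u (hadj v hv u hu)
    omega
  · have h1 := hlam v p (hadj p hp v hv).symm
    have h2 := hlam p u (hadj p hp u hu)
    omega

private theorem oPos_mono (lam : V → ℕ) (hlam : ∀ u v, D.Adj u v → lam u ≤ lam v + 1)
    (x y : Cl D) (h : x ≤ y) : oPos D lam x ≤ oPos D lam y + 2 ∧ oPos D lam y ≤ oPos D lam x + 2 := by
  obtain ⟨p, hp⟩ := x.2.2.1
  have hp' : p ∈ y.1 := h hp
  have h1 := oPos_le lam x p (Or.inl hp)
  have h2 := oPos_le lam y p (Or.inl hp')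
  have h3 := oPos_ge lam hlam x p (Or.inl hp)
  have h4 := oPos_ge lam hlam y p (Or.inl hp')
  omega

private theorem oPos_sg (lam : V → ℕ) (x : Cl D) : oPos D lam (sg D x) = oPos D lam x := by
  have e : sg D (sg D x) = x := Subtype.ext x.2.1
  unfold oPos
  rw [e, Set.union_comm]

end pos

/-- the contradiction from an open bundle -/
private theorem oS_end (hA : S_OAlt) (hGA : S_OGrpA) (hGB : S_OGrpB) (hNo : S_ONo) (hJ : S_Join)
    (w s R m₀ : ℕ) : ∃ m : ℕ, 1 ≤ m ∧ ∀ (V : Type) [Finite V] (D : SimpleGraph V) (lam : V → ℕ)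
      (a b r : ℕ) (v : ℕ → ℕ → Cl D), TriFree D → WidP (Cl D) w → Excl s D → ¬ CoM D m₀ →
      (∀ u v, D.Adj u v → lam u ≤ lam v + 1) → a + 15 ≤ b → r ≤ R → Bun m r v →
      (∀ k < m, oPos D lam (v 0 k) ≤ a) → (∀ k < m, b - 4 ≤ oPos D lam (v r k)) → False := by
  choose MB hMB using fun r => hGB r (200 + 8 * s)
  choose MA hMA using fun r => hGA m₀ r (MB r)
  obtain ⟨μ, hμ⟩ : ∃ μ, μ = 1 + (Finset.range (R + 1)).sup MA := ⟨_, rfl⟩
  choose f hf using fun r => hA w r μ
  refine ⟨1 + (Finset.range (R + 1)).sup f, by omega, ?_⟩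
  intro V _ D lam a b r v hT hW hE hC hlam hab hr hB h0 h1
  have hfr : f r ≤ (Finset.range (R + 1)).sup f :=
    Finset.le_sup (f := f) (Finset.mem_range.2 (by omega))
  obtain ⟨r', v', hr', hO, hO0, hO1⟩ := hf r (Cl D) v (oPos D lam) a (b - 4) (hJ V D) hW
    (oPos_mono lam hlam) (oS_Bun (by omega) hB) (fun k hk => h0 k (by omega))
    (fun k hk => h1 k (by omega))
  have hMAr : MA r' ≤ (Finset.range (R + 1)).sup MA :=
    Finset.le_sup (f := MA) (Finset.mem_range.2 (by omega))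
  have hr1 : 1 ≤ r' := by
    by_contra hcon
    have e : r' = 0 := by omega
    subst e
    have e1 := hO0 0 (by omega)
    have e2 := hO1 0 (by omega)
    omega
  obtain ⟨z, τ, hz, hzτ⟩ := hMA r' V D v' hC hr1 (oS_OAlt (by omega) hO)
  obtain ⟨z', E, τ', hz', hzτ'⟩ := hMB r' V D z hz
  refine hNo s V D lam hT hE hlam (a + 4) (b - 4) (200 + 8 * s) r' z' E le_rfl (by omega)
    ⟨hz', ?_, ?_⟩
  · intro k hk x hx
    obtain ⟨e1, e2⟩ := hzτ' 0 k hk
    rw [e2] at hx
    obtain ⟨e3, e4⟩ := hzτ 0 (Nat.zero_le _) (τ' k) e1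
    have e5 := oPos_ge lam hlam _ x (e4 x hx)
    have e6 := hO0 (τ (τ' k)) (by omega)
    omega
  · intro k hk x hx
    obtain ⟨e1, e2⟩ := hzτ' r' k hk
    rw [e2] at hx
    obtain ⟨e3, e4⟩ := hzτ r' le_rfl (τ' k) e1
    have e5 := oPos_le lam _ x (e4 x hx)
    have e6 := hO1 (τ (τ' k)) (by omega)
    omega

theorem oSep (h1 : S_Deg) (h2 : S_SymC) (h3 : S_Join) (h4 : S_CoM) (h5 : S_OCarv) (h6 : S_OMen)
    (h7 : S_OBun) (h8 : S_OAlt) (h9 : S_OGrpA) (h10 : S_OGrpB) (h11 : S_ONo) (h12 : S_OTy) :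
    S_OSep := by
  intro w s
  obtain ⟨n, hn⟩ : ∃ n, n = 2 * w := ⟨_, rfl⟩
  obtain ⟨m₀, hm₀⟩ := oS_m0 h4 s
  obtain ⟨g, hg1, hg⟩ := h5 n w s
  obtain ⟨m, hm1, hm⟩ := oS_end h8 h9 h10 h11 h3 w s (n + 2 * g) m₀
  obtain ⟨K, hK⟩ := h7 n g m hg1 hm1
  refine ⟨n * (2 * (2 * n * K) + 2) ^ n, ?_⟩
  intro V _ D lam a b hT hW hE hlam hab
  classical
  have hfin : Finite (Cl D) := Subtype.finite
  let _ : Fintype (Cl D) := Fintype.ofFinite _
  obtain ⟨c, hc, hcs⟩ := h2 w V D hW
  subst hn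
  have hdeg := h1 (2 * w) (Cl D) c Finset.univ hc
  obtain ⟨A, hA⟩ : ∃ A : Finset (Cl D), ∀ x, x ∈ A ↔ oPos D lam x ≤ a :=
    ⟨Finset.univ.filter fun x => oPos D lam x ≤ a, fun x => by simp⟩
  obtain ⟨B, hB⟩ : ∃ B : Finset (Cl D), ∀ x, x ∈ B ↔ b ≤ oPos D lam x + 2 :=
    ⟨Finset.univ.filter fun x => b ≤ oPos D lam x + 2, fun x => by simp⟩
  have hAB : Disjoint A B := by
    rw [Finset.disjoint_left]
    intro x hxA hxB
    have e1 := (hA x).1 hxA
    have e2 := (hB x).1 hxB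
    omega
  rcases h6 (Cl D) (Gam c Finset.univ) (2 * (2 * w)) K A B hdeg hAB with
    ⟨ν, p, hL⟩ | ⟨Y, hAY, hYB, hY⟩
  · exfalso
    obtain ⟨r, v, hr, hBun, hv0, hv1⟩ := hK (Cl D) c A B ν p hc (hg V D c hT hW hE hc) hL
    refine hm V D lam a b r v hT hW hE (hm₀ V D hT hE) hlam hab hr hBun
      (fun k hk => (hA _).1 (hv0 k hk)) (fun k hk => ?_)
    obtain ⟨y, hyB, hy⟩ := hv1 k hk
    have e1 := (hB y).1 hyB
    rcases hc _ _ hy with h | h
    · have e2 := oPos_mono lam hlam _ _ h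
      omega
    · have e2 := oPos_mono lam hlam _ _ h
      omega
  · have hmemv : ∀ (v : V) (x : Cl D), x.1 = cn D (cn D {v}) → v ∈ x.1 := by
      intro v x hx
      rw [hx]
      exact sub_cn_cn D {v} rfl
    obtain ⟨X, hX1, hX2, hX3⟩ := h12 (2 * w) (2 * (2 * w) * K) V D c Y {v | lam v ≤ a}
      {v | b ≤ lam v} hc hcs hY
      (by
        rw [Set.disjoint_left]
        intro v hv1 hv2
        have e1 : lam v ≤ a := hv1
        have e2 : b ≤ lam v := hv2
        omega)
      (by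
        intro v hv x hx
        have e1 : lam v ≤ a := hv
        have e2 := oPos_le lam x v (Or.inl (hmemv v x hx))
        refine ⟨hAY ((hA _).2 (by omega)), hAY ((hA _).2 ?_)⟩
        rw [oPos_sg]
        omega)
      (by
        intro v hv x hx
        have e1 : b ≤ lam v := hv
        have e2 := oPos_ge lam hlam x v (Or.inl (hmemv v x hx))
        exact Or.inl fun hxY => (Finset.disjoint_left.1 hYB) hxY ((hB _).2 (by omega)))
    exact ⟨X, fun v hv => hX1 hv, fun v hv hvX => (Set.disjoint_left.1 hX2) hvX hv, hX3⟩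

end Pool.Agent.MPd439b2.W
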