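import Pool.Agent.Lib.MP_d439b2_co.W.SpecO

/-!
# MP_d439b2_co, W: shortcuts of homogeneous open group paths
-/

set_option autoImplicit false

namespace Pool.Agent.MPd439b2.W

open Pool.Agent.MPd439b2

private theorem oShort_mk {V : Type} {D : SimpleGraph V} {lam : V → ℕ} {a b M r : ℕ}
    {z : ℕ → ℕ → Finset V} {E : ℕ → ℕ → Prop} (h : LO D lam a b M r z E) (r' : ℕ) (ρ : ℕ → ℕ)
    (hr : r' < r) (hρ : ∀ i ≤ r', ρ i ≤ r)
    (hev : ∀ t < r', t % 2 = 0 → E (ρ t) (ρ (t + 1)) ∧ ¬ E (ρ (t + 1)) (ρ t))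
    (hod : ∀ t < r', t % 2 = 1 → E (ρ (t + 1)) (ρ t) ∧ ¬ E (ρ t) (ρ (t + 1)))
    (h0 : ρ 0 = 0) (h1 : ρ r' = r) : ∃ r' < r, ∃ z' E', LO D lam a b M r' z' E' := by
  refine ⟨r', hr, fun i => z (ρ i), fun i j => E (ρ i) (ρ j),
    ⟨h.hgo.pat.comp ρ hρ le_rfl, hev, hod⟩, ?_, ?_⟩
  · intro k hk x hx
    have hx' : x ∈ z (ρ 0) k := hx
    rw [h0] at hx'
    exact h.lo k hk x hx'
  · intro k hk x hx
    have hx' : x ∈ z (ρ r') k := hx
    rw [h1] at hx'
    exact h.hi k hk x hx'

theorem oShort : S_OShort := by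
  intro V D lam a b M r z E hL i hi j hj hi0 hj1 hij1 hij2 hE hji
  have h := hL.hgo
  rcases lt_trichotomy i j with hlt | heq | hlt
  · refine oShort_mk hL (r - (j - i - 1)) (fun t => if t ≤ i then t else t + (j - i - 1))
      ?_ ?_ ?_ ?_ ?_ ?_
    · omega
    · intro t ht
      show (if t ≤ i then t else t + (j - i - 1)) ≤ r
      split_ifs <;> omega
    · intro t ht ht0
      show E (if t ≤ i then t else t + (j - i - 1)) (if t + 1 ≤ i then t + 1 else
        t + 1 + (j - i - 1)) ∧ ¬ E (if t + 1 ≤ i then t + 1 else t + 1 + (j - i - 1))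
        (if t ≤ i then t else t + (j - i - 1))
      rcases lt_trichotomy t i with h1 | h1 | h1
      · rw [if_pos h1.le, if_pos (by omega : t + 1 ≤ i)]
        exact h.ev t (by omega) ht0
      · rw [if_pos h1.le, if_neg (by omega : ¬ t + 1 ≤ i)]
        have e1 : t + 1 + (j - i - 1) = j := by omega
        rw [e1, h1]
        exact ⟨hE, hji⟩
      · rw [if_neg (by omega : ¬ t ≤ i), if_neg (by omega : ¬ t + 1 ≤ i)]
        have e1 : t + 1 + (j - i - 1) = t + (j - i - 1) + 1 := by omega
        rw [e1]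
        exact h.ev (t + (j - i - 1)) (by omega) (by omega)
    · intro t ht ht1
      show E (if t + 1 ≤ i then t + 1 else t + 1 + (j - i - 1))
        (if t ≤ i then t else t + (j - i - 1)) ∧ ¬ E (if t ≤ i then t else t + (j - i - 1))
        (if t + 1 ≤ i then t + 1 else t + 1 + (j - i - 1))
      rcases lt_trichotomy t i with h1 | h1 | h1
      · rw [if_pos h1.le, if_pos (by omega : t + 1 ≤ i)]
        exact h.od t (by omega) ht1
      · omega
      · rw [if_neg (by omega : ¬ t ≤ i), if_neg (by omega : ¬ t + 1 ≤ i)]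
        have e1 : t + 1 + (j - i - 1) = t + (j - i - 1) + 1 := by omega
        rw [e1]
        exact h.od (t + (j - i - 1)) (by omega) (by omega)
    · exact if_pos (Nat.zero_le i)
    · show (if r - (j - i - 1) ≤ i then r - (j - i - 1) else r - (j - i - 1) + (j - i - 1)) = r
      rw [if_neg (by omega : ¬ r - (j - i - 1) ≤ i)]
      omega
  · subst heq; omega
  · refine oShort_mk hL (r - (i - j - 1)) (fun t => if t ≤ j then t else t + (i - j - 1))
      ?_ ?_ ?_ ?_ ?_ ?_
    · omega
    · intro t ht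
      show (if t ≤ j then t else t + (i - j - 1)) ≤ r
      split_ifs <;> omega
    · intro t ht ht0
      show E (if t ≤ j then t else t + (i - j - 1)) (if t + 1 ≤ j then t + 1 else
        t + 1 + (i - j - 1)) ∧ ¬ E (if t + 1 ≤ j then t + 1 else t + 1 + (i - j - 1))
        (if t ≤ j then t else t + (i - j - 1))
      rcases lt_trichotomy t j with h1 | h1 | h1
      · rw [if_pos h1.le, if_pos (by omega : t + 1 ≤ j)]
        exact h.ev t (by omega) ht0
      · omega
      · rw [if_neg (by omega : ¬ t ≤ j), if_neg (by omega : ¬ t + 1 ≤ j)]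
        have e1 : t + 1 + (i - j - 1) = t + (i - j - 1) + 1 := by omega
        rw [e1]
        exact h.ev (t + (i - j - 1)) (by omega) (by omega)
    · intro t ht ht1
      show E (if t + 1 ≤ j then t + 1 else t + 1 + (i - j - 1))
        (if t ≤ j then t else t + (i - j - 1)) ∧ ¬ E (if t ≤ j then t else t + (i - j - 1))
        (if t + 1 ≤ j then t + 1 else t + 1 + (i - j - 1))
      rcases lt_trichotomy t j with h1 | h1 | h1
      · rw [if_pos h1.le, if_pos (by omega : t + 1 ≤ j)]
        exact h.od t (by omega) ht1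
      · rw [if_pos h1.le, if_neg (by omega : ¬ t + 1 ≤ j)]
        have e1 : t + 1 + (i - j - 1) = i := by omega
        rw [e1, h1]
        exact ⟨hE, hji⟩
      · rw [if_neg (by omega : ¬ t ≤ j), if_neg (by omega : ¬ t + 1 ≤ j)]
        have e1 : t + 1 + (i - j - 1) = t + (i - j - 1) + 1 := by omega
        rw [e1]
        exact h.od (t + (i - j - 1)) (by omega) (by omega)
    · exact if_pos (Nat.zero_le j)
    · show (if r - (i - j - 1) ≤ j then r - (i - j - 1) else r - (i - j - 1) + (i - j - 1)) = r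
      rw [if_neg (by omega : ¬ r - (i - j - 1) ≤ j)]
      omega

end Pool.Agent.MPd439b2.W
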