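import Pool.Agent.Lib.MP_d439b2_co.W.SpecO

/-!
# MP_d439b2_co, W, O13: from a set of closed sets with a small boundary to a set of vertices with few types
-/

set_option autoImplicit false

namespace Pool.Agent.MPd439b2.W

open Pool.Agent.MPd439b2

namespace OTyAux

section

variable {V : Type}

/-- `x` is the closed set of the vertex `v` -/
private def ClV (D : SimpleGraph V) (v : V) (x : Cl D) : Prop := x.1 = cn D (cn D {v})

private theorem cl_sg_sg (D : SimpleGraph V) (x : Cl D) : sg D (sg D x) = x :=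
  Subtype.ext x.2.1

private theorem cl_sg (D : SimpleGraph V) {u : V} {y : Cl D} (hy : ClV D u y) :
    (sg D y).1 = cn D {u} := by
  change cn D y.1 = cn D {u}
  rw [hy, cn3]

private theorem cl_exists (D : SimpleGraph V) {u v : V} (h : D.Adj u v) :
    ∃ x : Cl D, ClV D u x := by
  refine ⟨⟨cn D (cn D {u}), cn3 D _, ⟨u, ?_⟩, ?_⟩, rfl⟩
  · exact sub_cn_cn D {u} rfl
  · rw [cn3]
    refine ⟨v, fun x hx => ?_⟩
    rw [Set.mem_singleton_iff.1 hx]
    exact h

private theorem cl_nb (D : SimpleGraph V) (v : V) : cn D {v} = D.neighborSet v := by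
  ext u
  constructor
  · intro h
    exact h v rfl
  · intro h x hx
    rw [Set.mem_singleton_iff.1 hx]
    exact h

private theorem cl_adj (D : SimpleGraph V) {u v : V} {x y : Cl D} (hx : ClV D v x)
    (hy : ClV D u y) : D.Adj v u ↔ x ≤ sg D y := by
  have h1 : x ≤ sg D y ↔ x.1 ⊆ (sg D y).1 := Iff.rfl
  rw [h1, cl_sg D hy, hx]
  constructor
  · intro h
    have e1 : ({v} : Set V) ⊆ cn D {u} := by
      intro w hw
      rw [Set.mem_singleton_iff.1 hw, cl_nb]
      exact h.symm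
    have e2 := cn_anti (D := D) (cn_anti (D := D) e1)
    rwa [cn3] at e2
  · intro h
    have e1 := h (sub_cn_cn D {v} rfl)
    rw [cl_nb] at e1
    exact SimpleGraph.Adj.symm e1

end

open Classical in
private theorem wt_card {α : Type} (G : SimpleGraph α) (A B : Finset α) :
    wt (ind G) A B = ((A ×ˢ B).filter (fun p => G.Adj p.1 p.2)).card := by
  unfold wt ind
  rw [Finset.card_filter, Finset.sum_product]

/-- the boundary of the symmetric part is at most twice the boundary -/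
private theorem wt_half {α : Type} [Fintype α] [DecidableEq α] (G : SimpleGraph α) (σ : α → α)
    (hσ : ∀ x, σ (σ x) = x) (hG : ∀ x y, G.Adj (σ x) (σ y) ↔ G.Adj x y) (Y Y' : Finset α) (e : ℕ)
    (hY' : ∀ x, x ∈ Y' ↔ x ∈ Y ∧ σ x ∈ Y)
    (h : wt (ind G) Y Yᶜ ≤ e) : wt (ind G) Y' Y'ᶜ ≤ 2 * e := by
  classical
  rw [wt_card] at h ⊢
  set S := (Y ×ˢ Yᶜ).filter (fun p => G.Adj p.1 p.2) with hS
  have hsub : (Y' ×ˢ Y'ᶜ).filter
      (fun p => G.Adj p.1 p.2) ⊆ S ∪ S.image (fun p => (σ p.1, σ p.2)) := by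
    rintro ⟨x, y⟩ hp
    simp only [Finset.mem_filter, Finset.mem_product, Finset.mem_compl, hY', not_and] at hp
    obtain ⟨⟨⟨hx, hx'⟩, hy⟩, hadj⟩ := hp
    rw [Finset.mem_union]
    by_cases hyY : y ∈ Y
    · right
      rw [Finset.mem_image]
      refine ⟨(σ x, σ y), ?_, ?_⟩
      · simp only [hS, Finset.mem_filter, Finset.mem_product, Finset.mem_compl]
        exact ⟨⟨hx', hy hyY⟩, (hG x y).2 hadj⟩
      · simp only [hσ]
    · left
      simp only [hS, Finset.mem_filter, Finset.mem_product, Finset.mem_compl]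
      exact ⟨⟨hx, hyY⟩, hadj⟩
  refine (Finset.card_le_card hsub).trans ((Finset.card_union_le _ _).trans ?_)
  have h2 : (S.image (fun p => (σ p.1, σ p.2))).card ≤ S.card := Finset.card_image_le
  have h3 : S.card ≤ e := h
  omega

end OTyAux

open OTyAux

theorem oTy (h1 : S_Trace) (h2 : S_SymG) : S_OTy := by
  intro n e V _ D _ _ c Y P Q hc hcs hY hPQ hP hQ
  obtain ⟨hσ, hadj⟩ := h2 n V D c hc hcs
  set Y' : Finset (Cl D) := Y.filter (fun x => sg D x ∈ Y) with hY'
  have hmem : ∀ x, x ∈ Y' ↔ x ∈ Y ∧ sg D x ∈ Y := by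
    intro x
    rw [hY', Finset.mem_filter]
  have hw : wt (ind (Gam c Finset.univ)) Y' Y'ᶜ ≤ 2 * e := by
    exact wt_half (Gam c Finset.univ) (sg D) hσ hadj Y Y' e hmem hY
  have h4 := h1 n (Cl D) c Y' (2 * e) hc hw
  have hsym : ∀ x, sg D x ∈ Y' ↔ x ∈ Y' := by
    intro x
    rw [hmem, hmem, hσ]
    tauto
  set X : Set V := P ∪ {v | ∃ x : Cl D, ClV D v x ∧ x ∈ Y'} with hX
  refine ⟨X, Set.subset_union_left, ?_, ?_⟩
  · rw [Set.disjoint_left]
    rintro v (hv | ⟨x, hx, hxY⟩) hvQ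
    · exact (Set.disjoint_left.1 hPQ) hv hvQ
    · rw [hmem] at hxY
      rcases hQ v hvQ x hx with h | h
      · exact h hxY.1
      · exact h hxY.2
  · set TT : Set (Set (Cl D)) := {T : Set (Cl D) | ∃ a ∈ Y', T = {b | b ∉ Y' ∧ a ≤ b}} with hTT
    set Φ : Set (Cl D) → Set V := fun T => {u | ∃ y : Cl D, ClV D u y ∧ sg D y ∈ T} with hΦ
    have hfin : TT.Finite := Set.toFinite _
    have hsub : Types D X ⊆ Φ '' TT := by
      rintro T ⟨⟨u₀, hu₀⟩, v, hv, rfl⟩
      have hvu₀ : D.Adj v u₀ := hu₀.1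
      have hx : ∃ x : Cl D, ClV D v x ∧ x ∈ Y' := by
        rcases hv with hv | hv
        · obtain ⟨x, hx⟩ := cl_exists D hvu₀
          exact ⟨x, hx, (hmem x).2 (hP v hv x hx)⟩
        · exact hv
      obtain ⟨x, hx, hxY⟩ := hx
      refine ⟨{b | b ∉ Y' ∧ x ≤ b}, ⟨x, hxY, rfl⟩, ?_⟩
      ext u
      constructor
      · rintro ⟨y, hy, hy1, hy2⟩
        have hvu : D.Adj v u := (cl_adj D hx hy).2 hy2
        refine ⟨hvu, ?_⟩
        have hyn : y ∉ Y' := fun h => hy1 ((hsym y).2 h)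
        rintro (huP | ⟨y', hy', hyY⟩)
        · exact hyn ((hmem y).2 (hP u huP y hy))
        · have : y' = y := Subtype.ext (hy'.trans hy.symm)
          rw [this] at hyY
          exact hyn hyY
      · rintro ⟨hvu, hu⟩
        have hvu' : D.Adj v u := hvu
        obtain ⟨y, hy⟩ := cl_exists D hvu'.symm
        refine ⟨y, hy, ?_, (cl_adj D hx hy).1 hvu'⟩
        intro h
        exact hu (Or.inr ⟨y, hy, (hsym y).1 h⟩)
    calc (Types D X).encard ≤ (Φ '' TT).encard := Set.encard_le_encard hsub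
      _ ≤ TT.encard := Set.encard_image_le Φ TT
      _ = (TT.ncard : ℕ∞) := (Set.Finite.cast_ncard_eq hfin).symm
      _ ≤ ((n * (2 * e + 2) ^ n : ℕ) : ℕ∞) := by exact_mod_cast h4

end Pool.Agent.MPd439b2.W
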