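import Pool.Agent.Lib.MP_d439b2_co.W.FinalW
import Pool.Agent.Lib.MP_d439b2_co.W.OCarv
import Pool.Agent.Lib.MP_d439b2_co.W.OMen
import Pool.Agent.Lib.MP_d439b2_co.W.OIt
import Pool.Agent.Lib.MP_d439b2_co.W.OBun
import Pool.Agent.Lib.MP_d439b2_co.W.OAlt
import Pool.Agent.Lib.MP_d439b2_co.W.OGrpA
import Pool.Agent.Lib.MP_d439b2_co.W.OGrpB
import Pool.Agent.Lib.MP_d439b2_co.W.OLen
import Pool.Agent.Lib.MP_d439b2_co.W.OShort
import Pool.Agent.Lib.MP_d439b2_co.W.OClose
import Pool.Agent.Lib.MP_d439b2_co.W.OCyc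
import Pool.Agent.Lib.MP_d439b2_co.W.ONo
import Pool.Agent.Lib.MP_d439b2_co.W.OTy
import Pool.Agent.Lib.MP_d439b2_co.W.OSep

/-!
# MP_d439b2_co, W: layered separation (Theorem O'), final form (helper28)
-/

set_option autoImplicit false

namespace Pool.Agent.MPd439b2.W

open Pool.Agent.MPd439b2

/-- **Layered separation**: in a triangle-free graph of bounded width without one of `F1`, `F2`, `F3` the low and
the high vertices of a layering are separated by a set with boundedly many types. -/
theorem oSepF : S_OSep :=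
  oSep deg (symC dil) join coM
    (oCarv carve deg (badWL deg) bundleF (alt (merge lemA)) join (grpA gen sun) (grpB ramC) coM
      noHGCF)
    (oMen GT.pMen) (oBun (reg cross) (reroute runs) oIt noncross) (oAlt (merge lemA))
    (oGrpA gen sun) (oGrpB ramC)
    (oNo tri (x1 tri atoms fSub) (x2 tri atoms fSub) (patX atoms) noHGCF oLen oShort oClose oCyc)
    (oTy trace symG)

end Pool.Agent.MPd439b2.W
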