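import Pool.Agent.Lib.MP_d439b2_co.W.SpecM

/-!
# MP_d439b2_co, W, M11: layouts of unions of components
-/

set_option autoImplicit false

namespace Pool.Agent.MPd439b2.W

open Pool.Agent.MPd439b2

theorem layUn : S_LayUn := by
  intro V _ D U X k hXU hX hK hty
  obtain ⟨S, ⟨hSX, hS, hL⟩, hmax⟩ := Set.exists_max_image
    {S : Set V | S ⊆ X ∧ (∀ v ∈ S, ∀ w ∈ U, D.Adj v w → w ∈ S) ∧ Lay D k S} Set.ncard
    (Set.toFinite _) ⟨∅, Set.empty_subset _, fun u hu => absurd hu (Set.notMem_empty u),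
      Lay.empty⟩
  have hfin : ∀ v ∈ X, v ∈ S := by
    intro v hv
    by_contra hvS
    obtain ⟨K, hKc, hvK⟩ := exists_isComp D (hXU hv)
    have hKX : K ⊆ X := by
      have h1 := hKc.1.eq_of_nb (C := K ∩ X) Set.inter_subset_left ⟨v, hvK, hv⟩ (by
        intro w hw hwn
        obtain ⟨hw1, c, hc, hcw⟩ := hwn
        exact hw1 ⟨hw, hX c hc.2 w (hKc.2.1 hw) hcw⟩)
      rw [← h1]
      exact Set.inter_subset_right
    have hdis : Disjoint S K := by
      rw [Set.disjoint_left]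
      intro x hxS hxK
      have h1 := hKc.1.eq_of_nb (C := K ∩ S) Set.inter_subset_left ⟨x, hxK, hxS⟩ (by
        intro w hw hwn
        obtain ⟨hw1, c, hc, hcw⟩ := hwn
        exact hw1 ⟨hw, hS c hc.2 w (hKc.2.1 hw) hcw⟩)
      rw [← h1] at hvK
      exact hvS hvK.2
    have hcl : ∀ u ∈ S ∪ K, ∀ w ∈ U, D.Adj u w → w ∈ S ∪ K := by
      rintro u (hu | hu) w hw huw
      · exact Or.inl (hS u hu w hw huw)
      · exact Or.inr (hKc.2.2 u hu w hw huw)
    have hsub : S ∪ K ⊆ X := Set.union_subset hSX hKX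
    have hty' : (Types D (S ∪ K)).encard ≤ k := by
      refine (Set.encard_le_encard ?_).trans hty
      rintro T ⟨_, u, hu, rfl⟩
      refine ⟨u, hsub hu, ?_⟩
      ext w
      constructor
      · rintro ⟨h1, h2⟩
        exact ⟨h1, fun h3 => h2 (hcl u hu w h3 h1)⟩
      · rintro ⟨h1, h2⟩
        exact ⟨h1, fun h3 => h2 (hXU (hsub h3))⟩
    have hL' := Lay.union hL (hK K hKc hKX) hdis hty'
    have h1 := hmax (S ∪ K) ⟨hsub, hcl, hL'⟩
    have h2 : S.ncard < (S ∪ K).ncard := Set.ncard_lt_ncard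
      (Set.ssubset_iff_subset_ne.mpr ⟨Set.subset_union_left, fun h => hvS (h ▸ Or.inr hvK)⟩)
      (Set.toFinite _)
    omega
  rw [← Set.Subset.antisymm hSX hfin]
  exact hL

end Pool.Agent.MPd439b2.W
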