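import Pool.Agent.Lib.MP_d439b2_co.W.SpecO

/-!
# MP_d439b2_co, W: O11, the combinatorics of a minimal open path
-/

set_option autoImplicit false

namespace Pool.Agent.MPd439b2.W

open Pool.Agent.MPd439b2

theorem oCyc : S_OCyc := by
  intro r E hr ev od tri T1 T2 eo
  -- (1)
  have d : ∀ i ≤ r, ¬ E i i := fun i hi h => tri i hi i hi i hi ⟨h, h, h⟩
  -- (2)
  have se : ∀ i ≤ r, ∀ j, j < r → i % 2 = 0 → j % 2 = 0 → E i j → E j i := by
    intro i hi j hj h1 h2 h
    by_contra h3
    exact T1 ⟨j, hj.le, j + 1, by omega, i, hi, (ev j hj h2).1, (ev j hj h2).2, h, h3⟩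
  have so : ∀ i ≤ r, ∀ j ≤ r, i % 2 = 1 → j % 2 = 1 → E i j → E j i := by
    intro i hi j hj h1 h2 h
    by_contra h3
    obtain ⟨m, rfl⟩ : ∃ m, i = m + 1 := ⟨i - 1, by omega⟩
    have h4 := ev m (by omega) (by omega)
    exact T1 ⟨m + 1, hi, j, hj, m, by omega, h, h3, h4.1, h4.2⟩
  -- (3)
  have ke : ∀ i, i + 2 < r → i % 2 = 0 → ¬ E i (i + 2) ∧ ¬ E (i + 2) i := by
    intro i hi h1
    have h2 := ev i (by omega) h1
    have h3 := od (i + 1) (by omega) (by omega)
    have h4 : ¬ E i (i + 2) := fun h =>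
      tri i (by omega) (i + 2) (by omega) (i + 1) (by omega) ⟨h, h3.1, h2.1⟩
    exact ⟨h4, fun h => h4 (se (i + 2) (by omega) i (by omega) (by omega) h1 h)⟩
  have ko : ∀ i, i + 2 ≤ r → i % 2 = 1 → ¬ E i (i + 2) ∧ ¬ E (i + 2) i := by
    intro i hi h1
    have h2 := od i (by omega) h1
    have h3 := ev (i + 1) (by omega) (by omega)
    have h4 : ¬ E i (i + 2) := fun h =>
      tri (i + 1) (by omega) i (by omega) (i + 2) hi ⟨h2.1, h, h3.1⟩
    exact ⟨h4, fun h => h4 (so (i + 2) hi i (by omega) (by omega) h1 h)⟩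
  obtain ⟨a01, b01⟩ := ev 0 (by omega) (by omega)
  obtain ⟨a21, b12⟩ := od 1 (by omega) (by omega)
  obtain ⟨a23, b32⟩ := ev 2 (by omega) (by omega)
  obtain ⟨a43, b34⟩ := od 3 (by omega) (by omega)
  obtain ⟨a45, b54⟩ := ev 4 (by omega) (by omega)
  obtain ⟨a65, b56⟩ := od 5 (by omega) (by omega)
  obtain ⟨a67, b76⟩ := ev 6 (by omega) (by omega)
  obtain ⟨n02, n20⟩ := ke 0 (by omega) (by omega)
  obtain ⟨n24, n42⟩ := ke 2 (by omega) (by omega)
  obtain ⟨n46, n64⟩ := ke 4 (by omega) (by omega)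
  obtain ⟨n13, n31⟩ := ko 1 (by omega) (by omega)
  obtain ⟨n35, n53⟩ := ko 3 (by omega) (by omega)
  obtain ⟨n57, n75⟩ := ko 5 (by omega) (by omega)
  have d0 := d 0 (by omega)
  have d1 := d 1 (by omega)
  have d2 := d 2 (by omega)
  have d3 := d 3 (by omega)
  have d4 := d 4 (by omega)
  have d5 := d 5 (by omega)
  have d6 := d 6 (by omega)
  have d7 := d 7 (by omega)
  have q : ∀ i ≤ 7, ∀ j ≤ 7, i % 2 = 0 → j % 2 = 1 → j ≠ i + 1 → i ≠ j + 1 →
      ¬ E i j ∧ ¬ E j i := fun i hi j hj => eo i (by omega) j (by omega)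
  obtain ⟨n03, n30⟩ := q 0 (by omega) 3 (by omega) (by omega) (by omega) (by omega) (by omega)
  obtain ⟨n05, n50⟩ := q 0 (by omega) 5 (by omega) (by omega) (by omega) (by omega) (by omega)
  obtain ⟨n25, n52⟩ := q 2 (by omega) 5 (by omega) (by omega) (by omega) (by omega) (by omega)
  obtain ⟨n27, n72⟩ := q 2 (by omega) 7 (by omega) (by omega) (by omega) (by omega) (by omega)
  obtain ⟨n47, n74⟩ := q 4 (by omega) 7 (by omega) (by omega) (by omega) (by omega) (by omega)
  obtain ⟨n41, n14⟩ := q 4 (by omega) 1 (by omega) (by omega) (by omega) (by omega) (by omega)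
  obtain ⟨n61, n16⟩ := q 6 (by omega) 1 (by omega) (by omega) (by omega) (by omega) (by omega)
  obtain ⟨n63, n36⟩ := q 6 (by omega) 3 (by omega) (by omega) (by omega) (by omega) (by omega)
  by_cases h15 : E 1 5
  · right
    have h51 : E 5 1 := so 1 (by omega) 5 (by omega) (by omega) (by omega) h15
    have n26 : ¬ E 2 6 := by
      intro h
      have h62 : E 6 2 := se 2 (by omega) 6 (by omega) (by omega) (by omega) h
      exact T2 ⟨2, by omega, 1, by omega, 5, by omega, 6, by omega, a21, b12,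
        Or.inr ⟨a65, b56⟩, h62, h51⟩
    have n62 : ¬ E 6 2 := fun h =>
      n26 (se 6 (by omega) 2 (by omega) (by omega) (by omega) h)
    intro i hi j hj
    interval_cases i <;> interval_cases j <;>
      refine ⟨fun h => ?_, fun h => ?_⟩ <;>
      first
        | assumption
        | exact absurd h (by decide)
  · left
    have n51 : ¬ E 5 1 := fun h =>
      h15 (so 5 (by omega) 1 (by omega) (by omega) (by omega) h)
    intro i hi j hj
    interval_cases i <;> interval_cases j <;>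
      refine ⟨fun h => ?_, fun h => ?_⟩ <;>
      first
        | assumption
        | exact absurd h (by decide)

end Pool.Agent.MPd439b2.W
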