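import Pool.Agent.Lib.MP_d439b2_co.W.SpecU

/-!
# MP_d439b2_co, W, U8: one component of the light graph, general `k`, assembly
-/

set_option autoImplicit false

namespace Pool.Agent.MPd439b2.W

open Pool.Agent.MPd439b2

/-- an enumeration of a finite set of indices -/
private theorem onec_enum (J : Finset ℕ) : ∃ σ : ℕ → ℕ, (∀ i < J.card, σ i ∈ J) ∧
    ∀ i < J.card, ∀ j < J.card, σ i = σ j → i = j := by
  refine ⟨fun i => if h : i < J.card then J.orderEmbOfFin rfl ⟨i, h⟩ else 0, fun i hi => ?_,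
    fun i hi j hj hij => ?_⟩
  · simp only [hi, dif_pos]
    exact Finset.orderEmbOfFin_mem _ _ _
  · simp only [hi, hj, dif_pos] at hij
    have := (J.orderEmbOfFin rfl).injective hij
    simpa using this

/-- a set of vertices `p j` on different levels -/
private theorem onec_card {V : Type} [Finite V] {lam : V → ℕ} {p : ℕ → V} (S : Set V)
    (I : Finset ℕ) (hl : ∀ j ∈ I, lam (p j) = j) (hS : ∀ j ∈ I, p j ∈ S) : I.card ≤ S.ncard := by
  classical
  have h1 : I.card = (I.image p).card := by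
    rw [Finset.card_image_of_injOn]
    intro i hi j hj hij
    have h2 := hl i hi
    have h3 := hl j hj
    rw [hij, h3] at h2
    exact h2.symm
  rw [h1, ← Set.ncard_coe_finset]
  apply Set.ncard_le_ncard _ (Set.toFinite S)
  intro v hv
  simp only [Finset.coe_image, Set.mem_image, Finset.mem_coe] at hv
  obtain ⟨j, hj, rfl⟩ := hv
  exact hS j hj

theorem oneC (hNoSp : S_NoSpU) (hExW : S_ExclW) (hBfs : S_Bfs) (hDnP : S_DnP)
    (hBall : S_Ball) (hWinB : S_WinB) (hCutU : S_CutU) (hZone : S_ZoneU) (hClss : S_Clss)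
    (hBand : S_Band) : S_OneC := by
  classical
  intro _ k m h
  obtain ⟨f, hf⟩ := hWinB 15
  obtain ⟨N, hN⟩ := hCutU m (f + 1)
  refine ⟨N + 2 ^ N + 5, fun B => ?_⟩
  obtain ⟨E, hE⟩ := hZone k m (B + 51)
  obtain ⟨L, hL⟩ := hBall h E
  refine ⟨(2 * k + 60) * (h + 1) + L + 1, ?_⟩
  intro V _ D n a b K J ht _ hno hCoM hCM hcomp0 hJ hJc
  -- (1)
  have him := hCM.im
  set U := SA.Lig D h n a b with hU
  have hcomp : IsComp D U K := by
    refine ⟨hcomp0.2.1, hcomp0.1, fun v hv w hw hvw => ?_⟩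
    by_contra h1
    exact hcomp0.2.2 w hw ⟨h1, v, hv, hvw⟩
  have hlight : ∀ v, v ∈ U → (Jt D n a b v).card ≤ h := fun v hv => hv
  have hfull : ∀ v, v ∉ U → n ≤ (Jt D n a b v).card + h := by
    intro v hv
    have h3 : (Jt D n a b v).card = n := by
      have h4 : Jt D n a b v = Finset.range n := by
        ext i
        rw [mem_Jt, Finset.mem_range]
        refine ⟨fun h => h.1, fun hi => ⟨hi, ?_⟩⟩
        rcases hCM.tr v with h5 | h5 | h5
        · exact absurd h5 hv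
        · exact Or.inr (h5 i hi)
        · exact Or.inl (h5 i hi)
      rw [h4, Finset.card_range]
    omega
  have hJn : J.card ≤ n := by
    have h1 : J ⊆ Finset.range n := fun i hi => Finset.mem_range.2 (hJ i hi).1
    have h2 := Finset.card_le_card h1
    rwa [Finset.card_range] at h2
  have hsit : SitU k h n D a b U K :=
    ⟨ht, hno, him, hlight, hfull, hcomp, by omega⟩
  have hexp : (2 * k + 60) * (h + 1) = 2 * (k * h) + 2 * k + 60 * h + 60 := by ring
  have hKl : ∀ v ∈ K, (Jt D n a b v).card ≤ h := fun v hv => hlight v (hcomp.2.1 hv)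
  have hSp : ¬ Sp D K := hNoSp k h n V D a b K ht hno him hKl (by omega)
  have hEx : ∀ W ⊆ K, Excl 0 (D.induce W) := fun W hW =>
    hExW k h n V D a b W ht hno him (fun v hv => hKl v (hW hv)) (by omega)
  -- (2)
  obtain ⟨σ, hσ1, hσ2⟩ := onec_enum J
  have him' : IM D J.card (fun i => a (σ i)) (fun i => b (σ i)) :=
    him.comp σ (fun i hi => (hJ _ (hσ1 i hi)).1) hσ2
  have hK' : ∀ i < J.card, a (σ i) ∈ K ∧ b (σ i) ∈ K := fun i hi => (hJ _ (hσ1 i hi)).2
  have hJt' : ∀ v ∈ K, (Jt D J.card (fun i => a (σ i)) (fun i => b (σ i)) v).card ≤ h := by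
    intro v hv
    refine le_trans ?_ (hKl v hv)
    refine Finset.card_le_card_of_injOn σ ?_ ?_
    · intro i hi
      have hi' := mem_Jt.1 (Finset.mem_coe.1 hi)
      exact Finset.mem_coe.2 (mem_Jt.2 ⟨(hJ _ (hσ1 i hi'.1)).1, hi'.2⟩)
    · intro i hi j hj hij
      exact hσ2 i (mem_Jt.1 (Finset.mem_coe.1 hi)).1 j (mem_Jt.1 (Finset.mem_coe.1 hj)).1 hij
  have hr : a (σ 0) ∈ K := (hK' 0 (by omega)).1
  obtain ⟨lam, hlam⟩ := hBfs V D K (a (σ 0)) hcomp.1 hr
  obtain ⟨i₀, hi₀, hw⟩ : ∃ i < J.card, ¬ Nr D K E (a (σ 0)) (a (σ i)) := by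
    by_contra hcon
    push Not at hcon
    have h1 := hL V D K J.card (fun i => a (σ i)) (fun i => b (σ i)) ht hSp him' hK' hJt' _ hr
      (Finset.range J.card) (fun i hi =>
        ⟨Finset.mem_range.1 hi, Or.inl (hcon i (Finset.mem_range.1 hi))⟩)
    rw [Finset.card_range] at h1
    omega
  have hwK : a (σ i₀) ∈ K := (hK' i₀ hi₀).1
  obtain ⟨p, hp⟩ := hDnP V D K lam _ hlam _ hwK
  have hEw : E < lam (a (σ i₀)) := by
    by_contra h1
    exact hw ((hp.nr_root hlam).mono (by omega))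
  -- (4)
  obtain ⟨d, hd1, hd2, hd3⟩ := hE h n V D a b U K lam _ hsit hCoM hlam
  -- (3)
  have hX : ∀ d' : ℕ, ∃ X ⊆ K, (∀ v ∈ K, lam v ≤ d' → v ∈ X) ∧ (∀ v ∈ X, lam v < d' + 15) ∧
      (TyIn D K X).encard ≤ N := by
    intro d'
    refine hN V D K lam d' ht hEx hCoM hlam.slow ?_
    intro a' b' hab hcon
    have h1 := hf V D K lam _ d' (f + 1) a' b' ht hSp hcomp.1 hlam ⟨_, hwK, by omega⟩ hab
      (fun i hi => ⟨(hcon i hi).1.1, (hcon i hi).2.1, (hcon i hi).1.2⟩)
    omega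
  obtain ⟨X₁, hX1K, hX1a, hX1b, hX1c⟩ := hX (d + 12)
  obtain ⟨X₂, hX2K, hX2a, hX2b, hX2c⟩ := hX (d + B + 36)
  have h12 : X₁ ⊆ X₂ := fun v hv => hX2a v (hX1K hv) (by have := hX1b v hv; omega)
  have hZ : ∀ z ∈ X₂ \ X₁, z ∈ K ∧ d + 12 ≤ lam z ∧ lam z ≤ d + B + 51 := by
    intro z hz
    have hzK := hX2K hz.1
    refine ⟨hzK, ?_, ?_⟩
    · by_contra h1
      exact hz.2 (hX1a z hzK (by omega))
    · have := hX2b z hz.1
      omega
  -- (5)
  have h4 := hClss V D K {g | g ∉ U ∧ ∃ v ∈ K, D.Adj g v} (X₂ \ X₁) lam _ d (d + B + 51) ht hSp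
    hlam (by omega) (by
      intro g hg p' hp' q' hq' hpq h1 h2
      exact hd3 g hg.1 hg.2 p' hp' q' hq' hpq h1 (by omega)) hZ
  have h5 : {T | ∃ g, g ∉ U ∧ T = D.neighborSet g ∩ (X₂ \ X₁)}.encard ≤ ((5 : ℕ) : ℕ∞) := by
    have h6 : {T | ∃ g, g ∉ U ∧ T = D.neighborSet g ∩ (X₂ \ X₁)} ⊆
        insert ∅ {T | ∃ g ∈ {g | g ∉ U ∧ ∃ v ∈ K, D.Adj g v}, T = D.neighborSet g ∩ (X₂ \ X₁)} := by
      rintro T ⟨g, hg, rfl⟩
      by_cases hgv : ∃ v ∈ K, D.Adj g v
      · exact Set.mem_insert_of_mem _ ⟨g, ⟨hg, hgv⟩, rfl⟩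
      · refine Set.mem_insert_iff.2 (Or.inl ?_)
        rw [Set.eq_empty_iff_forall_notMem]
        intro v hv
        exact hgv ⟨v, hX2K hv.2.1, hv.1⟩
    refine (Set.encard_le_encard h6).trans ((Set.encard_insert_le _ _).trans ?_)
    calc _ ≤ (4 : ℕ∞) + 1 := by gcongr
      _ = ((5 : ℕ) : ℕ∞) := by norm_num
  have h6 := hBand N 5 V D U K X₁ X₂ hcomp h12 hX2K hX1c hX2c h5
  -- (6)
  refine ⟨(X₂ \ X₁)ᶜ, Rep.cr_types D h6, ?_, ?_⟩
  · have h7 := onec_card (lam := lam) (p := p) (X₂ \ X₁)ᶜ (Finset.range (B + 1))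
      (fun j hj => hp.lev j (by have := Finset.mem_range.1 hj; omega))
      (fun j hj => by
        have hj' := Finset.mem_range.1 hj
        intro hcon
        exact hcon.2 (hX1a _ (hp.mem j (by omega)) (by
          rw [hp.lev j (by omega)]; omega)))
    rw [Finset.card_range] at h7
    omega
  · rw [compl_compl]
    have h7 := onec_card (lam := lam) (p := p) (X₂ \ X₁) (Finset.Ico (d + 27) (d + 28 + B))
      (fun j hj => hp.lev j (by have := Finset.mem_Ico.1 hj; omega))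
      (fun j hj => by
        have hj' := Finset.mem_Ico.1 hj
        refine ⟨hX2a _ (hp.mem j (by omega)) (by rw [hp.lev j (by omega)]; omega), ?_⟩
        intro hcon
        have h8 := hX1b _ hcon
        rw [hp.lev j (by omega)] at h8
        omega)
    rw [Nat.card_Ico] at h7
    omega

end Pool.Agent.MPd439b2.W
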