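import Pool.Agent.Lib.MP_d439b2_co.W.SpecT

/-!
# MP_d439b2_co, W: down paths of vertices which are far from each other (`S_PairD`)
-/

set_option autoImplicit false

namespace Pool.Agent.MPd439b2.W

open Pool.Agent.MPd439b2

theorem pairD (h1 : S_PairL) : S_PairD := by
  intro V D K lam r x y p q l ht hS hL hp hq hxy hyx hN
  refine h1 V D K lam r x y p q ht hS hL hp hq ?_
  intro j j' hj hj' hjx hjy h
  have e1 := hp.lev j hjx
  have e2 := hq.lev j' hjy
  have hpK := hp.mem j hjx
  have hqK := hq.mem j' hjy
  have hlev : j ≤ j' + 1 ∧ j' ≤ j + 1 := by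
    rcases h with h | h
    · rw [h, e2] at e1
      omega
    · have h2 := hL.slow' hpK hqK h
      rw [e1, e2] at h2
      exact h2
  have hmid : Nr D K 1 (p j) (q j') := by
    rcases h with h | h
    · rw [h]
      exact Nr.refl hqK 1
    · exact Nr.of_adj hpK hqK h
  have hA : Nr D K (lam x - j) x (p j) := by
    have h2 := hp.nr' hjx le_rfl
    rw [hp.top] at h2
    exact h2
  have hB : Nr D K (lam y - j') (q j') y := by
    have h2 := hq.nr' hjy le_rfl
    rw [hq.top] at h2
    exact h2.symm
  have hb : l + 6 < lam x - j + 1 + (lam y - j') := by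
    by_contra hc
    exact hN (((hA.trans hmid).trans hB).mono (by omega))
  omega

end Pool.Agent.MPd439b2.W
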