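import Pool.Agent.Lib.MP_d439b2_co.W.SpecM

/-!
# MP_d439b2_co, W, M26: a maximal clean run with many M-edges
-/

set_option autoImplicit false

namespace Pool.Agent.MPd439b2.W

open Pool.Agent.MPd439b2

namespace runLAux

variable {V : Type} {D : SimpleGraph V} {K : Set V} {C : V → V → Prop} {l : ℕ} {u : ℕ → V}

open Classical in
/-- the positions of the edges of the path without `C` -/
noncomputable def E0 (C : V → V → Prop) (l : ℕ) (u : ℕ → V) : Finset ℕ :=
  (Finset.range l).filter fun j => j + 1 < l ∧ ¬ C (u j) (u (j + 1))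

theorem mem_E0 {j : ℕ} : j ∈ E0 C l u ↔ j + 1 < l ∧ ¬ C (u j) (u (j + 1)) := by
  classical
  unfold E0
  rw [Finset.mem_filter, Finset.mem_range]
  exact ⟨fun h => h.2, fun h => ⟨by omega, h⟩⟩

/-- part (1) -/
theorem card_E0 (hE : Enu D K C l u) {c₀ : ℕ}
    (h : ∀ p q, IM D c₀ p q → (∀ i < c₀, p i ∈ K ∧ q i ∈ K) → ∃ i < c₀, C (p i) (q i)) :
    (E0 C l u).card ≤ 3 * c₀ := by
  by_contra hcon
  set E₁ := (E0 C l u).erase 0 with hE₁
  have h1 : 3 * c₀ ≤ E₁.card := by
    have h := Finset.pred_card_le_card_erase (s := E0 C l u) (a := 0)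
    rw [← hE₁] at h
    omega
  obtain ⟨e, he1, he2⟩ : ∃ e : ℕ → ℕ, (∀ i < 3 * c₀, e i ∈ E₁) ∧
      ∀ i j, i < j → j < 3 * c₀ → e i < e j := by
    refine ⟨fun i => if h : i < E₁.card then E₁.orderEmbOfFin rfl ⟨i, h⟩ else 0, ?_, ?_⟩
    · intro i hi
      have hi' : i < E₁.card := by omega
      simp only [hi', dif_pos]
      exact Finset.orderEmbOfFin_mem E₁ rfl _
    · intro i j hij hj
      have hi' : i < E₁.card := by omega
      have hj' : j < E₁.card := by omega
      simp only [hi', hj', dif_pos]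
      exact (E₁.orderEmbOfFin rfl).strictMono (Fin.mk_lt_mk.mpr hij)
  have he3 : ∀ i j, i < j → j < c₀ → e (3 * i) + 3 ≤ e (3 * j) := by
    intro i j hij hj
    have h2 := he2 (3 * i) (3 * i + 1) (by omega) (by omega)
    have h3 := he2 (3 * i + 1) (3 * i + 2) (by omega) (by omega)
    have h4 := he2 (3 * i + 2) (3 * i + 3) (by omega) (by omega)
    rcases Nat.lt_or_ge (3 * i + 3) (3 * j) with h5 | h5
    · have := he2 (3 * i + 3) (3 * j) h5 (by omega)
      omega
    · have h6 : 3 * i + 3 = 3 * j := by omega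
      rw [← h6]
      omega
  have he4 : ∀ i < c₀, 1 ≤ e (3 * i) ∧ e (3 * i) + 1 < l ∧
      ¬ C (u (e (3 * i))) (u (e (3 * i) + 1)) := by
    intro i hi
    have h2 := he1 (3 * i) (by omega)
    rw [hE₁, Finset.mem_erase, mem_E0] at h2
    exact ⟨by omega, h2.2⟩
  have hno : ∀ x y, x < l → y < l → 1 ≤ x → 1 ≤ y → x + 2 ≤ y → ¬ D.Adj (u x) (u y) := by
    intro x y hx hy hx1 hy1 hxy hadj
    rcases hE.only x hx y hy hadj with h2 | h2 | ⟨-, h2 | h2⟩ <;> omega
  have him : IM D c₀ (fun i => u (e (3 * i))) (fun i => u (e (3 * i) + 1)) := by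
    intro i hi j hj
    have hi4 := he4 i hi
    have hj4 := he4 j hj
    rcases Nat.lt_trichotomy i j with hij | hij | hij
    · have h5 := he3 i j hij hj
      refine ⟨⟨fun h => ?_, fun h => ?_⟩, ?_, ?_⟩
      · exact absurd h (hno _ _ (by omega) (by omega) (by omega) (by omega) (by omega))
      · omega
      · exact hno _ _ (by omega) (by omega) (by omega) (by omega) (by omega)
      · exact hno _ _ (by omega) (by omega) (by omega) (by omega) (by omega)
    · subst hij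
      refine ⟨⟨fun _ => rfl, fun _ => hE.adj _ hi4.2.1⟩, ?_, ?_⟩
      · exact D.loopless.irrefl _
      · exact D.loopless.irrefl _
    · have h5 := he3 j i hij hi
      refine ⟨⟨fun h => ?_, fun h => ?_⟩, ?_, ?_⟩
      · exact absurd h.symm (hno _ _ (by omega) (by omega) (by omega) (by omega) (by omega))
      · omega
      · exact fun h => (hno _ _ (by omega) (by omega) (by omega) (by omega) (by omega)) h.symm
      · exact fun h => (hno _ _ (by omega) (by omega) (by omega) (by omega) (by omega)) h.symm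
  obtain ⟨i, hi, hCi⟩ := h _ _ him fun i hi =>
    ⟨(hE.mem _).mpr ⟨_, by have := he4 i hi; omega, rfl⟩,
      (hE.mem _).mpr ⟨_, by have := he4 i hi; omega, rfl⟩⟩
  exact (he4 i hi).2.2 hCi

end runLAux

open runLAux in
theorem runL : S_RunL := by
  classical
  intro c₀ N₂ l n V D K C u a b I hE him hI hcard hC
  have hE0 := card_E0 hE hC
  -- the positions
  have hch : ∀ i, ∃ s t : ℕ, i ∈ I → s < l ∧ t < l ∧ u s = a i ∧ u t = b i := by
    intro i
    by_cases hi : i ∈ I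
    · obtain ⟨-, h1, h2⟩ := hI i hi
      obtain ⟨s, hs, hs'⟩ := (hE.mem _).mp h1
      obtain ⟨t, ht, ht'⟩ := (hE.mem _).mp h2
      exact ⟨s, t, fun _ => ⟨hs, ht, hs', ht'⟩⟩
    · exact ⟨0, 0, fun h => absurd h hi⟩
  choose s t hst using hch
  -- separation
  have hsep : ∀ i ∈ I, ∀ j ∈ I, i ≠ j → ∀ x y, (x = s i ∨ x = t i) → (y = s j ∨ y = t j) →
      x ≠ y ∧ y ≠ x + 1 := by
    intro i hi j hj hij x y hx hy
    obtain ⟨h1, h2, h3, h4⟩ := hst i hi
    obtain ⟨h5, h6, h7, h8⟩ := hst j hj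
    have hin := (hI i hi).1
    have hjn := (hI j hj).1
    have hux : u x = a i ∨ u x = b i := by
      rcases hx with rfl | rfl
      · exact Or.inl h3
      · exact Or.inr h4
    have huy : u y = a j ∨ u y = b j := by
      rcases hy with rfl | rfl
      · exact Or.inl h7
      · exact Or.inr h8
    have hne : u x ≠ u y := by
      intro h
      rcases hux with h9 | h9 <;> rcases huy with h10 | h10
      · exact hij (him.inj_a hin hjn (h9.symm.trans (h.trans h10)))
      · exact him.ne_ab hin hjn (h9.symm.trans (h.trans h10))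
      · exact him.ne_ab hjn hin (h10.symm.trans (h.symm.trans h9))
      · exact hij (him.inj_b hin hjn (h9.symm.trans (h.trans h10)))
    have hnadj : ¬ D.Adj (u x) (u y) := by
      intro h
      have h11 := him i hin j hjn
      rcases hux with h9 | h9 <;> rcases huy with h10 | h10 <;> rw [h9, h10] at h
      · exact h11.2.1 h
      · exact hij (h11.1.mp h)
      · exact hij ((him j hjn i hin).1.mp h.symm).symm
      · exact h11.2.2 h
    have hyl : y < l := by
      rcases hy with rfl | rfl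
      · exact h5
      · exact h6
    refine ⟨fun h => hne (by rw [h]), fun h => ?_⟩
    rw [h] at hnadj hyl
    exact hnadj (hE.adj x hyl)
  have hkind : ∀ i ∈ I, t i = s i + 1 ∨ s i = t i + 1 ∨ s i = 0 ∨ t i = 0 := by
    intro i hi
    obtain ⟨h1, h2, h3, h4⟩ := hst i hi
    have h5 : D.Adj (u (s i)) (u (t i)) := by
      rw [h3, h4]
      exact him.edge (hI i hi).1
    rcases hE.only _ h1 _ h2 h5 with h6 | h6 | ⟨-, h6 | h6⟩
    · exact Or.inl h6
    · exact Or.inr (Or.inl h6)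
    · exact Or.inr (Or.inr (Or.inl h6.1))
    · exact Or.inr (Or.inr (Or.inr h6.1))
  set π : ℕ → ℕ := fun i => min (s i) (t i) with hπ
  set I₁ := I.filter fun i => t i = s i + 1 ∨ s i = t i + 1 with hI₁
  set B₁ := I.filter fun i => ¬ (t i = s i + 1 ∨ s i = t i + 1) with hB₁
  have hcB₁ : B₁.card ≤ 1 := by
    rw [Finset.card_le_one]
    intro i hi j hj
    obtain ⟨hi1, hi2⟩ := Finset.mem_filter.mp hi
    obtain ⟨hj1, hj2⟩ := Finset.mem_filter.mp hj
    by_contra hij
    have h1 : s i = 0 ∨ t i = 0 := by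
      rcases hkind i hi1 with h | h | h
      · exact absurd (Or.inl h) hi2
      · exact absurd (Or.inr h) hi2
      · exact h
    have h2 : s j = 0 ∨ t j = 0 := by
      rcases hkind j hj1 with h | h | h
      · exact absurd (Or.inl h) hj2
      · exact absurd (Or.inr h) hj2
      · exact h
    exact (hsep i hi1 j hj1 hij 0 0 (h1.imp Eq.symm Eq.symm) (h2.imp Eq.symm Eq.symm)).1 rfl
  have hpi : ∀ i ∈ I₁, (π i = s i ∨ π i = t i) ∧ (π i + 1 = s i ∨ π i + 1 = t i) ∧
      (s i = π i ∨ s i = π i + 1) ∧ (t i = π i ∨ t i = π i + 1) ∧ π i + 1 < l := by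
    intro i hi
    obtain ⟨hi1, hi2⟩ := Finset.mem_filter.mp hi
    obtain ⟨h1, h2, -, -⟩ := hst i hi1
    have h3 : π i = min (s i) (t i) := rfl
    rw [h3]
    omega
  have hsep1 : ∀ i ∈ I₁, ∀ j ∈ I₁, i ≠ j → π i ≠ π j ∧ π j ≠ π i + 1 ∧ π j ≠ π i + 2 := by
    intro i hi j hj hij
    have h1 := hpi i hi
    have h2 := hpi j hj
    have hi' := (Finset.mem_filter.mp hi).1
    have hj' := (Finset.mem_filter.mp hj).1
    have h3 := hsep i hi' j hj' hij (π i) (π j) h1.1 h2.1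
    have h4 := hsep i hi' j hj' hij (π i + 1) (π j) h1.2.1 h2.1
    exact ⟨h3.1, fun h => h4.1 h.symm, h4.2⟩
  have hsep2 : ∀ i ∈ I₁, ∀ j ∈ I₁, π i < π j → π i + 3 ≤ π j := by
    intro i hi j hj hij
    have h1 := hsep1 i hi j hj (fun h => by rw [h] at hij; exact lt_irrefl _ hij)
    omega
  set B₂ := I₁.filter fun i => π i ∈ E0 C l u with hB₂
  set I₂ := I₁.filter fun i => π i ∉ E0 C l u with hI₂
  have hcB₂ : B₂.card ≤ 3 * c₀ := by
    refine le_trans ?_ hE0
    refine Finset.card_le_card_of_injOn π ?_ ?_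
    · intro i hi
      exact Finset.mem_coe.mpr (Finset.mem_filter.mp (Finset.mem_coe.mp hi)).2
    · intro i hi j hj hij
      by_contra hne
      exact (hsep1 i (Finset.mem_filter.mp (Finset.mem_coe.mp hi)).1 j
        (Finset.mem_filter.mp (Finset.mem_coe.mp hj)).1 hne).1 hij
  have hcI₂ : (3 * c₀ + 1) * (N₂ + 2) ≤ I₂.card := by
    have h1 : I₁.card + B₁.card = I.card := Finset.card_filter_add_card_filter_not _
    have h2 : B₂.card + I₂.card = I₁.card := Finset.card_filter_add_card_filter_not _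
    have h3 : (3 * c₀ + 1) * (N₂ + 3) = (3 * c₀ + 1) * (N₂ + 2) + (3 * c₀ + 1) := by ring
    omega
  -- pigeonhole
  set ρ : ℕ → ℕ := fun i => ((E0 C l u).filter fun e => e < π i).card with hρ
  obtain ⟨r, -, hr⟩ := Finset.exists_le_card_fiber_of_mul_le_card_of_maps_to
    (s := I₂) (t := Finset.range (3 * c₀ + 1)) (f := ρ) (n := N₂ + 2)
    (fun i _ => by
      rw [Finset.mem_range]
      exact Nat.lt_succ_of_le ((Finset.card_filter_le _ _).trans hE0))
    ⟨0, by rw [Finset.mem_range]; omega⟩ (by rw [Finset.card_range]; exact hcI₂)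
  set I₃ := I₂.filter fun i => ρ i = r with hI₃
  have hI₃ne : I₃.Nonempty := by
    rw [← Finset.card_pos]
    omega
  obtain ⟨i₁, hi₁, hmin⟩ := Finset.exists_min_image I₃ π hI₃ne
  obtain ⟨i₂, hi₂, hmax⟩ := Finset.exists_max_image I₃ π hI₃ne
  have hI₃₁ : ∀ i ∈ I₃, i ∈ I₁ ∧ π i ∉ E0 C l u ∧ ρ i = r := fun i hi => by
    obtain ⟨h1, h2⟩ := Finset.mem_filter.mp hi
    obtain ⟨h3, h4⟩ := Finset.mem_filter.mp h1
    exact ⟨h3, h4, h2⟩
  have hj12 : π i₁ ≤ π i₂ := hmin i₂ hi₂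
  have hgap : ∀ e ∈ E0 C l u, ¬ (π i₁ ≤ e ∧ e ≤ π i₂) := by
    rintro e he ⟨h1, h2⟩
    have h3 : e ≠ π i₁ := fun h => (hI₃₁ i₁ hi₁).2.1 (h ▸ he)
    have h4 : e ≠ π i₂ := fun h => (hI₃₁ i₂ hi₂).2.1 (h ▸ he)
    have h5 : ρ i₁ < ρ i₂ := by
      refine Finset.card_lt_card ?_
      rw [Finset.ssubset_iff_of_subset]
      · exact ⟨e, Finset.mem_filter.mpr ⟨he, by omega⟩, fun h => by
          have := (Finset.mem_filter.mp h).2
          omega⟩
      · intro e' he'
        obtain ⟨h6, h7⟩ := Finset.mem_filter.mp he'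
        exact Finset.mem_filter.mpr ⟨h6, by omega⟩
    rw [(hI₃₁ i₁ hi₁).2.2, (hI₃₁ i₂ hi₂).2.2] at h5
    exact lt_irrefl _ h5
  -- the ends of the run
  have hPex : ∃ α, α ≤ π i₁ ∧ ∀ e ∈ E0 C l u, ¬ (α ≤ e ∧ e ≤ π i₁) :=
    ⟨π i₁, le_rfl, fun e he h => hgap e he ⟨h.1, h.2.trans hj12⟩⟩
  have hQex : ∃ β, π i₂ + 1 ≤ β ∧ (β ∈ E0 C l u ∨ β + 1 = l) := by
    have := (hpi i₂ (hI₃₁ i₂ hi₂).1).2.2.2.2
    exact ⟨l - 1, by omega, Or.inr (by omega)⟩
  set α := Nat.find hPex with hα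
  set β := Nat.find hQex with hβ
  obtain ⟨hα1, hα2⟩ := Nat.find_spec hPex
  obtain ⟨hβ1, hβ2⟩ := Nat.find_spec hQex
  rw [← hα] at hα1 hα2
  rw [← hβ] at hβ1 hβ2
  have hβl : β < l := by
    rcases hβ2 with h | h
    · have := (mem_E0.mp h).1
      omega
    · omega
  refine ⟨α, β, ⟨by omega, hβl, ?_, ?_, ?_⟩, (I₃.erase i₁).erase i₂, ?_, ?_, ?_⟩
  · intro i hi1 hi2
    by_contra hCi
    have hiE : i ∈ E0 C l u := mem_E0.mpr ⟨by omega, hCi⟩
    rcases Nat.le_total i (π i₁) with h | h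
    · exact hα2 i hiE ⟨hi1, h⟩
    · rcases Nat.lt_or_ge (π i₂) i with h' | h'
      · have := Nat.find_min' hQex (m := i) ⟨h', Or.inl hiE⟩
        omega
      · exact hgap i hiE ⟨h, h'⟩
  · intro h0
    have h1 := Nat.find_min hPex (m := α - 1) (by omega)
    push Not at h1
    obtain ⟨e, he, h2⟩ := h1 (by omega)
    have h3 : e = α - 1 := by
      by_contra hne
      exact hα2 e he ⟨by omega, h2.2⟩
    have h4 := (mem_E0.mp he).2
    rw [h3, show α - 1 + 1 = α by omega] at h4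
    exact h4
  · intro h0
    rcases hβ2 with h | h
    · exact (mem_E0.mp h).2
    · omega
  · intro i hi
    have h1 := Finset.mem_of_mem_erase (Finset.mem_of_mem_erase hi)
    exact (Finset.mem_filter.mp (hI₃₁ i h1).1).1
  · have h1 := Finset.pred_card_le_card_erase (s := I₃) (a := i₁)
    have h2 := Finset.pred_card_le_card_erase (s := I₃.erase i₁) (a := i₂)
    omega
  · intro i hi
    have hne2 := Finset.ne_of_mem_erase hi
    have hi' := Finset.mem_of_mem_erase hi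
    have hne1 := Finset.ne_of_mem_erase hi'
    have hi3 := Finset.mem_of_mem_erase hi'
    have h1 := hI₃₁ i hi3
    have h2 := hmin i hi3
    have h3 := hmax i hi3
    have h4 : π i₁ + 3 ≤ π i := hsep2 i₁ (hI₃₁ i₁ hi₁).1 i h1.1
      (lt_of_le_of_ne h2 (hsep1 i₁ (hI₃₁ i₁ hi₁).1 i h1.1 hne1.symm).1)
    have h5 : π i + 3 ≤ π i₂ := hsep2 i h1.1 i₂ (hI₃₁ i₂ hi₂).1
      (lt_of_le_of_ne h3 (hsep1 i h1.1 i₂ (hI₃₁ i₂ hi₂).1 hne2).1)
    have h6 := hpi i h1.1
    obtain ⟨-, -, h7, h8⟩ := hst i (Finset.mem_filter.mp h1.1).1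
    refine ⟨s i, t i, ?_, ?_, ?_, ?_, h7.symm, h8.symm⟩ <;> omega

end Pool.Agent.MPd439b2.W
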