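import Pool.Agent.Lib.MP_d439b2_co.W.SpecU

/-!
# MP_d439b2_co, W, U4: change of sign
-/

set_option autoImplicit false

namespace Pool.Agent.MPd439b2.W

open Pool.Agent.MPd439b2

namespace SgnU

/-- labels of the vertices -/
inductive Lb : Type
  | F (i : ℕ)
  | P (i : ℕ)
  | Q (i : ℕ)
deriving DecidableEq

/-- the index -/
def ix : Lb → ℕ
  | .F i => i
  | .P i => i
  | .Q i => i

/-- adjacency of labels -/
def adj : Lb → Lb → Bool
  | .F i, .P j => decide (i < j)
  | .P j, .F i => decide (i < j)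
  | .F i, .Q j => decide (j < i)
  | .Q j, .F i => decide (j < i)
  | .P i, .Q j => decide (i = j)
  | .Q i, .P j => decide (i = j)
  | .F _, .F _ => false
  | .P _, .P _ => false
  | .Q _, .Q _ => false

/-- the blocks of the spider -/
def G : Fin 8 → Finset Lb :=
  ![{.F 0}, {.P 2}, {.Q 2}, {.P 3}, {.Q 3}, {.P 1}, {.Q 1}, {.F 2, .F 4}]

/-- complete to each other, for labels -/
def CL (A B : Finset Lb) : Prop := ∀ x ∈ A, ∀ y ∈ B, adj x y = true

instance (A B : Finset Lb) : Decidable (CL A B) := by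
  unfold CL
  infer_instance

theorem gne : ∀ i, (G i).Nonempty := by decide

theorem gix : ∀ i, ∀ x ∈ G i, ix x < 6 := by decide

theorem gdis : ∀ i j, i ≠ j → Disjoint (G i) (G j) := by decide

theorem gcmp : ∀ i j, i ≠ j → (CL (G i) (G j) ↔ SA.spE i j) := by decide

/-- the vertex with a label -/
def vt {V : Type} (f p q : ℕ → V) : Lb → V
  | .F i => f i
  | .P i => p i
  | .Q i => q i

section

variable {k : ℕ} {V : Type} {D : SimpleGraph V} {f p q : ℕ → V}

theorem fp (ht : TriFree D) (hI : IM D (k + 6) p q)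
    (h1 : ∀ i < k + 6, ¬ D.Adj (f i) (p i) ∧ ¬ D.Adj (f i) (q i))
    (h2 : ∀ i j, i < j → j < k + 6 → D.Adj (f i) (p j) ∧ D.Adj (f j) (q i))
    {i j : ℕ} (hi : i < k + 6) (hj : j < k + 6) : D.Adj (f i) (p j) ↔ i < j := by
  constructor
  · intro h
    rcases Nat.lt_trichotomy i j with h3 | h3 | h3
    · exact h3
    · subst h3
      exact absurd h (h1 i hi).1
    · exact absurd (hI.edge hj) (ht (f i) (p j) (q j) h (h2 j i h3 hi).2)
  · intro h
    exact (h2 i j h hj).1

theorem fq (ht : TriFree D) (hI : IM D (k + 6) p q)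
    (h1 : ∀ i < k + 6, ¬ D.Adj (f i) (p i) ∧ ¬ D.Adj (f i) (q i))
    (h2 : ∀ i j, i < j → j < k + 6 → D.Adj (f i) (p j) ∧ D.Adj (f j) (q i))
    {i j : ℕ} (hi : i < k + 6) (hj : j < k + 6) : D.Adj (f i) (q j) ↔ j < i := by
  constructor
  · intro h
    rcases Nat.lt_trichotomy i j with h3 | h3 | h3
    · exact absurd (hI.edge hj) (ht (f i) (p j) (q j) (h2 i j h3 hj).1 h)
    · subst h3
      exact absurd h (h1 i hi).2
    · exact h3
  · intro h
    exact (h2 j i h hi).2

/-- adjacency in terms of labels -/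
theorem vadj (ht : TriFree D) (hI : IM D (k + 6) p q)
    (h0 : ∀ i < k + 6, ∀ j < k + 6, ¬ D.Adj (f i) (f j))
    (h1 : ∀ i < k + 6, ¬ D.Adj (f i) (p i) ∧ ¬ D.Adj (f i) (q i))
    (h2 : ∀ i j, i < j → j < k + 6 → D.Adj (f i) (p j) ∧ D.Adj (f j) (q i)) :
    ∀ x y : Lb, ix x < k + 6 → ix y < k + 6 → (D.Adj (vt f p q x) (vt f p q y) ↔ adj x y = true) := by
  intro x y hx hy
  rcases x with i | i | i <;> rcases y with j | j | j <;> change i < k + 6 at hx <;>
    change j < k + 6 at hy
  · show D.Adj (f i) (f j) ↔ false = true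
    exact ⟨fun h => absurd h (h0 i hx j hy), fun h => by cases h⟩
  · show D.Adj (f i) (p j) ↔ decide (i < j) = true
    rw [fp ht hI h1 h2 hx hy, decide_eq_true_iff]
  · show D.Adj (f i) (q j) ↔ decide (j < i) = true
    rw [fq ht hI h1 h2 hx hy, decide_eq_true_iff]
  · show D.Adj (p i) (f j) ↔ decide (j < i) = true
    rw [D.adj_comm, fp ht hI h1 h2 hy hx, decide_eq_true_iff]
  · show D.Adj (p i) (p j) ↔ false = true
    exact ⟨fun h => absurd h (hI i hx j hy).2.1, fun h => by cases h⟩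
  · show D.Adj (p i) (q j) ↔ decide (i = j) = true
    rw [(hI i hx j hy).1, decide_eq_true_iff]
  · show D.Adj (q i) (f j) ↔ decide (i < j) = true
    rw [D.adj_comm, fq ht hI h1 h2 hy hx, decide_eq_true_iff]
  · show D.Adj (q i) (p j) ↔ decide (i = j) = true
    rw [D.adj_comm, (hI j hy i hx).1, decide_eq_true_iff]
    exact eq_comm
  · show D.Adj (q i) (q j) ↔ false = true
    exact ⟨fun h => absurd h (hI i hx j hy).2.2, fun h => by cases h⟩

theorem third {k i j : ℕ} : ∃ l < k + 6, l ≠ i ∧ l ≠ j := by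
  by_cases h0 : (0 : ℕ) ≠ i ∧ (0 : ℕ) ≠ j
  · exact ⟨0, by omega, h0⟩
  · by_cases h1 : (1 : ℕ) ≠ i ∧ (1 : ℕ) ≠ j
    · exact ⟨1, by omega, h1⟩
    · exact ⟨2, by omega, by omega, by omega⟩

/-- different labels have different vertices -/
theorem vinj (hI : IM D (k + 6) p q)
    (h1 : ∀ i < k + 6, ¬ D.Adj (f i) (p i) ∧ ¬ D.Adj (f i) (q i))
    (h2 : ∀ i j, i < j → j < k + 6 → D.Adj (f i) (p j) ∧ D.Adj (f j) (q i)) :
    ∀ x y : Lb, ix x < k + 6 → ix y < k + 6 → vt f p q x = vt f p q y → x = y := by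
  have hff : ∀ i j, i < j → j < k + 6 → f i ≠ f j := by
    intro i j hij hj he
    have h3 := (h2 i j hij hj).1
    rw [he] at h3
    exact (h1 j hj).1 h3
  have hfp : ∀ i j, i < k + 6 → j < k + 6 → f i ≠ p j ∧ f i ≠ q j := by
    intro i j hi hj
    obtain ⟨l, hl, hli, hlj⟩ := third (k := k) (i := i) (j := j)
    have h3 : D.Adj (f i) (p l) ∨ D.Adj (f i) (q l) := by
      rcases Nat.lt_or_gt_of_ne hli with h4 | h4
      · exact Or.inr (h2 l i h4 hi).2
      · exact Or.inl (h2 i l h4 hl).1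
    constructor
    · intro he
      rw [he] at h3
      rcases h3 with h3 | h3
      · exact (hI j hj l hl).2.1 h3
      · exact hlj ((hI j hj l hl).1.1 h3).symm
    · intro he
      rw [he] at h3
      rcases h3 with h3 | h3
      · exact hlj ((hI l hl j hj).1.1 h3.symm)
      · exact (hI j hj l hl).2.2 h3
  intro x y hx hy he
  rcases x with i | i | i <;> rcases y with j | j | j
  · have he' : f i = f j := he
    rcases Nat.lt_trichotomy i j with h3 | h3 | h3
    · exact absurd he' (hff i j h3 hy)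
    · rw [h3]
    · exact absurd he'.symm (hff j i h3 hx)
  · exact absurd he (hfp i j hx hy).1
  · exact absurd he (hfp i j hx hy).2
  · exact absurd he.symm (hfp j i hy hx).1
  · have h3 := hI.inj_a (i := i) (j := j) hx hy he
    rw [h3]
  · exact absurd he (hI.ne_ab (i := i) (j := j) hx hy)
  · exact absurd he.symm (hfp j i hy hx).2
  · exact absurd he.symm (hI.ne_ab (i := j) (j := i) hy hx)
  · have h3 := hI.inj_b (i := i) (j := j) hx hy he
    rw [h3]

end

theorem ncl {A B : Finset Lb} (x y : Lb) (hx : x ∈ A) (hy : y ∈ B) (h : adj x y = false) :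
    ¬ CL A B := by
  intro h1
  have h2 := h1 x hx y hy
  rw [h] at h2
  cases h2

theorem e8 : ∀ i : Fin 8, i = 0 ∨ i = 1 ∨ i = 2 ∨ i = 3 ∨ i = 4 ∨ i = 5 ∨ i = 6 ∨ i = 7 := by
  decide

theorem g5 : ∀ i, ∀ x ∈ G i, ix x < 5 := by decide

theorem gP (i : Fin 8) (t : ℕ) : Disjoint (G i) {Lb.P (t + 5), Lb.F (t + 6)} ∧
    ¬ CL (G i) {Lb.P (t + 5), Lb.F (t + 6)} := by
  have hd : ∀ x ∈ G i, x ≠ Lb.P (t + 5) ∧ x ≠ Lb.F (t + 6) := by
    intro x hx
    have h1 : ix x < 5 := g5 i x hx
    constructor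
    · intro he
      rw [he] at h1
      have : t + 5 < 5 := h1
      omega
    · intro he
      rw [he] at h1
      have : t + 6 < 5 := h1
      omega
  refine ⟨?_, ?_⟩
  · rw [Finset.disjoint_left]
    intro x hx h2
    rw [Finset.mem_insert, Finset.mem_singleton] at h2
    rcases h2 with h2 | h2
    · exact (hd x hx).1 h2
    · exact (hd x hx).2 h2
  · have hP : Lb.P (t + 5) ∈ ({Lb.P (t + 5), Lb.F (t + 6)} : Finset Lb) := Finset.mem_insert_self _ _
    have hF : Lb.F (t + 6) ∈ ({Lb.P (t + 5), Lb.F (t + 6)} : Finset Lb) :=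
      Finset.mem_insert_of_mem (Finset.mem_singleton_self _)
    have hq : ∀ c < 5, adj (Lb.Q c) (Lb.P (t + 5)) = false := by
      intro c hc
      show decide (c = t + 5) = false
      exact decide_eq_false (by omega)
    rcases e8 i with h | h | h | h | h | h | h | h <;> subst h
    · exact ncl (Lb.F 0) _ (by decide) hF rfl
    · exact ncl (Lb.P 2) _ (by decide) hP rfl
    · exact ncl (Lb.Q 2) _ (by decide) hP (hq 2 (by omega))
    · exact ncl (Lb.P 3) _ (by decide) hP rfl
    · exact ncl (Lb.Q 3) _ (by decide) hP (hq 3 (by omega))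
    · exact ncl (Lb.P 1) _ (by decide) hP rfl
    · exact ncl (Lb.Q 1) _ (by decide) hP (hq 1 (by omega))
    · exact ncl (Lb.F 2) _ (by decide) hF rfl

theorem gQ (i : Fin 8) (t : ℕ) : Disjoint (G i) {Lb.Q (t + 5)} ∧ ¬ CL (G i) {Lb.Q (t + 5)} := by
  have h5 := g5
  have hQ : Lb.Q (t + 5) ∈ ({Lb.Q (t + 5)} : Finset Lb) := Finset.mem_singleton_self _
  refine ⟨?_, ?_⟩
  · rw [Finset.disjoint_left]
    intro x hx h2
    rw [Finset.mem_singleton] at h2
    have h1 := h5 i x hx
    rw [h2] at h1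
    have : t + 5 < 5 := h1
    omega
  · obtain ⟨x, hx⟩ := gne i
    have h1 := h5 i x hx
    refine ncl x _ hx hQ ?_
    rcases x with c | c | c
    · show decide (t + 5 < c) = false
      have h2 : c < 5 := h1
      exact decide_eq_false (by omega)
    · show decide (c = t + 5) = false
      have h2 : c < 5 := h1
      exact decide_eq_false (by omega)
    · rfl

end SgnU

open SgnU in
theorem sgn : S_Sgn := by
  classical
  intro k V D f p q ht hI h0 h1 h2 hS
  have hadj := vadj ht hI h0 h1 h2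
  have hinj := vinj hI h1 h2
  have hc : ∀ A B : Finset Lb, (∀ x ∈ A, ix x < k + 6) → (∀ x ∈ B, ix x < k + 6) →
      (Cmp D (A.image (vt f p q)) (B.image (vt f p q)) ↔ CL A B) := by
    intro A B hA hB
    constructor
    · intro h x hx y hy
      exact (hadj x y (hA x hx) (hB y hy)).1
        (h _ (Finset.mem_image_of_mem _ hx) _ (Finset.mem_image_of_mem _ hy))
    · intro h u hu v hv
      obtain ⟨x, hx, hxu⟩ := Finset.mem_image.1 hu
      obtain ⟨y, hy, hyv⟩ := Finset.mem_image.1 hv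
      rw [← hxu, ← hyv]
      exact (hadj x y (hA x hx) (hB y hy)).2 (h x hx y hy)
  have hd : ∀ A B : Finset Lb, (∀ x ∈ A, ix x < k + 6) → (∀ x ∈ B, ix x < k + 6) →
      Disjoint A B → Disjoint (A.image (vt f p q)) (B.image (vt f p q)) := by
    intro A B hA hB h
    rw [Finset.disjoint_left]
    intro u hu hv
    obtain ⟨x, hx, hxu⟩ := Finset.mem_image.1 hu
    obtain ⟨y, hy, hyv⟩ := Finset.mem_image.1 hv
    have he := hinj x y (hA x hx) (hB y hy) (hxu.trans hyv.symm)
    rw [he] at hx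
    exact Finset.disjoint_left.1 h hx hy
  have bG : ∀ i, ∀ x ∈ G i, ix x < k + 6 := fun i x hx => by
    have := gix i x hx
    omega
  have bP : ∀ t < k, ∀ x ∈ ({Lb.P (t + 5), Lb.F (t + 6)} : Finset Lb), ix x < k + 6 := by
    intro t htk x hx
    rw [Finset.mem_insert, Finset.mem_singleton] at hx
    rcases hx with hx | hx
    · rw [hx]
      show t + 5 < k + 6
      omega
    · rw [hx]
      show t + 6 < k + 6
      omega
  have bQ : ∀ t < k, ∀ x ∈ ({Lb.Q (t + 5)} : Finset Lb), ix x < k + 6 := by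
    intro t htk x hx
    rw [Finset.mem_singleton] at hx
    rw [hx]
    show t + 5 < k + 6
    omega
  have mP : ∀ t : ℕ, Lb.P (t + 5) ∈ ({Lb.P (t + 5), Lb.F (t + 6)} : Finset Lb) :=
    fun t => Finset.mem_insert_self _ _
  have mQ : ∀ t : ℕ, Lb.Q (t + 5) ∈ ({Lb.Q (t + 5)} : Finset Lb) := fun t => Finset.mem_singleton_self _
  refine hS (fun i => (G i).image (vt f p q))
    (fun t => ({Lb.P (t + 5), Lb.F (t + 6)} : Finset Lb).image (vt f p q))
    (fun t => ({Lb.Q (t + 5)} : Finset Lb).image (vt f p q)) ?_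
  refine
    { gne := fun i => (gne i).image _
      pne := fun t _ => ⟨_, Finset.mem_image_of_mem _ (mP t)⟩
      qne := fun t _ => ⟨_, Finset.mem_image_of_mem _ (mQ t)⟩
      gdis := fun i j hij => hd _ _ (bG i) (bG j) (gdis i j hij)
      gcmp := fun i j hij => (hc _ _ (bG i) (bG j)).trans (gcmp i j hij)
      gp := fun i t htk => ⟨hd _ _ (bG i) (bP t htk) (gP i t).1,
        fun h => (gP i t).2 ((hc _ _ (bG i) (bP t htk)).1 h)⟩
      gq := fun i t htk => ⟨hd _ _ (bG i) (bQ t htk) (gQ i t).1,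
        fun h => (gQ i t).2 ((hc _ _ (bG i) (bQ t htk)).1 h)⟩
      pq := fun t htk => ⟨hd _ _ (bP t htk) (bQ t htk) ?_, (hc _ _ (bP t htk) (bQ t htk)).2 ?_⟩
      pp := fun t htk u huk htu => ⟨hd _ _ (bP t htk) (bP u huk) ?_,
        fun h => ncl _ _ (mP t) (mP u) rfl ((hc _ _ (bP t htk) (bP u huk)).1 h)⟩
      px := fun t htk u huk htu => ⟨hd _ _ (bP t htk) (bQ u huk) ?_,
        fun h => ncl _ _ (mP t) (mQ u) (decide_eq_false (by omega)) ((hc _ _ (bP t htk) (bQ u huk)).1 h)⟩
      qq := fun t htk u huk htu => ⟨hd _ _ (bQ t htk) (bQ u huk) ?_,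
        fun h => ncl _ _ (mQ t) (mQ u) rfl ((hc _ _ (bQ t htk) (bQ u huk)).1 h)⟩ }
  · rw [Finset.disjoint_left]
    intro x hx hy
    rw [Finset.mem_singleton] at hy
    rw [hy, Finset.mem_insert, Finset.mem_singleton] at hx
    rcases hx with hx | hx <;> cases hx
  · intro x hx y hy
    rw [Finset.mem_singleton] at hy
    rw [Finset.mem_insert, Finset.mem_singleton] at hx
    rcases hx with hx | hx
    · rw [hx, hy]
      exact decide_eq_true rfl
    · rw [hx, hy]
      exact decide_eq_true (by omega)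
  · rw [Finset.disjoint_left]
    intro x hx hy
    rw [Finset.mem_insert, Finset.mem_singleton] at hx hy
    rcases hx with hx | hx <;> rcases hy with hy | hy <;> rw [hx] at hy
    · have h3 := Lb.P.inj hy
      omega
    · cases hy
    · cases hy
    · have h3 := Lb.F.inj hy
      omega
  · rw [Finset.disjoint_left]
    intro x hx hy
    rw [Finset.mem_singleton] at hy
    rw [hy, Finset.mem_insert, Finset.mem_singleton] at hx
    rcases hx with hx | hx <;> cases hx
  · rw [Finset.disjoint_left]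
    intro x hx hy
    rw [Finset.mem_singleton] at hx hy
    rw [hx] at hy
    have h3 := Lb.Q.inj hy
    omega

end Pool.Agent.MPd439b2.W
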