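import Pool.Agent.Lib.MP_d439b2_co.W.Defs

/-!
# MP_d439b2_co, W, Spec A: carvings, the skeleton of an ordered set, closed bundles (helper28)

Every `S_...` is a statement to be proved in its own file; the docstring contains the complete proof.
-/

set_option autoImplicit false

namespace Pool.Agent.MPd439b2.W

open Pool.Agent.MPd439b2

/-- **A1.** The carving lemma.

Proof. Suppose that no `Z` is `Bad`.  CLAIM: every `Z` with `wt w Z Zᶜ ≤ N` satisfies `Carv w N Z`; apply it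
to `Finset.univ` (`wt w univ ∅ = 0`).  Strong induction on `Z.card`.  `Z = ∅`: `Carv.empty`; `Z = {x}`:
`Carv.single`.  Let `2 ≤ Z.card`.
(1) `wt w Z Zᶜ + Δ ≤ N`: take `x ∈ Z`, `Y = Z \ {x}`.  `wt w {x} {x}ᶜ ≤ Δ ≤ N`, and
`wt w Y Yᶜ ≤ wt w Z Zᶜ + wt w Y {x} ≤ wt w Z Zᶜ + wt w {x} {x}ᶜ ≤ N` (`Yᶜ = Zᶜ ∪ {x}`, symmetry of `w`).
Both sets are smaller than `Z`, so they have carvings; `Carv.union`.
(2) `N < wt w Z Zᶜ + Δ`: as `Z` is not `Bad` there is `Y ⊆ Z` with `wt w Y (Z \ Y) < wt w Y Zᶜ` and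
`wt w Y (Z \ Y) < wt w (Z \ Y) Zᶜ`.  So `Y` and `Z \ Y` are not empty.  `Yᶜ = Zᶜ ∪ (Z \ Y)`, so
`wt w Y Yᶜ = wt w Y Zᶜ + wt w Y (Z \ Y) < wt w Y Zᶜ + wt w (Z \ Y) Zᶜ = wt w Z Zᶜ ≤ N`, and in the same way
(`wt w (Z \ Y) Y = wt w Y (Z \ Y)` by symmetry) `wt w (Z \ Y) (Z \ Y)ᶜ ≤ N`.  Induction and `Carv.union`. -/
def S_Carve : Prop := ∀ (α : Type) [Fintype α] [DecidableEq α] (w : α → α → ℕ) (Δ N : ℕ),
  (∀ x y, w x y = w y x) → (∀ x, wt w {x} {x}ᶜ ≤ Δ) → Δ ≤ N →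
    Carv w N Finset.univ ∨ ∃ Z, Bad w Δ N Z

/-- **A2.** Few disjoint connected sets cross a small boundary.

Proof. For `i ∈ I` apply `Conn` of `Q i` to the subset `Q i ∩ B` (nonempty, not all of `Q i`): there are
`x i ∈ Q i ∩ B` and `y i ∈ Q i \ B` with `Γ.Adj (x i) (y i)`.  The pairs `(x i, y i)` are different for
different `i` (the sets `Q i` are disjoint), and they belong to `{p ∈ B ×ˢ Bᶜ | Γ.Adj p.1 p.2}`, whose number
of elements is `wt (ind Γ) B Bᶜ` (`Finset.card_filter`, `Finset.sum_product`). -/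
def S_Cross : Prop := ∀ (α : Type) [Fintype α] [DecidableEq α] (Γ : SimpleGraph α) (B : Finset α)
  (I : Finset ℕ) (Q : ℕ → Finset α), (∀ i ∈ I, Conn Γ (Q i : Set α)) →
  (∀ i ∈ I, ∀ j ∈ I, i ≠ j → Disjoint (Q i) (Q j)) →
  (∀ i ∈ I, (Q i ∩ B).Nonempty ∧ (Q i \ B).Nonempty) → I.card ≤ wt (ind Γ) B Bᶜ

/-- **A3.** Disjoint regions (uses A2).

Proof. Call a set `R` a region if `wt (ind Γ) R Rᶜ ≤ 2 g`.  For a set `A` write `m(A)` for the number of
`i < M'` with `Q i ⊆ A`.  INVARIANT: for every `A` with `Carv (ind Γ) g A` there are `B ⊆ A`, a number `ν`, a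
finite set `J` of indices `< M'` and sets `R i` (`i ∈ J`) such that
(i) `wt (ind Γ) B Bᶜ ≤ g`, and no `Q i` is contained in `A \ B`;
(ii) `Q i ⊆ R i ⊆ B`, `R i` is a region (`i ∈ J`), the sets `R i` are pairwise disjoint;
(iii) `ν = 0`, `B = ∅`, `J = ∅`, or `1 ≤ ν`, `ν + 1 ≤ 2 |J|` and `m(B) + g ≤ 2 g ν`.
Note that (i) and (iii) give `m(A) ≤ 2 g ν`: if `Q i ⊆ A` and not `Q i ⊆ B` then `Q i` meets `B` (by (i)) and
`A \ B`, so by A2 there are at most `wt B Bᶜ ≤ g` such `i`, so `m(A) ≤ m(B) + g`; if `B = ∅` then `m(A) = 0`.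
Induction on `Carv`:
`A = ∅`: `ν = 0`, `B = ∅`.  `A = {x}`: if no `Q i` is contained in `A`: `ν = 0`, `B = ∅`; otherwise one `Q i` is,
exactly one (they are disjoint and nonempty): `B = A`, `R i = A`, `J = {i}`, `ν = 1`: `m(B) + g = 1 + g ≤ 2 g`.
`A = A₁ ∪ A₂` with `(B₁, ν₁, J₁, R₁)`, `(B₂, ν₂, J₂, R₂)`.  `wt A Aᶜ ≤ g`.  Let `q` be the number of `i` with
`Q i ⊆ A` and neither `Q i ⊆ A₁` nor `Q i ⊆ A₂`; these `Q i` meet `A₁` and `A₂`, so `q ≤ wt A₁ A₁ᶜ ≤ g` by A2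
(if `A₁` is `∅` or a carving set its boundary is at most `g` in all cases, as every set with a carving has a
boundary of at most `g`; prove this first by cases on `Carv`).
(a) `ν₁, ν₂ ≥ 1`: `B = A`, `J = J₁ ∪ J₂` (disjoint as `Q i ⊆ A₁`, `Q i ⊆ A₂` are exclusive), `ν = ν₁ + ν₂ + 1`:
`ν + 1 = (ν₁ + 1) + (ν₂ + 1) ≤ 2 |J|`; `m(A) + g ≤ m(A₁) + m(A₂) + q + g ≤ 2 g ν₁ + 2 g ν₂ + 2 g`.
(b) `ν₂ = 0` (`B₂ = ∅`, so no `Q i` is contained in `A₂`), `ν₁ ≥ 1`: if no `Q i` is contained in `A \ B₁` keep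
`B = B₁`, `ν = ν₁`, `J = J₁`.  Otherwise choose such an `i`, `R i = A \ B₁`: its boundary is at most
`wt A Aᶜ + wt B₁ B₁ᶜ ≤ 2 g` (`(A \ B₁)ᶜ ⊆ Aᶜ ∪ B₁`, and `wt (A \ B₁) B₁ ≤ wt B₁ᶜ B₁ = wt B₁ B₁ᶜ`);
`B = A`, `J = J₁ ∪ {i}`, `ν = ν₁ + 1`: `m(A) + g ≤ m(A₁) + q + g ≤ 2 g ν₁ + 2 g`.
(c) `ν₁ = 0`, `ν₂ ≥ 1`: the same.  (d) `ν₁ = ν₂ = 0`: no `Q i` is contained in `A₁` or in `A₂`, so `m(A) ≤ q ≤ g`.
If `m(A) = 0` then `B = ∅`, `ν = 0`; otherwise `B = A`, `R i = A`, `J = {i}`, `ν = 1`.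
For `A = univ`: `m(A) = M' ≤ 2 g ν`.  If `M = 0` there is nothing to show.  Otherwise `4 g M ≤ 2 g ν`, so
`2 M ≤ ν ≤ 2 |J| - 1`, so `M ≤ |J|`; enumerate `J`. -/
def S_Reg : Prop := ∀ (α : Type) [Fintype α] [DecidableEq α] (Γ : SimpleGraph α) (g M M' : ℕ)
  (Q : ℕ → Finset α), 1 ≤ g → Carv (ind Γ) g Finset.univ → (∀ i < M', Conn Γ (Q i : Set α)) →
  (∀ i < M', ∀ j < M', i ≠ j → Disjoint (Q i) (Q j)) → 4 * g * M ≤ M' →
  ∃ (j : ℕ → ℕ) (R : ℕ → Finset α),
    (∀ k < M, j k < M' ∧ Q (j k) ⊆ R k ∧ wt (ind Γ) (R k) (R k)ᶜ ≤ 2 * g) ∧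
    ∀ k < M, ∀ l < M, k ≠ l → j k ≠ j l ∧ Disjoint (R k) (R l)

/-- **B1.** The skeleton has degrees at most `2 n`.

Proof. `wt (ind Γ) {x} A` is the number of the neighbours of `x` in `A`.  To a neighbour `y` of `x` assign
`(c y, true)` if `Cons c U x y` or `Ess c x y`, and `(c y, false)` otherwise (then `Cons c U y x` or
`Ess c y x`).  This map to `Fin n × Bool` is injective: let `y, y'` have the same value.
`true`, `c y = c x`: `Ess` is excluded, so `Cons c U x y` and `Cons c U x y'`, hence `y ≤ y'` and `y' ≤ y`.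
`true`, `c y ≠ c x`: `Ess c x y`, `Ess c x y'`; the last condition of `Ess c x y` for `z = y'` gives `y ≤ y'`,
and conversely.  `false`, `c y = c x`: `Cons c U y x`, `Cons c U y' x`, and `y, y'` are comparable (`ChainP`); if
`y < y'` then `x ≤ y' < x`: contradiction; the same for `y' < y`.  `false`, `c y ≠ c x`: the third
condition of `Ess c y x` for `z = y'` gives `y' ≤ y`, and conversely. -/
def S_Deg : Prop := ∀ (n : ℕ) (α : Type) [Fintype α] [DecidableEq α] [PartialOrder α]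
  (c : α → Fin n) (U : Finset α), ChainP c → ∀ (x : α) (A : Finset α),
    wt (ind (Gam c U)) {x} A ≤ 2 * n

/-- **B2.** Bad sets are well linked (uses B1).

Proof. Write `Γ = Gam c U`, `Γ' = Gam c (Z ∩ U)`, `S = {x ∈ Z | ∃ y ∉ Z, Γ.Adj x y}`; `S ⊆ Z ∩ U` as adjacent
vertices are in `U`.  `wt (ind Γ) Z Zᶜ = ∑ x ∈ S, wt (ind Γ) {x} Zᶜ ≤ 2 n |S|` by B1 (elements of `Z \ S` have no
neighbours in `Zᶜ`), so `N < wt Z Zᶜ + 2 n ≤ 2 n (|S| + 1)`.
Let `Y ⊆ Z ∩ U`, `|S| ≤ b |Y ∩ S|`, `|S| ≤ b |S \ Y|`.  Every element of `Y ∩ S` has a neighbour in `Zᶜ`, so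
`|Y ∩ S| ≤ wt (ind Γ) Y Zᶜ`; in the same way `|S \ Y| ≤ wt (ind Γ) (Z \ Y) Zᶜ`.  So
`|S| ≤ b * min (wt Y Zᶜ) (wt (Z \ Y) Zᶜ) ≤ b * wt (ind Γ) Y (Z \ Y)`.  Finally
`wt (ind Γ) Y (Z \ Y) ≤ wt (ind Γ') Y ((Z ∩ U) \ Y)`: a vertex of `Z \ Y` outside `U` has no neighbours, and if
`Γ.Adj x y` with `x, y ∈ Z ∩ U` then `Γ'.Adj x y` (`Cons c U x y` implies `Cons c (Z ∩ U) x y`; `Ess` does not
depend on `U`). -/
def S_BadWL : Prop := ∀ (n : ℕ) (α : Type) [Fintype α] [DecidableEq α] [PartialOrder α]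
  (c : α → Fin n) (U Z : Finset α) (N b : ℕ), ChainP c → Bad (ind (Gam c U)) (2 * n) N Z →
  ∃ S, WL c (Z ∩ U) S b b ∧ N < 2 * n * (S.card + 1)

/-- **C1.** Many disjoint paths from the lower half to the upper half of a chain (uses B1 and Menger's
theorem `GT.pMen : GT.SMen` of `GT/Men.lean`).

Proof. `S` is not empty.  By pigeonhole there is `i` such that `S_i = {x ∈ S | c x = i}` satisfies
`|S| ≤ n |S_i|`.  `S_i` is a chain; there is `t ∈ S_i` such that exactly `⌈|S_i| / 2⌉` elements of `S_i` are `≤ t`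
(for a nonempty finite chain; e.g. choose `t` minimal in `S_i` with `|S_i| ≤ 2 |{x ∈ S_i | x ≤ t}|`; then
`2 |{x ∈ S_i | x < t}| < |S_i|`).  Let `A = {x ∈ U | c x = i ∧ x ≤ t}`,
`B = {x ∈ U | c x = i ∧ ¬ x ≤ t}`; for `x ∈ A`, `y ∈ B`: `t < y` (chain), so `x < y`.
`|S_i| ≤ 2 |A ∩ S|` and `|S_i| ≤ 2 |B ∩ S| + 1`.
By `GT.pMen` (with `G = Gam c U`, `k = M + 1`) it is enough to show `M + 1 ≤ |X|` for every `GT.Cut G A B L X`.
Suppose `|X| ≤ M`.  `Y = L ∩ U`.  As `A ⊆ L ∪ X`: `|A ∩ S| ≤ |Y ∩ S| + M`; as `B` is disjoint from `L`: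
`B ∩ S ⊆ S \ Y`.  So `4 n |Y ∩ S| ≥ 4 n |A ∩ S| - 4 n M ≥ 2 n |S_i| - 4 n M ≥ 2 |S| - 4 n M ≥ |S|` and
`4 n |S \ Y| ≥ 4 n |B ∩ S| ≥ 2 n |S_i| - 2 n ≥ 2 |S| - 2 n ≥ |S|` (as `4 n (M + 1) < |S|`).  `WL` gives
`|S| ≤ q * wt (ind G) Y (U \ Y)`.  By `Cut.far` a neighbour of a vertex of `L` which is not in `L` is in `X`, so
`wt (ind G) Y (U \ Y) ≤ wt (ind G) Y X = wt (ind G) X Y ≤ 2 n |X| ≤ 2 n M` (B1).  So `|S| ≤ 2 n q M`:
contradiction. -/
def S_LinkA : Prop := ∀ (n q M : ℕ) (α : Type) [Fintype α] [DecidableEq α] [PartialOrder α]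
  (c : α → Fin n) (U S : Finset α), ChainP c → WL c U S (4 * n) q →
  (4 * n + 2 * n * q) * (M + 1) < S.card →
  ∃ (i : Fin n) (A B : Finset α) (ν : Fin (M + 1) → ℕ) (p : Fin (M + 1) → ℕ → α),
    (∀ x ∈ U, c x = i → x ∈ A ∨ x ∈ B) ∧ (∀ x ∈ A, x ∈ U ∧ c x = i) ∧
    (∀ x ∈ B, x ∈ U ∧ c x = i) ∧ (∀ x ∈ A, ∀ y ∈ B, x < y) ∧
    GT.Lkg (Gam c U) A B (M + 1) ν p

/-- **C2.** Trimming the paths.

Proof. Write `U' = U.filter (c · ≠ i)`.  Let `k : Fin (M + 1)`.  `p k 0 ∈ A`, `p k (ν k) ∈ B`, and `A`, `B` are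
disjoint.  Let `σ k` be the largest index `s ≤ ν k` with `p k s ∈ A`; `σ k < ν k`; let `τ k` be the smallest
index `t > σ k` with `p k t ∈ B`, `t ≤ ν k`.  For `σ k < s < τ k` the vertex `p k s` is in `U` (it has a
neighbour in `Gam c U`) and neither in `A` nor in `B`, so `c (p k s) ≠ i`: `p k s ∈ U'`.
(1) At most one `k` satisfies `τ k = σ k + 1`: then `x = p k (σ k) ∈ A`, `y = p k (τ k) ∈ B` are adjacent and in the
same chain, so `Cons c U x y` (`Ess` needs different chains, and `Cons c U y x` contradicts `x < y`).  Let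
`Cons c U x' y'` come from `k' ≠ k`; `x, x'` are in the chain `i`, different (the paths are disjoint), say
`x < x'` (`ChainP`); then `y ≤ x'` by the last condition of `Cons`, but `x' ∈ A`, `y ∈ B`: `x' < y`:
contradiction.
(2) So there is an injection `f` from `{0, .., M - 1}` to the other indices.  For `k' = f k` let
`a k = p k' (σ k')`, `b k = p k' (τ k')`, `Q k = {p k' s | σ k' < s < τ k'}`, not empty.  `Q k ⊆ U'`.  Consecutive
elements are adjacent in `Gam c U`, and hence in `Gam c U'`: `Cons c U x y` with `x, y ∈ U'` implies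
`Cons c U' x y`.  So `Q k` is connected (`Conn`: for a nonempty proper subset `T` there is an index `s` such that
exactly one of `p k' s`, `p k' (s + 1)` is in `T`).  `x = p k' (σ k' + 1) ∈ Q k` is adjacent to `a k` and in a
different chain, so `Ess c (a k) x` or `Ess c x (a k)`; the same for `y = p k' (τ k' - 1)` and `b k`. -/
def S_LinkB : Prop := ∀ (n M : ℕ) (α : Type) [Fintype α] [DecidableEq α] [PartialOrder α]
  (c : α → Fin n) (U : Finset α) (i : Fin n) (A B : Finset α) (ν : Fin (M + 1) → ℕ)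
  (p : Fin (M + 1) → ℕ → α), ChainP c → (∀ x ∈ U, c x = i → x ∈ A ∨ x ∈ B) →
  (∀ x ∈ A, x ∈ U ∧ c x = i) → (∀ x ∈ B, x ∈ U ∧ c x = i) → (∀ x ∈ A, ∀ y ∈ B, x < y) →
  GT.Lkg (Gam c U) A B (M + 1) ν p →
  ∃ (a b : ℕ → α) (Q : ℕ → Finset α), (∀ k < M, a k ∈ U ∧ c (a k) = i ∧ c (b k) = i) ∧
    (∀ k < M, ∀ l < M, a k < b l) ∧
    (∀ k < M, ∀ l < M, k ≠ l → a k ≠ a l ∧ b k ≠ b l ∧ Disjoint (Q k) (Q l)) ∧
    ∀ k < M, Q k ⊆ U.filter (fun x => c x ≠ i) ∧
      Conn (Gam c (U.filter (fun x => c x ≠ i))) (Q k : Set α) ∧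
      (∃ x ∈ Q k, Ess c (a k) x ∨ Ess c x (a k)) ∧ ∃ y ∈ Q k, Ess c (b k) y ∨ Ess c y (b k)

/-- **C3.** The number of the runs of `R`.

Proof. For `x ∈ T` let `K x = {z ∈ U | c z = c x, x < z, z ∉ R}`.  If `K x = ∅` let `φ x = Sum.inl (c x)`.
Otherwise let `z` be the smallest element of `K x` (`K x` is a nonempty finite chain), and `y` the largest element
of `{y ∈ U | c y = c x, y < z}` (it contains `x`).  `Cons c U y z`.  `y ∈ R`: otherwise `y ≠ x`, so `x < y`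
(`x ≤ y` as `y` is the largest), so `y ∈ K x`, `y < z`: contradiction.  `φ x = Sum.inr (y, z)`, an element of
`{p ∈ R ×ˢ Rᶜ | (Gam c U).Adj p.1 p.2}`, a set with `wt (ind (Gam c U)) R Rᶜ` elements.  It remains to show that
`φ` is injective on `T`.  Let `φ x = φ x'`, `x ≠ x'`; they are in the same chain; by symmetry `x < x'`.  Let
`u ∈ U`, `c u = c x`, `x ≤ u ≤ x'`.  We show `u ∈ R`, so `Run c U R x x'`, contradiction.  `u = x`: clear.  If
`x < u` and `u ∉ R` then `u ∈ K x`, so `φ x = Sum.inr (y, z)` with `z ≤ u ≤ x'`; but `φ x' = Sum.inr (y, z)` gives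
`z ∈ K x'`, `x' < z`: contradiction.  (The alternative `x' ≤ u ≤ x` of `Run` is impossible as `x < x'`.) -/
def S_Runs : Prop := ∀ (n : ℕ) (α : Type) [Fintype α] [DecidableEq α] [PartialOrder α]
  (c : α → Fin n) (U R T : Finset α), ChainP c → (∀ x ∈ T, x ∈ U ∧ x ∈ R) →
  (∀ x ∈ T, ∀ y ∈ T, x ≠ y → ¬ Run c U R x y) →
  T.card ≤ n + wt (ind (Gam c U)) R Rᶜ

/-- **C4.** Rerouting inside a region (uses C3).

Proof. `Run c U R` is reflexive on `U ∩ R`, symmetric and transitive (for `Run a b`, `Run b d` and `z ∈ U` in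
their chain between `a` and `d`: compare `z` with `b`, by `ChainP` it is between `a` and `b` or between `b` and
`d`).  Call `(s, a, b)` admissible if `1 ≤ s`, `a 0 = x`, `b (s - 1) = y`, `Run c U R (a j) (b j)` for `j < s`, and
for `j + 1 < s`: `Run c U R (b j) (a (j + 1))` or `Ess c (b j) (a (j + 1))` or `Ess c (a (j + 1)) (b j)`.
There is an admissible triple: the set of the `y' ∈ Q` for which there is an admissible triple with last point
`y'` contains `x` (`s = 1`, `a 0 = b 0 = x`) and is closed under adjacency in `Q`: if `y' ∈ Q` is adjacent to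
`u ∈ Q` in `Gam c U` append `a s = b s = u` (`Cons c U y' u` implies `Run c U R y' u`: an element of `U` in the
chain between them is one of them); so it is `Q` (otherwise apply `Conn` to it).
Choose an admissible triple with minimal `s`.  If `j < j' < s` then not `Run c U R (a j) (a j')`: otherwise
`Run c U R (a j) (b j')` (transitivity), and the triple `a 0, b 0, .., a (j - 1), b (j - 1), a j, b j',
a (j' + 1), b (j' + 1), ..` is admissible and shorter.  In particular `Run c U R (b j) (a (j + 1))` is impossible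
(with `Run (a j) (b j)` it gives `Run (a j) (a (j + 1))`), and the elements `a j`, `j < s`, are different and
pairwise not in the same run: C3 for `T = {a 0, .., a (s - 1)}` gives `s ≤ n + h`. -/
def S_Reroute : Prop := ∀ (n : ℕ) (α : Type) [Fintype α] [DecidableEq α] [PartialOrder α]
  (c : α → Fin n) (U R Q : Finset α) (h : ℕ) (x y : α), ChainP c →
  wt (ind (Gam c U)) R Rᶜ ≤ h → Q ⊆ R → Q ⊆ U → Conn (Gam c U) (Q : Set α) → x ∈ Q → y ∈ Q →
  ∃ (s : ℕ) (a b : ℕ → α), 1 ≤ s ∧ s ≤ n + h ∧ a 0 = x ∧ b (s - 1) = y ∧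
    (∀ j < s, Run c U R (a j) (b j)) ∧
    ∀ j, j + 1 < s → Ess c (b j) (a (j + 1)) ∨ Ess c (a (j + 1)) (b j)

/-- **C5.** Pigeonhole for the itineraries.

Proof. For `k < M` define `A'' k j`, `B'' k j` (`j ≤ s k + 1`): `A'' k 0 = B'' k 0 = a k`; `A'' k (j + 1) = A k j`,
`B'' k (j + 1) = B k j` for `j < s k`; `A'' k j = B'' k j = b k` for `j ≥ s k + 1`.  The type of `k` is the triple
of `s k` (at most `n + h`), the function `j ↦ c (A'' k j)` and the function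
`j ↦ (Ess c (B'' k j) (A'' k (j + 1)))` (a truth value), `j : Fin (n + h + 2)`.  There are at most
`τ = (n + h + 1) * n ^ (n + h + 2) * 2 ^ (n + h + 2)` types; `M = τ * (2 m)`.  So there are `2 m` indices
`κ 0, .., κ (2 m - 1) < M`, all different, of the same type.  (If `m = 0` take `M = 0` and anything.)  Put
`r = s (κ 0) + 1`, `A' k j = A'' (κ k) j`, `B' k j = B'' (κ k) j`, `χ j = c (A' 0 j)`,
`dir j = Ess c (B' 0 j) (A' 0 (j + 1))`.
`cA`: same type.  `cB`: `c (B'' k j) = c (A'' k j)` by `Run` (or equality).  `up`, `dn`: same type, and for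
every `k` and `j < r` one of `Ess c (B' k j) (A' k (j + 1))`, `Ess c (A' k (j + 1)) (B' k j)` holds.
`sep`, rails `0` and `r`: `a (κ k) ≠ a (κ k')` are in the same chain, so one is smaller; the same for `b`.
`sep`, rail `j + 1`, `j < s`: the elements `A, B := A (κ k) j, B (κ k) j` are in a run of `R (κ k)` and
`A', B' := A (κ k') j, B (κ k') j` in a run of `R (κ k')`, in the same chain, and `R (κ k)`, `R (κ k')` are
disjoint.  All four are comparable.  None of `A', B'` is between `A` and `B` (in either order) as it would be in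
`R (κ k)`, and none of `A, B` is between `A'` and `B'`.  So both `A'` and `B'` are above `A` and `B`, or both are
below `A` and `B`, or one of them, say `A'`, is above both and the other one `B'` is below both; in the last
case `A` is between `A'` and `B'`: contradiction. -/
def S_TrackOf : Prop := ∀ n h m : ℕ, ∃ M : ℕ, ∀ (α : Type) [Fintype α] [DecidableEq α]
  [PartialOrder α] (c : α → Fin n) (U : Finset α) (i : Fin n) (a b : ℕ → α) (R : ℕ → Finset α)
  (s : ℕ → ℕ) (A B : ℕ → ℕ → α), ChainP c → (∀ k < M, c (a k) = i ∧ c (b k) = i) →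
  (∀ k < M, ∀ l < M, k ≠ l → a k ≠ a l ∧ b k ≠ b l ∧ Disjoint (R k) (R l)) →
  (∀ k < M, 1 ≤ s k ∧ s k ≤ n + h ∧ (Ess c (a k) (A k 0) ∨ Ess c (A k 0) (a k)) ∧
    (Ess c (B k (s k - 1)) (b k) ∨ Ess c (b k) (B k (s k - 1))) ∧
    (∀ j < s k, Run c U (R k) (A k j) (B k j)) ∧
    ∀ j, j + 1 < s k → Ess c (B k j) (A k (j + 1)) ∨ Ess c (A k (j + 1)) (B k j)) →
  ∃ (r : ℕ) (κ : ℕ → ℕ) (A' B' : ℕ → ℕ → α) (χ : ℕ → Fin n) (dir : ℕ → Prop),
    r ≤ n + h + 1 ∧ (∀ k < 2 * m, κ k < M ∧ A' k 0 = a (κ k) ∧ A' k r = b (κ k)) ∧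
    Tracks c (2 * m) r A' B' χ dir

/-- **C6.** Tracks do not cross; every second one gives a bundle.

Proof. For `k, k' < 2 m` write `k ◁ k'` if `A k 0 < A k' 0`.  By `sep` (`j = 0`) this is a strict total order of
`{0, .., 2 m - 1}`.
(1) If `k ◁ k'` then for every `j ≤ r` the first alternative of `sep` holds.  Induction on `j`; `j = 0`: the second
alternative contradicts `A k 0 < A k' 0`.  Let it be true for `j < r`; so `B k j < B k' j`.  If `dir j`: the last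
condition of `Ess c (B k j) (A k (j + 1))` for `z = A k' (j + 1)` (in the chain `χ (j + 1)`, and
`B k j < B k' j ≤ A k' (j + 1)`) gives `A k (j + 1) ≤ A k' (j + 1)`, so the second alternative of `sep` at
`j + 1` is impossible.  If `¬ dir j`: the third condition of `Ess c (A k' (j + 1)) (B k' j)` for
`z = A k (j + 1) ≤ B k j < B k' j` gives `A k (j + 1) ≤ A k' (j + 1)` again.
(2) The number of `l < 2 m` with `l ◁ k` is the rank of `k`; `k ↦ rank` is a bijection of `{0, .., 2 m - 1}`.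
Let `κ k` be the element of rank `2 k`; for `k < l` the element `e` of rank `2 k + 1` satisfies
`κ k ◁ e ◁ κ l`.  `mono` is clear from (1).
(3) `dir j` (`j < r`): `Step m (v j) (v (j + 1))`, `v j k = A (κ k) j`.  `k < l`, `e` between them:
`A (κ k) j < B e j ≤ A e (j + 1) < A (κ l) (j + 1)`.  `l < k`, `κ l ◁ e ◁ κ k`: suppose
`A (κ k) j ≤ A (κ l) (j + 1)`; then `B e j < A (κ k) j ≤ A (κ l) (j + 1)`, so by the last condition of
`Ess c (B e j) (A e (j + 1))` `A e (j + 1) ≤ A (κ l) (j + 1)`, but `A (κ l) (j + 1) < A e (j + 1)`.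
(4) `¬ dir j`: `Step m (v (j + 1)) (v j)`.  `k < l`: `A (κ k) (j + 1) < A e (j + 1) ≤ B e j < A (κ l) j`.
`l < k`, `κ l ◁ e ◁ κ k`: suppose `A (κ k) (j + 1) ≤ A (κ l) j`; then `A (κ k) (j + 1) ≤ A (κ l) j < B e j`, so by
the third condition of `Ess c (A e (j + 1)) (B e j)` `A (κ k) (j + 1) ≤ A e (j + 1) < A (κ k) (j + 1)`. -/
def S_Noncross : Prop := ∀ (n m r : ℕ) (α : Type) [PartialOrder α] (c : α → Fin n)
  (A B : ℕ → ℕ → α) (χ : ℕ → Fin n) (dir : ℕ → Prop), ChainP c → Tracks c (2 * m) r A B χ dir →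
  ∃ κ : ℕ → ℕ, (∀ k < m, κ k < 2 * m) ∧ Bun m r (fun j k => A (κ k) j)

/-- **C7.** Closed bundles; the size `f r` may depend on the number `r` of the steps (uses A1, A3, B1, B2,
C1, C2, C4, C5, C6).

Proof. We show by induction on `j`: for all `n, q, f` there is `N` such that the conclusion holds if in
addition `(U.image c).card ≤ j`; then take `j = n`.  If `n = 0` there is no element, so `S = ∅`: `N = 1`.  Let
`1 ≤ n`.  `j = 0`: `U = ∅`, so `S = ∅`: `N = 1`.  Step `j → j + 1`: let `N'` be the number for `j`, `n`, `f` and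
`q = 4 n`; `g = 2 n (N' + 1) ≥ 1`, `m` the maximum of `f r` for `r ≤ n + 2 g + 1`, `M` the number of C5 for
`n, h = 2 g, m`, `M' = 4 g M + 1`, `N = (4 n + 2 n q) (M' + 1) + 1`.
Given `U, S` apply C1 and C2 (with `M'` instead of `M`): `i, a, b, Q`.  `U' = U.filter (c · ≠ i)`; its image
under `c` has at most `j` elements (`i = c (a 0)` is in the image of `U`, as `a 0 ∈ U`, `0 < M'`).
A1 for `w = ind (Gam c U')`, `Δ = 2 n`, `N := g` (the symmetry of `ind` is clear, B1 gives the second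
hypothesis): (I) `Bad (ind (Gam c U')) (2 n) g Z` for some `Z`: B2 with `b = 4 n` gives `S'` with
`WL c (Z ∩ U') S' (4 n) (4 n)`, `2 n (N' + 1) = g < 2 n (|S'| + 1)`, so `N' ≤ |S'|`, and the image of `Z ∩ U'`
has at most `j` elements: induction.  (II) `Carv (ind (Gam c U')) g univ`: A3 gives `M` disjoint regions `R k`
with `Q (j k) ⊆ R k`, `wt (R k) (R k)ᶜ ≤ 2 g`.  C4 (with `U'`, `h = 2 g`, `x, y` from C2) for every `k < M`; then C5
(with `a k := a (j k)` etc.) and C6.  The result is a bundle of size `m ≥ f r` with `r ≤ n + 2 g + 1` steps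
(restrict it to the size `f r`), `v 0 k = A' (κ k) 0 = a ..` and `v r l = A' (κ l) r = b ..`, so
`v 0 k < v r l` by C2. -/
def S_Bundle : Prop := ∀ (n q : ℕ) (f : ℕ → ℕ), ∃ N : ℕ, ∀ (α : Type) [Fintype α] [DecidableEq α]
  [PartialOrder α] (c : α → Fin n) (U S : Finset α), ChainP c → WL c U S (4 * n) q →
  N ≤ S.card → ∃ (r : ℕ) (v : ℕ → ℕ → α), Bun (f r) r v ∧ ∀ k < f r, ∀ l < f r, v 0 k ≤ v r l

end Pool.Agent.MPd439b2.W
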