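import Pool.Agent.Lib.MP_d439b2_co.W.Data

/-!
# MP_d439b2_co, W, Spec P: homogeneous group cycles contain the excluded graphs (helper28)

Every `S_...` is a statement to be proved in its own file; the docstring contains the complete proof.
-/

set_option autoImplicit false

namespace Pool.Agent.MPd439b2.W

open Pool.Agent.MPd439b2

theorem Cmp.symm {V : Type} {D : SimpleGraph V} {A B : Finset V} (h : Cmp D A B) : Cmp D B A :=
  fun b hb a ha => (h a ha b hb).symm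

/-- other rails, fewer indices -/
theorem Pat.comp {V : Type} {D : SimpleGraph V} {M r : ℕ} {z : ℕ → ℕ → Finset V} {E : ℕ → ℕ → Prop}
    (h : Pat D M r z E) {M' r' : ℕ} (ρ : ℕ → ℕ) (hρ : ∀ i ≤ r', ρ i ≤ r) (hM : M' ≤ M) :
    Pat D M' r' (fun i => z (ρ i)) (fun i j => E (ρ i) (ρ j)) where
  ne i hi k hk := h.ne _ (hρ i hi) k (by omega)
  dis i hi j hj k hk l hl hkl := h.dis _ (hρ i hi) _ (hρ j hj) k (by omega) l (by omega) hkl
  rel i hi j hj k l hkl hl := h.rel _ (hρ i hi) _ (hρ j hj) k l hkl (by omega)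

/-- **P1.** No transitive triangles.

Proof. `E i j`, `E j k`, `E i k` (rails, not necessarily different): by `rel` with the indices `0 < 1 < 2` the
groups `z i 0`, `z j 1`, `z k 2` are pairwise complete to each other; they are not empty: triangle. -/
def S_Tri : Prop := ∀ (V : Type) (D : SimpleGraph V) (M r : ℕ) (z : ℕ → ℕ → Finset V)
  (E : ℕ → ℕ → Prop), TriFree D → Pat D M r z E → 3 ≤ M →
  ∀ i ≤ r, ∀ j ≤ r, ∀ k ≤ r, ¬ (E i j ∧ E j k ∧ E i k)

/-- **P2.** The realization lemma.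

Proof. (1) For different groups `p = (i, k)`, `q = (j, l)` (`i, j ≤ R`, `k ≠ l < M`) with `okp e p q = some true` the
sets `z i k` and `z j l` are complete to each other, and if `okp e p q = some false` they are not (`rel` for
the one with the smaller index first, `Kn`, symmetry of `Cmp`).  Disjoint sets of vertices which are not
complete to each other in `D` are joined by an edge of `Dᶜ`.  Nonempty sets of vertices without edges of `D`
inside induce connected (complete) subgraphs of `Dᶜ`.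
(2) For `i < N` let `B i = ⋃ p ∈ L.getD i [], z p.1 p.2`.  It is not empty, and its elements are adjacent to a
vertex of the group `nb.getD i (0, 0)` (by `chk1` and (1)), so there are no edges of `D` inside (triangles).  For
`i ≠ j` the sets `B i`, `B j` are disjoint (`dis`, all indices are different).  If `i, j` are adjacent in
`ofE N l` then `B i`, `B j` are complete to each other in `D`, so there is no edge of `Dᶜ` between them.
Otherwise some `z p.1 p.2 ⊆ B i`, `z q.1 q.2 ⊆ B j` are not complete: an edge of `Dᶜ`.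
(3) For `t < s` let `k = K₀ + 4 t` and `C t = z 0 k ∪ z 1 (k + 1) ∪ z 0 (k + 2) ∪ z 1 (k + 3)`.  `E 0 1`: `z 0 k` is
complete to `z 1 (k + 1)` and to `z 1 (k + 3)`, `z 0 (k + 2)` to `z 1 (k + 3)`.  So `z 0 k ∪ z 0 (k + 2)` has a
common neighbour (in `z 1 (k + 3)`), hence no edges of `D` inside, and `z 1 (k + 1) ∪ z 1 (k + 3)` has a common
neighbour in `z 0 k`.  `¬ E 1 0`: `z 1 (k + 1)` is not complete to `z 0 (k + 2)`: an edge of `Dᶜ`.  So `C t` is
connected in `Dᶜ`.  It contains two vertices adjacent in `D` (from `z 0 k`, `z 1 (k + 1)`), so it is joined by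
an edge of `Dᶜ` to every disjoint nonempty set (no triangles in `D`).  The sets `C t` are disjoint from each
other and from the `B i` (indices).
(4) `inl t ↦ C t`, `inr i ↦ B i` is a model of `KCo s (ofE N l)` in `Dᶜ`. -/
def S_Atoms : Prop := ∀ (e : ℕ → ℕ → Option Bool) (R K₀ N M s : ℕ) (l : List (ℕ × ℕ))
  (L : List (List (ℕ × ℕ))) (nb : List (ℕ × ℕ)) (V : Type) (D : SimpleGraph V)
  (z : ℕ → ℕ → Finset V) (E : ℕ → ℕ → Prop), chk e R K₀ N l L nb → Kn e R E → 1 ≤ R → E 0 1 →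
  ¬ E 1 0 → K₀ + 4 * s ≤ M → TriFree D → Pat D M R z E → IsIndMinor (KCo s (ofE N l)) Dᶜ

/-- **P3.** `F1`, `F2`, `F3` are induced subgraphs of `F0`.

Proof. Let `f` be `[0, 1, 3, 5, 6, 8, 9, 10, 11, 12, 13, 14, 15]` for `F1`,
`[0, 1, 3, 4, 5, 6, 7, 8, 9, 10, 11, 12, 13]` for `F2` and the identity for `F3`; `f` is injective and
`F.Adj i j ↔ F0.Adj (f i) (f j)` (`decide`; unfold `F0`, .. to `ofE ..` to find the instance).  The model of
`KCo s F0` gives one of `KCo s F`: `inl t ↦ B (inl t)`, `inr i ↦ B (inr (f i))`. -/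
def S_FSub : Prop := ∀ (s : ℕ) (V : Type) (G : SimpleGraph V), IsIndMinor (KCo s F0) G →
  IsIndMinor (KCo s F1) G ∧ IsIndMinor (KCo s F2) G ∧ IsIndMinor (KCo s F3) G

/-- **P4.** Opposite ladders at a common rail `t` (uses P1, P2, P3).

Proof. `Pat.comp` with the rails `t, a, b` (`0 ↦ t`, `1 ↦ a`, `2 ↦ b`) and all indices.  `Kn eT1 2` for the
relation `fun i j => E (ρ i) (ρ j)`: the diagonal by P1, the others are the hypotheses.  P2 with `chkT1`
(`K₀ = 48`) gives `KCo s (ofE 16 l0)`, which is `KCo s F0` (by definition); P3. -/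
def S_X1 : Prop := ∀ (s : ℕ) (V : Type) (D : SimpleGraph V) (M r : ℕ) (z : ℕ → ℕ → Finset V)
  (E : ℕ → ℕ → Prop), TriFree D → Pat D M r z E → 200 + 8 * s ≤ M →
  (∃ t ≤ r, ∃ a ≤ r, ∃ b ≤ r, E t a ∧ ¬ E a t ∧ E b t ∧ ¬ E t b) →
  IsIndMinor (KCo s F1) Dᶜ ∧ IsIndMinor (KCo s F2) Dᶜ ∧ IsIndMinor (KCo s F3) Dᶜ

/-- **P5.** Two ladders, complete to each other crosswise (uses P1, P2, P3).

Proof. Let `h = 48 + 4 s`; `2 h ≤ M`.  New pattern with four rails and `h` indices: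
`z' 0 k = z p (h + k)`, `z' 1 k = z p' (h + k)`, `z' 2 k = z q k`, `z' 3 k = z q' k` (first case), resp.
`z' 2 k = z q (h - 1 - k)`, `z' 3 k = z q' (h - 1 - k)` (second case).  `E'` is: on `{0, 1}` as `E` on `p, p'`; on
`{2, 3}` as `E` on `q, q'` (first case), resp. reversed, `E' i j ↔ E (ρ j) (ρ i)` (second case); between
`{0, 1}` and `{2, 3}`, in both orders, `E' i j` (`i ∈ {0, 1}`, `j ∈ {2, 3}`) and `E' j i` are
`E (ρ j) (ρ i)`: all indices of the rails `2, 3` are smaller.  `Pat D h 3 z' E'` is checked directly (`rel` for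
`z'` between `i ∈ {0, 1}`, `j ∈ {2, 3}`: `Cmp` is symmetric).  `Kn eT2 3 E'`: `E' 0 1 = E p p'`,
`E' 1 0 = E p' p`; `E' 2 3` is `E q q'` resp. `E q' q`, `E' 3 2` is `E q' q` resp. `E q q'`; `E' 0 3 = E' 3 0 = E q' p`;
`E' 1 2 = E' 2 1 = E q p'`; the diagonal by P1.  P2 with `chkT2` (`K₀ = 48`), P3. -/
def S_X2 : Prop := ∀ (s : ℕ) (V : Type) (D : SimpleGraph V) (M r : ℕ) (z : ℕ → ℕ → Finset V)
  (E : ℕ → ℕ → Prop), TriFree D → Pat D M r z E → 200 + 8 * s ≤ M →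
  (∃ p ≤ r, ∃ p' ≤ r, ∃ q ≤ r, ∃ q' ≤ r, E p p' ∧ ¬ E p' p ∧
    ((E q q' ∧ ¬ E q' q) ∨ (E q' q ∧ ¬ E q q')) ∧ E q' p ∧ E q p') →
  IsIndMinor (KCo s F1) Dᶜ ∧ IsIndMinor (KCo s F2) Dᶜ ∧ IsIndMinor (KCo s F3) Dᶜ

/-- **P6.** Patterns with unrelated rails (uses P2).

Proof. P2 with `chkA5_1`, `chkA5_2`, `chkA5_3`, resp. `chkA_1`, .., resp. `chkB_1`, .. (`K₀ ≤ 33`); `E 0 1` and
`¬ E 1 0` follow from `Kn`.  `F1 = ofE 13 l1`, `F2 = ofE 13 l2`, `F3 = ofE 12 l3` by definition. -/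
def S_PatX : Prop := ∀ (s : ℕ) (V : Type) (D : SimpleGraph V) (M : ℕ) (z : ℕ → ℕ → Finset V)
  (E : ℕ → ℕ → Prop), TriFree D → 200 + 8 * s ≤ M →
  ((Pat D M 5 z E ∧ Kn eA5 5 E) ∨ (Pat D M 6 z E ∧ Kn eA 6 E) ∨ (Pat D M 6 z E ∧ Kn eB 6 E)) →
  IsIndMinor (KCo s F1) Dᶜ ∧ IsIndMinor (KCo s F2) Dᶜ ∧ IsIndMinor (KCo s F3) Dᶜ

/-- **P7.** Shortcuts.

Proof. `i` even, `j` odd.  `i ≠ j`.
(1) `E j i` also holds, `i < j`: so `i + 3 ≤ j`.  `r' = j - i` (odd, `< r` as not (`i = 0` and `j = r`)),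
`z' t = z (i + t)`, `E' t u = E (i + t) (i + u)`.  `ev`, `od` from those of `E` (`i` is even), `clo`: `E i j`, `E j i`.
(2) `E j i`, `j < i`: `r' = i - j` (odd, `< r` as `i < r`), `z' t = z (i - t)`, `E' t u = E (i - t) (i - u)`.
`t < r'` even: the rails `i - t` (even) and `i - t - 1` (odd): `od` of the cycle at `i - t - 1` gives
`E (i - t) (i - t - 1)`, `¬ E (i - t - 1) (i - t)`, which is `ev` of the new cycle.  `t` odd: the rails `i - t`
(odd), `i - t - 1` (even): `ev` of the cycle at `i - t - 1` gives `E (i - t - 1) (i - t)`,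
`¬ E (i - t) (i - t - 1)`: `od` of the new cycle at `t`.  `clo`: `E i j`, `E j i`.
(3) `¬ E j i`, `i < j` (`j ≠ i + 1`): keep the rails `0, .., i, j, .., r`: `ρ t = t` for `t ≤ i`,
`ρ t = t + (j - i - 1)` for `t > i`, `r' = r - (j - i - 1)`; `j - i - 1` is even and positive.  The new step `i` is
even: `E i j`, `¬ E j i`.
(4) `¬ E j i`, `j < i` (`i ≠ j + 1`): keep `0, .., j, i, .., r`: `ρ t = t` for `t ≤ j`, `ρ t = t + (i - j - 1)` for
`t > j`, `r' = r - (i - j - 1)`.  The new step `j` is odd: needs `E (ρ (j + 1)) (ρ j) = E i j` and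
`¬ E j i`.
In (3), (4): the parity of `ρ t` is the parity of `t`, `ρ 0 = 0`, `ρ r' = r`, so `clo` is the old one.
`Pat.comp` in all cases. -/
def S_Short : Prop := ∀ (V : Type) (D : SimpleGraph V) (M r : ℕ) (z : ℕ → ℕ → Finset V)
  (E : ℕ → ℕ → Prop), HGC D M r z E → ∀ i ≤ r, ∀ j ≤ r, i % 2 = 0 → j % 2 = 1 → j ≠ i + 1 →
  i ≠ j + 1 → (i ≠ 0 ∨ j ≠ r) → E i j → ∃ r' < r, ∃ z' E', HGC D M r' z' E'

/-- **P8.** The combinatorics of a minimal cycle.  Let `T1` be the sixth, `T2` the seventh hypothesis.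

Proof. `r = 1`: `ev` says `¬ E 1 0`, but `E r 0`.  `r = 3`: `T2` with `p, p', q, q' = 0, 1, 2, 3`: `E 0 1`,
`¬ E 1 0`, `E 2 3`, `¬ E 3 2`, `E 3 0` (`clo`), `E 2 1` (`od`): contradiction.  So `5 ≤ r`.
(1) `¬ E i i` (fifth hypothesis with `i, i, i`).
(2) Same parity: `E i i'` implies `E i' i`.  Both even: otherwise `T1` with `t = i'`, `a = i' + 1`, `b = i`.
Both odd: otherwise `T1` with `t = i`, `a = i'`, `b = i - 1` (`E (i - 1) i`, `¬ E i (i - 1)` by `ev`).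
(3) Common neighbours: `i` even, `i + 2 ≤ r`: `¬ E i (i + 2)` (with `E (i + 2) (i + 1)`, `E i (i + 1)` it is a
transitive triangle), and `¬ E (i + 2) i` by (2).  `i` odd, `i + 2 ≤ r`: `¬ E i (i + 2)` (with `E (i + 1) i`,
`E (i + 1) (i + 2)`), `¬ E (i + 2) i` by (2).  `¬ E 1 r` (with `E 0 1`, `E 0 r`), `¬ E r 1` (if `3 ≤ r`, (2)).
`r = 5`: `¬ E 0 4` (with `E 4 5`, `E 0 5`), `¬ E 4 0`.
(4) `r = 5`: `Kn eA5 5 E`: diagonal (1), ladders `ev`, `od`, `{0, 5}` `clo`, the other even-odd pairs by the last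
hypothesis, `{0, 2}, {2, 4}, {1, 3}, {3, 5}, {0, 4}, {1, 5}` by (3).
(5) `7 ≤ r`, `¬ E 0 4` (so `¬ E 4 0`): `Kn eA 6` for `rA`: the pairs `{2, r}`, `{4, r}` and the even-odd pairs inside
`0, .., 5` by the last hypothesis, `{1, r}` by (3), `{0, r}` `clo`, `{0, 4}` by assumption, the others as before.
(6) `7 ≤ r`, `E 0 4`, so `E 4 0` by (2).  If `E 1 5` then `E 5 1` and `T2` with `p, p', q, q' = 0, 1, 5, 4`
(`E q' q = E 4 5`, `¬ E 5 4`, `E q' p = E 4 0`, `E q p' = E 5 1`): contradiction.  So `¬ E 1 5`, `¬ E 5 1`, and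
`Kn eB 6 E` as before (even-odd pairs inside `0, .., 6`; the pair `(0, r)` is not among them as `7 ≤ r`). -/
def S_Cyc : Prop := ∀ (r : ℕ) (E : ℕ → ℕ → Prop), r % 2 = 1 →
  (∀ i < r, i % 2 = 0 → E i (i + 1) ∧ ¬ E (i + 1) i) →
  (∀ i < r, i % 2 = 1 → E (i + 1) i ∧ ¬ E i (i + 1)) → E 0 r ∧ E r 0 →
  (∀ i ≤ r, ∀ j ≤ r, ∀ k ≤ r, ¬ (E i j ∧ E j k ∧ E i k)) →
  (¬ ∃ t ≤ r, ∃ a ≤ r, ∃ b ≤ r, E t a ∧ ¬ E a t ∧ E b t ∧ ¬ E t b) →
  (¬ ∃ p ≤ r, ∃ p' ≤ r, ∃ q ≤ r, ∃ q' ≤ r, E p p' ∧ ¬ E p' p ∧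
    ((E q q' ∧ ¬ E q' q) ∨ (E q' q ∧ ¬ E q q')) ∧ E q' p ∧ E q p') →
  (∀ i ≤ r, ∀ j ≤ r, i % 2 = 0 → j % 2 = 1 → j ≠ i + 1 → i ≠ j + 1 → (i ≠ 0 ∨ j ≠ r) →
    ¬ E i j ∧ ¬ E j i) →
  (r = 5 ∧ Kn eA5 5 E) ∨
  (7 ≤ r ∧ Kn eA 6 (fun i j => E (if i = 6 then r else i) (if j = 6 then r else j))) ∨
  (7 ≤ r ∧ Kn eB 6 E)

/-- **P9.** There are no large homogeneous group cycles (uses P1, P4, P5, P6, P7, P8).

Proof. Strong induction on `r`.  Let `HGC D M r z E`, and suppose that there is no `HGC` with smaller `r'` and the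
same `M`.  P7: for `i` even, `j` odd, not consecutive, not `(0, r)`: `¬ E i j`.  P4 and P5: the hypotheses
`T1`, `T2` of P8 hold, because one of the three graphs is not contained.  `¬ E j i`: otherwise, as `¬ E i j`,
`T1` with `t = i`, `a = i + 1` (`i < r` as `r` is odd), `b = j`: contradiction.  P1 gives the fifth hypothesis
of P8.  P8 and `Pat.comp` (`ρ = id`, resp. `6 ↦ r`) give one of the three patterns of P6, so all three graphs are
contained: contradiction. -/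
def S_NoHGC : Prop := ∀ (s : ℕ) (V : Type) (D : SimpleGraph V), TriFree D →
  (¬ IsIndMinor (KCo s F1) Dᶜ ∨ ¬ IsIndMinor (KCo s F2) Dᶜ ∨ ¬ IsIndMinor (KCo s F3) Dᶜ) →
  ∀ (M r : ℕ) (z : ℕ → ℕ → Finset V) (E : ℕ → ℕ → Prop), 200 + 8 * s ≤ M → ¬ HGC D M r z E

end Pool.Agent.MPd439b2.W
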