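import Pool.Agent.Lib.MP_d439b2_co.W.SpecA
import Pool.Agent.Lib.MP_d439b2_co.W.SpecE
import Pool.Agent.Lib.MP_d439b2_co.W.SpecP

/-!
# MP_d439b2_co, W, Spec D: Dilworth's theorem, traces, blocks, and the bounded width theorem (helper28)

Every `S_...` is a statement to be proved in its own file; the docstring contains the complete proof.
-/

set_option autoImplicit false

namespace Pool.Agent.MPd439b2.W

open Pool.Agent.MPd439b2

/-- **D1.** Dilworth's theorem.

Proof. We show for every finite set `A` and every `w`: if every antichain contained in `A` has at most `w`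
elements then there is `c : α → ℕ` with `c x < w` for `x ∈ A` and `x ≤ y ∨ y ≤ x` for `x, y ∈ A` with `c x = c y`.
(Take `A` = everything; then `c` is a function to `Fin w`.)  Induction on `|A|`; `A = ∅` is clear.  Let `a` be a
maximal element of `A`, `A' = A \ {a}`, and `k ≤ w` the maximal size of an antichain contained in `A'`.
Induction for `A'` and `k`: chains `C 0, .., C (k - 1)` covering `A'`.  Every antichain of `k` elements of `A'`
has exactly one element in every `C i`.  Let `x i` be the largest element of `C i` which belongs to an antichain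
of `k` elements contained in `A'` (there is one).  For `i ≠ j`: not `x j ≤ x i`: let `B` be an antichain with
`k` elements containing `x i`, `y` its element in `C j`; `y ≤ x j` by the choice of `x j`; if `x j ≤ x i` then
`y ≤ x i`, so `y = x i`, which is impossible as `x i` is the element of `B` in `C i` (give every element of `A'`
exactly one colour).  So `X = {x 0, .., x (k - 1)}` is an antichain with `k` elements.
(1) No `x i ≤ a`.  As `a` is maximal, `X ∪ {a}` is an antichain with `k + 1` elements, so `k + 1 ≤ w`; give `a` the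
new colour `k`.
(2) `x i ≤ a` for some `i`.  `K = {a} ∪ {z ∈ C i | z ≤ x i}` is a chain.  `A \ K ⊆ A'` contains no antichain with
`k` elements: its element in `C i` would be an element of `C i` larger than `x i`, contradicting the choice of
`x i` (`z ∈ C i`, `z ∉ K`, so not `z ≤ x i`).  So antichains contained in `A \ K` have at most `k - 1` elements
(`k ≥ 1`), induction gives a colouring of `A \ K` with `k - 1` colours; `K` gets the colour `k - 1`. -/
def S_Dil : Prop := ∀ (w : ℕ) (α : Type) [Finite α] [PartialOrder α], WidP α w →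
  ∃ c : α → Fin w, ChainP c

/-- **D2.** A symmetric partition into chains (uses D1).

Proof. `sg D` is an involution (`cn (cn x) = x`) and antitone.  `x ≤ sg D x` is impossible: a vertex `v ∈ x` would
be in `cn x`, so adjacent to itself; `sg D x ≤ x` is impossible: take `v ∈ sg D x = cn x`.  Let `c₀` be the
colouring of D1; so `c₀ x ≠ c₀ (sg x)`.  Let `c x = 2 (c₀ x)` if `c₀ x < c₀ (sg x)`, and
`c x = 2 (c₀ (sg x)) + 1` otherwise.  `c x = c y` even: `c₀ x = c₀ y`, so comparable.  Odd: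
`c₀ (sg x) = c₀ (sg y)`, so `sg x`, `sg y` are comparable, and `x`, `y` too (apply `sg`).
If `c x` is even then `c (sg x) = 2 (c₀ x) + 1 = c x + 1`; if `c x` is odd then `c₀ (sg x) < c₀ x` and
`c (sg x) = 2 (c₀ (sg x)) = c x - 1`.  So `c (sg x)` is determined by `c x`. -/
def S_SymC : Prop := ∀ (w : ℕ) (V : Type) [Finite V] (D : SimpleGraph V), WidP (Cl D) w →
  ∃ c : Cl D → Fin (2 * w), ChainP c ∧ ∀ x y, c x = c y → c (sg D x) = c (sg D y)

/-- **D3.** Few traces.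

Proof. `Γ = Gam c univ`.  For chains `C, C'` (values of `c`) and `a ∈ Y`, `c a = C`, let `f a` (`= f_{C'} a`) be the
smallest element `b ∉ Y` of `C'` with `a ≤ b`, or `none`.  The trace `{b | b ∉ Y ∧ a ≤ b}` is determined by the
functions `C' ↦ f_{C'} a`.  CLAIM: for fixed `C, C'` the function `f` has at most `e + 1` values (`none` and at
most `e` others) on the elements `a ∈ Y` of `C`.  Then there are at most `(e + 1) ^ n` traces for every `C`,
and at most `n (e + 1) ^ n ≤ n (e + 2) ^ n` traces.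
Proof of the claim.  To every `a` (in `C ∩ Y`) with `f a = b ≠ none` we assign a pair `(u, u')` with `u ∈ Y`,
`u' ∉ Y`, `Γ.Adj u u'` such that `f a` is determined by the pair; there are `wt (ind Γ) Y Yᶜ ≤ e` such pairs.
`C = C'`: `b` is the smallest element of `C` above `a` which is not in `Y`, `u` the largest element of `C` smaller
than `b` (it exists, `a < b`, and `a ≤ u`, so `u ∈ Y` by the choice of `b`), `u' = b`; `Cons c univ u b`.
`C ≠ C'`: let `q` be the smallest element of `C'` above `a`, `p` the largest element of `C` below `q`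
(`a ≤ p`).  `Ess c p q`: `p ≤ q`; `z ∈ C`, `z ≤ q` implies `z ≤ p`; `z ∈ C'`, `p ≤ z` implies `a ≤ z`, so
`q ≤ z`.  `a ≤ b` and `b ∈ C'`, so `q ≤ b`.
 Case 1: some element of `C` between `a` and `p` is not in `Y`.  `u'` the smallest one (`a < u' ≤ p`), `u` its
predecessor in `C` (`a ≤ u`, `u ∈ Y`).
 Case 2: all elements of `C` between `a` and `p` are in `Y`, `q ∉ Y`: `u = p`, `u' = q` (and `b = q`).
 Case 3: `p ∈ Y`, .., `q ∈ Y`: `u' = b`, `u` its predecessor in `C'` (`q ≤ u < b`; `u ∈ Y` as `a ≤ q ≤ u` and by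
the choice of `b`).
Let `a₁ ≤ a₂` in `C ∩ Y` have the same pair; we show `f a₁ = f a₂`.  The three cases are distinguished by the
pair: case 1: `u, u' ∈ C`; case 2: `u ∈ C`, `u' ∈ C'`; case 3: `u, u' ∈ C'`.  Clearly `q₁ ≤ q₂` and
`p₁ ≤ p₂`, `b₁ ≤ b₂`.  Case 1: `u' ≤ p₁` and `a₂ ≤ u < u'`, so `a₂ ≤ p₁ ≤ q₁`, so `q₂ ≤ q₁`, `q₁ = q₂`.
Case 2: `q₁ = q₂`.  Case 3: `b₁ = u' = b₂`.  If `q₁ = q₂` then `f a₁ = f a₂`: for `b ∈ C'`: `a_i ≤ b` iff
`q_i ≤ b`. -/
def S_Trace : Prop := ∀ (n : ℕ) (α : Type) [Fintype α] [DecidableEq α] [PartialOrder α]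
  (c : α → Fin n) (Y : Finset α) (e : ℕ), ChainP c →
  wt (ind (Gam c Finset.univ)) Y Yᶜ ≤ e →
  {T : Set α | ∃ a ∈ Y, T = {b | b ∉ Y ∧ a ≤ b}}.ncard ≤ n * (e + 2) ^ n

section blocks

variable {α : Type} [Fintype α] [DecidableEq α]

/-- the block of `x` -/
def blk (σ : α → α) (x : α) : Finset α := {x, σ x}

/-- the elements whose block is in `Z` -/
def pre (σ : α → α) (Z : Finset (Finset α)) : Finset α := Finset.univ.filter fun x => blk σ x ∈ Z

/-- the weights of the blocks -/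
noncomputable def WB (Γ : SimpleGraph α) (σ : α → α) (b b' : Finset α) : ℕ :=
  wt (ind Γ) (pre σ {b}) (pre σ {b'})

end blocks

/-- **D4.** Weights of blocks and weights of elements.

Proof. `pre σ Z` is the disjoint union of the sets `pre σ {b}`, `b ∈ Z`; so both sides are the sum of `ind Γ x y`
over `x ∈ pre σ Z`, `y ∈ pre σ Z'` (`Finset.sum_fiberwise_of_maps_to` or `Finset.sum_biUnion`).
`pre σ Zᶜ = (pre σ Z)ᶜ` is clear. -/
def S_Pre : Prop := ∀ (α : Type) [Fintype α] [DecidableEq α] (Γ : SimpleGraph α) (σ : α → α)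
  (Z Z' : Finset (Finset α)), wt (WB Γ σ) Z Z' = wt (ind Γ) (pre σ Z) (pre σ Z') ∧
    pre σ Zᶜ = (pre σ Z)ᶜ

/-- **D5.** From bad sets of blocks to well linked sets of elements (uses D4).

Proof. Write `w(A, B) = wt (ind Γ) A B` (symmetric, additive in both variables, and
`w(σ A, σ B) = w(A, B)` for images under `σ`), `Z~ = pre σ Z`, `μ(A) = w(A, Z~ᶜ)`, and `e(A) = w(A, Z~ \ A)` for
`A ⊆ Z~`.  `σ Z~ = Z~` (`blk σ (σ x) = blk σ x`).  For `T ⊆ Z~` with `σ T = T` we have `T = pre σ Z_T` with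
`Z_T = T.image (blk σ)`, `Z_T ⊆ Z`, `Z~ \ T = pre σ (Z \ Z_T)`, so `Bad` and D4 give
(B) `min (μ(T), μ(Z~ \ T)) ≤ e(T)`.  Also `N < μ(Z~) + Δ`.
Let `S₀ = {x ∈ Z~ | ∃ y ∉ Z~, Γ.Adj x y}`; `σ S₀ = S₀`; `μ(A) = μ(A ∩ S₀)`, `|A ∩ S₀| ≤ μ(A) ≤ d |A ∩ S₀|` for
`A ⊆ Z~`.  So `N < Δ + d |S₀|`.
CASE I: every `X ⊆ Z~` with `|S₀| ≤ b |X ∩ S₀|` and `|S₀| ≤ b |S₀ \ X|` satisfies `|S₀| ≤ 16 b e(X)`.  Take
`U = Z~`, `S = S₀`.
CASE II: otherwise there is `X ⊆ Z~` with `|S₀| ≤ b |X ∩ S₀|`, `|S₀| ≤ b |S₀ \ X|`, `16 b e(X) < |S₀|`; put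
`ε = e(X)`.  So `16 ε < |X ∩ S₀|` and `16 ε < |S₀ \ X|`.  `X' = σ X`, `e(X') = ε`.  `P = X ∩ X'`, `Q = X ∪ X'` are
`σ`-invariant.  Submodularity: `e(P) + e(Q) ≤ e(X) + e(X') = 2 ε` (for the disjoint sets `P`, `A = X \ X'`,
`A' = X' \ X`, `O = Z~ \ Q`: `e(X) + e(X') - e(P) - e(Q) = 2 w(A, A')`).
`μ(Z~ \ P) ≥ |S₀ \ X| > 2 ε ≥ e(P)`, so `μ(P) ≤ e(P)` by (B); `μ(Q) ≥ |X ∩ S₀| > 2 ε ≥ e(Q)`, so
`μ(Z~ \ Q) ≤ e(Q)`.  So `μ(P) + μ(O) ≤ 2 ε`.
`U = A = X \ X'`, `S = S₀ ∩ U`; `A' = σ A`.  `e(A) ≤ ε`: `e(A) + e(A') ≤ e(X) + e(X')` (the difference is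
`2 w(P, O)`), and `e(A') = e(A)`.  `|S₀| = |S₀ ∩ P| + |S₀ ∩ O| + |S₀ ∩ A| + |S₀ ∩ A'| ≤ 2 ε + 2 |S|`, and
`16 ε < |S₀|` (as `b ≥ 1`), so `|S₀| ≤ 4 |S|`, and `N < Δ + d |S₀| ≤ Δ + 4 d |S|`.  Moreover
`16 b ε < |S₀| ≤ 4 |S|`, so `4 b ε < |S|`.
Let `Y ⊆ U` with `|S| ≤ b |Y ∩ S|`, `|S| ≤ b |S \ Y|`.  `T = Y ∪ σ Y` (disjoint: `Y ⊆ A`, `σ Y ⊆ A'`).
`μ(T) = 2 μ(Y)`; `Z~ \ T` contains `U \ Y` and its image, so `μ(Z~ \ T) ≥ 2 μ(U \ Y)`.  (B):
`2 min (μ(Y), μ(U \ Y)) ≤ e(T) = w(Y, Z~ \ T) + w(σ Y, Z~ \ T) = 2 w(Y, Z~ \ T)`, and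
`w(Y, Z~ \ T) ≤ w(Y, U \ Y) + w(U, Z~ \ U) ≤ w(Y, U \ Y) + ε`.  So
`|S| ≤ b min (|Y ∩ S|, |S \ Y|) ≤ b min (μ(Y), μ(U \ Y)) ≤ b w(Y, U \ Y) + b ε`, and with `4 b ε < |S|`:
`|S| ≤ 2 b w(Y, U \ Y) ≤ 16 b w(Y, U \ Y)`. -/
def S_Bad2 : Prop := ∀ (α : Type) [Fintype α] [DecidableEq α] (Γ : SimpleGraph α) (σ : α → α)
  (d Δ N b : ℕ) (Z : Finset (Finset α)), (∀ x, σ (σ x) = x) →
  (∀ x y, Γ.Adj (σ x) (σ y) ↔ Γ.Adj x y) → (∀ x A, wt (ind Γ) {x} A ≤ d) →
  Bad (WB Γ σ) Δ N Z → ∃ U S : Finset α, S ⊆ U ∧ N < Δ + 4 * d * S.card ∧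
    ∀ Y ⊆ U, S.card ≤ b * (Y ∩ S).card → S.card ≤ b * (S \ Y).card →
      S.card ≤ 16 * b * wt (ind Γ) Y (U \ Y)

/-- **D6.** The skeleton of `Cl D` is symmetric.

Proof. `sg D` is an antitone involution, so `x ≤ y ↔ sg y ≤ sg x`, `x < y ↔ sg y < sg x`; and
`c x = c y ↔ c (sg x) = c (sg y)`.  `Cons c univ x y ↔ Cons c univ (sg y) (sg x)`,
`Ess c x y ↔ Ess c (sg y) (sg x)` (substitute `z = sg z'`; `ChainP c`: `x < z'` implies `y ≤ z'` for all `z'` of the
class iff there is no element strictly between `x` and `y`). -/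
def S_SymG : Prop := ∀ (n : ℕ) (V : Type) (D : SimpleGraph V) [Fintype (Cl D)] (c : Cl D → Fin n),
  ChainP c →
  (∀ x y, c x = c y → c (sg D x) = c (sg D y)) → (∀ x : Cl D, sg D (sg D x) = x) ∧
  ∀ x y, (Gam c Finset.univ).Adj (sg D x) (sg D y) ↔ (Gam c Finset.univ).Adj x y

/-- **D7.** From a carving of the blocks of `Cl D` to a layout of `D` (uses D3, D4).

Proof. `Γ = Gam c univ`, `σ = sg D`.  Call `v` isolated if it has no neighbours.  For a vertex `v` which is not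
isolated let `cl v : Cl D` be `cn (cn {v})`: `cn {v} = N(v)` is not empty, `v ∈ cn (cn {v})`, `cn3`.
(1) `u, v` not isolated: `D.Adj v u ↔ cl v ≤ σ (cl u)`: `σ (cl u) = cn {u}`; `cl v ⊆ cn {u}` implies
`v ∈ cn {u}`; if `v ∈ cn {u}` then `{v} ⊆ cn {u}` and `cl v = cn (cn {v}) ⊆ cn (cn (cn {u})) = cn {u}`.
(2) For `Z : Finset (Finset (Cl D))` let `V_Z = {v | v not isolated, blk σ (cl v) ∈ Z}` and suppose
`wt (WB Γ σ) Z Zᶜ ≤ N`.  Let `Y = pre σ Z`; by D4 `wt (ind Γ) Y Yᶜ ≤ N`.  For `v ∈ V_Z` (so `cl v ∈ Y`) the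
trace `D.neighborSet v \ V_Z` consists of the `u`, not isolated, `u ∉ V_Z`, with `cl v ≤ σ (cl u)`, and
`u ∉ V_Z` implies `cl u ∉ Y` and `σ (cl u) ∉ Y` (same block).  So the trace is determined by the set
`{b | b ∉ Y ∧ cl v ≤ b}`, and D3 (with `e = N`) shows that there are at most `n (N + 2) ^ n` traces:
`(Types D V_Z).encard ≤ n (N + 2) ^ n` (all sets are finite).
(3) For `x : Cl D` and any set `A` of vertices which are not isolated with `cl v ∈ {x, σ x}` for `v ∈ A` there are at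
most two traces (`D.neighborSet v = σ (cl v)` as a set takes at most two values on `A`).  So every such finite set
has a layout of width `2` (add the vertices one by one).
(4) By induction on `Carv (WB Γ σ) N Z`: `Lay D k V_Z` with `k = 2 + n (N + 2) ^ n`.  `Z = ∅`: `V_Z = ∅`.
`Z = {b}`: (3) (`V_Z` is empty or `b = {x, σ x}`).  `Z = A ∪ B`: `V_Z = V_A ∪ V_B` (disjoint), (2) and
`Lay.union`.  For `Z = univ`: `V_Z` is the set of all vertices which are not isolated.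
(5) Add the isolated vertices one by one: `Lay D k {v}` (no types), and for a set `A` and `v` isolated, `v ∉ A`:
`Types D (A ∪ {v})` is contained in `Types D A` (neighbourhoods contain no isolated vertices, and `v` has no
nonempty trace).  The set of the isolated vertices is finite.  Every `Lay` set `A` satisfies
`(Types D A).encard ≤ k`, except that for `A = ∅` use `Types D ∅ = ∅`. -/
def S_CarvLay : Prop := ∀ (n N : ℕ) (V : Type) [Finite V] (D : SimpleGraph V) [Fintype (Cl D)]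
  [DecidableEq (Cl D)] (c : Cl D → Fin n), TriFree D → ChainP c →
  Carv (WB (Gam c Finset.univ) (sg D)) N Finset.univ → Lay D (2 + n * (N + 2) ^ n) Set.univ

/-- **D8.** The bounded width theorem (uses A1, B1, C7, D2, D4, D5, D6, D7, E3, E4, E8, E9, E10, P9).

Proof. `n = 2 w`, `M = 200 + 8 s`.  `m₀`: the maximum of the numbers of E10 for `s` and the three graphs
`F1, F2, F3` (`N = 13, 13, 12`); they have proper 2-colourings (e.g. for `F1` the colouring
`![false, true, true, true, false, true, false, true, false, true, false, true, false]`; `decide` over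
`Fin 13`), so `¬ CoM D m₀` (a co-matching of size `m₀` is one of every smaller size).
Let `M₂ r` be the number of E9 for `(r, M)`, `M₁ r` the number of E8 for `(m₀, r, M₂ r)`, `μ r` the maximum of
`M₁ r'`, `r' ≤ r`, and `f r` the number of E3 for `(w, r, μ r)`.  Let `N₁` be the number of C7 for
`n, q = 64 n, f`, and `N = 4 n + 8 n N₁`.
Let `D` be given; `Cl D` is finite; choose (classical) instances `Fintype (Cl D)`, `DecidableEq (Cl D)`.  D2 gives
`c : Cl D → Fin n`.  `Γ = Gam c univ`, `σ = sg D`; D6.  A1 for `WB Γ σ`, `Δ = 4 n`, `N`: symmetry is clear;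
`wt (WB Γ σ) {b} {b}ᶜ = wt (ind Γ) (pre σ {b}) (pre σ {b})ᶜ ≤ 4 n` by D4 and B1, as `pre σ {b}` has at most two
elements (`b = {x, σ x}` if `x ∈ pre σ {b}`).
(I) A carving: D7 gives `Lay D (2 + n (N + 2) ^ n) univ`.
(II) `Bad (WB Γ σ) (4 n) N Z`: D5 with `d = 2 n` (B1), `b = 4 n` gives `U, S` with
`4 n + 8 n N₁ = N < 4 n + 8 n |S|`, so `N₁ ≤ |S|`, and `WL c U S (4 n) (64 n)`: for `Y ⊆ U`
`wt (ind Γ) Y (U \ Y) ≤ wt (ind (Gam c U)) Y (U \ Y)`, because `Γ.Adj x y` with `x, y ∈ U` implies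
`(Gam c U).Adj x y` (consecutive in everything implies consecutive in `U`).  C7: a closed bundle of size `f r`
with `r` steps.  E3 with E4 and `WidP (Cl D) w`: `Alt (μ r) r' v'`, `r' ≤ r`; restrict it to `Alt (M₁ r') r' v'`
(`Alt` of size `m` implies `Alt` of every smaller size).  E8, E9: `HGC D M r' z E`, contradicting P9. -/
def S_BW : Prop := ∀ w s : ℕ, ∃ N : ℕ, ∀ (V : Type) [Finite V] (D : SimpleGraph V), TriFree D →
  WidP (Cl D) w → (¬ IsIndMinor (KCo s F1) Dᶜ ∨ ¬ IsIndMinor (KCo s F2) Dᶜ ∨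
    ¬ IsIndMinor (KCo s F3) Dᶜ) → Lay D N Set.univ

/-- **D9.** Layouts of the complement.

Proof. For every set `A` of vertices the traces of `Dᶜ` are `(Dᶜ).neighborSet a \ A`, which is
`Aᶜ \ (D.neighborSet a \ A)` for `a ∈ A` (`a` itself is in `A`).  So
`Types Dᶜ A` is contained in the image of `Types D A ∪ {∅}` under `T ↦ Aᶜ \ T`, and
`(Types Dᶜ A).encard ≤ (Types D A).encard + 1 ≤ k + 1`.  Induction on `Lay`. -/
def S_LayC : Prop := ∀ (V : Type) (D : SimpleGraph V) (k : ℕ) (A : Set V), Lay D k A →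
  Lay Dᶜ (k + 1) A

/-- **D10.** Induced minors of a graph with fewer vertices of `F`.

Proof. The model `B` of `KCo s F` gives the model `inl t ↦ B (inl t)`, `inr i ↦ B (inr (f i))` of
`KCo s F'`: `(KCo s F').Adj u v ↔ (KCo s F).Adj (id ⊕ f u) (id ⊕ f v)` for all `u, v`. -/
def S_KSub : Prop := ∀ (s : ℕ) (W W' V : Type) (F : SimpleGraph W) (F' : SimpleGraph W')
  (G : SimpleGraph V) (f : W' → W), Function.Injective f → (∀ i j, F'.Adj i j ↔ F.Adj (f i) (f j)) →
  IsIndMinor (KCo s F) G → IsIndMinor (KCo s F') G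

/-- **D11.** The pair `(3 P_1, K_s ∨ co(5 P_2))` is bounded (uses D8, D9, D10, E11 and `layCW`).

Proof. Let `G` have no induced minor `⊥ : SimpleGraph (Fin 3)` and no induced minor `KCo s (nP2 5)`; `D = Gᶜ`,
`Dᶜ = G`.  `D` is triangle-free: a triangle `x, y, z` of `D` gives the model `{x}, {y}, {z}` of `⊥` in `G`.
E11 (`k = 5`): `WidP (Cl D) w`.  `nP2 5` is an induced subgraph of `F1` (`(0, _) ↦ 3, 4`, `(i, _) ↦ 3 + 2 i,
4 + 2 i`; the vertices `3, 4, .., 12` of `F1`), so `G` has no induced minor `KCo s F1` (D10).  D8: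
`Lay D N univ`, D9: `Lay G (N + 1) univ`, and `S_LayCW` (proved in `LayCW.lean`) gives a bound for the
clique-width. -/
def S_5P2 : Prop := ∀ s : ℕ, BoundedCW (⊥ : SimpleGraph (Fin 3)) (KCo s (nP2 5))

/-- **D12.** Bounded width in the form of a class of graphs (uses D8, D9, E11).

Proof. As D11: `KCo s (nP2 k)` gives `WidP (Cl D) w`, then D8 and D9, `S_LayCW`. -/
def S_BWk : Prop := ∀ k s : ℕ, ∃ c : ℕ, ∀ (V : Type) [Finite V] [Nonempty V] (G : SimpleGraph V),
  ¬ IsIndMinor (⊥ : SimpleGraph (Fin 3)) G → ¬ IsIndMinor (KCo s (nP2 k)) G →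
  (¬ IsIndMinor (KCo s F1) G ∨ ¬ IsIndMinor (KCo s F2) G ∨ ¬ IsIndMinor (KCo s F3) G) → CWLe c G

end Pool.Agent.MPd439b2.W
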