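import Pool.Agent.Lib.MP_d439b2_co.W.SpecT
import Pool.Agent.Lib.MP_d439b2_co.SA.SpecTT

/-!
# MP_d439b2_co, W, Spec U: one component of the light graph, general `k` (helper28)

The same as Spec T, for graphs without merged `S_{2,2,3} + k P_2` (`SA.NoSpi k D`).  The modules T3, .., T14, T16
(only as a pattern), T17, T21, T22 of Spec T are used; the other modules of Spec T are replaced by the following ones.
The final statement is `SA.S_OneComp`.
Every `S_...` is a statement to be proved in its own file; the docstring contains the complete proof.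
`v ~ w` means `D.Adj v w`.
-/

set_option autoImplicit false

namespace Pool.Agent.MPd439b2.W

open Pool.Agent.MPd439b2

/-- the situation, general `k` (compare `Sit`) -/
structure SitU {V : Type} (k h n : ℕ) (D : SimpleGraph V) (a b : ℕ → V) (U K : Set V) : Prop where
  tri : TriFree D
  noS : SA.NoSpi k D
  im : IM D n a b
  light : ∀ v, v ∈ U → (Jt D n a b v).card ≤ h
  full : ∀ v, v ∉ U → n ≤ (Jt D n a b v).card + h
  comp : IsComp D U K
  big : (2 * k + 60) * (h + 1) ≤ n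

/-- **U1.** No spiders in `K` (uses `SA.S_Pt`; compare T2, `W/NoSpK.lean`).

Proof. Let `u` be a spider in `K`.  Its 8 vertices touch together at most `8 h` edges, so there are `k` different
indices `o 0, .., o (k - 1) < n` which are not touched.  `SA.S_Pt` with `c, x₁, y₁, x₂, y₂, x₃, y₃, z₃ = u 0, .., u 7`,
`p t = a (o t)`, `q t = b (o t)` (`IM.comp`). -/
def S_NoSpU : Prop := ∀ (k h n : ℕ) (V : Type) (D : SimpleGraph V) (a b : ℕ → V) (K : Set V),
  TriFree D → SA.NoSpi k D → IM D n a b → (∀ v ∈ K, (Jt D n a b v).card ≤ h) →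
  8 * h + k ≤ n → ¬ Sp D K

/-- **U2.** Sets of light vertices contain no merged spider.

Proof. We show `¬ IsIndMinor (KCo 0 F3) (D.induce W)ᶜ`.  Let `B` be a model, `A i = B (inr i)` for the first eight
vertices `i` of `F3` (`Fin.castLE`, a spider: `S223`, `spE`).  For `i ≠ j`: if `S223.Adj i j` there is no edge of
`(D.induce W)ᶜ` between `A i` and `A j`, which are disjoint, so `A i` and `A j` are completely adjacent in `D`.  If not
`S223.Adj i j` there are `w i j ∈ A i` and `w' i j ∈ A j` which are not adjacent in `D`; use `w i j` and `w j i = w' i j` for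
`i < j`, so `w i j ∈ A i`, `w j i ∈ A j`, `w i j ≁ w j i`.  Let `g i` be the finite set of the vertices `w i j` (in `V`), `j`
running through the vertices `j ≠ i` not adjacent to `i` in the spider: at most 7 elements, not empty, contained in `A i`.
The at most 56 vertices of the sets `g i` are in `W`, so they touch at most `56 h` edges `a l, b l`; let `o 0, .., o (k - 1)`
be different indices `< n` which are not touched.  `SA.Spi D k g p q` with `p t = {a (o t)}`, `q t = {b (o t)}`: `gdis`: the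
sets `A i` are disjoint; `gcmp`: edges: `A i`, `A j` are completely adjacent; non-edges: `w i j ≁ w j i`; `gp`, `gq`: `x ∈ g i`
is not adjacent to `a (o t)`, `b (o t)`, and different from them, because `a (o t) ~ b (o t)`; the rest by `IM`.
Contradiction. -/
def S_ExclW : Prop := ∀ (k h n : ℕ) (V : Type) (D : SimpleGraph V) (a b : ℕ → V) (W : Set V),
  TriFree D → SA.NoSpi k D → IM D n a b → (∀ v ∈ W, (Jt D n a b v).card ≤ h) →
  56 * h + k ≤ n → Excl 0 (D.induce W)

/-- **U3.** A full vertex which touches `K` has boundedly many null edges far from each other (uses `SA.S_Pt`, T17;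
compare T18, `W/Dirt.lean`).

Proof. Suppose the levels satisfy `lam (p j) + 6 ≤ lam (p i)` for `j < i < k + 2`.  T17 for `p 0, q 0`: `z₀, z₁, z₂`.
`c = lam z₁`.  Call `i < k + 2` hit if `z₀`, `z₁` or `z₂` is adjacent to `p i` or `q i`; then `c ≤ lam (p i) + 3` and
`lam (p i) ≤ c + 3` (levels).  Three hit indices are impossible (their levels would differ by at least 12).  So there are
`k` indices `i 0 < .. < i (k - 1)` which are not hit; `P j = p (i j)`, `Q j = q (i j)`.  `IM D k P Q`: `lam (q i)` differs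
from `lam (p i)` by at most one, so for different indices all levels differ by at least four (`Lvl.nadj`).
`G` = the set of the `l < n` which are touched by `f` and not by the `3 + 2 k` vertices `z₀, z₁, z₂, P j, Q j`.  These are
in `K ⊆ U`, so `|G| ≥ n - h - (3 + 2 k) h ≥ 2`.  Let `l₁ ≠ l₂` be elements of `G`; `x₁` the end of the edge `l₁` adjacent
to `f`, `y₁` the other end; `x₂, y₂` for `l₂`.
`SA.S_Pt` with `c = f`, `x₁, y₁, x₂, y₂`, `x₃, y₃, z₃ = z₀, z₁, z₂`, `P`, `Q`: the edges `l₁ ≠ l₂` are not adjacent (`IM`)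
and not touched by `z₀, z₁, z₂`; `f ≁ z₂`; `f ≁ P j, Q j`; `x₁, y₁, x₂, y₂` are not adjacent to `P j, Q j` because
`P j, Q j` do not touch `l₁`, `l₂`; `z₀, z₁, z₂` are not adjacent to them because the indices are not hit. -/
def S_DirtU : Prop := ∀ (k h n : ℕ) (V : Type) (D : SimpleGraph V) (a b : ℕ → V) (U K : Set V)
  (lam : V → ℕ) (r f : V) (p q : ℕ → V), SitU k h n D a b U K → Lvl D K lam r → f ∉ U →
  (∃ v ∈ K, D.Adj f v) → (∀ i < k + 2, p i ∈ K ∧ q i ∈ K ∧ D.Adj (p i) (q i) ∧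
    ¬ D.Adj f (p i) ∧ ¬ D.Adj f (q i)) → ¬ ∀ i < k + 2, ∀ j < i, lam (p j) + 6 ≤ lam (p i)

/-- **U4.** Change of sign.

Proof. By the hypotheses and the absence of triangles (`p i ~ q i`): `f i ~ p j` iff `i < j`, and `f i ~ q j` iff `j < i`
(`i, j < k + 6`).  The `f i` are different (`i < j`: `f i ~ p j`, `f j ≁ p j`), and `f i` is not a vertex `p j`, `q j`: there is
`l < k + 6`, `l ≠ i`, `l ≠ j`, and `f i ~ p l` or `f i ~ q l`, but `p j`, `q j` are not adjacent to `p l`, `q l`.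
`SA.Spi D k g P Q` with `g = ![{f 0}, {p 2}, {q 2}, {p 3}, {q 3}, {p 1}, {q 1}, {f 2, f 4}]` and
`P t = {p (t + 5), f (t + 6)}`, `Q t = {q (t + 5)}` for `t + 6 < k + 6`.
Complete: `f 0 ~ p 2, p 3, p 1`; `p i ~ q i`; `q 1 ~ f 2, f 4`; `q j ~ p j, f (j + 1)`.
Not complete (for each pair of blocks a non-adjacent pair of vertices): `f 0 ≁ q i`, `f 0 ≁ f 2`; `p 2 ≁ f 2`, `q 2 ≁ f 2`,
`p 3 ≁ f 4`, `q 3 ≁ f 2`, `p 1 ≁ f 2`; the pairs of vertices `p i`, `q i` with different indices by `IM`;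
`j = t + 5`: `f 0 ≁ f (j + 1)`, `f 0 ≁ q j`; `f 2 ≁ f (j + 1)`, `f 2 ≁ q j`; between different `j` use `p j`, `q j` (`IM`). -/
def S_Sgn : Prop := ∀ (k : ℕ) (V : Type) (D : SimpleGraph V) (f p q : ℕ → V), TriFree D →
  IM D (k + 6) p q → (∀ i < k + 6, ∀ j < k + 6, ¬ D.Adj (f i) (f j)) →
  (∀ i < k + 6, ¬ D.Adj (f i) (p i) ∧ ¬ D.Adj (f i) (q i)) →
  (∀ i j, i < j → j < k + 6 → D.Adj (f i) (p j) ∧ D.Adj (f j) (q i)) → ¬ SA.NoSpi k D

/-- **U5.** Null edges of different full vertices (uses E7 = `S_RamC`, M3 = `S_Dig`, U3, U4; compare T19,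
`W/NullF.lean`).

Proof. `M = m₀ + k + 9`, `N` the number of E7 for `κ = Fin 3 → Prop` and `M`; `T = (2 k + 3) N`.  Suppose that the levels
satisfy `lam (p j) + 6 ≤ lam (p i)` for `j < i < T`.
(1) For `i < T` let `R i j` mean `f i ≁ p j` and `f i ≁ q j`.  There are at most `k + 1` indices `j < T` with `R i j`:
`k + 2` of them in increasing order contradict U3 for `f i`.  M3 (`τ = k + 1`, `m = N`, `I = range T`) gives `N` indices such
that for different `i, j` among them `f i` is adjacent to `p j` or to `q j` (not to both, no triangles).  Enumerate them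
increasingly and rename them `0, .., N - 1`.
(2) E7 for `χ i j = ![f i ~ f j, f i ~ p j, f j ~ p i]`: `M` indices (rename them `0, .., M - 1`, increasing) such that for
`i < j < M` these three truth values are constant, `α, β, γ`.  `α` is false (otherwise `f 0, f 1, f 2` is a triangle).
For `i < j`: `f i ~ p j` iff `β`, `f i ~ q j` iff not `β`, `f j ~ p i` iff `γ`, `f j ~ q i` iff not `γ`.
(3) `β` and `γ`: `CoM D m₀` with `f`, `p` (`f i ≁ p i`).  Not `β` and not `γ`: `CoM D m₀` with `f`, `q`.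
(4) `β` and not `γ`: U4 with `f, p, q` (`IM D (k + 6) p q` by the levels, `Lvl.nadj`).
(5) Not `β` and `γ`: U4 with `f, q, p` (`IM.swap`). -/
def S_NullU : Prop := ∀ k m₀ : ℕ, ∃ T : ℕ, ∀ (h n : ℕ) (V : Type) (D : SimpleGraph V)
  (a b : ℕ → V) (U K : Set V) (lam : V → ℕ) (r : V) (f p q : ℕ → V), SitU k h n D a b U K →
  ¬ CoM D m₀ → Lvl D K lam r → (∀ i < T, f i ∉ U ∧ (∃ v ∈ K, D.Adj (f i) v) ∧
    p i ∈ K ∧ q i ∈ K ∧ D.Adj (p i) (q i) ∧ ¬ D.Adj (f i) (p i) ∧ ¬ D.Adj (f i) (q i)) →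
  ¬ ∀ i < T, ∀ j < i, lam (p j) + 6 ≤ lam (p i)

/-- **U6.** A clean block of levels (uses U5; the same proof as T20, `W/Zone.lean`). -/
def S_ZoneU : Prop := ∀ k m₀ Z : ℕ, ∃ E : ℕ, ∀ (h n : ℕ) (V : Type) (D : SimpleGraph V)
  (a b : ℕ → V) (U K : Set V) (lam : V → ℕ) (r : V), SitU k h n D a b U K →
  ¬ CoM D m₀ → Lvl D K lam r → ∃ d, Z ≤ d ∧ d + Z ≤ E ∧
    ∀ f, f ∉ U → (∃ v ∈ K, D.Adj f v) → ∀ p ∈ K, ∀ q ∈ K, D.Adj p q → d ≤ lam p →
      lam p ≤ d + Z → D.Adj f p ∨ D.Adj f q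

/-- **U7.** Cuts of `K` (uses O14 = `S_OSep`, T15 = `S_WidS`; the same proof as T16, `W/CutK.lean`).

Proof. As T16 with `s = 0`: `Excl 0 (D.induce W)` for the window `W` is a hypothesis; `TriFree (D.induce W)` and
`¬ CoM (D.induce W) m₀` are clear (apply `Subtype.val`). -/
def S_CutU : Prop := ∀ m₀ f : ℕ, ∃ N : ℕ, ∀ (V : Type) [Finite V] (D : SimpleGraph V)
  (K : Set V) (lam : V → ℕ) (d : ℕ), TriFree D → (∀ W ⊆ K, Excl 0 (D.induce W)) → ¬ CoM D m₀ →
  (∀ u ∈ K, ∀ v ∈ K, D.Adj u v → lam u ≤ lam v + 1) →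
  (∀ a b, IM D f a b → ¬ ∀ i < f, (a i ∈ K ∧ d ≤ lam (a i) ∧ lam (a i) ≤ d + 15) ∧
    (b i ∈ K ∧ d ≤ lam (b i) ∧ lam (b i) ≤ d + 15)) →
  ∃ X ⊆ K, (∀ v ∈ K, lam v ≤ d → v ∈ X) ∧ (∀ v ∈ X, lam v < d + 15) ∧
    (TyIn D K X).encard ≤ N

/-- **U8.** **One component of the light graph**, general `k` (uses U1, U2, T3, T4, T5, T13, U7, U6, T21, T22; compare
T23, `W/TT1.lean`).  The statement is `SA.S_OneComp`.

Proof. Given `k, m, h`: `f` from T13 for `l = 15`; `N` from U7 for `(m, f + 1)`; `c = N + 2 ^ N + 5`.  Given `B`: `E` from U6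
for `(k, m, B + 51)`, `L` from T5 for `t = h`, `d = E`; `n₀ = (2 k + 60) (h + 1) + L + 1`.
(1) `U = SA.Lig D h n a b`.  `IsComp` in `SA.S_OneComp` is the one of `Defs5` (`K ⊆ U`, `Conn D K`, no vertex of `U` is in
`nb D K`); it gives `W.IsComp D U K`.  `n₀ ≤ |I| ≤ n`.  `SitU k h n D a b U K`: `full`: a vertex outside `U` is complete to
all `b i` or to all `a i` (`CMh.tr`), so it touches all `n` edges.  `¬ Sp D K`: U1; `Excl 0 (D.induce W)` for
`W ⊆ K`: U2.
(2) Enumerate `I` by `σ`, `n' = |I|`: `a' = a ∘ σ`, `b' = b ∘ σ` is an induced matching of size `n'` in `K`, every vertex of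
`K` touches at most `h` of its edges.  `r = a' 0`; T3: `Lvl D K lam r`.  By T5 (`v = r`, all indices; `L < n'`) there is
`w = a' i ∈ K` with `¬ Nr D K E r w`; so `E < lam w` (T4, `Dn.nr_root`, `Nr.mono`).  `51 ≤ E` (see (4)), so `12 ≤ lam w`.
(3) For every `d`: by T13 there is no induced matching of size `f + 1` in the window `d, .., d + 15` of `K`; U7 gives
`X(d)`.
(4) U6: `d` with `B + 51 ≤ d`, `d + B + 51 ≤ E`.  `X₁ = X(d + 12)`, `X₂ = X(d + B + 36)`.  `X₁ ⊆ X₂`: `v ∈ X₁` satisfies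
`lam v < d + 27 ≤ d + B + 36`.  `Z = X₂ \ X₁`: for `z ∈ Z`: `d + 12 < lam z < d + B + 51`.
(5) T21 with `F` = the set of the `f ∉ U` with a neighbour in `K`, `e = d + B + 51`: at most four traces on `Z`.  The other
`f ∉ U` have the trace `∅`.  T22 with `t = 5`: `(Types D Zᶜ).encard ≤ c`; `Rep.cr_types`: `LK.cr D Zᶜ ≤ c`.
(6) `X = Zᶜ`.  Let `p` be a down path of `w` (T4).  For `d + 27 ≤ j ≤ d + B + 36` (`≤ lam w`): `p j ∈ X₂`, `p j ∉ X₁`; these are
more than `B` different vertices of `Z = Xᶜ`.  For `j ≤ d + 12`: `p j ∈ X₁`, so `p j ∉ Z`: more than `B` different vertices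
of `X`. -/
def S_OneC : Prop := SA.S_OneComp

end Pool.Agent.MPd439b2.W
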