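import Pool.Agent.Lib.MP_d439b2_co.W.SpecP

/-!
# MP_d439b2_co, W/X2: two ladders, complete to each other crosswise
-/

set_option autoImplicit false

namespace Pool.Agent.MPd439b2.W

open Pool.Agent.MPd439b2

namespace X2Aux

theorem pat_gen {V : Type} {D : SimpleGraph V} {M r h : ℕ} {z : ℕ → ℕ → Finset V}
    {E E' : ℕ → ℕ → Prop} (hP : Pat D M r z E) (ρ : ℕ → ℕ) (hρ : ∀ i ≤ 3, ρ i ≤ r)
    (I : ℕ → ℕ → ℕ) (hI : ∀ i ≤ 3, ∀ k < h, I i k < M)
    (hrel : ∀ i ≤ 3, ∀ j ≤ 3, ∀ k l, k < l → l < h →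
      (I i k < I j l ∧ (E' i j ↔ E (ρ i) (ρ j))) ∨ (I j l < I i k ∧ (E' i j ↔ E (ρ j) (ρ i)))) :
    Pat D h 3 (fun i k => z (ρ i) (I i k)) E' := by
  have hne : ∀ i ≤ 3, ∀ j ≤ 3, ∀ k l, k < l → l < h → I i k ≠ I j l := by
    intro i hi j hj k l hkl hl
    rcases hrel i hi j hj k l hkl hl with h1 | h1
    · exact h1.1.ne
    · exact h1.1.ne'
  refine ⟨fun i hi k hk => hP.ne _ (hρ i hi) _ (hI i hi k hk), ?_, ?_⟩
  · intro i hi j hj k hk l hl hkl
    apply hP.dis _ (hρ i hi) _ (hρ j hj) _ (hI i hi k hk) _ (hI j hj l hl)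
    rcases lt_or_gt_of_ne hkl with h1 | h1
    · exact hne i hi j hj k l h1 hl
    · exact (hne j hj i hi l k h1 hk).symm
  · intro i hi j hj k l hkl hl
    rcases hrel i hi j hj k l hkl hl with ⟨h1, h2⟩ | ⟨h1, h2⟩
    · rw [h2]
      exact hP.rel _ (hρ i hi) _ (hρ j hj) _ _ h1 (hI j hj l hl)
    · rw [h2, ← hP.rel _ (hρ j hj) _ (hρ i hi) _ _ h1 (hI i hi k (by omega))]
      exact ⟨fun h => h.symm, fun h => h.symm⟩

/-- the four rails -/
def rh (p p' q q' i : ℕ) : ℕ := if i = 0 then p else if i = 1 then p' else if i = 2 then q else q'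

end X2Aux

open X2Aux in
theorem x2 (hT : S_Tri) (hA : S_Atoms) (hF : S_FSub) : S_X2 := by
  intro s V D M r z E htf hP hM
  rintro ⟨p, hp, p', hp', q, hq, q', hq', hpp', hp'p, hcase, hq'p, hqp'⟩
  have hdiag : ∀ i ≤ r, ¬ E i i := fun i hi h =>
    hT V D M r z E htf hP (by omega) i hi i hi i hi ⟨h, h, h⟩
  have dp := hdiag p hp
  have dp' := hdiag p' hp'
  have dq := hdiag q hq
  have dq' := hdiag q' hq'
  have hρ : ∀ i ≤ 3, rh p p' q q' i ≤ r := by
    intro i hi
    unfold rh
    split_ifs <;> assumption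
  rcases hcase with ⟨h1, h2⟩ | ⟨h1, h2⟩
  · set E' : ℕ → ℕ → Prop := fun i j =>
      if i ≤ 1 ∧ 2 ≤ j then E (rh p p' q q' j) (rh p p' q q' i)
      else E (rh p p' q q' i) (rh p p' q q' j) with hE'
    have hpat : Pat D (48 + 4 * s) 3 (fun i k => z (rh p p' q q' i)
        (if i ≤ 1 then 48 + 4 * s + k else k)) E' := by
      refine pat_gen hP _ hρ (fun i k => if i ≤ 1 then 48 + 4 * s + k else k) ?_ ?_
      · intro i _ k hk
        split_ifs <;> omega
      · intro i _ j _ k l hkl hl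
        by_cases hi1 : i ≤ 1 <;> by_cases hj1 : j ≤ 1
        · left
          have h3 : ¬ (i ≤ 1 ∧ 2 ≤ j) := by omega
          simp only [hE']
          rw [if_pos hi1, if_pos hj1, if_neg h3]
          exact ⟨by omega, Iff.rfl⟩
        · right
          have h3 : i ≤ 1 ∧ 2 ≤ j := by omega
          simp only [hE']
          rw [if_pos hi1, if_neg hj1, if_pos h3]
          exact ⟨by omega, Iff.rfl⟩
        · left
          have h3 : ¬ (i ≤ 1 ∧ 2 ≤ j) := by omega
          simp only [hE']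
          rw [if_neg hi1, if_pos hj1, if_neg h3]
          exact ⟨by omega, Iff.rfl⟩
        · left
          have h3 : ¬ (i ≤ 1 ∧ 2 ≤ j) := by omega
          simp only [hE']
          rw [if_neg hi1, if_neg hj1, if_neg h3]
          exact ⟨by omega, Iff.rfl⟩
    have hkn : Kn eT2 3 E' := by
      intro i hi j hj
      simp only [hE', rh]
      interval_cases i <;> interval_cases j <;> simp [eT2, *]
    exact hF s V Dᶜ (hA eT2 3 48 16 (48 + 4 * s) s l0 _ _ V D _ E' chkT2 hkn (by norm_num)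
      (by simpa [hE', rh] using hpp') (by simpa [hE', rh] using hp'p) le_rfl htf hpat)
  · set E' : ℕ → ℕ → Prop := fun i j =>
      if 2 ≤ j then E (rh p p' q q' j) (rh p p' q q' i)
      else E (rh p p' q q' i) (rh p p' q q' j) with hE'
    have hpat : Pat D (48 + 4 * s) 3 (fun i k => z (rh p p' q q' i)
        (if i ≤ 1 then 48 + 4 * s + k else 48 + 4 * s - 1 - k)) E' := by
      refine pat_gen hP _ hρ (fun i k => if i ≤ 1 then 48 + 4 * s + k
        else 48 + 4 * s - 1 - k) ?_ ?_
      · intro i _ k hk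
        split_ifs <;> omega
      · intro i _ j _ k l hkl hl
        by_cases hi1 : i ≤ 1 <;> by_cases hj1 : j ≤ 1
        · left
          have h3 : ¬ (2 ≤ j) := by omega
          simp only [hE']
          rw [if_pos hi1, if_pos hj1, if_neg h3]
          exact ⟨by omega, Iff.rfl⟩
        · right
          have h3 : 2 ≤ j := by omega
          simp only [hE']
          rw [if_pos hi1, if_neg hj1, if_pos h3]
          exact ⟨by omega, Iff.rfl⟩
        · left
          have h3 : ¬ (2 ≤ j) := by omega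
          simp only [hE']
          rw [if_neg hi1, if_pos hj1, if_neg h3]
          exact ⟨by omega, Iff.rfl⟩
        · right
          have h3 : 2 ≤ j := by omega
          simp only [hE']
          rw [if_neg hi1, if_neg hj1, if_pos h3]
          exact ⟨by omega, Iff.rfl⟩
    have hkn : Kn eT2 3 E' := by
      intro i hi j hj
      simp only [hE', rh]
      interval_cases i <;> interval_cases j <;> simp [eT2, *]
    exact hF s V Dᶜ (hA eT2 3 48 16 (48 + 4 * s) s l0 _ _ V D _ E' chkT2 hkn (by norm_num)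
      (by simpa [hE', rh] using hpp') (by simpa [hE', rh] using hp'p) le_rfl htf hpat)

end Pool.Agent.MPd439b2.W
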